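import Pool.Agent.Helper29L.Lat4
import Pool.Agent.N774.PQ.TTB

/-!
# Job LAT, part 5: zeros of the tuple modulo `Q`
-/

set_option autoImplicit false
set_option linter.all false

open IsDedekindDomain NumberField Matrix
open scoped Classical

namespace Pool.Agent.Helper29L

open Pool.Agent.N922.PQ
open Pool.Agent.N301.PQ (mem_P1 val_lt_mem exO theta_ex mapO poly_mem)
open Pool.Agent.N227.PQ (co_crd eq_co co_smul co_int_smul co_th det_T)
open Pool.Agent.N774.PQ (quad prm)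
open Pool.Agent.N874.PP (Tup chA chB gq tau Two Ev Sq1 U0 sW)

section lat

variable {L : Type} [Field L] [NumberField L]

/-- A normalised basis of the lattice. -/
structure NBas {a' b' : ℤ} {θ' : L} (h' : IsCub a' b' θ') (D : ℤ) (α : L) (e : Fin 3 → L)
    (B : Matrix (Fin 3) (Fin 3) ℤ) : Prop where
  li : LinearIndependent ℚ e
  mem : ∀ i, InB α (e i)
  sup : ∀ y, InB α y → ∃ c : Fin 3 → ℤ, (D : L) * y = ∑ i, (c i : L) * e i
  c2 : ∀ i j, h'.co 2 (e i * e j / α) = (JJ i j : ℚ)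
  c1 : ∀ i j, h'.co 1 (e i * e j / α) = (B i j : ℚ)
  b11 : B 1 1 = -2 * B 0 2

theorem NBas.symm {a' b' : ℤ} {θ' : L} {h' : IsCub a' b' θ'} {D : ℤ} {α : L} {e : Fin 3 → L}
    {B : Matrix (Fin 3) (Fin 3) ℤ} (H : NBas h' D α e B) (i j : Fin 3) : B i j = B j i := by
  have h1 := H.c1 i j
  rw [mul_comm, H.c1 j i] at h1
  exact_mod_cast h1.symm

/-- The values of the two forms. -/
theorem NBas.val {a' b' : ℤ} {θ' : L} {h' : IsCub a' b' θ'} {D : ℤ} {α : L} {e : Fin 3 → L}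
    {B : Matrix (Fin 3) (Fin 3) ℤ} (H : NBas h' D α e B) (η : Fin 3 → ℤ) :
    h'.co 2 ((∑ i, (η i : L) * e i) ^ 2 / α) = ((2 * η 0 * η 2 + η 1 ^ 2 : ℤ) : ℚ) ∧
    h'.co 1 ((∑ i, (η i : L) * e i) ^ 2 / α) =
      ((B 0 0 * η 0 ^ 2 + 2 * B 0 1 * η 0 * η 1 + 2 * B 0 2 * η 0 * η 2 - 2 * B 0 2 * η 1 ^ 2 +
        2 * B 1 2 * η 1 * η 2 + B 2 2 * η 2 ^ 2 : ℤ) : ℚ) := by
  constructor
  · rw [quad (h'.co 2) α e η (fun i j => JJ i j) (fun i j => H.c2 i j)]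
    congr 1
    simp [Fin.sum_univ_three, JJ]
    ring
  · rw [quad (h'.co 1) α e η (fun i j => B i j) (fun i j => H.c1 i j)]
    congr 1
    simp only [Fin.sum_univ_three]
    rw [H.b11, H.symm 1 0, H.symm 2 0, H.symm 2 1]
    ring

theorem sum_B {α : L} (hα : α ≠ 0) {e : Fin 3 → L} (he : ∀ i, InB α (e i)) (r : Fin 3 → ℤ) :
    InB α (∑ i, (r i : L) * e i) := by
  rw [Fin.sum_univ_three]
  exact (((he 0).zsmul _).add hα ((he 1).zsmul _)).add hα ((he 2).zsmul _)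

/-- An element which is `1` at one prime and small at the other. -/
theorem stepB' {v w : HeightOneSpectrum (𝓞 L)} {α : L} (hα : α ≠ 0) (hs : Sq1 v α)
    (hne : ∃ p ∈ w.asIdeal, p ∉ v.asIdeal) :
    ∃ (x : L) (g : 𝓞 L), InB α x ∧ algebraMap (𝓞 L) L g = x * x / α ∧ g - 1 ∈ v.asIdeal ∧
      g ∈ w.asIdeal := by
  obtain ⟨s, hs⟩ := hs
  have hvα : v.valuation L α ≠ 0 := (Valuation.ne_zero_iff _).2 hα
  have hvs : v.valuation L (s ^ 2) = v.valuation L α := by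
    have h1 : s ^ 2 = α - (α - s ^ 2) := by ring
    rw [h1]
    exact Valuation.map_sub_eq_of_lt_left _ hs
  obtain ⟨d, hd, hds⟩ := exists_mul (α := α) (s := s) (v := v) (by
    rw [map_div₀, ← pow_two, hvs, div_self hvα])
  obtain ⟨p, hpw, hpv⟩ := hne
  have hmax : v.asIdeal.IsMaximal := v.isMaximal
  have hpd : p * d ∉ v.asIdeal := fun h => (v.isPrime.mem_or_mem h).elim hpv hd
  obtain ⟨c, i, hi, hci⟩ := hmax.exists_inv hpd
  obtain ⟨g0, hg0⟩ := hds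
  refine ⟨algebraMap (𝓞 L) L (c * p) * (algebraMap (𝓞 L) L d * s), (c * p) ^ 2 * g0,
    InB.smul _ ⟨g0, hg0⟩, ?_, ?_, ?_⟩
  · rw [map_mul, map_pow, hg0]
    ring
  · rw [← val_lt_mem (L := L)]
    have e1 : algebraMap (𝓞 L) L ((c * p) ^ 2 * g0 - 1) =
        algebraMap (𝓞 L) L (c * (p * d)) ^ 2 * ((s ^ 2 - α) / α) +
        algebraMap (𝓞 L) L ((c * (p * d)) ^ 2 - 1) := by
      simp only [map_mul, map_sub, map_pow, map_one, hg0]
      field_simp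
      ring
    rw [e1]
    refine lt_of_le_of_lt (Valuation.map_add _ _ _) (max_lt ?_ ?_)
    · rw [map_mul, map_pow, map_div₀]
      have h2 : v.valuation L (s ^ 2 - α) / v.valuation L α < 1 := by
        rw [div_lt_one₀ (zero_lt_iff.2 hvα), Valuation.map_sub_swap]
        exact hs
      calc _ ≤ 1 * (v.valuation L (s ^ 2 - α) / v.valuation L α) :=
            mul_le_mul_left (pow_le_one₀ zero_le (v.valuation_le_one _)) _
        _ < _ := by rw [one_mul]; exact h2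
    · rw [val_lt_mem]
      have e2 : (c * (p * d)) ^ 2 - 1 = -(i * (c * (p * d) + 1)) := by
        have : c * (p * d) = 1 - i := by rw [← hci]; ring
        rw [this]; ring
      rw [e2]
      exact v.asIdeal.neg_mem (v.asIdeal.mul_mem_right _ hi)
  · have e2 : (c * p) ^ 2 * g0 = p * (c ^ 2 * p * g0) := by ring
    rw [e2]
    exact w.asIdeal.mul_mem_right _ hpw

theorem PD.sep {Q : ℤ} {t : 𝓞 L} {𝔓 𝔮 : HeightOneSpectrum (𝓞 L)} (hd : PD Q t 𝔓 𝔮) :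
    (∃ p ∈ 𝔮.asIdeal, p ∉ 𝔓.asIdeal) ∧ ∃ p ∈ 𝔓.asIdeal, p ∉ 𝔮.asIdeal := by
  refine ⟨?_, t, hd.tP, hd.tq⟩
  by_contra hcon
  push Not at hcon
  exact hd.tq ((𝔮.isMaximal.eq_of_le 𝔓.isPrime.ne_top hcon) ▸ hd.tP)

theorem odd_not_dvd {Q : ℤ} (hQ : IsPr Q) (h8 : Q % 8 = 1) : ¬ Q ∣ 2 := not_dvd_two h8 hQ.1 hQ.2

/-- **Two zeros.** -/
theorem tt_of {a b : ℤ} {θ : L} (h : IsCub a b θ) (hsq : Squarefree (dsc a b)) {D : ℤ}
    (hD0 : D ≠ 0) {α : L} (hα : α ≠ 0) {e : Fin 3 → L} {B : Matrix (Fin 3) (Fin 3) ℤ}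
    (H : NBas (cubD h hD0) D α e B) {Q : ℤ} (hQ : Gp a b Q) (hQD : ¬ Q ∣ D) {t : 𝓞 L}
    (ht : algebraMap (𝓞 L) L t = θ) {𝔓 𝔮 : HeightOneSpectrum (𝓞 L)} (hd : PD Q t 𝔓 𝔮)
    (hsP : Sq1 𝔓 α) (hsq' : Sq1 𝔮 α) : TT Q (⟨B 0 0, B 0 1, B 0 2, B 1 2, B 2 2⟩ : Tup ℤ) := by
  have hQp := hQ.pr.2
  have hQ2 := odd_not_dvd hQ.pr hQ.m8
  obtain ⟨x₁, g₁, hx₁, hg₁, hg₁P, hg₁q⟩ := stepB' hα hsP hd.sep.1
  obtain ⟨x₂, g₂, hx₂, hg₂, hg₂q, hg₂P⟩ := stepB' hα hsq' hd.sep.2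
  obtain ⟨hh, hhh⟩ := hx₁.prod hα hx₂
  have hsqh : hh * hh = g₁ * g₂ := by
    apply IsFractionRing.injective (𝓞 L) L
    rw [map_mul, map_mul, hhh, hg₁, hg₂]
    field_simp
  have hhP : hh ∈ 𝔓.asIdeal := by
    have h1 : hh * hh ∈ 𝔓.asIdeal := by rw [hsqh]; exact 𝔓.asIdeal.mul_mem_left _ hg₂P
    exact (𝔓.isPrime.mem_or_mem h1).elim id id
  have hhq : hh ∈ 𝔮.asIdeal := by
    have h1 : hh * hh ∈ 𝔮.asIdeal := by rw [hsqh]; exact 𝔮.asIdeal.mul_mem_right _ hg₁q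
    exact (𝔮.isPrime.mem_or_mem h1).elim id id
  obtain ⟨η, hη⟩ := H.sup _ (hx₁.add hα hx₂)
  obtain ⟨η', hη'⟩ := H.sup _ (hx₁.sub hα hx₂)
  have hQq : (Q : ℚ) ≠ 0 := by exact_mod_cast hQp.ne_zero
  have hDq : (D : ℚ) ≠ 0 := by exact_mod_cast hD0
  have hcopD : ∀ N : ℤ, Q ∣ D * N → Q ∣ N := fun N h1 => (hQp.dvd_or_dvd h1).resolve_left hQD
  -- the values
  have hval : ∀ (c : ℤ), c = 1 ∨ c = -1 → ∀ ξ : Fin 3 → ℤ,
      (D : L) * (x₁ + (c : L) * x₂) = ∑ i, (ξ i : L) * e i →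
      Q ∣ 2 * ξ 0 * ξ 2 + ξ 1 ^ 2 ∧
      Q ∣ B 0 0 * ξ 0 ^ 2 + 2 * B 0 1 * ξ 0 * ξ 1 + 2 * B 0 2 * ξ 0 * ξ 2 - 2 * B 0 2 * ξ 1 ^ 2 +
        2 * B 1 2 * ξ 1 * ξ 2 + B 2 2 * ξ 2 ^ 2 := by
    intro c hc ξ hξ
    have hcc : c * c = 1 := by rcases hc with rfl | rfl <;> ring
    have hccL : (c : L) * (c : L) = 1 := by exact_mod_cast congrArg (Int.cast (R := L)) hcc
    obtain ⟨w, hw⟩ := hd.both (g₁ + 2 * (c : 𝓞 L) * hh + g₂ - 1) (by
      have e1 : g₁ + 2 * (c : 𝓞 L) * hh + g₂ - 1 = (g₁ - 1) + 2 * (c : 𝓞 L) * hh + g₂ := by ring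
      rw [e1]
      exact 𝔓.asIdeal.add_mem (𝔓.asIdeal.add_mem hg₁P (𝔓.asIdeal.mul_mem_left _ hhP)) hg₂P) (by
      have e1 : g₁ + 2 * (c : 𝓞 L) * hh + g₂ - 1 = g₁ + 2 * (c : 𝓞 L) * hh + (g₂ - 1) := by ring
      rw [e1]
      exact 𝔮.asIdeal.add_mem (𝔮.asIdeal.add_mem hg₁q (𝔮.asIdeal.mul_mem_left _ hhq)) hg₂q)
    have hv : (∑ i, (ξ i : L) * e i) ^ 2 / α =
        ((D ^ 2 : ℤ) : L) * 1 + ((D ^ 2 * Q : ℤ) : L) * algebraMap (𝓞 L) L w := by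
      rw [← hξ]
      have e2 : ((D : L) * (x₁ + (c : L) * x₂)) ^ 2 / α = (D : L) ^ 2 *
          (x₁ * x₁ / α + 2 * (c : L) * (x₁ * x₂ / α) + ((c : L) * (c : L)) * (x₂ * x₂ / α)) := by
        ring
      have e3 : algebraMap (𝓞 L) L (g₁ + 2 * (c : 𝓞 L) * hh + g₂ - 1) =
          (Q : L) * algebraMap (𝓞 L) L w := by rw [hw, map_mul, mapO]
      simp only [map_add, map_sub, map_mul, map_one, map_ofNat, mapO] at e3
      rw [e2, hccL, one_mul, ← hg₁, ← hg₂, ← hhh]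
      push_cast
      linear_combination (D : L) ^ 2 * e3
    obtain ⟨v2, v1⟩ := H.val ξ
    rw [hv, (coD h hD0 _).2, map_add, co_int_smul, co_int_smul] at v2
    rw [hv, (coD h hD0 _).1, map_add, co_int_smul, co_int_smul] at v1
    obtain ⟨m2, hm2⟩ := co_int h hsq w 2
    obtain ⟨m1, hm1⟩ := co_int h hsq w 1
    have c20 : h.co 2 (1 : L) = 0 := by
      have := (co_crd h 1 0 0).2.2
      simpa using this
    have c10 : h.co 1 (1 : L) = 0 := by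
      have := (co_crd h 1 0 0).2.1
      simpa using this
    rw [c20, hm2, mul_zero, zero_add] at v2
    rw [c10, hm1, mul_zero, zero_add] at v1
    constructor
    · refine ⟨m2, ?_⟩
      have h5 : (((D ^ 2 * Q : ℤ) : ℚ) * (m2 : ℚ)) / (D : ℚ) ^ 2 = (Q : ℚ) * m2 := by
        push_cast
        field_simp
      rw [h5] at v2
      exact_mod_cast v2.symm
    · refine ⟨D * m1, ?_⟩
      have h5 : (((D ^ 2 * Q : ℤ) : ℚ) * (m1 : ℚ)) / (D : ℚ) = (Q : ℚ) * ((D : ℚ) * m1) := by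
        push_cast
        field_simp
      rw [h5] at v1
      exact_mod_cast v1.symm
  obtain ⟨m1, m2⟩ := hval 1 (Or.inl rfl) η (by rw [Int.cast_one, one_mul]; exact hη)
  obtain ⟨m1', m2'⟩ := hval (-1) (Or.inr rfl) η' (by
    rw [Int.cast_neg, Int.cast_one, neg_one_mul, ← sub_eq_add_neg]; exact hη')
  refine prm hQp hQ2 _ _ _ _ _ η η' ?_ m1 m2 m1' m2'
  by_contra hcon
  push Not at hcon
  have hg₁n : g₁ ∉ 𝔓.asIdeal := by
    intro hg
    apply 𝔓.isPrime.ne_top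
    rw [Ideal.eq_top_iff_one]
    have := 𝔓.asIdeal.sub_mem hg hg₁P
    rwa [sub_sub_cancel] at this
  have hg₂n : g₂ ∉ 𝔮.asIdeal := by
    intro hg
    apply 𝔮.isPrime.ne_top
    rw [Ideal.eq_top_iff_one]
    have := 𝔮.asIdeal.sub_mem hg hg₂q
    rwa [sub_sub_cancel] at this
  have hDP : (D : 𝓞 L) ∉ 𝔓.asIdeal := fun h1 => hQD ((poly_mem hQp hd.ovP D).1 h1)
  have hDq' : (D : 𝓞 L) ∉ 𝔮.asIdeal := fun h1 => hQD ((poly_mem hQp hd.ovq D).1 h1)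
  have hDL : (D : L) ≠ 0 := Q_ne hD0
  -- all coordinates are divisible by `Q`
  have hdiv : ∀ j, Q ∣ η j := by
    intro j
    choose r hr using fun i => hcon j i
    have hrel : (D : L) * (((η j : ℤ) : L) * (x₁ - x₂) - ((η' j : ℤ) : L) * (x₁ + x₂)) =
        (Q : L) * ∑ i, ((r i : ℤ) : L) * e i := by
      have h1 : (D : L) * (((η j : ℤ) : L) * (x₁ - x₂) - ((η' j : ℤ) : L) * (x₁ + x₂)) =
          ((η j : ℤ) : L) * ((D : L) * (x₁ - x₂)) - ((η' j : ℤ) : L) * ((D : L) * (x₁ + x₂)) := by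
        ring
      rw [h1, hη, hη', Finset.mul_sum, Finset.mul_sum, Finset.mul_sum, ← Finset.sum_sub_distrib]
      refine Finset.sum_congr rfl fun i _ => ?_
      have h1 := congrArg (Int.cast (R := L)) (hr i)
      rw [Int.cast_sub, Int.cast_mul, Int.cast_mul, Int.cast_mul] at h1
      linear_combination (e i) * h1
    have hw : InB α (∑ i, ((r i : ℤ) : L) * e i) := sum_B hα H.mem r
    obtain ⟨w₁, hw₁⟩ := hw.prod hα hx₁
    obtain ⟨w₂, hw₂⟩ := hw.prod hα hx₂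
    have e1 : (D : 𝓞 L) * (((η j - η' j : ℤ) : 𝓞 L) * g₁) =
        (D : 𝓞 L) * (((η j + η' j : ℤ) : 𝓞 L) * hh) + (Q : 𝓞 L) * w₁ := by
      apply IsFractionRing.injective (𝓞 L) L
      simp only [map_add, map_mul, map_sub, mapO, hg₁, hhh, hw₁, Int.cast_sub, Int.cast_add]
      linear_combination (x₁ / α) * hrel
    have e2 : (D : 𝓞 L) * (((η j + η' j : ℤ) : 𝓞 L) * g₂) =
        (D : 𝓞 L) * (((η j - η' j : ℤ) : 𝓞 L) * hh) - (Q : 𝓞 L) * w₂ := by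
      apply IsFractionRing.injective (𝓞 L) L
      simp only [map_add, map_mul, map_sub, mapO, hg₂, hhh, hw₂, Int.cast_sub, Int.cast_add]
      linear_combination (-x₂ / α) * hrel
    have e3 : (D : 𝓞 L) * (((η j - η' j : ℤ) : 𝓞 L) * g₁) ∈ 𝔓.asIdeal := by
      rw [e1]
      exact 𝔓.asIdeal.add_mem (𝔓.asIdeal.mul_mem_left _ (𝔓.asIdeal.mul_mem_left _ hhP))
        (𝔓.asIdeal.mul_mem_right _ hd.ovP)
    have e4 : (D : 𝓞 L) * (((η j + η' j : ℤ) : 𝓞 L) * g₂) ∈ 𝔮.asIdeal := by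
      rw [e2]
      exact 𝔮.asIdeal.sub_mem (𝔮.asIdeal.mul_mem_left _ (𝔮.asIdeal.mul_mem_left _ hhq))
        (𝔮.asIdeal.mul_mem_right _ hd.ovq)
    have e3' := (𝔓.isPrime.mem_or_mem e3).resolve_left hDP
    have e4' := (𝔮.isPrime.mem_or_mem e4).resolve_left hDq'
    have e5 : Q ∣ η j - η' j :=
      (poly_mem hQp hd.ovP _).1 ((𝔓.isPrime.mem_or_mem e3').resolve_right hg₁n)
    have e6 : Q ∣ η j + η' j :=
      (poly_mem hQp hd.ovq _).1 ((𝔮.isPrime.mem_or_mem e4').resolve_right hg₂n)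
    have e7 : Q ∣ 2 * η j := by
      have := dvd_add e5 e6
      have e8 : η j - η' j + (η j + η' j) = 2 * η j := by ring
      rwa [e8] at this
    exact (hQp.dvd_or_dvd e7).resolve_left hQ2
  choose r hr using hdiv
  have hx : (D : L) * (x₁ + x₂) = (Q : L) * ∑ i, ((r i : ℤ) : L) * e i := by
    rw [hη, Finset.mul_sum]
    refine Finset.sum_congr rfl fun i _ => ?_
    rw [hr i, Int.cast_mul]
    ring
  have hw : InB α (∑ i, ((r i : ℤ) : L) * e i) := sum_B hα H.mem r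
  obtain ⟨w₁, hw₁⟩ := hw.prod hα hx₁
  have e1 : (D : 𝓞 L) * (g₁ + hh) = (Q : 𝓞 L) * w₁ := by
    apply IsFractionRing.injective (𝓞 L) L
    simp only [map_add, map_mul, mapO, hg₁, hhh, hw₁]
    linear_combination (x₁ / α) * hx
  have e2 : (D : 𝓞 L) * (g₁ + hh) ∈ 𝔓.asIdeal := by
    rw [e1]
    exact 𝔓.asIdeal.mul_mem_right _ hd.ovP
  apply hg₁n
  have e3 := (𝔓.isPrime.mem_or_mem e2).resolve_left hDP
  have e4 : g₁ = (g₁ + hh) - hh := by ring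
  rw [e4]
  exact 𝔓.asIdeal.sub_mem e3 hhP

/-- **No zero.** -/
theorem no_iso {a b : ℤ} {θ : L} (h : IsCub a b θ) (hsq : Squarefree (dsc a b)) {D : ℤ}
    (hD0 : D ≠ 0) {α : L} (hα : α ≠ 0) {e : Fin 3 → L} {B : Matrix (Fin 3) (Fin 3) ℤ}
    (H : NBas (cubD h hD0) D α e B) {Q : ℤ} (hQ : Gp a b Q) (hQD : ¬ Q ∣ D) {t : 𝓞 L}
    (ht : algebraMap (𝓞 L) L t = θ) {𝔓 𝔮 : HeightOneSpectrum (𝓞 L)} (hd : PD Q t 𝔓 𝔮)
    (hevP : Ev 𝔓 α) (hevq : Ev 𝔮 α) (hns : ¬ Sq1 𝔮 α) (η : Fin 3 → ℤ) (hη : ∃ j, ¬ Q ∣ η j)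
    (h2 : Q ∣ 2 * η 0 * η 2 + η 1 ^ 2)
    (h1 : Q ∣ B 0 0 * η 0 ^ 2 + 2 * B 0 1 * η 0 * η 1 + 2 * B 0 2 * η 0 * η 2 -
      2 * B 0 2 * η 1 ^ 2 + 2 * B 1 2 * η 1 * η 2 + B 2 2 * η 2 ^ 2) : False := by
  have hQp := hQ.pr.2
  have hDq : (D : ℚ) ≠ 0 := by exact_mod_cast hD0
  have hQL : (Q : L) ≠ 0 := Q_ne hQp.ne_zero
  set y := ∑ i, (η i : L) * e i with hy
  have hym : InB α y := sum_B hα H.mem η
  obtain ⟨z, hz⟩ := hym
  obtain ⟨v, hv⟩ := exO Pool.Agent.N849.PQ.int h hsq z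
  have e2 : Q ∣ v 2 ∧ Q ∣ v 1 := by
    obtain ⟨v2, v1⟩ := H.val η
    have hyy : y ^ 2 = y * y := pow_two y
    rw [← hy, hyy, ← hz, (coD h hD0 _).2, Pool.Agent.N301.PQ.co_crd h hv] at v2
    rw [← hy, hyy, ← hz, (coD h hD0 _).1, Pool.Agent.N301.PQ.co_crd h hv] at v1
    rw [div_eq_iff (pow_ne_zero 2 hDq)] at v2
    rw [div_eq_iff hDq] at v1
    have w2 : v 2 = (2 * η 0 * η 2 + η 1 ^ 2) * D ^ 2 := by exact_mod_cast v2
    have w1 : v 1 = (B 0 0 * η 0 ^ 2 + 2 * B 0 1 * η 0 * η 1 + 2 * B 0 2 * η 0 * η 2 -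
      2 * B 0 2 * η 1 ^ 2 + 2 * B 1 2 * η 1 * η 2 + B 2 2 * η 2 ^ 2) * D := by exact_mod_cast v1
    exact ⟨w2 ▸ h2.mul_right _, w1 ▸ h1.mul_right _⟩
  obtain ⟨⟨c2, hc2⟩, ⟨c1, hc1⟩⟩ := e2
  have hzc : z = ((v 0 : ℤ) : 𝓞 L) + (Q : 𝓞 L) * ((c1 : 𝓞 L) * t + (c2 : 𝓞 L) * t ^ 2) := by
    apply IsFractionRing.injective (𝓞 L) L
    rw [hv, hc1, hc2]
    simp only [map_add, map_mul, map_pow, mapO, ht]
    push_cast
    ring
  have hvα : 𝔮.valuation L α ≠ 0 := (Valuation.ne_zero_iff _).2 hα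
  by_cases hc : Q ∣ v 0
  · -- `y` is divisible by `Q`
    obtain ⟨c0, hc0⟩ := hc
    have hzQ : z = (Q : 𝓞 L) * ((c0 : 𝓞 L) + ((c1 : 𝓞 L) * t + (c2 : 𝓞 L) * t ^ 2)) := by
      rw [hzc, hc0]
      push_cast
      ring
    have hzP : 𝔓.valuation L (algebraMap (𝓞 L) L z) < 1 := by
      rw [val_lt_mem, hzQ]
      exact 𝔓.asIdeal.mul_mem_right _ hd.ovP
    have hzq : 𝔮.valuation L (algebraMap (𝓞 L) L z) < 1 := by
      rw [val_lt_mem, hzQ]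
      exact 𝔮.asIdeal.mul_mem_right _ hd.ovq
    obtain ⟨w, hw⟩ := div2 (L := L) hQp.ne_zero hd
      (by rw [hz] at hzP ⊢; exact par2 hd.unif (ev_div hα hevP) hzP)
      (by rw [hz] at hzq ⊢; exact par2 hd.unif' (ev_div hα hevq) hzq)
    have hyQ : InB α (y / (Q : L)) := by
      refine ⟨w, ?_⟩
      have e1 : y / (Q : L) * (y / (Q : L)) / α = (y * y / α) / (Q : L) ^ 2 := by
        field_simp
      rw [e1, ← hz, hw, map_mul, map_pow, mapO]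
      field_simp
    obtain ⟨c, hc'⟩ := H.sup _ hyQ
    have hrel : ∑ i, (((D * η i - Q * c i : ℤ) : ℚ)) • e i = 0 := by
      have e1 : (D : L) * y - (Q : L) * ((D : L) * (y / (Q : L))) = 0 := by
        field_simp
        ring
      rw [hc', hy, Finset.mul_sum, Finset.mul_sum, ← Finset.sum_sub_distrib] at e1
      rw [← e1]
      refine Finset.sum_congr rfl fun i _ => ?_
      rw [Rat.smul_def]
      push_cast
      ring
    obtain ⟨j, hj⟩ := hη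
    have h3 := Fintype.linearIndependent_iff.1 H.li _ hrel j
    have h4 : D * η j = Q * c j := by
      have : (D * η j - Q * c j : ℤ) = 0 := by exact_mod_cast h3
      linarith
    have h5 : Q ∣ D * η j := ⟨c j, h4⟩
    exact (hQp.dvd_or_dvd h5).elim hQD hj
  · -- a square root of `v 0` modulo `𝔮`
    have htq2 : t ^ 2 + (a : 𝓞 L) ∈ 𝔮.asIdeal := by
      have hroot : t * (t ^ 2 + (a : 𝓞 L)) = -(b : 𝓞 L) := by
        apply IsFractionRing.injective (𝓞 L) L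
        simp only [map_add, map_mul, map_pow, map_neg, mapO, ht]
        linear_combination h.root
      have h3 : t * (t ^ 2 + (a : 𝓞 L)) ∈ 𝔮.asIdeal := by
        rw [hroot]
        exact 𝔮.asIdeal.neg_mem ((poly_mem hQp hd.ovq b).2 hQ.db)
      exact (𝔮.isPrime.mem_or_mem h3).resolve_left hd.tq
    obtain ⟨τ, hτ⟩ : ∃ τ : 𝓞 L, τ ^ 2 - ((v 0 : ℤ) : 𝓞 L) ∈ 𝔮.asIdeal := by
      have hsqr : ∃ r : ℤ, Q ∣ r ^ 2 - v 0 ∨ Q ∣ a * r ^ 2 + v 0 := by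
        obtain ⟨q, hq⟩ : ∃ q : ℕ, (q : ℤ) = Q := ⟨Q.toNat, Int.toNat_of_nonneg hQ.pr.1.le⟩
        subst hq
        haveI : Fact q.Prime := ⟨Nat.prime_iff_prime_int.2 hQp⟩
        have hq2 : ringChar (ZMod q) ≠ 2 := by
          rw [ZMod.ringChar_zmod_n]
          rintro rfl
          have := hQ.m8
          norm_num at this
        have hns' : ¬ IsSquare ((-a : ℤ) : ZMod q) := by
          rintro ⟨r, hr⟩
          apply hQ.ns (r.val : ℤ)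
          rw [← ZMod.intCast_zmod_eq_zero_iff_dvd]
          push_cast
          rw [ZMod.natCast_zmod_val]
          push_cast at hr
          linear_combination -hr
        by_cases hcs : IsSquare ((v 0 : ℤ) : ZMod q)
        · obtain ⟨r, hr⟩ := hcs
          refine ⟨(r.val : ℤ), Or.inl ?_⟩
          rw [← ZMod.intCast_zmod_eq_zero_iff_dvd]
          push_cast
          rw [ZMod.natCast_zmod_val, hr]
          ring
        · have ha0 : ((-a : ℤ) : ZMod q) ≠ 0 := by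
            intro h0
            exact hns' (h0 ▸ IsSquare.zero)
          have hprod : IsSquare (((v 0 : ℤ) : ZMod q) * ((-a : ℤ) : ZMod q)) := by
            have c1 := quadraticChar_neg_one_iff_not_isSquare.2 hcs
            have c2 := quadraticChar_neg_one_iff_not_isSquare.2 hns'
            have c3 : quadraticChar (ZMod q) (((v 0 : ℤ) : ZMod q) * ((-a : ℤ) : ZMod q)) = 1 := by
              rw [map_mul, c1, c2]
              norm_num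
            exact (quadraticChar_one_iff_isSquare (by
              intro h0
              rw [h0, quadraticChar_zero] at c3
              exact zero_ne_one c3)).1 c3
          obtain ⟨r, hr⟩ := hprod
          refine ⟨((r / ((-a : ℤ) : ZMod q)).val : ℤ), Or.inr ?_⟩
          rw [← ZMod.intCast_zmod_eq_zero_iff_dvd]
          push_cast
          rw [ZMod.natCast_zmod_val]
          push_cast at ha0 hr
          have ha1 : (a : ZMod q) ≠ 0 := fun h0 => ha0 (by rw [h0, neg_zero])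
          push_cast
          field_simp
          linear_combination -hr
      obtain ⟨r, hr | hr⟩ := hsqr
      · refine ⟨(r : 𝓞 L), ?_⟩
        have : (r : 𝓞 L) ^ 2 - ((v 0 : ℤ) : 𝓞 L) = ((r ^ 2 - v 0 : ℤ) : 𝓞 L) := by push_cast; ring
        rw [this]
        exact (poly_mem hQp hd.ovq _).2 hr
      · refine ⟨(r : 𝓞 L) * t, ?_⟩
        have : ((r : 𝓞 L) * t) ^ 2 - ((v 0 : ℤ) : 𝓞 L) =
            (r : 𝓞 L) ^ 2 * (t ^ 2 + (a : 𝓞 L)) - ((a * r ^ 2 + v 0 : ℤ) : 𝓞 L) := by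
          push_cast; ring
        rw [this]
        exact 𝔮.asIdeal.sub_mem (𝔮.asIdeal.mul_mem_left _ htq2) ((poly_mem hQp hd.ovq _).2 hr)
    have hτn : τ ∉ 𝔮.asIdeal := by
      intro h3
      apply hc
      rw [← poly_mem hQp hd.ovq]
      have h4 := 𝔮.asIdeal.sub_mem (𝔮.asIdeal.mul_mem_left τ h3) hτ
      have e1 : τ * τ - (τ ^ 2 - ((v 0 : ℤ) : 𝓞 L)) = ((v 0 : ℤ) : 𝓞 L) := by ring
      rwa [e1] at h4
    have hvτ := (HeightOneSpectrum.valuation_eq_one_iff_notMem (K := L) 𝔮).2 hτn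
    have hzτ : τ ^ 2 - z ∈ 𝔮.asIdeal := by
      have e1 : τ ^ 2 - z = (τ ^ 2 - ((v 0 : ℤ) : 𝓞 L)) -
          (Q : 𝓞 L) * ((c1 : 𝓞 L) * t + (c2 : 𝓞 L) * t ^ 2) := by rw [hzc]; ring
      rw [e1]
      exact 𝔮.asIdeal.sub_mem hτ (𝔮.asIdeal.mul_mem_right _ hd.ovq)
    apply hns
    refine ⟨y / algebraMap (𝓞 L) L τ, ?_⟩
    have hτ0 : algebraMap (𝓞 L) L τ ≠ 0 := by
      intro h0
      rw [h0, map_zero] at hvτ
      exact zero_ne_one hvτ
    have e1 : α - (y / algebraMap (𝓞 L) L τ) ^ 2 =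
        α * (algebraMap (𝓞 L) L (τ ^ 2 - z)) / algebraMap (𝓞 L) L τ ^ 2 := by
      rw [map_sub, map_pow, hz]
      field_simp
    rw [e1, map_div₀, map_mul, map_pow, hvτ, one_pow, div_one]
    calc _ < 𝔮.valuation L α * 1 :=
          (mul_lt_mul_iff_right₀ (zero_lt_iff.2 hvα)).2 ((val_lt_mem 𝔮 _).2 hzτ)
      _ = _ := mul_one _

end lat

end Pool.Agent.Helper29L
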