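import Pool.Agent.Helper29L.Size0
import Pool.Agent.R425.G.Cl4
import Pool.Agent.N922.PQ.Lat

/-!
# Job SIZE, part 1: the local condition at `2`
-/

set_option autoImplicit false
set_option linter.all false

open Polynomial IsDedekindDomain NumberField WeierstrassCurve WeierstrassCurve.Affine
open scoped Classical IntermediateField

namespace Pool.Agent.Helper29L.SZ

open Pool.Agent.TH115.GD
open Pool.Agent.R425.G
open Pool.Agent.Y710.CV (Cond)
open Pool.Agent.N922.PQ (IsCub PL2 Loc2)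

/-- the curve -/
noncomputable def VV (a b : ℤ) : WeierstrassCurve ℚ := ⟨0, 0, 0, (a : ℚ), (b : ℚ)⟩

theorem cub_VV {F : Type} [Field F] [Algebra ℚ F] (a b : ℤ) (x : F) :
    cub (VV a b) x = x ^ 3 + (a : F) * x + (b : F) := by
  have e2 : algebraMap ℚ F (VV a b).a₂ = 0 := by
    show algebraMap ℚ F 0 = 0
    exact map_zero _
  have e4 : algebraMap ℚ F (VV a b).a₄ = (a : F) := by
    show algebraMap ℚ F (a : ℚ) = _
    exact map_intCast _ _
  have e6 : algebraMap ℚ F (VV a b).a₆ = (b : F) := by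
    show algebraMap ℚ F (b : ℚ) = _
    exact map_intCast _ _
  unfold cub
  rw [e2, e4, e6]
  ring

theorem disc_VV (a b : ℤ) : (VV a b).Δ = -16 * (4 * (a : ℚ) ^ 3 + 27 * (b : ℚ) ^ 2) := by
  simp only [VV, WeierstrassCurve.Δ, WeierstrassCurve.b₂, WeierstrassCurve.b₄, WeierstrassCurve.b₆,
    WeierstrassCurve.b₈]
  ring

theorem iv_VV {a b : ℤ} (h : Pool.Agent.N922.PQ.dsc a b ≠ 0) : IV (VV a b) := by
  refine ⟨rfl, rfl, ⟨0, by simp [VV]⟩, ⟨a, rfl⟩, ⟨b, rfl⟩, ?_⟩
  rw [disc_VV]
  have h1 : (4 * (a : ℚ) ^ 3 + 27 * (b : ℚ) ^ 2) ≠ 0 := by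
    have : ((4 * a ^ 3 + 27 * b ^ 2 : ℤ) : ℚ) ≠ 0 := by exact_mod_cast h
    push_cast at this
    exact this
  exact mul_ne_zero (by norm_num) h1

theorem cf_VV {L : Type} [Field L] [NumberField L] {a b : ℤ} {θ : L} (h : IsCub a b θ) :
    CF (VV a b) L θ where
  root := by
    rw [cub_VV]
    exact h.root
  deg := h.rank
  gen := by
    rw [eq_top_iff]
    rintro x -
    obtain ⟨r, s, t, rfl⟩ := h.gen x
    have hθ : θ ∈ Algebra.adjoin ℚ ({θ} : Set L) := Algebra.subset_adjoin rfl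
    have hq : ∀ q : ℚ, (q : L) ∈ Algebra.adjoin ℚ ({θ} : Set L) := by
      intro q
      have := (Algebra.adjoin ℚ ({θ} : Set L)).algebraMap_mem q
      rwa [eq_ratCast] at this
    exact add_mem (add_mem (hq r) (mul_mem (hq s) hθ)) (mul_mem (hq t) (pow_mem hθ 2))

/-- From the local condition in terms of the embeddings to the polynomial form. -/
theorem cond_pl {F Ω : Type} [Field F] [Field Ω] [Algebra F Ω] [Algebra ℚ F] [Algebra ℚ Ω]
    [IsScalarTower ℚ F Ω] [IsGalois F Ω] [IsAlgClosed Ω] {L : Type} [Field L] [NumberField L]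
    {a b : ℤ} {θ : L} (hcf : CF (VV a b) L θ) (hV : IV (VV a b))
    (hnr : ∀ x : F, x ^ 3 + (a : F) * x + (b : F) ≠ 0) {z : L} (h : Cond F Ω (VV a b) θ z)
    (j : F →+* ℚ_[2]) (q : ℚ[X]) (hq : aeval θ q = z) :
    PL2 a b (q.map (algebraMap ℚ ℚ_[2])) := by
  obtain ⟨R, hR, hφ⟩ := h
  obtain ⟨e1, e2, e3, hC⟩ := Pool.Agent.Y355.G.V_roots hV.a1 hV.a3 hV.Δ Ω
  obtain ⟨φ, hφd⟩ : ∃ φ : L →+* Ω, φ = (em hcf (⟨e1, hC.root_a⟩ : Rt (VV a b) Ω) : L →+* Ω) :=
    ⟨_, rfl⟩
  have hφθ : φ θ = e1 := by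
    rw [hφd]
    exact em_root hcf _
  obtain ⟨w, hw, hdc⟩ := hφ φ
  rw [hφθ] at hw hdc
  have hdc' := hdc e2 e3 hC
  -- the cubic polynomial over `F`
  obtain ⟨P, hP⟩ : ∃ P : F[X], P = X ^ 3 + C (a : F) * X + C (b : F) := ⟨_, rfl⟩
  have hm : P.Monic := by
    rw [hP]
    monicity!
  have hdeg : P.natDegree = 3 := by
    rw [hP]
    compute_degree!
  have hirr : Irreducible P := by
    rw [Monic.irreducible_iff_roots_eq_zero_of_degree_le_three hm (by omega) (by omega)]
    rw [Multiset.eq_zero_iff_forall_notMem]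
    intro t ht
    rw [mem_roots hm.ne_zero, IsRoot.def] at ht
    apply hnr t
    rw [hP] at ht
    simpa using ht
  have he1 : aeval e1 P = 0 := by
    have h1 : cub (VV a b) e1 = 0 := hC.root_a
    rw [cub_VV] at h1
    rw [hP]
    simp only [map_add, map_mul, map_pow, aeval_X, aeval_C, map_intCast]
    exact h1
  have hmin : minpoly F e1 = P := (minpoly.eq_of_irreducible_of_monic hirr he1 hm).symm
  have hdvd : ∀ G : F[X], aeval e1 G = 0 → P ∣ G := by
    intro G hG
    rw [← hmin]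
    exact minpoly.dvd F e1 hG
  have hal : IsAlgebraic F e1 := ⟨P, hm.ne_zero, he1⟩
  -- `w` is a polynomial in `e1`
  obtain ⟨g, hg⟩ : ∃ g : F[X], aeval e1 g = w := by
    have h1 : w ∈ IntermediateField.fixedField (F⟮e1⟯.fixingSubgroup) := by
      rw [IntermediateField.mem_fixedField_iff]
      intro σ hσ
      apply hw
      rw [IntermediateField.mem_fixingSubgroup_iff] at hσ
      exact hσ e1 (IntermediateField.mem_adjoin_simple_self F e1)
    rw [InfiniteGalois.fixedField_fixingSubgroup] at h1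
    have h2 : w ∈ F⟮e1⟯.toSubalgebra := h1
    rw [IntermediateField.adjoin_simple_toSubalgebra_of_isAlgebraic hal,
      Algebra.adjoin_singleton_eq_range_aeval] at h2
    exact h2
  have hqe : aeval e1 (q.map (algebraMap ℚ F)) = φ z := by
    rw [aeval_map_algebraMap, ← hq, ← hφθ]
    have h1 := Polynomial.hom_eval₂ q (algebraMap ℚ L) φ θ
    rw [aeval_def, aeval_def, h1]
    congr 1
    exact Subsingleton.elim _ _
  have hj : j.comp (algebraMap ℚ F) = algebraMap ℚ ℚ_[2] := Subsingleton.elim _ _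
  have hqj : (q.map (algebraMap ℚ F)).map j = q.map (algebraMap ℚ ℚ_[2]) := by
    rw [Polynomial.map_map, hj]
  have hPj : P.map j = X ^ 3 + C (a : ℚ_[2]) * X + C (b : ℚ_[2]) := by
    rw [hP]
    rw [Polynomial.map_add, Polynomial.map_add, Polynomial.map_mul, Polynomial.map_pow, map_X,
      map_C, map_C, map_intCast j a, map_intCast j b]
  match R, hR, hdc' with
  | .zero, hR, hdc' =>
    left
    have e0 : dc e1 e2 e3 (Point.zero : Pt (VV a b) Ω) = 1 := rfl
    rw [e0, mul_one] at hdc'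
    have h1 : P ∣ q.map (algebraMap ℚ F) - g ^ 2 := by
      apply hdvd
      rw [map_sub, map_pow, hg, hqe, hdc', sub_self]
    have h2 := Polynomial.map_dvd j h1
    rw [hPj, Polynomial.map_sub, hqj] at h2
    exact ⟨g.map j, by rwa [Polynomial.map_pow] at h2⟩
  | .some x y hns, hR, hdc' =>
    right
    have hfix : ∀ σ : Ω ≃ₐ[F] Ω, σ x = x ∧ σ y = y := by
      intro σ
      obtain ⟨h', hh⟩ := act_some (VV a b) (rs ℚ σ) hns
      have h1 := hR σ
      rw [hh] at h1
      have h2 := Point.some.inj h1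
      exact h2
    obtain ⟨x0, hx0⟩ := (InfiniteGalois.mem_range_algebraMap_iff_fixed (k := F) x).2
      fun σ => (hfix σ).1
    obtain ⟨y0, hy0⟩ := (InfiniteGalois.mem_range_algebraMap_iff_fixed (k := F) y).2
      fun σ => (hfix σ).2
    have heq : y ^ 2 = x ^ 3 + (a : Ω) * x + (b : Ω) := by
      have h1 := hC.eqn hns
      have h2 : cub (VV a b) x = (x - e1) * (x - e2) * (x - e3) := hC.cub_eq x
      rw [cub_VV] at h2
      rw [h1, ← h2]
    have heq0 : y0 ^ 2 = x0 ^ 3 + (a : F) * x0 + (b : F) := by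
      apply (algebraMap F Ω).injective
      simp only [map_add, map_mul, map_pow, map_intCast]
      rw [hx0, hy0]
      exact heq
    have hy0' : y0 ≠ 0 := by
      rintro rfl
      apply hnr x0
      rw [← heq0]
      ring
    have hxe : x ≠ e1 := by
      rintro rfl
      apply hnr x0
      apply (algebraMap F Ω).injective
      have h1 : cub (VV a b) x = 0 := hC.root_a
      rw [cub_VV] at h1
      simp only [map_add, map_mul, map_pow, map_intCast, map_zero]
      rw [hx0]
      exact h1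
    have e0 : dc e1 e2 e3 (Point.some x y hns : Pt (VV a b) Ω) = x - e1 := by
      simp only [dc]
      rw [if_neg hxe]
    rw [e0] at hdc'
    have h1 : P ∣ (C x0 - X) * q.map (algebraMap ℚ F) - (g * (C x0 - X)) ^ 2 := by
      apply hdvd
      rw [map_sub, map_pow, map_mul, map_mul, hg, hqe, hdc', map_sub, aeval_C, aeval_X, hx0]
      ring
    have h2 := Polynomial.map_dvd j h1
    obtain ⟨G, hG⟩ : ∃ G : ℚ_[2][X], G = Polynomial.map j (g * (C x0 - X)) := ⟨_, rfl⟩
    have e2 : ((C x0 - X) * q.map (algebraMap ℚ F) - (g * (C x0 - X)) ^ 2).map j =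
        (C (j x0) - X) * q.map (algebraMap ℚ ℚ_[2]) - G ^ 2 := by
      rw [hG, Polynomial.map_sub, Polynomial.map_pow, Polynomial.map_mul, hqj, Polynomial.map_sub,
        map_C, map_X]
    rw [hPj, e2] at h2
    have hjy : j y0 ≠ 0 := fun h0 => hy0' (j.injective (h0.trans (map_zero j).symm))
    have h3 := congrArg j heq0
    simp only [map_add, map_mul, map_pow, map_intCast] at h3
    exact ⟨j x0, j y0, hjy, h3, G, h2⟩

/-- The local condition at `2`. -/
theorem cond_loc2 {L : Type} [Field L] [NumberField L] {a b : ℤ} {θ : L} (hcf : CF (VV a b) L θ)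
    (hV : IV (VV a b)) (ha : Odd a) (hb : Odd b) {z : L}
    (h : Cond (p2.adicCompletion ℚ) (AlgebraicClosure (p2.adicCompletion ℚ)) (VV a b) θ z) :
    Loc2 a b θ z := by
  haveI := gal_p p2
  intro q hq
  refine cond_pl hcf hV ?_ h jj q hq
  intro x hx
  apply no_root ha hb (jj x)
  have := congrArg jj hx
  simp only [map_add, map_mul, map_pow, map_intCast, map_zero] at this
  exact this

end Pool.Agent.Helper29L.SZ
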