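import Pool.Agent.Helper29L.Stm
import Pool.Agent.N301.PQ.TTV
import Pool.Agent.N849.PQ.Int

/-!
# Job LAT, part 1: the lattice `𝔟 = {y : y ^ 2 / α integral}`, the two primes over `Q`
-/

set_option autoImplicit false
set_option linter.all false

open IsDedekindDomain NumberField
open scoped Classical

namespace Pool.Agent.Helper29L

open Pool.Agent.N922.PQ
open Pool.Agent.N301.PQ (exists_P1 exists_P2 mem_both theta_not_mem val_lt_mem exO theta_ex mapO)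
open Pool.Agent.N874.PP (Tup chA chB gq tau Two Ev Sq1 U0 sW)

section lat

variable {L : Type} [Field L] [NumberField L]

/-- `y ^ 2 / α` is integral. -/
def InB (α y : L) : Prop := ∃ z : 𝓞 L, algebraMap (𝓞 L) L z = y * y / α

theorem int_of_sq {x : L} {w : 𝓞 L} (h : x * x = algebraMap (𝓞 L) L w) :
    ∃ z : 𝓞 L, algebraMap (𝓞 L) L z = x := by
  have h1 : IsIntegral ℤ x := by
    refine IsIntegral.of_pow (n := 2) two_pos ?_
    rw [pow_two, h]
    exact RingOfIntegers.isIntegral_coe w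
  exact (IsIntegralClosure.isIntegral_iff (A := 𝓞 L)).1 h1

theorem InB.prod {α x y : L} (hα : α ≠ 0) (hx : InB α x) (hy : InB α y) :
    ∃ z : 𝓞 L, algebraMap (𝓞 L) L z = x * y / α := by
  obtain ⟨w, hw⟩ := hx
  obtain ⟨v, hv⟩ := hy
  refine int_of_sq (w := w * v) ?_
  rw [map_mul, hw, hv]
  field_simp

theorem InB.add {α x y : L} (hα : α ≠ 0) (hx : InB α x) (hy : InB α y) : InB α (x + y) := by
  obtain ⟨c, hc⟩ := hx.prod hα hy
  obtain ⟨w, hw⟩ := hx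
  obtain ⟨v, hv⟩ := hy
  refine ⟨w + 2 * c + v, ?_⟩
  rw [map_add, map_add, map_mul, hw, hv, hc, map_ofNat]
  ring

theorem InB.smul {α y : L} (c : 𝓞 L) (hy : InB α y) : InB α (algebraMap (𝓞 L) L c * y) := by
  obtain ⟨v, hv⟩ := hy
  refine ⟨c * c * v, ?_⟩
  rw [map_mul, map_mul, hv]
  ring

theorem InB.zsmul {α y : L} (c : ℤ) (hy : InB α y) : InB α ((c : L) * y) := by
  have := hy.smul (c : 𝓞 L)
  rwa [mapO] at this

theorem InB.zero (α : L) : InB α 0 := ⟨0, by simp⟩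

theorem InB.neg {α y : L} (hy : InB α y) : InB α (-y) := by
  have := hy.zsmul (-1)
  simpa using this

theorem InB.sub {α x y : L} (hα : α ≠ 0) (hx : InB α x) (hy : InB α y) : InB α (x - y) := by
  rw [sub_eq_add_neg]
  exact hx.add hα hy.neg

/-- Data at a prime of the type. -/
structure PD (Q : ℤ) (t : 𝓞 L) (𝔓 𝔮 : HeightOneSpectrum (𝓞 L)) : Prop where
  ovP : Ov Q 𝔓
  ovq : Ov Q 𝔮
  tP : t ∈ 𝔓.asIdeal
  tq : t ∉ 𝔮.asIdeal
  both : ∀ z : 𝓞 L, z ∈ 𝔓.asIdeal → z ∈ 𝔮.asIdeal → ∃ w, z = (Q : 𝓞 L) * w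
  unif : 𝔓.valuation L (Q : L) = WithZero.exp (-1 : ℤ)
  unif' : 𝔮.valuation L (Q : L) = WithZero.exp (-1 : ℤ)
  only : ∀ 𝔓' : HeightOneSpectrum (𝓞 L), Ov Q 𝔓' → 𝔓' = 𝔓 ∨ 𝔓' = 𝔮

theorem not_ev_exp {v : HeightOneSpectrum (𝓞 L)} {x : L}
    (h : v.valuation L x = WithZero.exp (-1 : ℤ)) : ¬ Ev v x := by
  rintro ⟨y, hy⟩
  rw [h] at hy
  have hy0 : v.valuation L y ≠ 0 := by
    intro h0
    rw [h0, zero_pow two_ne_zero] at hy
    exact WithZero.exp_ne_zero hy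
  rw [← WithZero.exp_log hy0, ← WithZero.exp_nsmul, WithZero.exp_inj] at hy
  have : (2 : ℕ) • (WithZero.log (v.valuation L y)) = 2 * WithZero.log (v.valuation L y) := by
    rw [two_nsmul]; ring
  rw [this] at hy
  omega

theorem lt_one_le {v : WithZero (Multiplicative ℤ)} (h : v < 1) : v ≤ WithZero.exp (-1 : ℤ) := by
  rcases eq_or_ne v 0 with rfl | h0
  · exact zero_le
  · rw [← WithZero.exp_log h0] at h ⊢
    rw [← WithZero.exp_zero, WithZero.exp_lt_exp] at h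
    rw [WithZero.exp_le_exp]
    omega

/-- the valuation of `Q` at one of two primes with product `Q` -/
theorem unif_aux {Q : ℤ} {v w : HeightOneSpectrum (𝓞 L)} (hv : Ov Q v)
    (hne : ∃ p ∈ w.asIdeal, p ∉ v.asIdeal)
    (both : ∀ z : 𝓞 L, z ∈ v.asIdeal → z ∈ w.asIdeal → ∃ w, z = (Q : 𝓞 L) * w) :
    v.valuation L (Q : L) = WithZero.exp (-1 : ℤ) := by
  obtain ⟨π, hπ⟩ := v.intValuation_exists_uniformizer
  obtain ⟨p, hpw, hpv⟩ := hne
  have hπv : π ∈ v.asIdeal := by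
    rw [← v.intValuation_lt_one_iff_mem, hπ, ← WithZero.exp_zero, WithZero.exp_lt_exp]
    norm_num
  obtain ⟨c, hc⟩ := both (π * p) (v.asIdeal.mul_mem_right _ hπv) (w.asIdeal.mul_mem_left _ hpw)
  have h1 : v.valuation L (algebraMap (𝓞 L) L (π * p)) = WithZero.exp (-1 : ℤ) := by
    rw [map_mul, map_mul, HeightOneSpectrum.valuation_of_algebraMap, hπ,
      (HeightOneSpectrum.valuation_eq_one_iff_notMem v).2 hpv, mul_one]
  rw [hc, map_mul, map_mul, mapO] at h1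
  apply le_antisymm
  · apply lt_one_le
    rw [← mapO (O := 𝓞 L)]
    exact (val_lt_mem v _).2 hv
  · rw [← h1]
    exact mul_le_of_le_one_right' (v.valuation_le_one c)

/-- the data exist -/
theorem exists_PD {a b Q : ℤ} {θ : L} (h : IsCub a b θ) (hsq : Squarefree (dsc a b))
    (hQ : Gp a b Q) {t : 𝓞 L} (ht : algebraMap (𝓞 L) L t = θ) :
    ∃ 𝔓 𝔮 : HeightOneSpectrum (𝓞 L), PD Q t 𝔓 𝔮 := by
  have hI : S_INT := Pool.Agent.N849.PQ.int
  obtain ⟨𝔓, hP, htP⟩ := exists_P1 hI h hsq hQ.pr.2 hQ.db t ht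
  obtain ⟨𝔮, hq, htq⟩ := exists_P2 hI h hsq hQ.pr.2 hQ.db t ht
  have htn := theta_not_mem hQ.pr.2 hQ.ns hq htq
  have both : ∀ z : 𝓞 L, z ∈ 𝔓.asIdeal → z ∈ 𝔮.asIdeal → ∃ w, z = (Q : 𝓞 L) * w := by
    intro z h1 h2
    obtain ⟨v, hv⟩ := exO hI h hsq z
    obtain ⟨⟨c0, h0⟩, ⟨c1, h1⟩, ⟨c2, h2⟩⟩ := mem_both hQ.pr.2 hQ.ns ht hP hq htP htq hv h1 h2
    refine ⟨(c0 : 𝓞 L) + (c1 : 𝓞 L) * t + (c2 : 𝓞 L) * t ^ 2, ?_⟩
    apply IsFractionRing.injective (𝓞 L) L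
    rw [hv]
    simp only [map_add, map_mul, map_pow, mapO, ht, h0, h1, h2, Int.cast_mul]
    ring
  have hne2 : ∃ p ∈ 𝔮.asIdeal, p ∉ 𝔓.asIdeal := by
    by_contra hcon
    push Not at hcon
    exact htn ((𝔮.isMaximal.eq_of_le 𝔓.isPrime.ne_top hcon) ▸ htP)
  refine ⟨𝔓, 𝔮, hP, hq, htP, htn, both, ?_, ?_, ?_⟩
  · exact unif_aux hP hne2 both
  · exact unif_aux hq ⟨t, htP, htn⟩ fun z h1 h2 => both z h2 h1
  · intro 𝔓' hov
    have h1 : ¬ ∃ p q, p ∈ 𝔓.asIdeal ∧ q ∈ 𝔮.asIdeal ∧ p ∉ 𝔓'.asIdeal ∧ q ∉ 𝔓'.asIdeal := by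
      rintro ⟨p, q, hp, hq', hp', hq''⟩
      obtain ⟨w, hw⟩ := both (p * q) (𝔓.asIdeal.mul_mem_right _ hp)
        (𝔮.asIdeal.mul_mem_left _ hq')
      have h2 : p * q ∈ 𝔓'.asIdeal := by
        rw [hw]
        exact 𝔓'.asIdeal.mul_mem_right _ hov
      exact (𝔓'.isPrime.mem_or_mem h2).elim hp' hq''
    by_cases h2 : 𝔓.asIdeal ≤ 𝔓'.asIdeal
    · left
      exact (HeightOneSpectrum.ext (𝔓.isMaximal.eq_of_le 𝔓'.isPrime.ne_top h2)).symm
    · right
      obtain ⟨p, hp, hp'⟩ := Set.not_subset.1 h2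
      have h3 : 𝔮.asIdeal ≤ 𝔓'.asIdeal := by
        intro q hq'
        by_contra hq''
        exact h1 ⟨p, q, hp, hq', hp', hq''⟩
      exact (HeightOneSpectrum.ext (𝔮.isMaximal.eq_of_le 𝔓'.isPrime.ne_top h3)).symm

/-- parity: an integral element `Q z` of even valuation has `z` in the prime -/
theorem par {Q : ℤ} {v : HeightOneSpectrum (𝓞 L)}
    (hQ : v.valuation L (Q : L) = WithZero.exp (-1 : ℤ)) {x : L} {z : 𝓞 L} (hx : Ev v x)
    (hz : x = (Q : L) * algebraMap (𝓞 L) L z) : z ∈ v.asIdeal := by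
  by_contra hn
  have h1 := (HeightOneSpectrum.valuation_eq_one_iff_notMem (K := L) v).2 hn
  apply not_ev_exp hQ
  obtain ⟨y, hy⟩ := hx
  refine ⟨y, ?_⟩
  rw [← hy, hz, map_mul, h1, mul_one]

theorem ev_div {v : HeightOneSpectrum (𝓞 L)} {α y : L} (hα : α ≠ 0) (h : Ev v α) :
    Ev v (y * y / α) := by
  obtain ⟨s, hs⟩ := h
  refine ⟨y / s, ?_⟩
  have hs0 : v.valuation L s ≠ 0 := by
    intro h0
    rw [h0, zero_pow two_ne_zero] at hs
    exact (Valuation.ne_zero_iff _).2 hα hs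
  rw [map_div₀, map_div₀, map_mul, hs]
  field_simp

/-- reducedness modulo `Q` -/
theorem sq_dvd {Q : ℤ} {t : 𝓞 L} {𝔓 𝔮 : HeightOneSpectrum (𝓞 L)} (h : PD Q t 𝔓 𝔮) {x w : 𝓞 L}
    (hx : x * x = (Q : 𝓞 L) * w) : ∃ y, x = (Q : 𝓞 L) * y := by
  apply h.both
  · have h1 : x * x ∈ 𝔓.asIdeal := by
      rw [hx]
      exact 𝔓.asIdeal.mul_mem_right _ h.ovP
    exact (𝔓.isPrime.mem_or_mem h1).elim id id
  · have h1 : x * x ∈ 𝔮.asIdeal := by
      rw [hx]
      exact 𝔮.asIdeal.mul_mem_right _ h.ovq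
    exact (𝔮.isPrime.mem_or_mem h1).elim id id

/-- an element of the lattice from an element which is integral at `𝔓` -/
theorem exists_mul {v : HeightOneSpectrum (𝓞 L)} {α s : L} (hs : v.valuation L (s * s / α) ≤ 1) :
    ∃ d : 𝓞 L, d ∉ v.asIdeal ∧ InB α (algebraMap (𝓞 L) L d * s) := by
  obtain ⟨n, d, hnd⟩ := v.exists_primeCompl_mul_eq_of_integer (s * s / α) hs
  refine ⟨d, d.2, ⟨n * d, ?_⟩⟩
  rw [map_mul, ← hnd]
  ring

/-- **Local duality.** -/
theorem dual_mem {α D : L} (hα : α ≠ 0) (hD : D ≠ 0)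
    (hloc : ∀ v : HeightOneSpectrum (𝓞 L), ∃ x, InB α x ∧
      v.valuation L α * v.valuation L D ≤ v.valuation L x ^ 2)
    {y : L} (hy : ∀ x, InB α x → ∃ w : 𝓞 L, x * y / α = D * algebraMap (𝓞 L) L w) :
    ∃ w : 𝓞 L, y * y / α = D * algebraMap (𝓞 L) L w := by
  have h1 : ∀ v : HeightOneSpectrum (𝓞 L), v.valuation L (y * y / α / D) ≤ 1 := by
    intro v
    obtain ⟨x, hx, hv⟩ := hloc v
    obtain ⟨w, hw⟩ := hy x hx
    have hvα : v.valuation L α ≠ 0 := (Valuation.ne_zero_iff _).2 hα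
    have hvD : v.valuation L D ≠ 0 := (Valuation.ne_zero_iff _).2 hD
    have e1 : x * y = α * D * algebraMap (𝓞 L) L w := by
      field_simp at hw
      linear_combination hw
    have e2 : v.valuation L x * v.valuation L y ≤ v.valuation L α * v.valuation L D := by
      rw [← map_mul, e1, map_mul, map_mul]
      exact mul_le_of_le_one_right' (v.valuation_le_one w)
    have hvx : v.valuation L x ≠ 0 := by
      intro h0
      rw [h0, zero_pow two_ne_zero] at hv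
      exact mul_ne_zero hvα hvD (le_antisymm hv zero_le)
    have e3 : (v.valuation L α * v.valuation L D) * v.valuation L y ^ 2 ≤
        (v.valuation L α * v.valuation L D) * (v.valuation L α * v.valuation L D) := by
      calc (v.valuation L α * v.valuation L D) * v.valuation L y ^ 2
          ≤ v.valuation L x ^ 2 * v.valuation L y ^ 2 := mul_le_mul_left hv _
        _ = (v.valuation L x * v.valuation L y) * (v.valuation L x * v.valuation L y) := by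
            rw [← mul_pow, pow_two]
        _ ≤ _ := mul_le_mul' e2 e2
    have e4 : v.valuation L y ^ 2 ≤ v.valuation L α * v.valuation L D :=
      (mul_le_mul_iff_right₀ (zero_lt_iff.2 (mul_ne_zero hvα hvD))).1 e3
    rw [map_div₀, map_div₀, map_mul, ← pow_two, div_div]
    exact (div_le_one₀ (zero_lt_iff.2 (mul_ne_zero hvα hvD))).2 e4
  obtain ⟨w, hw⟩ := HeightOneSpectrum.mem_integers_of_valuation_le_one L (y * y / α / D) h1
  refine ⟨w, ?_⟩
  rw [hw]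
  field_simp

end lat

end Pool.Agent.Helper29L
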