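import Pool.Agent.Helper29L.Stm2
import Pool.Agent.Helper29K.Main

/-!
# Job MOM (helper24): few pairs with an unbalanced class, with `S_PBAD` as hypothesis
-/

set_option autoImplicit false
set_option linter.all false

open Finset Filter
open scoped Classical

namespace Pool.Agent.Helper29L

open Pool.Agent.N922.PQ
open Pool.Agent.N874.PP (Tup chA chB gq tau Two)
open Pool.Agent.Helper29K

/-- The second set of primes. -/
def eS (e : Bool) (S : Finset ℤ) : Finset ℤ := if e then S else ∅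

/-- Subsets and classes. -/
theorem pbad_mono {κ X : ℕ} {S S' : Finset ℕ} (hS' : S' ⊆ S) {a b c : ℤ} {e : Bool}
    (h : PBad κ X (zS S) (eS e (zS S)) (fun _ => a) a b) (hc : ∀ Q ∈ S', (Q : ℤ) ∣ a - c) :
    PBad κ X (zS S') (eS e (zS S')) (fun _ => c) a b := by
  obtain ⟨m, B, hB, rfl, rfl⟩ := h
  have hsub : ∀ Q ∈ zS S', Q ∈ zS S := by
    intro Q hQ
    obtain ⟨p, hp, rfl⟩ := mem_zS.1 hQ
    exact mem_zS.2 ⟨p, hS' hp, rfl⟩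
  refine ⟨m, B, ⟨hB.box, hB.nz, fun Q hQ hE => ?_, fun Q hQ hE => ?_, fun Q hQ => ?_,
    fun Q hQ => hB.rb Q (hsub Q hQ)⟩, rfl, rfl⟩
  · cases e with
    | false => exact hB.tt Q (hsub Q hQ) (by simp [eS])
    | true => exact absurd hQ (by simpa [eS] using hE)
  · cases e with
    | false => simp [eS] at hE
    | true => exact hB.nn Q (hsub Q hQ) (by simpa [eS] using hsub Q hQ)
  · obtain ⟨p, hp, rfl⟩ := mem_zS.1 hQ
    exact hc p hp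

/-- The set of the pairs of the class `i`. -/
def L2 (κ X : ℕ) (e : Bool) (i : Σ _ : Finset ℕ, ℕ) : Set (ℤ × ℤ) :=
  {p | PBad κ X (zS i.1) (eS e (zS i.1)) (fun _ => (i.2 : ℤ)) p.1 p.2}

theorem mem_L2 {κ X : ℕ} {𝒬 A : Finset ℕ} (hQ : Pr8 𝒬) {a b : ℤ} {e : Bool} (hA : A ⊆ SE 𝒬 a b)
    (h : PBad κ X (zS A) (eS e (zS A)) (fun _ => a) a b) {S : Finset ℕ} (hS : S ⊆ A) :
    (⟨S, (a % ((∏ Q ∈ S, Q : ℕ) : ℤ)).toNat⟩ : Σ _ : Finset ℕ, ℕ) ∈ II 𝒬 ∧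
    (a, b) ∈ L2 κ X e ⟨S, (a % ((∏ Q ∈ S, Q : ℕ) : ℤ)).toNat⟩ := by
  have hSQ : S ⊆ 𝒬 := (hS.trans hA).trans (Finset.filter_subset _ _)
  have hpos : (0 : ℤ) < ((∏ Q ∈ S, Q : ℕ) : ℤ) := by
    have : 0 < ∏ Q ∈ S, Q := Finset.prod_pos fun Q hQ' => (hQ Q (hSQ hQ')).1.pos
    exact_mod_cast this
  have hc : (((a % ((∏ Q ∈ S, Q : ℕ) : ℤ)).toNat : ℕ) : ℤ) = a % ((∏ Q ∈ S, Q : ℕ) : ℤ) :=
    Int.toNat_of_nonneg (Int.emod_nonneg _ hpos.ne')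
  have hd : ∀ Q ∈ S, (Q : ℤ) ∣ a - (((a % ((∏ Q ∈ S, Q : ℕ) : ℤ)).toNat : ℕ) : ℤ) := by
    intro Q hQS
    rw [hc]
    exact (Int.natCast_dvd_natCast.2 (Finset.dvd_prod_of_mem (fun Q : ℕ => Q) hQS)).trans
      (Int.dvd_self_sub_of_emod_eq rfl)
  refine ⟨?_, pbad_mono hS h hd⟩
  unfold II
  rw [Finset.mem_sigma]
  refine ⟨Finset.mem_powerset.2 hSQ, ?_⟩
  unfold CS
  rw [Finset.mem_filter, Finset.mem_range]
  refine ⟨?_, fun Q hQS => ?_⟩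
  · have := Int.emod_lt_of_pos a hpos
    show (a % ((∏ Q ∈ S, Q : ℕ) : ℤ)).toNat < ∏ Q ∈ S, Q
    omega
  · exact (nr_congr (hd Q hQS)).1 (Finset.mem_filter.1 (hA (hS hQS))).2.2

theorem mem_unb {κ X : ℕ} {𝒬 : Finset ℕ} {δ : ℝ} {m : ℕ} {p : ℤ × ℤ} (hp : p ∈ UnbSet κ X 𝒬 δ m) :
    m ≤ (SE 𝒬 p.1 p.2).card ∧ ∃ A ⊆ SE 𝒬 p.1 p.2,
      (1 / 2 + δ) * ((SE 𝒬 p.1 p.2).card : ℝ) ≤ A.card ∧
      ∃ e : Bool, PBad κ X (zS A) (eS e (zS A)) (fun _ => p.1) p.1 p.2 := by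
  obtain ⟨h1, A, hA, h2, h3⟩ := hp
  refine ⟨h1, A, hA, h2, ?_⟩
  rcases h3 with h | h
  · exact ⟨false, by simpa [eS] using h⟩
  · exact ⟨true, by simpa [eS] using h⟩

/-- Double counting with weights. -/
theorem double2 {κ X : ℕ} {𝒬 : Finset ℕ} (hQ : Pr8 𝒬) {δ : ℝ} (hδ : 0 < δ) {m : ℕ} {l : ℝ}
    (hl : 0 < l) (hfin : ∀ e : Bool, ∀ i ∈ II 𝒬, (L2 κ X e i).Finite) :
    (UnbSet κ X 𝒬 δ m).Finite ∧ (1 + l) ^ ((1 / 2 + δ) * (m : ℝ)) *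
      ((UnbSet κ X 𝒬 δ m).ncard : ℝ) ≤
      ∑ e : Bool, ∑ i ∈ II 𝒬, l ^ i.1.card * ((L2 κ X e i).ncard : ℝ) := by
  have hBf : (UnbSet κ X 𝒬 δ m).Finite := by
    have h1 : (⋃ e : Bool, ⋃ i ∈ II 𝒬, L2 κ X e i).Finite :=
      Set.finite_iUnion fun e => Set.Finite.biUnion (II 𝒬).finite_toSet (hfin e)
    refine h1.subset ?_
    rintro ⟨a, b⟩ hp
    obtain ⟨-, A, hA, -, e, h⟩ := mem_unb hp
    have := mem_L2 hQ hA h (subset_refl _)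
    exact Set.mem_iUnion.2 ⟨e, Set.mem_biUnion this.1 this.2⟩
  refine ⟨hBf, ?_⟩
  rw [Set.ncard_eq_toFinset_card _ hBf]
  have h1 : ∀ p ∈ hBf.toFinset, (1 + l) ^ ((1 / 2 + δ) * (m : ℝ)) ≤
      ∑ e : Bool, ∑ i ∈ II 𝒬, if p ∈ L2 κ X e i then l ^ i.1.card else 0 := by
    rintro ⟨a, b⟩ hp
    obtain ⟨hm, A, hA, hcard, e, hb⟩ := mem_unb (hBf.mem_toFinset.1 hp)
    have h2 : (1 + l) ^ ((1 / 2 + δ) * (m : ℝ)) ≤ (1 + l) ^ A.card := by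
      rw [← Real.rpow_natCast]
      refine Real.rpow_le_rpow_of_exponent_le (by linarith) ?_
      refine le_trans (mul_le_mul_of_nonneg_left ?_ (by linarith)) hcard
      exact_mod_cast hm
    refine h2.trans ?_
    have h3 : (1 + l) ^ A.card = ∑ S ∈ A.powerset, l ^ S.card := by
      have := Finset.prod_one_add (s := A) (f := fun _ => l)
      rw [Finset.prod_const] at this
      rw [this]
      exact Finset.sum_congr rfl fun S _ => Finset.prod_const _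
    rw [h3]
    obtain ⟨g, hg⟩ : ∃ g : Finset ℕ → (Σ _ : Finset ℕ, ℕ), g = fun S =>
      (⟨S, (a % ((∏ Q ∈ S, Q : ℕ) : ℤ)).toNat⟩ : Σ _ : Finset ℕ, ℕ) := ⟨_, rfl⟩
    have hmem : ∀ S ∈ A.powerset, g S ∈ II 𝒬 ∧ (a, b) ∈ L2 κ X e (g S) := by
      intro S hS
      rw [hg]
      exact mem_L2 hQ hA hb (Finset.mem_powerset.1 hS)
    have hinj : ∀ S ∈ A.powerset, ∀ S' ∈ A.powerset, g S = g S' → S = S' := by
      intro S _ S' _ h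
      rw [hg] at h
      exact congrArg Sigma.fst h
    have hfst : ∀ S, (g S).1 = S := by
      intro S
      rw [hg]
    have hnn : ∀ (e' : Bool) (i : Σ _ : Finset ℕ, ℕ),
        (0 : ℝ) ≤ if (a, b) ∈ L2 κ X e' i then l ^ i.1.card else 0 := by
      intro e' i
      split_ifs
      · positivity
      · exact le_rfl
    calc ∑ S ∈ A.powerset, l ^ S.card
        = ∑ S ∈ A.powerset, (if (a, b) ∈ L2 κ X e (g S) then l ^ (g S).1.card else 0) := by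
          refine Finset.sum_congr rfl fun S hS => ?_
          rw [if_pos (hmem S hS).2, hfst]
      _ = ∑ i ∈ A.powerset.image g, (if (a, b) ∈ L2 κ X e i then l ^ i.1.card else 0) := by
          rw [Finset.sum_image hinj]
      _ ≤ ∑ i ∈ II 𝒬, (if (a, b) ∈ L2 κ X e i then l ^ i.1.card else 0) := by
          refine Finset.sum_le_sum_of_subset_of_nonneg ?_ fun i _ _ => hnn e i
          intro i hi
          obtain ⟨S, hS, rfl⟩ := Finset.mem_image.1 hi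
          exact (hmem S hS).1
      _ ≤ ∑ e : Bool, ∑ i ∈ II 𝒬, (if (a, b) ∈ L2 κ X e i then l ^ i.1.card else 0) :=
          Finset.single_le_sum (f := fun e : Bool => ∑ i ∈ II 𝒬,
            (if (a, b) ∈ L2 κ X e i then l ^ i.1.card else 0))
            (fun e' _ => Finset.sum_nonneg fun i _ => hnn e' i) (Finset.mem_univ e)
  calc (1 + l) ^ ((1 / 2 + δ) * (m : ℝ)) * (hBf.toFinset.card : ℝ)
      = ∑ p ∈ hBf.toFinset, (1 + l) ^ ((1 / 2 + δ) * (m : ℝ)) := by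
        rw [Finset.sum_const, nsmul_eq_mul, mul_comm]
    _ ≤ ∑ p ∈ hBf.toFinset, ∑ e : Bool, ∑ i ∈ II 𝒬,
        (if p ∈ L2 κ X e i then l ^ i.1.card else 0) := Finset.sum_le_sum h1
    _ = ∑ e : Bool, ∑ i ∈ II 𝒬, ∑ p ∈ hBf.toFinset,
        (if p ∈ L2 κ X e i then l ^ i.1.card else 0) := by
        rw [Finset.sum_comm]
        exact Finset.sum_congr rfl fun e _ => Finset.sum_comm
    _ ≤ ∑ e : Bool, ∑ i ∈ II 𝒬, l ^ i.1.card * ((L2 κ X e i).ncard : ℝ) := by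
        refine Finset.sum_le_sum fun e _ => Finset.sum_le_sum fun i hi => ?_
        rw [← Finset.sum_filter, Finset.sum_const, nsmul_eq_mul, mul_comm,
          Set.ncard_eq_toFinset_card _ (hfin e i hi)]
        refine mul_le_mul_of_nonneg_left ?_ (by positivity)
        exact_mod_cast Finset.card_le_card fun p hp =>
          (hfin e i hi).mem_toFinset.2 (Finset.mem_filter.1 hp).2

/-- The sum over the classes. -/
theorem sum_classes {𝒬 : Finset ℕ} (hQ : Pr8 𝒬) {K l x : ℝ} (hK : 0 ≤ K) (hl : 0 < l) (hx : 0 ≤ x)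
    {f : (Σ _ : Finset ℕ, ℕ) → ℝ}
    (hf : ∀ i ∈ II 𝒬, (2 : ℝ) ^ i.1.card * ((∏ Q ∈ i.1, Q : ℕ) : ℝ) ^ 2 * f i ≤ K * x) :
    ∑ i ∈ II 𝒬, l ^ i.1.card * f i ≤ K * x * Real.exp (l / 4 * ∑ Q ∈ 𝒬, (1 : ℝ) / Q) := by
  have h4 : ∀ i ∈ II 𝒬, l ^ i.1.card * f i ≤
      l ^ i.1.card * (K * x / ((2 : ℝ) ^ i.1.card * ((∏ Q ∈ i.1, Q : ℕ) : ℝ) ^ 2)) := by
    intro i hi
    have hpos : (0 : ℝ) < ((∏ Q ∈ i.1, Q : ℕ) : ℝ) := by
      unfold II at hi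
      rw [Finset.mem_sigma, Finset.mem_powerset] at hi
      have : 0 < ∏ Q ∈ i.1, Q := Finset.prod_pos fun Q hQ' => (hQ Q (hi.1 hQ')).1.pos
      exact_mod_cast this
    refine mul_le_mul_of_nonneg_left ?_ (by positivity)
    rw [le_div_iff₀ (by positivity)]
    have := hf i hi
    linarith
  refine (Finset.sum_le_sum h4).trans ?_
  have h5 : ∏ Q ∈ 𝒬, (1 + l / (4 * (Q : ℝ))) ≤ Real.exp (l / 4 * ∑ Q ∈ 𝒬, (1 : ℝ) / Q) := by
    have h2 : ∀ Q ∈ 𝒬, 1 + l / (4 * (Q : ℝ)) ≤ Real.exp (l / 4 * (1 / (Q : ℝ))) := by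
      intro Q hQ
      have h3 := Real.add_one_le_exp (l / 4 * (1 / (Q : ℝ)))
      refine le_trans (le_of_eq ?_) h3
      ring
    refine (Finset.prod_le_prod (fun Q _ => by positivity) h2).trans ?_
    rw [← Real.exp_sum, Real.exp_le_exp, ← Finset.mul_sum]
  refine le_trans ?_ (mul_le_mul_of_nonneg_left h5 (mul_nonneg hK hx))
  unfold II
  rw [Finset.sum_sigma, Finset.prod_one_add, Finset.mul_sum]
  refine Finset.sum_le_sum fun S hS => ?_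
  rw [Finset.mem_powerset] at hS
  have hSQ := hQ.mono hS
  show ∑ _c ∈ CS S, l ^ S.card * (K * x / ((2 : ℝ) ^ S.card * ((∏ Q ∈ S, Q : ℕ) : ℝ) ^ 2)) ≤ _
  rw [Finset.sum_const, nsmul_eq_mul, card_CS fun Q hQS => ⟨(hSQ Q hQS).1, hSQ.ne_two hQS⟩]
  have e1 : ((2 : ℝ) ^ S.card * ((∏ Q ∈ S, Q : ℕ) : ℝ) ^ 2) = ∏ Q ∈ S, (2 * (Q : ℝ) ^ 2) := by
    rw [Finset.prod_mul_distrib, Finset.prod_const, Nat.cast_prod, Finset.prod_pow]
  have e2 : (∏ Q ∈ S, ((Q : ℝ) - 1) / 2) * (l ^ S.card * (K * x / ((2 : ℝ) ^ S.card *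
      ((∏ Q ∈ S, Q : ℕ) : ℝ) ^ 2))) = K * x *
      ∏ Q ∈ S, (l * (((Q : ℝ) - 1) / 2) / (2 * (Q : ℝ) ^ 2)) := by
    have e3 : ∏ Q ∈ S, (l * (((Q : ℝ) - 1) / 2) / (2 * (Q : ℝ) ^ 2)) =
        l ^ S.card * (∏ Q ∈ S, ((Q : ℝ) - 1) / 2) / ∏ Q ∈ S, (2 * (Q : ℝ) ^ 2) := by
      rw [Finset.prod_div_distrib (f := fun Q : ℕ => l * (((Q : ℝ) - 1) / 2)),
        Finset.prod_mul_distrib (f := fun _ => l), Finset.prod_const]
    rw [e1, e3]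
    ring
  rw [e2]
  refine mul_le_mul_of_nonneg_left ?_ (mul_nonneg hK hx)
  refine Finset.prod_le_prod (fun Q hQS => ?_) fun Q hQS => ?_
  · have : (1 : ℝ) ≤ Q := by exact_mod_cast (hSQ Q hQS).1.one_lt.le
    have h5 : (0 : ℝ) ≤ (Q : ℝ) - 1 := by linarith
    positivity
  · have h5 : (0 : ℝ) < Q := by exact_mod_cast (hSQ Q hQS).1.pos
    rw [div_le_div_iff₀ (by positivity) (by positivity)]
    have h6 : 0 < l * Q := mul_pos hl h5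
    nlinarith

/-- The bound for the pairs with an unbalanced class. -/
theorem unb (hP : S_PBAD) (κ : ℕ) : ∃ K : ℝ, 0 ≤ K ∧ ∀ (δ l : ℝ), 0 < δ → 0 < l →
    ∀ 𝒬 : Finset ℕ, Pr8 𝒬 → ∀ m : ℕ, ∀ᶠ X : ℕ in atTop, (UnbSet κ X 𝒬 δ m).Finite ∧
      (1 + l) ^ ((1 / 2 + δ) * (m : ℝ)) * ((UnbSet κ X 𝒬 δ m).ncard : ℝ) ≤
        2 * K * (X : ℝ) ^ 5 * Real.exp (l / 4 * ∑ Q ∈ 𝒬, (1 : ℝ) / Q) := by
  obtain ⟨K, hK⟩ := hP κ
  refine ⟨K, Nat.cast_nonneg _, fun δ l hδ hl 𝒬 hQ m => ?_⟩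
  have hgood : ∀ i ∈ II 𝒬, GoodS (zS i.1) (fun _ => (i.2 : ℤ)) := by
    rintro ⟨S, c⟩ hi
    unfold II at hi
    rw [Finset.mem_sigma, Finset.mem_powerset] at hi
    exact goodS_of (hQ.mono hi.1) (Finset.mem_filter.1 hi.2).2
  have hev : ∀ e : Bool, ∀ᶠ X : ℕ in atTop, ∀ i ∈ II 𝒬, (L2 κ X e i).Finite ∧
      (2 : ℝ) ^ i.1.card * ((∏ Q ∈ i.1, Q : ℕ) : ℝ) ^ 2 * ((L2 κ X e i).ncard : ℝ) ≤
        K * (X : ℝ) ^ 5 := by
    intro e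
    rw [Filter.eventually_all_finset]
    intro i hi
    obtain ⟨X₀, h⟩ := hK (zS i.1) (eS e (zS i.1)) (fun _ => (i.2 : ℤ)) (hgood i hi)
    filter_upwards [eventually_ge_atTop X₀] with X hX
    obtain ⟨h1, h2⟩ := h X hX
    refine ⟨h1, ?_⟩
    rw [card_zS, prod_zS] at h2
    have h3 : (((2 ^ i.1.card * ((∏ Q ∈ i.1, Q : ℕ) : ℤ) ^ 2 *
        ((L2 κ X e i).ncard : ℤ) : ℤ)) : ℝ) ≤ ((K * X ^ 5 : ℤ) : ℝ) := by
      exact_mod_cast h2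
    push_cast at h3
    push_cast
    exact h3
  filter_upwards [hev true, hev false] with X hX1 hX2
  have hX : ∀ e : Bool, ∀ i ∈ II 𝒬, (L2 κ X e i).Finite ∧
      (2 : ℝ) ^ i.1.card * ((∏ Q ∈ i.1, Q : ℕ) : ℝ) ^ 2 * ((L2 κ X e i).ncard : ℝ) ≤
        K * (X : ℝ) ^ 5 := by
    intro e
    cases e
    · exact hX2
    · exact hX1
  obtain ⟨h1, h2⟩ := double2 hQ hδ (m := m) hl fun e i hi => (hX e i hi).1
  refine ⟨h1, h2.trans ?_⟩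
  have h3 : ∀ e : Bool, ∑ i ∈ II 𝒬, l ^ i.1.card * ((L2 κ X e i).ncard : ℝ) ≤
      K * (X : ℝ) ^ 5 * Real.exp (l / 4 * ∑ Q ∈ 𝒬, (1 : ℝ) / Q) := fun e =>
    sum_classes hQ (Nat.cast_nonneg _) hl (by positivity) fun i hi => (hX e i hi).2
  rw [Fintype.sum_bool]
  have := add_le_add (h3 true) (h3 false)
  refine this.trans (le_of_eq ?_)
  ring

/-! ### The first estimate -/

theorem sum_sq_le' {𝒬 : Finset ℕ} (hQ : Pr8 𝒬) : ∑ Q ∈ 𝒬, (1 : ℝ) / (Q : ℝ) ^ 2 ≤ 2 := by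
  have h1 : 𝒬 ⊆ QY (𝒬.sup id) := by
    intro Q hQ'
    unfold QY
    rw [Finset.mem_filter, Finset.mem_Icc]
    exact ⟨⟨(hQ Q hQ').1.one_lt.le, Finset.le_sup (f := id) hQ'⟩, hQ Q hQ'⟩
  exact (Finset.sum_le_sum_of_subset_of_nonneg h1 fun Q _ _ => by positivity).trans
    (sum_sq_le _)

theorem exp_le_one_sub {v : ℝ} (hv : 0 ≤ v) (hv1 : v ≤ 1 / 3) :
    Real.exp (-(v + v ^ 2)) ≤ 1 - v := by
  have h7 := Real.quadratic_le_exp_of_nonneg (show (0 : ℝ) ≤ v + v ^ 2 by positivity)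
  rw [Real.exp_neg, inv_le_comm₀ (Real.exp_pos _) (by linarith)]
  refine le_trans ?_ h7
  rw [inv_eq_one_div, div_le_iff₀ (by linarith)]
  have h8 : 0 ≤ v ^ 2 * ((1 - v) * (1 + v) ^ 2 / 2 - v) := by
    refine mul_nonneg (sq_nonneg _) ?_
    have h9 : (1 - v) * 1 ≤ (1 - v) * (1 + v) ^ 2 :=
      mul_le_mul_of_nonneg_left (by nlinarith) (by linarith)
    linarith
  nlinarith

/-- Few pairs have few primes of the type. -/
theorem few_est {𝒬 : Finset ℕ} (hQ : Pr8 𝒬) {v Λ : ℝ} (hv : 0 < v) (hv1 : v ≤ 1 / 3)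
    (hΛ : Λ = ∑ Q ∈ 𝒬, (1 : ℝ) / Q) (hΛ0 : 0 ≤ Λ) {m : ℕ} (hm : (m : ℝ) ≤ (1 - 2 * v) * Λ / 2) {X : ℕ}
    (hX : ∏ Q ∈ 𝒬, Q ≤ X) :
    ((FewSet 𝒬 m X).ncard : ℝ) ≤ 8 * (X : ℝ) ^ 5 * Real.exp (-(v ^ 2 / 2) * Λ + 1) := by
  have h := few1 hQ (u := 1 - v) (by linarith) (by linarith) m hX
  have hset : FewSet 𝒬 m X = (((Bx X).filter fun p => (SE 𝒬 p.1 p.2).card < m : Finset (ℤ × ℤ)) :
      Set (ℤ × ℤ)) := by
    ext p
    simp [FewSet]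
  rw [hset, Set.ncard_coe_finset]
  have h1 : ∏ Q ∈ 𝒬, (1 - (1 - (1 - v)) * (((Q : ℝ) - 1) / (2 * (Q : ℝ) ^ 2))) ≤
      Real.exp (-(v / 2) * Λ + v) := by
    have h2 : ∀ Q ∈ 𝒬, (1 - (1 - (1 - v)) * (((Q : ℝ) - 1) / (2 * (Q : ℝ) ^ 2))) ≤
        Real.exp (-(v / 2) * (1 / (Q : ℝ)) + v / 2 * (1 / (Q : ℝ) ^ 2)) := by
      intro Q hQ'
      have hQ0 : (0 : ℝ) < Q := by exact_mod_cast (hQ Q hQ').1.pos
      have h3 := Real.add_one_le_exp (-(v / 2) * (1 / (Q : ℝ)) + v / 2 * (1 / (Q : ℝ) ^ 2))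
      refine le_trans (le_of_eq ?_) h3
      field_simp
      ring
    have h4 : ∀ Q ∈ 𝒬, 0 ≤ (1 - (1 - (1 - v)) * (((Q : ℝ) - 1) / (2 * (Q : ℝ) ^ 2))) := by
      intro Q hQ'
      have hQ1 : (1 : ℝ) ≤ Q := by exact_mod_cast (hQ Q hQ').1.one_lt.le
      have h5 : ((Q : ℝ) - 1) / (2 * (Q : ℝ) ^ 2) ≤ 1 := by
        rw [div_le_one (by positivity)]
        nlinarith
      have h6 : 0 ≤ ((Q : ℝ) - 1) / (2 * (Q : ℝ) ^ 2) := by
        have : (0 : ℝ) ≤ (Q : ℝ) - 1 := by linarith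
        positivity
      nlinarith
    refine (Finset.prod_le_prod h4 h2).trans ?_
    rw [← Real.exp_sum, Real.exp_le_exp, Finset.sum_add_distrib, ← Finset.mul_sum,
      ← Finset.mul_sum, ← hΛ]
    have h6 := sum_sq_le' hQ
    nlinarith
  have h5 : Real.exp (-((v + v ^ 2) * m)) ≤ (1 - v) ^ m := by
    calc Real.exp (-((v + v ^ 2) * m)) = Real.exp (-(v + v ^ 2)) ^ m := by
          rw [← Real.exp_nat_mul]
          congr 1
          ring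
      _ ≤ (1 - v) ^ m := pow_le_pow_left₀ (Real.exp_pos _).le (exp_le_one_sub hv.le hv1) _
  have h8 : Real.exp (-((v + v ^ 2) * m)) *
      (((Bx X).filter fun p => (SE 𝒬 p.1 p.2).card < m).card : ℝ) ≤
      8 * (X : ℝ) ^ 5 * Real.exp (-(v / 2) * Λ + v) := by
    refine (mul_le_mul_of_nonneg_right h5 (Nat.cast_nonneg _)).trans (h.trans ?_)
    exact mul_le_mul_of_nonneg_left h1 (by positivity)
  have h9 : 8 * (X : ℝ) ^ 5 * Real.exp (-(v / 2) * Λ + v) ≤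
      Real.exp (-((v + v ^ 2) * m)) *
        (8 * (X : ℝ) ^ 5 * Real.exp (-(v ^ 2 / 2) * Λ + 1)) := by
    have e : Real.exp (-((v + v ^ 2) * m)) *
        (8 * (X : ℝ) ^ 5 * Real.exp (-(v ^ 2 / 2) * Λ + 1)) =
        8 * (X : ℝ) ^ 5 * (Real.exp (-((v + v ^ 2) * m) + (-(v ^ 2 / 2) * Λ + 1))) := by
      rw [Real.exp_add (-((v + v ^ 2) * m))]
      ring
    rw [e]
    refine mul_le_mul_of_nonneg_left (Real.exp_le_exp.2 ?_) (by positivity)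
    have h10 : (v + v ^ 2) * m ≤ (v + v ^ 2) * ((1 - 2 * v) * Λ / 2) :=
      mul_le_mul_of_nonneg_left hm (by positivity)
    have h11 : (v + v ^ 2) * ((1 - 2 * v) * Λ / 2) = v / 2 * Λ - v ^ 2 / 2 * Λ - v ^ 3 * Λ := by ring
    have h12 : 0 ≤ v ^ 3 * Λ := by positivity
    linarith
  exact le_of_mul_le_mul_left (h8.trans h9) (Real.exp_pos _)

/-- **Job MOM.** -/
theorem mom (hP : S_PBAD) : S_MOM := by
  intro κ δ ε hδ hδ1 hε m₀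
  obtain ⟨K, hK0, hK⟩ := unb hP κ
  have hKε : 0 < (8 + 2 * K) / ε := by positivity
  refine ⟨max (32 / δ ^ 2 * (1 + (8 + 2 * K) / ε)) (4 * m₀), fun 𝒬 hQ hΛ0 => ?_⟩
  obtain ⟨Λ, hΛ⟩ : ∃ Λ : ℝ, Λ = ∑ Q ∈ 𝒬, (1 : ℝ) / Q := ⟨_, rfl⟩
  rw [← hΛ] at hΛ0
  have hL1 : 32 / δ ^ 2 * (1 + (8 + 2 * K) / ε) ≤ Λ := (le_max_left _ _).trans hΛ0
  have hL2 : 4 * (m₀ : ℝ) ≤ Λ := (le_max_right _ _).trans hΛ0
  have hΛpos : 0 ≤ Λ := le_trans (by positivity) hL2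
  -- the exponent
  have hexp : (8 + 2 * K) * Real.exp (-(δ ^ 2 / 32) * Λ + 1) ≤ ε := by
    have hy : (8 + 2 * K) / ε ≤ δ ^ 2 / 32 * Λ - 1 := by
      have h1 : δ ^ 2 / 32 * (32 / δ ^ 2 * (1 + (8 + 2 * K) / ε)) ≤ δ ^ 2 / 32 * Λ :=
        mul_le_mul_of_nonneg_left hL1 (by positivity)
      have h2 : δ ^ 2 / 32 * (32 / δ ^ 2 * (1 + (8 + 2 * K) / ε)) = 1 + (8 + 2 * K) / ε := by
        field_simp
      linarith
    have h3 : δ ^ 2 / 32 * Λ - 1 ≤ Real.exp (δ ^ 2 / 32 * Λ - 1) := by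
      have := Real.add_one_le_exp (δ ^ 2 / 32 * Λ - 1)
      linarith
    have h4 : (8 + 2 * K) / ε ≤ Real.exp (δ ^ 2 / 32 * Λ - 1) := hy.trans h3
    have e : -(δ ^ 2 / 32) * Λ + 1 = -(δ ^ 2 / 32 * Λ - 1) := by ring
    rw [e, Real.exp_neg, ← div_eq_mul_inv, div_le_iff₀ (Real.exp_pos _)]
    rw [div_le_iff₀ hε] at h4
    linarith
  obtain ⟨m, hm⟩ : ∃ m : ℕ, m = ⌊(1 - δ / 2) * Λ / 2⌋₊ := ⟨_, rfl⟩
  have hm1 : (m : ℝ) ≤ (1 - δ / 2) * Λ / 2 := by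
    rw [hm]
    refine Nat.floor_le ?_
    have : 0 ≤ (1 - δ / 2) := by linarith
    positivity
  have hm2 : (1 - δ / 2) * Λ / 2 - 1 ≤ m := by
    have := Nat.lt_floor_add_one ((1 - δ / 2) * Λ / 2)
    rw [← hm] at this
    linarith
  refine ⟨m, ?_, ?_⟩
  · show m₀ ≤ m
    rw [hm]
    refine Nat.le_floor ?_
    nlinarith
  filter_upwards [hK δ (δ / 2) hδ (by positivity) 𝒬 hQ m, eventually_ge_atTop (∏ Q ∈ 𝒬, Q)]
    with X hX hX2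
  have hX5 : (0 : ℝ) ≤ (X : ℝ) ^ 5 := by positivity
  refine ⟨?_, hX.1, ?_⟩
  · have h1 := few_est hQ (v := δ / 4) (by positivity) (by linarith) hΛ hΛpos (m := m) (by
      have e : (1 - 2 * (δ / 4)) * Λ / 2 = (1 - δ / 2) * Λ / 2 := by ring
      rw [e]
      exact hm1) hX2
    refine h1.trans ?_
    have e : -((δ / 4) ^ 2 / 2) * Λ + 1 = -(δ ^ 2 / 32) * Λ + 1 := by ring
    rw [e]
    have h2 : 8 * Real.exp (-(δ ^ 2 / 32) * Λ + 1) ≤ ε := by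
      refine le_trans ?_ hexp
      exact mul_le_mul_of_nonneg_right (by linarith) (Real.exp_pos _).le
    calc 8 * (X : ℝ) ^ 5 * Real.exp (-(δ ^ 2 / 32) * Λ + 1)
        = 8 * Real.exp (-(δ ^ 2 / 32) * Λ + 1) * (X : ℝ) ^ 5 := by ring
      _ ≤ ε * (X : ℝ) ^ 5 := mul_le_mul_of_nonneg_right h2 hX5
  · have h1 := hX.2
    rw [← hΛ] at h1
    have hlog : δ / 2 * (1 - δ / 4) ≤ Real.log (1 + δ / 2) := by
      have h2 := Real.le_log_one_add_of_nonneg (show (0 : ℝ) ≤ δ / 2 by positivity)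
      refine le_trans ?_ h2
      rw [le_div_iff₀ (by positivity)]
      nlinarith [mul_pos hδ hδ, mul_pos (mul_pos hδ hδ) hδ]
    have h3 : Real.exp (δ / 8 * Λ + δ ^ 2 / 16 * Λ - 1) ≤
        (1 + δ / 2) ^ ((1 / 2 + δ) * (m : ℝ)) := by
      rw [Real.rpow_def_of_pos (by positivity), Real.exp_le_exp]
      have h4 : δ / 2 * (1 - δ / 4) * ((1 / 2 + δ) * (m : ℝ)) ≤
          Real.log (1 + δ / 2) * ((1 / 2 + δ) * (m : ℝ)) :=
        mul_le_mul_of_nonneg_right hlog (by positivity)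
      refine le_trans ?_ h4
      have hc : 0 ≤ δ / 2 * (1 - δ / 4) * (1 / 2 + δ) := by
        have : 0 ≤ 1 - δ / 4 := by linarith
        positivity
      have h5 : δ / 2 * (1 - δ / 4) * (1 / 2 + δ) * ((1 - δ / 2) * Λ / 2 - 1) ≤
          δ / 2 * (1 - δ / 4) * (1 / 2 + δ) * m := mul_le_mul_of_nonneg_left hm2 hc
      have e : δ / 2 * (1 - δ / 4) * ((1 / 2 + δ) * (m : ℝ)) =
          δ / 2 * (1 - δ / 4) * (1 / 2 + δ) * m := by ring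
      rw [e]
      refine le_trans ?_ h5
      have h6 : 1 / 2 + δ / 4 ≤ (1 - δ / 4) * (1 / 2 + δ) * (1 - δ / 2) := by
        nlinarith [mul_pos hδ hδ, mul_pos (mul_pos hδ hδ) hδ]
      have h7 : (1 / 2 + δ / 4) * (δ * Λ / 4) ≤
          (1 - δ / 4) * (1 / 2 + δ) * (1 - δ / 2) * (δ * Λ / 4) :=
        mul_le_mul_of_nonneg_right h6 (by positivity)
      have h8 : δ / 2 * (1 - δ / 4) * (1 / 2 + δ) ≤ 1 := by nlinarith [mul_pos hδ hδ]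
      have e2 : δ / 2 * (1 - δ / 4) * (1 / 2 + δ) * ((1 - δ / 2) * Λ / 2 - 1) =
          (1 - δ / 4) * (1 / 2 + δ) * (1 - δ / 2) * (δ * Λ / 4) -
            δ / 2 * (1 - δ / 4) * (1 / 2 + δ) := by ring
      rw [e2]
      have e3 : (1 / 2 + δ / 4) * (δ * Λ / 4) = δ / 8 * Λ + δ ^ 2 / 16 * Λ := by ring
      linarith
    have h9 : Real.exp (δ / 8 * Λ + δ ^ 2 / 16 * Λ - 1) * ((UnbSet κ X 𝒬 δ m).ncard : ℝ) ≤
        2 * K * (X : ℝ) ^ 5 * Real.exp (δ / 2 / 4 * Λ) :=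
      (mul_le_mul_of_nonneg_right h3 (Nat.cast_nonneg _)).trans h1
    have h10 : 2 * K * (X : ℝ) ^ 5 * Real.exp (δ / 2 / 4 * Λ) ≤
        Real.exp (δ / 8 * Λ + δ ^ 2 / 16 * Λ - 1) * (ε * (X : ℝ) ^ 5) := by
      have h11 : Real.exp (δ / 2 / 4 * Λ) ≤ Real.exp (δ / 8 * Λ + δ ^ 2 / 16 * Λ - 1) *
          Real.exp (-(δ ^ 2 / 32) * Λ + 1) := by
        rw [← Real.exp_add, Real.exp_le_exp]
        have : 0 ≤ δ ^ 2 * Λ := by positivity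
        linarith
      have h12 : 2 * K * Real.exp (-(δ ^ 2 / 32) * Λ + 1) ≤ ε := by
        refine le_trans ?_ hexp
        exact mul_le_mul_of_nonneg_right (by linarith) (Real.exp_pos _).le
      calc 2 * K * (X : ℝ) ^ 5 * Real.exp (δ / 2 / 4 * Λ)
          ≤ 2 * K * (X : ℝ) ^ 5 * (Real.exp (δ / 8 * Λ + δ ^ 2 / 16 * Λ - 1) *
            Real.exp (-(δ ^ 2 / 32) * Λ + 1)) := mul_le_mul_of_nonneg_left h11 (by positivity)
        _ = Real.exp (δ / 8 * Λ + δ ^ 2 / 16 * Λ - 1) * (X : ℝ) ^ 5 *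
            (2 * K * Real.exp (-(δ ^ 2 / 32) * Λ + 1)) := by ring
        _ ≤ Real.exp (δ / 8 * Λ + δ ^ 2 / 16 * Λ - 1) * (X : ℝ) ^ 5 * ε :=
            mul_le_mul_of_nonneg_left h12 (by positivity)
        _ = _ := by ring
    exact le_of_mul_le_mul_left (h9.trans h10) (Real.exp_pos _)

end Pool.Agent.Helper29L
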