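import Pool.Agent.Helper29K.NF
import Pool.Agent.H30GR.Low5

/-!
# Project PR (helper29): the 2-Selmer groups of bounded twists of almost all curves; statements

`E : y ^ 2 = x ^ 3 + a x + b` is a curve of the family `InFamily` (squarefree `4 a ^ 3 + 27 b ^ 2`, `a > 0`,
`a = b = 3` modulo `4`, no zero of the cubic modulo `3`), `L = ℚ(θ)`. A prime `Q` is of the type (`Gp`) if it
is `1` modulo `8`, divides `b`, and `- a` is not a square modulo `Q`. There are two primes of `L` over `Q`: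
one of degree one, with `θ ≡ 0`, and `𝔮` of degree two. The local classes at `Q` are given by the class
at `𝔮`: a group of order four, with the coordinates `e` (the parity of the valuation) and `u` (`0` if
the class is trivial or that of `Q θ`).

Theorem 1: for every `n` and `ε > 0` there is `D` such that all but a proportion `ε` of the curves of the
family have a twist by `d ≤ D` whose 2-Selmer group has order exactly `2 ^ n`. So a positive proportion
of all elliptic curves over `ℚ` has `dim Sel_2 = n`, for every `n ≥ 0`.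

Theorem 2: for almost all curves of the family the dimensions of the 2-Selmer groups of the twists by
`d = Q_1 ⋯ Q_k`, `Q_i` in a given finite set `𝒬_i` of primes, of the type for `E`, have nearly the distribution
of Poonen and Rains.

Outline. `Sel(Z)` (`InSel`) is the 2-Selmer group of the twist by `∏ Q ∈ Z, Q`, as a group of classes in
`L*/L*²`. (1) counting: for few curves there is a nontrivial class in `Sel(Z)`, `Z` a subset of a fixed
finite set, with prescribed classes (trivial or not) at all `Q ∈ S` (`S_PLB`, `S_PBAD`). So for almost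
all curves every nontrivial class of every `Sel(Z)` is trivial at about one half of the primes of the
type in a large set. (2) `Sel(Z ∪ {q})` has the dimension `n + 1` if all the classes of `Sel(Z)` are trivial
at `q`, and `n - 1` if not; this is linear algebra for the isotropic group of the classes which are
relaxed at the primes in `S` (`InRel`), which has the maximal order by `S_SIZE`. (3) The dimension is
a Markov chain with the probabilities `2 ^ (-n)` and `1 - 2 ^ (-n)`.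
-/

set_option autoImplicit false
set_option linter.all false

open IsDedekindDomain NumberField
open scoped Classical

namespace Pool.Agent.Helper29L

open Pool.Agent.N922.PQ
open Pool.Agent.N874.PP (Tup chA chB gq tau Two Ev Sq1 U0 sW)
open Pool.Agent.H30EV (curve Coch ShaCocycle cob)
open Pool.Agent.H30GR (SelBd)
open Pool.Agent.Helper29K (InFamily)

/-! ### Job NN: counting with the condition of no zero modulo `Q` -/

/-- No zero on the projective line modulo `Q`. -/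
def NN (Q : ℤ) (B : Tup ℤ) : Prop := ¬ Q ∣ B.x ∧ ∀ u : ℤ, ¬ Q ∣ gq B u

/-- The tuples over which we count: `TT` for `Q ∈ S`, `Q ∉ E`, and `NN` for `Q ∈ S`, `Q ∈ E`. -/
structure Xp (κ X T : ℕ) (S E : Finset ℤ) (s : ℤ → ℤ) (B : Tup ℤ) : Prop where
  box : InBox κ X T B
  nz : B.x ≠ 0
  tt : ∀ Q ∈ S, Q ∉ E → TT Q B
  nn : ∀ Q ∈ S, Q ∈ E → NN Q B
  ra : ∀ Q ∈ S, Q ∣ chA B - s Q
  rb : ∀ Q ∈ S, Q ∣ chB B

/-- The pair `(a, b)` comes from such a tuple. -/
def PBad (κ X : ℕ) (S E : Finset ℤ) (s : ℤ → ℤ) (a b : ℤ) : Prop :=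
  ∃ (m : ℕ) (B : Tup ℤ), Xp κ X (2 ^ m) S E s B ∧ chA B = a ∧ chB B = b

/-- **Job NN.** The same as `S_BAD` (files `N50/PQ/Box`, the file with `S_ORB`, `N415/PQ/Bad`) with the
condition `NN` at the primes in `E`. The only new ingredient is the local count: for `Q % 8 = 1` and `-s`
not a square modulo `Q` the number of tuples over `ZMod Q` with `chA = s`, `chB = 0` and no zero on the
projective line is at most `Q ^ 3 / 2` (it is `(Q ^ 3 - Q) / 2`). Proof of that: no zero implies `x ≠ 0`;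
by `tau` (`Q` translations) take `y = 0`; then `w = -(3 c ^ 2 + s) / x` and `x z ^ 2 = 2 c (4 c ^ 2 + s)`.
If `2 c x` is a nonzero square `m ^ 2`, then with `p = m / x` the quartic `gq / (4 x)` is
`(u ^ 2 + p u + r) (u ^ 2 - p u + r')` and the product of the discriminants is `-4 s / x ^ 2`, not a square,
so one of the two factors has a zero. So `c = 0` (then `z = 0`: `Q - 1` tuples) or `2 c x` is not a square;
then `4 c ^ 2 + s` is not a square, there are `(Q - 1) / 2` such `c ≠ 0` (`∑ χ(4 c ^ 2 + s) = -1`),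
`(Q - 1) / 2` values of `x` and two of `z`. Sum: `(Q - 1) + (Q - 1) ^ 2 / 2 = (Q ^ 2 - 1) / 2`. -/
def S_PBAD : Prop := ∀ κ : ℕ, ∃ K : ℕ, ∀ (S E : Finset ℤ) (s : ℤ → ℤ), GoodS S s →
  ∃ X₀ : ℕ, ∀ X ≥ X₀, {p : ℤ × ℤ | PBad κ X S E s p.1 p.2}.Finite ∧
  ((2 ^ S.card * (∏ Q ∈ S, Q) ^ 2 * ({p : ℤ × ℤ | PBad κ X S E s p.1 p.2}.ncard : ℤ)) : ℤ) ≤
    K * X ^ 5

/-! ### The groups -/

/-- The prime `Q` is of the type for the curve `(a, b)`. -/
structure Gp (a b Q : ℤ) : Prop where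
  pr : IsPr Q
  m8 : Q % 8 = 1
  db : Q ∣ b
  ns : ∀ z : ℤ, ¬ Q ∣ z ^ 2 + a

section grp

variable {L : Type} [Field L] [NumberField L]

/-- The classes which are relaxed at the primes `Q ∈ S` (of the type). -/
structure InRel (a b : ℤ) (S : Finset ℤ) (θ α : L) : Prop where
  ne : α ≠ 0
  norm : IsSquare (Algebra.norm ℚ α)
  two : Loc2 a b θ α
  ev : ∀ 𝔓 : HeightOneSpectrum (𝓞 L),
    (∀ Q ∈ S, ¬ (Ov Q 𝔓 ∧ 𝔓.valuation L θ = 1)) → Ev 𝔓 α

/-- The Selmer classes of the twist by `∏ Q ∈ Z, Q` (the primes `Q ∈ Z` of the type). -/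
structure InSel (a b : ℤ) (Z : Finset ℤ) (θ α : L) : Prop extends InRel a b Z θ α where
  u0 : ∀ Q ∈ Z, ∀ 𝔓 : HeightOneSpectrum (𝓞 L), Ov Q 𝔓 → 𝔓.valuation L θ = 1 →
    U0 𝔓 ((Q : L) * θ) α

end grp

/-- **Job LAT** (helper29). From a class to a tuple. -/
def S_PLB : Prop := ∃ κ : ℕ, ∀ (L : Type) [Field L] [NumberField L] (a b : ℤ) (θ : L) (X : ℕ)
  (Z S E : Finset ℤ) (D : ℕ), IsCub a b θ → 0 < a → a ≤ X ^ 2 → |b| ≤ X ^ 3 →
  Squarefree (dsc a b) → (∀ Q ∈ Z ∪ S, Gp a b Q) → Disjoint Z S → ((D : ℕ) : ℤ) = ∏ Q ∈ Z, Q →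
  ∀ α : L, InSel a b Z θ α → ¬ IsSquare α →
  (∀ Q ∈ Z, ∀ 𝔓 : HeightOneSpectrum (𝓞 L), Ov Q 𝔓 → 𝔓.valuation L θ = 1 → ¬ Ev 𝔓 α) →
  (∀ Q ∈ S, ∀ 𝔓 : HeightOneSpectrum (𝓞 L), Ov Q 𝔓 → 𝔓.valuation L θ = 1 →
    (Sq1 𝔓 α ↔ Q ∉ E)) →
  PBad κ (D * X) S E (fun _ => a * D ^ 2) (a * D ^ 2) (b * D ^ 3)

/-- **Job SIZE.** The group of the classes relaxed at `S` has at least `2 ^ |S|` elements (compare
`H30GR/Low1`, `exists_zs`, for `K = ℚ`; every `Q ∈ S` has one zero of the cubic; the local conditions at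
the primes which divide the discriminant give even valuations because it is squarefree, and at `2` they
give `Loc2`). -/
def S_SIZE : Prop := ∀ (L : Type) [Field L] [NumberField L] (a b : ℤ) (θ : L) (S : Finset ℤ),
  IsCub a b θ → InFamily (a, b) → (∀ Q ∈ S, Gp a b Q) →
  ∃ z : Fin (2 ^ S.card) → L, (∀ i, InRel a b S θ (z i)) ∧ ∀ i j, i ≠ j → ¬ IsSquare (z i * z j)

/-- **Job LOW.** Classes in `Sel(Z)` are classes of the 2-Selmer group of the twist by `d = ∏ Q ∈ Z, Q`
(`d = 1` modulo `8`). At `Q ∈ Z` the class is trivial or the class of the point of order two of the twist;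
at the primes dividing the (squarefree) discriminant the twist has reduction `I_1` and all the classes
with even valuations are classes of points; at the other primes good reduction; at `2` the twist is
isomorphic to the curve over `ℚ_2`; over `ℝ` there is no condition (one real zero). -/
def S_SLOW : Prop := ∀ (L : Type) [Field L] [NumberField L] (a b : ℤ) (θ : L) (Z : Finset ℤ)
  (d : ℤ), IsCub a b θ → InFamily (a, b) → (∀ Q ∈ Z, Gp a b Q) → d = ∏ Q ∈ Z, Q →
  ∀ (n : ℕ) (z : Fin n → L), (∀ i, InSel a b Z θ (z i)) → (∀ i j, i ≠ j → ¬ IsSquare (z i * z j)) →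
  ∃ c : Fin n → Coch (curve ℚ (a * d ^ 2, b * d ^ 3)),
    (∀ i, ShaCocycle (curve ℚ (a * d ^ 2, b * d ^ 3)) (c i) ∧ ∀ σ, 2 • c i σ = 0) ∧
    (∀ i j, (∃ Q, 2 • Q = 0 ∧ c i - c j = cob Q) → i = j)

/-- **Job UP.** The 2-Selmer group of the twist is not larger than `Sel(Z)` (compare `H30GR/SelC`,
`H30EV/Good`, for `M = ℚ`). -/
def S_SUP : Prop := ∀ (L : Type) [Field L] [NumberField L] (a b : ℤ) (θ : L) (Z : Finset ℤ)
  (d : ℤ), IsCub a b θ → InFamily (a, b) → (∀ Q ∈ Z, Gp a b Q) → d = ∏ Q ∈ Z, Q →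
  ∀ N : ℕ, (∀ (n : ℕ) (z : Fin n → L), (∀ i, InSel a b Z θ (z i)) →
    (∀ i j, i ≠ j → ¬ IsSquare (z i * z j)) → n ≤ N) →
  SelBd (𝓞 ℚ) (sW (((a * d ^ 2 : ℤ)) : ℚ) (((b * d ^ 3 : ℤ)) : ℚ)) N

/-! ### Job MK: the Markov chain -/

/-- The probability to come from `r` to `n` in `k` steps, if the probabilities of `r → r + 1` and
`r → r - 1` are `2 ^ (-r)` and `1 - 2 ^ (-r)`. -/
noncomputable def chain : ℕ → ℕ → ℕ → ℝ
  | 0, r, n => if r = n then 1 else 0
  | k + 1, r, n => (1 / 2) ^ r * chain k (r + 1) n + (1 - (1 / 2) ^ r) * chain k (r - 1) n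

/-- The number `C_{2,n}` of the problem: `∏_{j ≥ 0} (1 + 2^{-j})⁻¹ ∏_{i = 1}^{n} 2 / (2 ^ i - 1)`. -/
noncomputable def C2 (n : ℕ) : ℝ :=
  (∏' j : ℕ, (1 + (1 / 2 : ℝ) ^ j))⁻¹ * ∏ i ∈ Finset.Icc 1 n, (2 : ℝ) / (2 ^ i - 1)

/-- **Job MK.** Convergence of the chain: `|chain k r n - 2 C2 n| → 0` if `k + r = n` modulo `2`
(and `chain k r n = 0` if not). Proof: (1) for `r ≤ r'` of the same parity
`∑_n |chain k r n - chain k r' n| ≤ 2 · 2^{-k} (2^{r'} - 2^r)`: induction on `k` with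
`P(r) - P(r') = 2^{-r'} [P(r+1) - P(r'+1)] + (2^{-r} - 2^{-r'}) [P(r+1) - P(r'-1)] + (1 - 2^{-r}) [P(r-1) - P(r'-1)]`
(the function `2^{r'} - 2^r` is halved on the average); (2) `C2` is stationary by detailed balance
`C2 r 2^{-r} = C2 (r+1) (1 - 2^{-(r+1)})`, `∑ C2 = 1` (Euler: `∑ q^{n(n-1)/2}/((1-q)⋯(1-q^n)) = ∏_{j≥0} (1+q^j)`
at `q = 1/2`), both parities have the mass `1/2`, and `∑ C2 r 2^r` is finite (it is `3`). -/
def S_MK : Prop := ∀ n r : ℕ,
  (∀ k : ℕ, (k + r) % 2 ≠ n % 2 → chain k r n = 0) ∧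
  ∀ ε : ℝ, 0 < ε → ∃ k₀ : ℕ, ∀ k ≥ k₀, (k + r) % 2 = n % 2 → |chain k r n - 2 * C2 n| ≤ ε

/-- **Job MK, second part.** The numbers `C2 n` are positive with sum one. -/
def S_C2 : Prop := (∀ n, 0 < C2 n) ∧ HasSum C2 1

end Pool.Agent.Helper29L
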