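import Pool.Agent.Helper29L.NNLoc
import Pool.Agent.Helper29L.Stm

/-!
# Project PR (helper29), Job NN (helper90): few curves come from tuples with the given local conditions

`S_PBAD` of `Helper29L/Stm.lean`, adapted from `N50/PQ/Box`, `N50/PQ/Orb` and `N415/PQ/Bad`. The local count
for the condition of no zero modulo `Q` is in `Helper29L/NNLoc.lean`.
-/

set_option autoImplicit false
set_option linter.all false

open scoped Classical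

namespace Pool.Agent.Helper29L.NNL

open Pool.Agent.N874.PP (Tup chA chB gq tau Two)
open Pool.Agent.N922.PQ
open Pool.Agent.N50.PQ (tmap chA_tmap chB_tmap gq_tmap pr_nat pr_cast rd rd_zero GQ card_GQ two_tmap
  crt_inj div_mem card_iv box_tau tt_tau box0 gq_tau)
open Pool.Agent.N415.PQ (ncard_biUnion_le geo_sum prod_pos_of_good four_pow_le)
open Pool.Agent.Helper29L (NN Xp PBad S_PBAD)


/-! ### One prime -/

/-- The good tuples modulo `Q`. -/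
abbrev GE (E : Finset ℤ) (s : ℤ → ℤ) (Q : ℤ) : Type :=
  {B : Tup (ZMod Q.natAbs) // chA B = rd Q (s Q) ∧ chB B = 0 ∧ (Q ∉ E → Two B) ∧ (Q ∈ E → NZ B)}

lemma card_GE (E : Finset ℤ) (s : ℤ → ℤ) {Q : ℤ} (hQ : IsPr Q) (hQ8 : Q % 8 = 1)
    (hs : ∀ z : ℤ, ¬ Q ∣ z ^ 2 + s Q) : 2 * Nat.card (GE E s Q) ≤ Q.natAbs ^ 3 := by
  haveI : Fact Q.natAbs.Prime := ⟨pr_nat hQ⟩
  by_cases hE : Q ∈ E
  · have hle : Nat.card (GE E s Q) ≤
        Nat.card {B : Tup (ZMod Q.natAbs) // chA B = rd Q (s Q) ∧ chB B = 0 ∧ NZ B} := by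
      refine Nat.card_le_card_of_injective
        (fun B => ⟨B.1, B.2.1, B.2.2.1, B.2.2.2.2 hE⟩) ?_
      intro B B' h
      have h' := congrArg Subtype.val h
      exact Subtype.ext h'
    have h2 : (2 : ZMod Q.natAbs) ≠ 0 := by
      intro h0
      have h1 : rd Q 2 = 0 := by rw [map_ofNat]; exact h0
      rw [rd_zero] at h1
      have h3 := Int.le_of_dvd (by norm_num) h1
      have h4 := hQ.1
      have h5 := (pr_nat hQ).one_lt
      omega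
    have h1 : IsSquare (-1 : ZMod Q.natAbs) := by
      rw [ZMod.exists_sq_eq_neg_one_iff]
      have := hQ.1
      omega
    have hns : ¬ IsSquare (-(rd Q (s Q))) := by
      rintro ⟨z, hz⟩
      obtain ⟨z', rfl⟩ := ZMod.intCast_surjective z
      apply hs z'
      rw [← rd_zero, map_add, map_pow]
      have e : rd Q z' = ((z' : ℤ) : ZMod Q.natAbs) := rfl
      rw [e, pow_two, ← hz]
      ring
    have h3 := card_nz h2 h1 hns
    rw [Nat.card_zmod] at h3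
    exact (Nat.mul_le_mul_left _ hle).trans h3
  · have hle : Nat.card (GE E s Q) ≤ Nat.card (GQ s Q) := by
      refine Nat.card_le_card_of_injective
        (fun B => ⟨B.1, B.2.1, B.2.2.1, B.2.2.2.1 hE⟩) ?_
      intro B B' h
      have h' := congrArg Subtype.val h
      exact Subtype.ext h'
    exact (Nat.mul_le_mul_left _ hle).trans (card_GQ s hQ hQ8 hs)

lemma nz_tmap {Q : ℤ} {B : Tup ℤ} (h : NN Q B) : NZ (tmap (rd Q) B) := by
  refine ⟨?_, fun u => ?_⟩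
  · show rd Q B.x ≠ 0
    intro h0
    rw [rd_zero] at h0
    exact h.1 h0
  · obtain ⟨u', rfl⟩ := ZMod.intCast_surjective u
    have e : ((u' : ℤ) : ZMod Q.natAbs) = rd Q u' := rfl
    rw [e, gq_tmap]
    intro h0
    rw [rd_zero] at h0
    exact h.2 u' h0

theorem pbox (κ : ℕ) : ∃ K : ℕ, ∀ (S E : Finset ℤ) (s : ℤ → ℤ), GoodS S s →
    ∀ X T : ℕ, 1 ≤ T → (∏ Q ∈ S, Q) * T ^ 2 ≤ κ * X →
    {B : Tup ℤ | Xp κ X T S E s B}.Finite ∧
    ((2 ^ S.card * (∏ Q ∈ S, Q) ^ 2 * ({B : Tup ℤ | Xp κ X T S E s B}.ncard : ℤ)) : ℤ) ≤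
      K * X ^ 5 := by
  refine ⟨(4 * κ) ^ 5, fun S E s hS X T hT hMX => ?_⟩
  obtain ⟨M, hM⟩ : ∃ M : ℤ, M = ∏ Q ∈ S, Q := ⟨_, rfl⟩
  rw [← hM] at hMX ⊢
  have hM0 : 0 < M := by
    rw [hM]
    exact Finset.prod_pos fun Q hQ => (hS Q hQ).1.1
  obtain ⟨t, ht⟩ : ∃ t : ℤ, t = (T : ℤ) := ⟨_, rfl⟩
  have ht1 : 1 ≤ t := by rw [ht]; exact_mod_cast hT
  rw [← ht] at hMX
  obtain ⟨K, hK⟩ : ∃ K : ℤ, K = (κ : ℤ) * X := ⟨_, rfl⟩
  rw [← hK] at hMX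
  have hb : ∀ B : Tup ℤ, Xp κ X T S E s B → |B.x| * t ^ 2 ≤ K ∧ |B.y| * t ≤ K ∧ |B.c| * 1 ≤ K ∧
      |B.z| * 1 ≤ K * t ∧ |B.w| * 1 ≤ K * t ^ 2 := by
    intro B hB
    obtain ⟨b1, b2, b3, b4, b5⟩ := hB.box
    rw [← ht] at b1 b2 b4 b5
    rw [← hK] at b1 b2 b3 b4 b5
    simp only [mul_one]
    exact ⟨b1, b2, b3, b4, b5⟩
  have ht2 : 0 < t ^ 2 := by positivity
  have ht0 : 0 < t := by linarith
  have htt : t ≤ t ^ 2 := by nlinarith
  have hMt : M ≤ K := by nlinarith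
  have hK0 : 0 < K := lt_of_lt_of_le hM0 hMt
  obtain ⟨a1, c1, d1⟩ := card_iv (L := K) hM0 ht2 (by linarith)
  obtain ⟨a2, c2, d2⟩ := card_iv (L := K) hM0 ht0 (by nlinarith)
  obtain ⟨a3, c3, d3⟩ := card_iv (q := 1) (L := K) hM0 one_pos (by linarith)
  obtain ⟨a4, c4, d4⟩ := card_iv (q := 1) (L := K * t) hM0 one_pos (by nlinarith)
  obtain ⟨a5, c5, d5⟩ := card_iv (q := 1) (L := K * t ^ 2) hM0 one_pos (by nlinarith)
  let Tt : Type := (∀ Q : {Q // Q ∈ S}, GE E s Q.1) ×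
    (Finset.Icc (-(K / (t ^ 2 * M) + 1)) (K / (t ^ 2 * M))) ×
    (Finset.Icc (-(K / (t * M) + 1)) (K / (t * M))) ×
    (Finset.Icc (-(K / (1 * M) + 1)) (K / (1 * M))) ×
    (Finset.Icc (-(K * t / (1 * M) + 1)) (K * t / (1 * M))) ×
    (Finset.Icc (-(K * t ^ 2 / (1 * M) + 1)) (K * t ^ 2 / (1 * M)))
  have keyQ : ∀ B : {B : Tup ℤ | Xp κ X T S E s B}, ∀ Q : {Q // Q ∈ S},
      chA (tmap (rd Q.1) B.1) = rd Q.1 (s Q.1) ∧
      chB (tmap (rd Q.1) B.1) = 0 ∧ (Q.1 ∉ E → Two (tmap (rd Q.1) B.1)) ∧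
      (Q.1 ∈ E → NZ (tmap (rd Q.1) B.1)) := by
    rintro ⟨B, hB⟩ ⟨Q, hQ⟩
    refine ⟨?_, ?_, fun hE => two_tmap (hB.tt Q hQ hE), fun hE => nz_tmap (hB.nn Q hQ hE)⟩
    · rw [chA_tmap, ← sub_eq_zero, ← map_sub, rd_zero]
      exact hB.ra Q hQ
    · rw [chB_tmap, rd_zero]
      exact hB.rb Q hQ
  let Φ : {B : Tup ℤ | Xp κ X T S E s B} → Tt := fun B =>
    (fun Q => ⟨tmap (rd Q.1) B.1, keyQ B Q⟩,
      ⟨B.1.x / M, div_mem hM0 ht2 (hb B.1 B.2).1⟩, ⟨B.1.y / M, div_mem hM0 ht0 (hb B.1 B.2).2.1⟩,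
      ⟨B.1.c / M, div_mem hM0 one_pos (hb B.1 B.2).2.2.1⟩,
      ⟨B.1.z / M, div_mem hM0 one_pos (hb B.1 B.2).2.2.2.1⟩,
      ⟨B.1.w / M, div_mem hM0 one_pos (hb B.1 B.2).2.2.2.2⟩)
  have hΦ : Function.Injective Φ := by
    rintro ⟨B, hB⟩ ⟨B', hB'⟩ h
    have h1 : B.x / M = B'.x / M := congrArg (fun t : Tt => (t.2.1 : ℤ)) h
    have h2 : B.y / M = B'.y / M := congrArg (fun t : Tt => (t.2.2.1 : ℤ)) h
    have h3 : B.c / M = B'.c / M := congrArg (fun t : Tt => (t.2.2.2.1 : ℤ)) h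
    have h4 : B.z / M = B'.z / M := congrArg (fun t : Tt => (t.2.2.2.2.1 : ℤ)) h
    have h5 : B.w / M = B'.w / M := congrArg (fun t : Tt => (t.2.2.2.2.2 : ℤ)) h
    rw [hM] at h1 h2 h3 h4 h5
    have hQ : ∀ Q ∈ S, tmap (rd Q) B = tmap (rd Q) B' := by
      intro Q hQ
      exact congrArg (fun t : Tt => (t.1 ⟨Q, hQ⟩).1) h
    have hS' : ∀ Q ∈ S, IsPr Q := fun Q hQ => (hS Q hQ).1
    apply Subtype.ext
    exact Tup.ext (crt_inj hS' (fun Q h => congrArg Tup.x (hQ Q h)) h1)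
      (crt_inj hS' (fun Q h => congrArg Tup.y (hQ Q h)) h2)
      (crt_inj hS' (fun Q h => congrArg Tup.c (hQ Q h)) h3)
      (crt_inj hS' (fun Q h => congrArg Tup.z (hQ Q h)) h4)
      (crt_inj hS' (fun Q h => congrArg Tup.w (hQ Q h)) h5)
  haveI : ∀ Q : {Q // Q ∈ S}, Finite (GE E s Q.1) := fun Q => by
    haveI : Fact Q.1.natAbs.Prime := ⟨pr_nat (hS Q.1 Q.2).1⟩
    infer_instance
  haveI : Finite Tt := inferInstanceAs (Finite ((∀ Q : {Q // Q ∈ S}, GE E s Q.1) × _ × _ × _ × _ × _))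
  haveI hfin : Finite {B : Tup ℤ | Xp κ X T S E s B} := Finite.of_injective Φ hΦ
  refine ⟨Set.toFinite _, ?_⟩
  have h1 := Nat.card_le_card_of_injective Φ hΦ
  rw [Nat.card_coe_set_eq] at h1
  have hcard : Nat.card Tt ≤ (∏ Q ∈ S, Nat.card (GE E s Q)) * (4 ^ 5 * (a1 * a2 * a3 * a4 * a5)) := by
    show Nat.card ((∀ Q : {Q // Q ∈ S}, GE E s Q.1) × _ × _ × _ × _ × _) ≤ _
    rw [Nat.card_prod, Nat.card_prod, Nat.card_prod, Nat.card_prod, Nat.card_prod,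
      Nat.card_pi, Finset.prod_coe_sort S (fun Q => Nat.card (GE E s Q))]
    refine Nat.mul_le_mul_left _ ?_
    calc _ ≤ 4 * a1 * (4 * a2 * (4 * a3 * (4 * a4 * (4 * a5)))) :=
          Nat.mul_le_mul c1 (Nat.mul_le_mul c2 (Nat.mul_le_mul c3 (Nat.mul_le_mul c4 c5)))
      _ = 4 ^ 5 * (a1 * a2 * a3 * a4 * a5) := by ring
  have h2 : 2 ^ S.card * ∏ Q ∈ S, Nat.card (GE E s Q) ≤ ∏ Q ∈ S, Q.natAbs ^ 3 := by
    rw [← Finset.prod_const, ← Finset.prod_mul_distrib]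
    exact Finset.prod_le_prod' fun Q hQ => card_GE E s (hS Q hQ).1 (hS Q hQ).2.1 (hS Q hQ).2.2
  have h3 : ((∏ Q ∈ S, Q.natAbs ^ 3 : ℕ) : ℤ) = M ^ 3 := by
    rw [hM]
    push_cast
    rw [← Finset.prod_pow]
    refine Finset.prod_congr rfl fun Q hQ => ?_
    rw [abs_of_pos (hS Q hQ).1.1]
  -- the product of the five bounds
  have e : (a1 * a2 * a3 * a4 * a5 : ℤ) * M ^ 5 ≤ K ^ 5 := by
    have q1 : (a1 * (t ^ 2 * M)) * ((a2 * (t * M)) * ((a3 * (1 * M)) * ((a4 * (1 * M)) *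
        (a5 * (1 * M))))) ≤ K * (K * (K * ((K * t) * (K * t ^ 2)))) := by
      have := hM0.le
      gcongr
    have q2 : (a1 * (t ^ 2 * M)) * ((a2 * (t * M)) * ((a3 * (1 * M)) * ((a4 * (1 * M)) *
        (a5 * (1 * M))))) = ((a1 * a2 * a3 * a4 * a5 : ℤ) * M ^ 5) * t ^ 3 := by ring
    have q3 : K * (K * (K * ((K * t) * (K * t ^ 2)))) = K ^ 5 * t ^ 3 := by ring
    rw [q2, q3] at q1
    exact le_of_mul_le_mul_right q1 (by positivity)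
  have h1' : ((({B : Tup ℤ | Xp κ X T S E s B}.ncard : ℕ)) : ℤ) ≤
      (∏ Q ∈ S, Nat.card (GE E s Q) : ℕ) * (4 ^ 5 * (a1 * a2 * a3 * a4 * a5)) := by
    exact_mod_cast h1.trans hcard
  have h2' : (2 ^ S.card * ((∏ Q ∈ S, Nat.card (GE E s Q) : ℕ) : ℤ)) ≤ M ^ 3 := by
    rw [← h3]
    exact_mod_cast h2
  calc (2 ^ S.card * M ^ 2 * ({B : Tup ℤ | Xp κ X T S E s B}.ncard : ℤ) : ℤ)
      ≤ 2 ^ S.card * M ^ 2 * ((∏ Q ∈ S, Nat.card (GE E s Q) : ℕ) * (4 ^ 5 * (a1 * a2 * a3 * a4 * a5))) :=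
        mul_le_mul_of_nonneg_left h1' (by positivity)
    _ = (2 ^ S.card * ((∏ Q ∈ S, Nat.card (GE E s Q) : ℕ) : ℤ)) *
        (M ^ 2 * (4 ^ 5 * (a1 * a2 * a3 * a4 * a5))) := by ring
    _ ≤ M ^ 3 * (M ^ 2 * (4 ^ 5 * (a1 * a2 * a3 * a4 * a5))) :=
        mul_le_mul_of_nonneg_right h2' (by positivity)
    _ = 4 ^ 5 * ((a1 * a2 * a3 * a4 * a5 : ℤ) * M ^ 5) := by ring
    _ ≤ 4 ^ 5 * K ^ 5 := mul_le_mul_of_nonneg_left e (by norm_num)
    _ = (((4 * κ) ^ 5 : ℕ) : ℤ) * X ^ 5 := by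
        rw [hK]
        push_cast
        ring

theorem pbox0 (κ : ℕ) : ∃ K : ℕ, ∀ (S E : Finset ℤ) (s : ℤ → ℤ) (X T : ℕ), 1 ≤ T → 1 ≤ X →
    {B : Tup ℤ | Xp κ X T S E s B}.Finite ∧ {B : Tup ℤ | Xp κ X T S E s B}.ncard ≤ K * X ^ 5 := by
  obtain ⟨K, hK⟩ := box0 κ
  refine ⟨K, fun S E s X T hT hX => ?_⟩
  have hsub : {B : Tup ℤ | Xp κ X T S E s B} ⊆ {B : Tup ℤ | Xset κ X T ∅ s B} := by
    intro B hB
    exact ⟨hB.box, hB.nz, by simp, by simp, by simp⟩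
  obtain ⟨h1, h2⟩ := hK ∅ s X T hT hX
  exact ⟨h1.subset hsub, (Set.ncard_le_ncard hsub h1).trans h2⟩

lemma nn_tau {Q : ℤ} {B : Tup ℤ} (h : NN Q B) (u : ℤ) : NN Q (tau u B) := by
  refine ⟨h.1, fun v => ?_⟩
  rw [gq_tau]
  exact h.2 _

lemma xp_tau {κ X T : ℕ} {S E : Finset ℤ} {s : ℤ → ℤ} {B : Tup ℤ}
    (hB : Xp κ X T S E s B) {u : ℤ} (hu0 : 0 ≤ u) (hu : u ≤ T) :
    Xp (29 * κ) X T S E s (tau u B) := by
  refine ⟨box_tau hB.box hu0 hu, hB.nz, fun Q hQ hE => tt_tau (hB.tt Q hQ hE) u,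
    fun Q hQ hE => nn_tau (hB.nn Q hQ hE) u, fun Q hQ => ?_, fun Q hQ => ?_⟩
  · rw [Pool.Agent.N50.PQ.chA_tau]
    exact hB.ra Q hQ
  · rw [Pool.Agent.N50.PQ.chB_tau]
    exact hB.rb Q hQ

theorem porb (κ : ℕ) (S E : Finset ℤ) (s : ℤ → ℤ) (X T : ℕ) (hT : 1 ≤ T)
    (hfin0 : {B : Tup ℤ | Xp (29 * κ) X T S E s B}.Finite) :
    {p : ℤ × ℤ | ∃ B : Tup ℤ, Xp κ X T S E s B ∧ chA B = p.1 ∧ chB B = p.2}.ncard * T ≤
      {B : Tup ℤ | Xp (29 * κ) X T S E s B}.ncard := by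
  have hfin : Finite {B : Tup ℤ | Xp (29 * κ) X T S E s B} := hfin0.to_subtype
  rw [← Nat.card_coe_set_eq {B : Tup ℤ | Xp (29 * κ) X T S E s B}]
  have hch : ∀ p : {p : ℤ × ℤ | ∃ B : Tup ℤ, Xp κ X T S E s B ∧ chA B = p.1 ∧ chB B = p.2},
      ∃ B : Tup ℤ, Xp κ X T S E s B ∧ chA B = p.1.1 ∧ chB B = p.1.2 := fun p => p.2
  choose B h1 h3 h4 using hch
  have e1 : {p : ℤ × ℤ | ∃ B : Tup ℤ, Xp κ X T S E s B ∧ chA B = p.1 ∧ chB B = p.2}.ncard * T =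
      Nat.card ({p : ℤ × ℤ | ∃ B : Tup ℤ, Xp κ X T S E s B ∧ chA B = p.1 ∧ chB B = p.2} × Fin T) := by
    rw [Nat.card_prod, Nat.card_coe_set_eq, Nat.card_fin]
  rw [e1]
  refine Nat.card_le_card_of_injective (fun z => (⟨tau ((z.2.1 : ℕ) : ℤ) (B z.1), xp_tau (h1 z.1)
    (Int.natCast_nonneg _) (by exact_mod_cast z.2.2.le)⟩ :
      {B : Tup ℤ | Xp (29 * κ) X T S E s B})) ?_
  rintro ⟨p, u⟩ ⟨p', u'⟩ h
  have h5 : tau ((u.1 : ℕ) : ℤ) (B p) = tau ((u'.1 : ℕ) : ℤ) (B p') := congrArg Subtype.val h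
  have h6' : p = p' := by
    apply Subtype.ext
    refine Prod.ext ?_ ?_
    · rw [← h3 p, ← h3 p', ← Pool.Agent.N50.PQ.chA_tau ((u.1 : ℕ) : ℤ) (B p),
        ← Pool.Agent.N50.PQ.chA_tau ((u'.1 : ℕ) : ℤ) (B p'), h5]
    · rw [← h4 p, ← h4 p', ← Pool.Agent.N50.PQ.chB_tau ((u.1 : ℕ) : ℤ) (B p),
        ← Pool.Agent.N50.PQ.chB_tau ((u'.1 : ℕ) : ℤ) (B p'), h5]
  subst h6'
  have h7 : (B p).y - 2 * ((u.1 : ℕ) : ℤ) * (B p).x = (B p).y - 2 * ((u'.1 : ℕ) : ℤ) * (B p).x :=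
    congrArg Tup.y h5
  have h8 : (2 * (B p).x) * (((u.1 : ℕ) : ℤ) - ((u'.1 : ℕ) : ℤ)) = 0 := by linear_combination -h7
  have h9 : u = u' := by
    apply Fin.ext
    rcases mul_eq_zero.1 h8 with h10 | h10
    · rcases mul_eq_zero.1 h10 with h11 | h11
      · exact absurd h11 (by norm_num)
      · exact absurd h11 (h1 p).nz
    · have := sub_eq_zero.1 h10
      exact_mod_cast this
  rw [h9]

/-- **Job NN.** -/
theorem pbad : S_PBAD := by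
  intro κ
  obtain ⟨K1, hK1⟩ := pbox (29 * κ)
  obtain ⟨K0, hK0⟩ := pbox0 (29 * κ)
  obtain ⟨K2, hK2⟩ := pbox0 κ
  refine ⟨4 * (K0 + K1), fun S E s hS => ?_⟩
  have hqpos := prod_pos_of_good S s hS
  obtain ⟨q, hq⟩ : ∃ q : ℕ, (q : ℤ) = ∏ Q ∈ S, Q :=
    ⟨(∏ Q ∈ S, Q).toNat, Int.toNat_of_nonneg hqpos.le⟩
  have hq1 : 1 ≤ q := by
    rw [← hq] at hqpos
    exact_mod_cast hqpos
  obtain ⟨A, hA⟩ : ∃ A : ℕ, A = 2 ^ S.card * q ^ 2 := ⟨_, rfl⟩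
  have hA1 : 1 ≤ A := by
    rw [hA]
    exact Nat.one_le_iff_ne_zero.2 (by positivity)
  have hAZ : ((A : ℤ)) = 2 ^ S.card * (∏ Q ∈ S, Q) ^ 2 := by
    rw [hA, ← hq]
    push_cast
    ring
  refine ⟨A ^ 4 * q, fun X hX => ?_⟩
  have hX1 : 1 ≤ X := by
    refine le_trans ?_ hX
    exact Nat.one_le_iff_ne_zero.2 (by positivity)
  let P : ℕ → Set (ℤ × ℤ) := fun m =>
    {p : ℤ × ℤ | ∃ B : Tup ℤ, Xp κ X (2 ^ m) S E s B ∧ chA B = p.1 ∧ chB B = p.2}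
  have hT : ∀ m : ℕ, 1 ≤ 2 ^ m := fun m => Nat.one_le_two_pow
  have hPfin : ∀ m, (P m).Finite := by
    intro m
    refine ((hK2 S E s X (2 ^ m) (hT m) hX1).1.image fun B => (chA B, chB B)).subset ?_
    rintro p ⟨B, hB, ha, hb⟩
    exact ⟨B, hB, Prod.ext ha hb⟩
  have hsub : {p : ℤ × ℤ | PBad κ X S E s p.1 p.2} ⊆
      ⋃ m ∈ Finset.range (κ * X + 1), P m := by
    rintro p ⟨m, B, hB, ha, hb⟩
    rw [Set.mem_iUnion₂]
    refine ⟨m, Finset.mem_range.2 ?_, B, hB, ha, hb⟩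
    have h5 := four_pow_le hB.box hB.nz
    have h6 : m < 4 ^ m := Nat.lt_pow_self (by norm_num)
    omega
  have hfin : (⋃ m ∈ Finset.range (κ * X + 1), P m).Finite :=
    Set.Finite.biUnion (Finset.finite_toSet _) fun m _ => hPfin m
  refine ⟨hfin.subset hsub, ?_⟩
  have hle : {p : ℤ × ℤ | PBad κ X S E s p.1 p.2}.ncard ≤
      ∑ m ∈ Finset.range (κ * X + 1), (P m).ncard :=
    (Set.ncard_le_ncard hsub hfin).trans (ncard_biUnion_le P (κ * X + 1))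
  -- each term
  have hterm : ∀ m ∈ Finset.range (κ * X + 1),
      (A : ℝ) * ((P m).ncard : ℝ) ≤ (((K0 + K1 : ℕ) : ℝ) * (X : ℝ) ^ 5) * (3 / 4) ^ m := by
    intro m _
    have ho : (P m).ncard * 2 ^ m ≤ {B : Tup ℤ | Xp (29 * κ) X (2 ^ m) S E s B}.ncard :=
      porb κ S E s X (2 ^ m) (hT m) (hK0 S E s X (2 ^ m) (hT m) hX1).1
    have hr0 : (0 : ℝ) < 2 ^ m := by positivity
    have hK0r : (0 : ℝ) ≤ (K0 : ℝ) * (X : ℝ) ^ 5 := by positivity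
    have hK1r : (0 : ℝ) ≤ (K1 : ℝ) * (X : ℝ) ^ 5 := by positivity
    have hpw : (3 / 4 : ℝ) ^ m * 2 ^ m = (3 / 2) ^ m := by
      rw [← mul_pow]
      norm_num
    have h32 : (1 : ℝ) ≤ (3 / 2) ^ m := one_le_pow₀ (by norm_num)
    have hgoal : (A : ℝ) * ((P m).ncard : ℝ) * 2 ^ m ≤
        ((K0 : ℝ) * (X : ℝ) ^ 5 + (K1 : ℝ) * (X : ℝ) ^ 5) * (3 / 2) ^ m := by
      by_cases hg : (∏ Q ∈ S, Q) * ((2 ^ m : ℕ) : ℤ) ^ 2 ≤ ((29 * κ : ℕ) : ℤ) * X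
      · have hb := (hK1 S E s hS X (2 ^ m) (hT m) hg).2
        rw [← hAZ] at hb
        have hb' : A * {B : Tup ℤ | Xp (29 * κ) X (2 ^ m) S E s B}.ncard ≤ K1 * X ^ 5 := by
          exact_mod_cast hb
        have h5 : A * (P m).ncard * 2 ^ m ≤ K1 * X ^ 5 := by
          calc A * (P m).ncard * 2 ^ m = A * ((P m).ncard * 2 ^ m) := by ring
            _ ≤ A * {B : Tup ℤ | Xp (29 * κ) X (2 ^ m) S E s B}.ncard := Nat.mul_le_mul_left _ ho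
            _ ≤ _ := hb'
        have h6 : (A : ℝ) * ((P m).ncard : ℝ) * 2 ^ m ≤ (K1 : ℝ) * (X : ℝ) ^ 5 := by
          exact_mod_cast h5
        nlinarith
      · rcases Nat.eq_zero_or_pos κ with hκ | hκ
        · have hPe : P m = ∅ := by
            rw [Set.eq_empty_iff_forall_notMem]
            rintro p ⟨B, hB, _, _⟩
            have h5 := four_pow_le hB.box hB.nz
            rw [hκ, zero_mul] at h5
            have h6 : 0 < 4 ^ m := by positivity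
            omega
          rw [hPe, Set.ncard_empty]
          simp only [Nat.cast_zero, mul_zero, zero_mul]
          positivity
        · have hb := (hK0 S E s X (2 ^ m) (hT m) hX1).2
          have h5 : (P m).ncard * 2 ^ m ≤ K0 * X ^ 5 := ho.trans hb
          have h6 : ((P m).ncard : ℝ) * 2 ^ m ≤ (K0 : ℝ) * (X : ℝ) ^ 5 := by
            exact_mod_cast h5
          have h7 : 29 * κ * X < q * (2 ^ m) ^ 2 := by
            push Not at hg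
            rw [← hq] at hg
            exact_mod_cast hg
          have h8 : A ^ 4 * q < q * (2 ^ m) ^ 2 := by
            refine lt_of_le_of_lt ?_ h7
            refine hX.le.trans ?_
            nlinarith
          have h9 : A ^ 4 < (2 ^ m) ^ 2 := by
            rw [mul_comm] at h8
            exact Nat.lt_of_mul_lt_mul_left h8
          have h10 : A ^ 2 < 2 ^ m := by
            have : (A ^ 2) ^ 2 < (2 ^ m) ^ 2 := by
              rw [← pow_mul]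
              exact h9
            exact lt_of_pow_lt_pow_left₀ 2 (by positivity) this
          have h11 : (A : ℝ) ≤ (3 / 2) ^ m := by
            have h12 : (A : ℝ) ^ 2 ≤ ((3 / 2 : ℝ) ^ m) ^ 2 := by
              have h13 : (A : ℝ) ^ 2 ≤ 2 ^ m := by
                exact_mod_cast h10.le
              have h14 : (2 : ℝ) ^ m ≤ ((3 / 2 : ℝ) ^ m) ^ 2 := by
                rw [← pow_mul, mul_comm, pow_mul]
                exact pow_le_pow_left₀ (by norm_num) (by norm_num) m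
              exact h13.trans h14
            exact le_of_sq_le_sq h12 (by positivity)
          have hA0 : (0 : ℝ) ≤ A := Nat.cast_nonneg A
          calc (A : ℝ) * ((P m).ncard : ℝ) * 2 ^ m = A * (((P m).ncard : ℝ) * 2 ^ m) := by ring
            _ ≤ (3 / 2) ^ m * ((K0 : ℝ) * (X : ℝ) ^ 5) :=
                mul_le_mul h11 h6 (by positivity) (by positivity)
            _ ≤ ((K0 : ℝ) * (X : ℝ) ^ 5 + (K1 : ℝ) * (X : ℝ) ^ 5) * (3 / 2) ^ m := by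
                nlinarith
    have h20 : (A : ℝ) * ((P m).ncard : ℝ) * 2 ^ m ≤
        ((((K0 + K1 : ℕ) : ℝ) * (X : ℝ) ^ 5) * (3 / 4) ^ m) * 2 ^ m := by
      rw [mul_assoc (((K0 + K1 : ℕ) : ℝ) * (X : ℝ) ^ 5), hpw]
      refine hgoal.trans (le_of_eq ?_)
      push_cast
      ring
    exact le_of_mul_le_mul_right h20 hr0
  have hsum : (A : ℝ) * ({p : ℤ × ℤ | PBad κ X S E s p.1 p.2}.ncard : ℝ) ≤
      4 * ((K0 + K1 : ℕ) : ℝ) * (X : ℝ) ^ 5 := by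
    have h5 : ({p : ℤ × ℤ | PBad κ X S E s p.1 p.2}.ncard : ℝ) ≤
        ∑ m ∈ Finset.range (κ * X + 1), ((P m).ncard : ℝ) := by exact_mod_cast hle
    calc (A : ℝ) * ({p : ℤ × ℤ | PBad κ X S E s p.1 p.2}.ncard : ℝ) ≤
        A * ∑ m ∈ Finset.range (κ * X + 1), ((P m).ncard : ℝ) :=
          mul_le_mul_of_nonneg_left h5 (Nat.cast_nonneg A)
      _ = ∑ m ∈ Finset.range (κ * X + 1), (A : ℝ) * ((P m).ncard : ℝ) := Finset.mul_sum _ _ _
      _ ≤ ∑ m ∈ Finset.range (κ * X + 1),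
          (((K0 + K1 : ℕ) : ℝ) * (X : ℝ) ^ 5) * (3 / 4) ^ m := Finset.sum_le_sum hterm
      _ = (((K0 + K1 : ℕ) : ℝ) * (X : ℝ) ^ 5) * (4 * (1 - (3 / 4) ^ (κ * X + 1))) := by
          rw [← Finset.mul_sum, geo_sum]
      _ ≤ (((K0 + K1 : ℕ) : ℝ) * (X : ℝ) ^ 5) * 4 := by
          refine mul_le_mul_of_nonneg_left ?_ (by positivity)
          have : (0 : ℝ) ≤ (3 / 4) ^ (κ * X + 1) := by positivity
          linarith
      _ = _ := by ring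
  have hsum' : A * {p : ℤ × ℤ | PBad κ X S E s p.1 p.2}.ncard ≤ 4 * (K0 + K1) * X ^ 5 := by
    exact_mod_cast hsum
  rw [← hAZ]
  exact_mod_cast hsum'

end Pool.Agent.Helper29L.NNL
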