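import Pool.Agent.N667.PQ.Ns
import Pool.Agent.N667.PQ.P3
import Pool.Agent.N849.PQ.Int

/-!
# Job SIZE, part 2: parity at the prime of degree one
-/

set_option autoImplicit false
set_option linter.all false

open Polynomial IsDedekindDomain NumberField UniqueFactorizationMonoid
open scoped Classical

namespace Pool.Agent.Helper29L.SZ

open Pool.Agent.N922.PQ
open Pool.Agent.N667.PQ
open Pool.Agent.N874.PP (Ev)
open Pool.Agent.N862.PP (cn cn_prod)

theorem cn_two (hI : S_INT) {L O : Type} [Field L] [NumberField L] [CommRing O]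
    [IsDedekindDomain O] [Algebra O L] [IsFractionRing O L] [IsIntegralClosure O ℤ L]
    {a b : ℤ} {θ : L} [Module.Finite ℤ O] [Module.IsTorsionFree ℤ O] (h : IsCub a b θ)
    (hsq : Squarefree (dsc a b)) {Q : ℤ} (hQ : Prime Q) (hQb : Q ∣ b)
    (hns : ∀ z : ℤ, ¬ Q ∣ z ^ 2 + a) {t : O} (ht : algebraMap O L t = θ)
    (htr : t ^ 3 + algebraMap ℤ O a * t + algebraMap ℤ O b = 0) :
    cn ℤ (Ideal.span {Q}) (J1 Q t) = 1 ∧ cn ℤ (Ideal.span {Q}) (J2 Q a t) = 2 := by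
  have hQ0 : algebraMap ℤ O Q ≠ 0 := by
    intro h0
    exact hQ.ne_zero (algO_inj (L := L) (by rw [h0, map_zero]))
  have hb1 : (J1 Q t : Ideal O) ≠ ⊥ := fun h0 => hQ0 (by
    have := Q_mem_J1 (O := O) Q t
    rwa [h0, Ideal.mem_bot] at this)
  have hb2 : (J2 Q a t : Ideal O) ≠ ⊥ := fun h0 => hQ0 (by
    have := Q_mem_J2 (O := O) Q a t
    rwa [h0, Ideal.mem_bot] at this)
  have hm1 := J1_max (L := L) hI h hsq hQ hQb ht
  let 𝔓₁ : HeightOneSpectrum O := ⟨J1 Q t, hm1.isPrime, hb1⟩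
  have ov1 : Ov Q 𝔓₁ := Q_mem_J1 Q t
  have h1 : cn ℤ (Ideal.span {Q}) (J1 Q t) = 1 := by
    have := cn_deg_one (𝔓 := 𝔓₁) (c := 0) h hsq hQ ov1 ht (by
      rw [map_zero, sub_zero]
      exact t_mem_J1 Q t)
    exact this
  refine ⟨h1, ?_⟩
  have h2 := cn_prod (R := ℤ) (Ideal.span {Q}) ({J1 Q t, J2 Q a t} : Multiset (Ideal O)) (by
    intro I hI'
    simp only [Multiset.insert_eq_cons, Multiset.mem_cons, Multiset.mem_singleton] at hI'
    rcases hI' with rfl | rfl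
    · exact hb1
    · exact hb2)
  have h3 : cn ℤ (Ideal.span {Q}) (Ideal.span {algebraMap ℤ O Q} : Ideal O) = 3 :=
    cn_three (L := L) h hQ
  have h4 : ({J1 Q t, J2 Q a t} : Multiset (Ideal O)).prod = J1 Q t * J2 Q a t := by simp
  rw [h4, J1_mul_J2_eq (L := L) hI h hsq hQ hQb hns ht htr, h3] at h2
  simp only [Multiset.insert_eq_cons, Multiset.map_cons, Multiset.map_singleton,
    Multiset.sum_cons, Multiset.sum_singleton, h1] at h2
  omega

/-- Even valuation at the prime of degree one over `Q`, from the norm. -/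
theorem ev_deg_one (hI : S_INT) {L O : Type} [Field L] [NumberField L] [CommRing O]
    [IsDedekindDomain O] [Algebra O L] [IsFractionRing O L] [IsIntegralClosure O ℤ L]
    {a b : ℤ} {θ : L} (h : IsCub a b θ)
    (hsq : Squarefree (dsc a b)) {Q : ℤ} (hQ : Prime Q) (hQb : Q ∣ b)
    (hns : ∀ z : ℤ, ¬ Q ∣ z ^ 2 + a) {x : L} (hx : x ≠ 0) (hN : IsSquare (Algebra.norm ℚ x))
    {𝔓 : HeightOneSpectrum O} (hov : Ov Q 𝔓) (hv : 𝔓.valuation L θ ≠ 1) : Ev 𝔓 x := by
  obtain ⟨t, ht, htr⟩ := exists_theta (O := O) h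
  haveI hfin : Module.Finite ℤ O := fin_O (L := L) hI h hsq
  haveI htf : Module.IsTorsionFree ℤ O := tf_O (L := L)
  have htm : t ∈ 𝔓.asIdeal := by
    rw [← 𝔓.valuation_lt_one_iff_mem (K := L)]
    refine lt_of_le_of_ne (𝔓.valuation_le_one _) ?_
    show 𝔓.valuation L (algebraMap O L t) ≠ 1
    rw [ht]
    exact hv
  obtain ⟨c1, c2⟩ := cn_two hI h hsq hQ hQb hns ht htr
  have h1 : 𝔓.asIdeal = J1 Q t := by
    rcases eq_J hI h hsq hQ hQb hns ht htr hov with ⟨-, h2⟩ | ⟨h2, -⟩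
    · exact h2
    · exact absurd htm h2
  refine parity h hQ 𝔓 hov ?_ hx hN fun 𝔮 ho hne => ?_
  · rw [h1, c1]
    decide
  · right
    rcases eq_J hI h hsq hQ hQb hns ht htr ho with ⟨-, h2⟩ | ⟨-, h2⟩
    · exact absurd (HeightOneSpectrum.ext (h2.trans h1.symm)) hne
    · rw [h2, c2]
      decide

end Pool.Agent.Helper29L.SZ
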