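import Pool.Agent.Helper29L.Size1
import Pool.Agent.Helper29L.Size2
import Pool.Agent.H30GR.Low1

/-!
# Job SIZE, part 3: the group of the relaxed classes
-/

set_option autoImplicit false
set_option linter.all false

open Polynomial IsDedekindDomain NumberField WeierstrassCurve WeierstrassCurve.Affine
open scoped Classical

namespace Pool.Agent.Helper29L.SZ

open Pool.Agent.TH115.GD
open Pool.Agent.R425.G
open Pool.Agent.Y702.G (sh)
open Pool.Agent.Y710.CV (Cond)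
open Pool.Agent.N922.PQ (IsCub PL2 Loc2 dsc IsPr Ov S_INT)
open Pool.Agent.N874.PP (Ev)
open Pool.Agent.H30GR (exists_zs)

/-- the curve over `ℤ` -/
def WW (a b : ℤ) : WeierstrassCurve ℤ := ⟨0, 0, 0, a, b⟩

theorem disc_WW (a b : ℤ) : (WW a b).Δ = -16 * Pool.Agent.N922.PQ.dsc a b := by
  simp only [WW, Pool.Agent.N922.PQ.dsc, WeierstrassCurve.Δ, WeierstrassCurve.b₂, WeierstrassCurve.b₄,
    WeierstrassCurve.b₆, WeierstrassCurve.b₈]
  ring

theorem cf_sh {L : Type} [Field L] [NumberField L] {a b : ℤ} {θ : L} (h : IsCub a b θ) :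
    CF (sh (WW a b)) L (4 * θ) where
  root := by
    rw [cub_sh]
    simp only [WW, WeierstrassCurve.b₂, WeierstrassCurve.b₄, WeierstrassCurve.b₆]
    push_cast
    linear_combination 64 * h.root
  deg := h.rank
  gen := by
    rw [eq_top_iff]
    rintro x -
    obtain ⟨r, s, t, rfl⟩ := h.gen x
    have hθ4 : 4 * θ ∈ Algebra.adjoin ℚ ({4 * θ} : Set L) := Algebra.subset_adjoin rfl
    have hq : ∀ q : ℚ, (q : L) ∈ Algebra.adjoin ℚ ({4 * θ} : Set L) := by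
      intro q
      have := (Algebra.adjoin ℚ ({4 * θ} : Set L)).algebraMap_mem q
      rwa [eq_ratCast] at this
    have hθ : θ ∈ Algebra.adjoin ℚ ({4 * θ} : Set L) := by
      have h1 := mul_mem (hq (1 / 4)) hθ4
      have e : (((1 / 4 : ℚ)) : L) * (4 * θ) = θ := by
        push_cast
        ring
      rwa [e] at h1
    exact add_mem (add_mem (hq r) (mul_mem (hq s) hθ)) (mul_mem (hq t) (pow_mem hθ 2))

theorem size_aux (hI : S_INT) {L : Type} [Field L] [NumberField L] {a b : ℤ} {θ : L}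
    (S : Finset ℤ) (hc : IsCub a b θ) (ha : Odd a) (hb : Odd b) (hsq : Squarefree (dsc a b))
    (hS : ∀ Q ∈ S, IsPr Q ∧ Q % 8 = 1 ∧ Q ∣ b ∧ ∀ z : ℤ, ¬ Q ∣ z ^ 2 + a) :
    ∃ z : Fin (2 ^ S.card) → L, (∀ i, z i ≠ 0 ∧ IsSquare (Algebra.norm ℚ (z i)) ∧
      Loc2 a b θ (z i) ∧ ∀ 𝔓 : HeightOneSpectrum (𝓞 L),
        (∀ Q ∈ S, ¬ (Ov Q 𝔓 ∧ 𝔓.valuation L θ = 1)) → Ev 𝔓 (z i)) ∧
      ∀ i j, i ≠ j → ¬ IsSquare (z i * z j) := by
  have hd0 : dsc a b ≠ 0 := hsq.ne_zero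
  have hV := iv_VV hd0
  have hcf := cf_VV hc
  have hnat : ∀ Q ∈ S, ((Q.toNat : ℕ) : ℤ) = Q := fun Q hQ => Int.toNat_of_nonneg (hS Q hQ).1.1.le
  have hpr : ∀ Q ∈ S, Q.toNat.Prime := by
    intro Q hQ
    rw [Nat.prime_iff_prime_int, hnat Q hQ]
    exact (hS Q hQ).1.2
  obtain ⟨R, hRdef⟩ : ∃ R : Finset ℕ, R = S.image Int.toNat := ⟨_, rfl⟩
  have hRmem : ∀ l ∈ R, ∃ Q ∈ S, ((l : ℕ) : ℤ) = Q := by
    intro l hl
    rw [hRdef, Finset.mem_image] at hl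
    obtain ⟨Q, hQ, rfl⟩ := hl
    exact ⟨Q, hQ, hnat Q hQ⟩
  have hRp : ∀ l ∈ R, l.Prime := by
    intro l hl
    rw [hRdef, Finset.mem_image] at hl
    obtain ⟨Q, hQ, rfl⟩ := hl
    exact hpr Q hQ
  have hRcard : R.card = S.card := by
    rw [hRdef]
    refine Finset.card_image_of_injOn ?_
    intro Q hQ Q' hQ' h
    rw [← hnat Q hQ, ← hnat Q' hQ']
    exact congrArg _ h
  have h2 : ∀ Q ∈ S, ¬ Q ∣ 2 := by
    intro Q hQ hdvd
    obtain ⟨⟨h0, hp⟩, h8, -, -⟩ := hS Q hQ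
    have := Int.le_of_dvd (by norm_num) hdvd
    have h1 : Q ≠ 1 := fun h => hp.not_unit (by rw [h]; exact isUnit_one)
    omega
  have hdd : ∀ Q ∈ S, ¬ Q ∣ dsc a b := by
    intro Q hQ hdvd
    obtain ⟨⟨h0, hp⟩, h8, hQb, hns⟩ := hS Q hQ
    have h1 : Q ∣ 4 * a ^ 3 := by
      have h3 : Q ∣ 27 * b ^ 2 := (dvd_pow hQb two_ne_zero).mul_left _
      have := dvd_sub hdvd h3
      rwa [Pool.Agent.N922.PQ.dsc, add_sub_cancel_right] at this
    rcases hp.dvd_or_dvd h1 with h3 | h3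
    · have h4 : Q ∣ 2 ^ 2 := h3
      exact h2 Q hQ (hp.dvd_of_dvd_pow h4)
    · apply hns 0
      have := hp.dvd_of_dvd_pow h3
      simpa using this
  have hWΔ : (WW a b).Δ ≠ 0 := by
    rw [disc_WW]
    exact mul_ne_zero (by norm_num) hd0
  have htq : ∀ l ∈ R, 2 ≤ (Tq L l).ncard := by
    intro l hl
    obtain ⟨Q, hQ, hlQ⟩ := hRmem l hl
    obtain ⟨⟨h0, hp⟩, h8, hQb, hns⟩ := hS Q hQ
    refine tq_two (cf_sh hc) hWΔ (hRp l hl) ?_ (n := 0) ?_
    · rw [hlQ, disc_WW]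
      intro hdvd
      have e : (2 * (-16 * dsc a b) : ℤ) = 2 ^ 5 * (-dsc a b) := by ring
      rw [e] at hdvd
      rcases hp.dvd_or_dvd hdvd with h3 | h3
      · exact h2 Q hQ (hp.dvd_of_dvd_pow h3)
      · rw [dvd_neg] at h3
        exact hdd Q hQ h3
    · rw [hlQ]
      have e : (0 : ℤ) ^ 3 + (WW a b).b₂ * 0 ^ 2 + 8 * (WW a b).b₄ * 0 + 16 * (WW a b).b₆ =
          64 * b := by
        simp only [WW, WeierstrassCurve.b₂, WeierstrassCurve.b₄, WeierstrassCurve.b₆]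
        ring
      rw [e]
      exact hQb.mul_left _
  have hprod : ((∏ l ∈ R, l : ℕ) : ℤ) ≠ 0 := by
    exact_mod_cast Finset.prod_ne_zero_iff.2 fun l hl => (hRp l hl).ne_zero
  have hD : (2 : ℤ) * ((∏ l ∈ R, l : ℕ) : ℤ) ≠ 0 := mul_ne_zero two_ne_zero hprod
  obtain ⟨n, z, hn, hz, hzd⟩ := exists_zs hcf hV (D0 := 2) two_ne_zero R
    (fun l hl => ⟨hRp l hl, by
      obtain ⟨Q, hQ, hlQ⟩ := hRmem l hl
      rw [hlQ]
      exact h2 Q hQ⟩) (fun l hl => one_le_two.trans (htq l hl)) hD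
  have hcard : 2 ^ S.card ≤ n := by
    refine le_trans ?_ hn
    apply Nat.pow_le_pow_right (by norm_num)
    rw [← hRcard, Finset.card_eq_sum_ones]
    refine Finset.sum_le_sum fun l hl => ?_
    have := htq l hl
    omega
  refine ⟨fun i => (z (Fin.castLE hcard i) : L), fun i => ?_, fun i j hij hs => ?_⟩
  · obtain ⟨⟨r, hr0, hr⟩, hval, hcond⟩ := hz (Fin.castLE hcard i)
    have hne : (z (Fin.castLE hcard i) : L) ≠ 0 := (z (Fin.castLE hcard i)).ne_zero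
    have hN : IsSquare (Algebra.norm ℚ (z (Fin.castLE hcard i) : L)) := ⟨r, by rw [hr, sq]⟩
    refine ⟨hne, hN, ?_, ?_⟩
    · refine cond_loc2 hcf hV ha hb (hcond p2 ?_)
      have : ng p2 = 2 := ng_p2
      rw [this]
      norm_num
    · intro 𝔓 h𝔓
      by_cases hmem : (((2 : ℤ) * ((∏ l ∈ R, l : ℕ) : ℤ) : ℤ) : 𝓞 L) ∈ 𝔓.asIdeal
      · have h3 : ((2 : ℤ) : 𝓞 L) ∈ 𝔓.asIdeal ∨ ∃ l ∈ R, ((l : ℕ) : 𝓞 L) ∈ 𝔓.asIdeal := by
          rw [Int.cast_mul] at hmem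
          rcases 𝔓.isPrime.mem_or_mem hmem with h4 | h4
          · exact Or.inl h4
          · right
            rw [Int.cast_natCast, Nat.cast_prod] at h4
            obtain ⟨l, hl, h5⟩ := (𝔓.isPrime.prod_mem_iff).1 h4
            exact ⟨l, hl, h5⟩
        rcases h3 with h4 | ⟨l, hl, h4⟩
        · refine Pool.Agent.N667.PQ.p3 hI L (𝓞 L) a b θ hc hsq 2 Int.prime_two ?_ _ hne hN 𝔓 ?_
          · intro t ht
            have ha2 : a % 2 = 1 := Int.odd_iff.1 ha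
            have hb2 : b % 2 = 1 := Int.odd_iff.1 hb
            have h5 : (t ^ 3 + a * t + b) % 2 = 0 := Int.emod_eq_zero_of_dvd ht
            rcases Int.emod_two_eq_zero_or_one t with h6 | h6
            · norm_num [Int.add_emod, Int.mul_emod, pow_succ, h6, ha2, hb2] at h5
            · norm_num [Int.add_emod, Int.mul_emod, pow_succ, h6, ha2, hb2] at h5
          · show ((2 : ℤ) : 𝓞 L) ∈ 𝔓.asIdeal
            exact h4
        · obtain ⟨Q, hQ, hlQ⟩ := hRmem l hl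
          obtain ⟨⟨h0, hp⟩, h8, hQb, hns⟩ := hS Q hQ
          have hov : Ov Q 𝔓 := by
            show ((Q : ℤ) : 𝓞 L) ∈ 𝔓.asIdeal
            rw [← hlQ, Int.cast_natCast]
            exact h4
          exact ev_deg_one hI hc hsq hp hQb hns hne hN hov fun h5 => h𝔓 Q hQ ⟨hov, h5⟩
      · exact ⟨1, by rw [hval 𝔓 hmem, map_one, one_pow]⟩
  · obtain ⟨s, hs⟩ := hs
    apply hij
    have := hzd _ _ ⟨s, by rw [sq]; exact hs⟩
    exact Fin.castLE_injective hcard this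

end Pool.Agent.Helper29L.SZ
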