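import Pool.Agent.Helper29L.Lat5
import Pool.Agent.N922.PQ.Final

/-!
# Job LAT, part 6: `S_PLB`
-/

set_option autoImplicit false
set_option linter.all false

open IsDedekindDomain NumberField Matrix
open scoped Classical

namespace Pool.Agent.Helper29L

open Pool.Agent.N922.PQ
open Pool.Agent.N441.PQ (gram_change li_change size_change cs_change)
open Pool.Agent.N301.PQ (mem_P1 val_lt_mem exO theta_ex mapO poly_mem)
open Pool.Agent.N227.PQ (co_crd eq_co co_smul co_int_smul co_th det_T)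
open Pool.Agent.N874.PP (Tup chA chB gq tau Two Ev Sq1 U0 sW)

theorem sup_change {L : Type} [Field L] [NumberField L] {e e' : Fin 3 → L}
    {W : Matrix (Fin 3) (Fin 3) ℤ} (hW : IsUnit W.det) (he : ∀ i, e' i = ∑ j, (W i j : L) * e j)
    (c : Fin 3 → ℤ) : ∃ c' : Fin 3 → ℤ, ∑ i, (c i : L) * e i = ∑ i, (c' i : L) * e' i := by
  refine ⟨c ᵥ* W⁻¹, ?_⟩
  have h1 : (c ᵥ* W⁻¹) ᵥ* W = c := by
    rw [Matrix.vecMul_vecMul, Matrix.nonsing_inv_mul _ hW, Matrix.vecMul_one]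
  generalize (c ᵥ* W⁻¹) = η at h1
  subst h1
  have h3 : ∀ i, ((((η ᵥ* W) i : ℤ)) : L) = ∑ j, (η j : L) * (W j i : L) := by
    intro i
    simp [Matrix.vecMul, dotProduct]
  simp_rw [h3, he, Finset.mul_sum, Finset.sum_mul]
  rw [Finset.sum_comm]
  refine Finset.sum_congr rfl fun i _ => Finset.sum_congr rfl fun j _ => ?_
  ring

/-- **Job LAT.** -/
theorem plb : S_PLB := by
  have h2 : S_MAJ := Pool.Agent.N50.PQ.Maj.maj
  have h3 : S_RED := Pool.Agent.N945.PQ.RED.main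
  have h4 : S_NF := Pool.Agent.N368.PQ.nf Pool.Agent.N592.PQ.nrm
  have h5 : S_CHI := Pool.Agent.N738.PQ.chi
  have h6 : S_NZ := Pool.Agent.N738.PQ.nz
  have hNS : S_NS := Pool.Agent.N667.PQ.ns0 Pool.Agent.N849.PQ.int
  obtain ⟨κ₀, hκ0, h4⟩ := h4
  refine ⟨⌈2 * κ₀ ^ 2⌉₊, ?_⟩
  intro L _ _ a b θ X Z S E D h ha haX hbX hsqf hGp hdis hD α hs hns hodd hS
  have hα := hs.ne
  have hsq := hs.norm
  have hDpos : (0 : ℤ) < (D : ℤ) := by
    rw [hD]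
    exact Finset.prod_pos fun Q hQ => (hGp Q (Finset.mem_union_left _ hQ)).pr.1
  have hD0 : ((D : ℕ) : ℤ) ≠ 0 := hDpos.ne'
  obtain ⟨e, G, B0, hli, hmem, hsup, hdet, hG, hB0⟩ := lattice h hsqf Z
    (fun Q hQ => hGp Q (Finset.mem_union_left _ hQ)) hD0 hD hs hodd
  set h' := cubD h hD0 with hh'
  have hnorm : 0 < Algebra.norm ℚ α := by
    obtain ⟨r, hr⟩ := hsq
    have hr0 : r ≠ 0 := by
      rintro rfl
      rw [mul_zero] at hr
      exact hα (Algebra.norm_eq_zero_iff.1 hr)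
    rw [hr]
    exact mul_self_pos.2 hr0
  obtain ⟨H, hH, hHdet, hC2, hC1, v0, hv0⟩ := h2 L _ _ _ h' (D * X) (by positivity)
    (by
      push_cast
      calc a * (D : ℤ) ^ 2 ≤ X ^ 2 * (D : ℤ) ^ 2 := mul_le_mul_of_nonneg_right haX (by positivity)
        _ = _ := by ring)
    (by
      push_cast
      rw [abs_mul, abs_pow, abs_of_pos hDpos]
      calc |b| * (D : ℤ) ^ 3 ≤ X ^ 3 * (D : ℤ) ^ 3 := mul_le_mul_of_nonneg_right hbX (by positivity)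
        _ = _ := by ring) α e hα hnorm hli
  have hofG : (Matrix.of fun i j => h'.co 2 (e i * e j / α)) = G.map (Int.castRingHom ℚ) := by
    ext i j
    rw [Matrix.of_apply, Matrix.map_apply, ← hG i j]
    rfl
  have hH1 : H.det = 1 := by
    rw [hHdet, hofG, ← RingHom.mapMatrix_apply, ← RingHom.map_det, hdet]
    simp
  obtain ⟨U1, hh, hU1, hpos, hmono, hprod, hrow⟩ := h3 H hH hH1
  have hGsymm : G.IsSymm := by
    ext i j
    rw [Matrix.transpose_apply]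
    have h8 : (G j i : ℚ) = (G i j : ℚ) := by rw [hG, hG, mul_comm (e j)]
    exact_mod_cast h8
  have hU1sq : U1.det * U1.det = 1 := by
    rcases Int.isUnit_iff.1 hU1 with h8 | h8 <;> rw [h8] <;> rfl
  -- the first change of basis
  obtain ⟨G1, hG1⟩ : ∃ G1, G1 = U1 * G * U1ᵀ := ⟨_, rfl⟩
  obtain ⟨B1, hB1⟩ : ∃ B1, B1 = U1 * B0 * U1ᵀ := ⟨_, rfl⟩
  have hG1b : ∀ i j, |(G1 i j : ℝ)| ≤ hh i * hh j := by
    intro i j
    have h8 := cs_change G U1 (fun i j => h'.co 2 (e i * e j / α)) hG H hh hpos hrow 1 zero_le_one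
      (fun u v => by rw [one_pow, one_mul]; exact hC2 u v) i j
    rw [one_mul, ← hG1] at h8
    exact h8
  have hB1b : ∀ i j, |(B1 i j : ℝ)| ≤ (2 * (D * X : ℕ)) * (hh i * hh j) := by
    intro i j
    have h8 := cs_change B0 U1 (fun i j => h'.co 1 (e i * e j / α)) hB0 H hh hpos hrow
      (2 * (D * X : ℕ)) (by positivity) hC1 i j
    rw [← hB1] at h8
    exact h8
  have hG1s : G1.IsSymm := by
    rw [hG1, Matrix.IsSymm, Matrix.transpose_mul, Matrix.transpose_mul, Matrix.transpose_transpose,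
      hGsymm.eq, Matrix.mul_assoc]
  have hG1d : G1.det = -1 := by
    rw [hG1, Matrix.det_mul, Matrix.det_mul, Matrix.det_transpose, hdet]
    linear_combination -hU1sq
  have hG1p : ∃ v : Fin 3 → ℤ, 0 < v ⬝ᵥ G1 *ᵥ v := by
    refine ⟨v0 ᵥ* U1⁻¹, ?_⟩
    have h8 : (v0 ᵥ* U1⁻¹) ᵥ* U1 = v0 := by
      rw [Matrix.vecMul_vecMul, Matrix.nonsing_inv_mul _ hU1, Matrix.vecMul_one]
    have h9 : (v0 ᵥ* U1⁻¹) ⬝ᵥ G1 *ᵥ (v0 ᵥ* U1⁻¹) = v0 ⬝ᵥ G *ᵥ v0 := by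
      rw [hG1, ← Matrix.mulVec_mulVec, ← Matrix.mulVec_mulVec, Matrix.mulVec_transpose, h8,
        Matrix.dotProduct_mulVec, h8]
    rw [h9]
    have h10 : ((v0 ⬝ᵥ G *ᵥ v0 : ℤ) : ℚ) = ∑ i, ∑ j, (v0 i : ℚ) * (v0 j : ℚ) *
        h'.co 2 (e i * e j / α) := by
      simp only [← hG]
      simp only [dotProduct, Matrix.mulVec, Fin.sum_univ_three]
      push_cast
      ring
    have h11 : (0 : ℚ) < ((v0 ⬝ᵥ G *ᵥ v0 : ℤ) : ℚ) := by rw [h10]; exact hv0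
    exact_mod_cast h11
  obtain ⟨m, U2, hU2, hJJ, hr0, hr1, hr2⟩ := h4 G1 hh hG1s hG1d hG1p hpos hmono hprod hG1b
  -- the second change of basis
  obtain ⟨W, hW⟩ : ∃ W, W = U2 * U1 := ⟨_, rfl⟩
  have hWu : IsUnit W.det := by
    rw [hW, Matrix.det_mul]
    exact hU2.mul hU1
  have hWG : W * G * Wᵀ = JJ := by
    rw [← hJJ, hG1, hW, Matrix.transpose_mul]
    simp only [Matrix.mul_assoc]
  obtain ⟨B2, hB2⟩ : ∃ B2, B2 = W * B0 * Wᵀ := ⟨_, rfl⟩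
  have hB2' : B2 = U2 * B1 * U2ᵀ := by
    rw [hB2, hB1, hW, Matrix.transpose_mul]
    simp only [Matrix.mul_assoc]
  obtain ⟨e', he'⟩ : ∃ e' : Fin 3 → L, ∀ i, e' i = ∑ j, (W i j : L) * e j :=
    ⟨fun i => ∑ j, (W i j : L) * e j, fun i => rfl⟩
  have hli' : LinearIndependent ℚ e' := li_change e e' W hWu hli he'
  have hc2 : ∀ i j, h'.co 2 (e' i * e' j / α) = (JJ i j : ℚ) := by
    intro i j
    rw [gram_change (h'.co 2) α e e' G W hG he' i j, hWG]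
  have hc1 : ∀ i j, h'.co 1 (e' i * e' j / α) = (B2 i j : ℚ) := by
    intro i j
    rw [gram_change (h'.co 1) α e e' B0 W hB0 he' i j, ← hB2]
  obtain ⟨hm, hchA, hchB⟩ := h5 L _ _ _ h' α e' hα hli' hc2 B2 hc1
  have HN : NBas h' (D : ℤ) α e' B2 :=
    { li := hli'
      mem := fun i => by rw [he' i]; exact sum_B hα hmem (W i)
      sup := fun y hy => by
        obtain ⟨c, hc⟩ := hsup y hy
        obtain ⟨c', hc'⟩ := sup_change hWu he' c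
        exact ⟨c', hc.trans hc'⟩
      c2 := hc2
      c1 := hc1
      b11 := hm }
  have hb : ∀ i j, |(B2 i j : ℝ)| ≤ (2 * (D * X : ℕ)) * ((∑ k, |(U2 i k : ℝ)| * hh k) *
      (∑ k, |(U2 j k : ℝ)| * hh k)) := by
    intro i j
    rw [hB2']
    exact size_change B1 U2 hh (2 * (D * X : ℕ)) hB1b i j
  have hs0 : ∀ i, 0 ≤ ∑ k, |(U2 i k : ℝ)| * hh k := fun i =>
    Finset.sum_nonneg fun k _ => mul_nonneg (abs_nonneg _) (hpos k).le
  have hκ : 2 * κ₀ ^ 2 ≤ (⌈2 * κ₀ ^ 2⌉₊ : ℝ) := Nat.le_ceil _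
  have hX : (0 : ℝ) ≤ (D * X : ℕ) := Nat.cast_nonneg _
  have hT2 : (0 : ℝ) < (2 : ℝ) ^ m := by positivity
  -- a bound for the products
  have hbd : ∀ (r s' u v : ℝ), 0 ≤ r → 0 ≤ s' → r ≤ u → s' ≤ v → ∀ t : ℝ, 0 ≤ t →
      u * v * t = κ₀ ^ 2 → ∀ w : ℝ, |w| ≤ (2 * (D * X : ℕ)) * (r * s') →
      |w| * t ≤ (⌈2 * κ₀ ^ 2⌉₊ : ℝ) * (D * X : ℕ) := by
    intro r s' u v hr hs' hu hv t ht huv w hw
    have h8 : r * s' ≤ u * v := mul_le_mul hu hv hs' (hr.trans hu)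
    calc |w| * t ≤ (2 * (D * X : ℕ)) * (r * s') * t := mul_le_mul_of_nonneg_right hw ht
      _ ≤ (2 * (D * X : ℕ)) * (u * v) * t :=
          mul_le_mul_of_nonneg_right (mul_le_mul_of_nonneg_left h8 (by positivity)) ht
      _ = (2 * κ₀ ^ 2) * (D * X : ℕ) := by rw [← huv]; ring
      _ ≤ _ := mul_le_mul_of_nonneg_right hκ hX
  refine ⟨m, ⟨B2 0 0, B2 0 1, B2 0 2, B2 1 2, B2 2 2⟩, ?_, hchA, hchB⟩
  have hbox : InBox ⌈2 * κ₀ ^ 2⌉₊ (D * X) (2 ^ m)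
      (⟨B2 0 0, B2 0 1, B2 0 2, B2 1 2, B2 2 2⟩ : Tup ℤ) := by
    refine ⟨?_, ?_, ?_, ?_, ?_⟩
    · have h8 := hbd _ _ _ _ (hs0 0) (hs0 0) hr0 hr0 (((2 : ℝ) ^ m) ^ 2) (by positivity)
        (by field_simp) _ (hb 0 0)
      exact_mod_cast h8
    · have h8 := hbd _ _ _ _ (hs0 0) (hs0 1) hr0 hr1 ((2 : ℝ) ^ m) (by positivity)
        (by field_simp) _ (hb 0 1)
      exact_mod_cast h8
    · have h8 := hbd _ _ _ _ (hs0 0) (hs0 2) hr0 hr2 1 zero_le_one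
        (by field_simp) _ (hb 0 2)
      rw [mul_one] at h8
      exact_mod_cast h8
    · have h8 := hbd _ _ _ _ (hs0 1) (hs0 2) hr1 hr2 (((2 : ℝ) ^ m)⁻¹) (by positivity)
        (by field_simp) _ (hb 1 2)
      rw [mul_inv_le_iff₀ hT2] at h8
      exact_mod_cast h8
    · have h8 := hbd _ _ _ _ (hs0 2) (hs0 2) hr2 hr2 ((((2 : ℝ) ^ m) ^ 2)⁻¹) (by positivity)
        (by field_simp) _ (hb 2 2)
      rw [mul_inv_le_iff₀ (by positivity)] at h8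
      exact_mod_cast h8
  have hnz : B2 0 0 ≠ 0 := by
    intro h8
    refine hns (h6 L _ _ _ h' α (e' 0) hα (hli'.ne_zero 0) hsq ?_ ?_)
    · rw [hc2 0 0]
      simp [JJ]
    · rw [hc1 0 0, h8]
      simp
  -- data at `Q ∈ S`
  obtain ⟨t, ht⟩ := theta_ex (𝓞 L) h
  have hdata : ∀ Q ∈ S, Gp a b Q ∧ ¬ Q ∣ (D : ℤ) := by
    intro Q hQ
    have hg := hGp Q (Finset.mem_union_right _ hQ)
    refine ⟨hg, ?_⟩
    intro h8
    rw [hD] at h8
    obtain ⟨P, hP, hQP⟩ := (hg.pr.2.dvd_finsetProd_iff _).1 h8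
    have hP' := (hGp P (Finset.mem_union_left _ hP)).pr
    have hne : P ≠ Q := fun h9 => (Finset.disjoint_left.1 hdis hP) (h9 ▸ hQ)
    have hcop := isCoprime_of hP' hg.pr hne
    exact hg.pr.2.not_unit (hcop.isUnit_of_dvd' hQP dvd_rfl)
  have hevS : ∀ Q ∈ S, ∀ 𝔓 : HeightOneSpectrum (𝓞 L), Ov Q 𝔓 → Ev 𝔓 α := by
    intro Q hQ 𝔓 hov
    apply hs.ev
    rintro P hP ⟨hP1, -⟩
    have hne : P ≠ Q := fun h9 => (Finset.disjoint_left.1 hdis hP) (h9 ▸ hQ)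
    exact hne (below_unique (hGp P (Finset.mem_union_left _ hP)).pr (hdata Q hQ).1.pr hP1 hov)
  have hθq : ∀ (Q : ℤ) (𝔓 𝔮 : HeightOneSpectrum (𝓞 L)), PD Q t 𝔓 𝔮 → 𝔮.valuation L θ = 1 := by
    intro Q 𝔓 𝔮 hd
    rw [← ht]
    exact (HeightOneSpectrum.valuation_eq_one_iff_notMem (K := L) 𝔮).2 hd.tq
  refine ⟨hbox, hnz, ?_, ?_, ?_, ?_⟩
  · intro Q hQ hQE
    obtain ⟨hg, hQD⟩ := hdata Q hQ
    obtain ⟨𝔓, 𝔮, hd⟩ := exists_PD h hsqf hg ht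
    have hsq1 : Sq1 𝔮 α := (hS Q hQ 𝔮 hd.ovq (hθq Q 𝔓 𝔮 hd)).2 hQE
    have hsP : Sq1 𝔓 α := by
      refine hNS L (𝓞 L) a b θ h hsqf Q hg.pr.2 hg.db hg.ns α hα hsq ?_ ?_ 𝔓 hd.ovP
      · intro 𝔓' hov _
        exact hevS Q hQ 𝔓' hov
      · intro 𝔓' hov hv
        exact (hS Q hQ 𝔓' hov hv).2 hQE
    exact tt_of h hsqf hD0 hα HN hg hQD ht hd hsP hsq1
  · intro Q hQ hQE
    obtain ⟨hg, hQD⟩ := hdata Q hQ
    obtain ⟨𝔓, 𝔮, hd⟩ := exists_PD h hsqf hg ht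
    have hns1 : ¬ Sq1 𝔮 α := fun h8 => ((hS Q hQ 𝔮 hd.ovq (hθq Q 𝔓 𝔮 hd)).1 h8) hQE
    have hkey := no_iso h hsqf hD0 hα HN hg hQD ht hd (hevS Q hQ 𝔓 hd.ovP) (hevS Q hQ 𝔮 hd.ovq) hns1
    refine ⟨?_, ?_⟩
    · intro h8
      refine hkey ![1, 0, 0] ⟨0, ?_⟩ ?_ ?_
      · intro h9
        exact hg.pr.2.not_unit (isUnit_of_dvd_one (by simpa using h9))
      · simp
      · simpa using h8
    · intro u h8
      refine hkey ![-2 * u ^ 2, 2 * u, 1] ⟨2, ?_⟩ ?_ ?_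
      · intro h9
        exact hg.pr.2.not_unit (isUnit_of_dvd_one (by simpa using h9))
      · refine ⟨0, ?_⟩
        simp only [Matrix.cons_val_zero, Matrix.cons_val_one, Matrix.cons_val]
        ring
      · convert h8 using 1
        simp only [Matrix.cons_val_zero, Matrix.cons_val_one, Matrix.cons_val, gq]
        ring
  · intro Q hQ
    rw [hchA]
    simp
  · intro Q hQ
    rw [hchB]
    exact (hdata Q hQ).1.db.mul_right _

end Pool.Agent.Helper29L
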