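import Pool.Agent.Helper29L.LOW9

/-!
# Job LOW: the end
-/

set_option autoImplicit false
set_option linter.all false

open NumberField IsDedekindDomain WithZero WeierstrassCurve WeierstrassCurve.Affine
open scoped NNReal Classical

namespace Pool.Agent.Helper29L.LOW

open Pool.Agent
open Pool.Agent.TH115.GD
open Pool.Agent.Y710.CV (Cond cond1 cond2)
open Pool.Agent.Y702.G (sh base pts)
open Pool.Agent.R425.G
open Pool.Agent.N922.PQ (IsCub Ov IsPr Loc2 PL2)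
open Pool.Agent.N874.PP (Ev Sq1 U0)
open Pool.Agent.Helper29K (InFamily)
open Pool.Agent.Helper29L

section arith

theorem prod_mod8 (Z : Finset ℤ) (h : ∀ Q ∈ Z, Q % 8 = 1) : (∏ Q ∈ Z, Q) % 8 = 1 := by
  refine Finset.prod_induction (fun Q : ℤ => Q) (fun x => x % 8 = 1) ?_ rfl h
  intro x y hx hy
  show x * y % 8 = 1
  have hx' : x % 8 = 1 := hx
  have hy' : y % 8 = 1 := hy
  rw [Int.mul_emod, hx', hy']
  norm_num

theorem eq_of_dvd {p : ℕ} (hp : p.Prime) {Q : ℤ} (hQ : IsPr Q) (h : (p : ℤ) ∣ Q) : Q = p := by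
  obtain ⟨h0, h1⟩ := hQ
  lift Q to ℕ using h0.le
  have hQ' : Nat.Prime Q := Nat.prime_iff_prime_int.2 h1
  have h2 : p ∣ Q := by exact_mod_cast h
  rw [(Nat.prime_dvd_prime_iff_eq hp hQ').1 h2]

theorem five_le {a b : ℤ} (hF : InFamily (a, b)) {p : ℕ} (hp : p.Prime)
    (h : (p : ℤ) ∣ Pool.Agent.N922.PQ.dsc a b) : 5 ≤ p := by
  have hsf : Squarefree (4 * a ^ 3 + 27 * b ^ 2) := hF.sqfree
  have ha : a % 4 = 3 := hF.a_four
  have hb : b % 4 = 3 := hF.b_four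
  have hds : Pool.Agent.N922.PQ.dsc a b = 4 * a ^ 3 + 27 * b ^ 2 := rfl
  rw [hds] at h
  have h2 : p ≠ 2 := by
    rintro rfl
    have hb2 : b % 2 = 1 := by omega
    have h3 : (27 * b ^ 2) % 2 = 1 := by
      have : b ^ 2 % 2 = 1 := by
        rw [pow_two, Int.mul_emod, hb2]; norm_num
      omega
    have h4 : ((2 : ℕ) : ℤ) = 2 := rfl
    rw [h4] at h
    omega
  have h3 : p ≠ 3 := by
    rintro rfl
    have h4 : ((3 : ℕ) : ℤ) = 3 := rfl
    rw [h4] at h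
    have h5 : (3 : ℤ) ∣ 4 * a ^ 3 := by
      have : 4 * a ^ 3 = (4 * a ^ 3 + 27 * b ^ 2) - 3 * (9 * b ^ 2) := by ring
      rw [this]
      exact dvd_sub h (dvd_mul_right _ _)
    have h6 : (3 : ℤ) ∣ a := by
      have h7 : (3 : ℤ) ∣ a ^ 3 := by
        have : a ^ 3 = 4 * a ^ 3 - 3 * a ^ 3 := by ring
        rw [this]
        exact dvd_sub h5 (dvd_mul_right _ _)
      exact Int.prime_three.dvd_of_dvd_pow h7
    obtain ⟨c, rfl⟩ := h6
    have h8 : (3 : ℤ) * 3 ∣ 4 * (3 * c) ^ 3 + 27 * b ^ 2 := ⟨12 * c ^ 3 + 3 * b ^ 2, by ring⟩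
    have h9 := hsf 3 h8
    rw [Int.isUnit_iff] at h9
    omega
  have := hp.two_le
  have h4 : p ≠ 4 := by
    rintro rfl
    exact absurd hp (by decide)
  omega

end arith

/-- the field `ℚ_2` -/
theorem exists_j (v : HeightOneSpectrum (𝓞 ℚ)) (h : ng v = 2) :
    Nonempty (ℚ_[2] →+* v.adicCompletion ℚ) := by
  have e : Rat.HeightOneSpectrum.primesEquiv v = (⟨2, Nat.prime_two⟩ : Nat.Primes) :=
    Subtype.ext h
  have j : Nonempty (ℚ_[(Rat.HeightOneSpectrum.primesEquiv v : ℕ)] →+* v.adicCompletion ℚ) := by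
    letI : Algebra ℚ (v.adicCompletion ℚ) := HeightOneSpectrum.instAlgebraAdicCompletion (𝓞 ℚ) ℚ v
    exact ⟨((Rat.HeightOneSpectrum.adicCompletion.padicEquiv v).toAlgEquiv.toRingEquiv.symm : _ →+* _)⟩
  rw [e] at j
  exact j

section all

variable {A : Type} [Field A] [NumberField A] {a b d : ℤ} {θ : A}

theorem cond_all (h : IsCub a b θ) (hF : InFamily (a, b)) {Z : Finset ℤ}
    (hG : ∀ Q ∈ Z, Gp a b Q) (hd : d = ∏ Q ∈ Z, Q) {z : A} (hz : InSel a b Z θ z)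
    (v : HeightOneSpectrum (𝓞 ℚ)) :
    Cond (v.adicCompletion ℚ) (AlgebraicClosure (v.adicCompletion ℚ)) (sh (Wt a b d))
      (4 * d * θ) z := by
  haveI : CharZero (v.adicCompletion ℚ) := algebraRat.charZero _
  haveI : CharZero (AlgebraicClosure (v.adicCompletion ℚ)) := algebraRat.charZero _
  haveI := gal_p v
  obtain ⟨r, hr⟩ := hz.norm
  have hr' : Algebra.norm ℚ z = r ^ 2 := by rw [hr, sq]
  have hp : (ng v).Prime := ng_prime v
  have hpZ : Prime ((ng v : ℕ) : ℤ) := Nat.prime_iff_prime_int.1 hp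
  have hd8 : d % 8 = 1 := by
    rw [hd]
    exact prod_mod8 Z fun Q hQ => (hG Q hQ).m8
  have hd0 : d ≠ 0 := by
    rintro rfl
    norm_num at hd8
  have hsf : Squarefree (Pool.Agent.N922.PQ.dsc a b) := hF.sqfree
  by_cases h2 : ng v = 2
  · obtain ⟨j⟩ := exists_j v h2
    have hV := iv_sh (Wt a b d) (by
      rw [Wt_disc]
      exact mul_ne_zero (mul_ne_zero (by norm_num) (pow_ne_zero 6 hd0)) hsf.ne_zero)
    haveI : IsGalois ℚ_[2] (AlgebraicClosure ℚ_[2]) := inferInstance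
    obtain ⟨e1, e2, e3, hC⟩ := Y355.G.V_roots hV.a1 hV.a3 hV.Δ (AlgebraicClosure ℚ_[2])
    exact cond_conv _ _ _ _ _ _ (cond_base (cf_of h hd0) hC j (cond_two h hsf.ne_zero hd8 hz.two))
  obtain ⟨w, hσ, hL, -⟩ := exists_ld v
  by_cases hpd : ((ng v : ℕ) : ℤ) ∣ d
  · have hex : ∃ Q ∈ Z, ((ng v : ℕ) : ℤ) ∣ Q := by
      rw [hd] at hpd
      exact (Prime.dvd_finset_prod_iff hpZ _).1 hpd
    obtain ⟨Q, hQ, hQp⟩ := hex
    have hQe := eq_of_dvd hp (hG Q hQ).pr hQp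
    have hdd : d = ((ng v : ℕ) : ℤ) * ∏ R ∈ Z.erase Q, R := by
      rw [hd, ← Finset.mul_prod_erase Z (fun R => R) hQ, hQe]
    have hd' : ¬ ((ng v : ℕ) : ℤ) ∣ ∏ R ∈ Z.erase Q, R := by
      intro hcon
      obtain ⟨R, hR, hRp⟩ := (Prime.dvd_finset_prod_iff hpZ _).1 hcon
      have hR' := Finset.mem_erase.1 hR
      exact hR'.1 ((eq_of_dvd hp (hG R hR'.2).pr hRp).trans hQe.symm)
    have hu0 := hz.u0 Q hQ
    have hb := (hG Q hQ).db
    have hns := (hG Q hQ).ns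
    rw [hQe] at hu0 hb hns
    exact cond_conv _ _ _ _ _ _ (cond_unr w hσ hL h hsf.ne_zero h2 hdd hd' hb hns hz.ne hr' hu0)
  have hev : ∀ 𝔓 : HeightOneSpectrum (𝓞 A), Ov ((ng v : ℕ) : ℤ) 𝔓 → Ev 𝔓 z := by
    intro 𝔓 h𝔓
    apply hz.ev 𝔓
    rintro Q hQ ⟨hQ1, -⟩
    apply hpd
    have h1 : ((ng v : ℕ) : ℤ) ∣ Q := by
      refine not_both hp ?_ hQ1
      have h3 : ((((ng v : ℕ) : ℤ)) : 𝓞 A) ∈ 𝔓.asIdeal := h𝔓
      exact_mod_cast h3
    rw [hd]
    exact h1.trans (Finset.dvd_prod_of_mem (fun R => R) hQ)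
  by_cases hds : ((ng v : ℕ) : ℤ) ∣ Pool.Agent.N922.PQ.dsc a b
  · exact cond_conv _ _ _ _ _ _ (cond_ram w hσ hL h hsf hd0 (five_le hF hp hds) hpd hds hz.ne hr'
      hev)
  · refine cond_conv _ _ _ _ _ _ (cond_gd (cf_of h hd0) ?_ v ?_ hz.ne hr' hev)
    · rw [Wt_disc]
      exact mul_ne_zero (mul_ne_zero (by norm_num) (pow_ne_zero 6 hd0)) hsf.ne_zero
    · rw [Wt_disc]
      intro hcon
      have e : (2 * (-16 * d ^ 6 * Pool.Agent.N922.PQ.dsc a b) : ℤ) =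
        2 ^ 5 * (d ^ 6 * -Pool.Agent.N922.PQ.dsc a b) := by ring
      rw [e] at hcon
      rcases hpZ.dvd_or_dvd hcon with h5 | h5
      · have h6 := hpZ.dvd_of_dvd_pow h5
        have h7 : ng v ∣ 2 := by exact_mod_cast h6
        exact h2 ((Nat.prime_dvd_prime_iff_eq hp Nat.prime_two).1 h7)
      · rcases hpZ.dvd_or_dvd h5 with h5 | h5
        · exact hpd (hpZ.dvd_of_dvd_pow h5)
        · rw [dvd_neg] at h5
          exact hds h5

end all

/-- no rational zero -/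
theorem no_rat {A : Type} [Field A] [NumberField A] {a b d : ℤ} {θ : A} (h : IsCub a b θ)
    (hd0 : d ≠ 0) (x : ℚ) : cub (sh (Wt a b d)) x ≠ 0 := by
  intro hx
  have hcf := cf_of h hd0
  let f := em hcf (⟨x, hx⟩ : Rt (sh (Wt a b d)) ℚ)
  have hinj : Function.Injective f := f.toRingHom.injective
  have h1 : Module.finrank ℚ A ≤ Module.finrank ℚ ℚ :=
    LinearMap.finrank_le_finrank_of_injective (f := f.toLinearMap) hinj
  rw [h.rank, Module.finrank_self] at h1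
  omega

end Pool.Agent.Helper29L.LOW

namespace Pool.Agent.Helper29L

open Pool.Agent.TH115.GD
open Pool.Agent.Y702.G (sh base pts)
open Pool.Agent.Helper29L.LOW
open Pool.Agent.H30EV (curve Coch ShaCocycle cob)

theorem gal_self : @IsGalois ℚ _ ℚ _ DivisionRing.toRatAlgebra := by
  rw [Subsingleton.elim (DivisionRing.toRatAlgebra : Algebra ℚ ℚ) (Algebra.id ℚ)]
  exact IsGalois.self ℚ

/-- **Job LOW.** -/
theorem slow : S_SLOW := by
  intro L _ _ a b θ Z d h hF hG hd n z hz hne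
  have hd8 : d % 8 = 1 := by
    rw [hd]
    exact prod_mod8 Z fun Q hQ => (hG Q hQ).m8
  have hd0 : d ≠ 0 := by
    rintro rfl
    norm_num at hd8
  have hpos : 0 < Pool.Agent.N922.PQ.dsc a b := by
    have h1 : 0 < a := hF.pos
    show 0 < 4 * a ^ 3 + 27 * b ^ 2
    positivity
  have hW : (Wt a b d).Δ < 0 := by
    rw [Wt_disc]
    have h6 : 0 < d ^ 6 := by positivity
    have := mul_pos h6 hpos
    nlinarith
  have hX : curve ℚ (a * d ^ 2, b * d ^ 3) = base (Wt a b d) ℚ := by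
    unfold curve base Wt
    ext <;> simp
  rw [hX]
  haveI := gal_self
  exact low_aux' ℚ hW (no_rat h hd0) (cf_of h hd0) z (fun i => (hz i).ne) (fun i => (hz i).norm)
    (fun i j hij => by
      by_contra hcon
      exact hne i j hcon hij)
    (fun i v => cond_all h hF hG hd (hz i) v)

end Pool.Agent.Helper29L
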