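import Pool.Agent.Helper29L.Stm
import Pool.Agent.H30GS.Sel
import Pool.Agent.N922.PQ.Final

/-!
# Job UP (helper30): the upper bound for the 2-Selmer group of a twist over `ℚ`
-/

set_option autoImplicit false
set_option linter.all false

open Polynomial IsDedekindDomain WeierstrassCurve WeierstrassCurve.Affine NumberField
open Pool.Agent.TH115.GD
open scoped Classical IntermediateField

namespace Pool.Agent.Helper29L

open Pool.Agent.N922.PQ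
open Pool.Agent.H30EV
open Pool.Agent.H30GR
open Pool.Agent.H30GS (unr_q res_q isGal_q finrank_q)
open Pool.Agent.N692.PMTOW
open Pool.Agent.N874.PP (Tup chA chB gq tau Two Ev Sq1 U0 sW IsBeta Rt sg)
open Pool.Agent.N874.PM (PLoc Lies SelR ShaR)
open Pool.Agent.Helper29K (InFamily)

section sel

variable {L : Type} [Field L] [NumberField L]

/-- The element of a Selmer class. -/
theorem sel_elem_b (H : Parts2) {a b : ℤ} {θ : L} {X' : ℕ} {S T J : Finset ℤ} {s A B : ℤ → ℤ}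
    (hc : IsCub a b θ) (hS : GoodS S s) (hF : Fam X' S s T A B a b) (hT : GoodT T A B)
    (hJ : J ⊆ S) (ha4 : a % 4 = 3) (hb4 : b % 4 = 3)
    {f : (Sep ℚ ≃ₐ[ℚ] Sep ℚ) → Pt (sW (((a * (∏ Q ∈ J, Q) ^ 2 : ℤ)) : ℚ)
      (((b * (∏ Q ∈ J, Q) ^ 3 : ℤ)) : ℚ)) (Sep ℚ)}
    (hf : IsCoc (sW (((a * (∏ Q ∈ J, Q) ^ 2 : ℤ)) : ℚ)
      (((b * (∏ Q ∈ J, Q) ^ 3 : ℤ)) : ℚ)) f) (h2f : ∀ σ, (2 : ℕ) • f σ = 0)
    (hloc : ∀ v : HeightOneSpectrum (𝓞 ℚ), LocTriv (sW (((a * (∏ Q ∈ J, Q) ^ 2 : ℤ)) : ℚ)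
      (((b * (∏ Q ∈ J, Q) ^ 3 : ℤ)) : ℚ)) (Comp (𝓞 ℚ) ℚ v) (Sep (Comp (𝓞 ℚ) ℚ v)) f) :
    ∃ (β : Sep ℚ → Sep ℚ) (h : ℚ[X]),
      IsBeta (((a * (∏ Q ∈ J, Q) ^ 2 : ℤ)) : ℚ) (((b * (∏ Q ∈ J, Q) ^ 3 : ℤ)) : ℚ) f β ∧
      (∀ t : Sep ℚ, Rt (((a * (∏ Q ∈ J, Q) ^ 2 : ℤ)) : ℚ) (((b * (∏ Q ∈ J, Q) ^ 3 : ℤ)) : ℚ) t →
        aeval t h = β t ^ 2) ∧
      aeval (((∏ Q ∈ J, Q : ℤ) : L) * θ) h ≠ 0 ∧
      IsSquare (Algebra.norm ℚ (aeval (((∏ Q ∈ J, Q : ℤ) : L) * θ) h)) ∧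
      Cs (𝓞 L) J (irr a b) θ (aeval (((∏ Q ∈ J, Q : ℤ) : L) * θ) h) ∧
      Loc2 a b θ (aeval (((∏ Q ∈ J, Q : ℤ) : L) * θ) h) := by
  haveI := isGal_q
  have hM := finrank_q
  have hΩ : Module.finrank ℚ L = 3 := hc.rank
  have h6M : (6 : ℚ) ≠ 0 := by norm_num
  have htop2 : im ℚ ℚ L ⊔ im ℚ L L = ⊤ := sup_top hM hc.rank hΩ
  have ha : Odd a := by
    rw [Int.odd_iff]
    omega
  have hb : Odd b := by
    rw [Int.odd_iff]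
    omega
  have hJT : ∀ Q ∈ J, Q ∉ irr a b := by
    rintro Q hQ h
    apply h.2 0
    have := hF.rb Q (hJ hQ)
    simpa using this
  have hTp : ∀ P ∈ irr a b, IsPr P := fun P hP => hP.1
  have h2T : (2 : ℤ) ∈ irr a b := ⟨(hT.2.2 2 hT.1).1, fam_nt hT hF hT.1⟩
  have h3T : (3 : ℤ) ∈ irr a b := ⟨(hT.2.2 3 hT.2.1).1, fam_nt hT hF hT.2.1⟩
  have hJp : ∀ Q ∈ J, IsPr Q := fun Q hQ => (hS Q (hJ hQ)).1
  have hnr : ∀ w : HeightOneSpectrum (𝓞 ℚ), Ov 2 w → ∀ t : w.adicCompletion ℚ,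
      t ^ 3 + (a : w.adicCompletion ℚ) * t + (b : w.adicCompletion ℚ) ≠ 0 :=
    fun w hw => H.nr ℚ (𝓞 ℚ) 0 hM w hw a b ha hb
  have hD1 : 0 < (∏ Q ∈ J, Q) := Finset.prod_pos fun Q hQ => (hS Q (hJ hQ)).1.1
  have hD0 : (∏ Q ∈ J, Q) ≠ 0 := hD1.ne'
  have hD8 : (∏ Q ∈ J, Q) % 8 = 1 := prod_mod8 fun Q hQ => (hS Q (hJ hQ)).2.1
  have hirrD : Irreducible (X ^ 3 + C (((a * (∏ Q ∈ J, Q) ^ 2 : ℤ)) : ℚ) * X +
      C (((b * (∏ Q ∈ J, Q) ^ 3 : ℤ)) : ℚ) : ℚ[X]) := by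
    obtain ⟨w₀, hw₀⟩ := exists_over (𝓞 ℚ)
    exact irr_tw' (F := ℚ) (a := a * (∏ Q ∈ J, Q) ^ 2) (b := b * (∏ Q ∈ J, Q) ^ 3)
      (fun t ht => by
        apply no_root_tw' (hnr w₀ hw₀) hD0 (algebraMap ℚ _ t)
        have h1 := congrArg (algebraMap ℚ (w₀.adicCompletion ℚ)) ht
        rw [map_zero, map_add, map_add, map_mul, map_pow, map_intCast, map_intCast] at h1
        exact h1)
  have hdisc : 4 * (((a * (∏ Q ∈ J, Q) ^ 2 : ℤ)) : ℚ) ^ 3 +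
      27 * (((b * (∏ Q ∈ J, Q) ^ 3 : ℤ)) : ℚ) ^ 2 ≠ 0 := by
    have e : 4 * (((a * (∏ Q ∈ J, Q) ^ 2 : ℤ)) : ℚ) ^ 3 +
      27 * (((b * (∏ Q ∈ J, Q) ^ 3 : ℤ)) : ℚ) ^ 2 =
        (((∏ Q ∈ J, Q) ^ 6 * dsc a b : ℤ) : ℚ) := by
      simp only [dsc, Int.cast_mul, Int.cast_add, Int.cast_pow, Int.cast_ofNat]
      ring
    rw [e, Int.cast_ne_zero]
    exact mul_ne_zero (pow_ne_zero _ hD0) hF.sq.ne_zero
  have hroot := hc.root
  have htop' : ℚ⟮θ⟯ = ⊤ := by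
    rw [eq_top_iff]
    intro x _
    obtain ⟨r, u, v, rfl⟩ := hc.gen x
    have h1 : θ ∈ ℚ⟮θ⟯ := IntermediateField.mem_adjoin_simple_self ℚ _
    have h3 : ∀ r : ℚ, (r : L) ∈ ℚ⟮θ⟯ := fun r => by
      have := ℚ⟮θ⟯.algebraMap_mem r
      simpa using this
    exact add_mem (add_mem (h3 r) (mul_mem (h3 u) h1)) (mul_mem (h3 v) (pow_mem h1 2))
  have hmin : minpoly ℚ θ = ff ℚ a b := by
    have hint : IsIntegral ℚ θ := Algebra.IsIntegral.isIntegral _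
    have hd : minpoly ℚ θ ∣ ff ℚ a b := by
      apply minpoly.dvd
      simp only [ff, map_add, map_mul, map_pow, aeval_X, aeval_C, map_intCast]
      exact hroot
    have hdeg : (minpoly ℚ θ).natDegree = 3 := by
      rw [(Field.primitive_element_iff_minpoly_natDegree_eq ℚ _).1 htop', hΩ]
    exact (Polynomial.eq_of_monic_of_dvd_of_natDegree_le (minpoly.monic hint) (ff_monic ℚ _ _)
      hd (by rw [hdeg, ff_deg])).symm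
  have hRt : Rt (((a * (∏ Q ∈ J, Q) ^ 2 : ℤ)) : ℚ) (((b * (∏ Q ∈ J, Q) ^ 3 : ℤ)) : ℚ)
      ((((∏ Q ∈ J, Q : ℤ)) : L) * θ) := by
    unfold Rt
    rw [map_intCast, map_intCast, Int.cast_mul a, Int.cast_mul b, Int.cast_pow, Int.cast_pow]
    linear_combination (((∏ Q ∈ J, Q : ℤ)) : L) ^ 3 * hroot
  obtain ⟨β, hβ⟩ := H.p.gb ℚ _ _ h6M hdisc hirrD f hf h2f
  obtain ⟨h, hh, hn⟩ := H.p.gn ℚ _ _ h6M hdisc hirrD f hf h2f β hβ
  have hn2 := hn L _ hRt hΩ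
  have hloc' : ∀ w : HeightOneSpectrum (𝓞 ℚ), ¬ Ov 2 w → @PLoc ℚ (w.adicCompletion ℚ) _ _
      (HeightOneSpectrum.instAlgebraAdicCompletion (𝓞 ℚ) ℚ w)
      (((a * ((1 : ℤ) * ∏ Q ∈ J, Q) ^ 2 : ℤ)) : ℚ) (((b * ((1 : ℤ) * ∏ Q ∈ J, Q) ^ 3 : ℤ)) : ℚ)
      h := by
    intro w hw
    have := H.p.glr ℚ (𝓞 ℚ) _ _ h6M hdisc f hf h2f β h hβ hh w (val_two hw) (hloc w)
    rw [one_mul]
    exact this
  have hcs := cs_topR (Ω := L) (d := 1) H.p.exq H.p.lie H.p.loc1 H.p.loc2 htop2 hc hS hF hJ hTp hJT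
    h2T h3T (fun P hP _ => unr_q hP) (fun Q hQ => res_q (hJp Q hQ)) (fun P hP hP1 => by
      exact absurd (isUnit_of_dvd_one hP1) hP.2.not_unit) (h := h)
    hloc' (by rw [one_mul]; exact hn2.1)
  refine ⟨β, h, hβ, hh, hn2.1, hn2.2, by rw [one_mul] at hcs; exact hcs, ?_⟩
  -- the condition at two
  have hc2 := c2w_sel (𝓞 ℚ) H.p.glr2 H.sqd H.twg hD0 hD8 hnr hmin hdisc f hf h2f β h hβ hh hloc
  refine base_two' (M := ℚ) (Ω := L) (d := 1) hc ha4 hb4 (Or.inl (by norm_num)) unr_rat hn2.1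
    hn2.2 ?_
  simp only [one_pow, mul_one, Int.cast_one, one_mul]
  exact hc2

end sel

/-- The family gives the data of the project PQ. -/
theorem fam_of {a b : ℤ} (hF : InFamily (a, b)) {Z : Finset ℤ} (hZ : ∀ Q ∈ Z, Gp a b Q) :
    ∃ X : ℕ, Fam X Z (fun _ => a) {2, 3} (fun _ => a) (fun _ => b) a b ∧
      GoodS Z (fun _ => a) ∧ GoodT {2, 3} (fun _ => a) (fun _ => b) := by
  have hpos : 0 < a := hF.pos
  refine ⟨a.natAbs + b.natAbs + 1, ⟨hF.pos, ?_, ?_, fun Q _ => ?_, fun Q hQ => (hZ Q hQ).db,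
    fun P _ => ?_, fun P _ => ?_, hF.sqfree⟩, fun Q hQ => ⟨(hZ Q hQ).pr, (hZ Q hQ).m8, (hZ Q hQ).ns⟩,
    ⟨Finset.mem_insert_self _ _, Finset.mem_insert_of_mem (Finset.mem_singleton_self _), ?_⟩⟩
  · push_cast
    have h1 : a ≤ |a| := le_abs_self a
    nlinarith [abs_nonneg a, abs_nonneg b]
  · push_cast
    have h0 : 1 ≤ (|a| + |b| + 1) ^ 2 := by nlinarith [abs_nonneg a, abs_nonneg b]
    have h1 : (|a| + |b| + 1) ^ 3 = (|a| + |b| + 1) * (|a| + |b| + 1) ^ 2 := by ring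
    rw [h1]
    nlinarith [abs_nonneg a, abs_nonneg b]
  · simp
  · simp
  · simp
  · intro P hP
    rw [Finset.mem_insert, Finset.mem_singleton] at hP
    rcases hP with rfl | rfl
    · exact ⟨Pool.Agent.Helper29K.isPr_two, Pool.Agent.Helper29K.nz_two hF.a_four hF.b_four⟩
    · exact ⟨Pool.Agent.Helper29K.isPr_three, fun z => by
        have := hF.three z
        exact_mod_cast this⟩

/-- **Job UP.** -/
theorem sup : S_SUP := by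
  intro L _ _ a b θ Z d hc hFam hZ hd N hN m z hz h2z hlz hdiff
  subst hd
  obtain ⟨X', hF, hS, hT⟩ := fam_of hFam hZ
  have H : Parts2 := parts2
  choose β h hβ hh hx0 hxN hxC hx2 using fun i =>
    sel_elem_b H hc hS hF hT (Finset.Subset.refl Z) hFam.a_four hFam.b_four (hz i) (h2z i) (hlz i)
  refine hN m (fun i => aeval (((∏ Q ∈ Z, Q : ℤ) : L) * θ) (h i)) (fun i => ?_) (fun i j hij hsq => ?_)
  · refine ⟨⟨hx0 i, hxN i, hx2 i, fun 𝔓 h𝔓 => ?_⟩, fun Q hQ 𝔓 h1 h2 => (hxC i).u0 Q hQ 𝔓 h1 h2⟩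
    by_cases h1 : ∃ Q ∈ Z, Ov Q 𝔓
    · obtain ⟨Q, hQ, hO⟩ := h1
      refine (hxC i).eq Q hQ 𝔓 hO (lt_of_le_of_ne ?_ fun h2 => h𝔓 Q hQ ⟨hO, h2⟩)
      have hint : _root_.IsIntegral ℤ θ := by
        refine ⟨X ^ 3 + C a * X + C b, by monicity!, ?_⟩
        have h3 := hc.root
        rw [← aeval_def, map_add, map_add, map_mul, map_pow, aeval_X, aeval_C, aeval_C]
        simpa only [eq_intCast, map_intCast] using h3
      obtain ⟨t, rfl⟩ : ∃ t : 𝓞 L, algebraMap (𝓞 L) L t = θ := ⟨⟨θ, hint⟩, rfl⟩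
      exact HeightOneSpectrum.valuation_le_one 𝔓 t
    · by_cases h2 : ∃ P ∈ irr a b, Ov P 𝔓
      · obtain ⟨P, hP, hO⟩ := h2
        exact H.p.p3 L (𝓞 L) a b θ hc hF.sq P hP.1.2 hP.2 _ (hx0 i) (hxN i) 𝔓 hO
      · push Not at h1 h2
        exact (hxC i).ev 𝔓 h2 h1
  · apply hij
    apply hdiff
    have h6M : (6 : ℚ) ≠ 0 := by norm_num
    have hnr : ∀ w : HeightOneSpectrum (𝓞 ℚ), Ov 2 w → ∀ t : w.adicCompletion ℚ,
        t ^ 3 + (a : w.adicCompletion ℚ) * t + (b : w.adicCompletion ℚ) ≠ 0 := by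
      haveI := isGal_q
      have ha4 := hFam.a_four
      have hb4 := hFam.b_four
      exact fun w hw => H.nr ℚ (𝓞 ℚ) 0 finrank_q w hw a b
        (by rw [Int.odd_iff]; simp only at ha4; omega) (by rw [Int.odd_iff]; simp only at hb4; omega)
    have hD1 : 0 < (∏ Q ∈ Z, Q) := Finset.prod_pos fun Q hQ => (hS Q hQ).1.1
    have hD0 : (∏ Q ∈ Z, Q) ≠ 0 := hD1.ne'
    have hirrD : Irreducible (X ^ 3 + C (((a * (∏ Q ∈ Z, Q) ^ 2 : ℤ)) : ℚ) * X +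
        C (((b * (∏ Q ∈ Z, Q) ^ 3 : ℤ)) : ℚ) : ℚ[X]) := by
      obtain ⟨w₀, hw₀⟩ := exists_over (𝓞 ℚ)
      exact irr_tw' (F := ℚ) (a := a * (∏ Q ∈ Z, Q) ^ 2) (b := b * (∏ Q ∈ Z, Q) ^ 3)
        (fun t ht => by
          apply no_root_tw' (hnr w₀ hw₀) hD0 (algebraMap ℚ _ t)
          have h1 := congrArg (algebraMap ℚ (w₀.adicCompletion ℚ)) ht
          rw [map_zero, map_add, map_add, map_mul, map_pow, map_intCast, map_intCast] at h1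
          exact h1)
    have hdisc : 4 * (((a * (∏ Q ∈ Z, Q) ^ 2 : ℤ)) : ℚ) ^ 3 +
        27 * (((b * (∏ Q ∈ Z, Q) ^ 3 : ℤ)) : ℚ) ^ 2 ≠ 0 := by
      have e : 4 * (((a * (∏ Q ∈ Z, Q) ^ 2 : ℤ)) : ℚ) ^ 3 +
        27 * (((b * (∏ Q ∈ Z, Q) ^ 3 : ℤ)) : ℚ) ^ 2 =
          (((∏ Q ∈ Z, Q) ^ 6 * dsc a b : ℤ) : ℚ) := by
        simp only [dsc, Int.cast_mul, Int.cast_add, Int.cast_pow, Int.cast_ofNat]
        ring
      rw [e, Int.cast_ne_zero]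
      exact mul_ne_zero (pow_ne_zero _ hD0) hF.sq.ne_zero
    have hroot := hc.root
    have hRt : Rt (((a * (∏ Q ∈ Z, Q) ^ 2 : ℤ)) : ℚ) (((b * (∏ Q ∈ Z, Q) ^ 3 : ℤ)) : ℚ)
        ((((∏ Q ∈ Z, Q : ℤ)) : L) * θ) := by
      unfold Rt
      rw [map_intCast, map_intCast, Int.cast_mul a, Int.cast_mul b, Int.cast_pow, Int.cast_pow]
      linear_combination (((∏ Q ∈ Z, Q : ℤ)) : L) ^ 3 * hroot
    obtain ⟨T', hT', hT2⟩ := H.p.gt ℚ _ _ h6M hdisc hirrD (fun σ => z i σ - z j σ)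
      (coc_sub (hz i) (hz j)) (fun σ => by rw [nsmul_sub, h2z, h2z, sub_zero])
      (fun t => β i t * β j t) (h i * h j)
      (beta_sub h6M hdisc hirrD (h2z i) (h2z j) (hβ i) (hβ j))
      (fun t ht => by rw [map_mul, hh i t ht, hh j t ht, mul_pow]) L _ hRt hc.rank
      (by rw [map_mul]; exact hsq)
    exact ⟨T', hT', hT2⟩

end Pool.Agent.Helper29L
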