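import Pool.Agent.Helper29L.Stm2

/-! # Project PR (helper29), job LIN: the dimension of `V ∩ W_Z` changes by one when a prime is added (helper28) -/

set_option autoImplicit false
set_option linter.all false

open Finset Filter
open scoped Classical

namespace Pool.Agent.Helper29L

/-- a functional which does not vanish on `N` -/
theorem Lin.ker_rank {E : Type} [AddCommGroup E] [Module (ZMod 2) E] [FiniteDimensional (ZMod 2) E]
    (N : Submodule (ZMod 2) E) (f : E →ₗ[ZMod 2] ZMod 2) (h : ∃ v ∈ N, f v ≠ 0) :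
    Module.finrank (ZMod 2) (N ⊓ LinearMap.ker f : Submodule (ZMod 2) E) + 1 =
      Module.finrank (ZMod 2) N := by
  obtain ⟨v, hv, hf⟩ := h
  have e1 : Submodule.map N.subtype (LinearMap.ker (f.domRestrict N)) = N ⊓ LinearMap.ker f := by
    ext x
    simp only [Submodule.mem_map, LinearMap.mem_ker, LinearMap.domRestrict_apply, Submodule.mem_inf,
      Submodule.subtype_apply]
    constructor
    · rintro ⟨y, hy, rfl⟩
      exact ⟨y.2, hy⟩
    · rintro ⟨h1, h2⟩
      exact ⟨⟨x, h1⟩, h2, rfl⟩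
  have e2 : Module.finrank (ZMod 2) (N ⊓ LinearMap.ker f : Submodule (ZMod 2) E) =
      Module.finrank (ZMod 2) (LinearMap.ker (f.domRestrict N)) := by
    rw [← e1]
    exact Submodule.finrank_map_subtype_eq _ _
  have e3 := LinearMap.finrank_range_add_finrank_ker (f.domRestrict N)
  have e4 : LinearMap.range (f.domRestrict N) = ⊤ := by
    apply LinearMap.range_eq_top.2
    apply LinearMap.surjective
    intro h0
    apply hf
    have := LinearMap.congr_fun h0 ⟨v, hv⟩
    simpa using this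
  rw [e4, finrank_top, Module.finrank_self] at e3
  omega

namespace Lin

variable {S : Type} [Fintype S]

/-- the bilinear form `∑ (e u' + u e')` -/
noncomputable def bf : LinearMap.BilinForm (ZMod 2) (S → ZMod 2 × ZMod 2) :=
  LinearMap.mk₂ (ZMod 2) (fun v w => ∑ Q, ((v Q).1 * (w Q).2 + (v Q).2 * (w Q).1))
    (fun v v' w => by
      rw [← sum_add_distrib]
      refine sum_congr rfl fun Q _ => ?_
      simp only [Pi.add_apply, Prod.fst_add, Prod.snd_add]
      ring)
    (fun c v w => by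
      rw [smul_eq_mul, mul_sum]
      refine sum_congr rfl fun Q _ => ?_
      simp only [Pi.smul_apply, Prod.smul_fst, Prod.smul_snd, smul_eq_mul]
      ring)
    (fun v w w' => by
      rw [← sum_add_distrib]
      refine sum_congr rfl fun Q _ => ?_
      simp only [Pi.add_apply, Prod.fst_add, Prod.snd_add]
      ring)
    (fun c v w => by
      rw [smul_eq_mul, mul_sum]
      refine sum_congr rfl fun Q _ => ?_
      simp only [Pi.smul_apply, Prod.smul_fst, Prod.smul_snd, smul_eq_mul]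
      ring)

theorem bf_apply (v w : S → ZMod 2 × ZMod 2) :
    bf v w = ∑ Q, ((v Q).1 * (w Q).2 + (v Q).2 * (w Q).1) := rfl

theorem bf_symm (v w : S → ZMod 2 × ZMod 2) : bf v w = bf w v := by
  rw [bf_apply, bf_apply]
  refine sum_congr rfl fun Q _ => ?_
  ring

theorem bf_single (v : S → ZMod 2 × ZMod 2) (Q : S) (x : ZMod 2 × ZMod 2) :
    bf (Pi.single Q x) v = x.1 * (v Q).2 + x.2 * (v Q).1 := by
  rw [bf_apply, sum_eq_single Q]
  · simp
  · intro b _ hb
    rw [Pi.single_eq_of_ne hb]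
    simp
  · intro h
    exact absurd (mem_univ _) h

theorem bf_refl : (bf (S := S)).IsRefl := by
  intro v w h
  rw [bf_symm]
  exact h

theorem bf_nondeg : (bf (S := S)).Nondegenerate := by
  have h1 : ∀ v : S → ZMod 2 × ZMod 2, (∀ w, bf w v = 0) → v = 0 := by
    intro v h
    funext Q
    have h2 := h (Pi.single Q (1, 0))
    have h3 := h (Pi.single Q (0, 1))
    rw [bf_single] at h2 h3
    simp only [one_mul, zero_mul, add_zero, zero_add] at h2 h3
    exact Prod.ext h3 h2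
  exact ⟨fun v h => h1 v fun w => by rw [bf_symm]; exact h w, h1⟩

theorem rank_E : Module.finrank (ZMod 2) (S → ZMod 2 × ZMod 2) = 2 * Fintype.card S := by
  rw [Module.finrank_pi_fintype]
  simp [mul_comm]

/-- polarization -/
theorem bf_zero {V : Submodule (ZMod 2) (S → ZMod 2 × ZMod 2)}
    (hV : ∀ v ∈ V, ∑ Q, (v Q).1 * (v Q).2 = 0) {v w : S → ZMod 2 × ZMod 2} (hv : v ∈ V)
    (hw : w ∈ V) : bf v w = 0 := by
  have h1 := hV _ (V.add_mem hv hw)
  have h2 := hV _ hv
  have h3 := hV _ hw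
  have h4 : ∑ Q, ((v + w) Q).1 * ((v + w) Q).2 =
      ∑ Q, (v Q).1 * (v Q).2 + ∑ Q, (w Q).1 * (w Q).2 + bf v w := by
    rw [bf_apply, ← sum_add_distrib, ← sum_add_distrib]
    refine sum_congr rfl fun Q _ => ?_
    simp only [Pi.add_apply, Prod.fst_add, Prod.snd_add]
    ring
  rw [h1, h2, h3, zero_add, zero_add] at h4
  exact h4.symm

/-- a maximal totally singular space is its own orthogonal space -/
theorem self_orth {V : Submodule (ZMod 2) (S → ZMod 2 × ZMod 2)}
    (hV : ∀ v ∈ V, ∑ Q, (v Q).1 * (v Q).2 = 0) (hd : Fintype.card S ≤ Module.finrank (ZMod 2) V) :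
    bf.orthogonal V = V ∧ Module.finrank (ZMod 2) V = Fintype.card S := by
  have h1 : V ≤ bf.orthogonal V := by
    intro w hw v hv
    exact bf_zero hV hv hw
  have h2 : Module.finrank (ZMod 2) (bf.orthogonal V) =
      2 * Fintype.card S - Module.finrank (ZMod 2) V := by
    rw [LinearMap.BilinForm.finrank_orthogonal bf_nondeg, rank_E]
  have h3 := Submodule.finrank_mono h1
  have h4 : Module.finrank (ZMod 2) V ≤ 2 * Fintype.card S := by
    rw [← rank_E (S := S)]
    exact Submodule.finrank_le V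
  refine ⟨(Submodule.eq_of_le_of_finrank_le h1 (by omega)).symm, by omega⟩

/-- the coordinates -/
def pe (q : S) : (S → ZMod 2 × ZMod 2) →ₗ[ZMod 2] ZMod 2 :=
  (LinearMap.fst (ZMod 2) (ZMod 2) (ZMod 2)).comp (LinearMap.proj q)

def pu (q : S) : (S → ZMod 2 × ZMod 2) →ₗ[ZMod 2] ZMod 2 :=
  (LinearMap.snd (ZMod 2) (ZMod 2) (ZMod 2)).comp (LinearMap.proj q)

theorem pe_apply (q : S) (v : S → ZMod 2 × ZMod 2) : pe q v = (v q).1 := rfl

theorem pu_apply (q : S) (v : S → ZMod 2 × ZMod 2) : pu q v = (v q).2 := rfl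

/-- `M` -/
def MM (Z : Finset S) (q : S) : Submodule (ZMod 2) (S → ZMod 2 × ZMod 2) where
  carrier := {v | (∀ Q, Q ∉ Z → (v Q).1 = 0) ∧ (∀ Q, Q ∈ Z → (v Q).2 = 0) ∧ (v q).2 = 0}
  zero_mem' := ⟨fun _ _ => rfl, fun _ _ => rfl, rfl⟩
  add_mem' {v w} hv hw := ⟨fun Q hQ => by rw [Pi.add_apply, Prod.fst_add, hv.1 Q hQ, hw.1 Q hQ, add_zero],
    fun Q hQ => by rw [Pi.add_apply, Prod.snd_add, hv.2.1 Q hQ, hw.2.1 Q hQ, add_zero],
    by rw [Pi.add_apply, Prod.snd_add, hv.2.2, hw.2.2, add_zero]⟩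
  smul_mem' c v hv := ⟨fun Q hQ => by rw [Pi.smul_apply, Prod.smul_fst, hv.1 Q hQ, smul_zero],
    fun Q hQ => by rw [Pi.smul_apply, Prod.smul_snd, hv.2.1 Q hQ, smul_zero],
    by rw [Pi.smul_apply, Prod.smul_snd, hv.2.2, smul_zero]⟩

theorem MM_rank (Z : Finset S) (q : S) (hq : q ∉ Z) :
    Module.finrank (ZMod 2) (MM Z q) < Fintype.card S := by
  -- the map `v ↦ (e_Q (Q ∈ Z), u_Q (Q ∉ Z))`
  let φ : (S → ZMod 2 × ZMod 2) →ₗ[ZMod 2] (S → ZMod 2) :=
    LinearMap.pi fun Q => if Q ∈ Z then pe Q else pu Q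
  have hφ : ∀ v Q, φ v Q = if Q ∈ Z then (v Q).1 else (v Q).2 := by
    intro v Q
    show (if Q ∈ Z then pe Q else pu Q) v = _
    split_ifs <;> rfl
  let ψ : MM Z q →ₗ[ZMod 2] LinearMap.ker (LinearMap.proj (R := ZMod 2) (φ := fun _ : S => ZMod 2) q) :=
    (φ.comp (MM Z q).subtype).codRestrict _ fun v => by
      rw [LinearMap.mem_ker]
      show φ v.1 q = 0
      rw [hφ, if_neg hq]
      exact v.2.2.2
  have hψ : Function.Injective ψ := by
    rw [← LinearMap.ker_eq_bot, LinearMap.ker_eq_bot']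
    intro v hv
    have h1 : ∀ Q, φ v.1 Q = 0 := fun Q => by
      have := congrArg Subtype.val hv
      exact congrFun this Q
    apply Subtype.ext
    funext Q
    have h2 := h1 Q
    rw [hφ] at h2
    by_cases hQ : Q ∈ Z
    · rw [if_pos hQ] at h2
      exact Prod.ext h2 (v.2.2.1 Q hQ)
    · rw [if_neg hQ] at h2
      exact Prod.ext (v.2.1 Q hQ) h2
  have h3 := LinearMap.finrank_le_finrank_of_injective hψ
  have h4 : Module.finrank (ZMod 2) (LinearMap.ker (LinearMap.proj (R := ZMod 2) (φ := fun _ : S => ZMod 2) q)) + 1 =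
      Module.finrank (ZMod 2) (⊤ : Submodule (ZMod 2) (S → ZMod 2)) := by
    have := ker_rank (⊤ : Submodule (ZMod 2) (S → ZMod 2))
      (LinearMap.proj (R := ZMod 2) (φ := fun _ : S => ZMod 2) q)
      ⟨Pi.single q 1, trivial, by simp⟩
    rw [top_inf_eq] at this
    exact this
  rw [finrank_top, Module.finrank_fintype_fun_eq_card] at h4
  omega

/-- `N` -/
def NN' (V : Submodule (ZMod 2) (S → ZMod 2 × ZMod 2)) (Z : Finset S) (q : S) :
    Submodule (ZMod 2) (S → ZMod 2 × ZMod 2) where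
  carrier := {v | v ∈ V ∧ (∀ Q, Q ∉ Z → Q ≠ q → (v Q).1 = 0) ∧ ∀ Q, Q ∈ Z → (v Q).2 = 0}
  zero_mem' := ⟨V.zero_mem, fun _ _ _ => rfl, fun _ _ => rfl⟩
  add_mem' {v w} hv hw := ⟨V.add_mem hv.1 hw.1,
    fun Q hQ hq => by rw [Pi.add_apply, Prod.fst_add, hv.2.1 Q hQ hq, hw.2.1 Q hQ hq, add_zero],
    fun Q hQ => by rw [Pi.add_apply, Prod.snd_add, hv.2.2 Q hQ, hw.2.2 Q hQ, add_zero]⟩
  smul_mem' c v hv := ⟨V.smul_mem c hv.1,
    fun Q hQ hq => by rw [Pi.smul_apply, Prod.smul_fst, hv.2.1 Q hQ hq, smul_zero],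
    fun Q hQ => by rw [Pi.smul_apply, Prod.smul_snd, hv.2.2 Q hQ, smul_zero]⟩

theorem WZ_eq (V : Submodule (ZMod 2) (S → ZMod 2 × ZMod 2)) (Z : Finset S) (q : S) (hq : q ∉ Z) :
    WZ V Z = NN' V Z q ⊓ LinearMap.ker (pe q) := by
  ext v
  rw [Submodule.mem_inf, LinearMap.mem_ker, pe_apply]
  constructor
  · rintro ⟨h1, h2, h3⟩
    exact ⟨⟨h1, fun Q hQ _ => h2 Q hQ, h3⟩, h2 q hq⟩
  · rintro ⟨⟨h1, h2, h3⟩, h4⟩
    refine ⟨h1, fun Q hQ => ?_, h3⟩
    by_cases h : Q = q
    · rw [h]; exact h4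
    · exact h2 Q hQ h

theorem WZ_insert (V : Submodule (ZMod 2) (S → ZMod 2 × ZMod 2)) (Z : Finset S) (q : S) :
    WZ V (insert q Z) = NN' V Z q ⊓ LinearMap.ker (pu q) := by
  ext v
  rw [Submodule.mem_inf, LinearMap.mem_ker, pu_apply]
  constructor
  · rintro ⟨h1, h2, h3⟩
    refine ⟨⟨h1, fun Q hQ hQq => h2 Q ?_, fun Q hQ => h3 Q (mem_insert_of_mem hQ)⟩,
      h3 q (mem_insert_self _ _)⟩
    rw [mem_insert]
    rintro (h | h)
    · exact hQq h
    · exact hQ h
  · rintro ⟨⟨h1, h2, h3⟩, h4⟩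
    refine ⟨h1, fun Q hQ => ?_, fun Q hQ => ?_⟩
    · rw [mem_insert, not_or] at hQ
      exact h2 Q hQ.2 hQ.1
    · rcases mem_insert.1 hQ with h | h
      · rw [h]; exact h4
      · exact h3 Q h

/-- the product of the coordinates at `q` vanishes on `N` -/
theorem prod_zero {V : Submodule (ZMod 2) (S → ZMod 2 × ZMod 2)}
    (hV : ∀ v ∈ V, ∑ Q, (v Q).1 * (v Q).2 = 0) {Z : Finset S} {q : S}
    {v : S → ZMod 2 × ZMod 2} (hv : v ∈ NN' V Z q) : (v q).1 * (v q).2 = 0 := by
  have h1 := hV v hv.1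
  rw [sum_eq_single q] at h1
  · exact h1
  · intro Q _ hQ
    by_cases h : Q ∈ Z
    · rw [hv.2.2 Q h, mul_zero]
    · rw [hv.2.1 Q h hQ, zero_mul]
  · intro h
    exact absurd (mem_univ _) h

/-- the image of `N` is not zero -/
theorem exists_ne {V : Submodule (ZMod 2) (S → ZMod 2 × ZMod 2)}
    (hV : ∀ v ∈ V, ∑ Q, (v Q).1 * (v Q).2 = 0) (hd : Fintype.card S ≤ Module.finrank (ZMod 2) V)
    (Z : Finset S) (q : S) (hq : q ∉ Z) : ∃ v ∈ NN' V Z q, (v q).1 ≠ 0 ∨ (v q).2 ≠ 0 := by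
  by_contra hcon
  push Not at hcon
  obtain ⟨h1, h2⟩ := self_orth hV hd
  have h3 := MM_rank Z q hq
  have h4 := Submodule.finrank_sup_add_finrank_inf_eq V (MM Z q)
  have h5 : Module.finrank (ZMod 2) (bf.orthogonal (V ⊔ MM Z q)) =
      2 * Fintype.card S - Module.finrank (ZMod 2) (V ⊔ MM Z q : Submodule _ _) := by
    rw [LinearMap.BilinForm.finrank_orthogonal bf_nondeg, rank_E]
  have h6 : bf.orthogonal (V ⊔ MM Z q) ≤ V ⊓ MM Z q := by
    intro w hw
    have hwV : w ∈ V := by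
      rw [← h1]
      intro v hv
      exact hw v (Submodule.mem_sup_left hv)
    have hwN : w ∈ NN' V Z q := by
      refine ⟨hwV, fun Q hQ hQq => ?_, fun Q hQ => ?_⟩
      · have h7 := hw (Pi.single Q (0, 1)) (Submodule.mem_sup_right ⟨?_, ?_, ?_⟩)
        · have h8 : bf (Pi.single Q (0, 1)) w = 0 := h7
          rw [bf_single] at h8
          simpa using h8
        · intro R hR
          by_cases h : R = Q
          · rw [h, Pi.single_eq_same]
          · rw [Pi.single_eq_of_ne h]; rfl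
        · intro R hR
          have h : R ≠ Q := fun h => hQ (h ▸ hR)
          rw [Pi.single_eq_of_ne h]; rfl
        · rw [Pi.single_eq_of_ne (Ne.symm hQq)]; rfl
      · have h7 := hw (Pi.single Q (1, 0)) (Submodule.mem_sup_right ⟨?_, ?_, ?_⟩)
        · have h8 : bf (Pi.single Q (1, 0)) w = 0 := h7
          rw [bf_single] at h8
          simpa using h8
        · intro R hR
          have h : R ≠ Q := fun h => hR (h ▸ hQ)
          rw [Pi.single_eq_of_ne h]; rfl
        · intro R hR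
          by_cases h : R = Q
          · rw [h, Pi.single_eq_same]
          · rw [Pi.single_eq_of_ne h]; rfl
        · rw [Pi.single_eq_of_ne (fun h : q = Q => hq (h.symm ▸ hQ))]; rfl
    obtain ⟨h9, h10⟩ := hcon w hwN
    refine ⟨hwV, fun Q hQ => ?_, hwN.2.2, h10⟩
    by_cases h : Q = q
    · rw [h]; exact h9
    · exact hwN.2.1 Q hQ h
  have h7 := Submodule.finrank_mono h6
  have h8 : Module.finrank (ZMod 2) (V ⊔ MM Z q : Submodule _ _) ≤ 2 * Fintype.card S := by
    rw [← rank_E (S := S)]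
    exact Submodule.finrank_le _
  omega

end Lin

open Lin in
/-- **Job LIN.** -/
theorem lin2 : S_LIN2 := by
  intro S _ V hV hd Z q hq
  rw [WZ_insert V Z q, WZ_eq V Z q hq]
  obtain ⟨w, hw, hne⟩ := exists_ne hV hd Z q hq
  have hz : ∀ x : ZMod 2, x ≠ 0 → x = 1 := by decide
  by_cases hA : ∀ v ∈ NN' V Z q, (v q).1 = 0
  · have hu : (w q).2 ≠ 0 := by
      rcases hne with h | h
      · exact absurd (hA w hw) h
      · exact h
    have e1 : NN' V Z q ⊓ LinearMap.ker (pe q) = NN' V Z q := by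
      rw [inf_eq_left]
      intro v hv
      rw [LinearMap.mem_ker, pe_apply]
      exact hA v hv
    have e2 := ker_rank (NN' V Z q) (pu q) ⟨w, hw, hu⟩
    rw [e1]
    refine ⟨fun h => absurd (h w hw) hu, fun _ => e2⟩
  · push Not at hA
    obtain ⟨w1, hw1, he⟩ := hA
    have h0 : ∀ v ∈ NN' V Z q, (v q).2 = 0 := by
      intro v hv
      by_contra hcon
      have h1 := prod_zero hV hv
      have h2 : (v q).1 = 0 := by
        rcases mul_eq_zero.1 h1 with h | h
        · exact h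
        · exact absurd h hcon
      have h3 := prod_zero hV hw1
      have h4 : (w1 q).2 = 0 := by
        rcases mul_eq_zero.1 h3 with h | h
        · exact absurd h he
        · exact h
      have h5 := prod_zero hV ((NN' V Z q).add_mem hv hw1)
      rw [Pi.add_apply, Prod.fst_add, Prod.snd_add, h2, h4, zero_add, add_zero] at h5
      rcases mul_eq_zero.1 h5 with h | h
      · exact he h
      · exact hcon h
    have e1 : NN' V Z q ⊓ LinearMap.ker (pu q) = NN' V Z q := by
      rw [inf_eq_left]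
      intro v hv
      rw [LinearMap.mem_ker, pu_apply]
      exact h0 v hv
    have e2 := ker_rank (NN' V Z q) (pe q) ⟨w1, hw1, he⟩
    rw [e1]
    refine ⟨fun _ => e2.symm, fun h => ?_⟩
    obtain ⟨v, hv, hv2⟩ := h
    exact absurd (h0 v hv.1) hv2
end Pool.Agent.Helper29L
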