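import Pool.Agent.Helper29L.Stm2

/-!
# Project PR (helper29), Job FAN (helper90): the distribution of `r` on a fan is nearly that of the chain
-/

set_option autoImplicit false
set_option linter.all false

open Finset Filter
open scoped Classical

namespace Pool.Agent.Helper29L.FanT

open Pool.Agent.Helper29L (chain S_FAN)


lemma chain_mem (k r n : ℕ) : 0 ≤ chain k r n ∧ chain k r n ≤ 1 := by
  induction k generalizing r with
  | zero =>
    unfold chain
    split_ifs <;> norm_num
  | succ k ih =>
    have h1 := ih (r + 1)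
    have h2 := ih (r - 1)
    have h3 : (0 : ℝ) ≤ (1 / 2) ^ r := by positivity
    have h4 : ((1 / 2 : ℝ)) ^ r ≤ 1 := pow_le_one₀ (by norm_num) (by norm_num)
    unfold chain
    constructor
    · have := mul_nonneg h3 h1.1
      have := mul_nonneg (sub_nonneg.2 h4) h2.1
      linarith
    · nlinarith

lemma card_cons (k : ℕ) (A : ℕ → Finset ℕ) (P : (Fin (k + 1) → ℕ) → Prop) [DecidablePred P] :
    ((Fintype.piFinset fun i : Fin (k + 1) => A i).filter P).card =
      ∑ q ∈ A 0, ((Fintype.piFinset fun i : Fin k => A (i + 1)).filter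
        fun Q => P (Fin.cons q Q)).card := by
  rw [Finset.card_eq_sum_card_fiberwise (f := fun Q : Fin (k + 1) → ℕ => Q 0) (t := A 0)]
  · refine Finset.sum_congr rfl fun q hq => ?_
    refine Finset.card_bij' (fun Q _ => Fin.tail Q) (fun Q _ => Fin.cons q Q) ?_ ?_ ?_ ?_
    · intro Q hQ
      rw [Finset.mem_filter, Finset.mem_filter, Fintype.mem_piFinset] at hQ
      obtain ⟨⟨h1, h2⟩, h3⟩ := hQ
      rw [Finset.mem_filter, Fintype.mem_piFinset]
      refine ⟨fun i => ?_, ?_⟩
      · have := h1 i.succ
        simpa [Fin.tail] using this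
      · rw [← h3, Fin.cons_self_tail]
        exact h2
    · intro Q hQ
      rw [Finset.mem_filter, Fintype.mem_piFinset] at hQ
      obtain ⟨h1, h2⟩ := hQ
      rw [Finset.mem_filter, Finset.mem_filter, Fintype.mem_piFinset]
      refine ⟨⟨fun i => ?_, h2⟩, Fin.cons_zero _ _⟩
      refine Fin.cases ?_ (fun j => ?_) i
      · simpa using hq
      · have := h1 j
        simpa using this
    · intro Q hQ
      rw [Finset.mem_filter] at hQ
      show Fin.cons q (Fin.tail Q) = Q
      rw [← hQ.2, Fin.cons_self_tail]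
    · intro Q hQ
      exact Fin.tail_cons _ _
  · intro Q hQ
    have hQ' := Finset.mem_filter.1 (Finset.mem_coe.1 hQ)
    have := Fintype.mem_piFinset.1 hQ'.1 0
    simpa using this

lemma image_cons (k : ℕ) (q : ℕ) (Q : Fin k → ℕ) :
    (univ.image (Fin.cons q Q : Fin (k + 1) → ℕ)) = insert q (univ.image Q) := by
  ext x
  simp only [Finset.mem_image, Finset.mem_univ, true_and, Finset.mem_insert]
  constructor
  · rintro ⟨i, hi⟩
    revert hi
    refine Fin.cases ?_ (fun j => ?_) i
    · intro h
      left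
      simpa using h.symm
    · intro h
      right
      exact ⟨j, by simpa using h⟩
  · rintro (h | ⟨j, h⟩)
    · exact ⟨0, by simpa using h.symm⟩
    · exact ⟨j.succ, by simpa using h⟩

lemma fan_gen (k : ℕ) : ∀ (A : ℕ → Finset ℕ) (r : Finset ℕ → ℕ) (δ : ℝ) (Z₀ : Finset ℕ), 0 ≤ δ →
    (∀ i < k, ∀ Z ⊆ Z₀ ∪ (range i).biUnion A,
      (∀ q ∈ A i, r (insert q Z) = r Z + 1 ∨ r (insert q Z) + 1 = r Z) ∧
      |(((A i).filter fun q => r (insert q Z) = r Z + 1).card : ℝ) - (1 / 2) ^ (r Z) * (A i).card| ≤
        2 * δ * (A i).card) →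
    ∀ n : ℕ, |(((Fintype.piFinset fun i : Fin k => A i).filter fun Q =>
        r (univ.image Q ∪ Z₀) = n).card : ℝ) - chain k (r Z₀) n * ∏ i ∈ range k, ((A i).card : ℝ)| ≤
      2 * k * δ * ∏ i ∈ range k, ((A i).card : ℝ) := by
  induction k with
  | zero =>
    intro A r δ Z₀ hδ _ n
    have h1 : ((Fintype.piFinset fun i : Fin 0 => A i).filter fun Q =>
        r (univ.image Q ∪ Z₀) = n) = if r Z₀ = n then univ else ∅ := by
      split_ifs with h
      · ext Q
        simp [h]
      · ext Q
        simp [h]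
    rw [h1]
    unfold chain
    split_ifs with h
    · simp
    · simp
  | succ k ih =>
    intro A r δ Z₀ hδ hyp n
    set A' : ℕ → Finset ℕ := fun i => A (i + 1) with hA'
    have hP : ∏ i ∈ range (k + 1), ((A i).card : ℝ) =
        (∏ i ∈ range k, ((A' i).card : ℝ)) * ((A 0).card : ℝ) := Finset.prod_range_succ' _ _
    obtain ⟨P, hPdef⟩ : ∃ P : ℝ, P = ∏ i ∈ range k, ((A' i).card : ℝ) := ⟨_, rfl⟩
    have hP0 : 0 ≤ P := by
      rw [hPdef]
      exact Finset.prod_nonneg fun i _ => Nat.cast_nonneg _
    rw [hP, ← hPdef]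
    obtain ⟨R, hR⟩ : ∃ R : ℕ, R = r Z₀ := ⟨_, rfl⟩
    -- the first step
    have h0 := hyp 0 (Nat.succ_pos k) Z₀ (Finset.subset_union_left)
    rw [← hR] at h0
    -- induction hypothesis
    have hstep : ∀ q ∈ A 0, |(((Fintype.piFinset fun i : Fin k => A' i).filter fun Q =>
        r (univ.image Q ∪ insert q Z₀) = n).card : ℝ) - chain k (r (insert q Z₀)) n * P| ≤
        2 * k * δ * P := by
      intro q hq
      rw [hPdef]
      refine ih A' r δ (insert q Z₀) hδ ?_ n
      intro i hi Z hZ
      refine hyp (i + 1) (Nat.succ_lt_succ hi) Z ?_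
      refine hZ.trans ?_
      intro x hx
      rw [Finset.mem_union, Finset.mem_insert, Finset.mem_biUnion] at hx
      rw [Finset.mem_union, Finset.mem_biUnion]
      rcases hx with (rfl | hx) | ⟨j, hj, hx⟩
      · exact Or.inr ⟨0, by simp, hq⟩
      · exact Or.inl hx
      · exact Or.inr ⟨j + 1, by simpa using hj, hx⟩
    have hcount : (((Fintype.piFinset fun i : Fin (k + 1) => A i).filter fun Q =>
        r (univ.image Q ∪ Z₀) = n).card : ℝ) =
        ∑ q ∈ A 0, (((Fintype.piFinset fun i : Fin k => A' i).filter fun Q =>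
        r (univ.image Q ∪ insert q Z₀) = n).card : ℝ) := by
      rw [card_cons]
      push_cast
      refine Finset.sum_congr rfl fun q _ => ?_
      have : ∀ Q : Fin k → ℕ, univ.image (Fin.cons q Q : Fin (k + 1) → ℕ) ∪ Z₀ =
          univ.image Q ∪ insert q Z₀ := by
        intro Q
        rw [image_cons, Finset.insert_union, Finset.union_insert]
      simp only [this]
      rfl
    have hsum : |(((Fintype.piFinset fun i : Fin (k + 1) => A i).filter fun Q =>
        r (univ.image Q ∪ Z₀) = n).card : ℝ) - ∑ q ∈ A 0, chain k (r (insert q Z₀)) n * P| ≤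
        (A 0).card * (2 * k * δ * P) := by
      rw [hcount, ← Finset.sum_sub_distrib]
      refine (Finset.abs_sum_le_sum_abs _ _).trans ?_
      refine (Finset.sum_le_sum hstep).trans ?_
      rw [Finset.sum_const, nsmul_eq_mul]
    -- the sum over the first step
    obtain ⟨a, ha⟩ : ∃ a : ℕ, a = ((A 0).filter fun q => r (insert q Z₀) = R + 1).card := ⟨_, rfl⟩
    have hb : ((A 0).filter fun q => ¬ r (insert q Z₀) = R + 1).card + a = (A 0).card := by
      rw [ha, add_comm]
      exact Finset.card_filter_add_card_filter_not _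
    have hval : ∑ q ∈ A 0, chain k (r (insert q Z₀)) n * P =
        (a : ℝ) * (chain k (R + 1) n * P) + (((A 0).card : ℝ) - a) * (chain k (R - 1) n * P) := by
      rw [← Finset.sum_filter_add_sum_filter_not (A 0) (fun q => r (insert q Z₀) = R + 1)]
      congr 1
      · rw [ha, ← nsmul_eq_mul, ← Finset.sum_const]
        refine Finset.sum_congr rfl fun q hq => ?_
        rw [(Finset.mem_filter.1 hq).2]
      · have e : ((A 0).card : ℝ) - a =
            (((A 0).filter fun q => ¬ r (insert q Z₀) = R + 1).card : ℝ) := by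
          rw [← hb]
          push_cast
          ring
        rw [e, ← nsmul_eq_mul, ← Finset.sum_const]
        refine Finset.sum_congr rfl fun q hq => ?_
        obtain ⟨h1, h2⟩ := Finset.mem_filter.1 hq
        have h3 := (h0.1 q h1).resolve_left h2
        have h4 : r (insert q Z₀) = R - 1 := by omega
        rw [h4]
    have h5 := h0.2
    rw [← ha] at h5
    have hc1 := chain_mem k (R + 1) n
    have hc2 := chain_mem k (R - 1) n
    have hdiff : |chain k (R + 1) n - chain k (R - 1) n| ≤ 1 := by
      rw [abs_le]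
      constructor <;> linarith [hc1.1, hc1.2, hc2.1, hc2.2]
    have hmain : |∑ q ∈ A 0, chain k (r (insert q Z₀)) n * P -
        chain (k + 1) R n * (P * ((A 0).card : ℝ))| ≤ 2 * δ * (A 0).card * P := by
      have e : ∑ q ∈ A 0, chain k (r (insert q Z₀)) n * P -
          chain (k + 1) R n * (P * ((A 0).card : ℝ)) =
          (((a : ℝ) - (1 / 2) ^ R * (A 0).card) * P) * (chain k (R + 1) n - chain k (R - 1) n) := by
        rw [hval]
        have : chain (k + 1) R n =
            (1 / 2) ^ R * chain k (R + 1) n + (1 - (1 / 2) ^ R) * chain k (R - 1) n := rfl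
        rw [this]
        ring
      rw [e, abs_mul, abs_mul, abs_of_nonneg hP0]
      have h6 : |(a : ℝ) - (1 / 2) ^ R * (A 0).card| * P ≤ 2 * δ * (A 0).card * P :=
        mul_le_mul_of_nonneg_right h5 hP0
      have h7 : 0 ≤ |(a : ℝ) - (1 / 2) ^ R * (A 0).card| * P := by positivity
      calc |(a : ℝ) - (1 / 2) ^ R * (A 0).card| * P * |chain k (R + 1) n - chain k (R - 1) n| ≤
          |(a : ℝ) - (1 / 2) ^ R * (A 0).card| * P * 1 := mul_le_mul_of_nonneg_left hdiff h7
        _ ≤ _ := by linarith
    rw [← hR]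
    have htri := abs_add_le ((((Fintype.piFinset fun i : Fin (k + 1) => A i).filter fun Q =>
        r (univ.image Q ∪ Z₀) = n).card : ℝ) - ∑ q ∈ A 0, chain k (r (insert q Z₀)) n * P)
        (∑ q ∈ A 0, chain k (r (insert q Z₀)) n * P - chain (k + 1) R n * (P * ((A 0).card : ℝ)))
    rw [sub_add_sub_cancel] at htri
    refine htri.trans ?_
    refine (add_le_add hsum hmain).trans (le_of_eq ?_)
    push_cast
    ring

/-- **Job FAN.** -/
theorem fan : S_FAN := by
  intro k A r δ hδ _ hyp n
  have h := fan_gen k A r δ ∅ hδ (fun i hi Z hZ => hyp i hi Z (by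
    rw [Finset.empty_union] at hZ
    exact hZ)) n
  simp only [Finset.union_empty] at h
  exact h

end Pool.Agent.Helper29L.FanT
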