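import Mathlib

set_option autoImplicit false
set_option linter.all false

open scoped Classical
open Finset Filter Topology

namespace Pool.Agent.Helper29L.MKC

noncomputable def chain : ℕ → ℕ → ℕ → ℝ
  | 0, r, n => if r = n then 1 else 0
  | k + 1, r, n => (1 / 2) ^ r * chain k (r + 1) n + (1 - (1 / 2) ^ r) * chain k (r - 1) n

noncomputable def C2 (n : ℕ) : ℝ :=
  (∏' j : ℕ, (1 + (1 / 2 : ℝ) ^ j))⁻¹ * ∏ i ∈ Finset.Icc 1 n, (2 : ℝ) / (2 ^ i - 1)

noncomputable def w (n : ℕ) : ℝ := ∏ i ∈ Finset.Icc 1 n, (2 : ℝ) / (2 ^ i - 1)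

theorem w_zero : w 0 = 1 := by simp [w]

theorem two_pow_sub_pos (n : ℕ) : (0 : ℝ) < 2 ^ (n + 1) - 1 := by
  have : (1 : ℝ) < 2 ^ (n + 1) := one_lt_pow₀ (by norm_num) (by omega)
  linarith

theorem w_succ (n : ℕ) : w (n + 1) = w n * (2 / (2 ^ (n + 1) - 1)) := by
  unfold w
  rw [Finset.prod_Icc_succ_top (by omega)]

theorem w_pos (n : ℕ) : 0 < w n := by
  induction n with
  | zero => rw [w_zero]; norm_num
  | succ n ih =>
    rw [w_succ]
    have := two_pow_sub_pos n
    positivity

theorem w_bal (n : ℕ) : w (n + 1) * (1 - (1 / 2) ^ (n + 1)) = (1 / 2) ^ n * w n := by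
  rw [w_succ]
  have h := two_pow_sub_pos n
  have h2 : (1 / 2 : ℝ) ^ n = 2 / 2 ^ (n + 1) := by
    rw [one_div, inv_pow, pow_succ]
    field_simp
  have h3 : (1 / 2 : ℝ) ^ (n + 1) = 1 / 2 ^ (n + 1) := by
    rw [one_div, inv_pow, one_div]
  rw [h2, h3]
  have h4 : (0 : ℝ) < 2 ^ (n + 1) := by positivity
  field_simp

theorem w_le (n : ℕ) : w n ≤ 25 * (1 / 4) ^ n := by
  have key : ∀ m : ℕ, w (m + 3) ≤ 25 * (1 / 4) ^ (m + 3) := by
    intro m
    induction m with
    | zero =>
      have h1 : w 1 = 2 := by rw [w_succ, w_zero]; norm_num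
      have h2 : w 2 = 4 / 3 := by rw [w_succ, h1]; norm_num
      have h3 : w 3 = 8 / 21 := by rw [w_succ, h2]; norm_num
      rw [show 0 + 3 = 3 from rfl, h3]; norm_num
    | succ m ih =>
      rw [show m + 1 + 3 = (m + 3) + 1 from by ring, w_succ]
      have h : (2 : ℝ) / (2 ^ (m + 3 + 1) - 1) ≤ 1 / 4 := by
        have h5 : (16 : ℝ) ≤ 2 ^ (m + 3 + 1) := by
          have : (2 : ℝ) ^ 4 ≤ 2 ^ (m + 3 + 1) := pow_le_pow_right₀ (by norm_num) (by omega)
          norm_num at this ⊢
          linarith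
        rw [div_le_div_iff₀ (by linarith) (by norm_num)]
        linarith
      calc w (m + 3) * (2 / (2 ^ (m + 3 + 1) - 1)) ≤ (25 * (1 / 4) ^ (m + 3)) * (1 / 4) := by
            apply mul_le_mul ih h _ (by positivity)
            have := two_pow_sub_pos (m + 3)
            positivity
        _ = 25 * (1 / 4) ^ (m + 3 + 1) := by ring
  rcases Nat.lt_or_ge n 3 with h | h
  · have h1 : w 1 = 2 := by rw [w_succ, w_zero]; norm_num
    have h2 : w 2 = 4 / 3 := by rw [w_succ, h1]; norm_num
    interval_cases n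
    · rw [w_zero]; norm_num
    · rw [h1]; norm_num
    · rw [h2]; norm_num
  · obtain ⟨m, rfl⟩ := Nat.exists_eq_add_of_le' h
    exact key m

theorem summable_w_mul (z : ℝ) (hz : |z| ≤ 2) : Summable fun n => w n * z ^ n := by
  refine Summable.of_norm_bounded (g := fun n => 25 * (1 / 2 : ℝ) ^ n) ?_ ?_
  · exact (summable_geometric_of_lt_one (by norm_num) (by norm_num)).mul_left 25
  · intro n
    rw [Real.norm_eq_abs, abs_mul, abs_of_pos (w_pos n), abs_pow]
    calc w n * |z| ^ n ≤ (25 * (1 / 4) ^ n) * 2 ^ n := by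
          apply mul_le_mul (w_le n) (pow_le_pow_left₀ (abs_nonneg z) hz n) (by positivity) (by positivity)
      _ = 25 * (1 / 2 : ℝ) ^ n := by
          rw [mul_assoc, ← mul_pow]; norm_num

noncomputable def F (z : ℝ) : ℝ := ∑' n, w n * z ^ n

theorem F_rec (z : ℝ) (hz : |z| ≤ 2) : F z = (1 + z) * F (z / 2) := by
  have hz2 : |z / 2| ≤ 2 := by
    rw [abs_div]; norm_num; linarith [abs_nonneg z]
  have h1 := summable_w_mul z hz
  have h2 := summable_w_mul (z / 2) hz2
  have e : F z - F (z / 2) = z * F (z / 2) := by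
    unfold F
    rw [← h1.tsum_sub h2]
    have h3 : Summable fun n => w n * z ^ n - w n * (z / 2) ^ n := h1.sub h2
    rw [h3.tsum_eq_zero_add, ← tsum_mul_left]
    simp only [pow_zero, mul_one, sub_self, zero_add]
    apply tsum_congr
    intro n
    have hb := w_bal n
    have e1 : w (n + 1) * z ^ (n + 1) - w (n + 1) * (z / 2) ^ (n + 1)
        = (w (n + 1) * (1 - (1 / 2) ^ (n + 1))) * z ^ (n + 1) := by
      rw [div_eq_mul_one_div z 2, mul_pow]; ring
    rw [e1, hb, div_eq_mul_one_div z 2, mul_pow]; ring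
  linarith

theorem F_neg_one : F (-1) = 0 := by
  rw [F_rec (-1) (by norm_num)]; norm_num

theorem F_prod (N : ℕ) : F 1 = (∏ j ∈ range N, (1 + (1 / 2 : ℝ) ^ j)) * F ((1 / 2) ^ N) := by
  induction N with
  | zero => simp
  | succ N ih =>
    rw [ih, prod_range_succ, F_rec ((1 / 2) ^ N), pow_succ]
    · rw [mul_assoc, div_eq_mul_one_div ((1 / 2 : ℝ) ^ N) 2]
    · rw [abs_of_nonneg (by positivity)]
      have : (1 / 2 : ℝ) ^ N ≤ 1 := pow_le_one₀ (by norm_num) (by norm_num)
      linarith

theorem F_near (z : ℝ) (h0 : 0 ≤ z) (h1 : z ≤ 1) : |F z - 1| ≤ z * F 1 := by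
  have hz : |z| ≤ 2 := by rw [abs_of_nonneg h0]; linarith
  have hs := summable_w_mul z hz
  have hs1 := summable_w_mul 1 (by norm_num)
  have e : F z = 1 + ∑' n, w (n + 1) * z ^ (n + 1) := by
    unfold F
    rw [hs.tsum_eq_zero_add, w_zero]; simp
  have hs' : Summable fun n => w (n + 1) * z ^ (n + 1) := (summable_nat_add_iff 1).2 hs
  have hs1' : Summable fun n => w (n + 1) * 1 ^ (n + 1) := (summable_nat_add_iff 1).2 hs1
  rw [e, add_sub_cancel_left, abs_of_nonneg (tsum_nonneg (fun n => by have := w_pos (n + 1); positivity))]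
  have e2 : F 1 = 1 + ∑' n, w (n + 1) * 1 ^ (n + 1) := by
    unfold F
    rw [hs1.tsum_eq_zero_add, w_zero]; simp
  calc ∑' n, w (n + 1) * z ^ (n + 1) ≤ ∑' n, z * (w (n + 1) * 1 ^ (n + 1)) := by
        apply hs'.tsum_le_tsum _ (hs1'.mul_left z)
        intro n
        have : z ^ (n + 1) ≤ z := by
          rw [pow_succ]
          calc z ^ n * z ≤ 1 * z := by
                apply mul_le_mul_of_nonneg_right (pow_le_one₀ h0 h1) h0
            _ = z := one_mul z
        have hw := w_pos (n + 1)
        rw [one_pow, mul_one, mul_comm z]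
        exact mul_le_mul_of_nonneg_left this hw.le
    _ = z * ∑' n, (w (n + 1) * 1 ^ (n + 1)) := tsum_mul_left
    _ ≤ z * F 1 := by
        rw [e2]
        nlinarith

theorem F_one_pos : 0 < F 1 := by
  have hs1 := summable_w_mul 1 (by norm_num)
  unfold F
  exact hs1.tsum_pos (fun n => by have := w_pos n; positivity) 0 (by rw [w_zero]; norm_num)

theorem F_one_eq : F 1 = ∏' j : ℕ, (1 + (1 / 2 : ℝ) ^ j) := by
  have hm : Multipliable fun j : ℕ => (1 + (1 / 2 : ℝ) ^ j) := by
    apply Real.multipliable_one_add_of_summable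
    exact summable_geometric_of_lt_one (by norm_num) (by norm_num)
  have ht := hm.hasProd.tendsto_prod_nat
  have hF : Tendsto (fun N : ℕ => F ((1 / 2) ^ N)) atTop (𝓝 1) := by
    rw [tendsto_iff_norm_sub_tendsto_zero]
    refine squeeze_zero (fun _ => norm_nonneg _) (g := fun N => (1 / 2 : ℝ) ^ N * F 1) ?_ ?_
    · intro N
      exact F_near _ (by positivity) (pow_le_one₀ (by norm_num) (by norm_num))
    · have := (tendsto_pow_atTop_nhds_zero_of_lt_one (r := (1 / 2 : ℝ)) (by norm_num) (by norm_num)).mul_const (F 1)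
      simpa using this
  have h2 := ht.mul hF
  have h3 : (fun N : ℕ => (∏ j ∈ range N, (1 + (1 / 2 : ℝ) ^ j)) * F ((1 / 2) ^ N)) = fun _ => F 1 := by
    funext N; exact (F_prod N).symm
  rw [h3, mul_one] at h2
  exact tendsto_nhds_unique tendsto_const_nhds h2

theorem C2_eq (n : ℕ) : C2 n = w n / F 1 := by
  unfold C2
  rw [← F_one_eq, div_eq_inv_mul]; rfl

theorem C2_pos (n : ℕ) : 0 < C2 n := by
  rw [C2_eq]; exact div_pos (w_pos n) F_one_pos

theorem C2_hasSum : HasSum C2 1 := by
  have hs1 := (summable_w_mul 1 (by norm_num)).hasSum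
  have h := hs1.div_const (F 1)
  have e : (∑' n, w n * 1 ^ n) / F 1 = 1 := div_self F_one_pos.ne'
  rw [e] at h
  have e3 : C2 = fun n => w n * 1 ^ n / F 1 := by
    funext n
    rw [C2_eq, one_pow, mul_one]
  rw [e3]
  exact h

/-! ### the chain -/

theorem half_le (r : ℕ) : (1 / 2 : ℝ) ^ r ≤ 1 := pow_le_one₀ (by norm_num) (by norm_num)

theorem chain_nonneg (k r n : ℕ) : 0 ≤ chain k r n := by
  induction k generalizing r with
  | zero => unfold chain; split_ifs <;> norm_num
  | succ k ih =>
    unfold chain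
    have := half_le r
    have h1 := ih (r + 1)
    have h2 := ih (r - 1)
    have : 0 ≤ 1 - (1 / 2 : ℝ) ^ r := by linarith
    positivity

theorem chain_le (k r n : ℕ) : chain k r n ≤ 1 := by
  induction k generalizing r with
  | zero => unfold chain; split_ifs <;> norm_num
  | succ k ih =>
    unfold chain
    have h := half_le r
    have h1 := ih (r + 1)
    have h2 := ih (r - 1)
    have h3 : 0 ≤ 1 - (1 / 2 : ℝ) ^ r := by linarith
    have h4 : 0 ≤ (1 / 2 : ℝ) ^ r := by positivity
    nlinarith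

theorem chain_parity (k r n : ℕ) (h : (k + r) % 2 ≠ n % 2) : chain k r n = 0 := by
  induction k generalizing r with
  | zero =>
    unfold chain
    rw [if_neg]
    rintro rfl
    simp at h
  | succ k ih =>
    unfold chain
    rw [ih (r + 1) (by omega)]
    rcases Nat.eq_zero_or_pos r with h0 | h0
    · subst h0; simp
    · rw [ih (r - 1) (by omega)]; simp

theorem chain_couple (n k : ℕ) : ∀ r r' : ℕ, r ≤ r' → r % 2 = r' % 2 →
    |chain k r n - chain k r' n| ≤ (1 / 2) ^ k * (2 ^ r' - 2 ^ r) := by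
  induction k with
  | zero =>
    intro r r' h hp
    rcases Nat.eq_or_lt_of_le h with he | hl
    · subst he; simp
    · have h1 : |chain 0 r n - chain 0 r' n| ≤ 1 := by
        have a1 := chain_nonneg 0 r n
        have a2 := chain_nonneg 0 r' n
        have a3 := chain_le 0 r n
        have a4 := chain_le 0 r' n
        rw [abs_le]; constructor <;> linarith
      have h2 : (1 : ℝ) ≤ 2 ^ r := one_le_pow₀ (by norm_num)
      have h3 : (2 : ℝ) ^ (r + 1) ≤ 2 ^ r' := pow_le_pow_right₀ (by norm_num) hl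
      rw [pow_succ] at h3
      simp only [pow_zero, one_mul]
      linarith
  | succ k ih =>
    intro r r' h hp
    rcases Nat.eq_or_lt_of_le h with he | hl
    · subst he; simp
    · have e : chain (k + 1) r n - chain (k + 1) r' n
          = (1 / 2) ^ r' * (chain k (r + 1) n - chain k (r' + 1) n)
          + ((1 / 2) ^ r - (1 / 2) ^ r') * (chain k (r + 1) n - chain k (r' - 1) n)
          + (1 - (1 / 2) ^ r) * (chain k (r - 1) n - chain k (r' - 1) n) := by
        rw [chain, chain]; ring
      have i1 := ih (r + 1) (r' + 1) (by omega) (by omega)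
      have i2 := ih (r + 1) (r' - 1) (by omega) (by omega)
      have c1 : (0 : ℝ) ≤ (1 / 2) ^ r' := by positivity
      have c2 : (0 : ℝ) ≤ (1 / 2) ^ r - (1 / 2) ^ r' := by
        have : (1 / 2 : ℝ) ^ r' ≤ (1 / 2) ^ r := pow_le_pow_of_le_one (by norm_num) (by norm_num) h
        linarith
      have c3 : (0 : ℝ) ≤ 1 - (1 / 2) ^ r := by have := half_le r; linarith
      obtain ⟨s, rfl⟩ := Nat.exists_eq_add_of_le' (show 1 ≤ r' by omega)
      have i3 : (1 - (1 / 2 : ℝ) ^ r) * |chain k (r - 1) n - chain k (s + 1 - 1) n|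
          ≤ (1 - (1 / 2 : ℝ) ^ r) * ((1 / 2) ^ k * (2 ^ (s + 1) / 2 - 2 ^ r / 2)) := by
        rcases Nat.eq_zero_or_pos r with h0 | h0
        · subst h0; simp
        · apply mul_le_mul_of_nonneg_left _ c3
          have := ih (r - 1) (s + 1 - 1) (by omega) (by omega)
          obtain ⟨t, rfl⟩ := Nat.exists_eq_add_of_le' h0
          simp only [Nat.add_sub_cancel] at this ⊢
          refine this.trans (le_of_eq ?_)
          rw [pow_succ, pow_succ]; ring
      rw [e]
      refine (abs_add_three _ _ _).trans ?_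
      rw [abs_mul, abs_mul, abs_mul, abs_of_nonneg c1, abs_of_nonneg c2, abs_of_nonneg c3]
      have j1 := mul_le_mul_of_nonneg_left i1 c1
      have j2 := mul_le_mul_of_nonneg_left i2 c2
      refine (add_le_add (add_le_add j1 j2) i3).trans (le_of_eq ?_)
      simp only [Nat.add_sub_cancel]
      have e1 : (1 / 2 : ℝ) ^ (s + 1) = 1 / (2 * 2 ^ s) := by
        rw [one_div, inv_pow, pow_succ, one_div]; ring_nf
      have e2 : (1 / 2 : ℝ) ^ r = 1 / 2 ^ r := by
        rw [one_div, inv_pow, one_div]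
      rw [e1, e2, pow_succ (1 / 2 : ℝ) k]
      have p1 : (0 : ℝ) < 2 ^ s := by positivity
      have p2 : (0 : ℝ) < 2 ^ r := by positivity
      simp only [pow_succ]
      field_simp
      ring

theorem summable_w_chain (k n : ℕ) : Summable fun r => w r * chain k r n := by
  refine Summable.of_nonneg_of_le (fun r => mul_nonneg (w_pos r).le (chain_nonneg k r n)) ?_
    (summable_w_mul 1 (by norm_num))
  intro r
  rw [one_pow]
  exact mul_le_mul_of_nonneg_left (chain_le k r n) (w_pos r).le

theorem stationary (k n : ℕ) : ∑' r, w r * chain k r n = w n := by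
  induction k with
  | zero =>
    have : ∀ r, w r * chain 0 r n = if r = n then w n else 0 := by
      intro r
      unfold chain
      split_ifs with h
      · rw [h, mul_one]
      · rw [mul_zero]
    rw [tsum_congr this, tsum_ite_eq]
  | succ k ih =>
    have hs := summable_w_chain k n
    have bd : ∀ (c : ℕ → ℝ), (∀ r, 0 ≤ c r ∧ c r ≤ 1) → Summable fun r => c r * (w r * chain k r n) := by
      intro c hc
      refine Summable.of_nonneg_of_le (fun r => mul_nonneg (hc r).1 (mul_nonneg (w_pos r).le (chain_nonneg k r n))) ?_ hs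
      intro r
      have := mul_nonneg (w_pos r).le (chain_nonneg k r n)
      nlinarith [(hc r).2]
    have s1 : Summable fun r => (1 - (1 / 2 : ℝ) ^ r) * (w r * chain k r n) :=
      bd _ (fun r => ⟨sub_nonneg.2 (half_le r), sub_le_self _ (by positivity)⟩)
    have s2 : Summable fun r => (1 / 2 : ℝ) ^ r * (w r * chain k r n) :=
      bd _ (fun r => ⟨by positivity, half_le r⟩)
    have t1 : ∑' r, (1 - (1 / 2 : ℝ) ^ r) * (w r * chain k r n)
        = ∑' r, w r * ((1 / 2) ^ r * chain k (r + 1) n) := by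
      rw [s1.tsum_eq_zero_add]
      simp only [pow_zero, sub_self, zero_mul, zero_add]
      apply tsum_congr
      intro r
      have := w_bal r
      linear_combination (chain k (r + 1) n) * this
    have s1' : Summable fun r => w r * ((1 / 2) ^ r * chain k (r + 1) n) := by
      have h := (summable_nat_add_iff 1).2 s1
      refine h.congr ?_
      intro r
      have := w_bal r
      linear_combination (chain k (r + 1) n) * this
    have hg : Summable fun r => w r * ((1 - (1 / 2 : ℝ) ^ r) * chain k (r - 1) n) := by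
      rw [← summable_nat_add_iff 1]
      refine s2.congr ?_
      intro r
      have := w_bal r
      rw [Nat.add_sub_cancel]
      linear_combination (-(chain k r n)) * this
    have t2 : ∑' r, (1 / 2 : ℝ) ^ r * (w r * chain k r n)
        = ∑' r, w r * ((1 - (1 / 2 : ℝ) ^ r) * chain k (r - 1) n) := by
      rw [hg.tsum_eq_zero_add]
      simp only [pow_zero, sub_self, zero_mul, mul_zero, zero_add]
      apply tsum_congr
      intro r
      have := w_bal r
      rw [Nat.add_sub_cancel]
      linear_combination (-(chain k r n)) * this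
    have e : ∀ r, w r * chain (k + 1) r n
        = w r * ((1 / 2) ^ r * chain k (r + 1) n) + w r * ((1 - (1 / 2 : ℝ) ^ r) * chain k (r - 1) n) := by
      intro r
      rw [chain]; ring
    rw [tsum_congr e, s1'.tsum_add hg, ← t1, ← t2, ← s1.tsum_add s2, ← ih]
    apply tsum_congr
    intro r
    ring

theorem chain_conv_bound (k r n : ℕ) (h : (k + r) % 2 = n % 2) :
    |F 1 / 2 * chain k r n - w n| ≤ (1 / 2) ^ k * (F 2 + 2 ^ r * F 1) := by
  have hs1 := summable_w_mul 1 (by norm_num)
  have hsm := summable_w_mul (-1) (by norm_num)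
  have hs2 := summable_w_mul 2 (by norm_num)
  have hsc := summable_w_chain k n
  -- the parity projector
  set e : ℕ → ℝ := fun r' => (1 + (-1) ^ r * (-1) ^ r') / 2 with he
  have e01 : ∀ r', (r' % 2 = r % 2 ∧ e r' = 1) ∨ (r' % 2 ≠ r % 2 ∧ e r' = 0) := by
    intro r'
    rcases Nat.even_or_odd r with hr | hr <;> rcases Nat.even_or_odd r' with hr' | hr'
    · left; refine ⟨by rw [Nat.even_iff.1 hr, Nat.even_iff.1 hr'], ?_⟩
      simp only [he, hr.neg_one_pow, hr'.neg_one_pow]; norm_num
    · right; refine ⟨by rw [Nat.even_iff.1 hr, Nat.odd_iff.1 hr']; norm_num, ?_⟩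
      simp only [he, hr.neg_one_pow, hr'.neg_one_pow]; norm_num
    · right; refine ⟨by rw [Nat.odd_iff.1 hr, Nat.even_iff.1 hr']; norm_num, ?_⟩
      simp only [he, hr.neg_one_pow, hr'.neg_one_pow]; norm_num
    · left; refine ⟨by rw [Nat.odd_iff.1 hr, Nat.odd_iff.1 hr'], ?_⟩
      simp only [he, hr.neg_one_pow, hr'.neg_one_pow]; norm_num
  have hsum1 : HasSum (fun r' => w r' * e r') (F 1 / 2) := by
    have a := (hs1.hasSum.add (hsm.hasSum.mul_left ((-1) ^ r))).div_const 2
    have v : (∑' n, w n * 1 ^ n + (-1) ^ r * ∑' n, w n * (-1) ^ n) / 2 = F 1 / 2 := by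
      have := F_neg_one
      unfold F at this ⊢
      rw [this]; ring
    rw [v] at a
    have ef : (fun r' => w r' * e r') = fun r' => (w r' * 1 ^ r' + (-1) ^ r * (w r' * (-1) ^ r')) / 2 := by
      funext r'
      simp only [he, one_pow]; ring
    rw [ef]
    exact a
  have hsum2 : HasSum (fun r' => w r' * e r' * chain k r' n) (w n) := by
    have a := hsc.hasSum
    rw [stationary] at a
    have ef : (fun r' => w r' * e r' * chain k r' n) = fun r' => w r' * chain k r' n := by
      funext r'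
      rcases e01 r' with ⟨h1, h2⟩ | ⟨h1, h2⟩
      · rw [h2]; ring
      · rw [chain_parity k r' n (by omega)]; ring
    rw [ef]
    exact a
  have hd := (hsum1.mul_right (chain k r n)).sub hsum2
  have hb : HasSum (fun r' => (1 / 2 : ℝ) ^ k * (w r' * 2 ^ r' + 2 ^ r * (w r' * 1 ^ r')))
      ((1 / 2) ^ k * (F 2 + 2 ^ r * F 1)) :=
    (hs2.hasSum.add (hs1.hasSum.mul_left (2 ^ r))).mul_left _
  have pt : ∀ r', |w r' * e r' * chain k r n - w r' * e r' * chain k r' n|
      ≤ (1 / 2 : ℝ) ^ k * (w r' * 2 ^ r' + 2 ^ r * (w r' * 1 ^ r')) := by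
    intro r'
    rw [← mul_sub, abs_mul]
    rcases e01 r' with ⟨h1, h2⟩ | ⟨h1, h2⟩
    · rw [h2, mul_one, abs_of_pos (w_pos r')]
      have hc : |chain k r n - chain k r' n| ≤ (1 / 2) ^ k * (2 ^ r' + 2 ^ r) := by
        have q1 : (0 : ℝ) < 2 ^ r' := by positivity
        have q2 : (0 : ℝ) < 2 ^ r := by positivity
        have q3 : (0 : ℝ) < (1 / 2) ^ k := by positivity
        rcases Nat.le_total r r' with hl | hl
        · refine (chain_couple n k r r' hl h1.symm).trans ?_
          apply mul_le_mul_of_nonneg_left _ q3.le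
          linarith
        · rw [abs_sub_comm]
          refine (chain_couple n k r' r hl h1).trans ?_
          apply mul_le_mul_of_nonneg_left _ q3.le
          linarith
      calc w r' * |chain k r n - chain k r' n| ≤ w r' * ((1 / 2) ^ k * (2 ^ r' + 2 ^ r)) :=
            mul_le_mul_of_nonneg_left hc (w_pos r').le
        _ = _ := by rw [one_pow]; ring
    · rw [h2, mul_zero, abs_zero, zero_mul]
      have := w_pos r'
      positivity
  have hsa : Summable fun r' => |w r' * e r' * chain k r n - w r' * e r' * chain k r' n| :=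
    Summable.of_nonneg_of_le (fun _ => abs_nonneg _) pt hb.summable
  rw [← hd.tsum_eq, ← hb.tsum_eq]
  refine le_trans ?_ (hsa.tsum_le_tsum pt hb.summable)
  have := norm_tsum_le_tsum_norm (f := fun r' => w r' * e r' * chain k r n - w r' * e r' * chain k r' n) hsa
  simpa only [Real.norm_eq_abs] using this

theorem F_two_nonneg : 0 ≤ F 2 := by
  unfold F
  exact tsum_nonneg (fun n => by have := w_pos n; positivity)

theorem chain_conv (n r : ℕ) (ε : ℝ) (hε : 0 < ε) :
    ∃ k₀ : ℕ, ∀ k ≥ k₀, (k + r) % 2 = n % 2 → |chain k r n - 2 * C2 n| ≤ ε := by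
  have hF := F_one_pos
  have hF2 := F_two_nonneg
  have ht : Tendsto (fun k : ℕ => (1 / 2 : ℝ) ^ k * ((F 2 + 2 ^ r * F 1) * (2 / F 1))) atTop (𝓝 0) := by
    have := (tendsto_pow_atTop_nhds_zero_of_lt_one (r := (1 / 2 : ℝ)) (by norm_num) (by norm_num)).mul_const
      ((F 2 + 2 ^ r * F 1) * (2 / F 1))
    simpa using this
  obtain ⟨k₀, hk⟩ := (ht.eventually (gt_mem_nhds hε)).exists_forall_of_atTop
  refine ⟨k₀, fun k hk0 hp => ?_⟩
  have h1 := chain_conv_bound k r n hp
  have h2 := hk k hk0
  have e : chain k r n - 2 * C2 n = (F 1 / 2 * chain k r n - w n) * (2 / F 1) := by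
    rw [C2_eq]; field_simp
  rw [e, abs_mul, abs_of_pos (show (0 : ℝ) < 2 / F 1 by positivity)]
  calc |F 1 / 2 * chain k r n - w n| * (2 / F 1) ≤ ((1 / 2) ^ k * (F 2 + 2 ^ r * F 1)) * (2 / F 1) :=
        mul_le_mul_of_nonneg_right h1 (by positivity)
    _ ≤ ε := by rw [mul_assoc]; exact h2.le

end Pool.Agent.Helper29L.MKC
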