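import Pool.Agent.Helper29L.Stm
import Pool.Agent.Helper29L.MKCore

/-!
# Job MK (helper52): the Markov chain of the Selmer ranks and the numbers `C_{2,n}`

`mk : S_MK` and `c2 : S_C2`; the proofs are in `MKCore`.
-/

set_option autoImplicit false
set_option linter.all false

open scoped Classical

namespace Pool.Agent.Helper29L

theorem chain_eq (k r n : ℕ) : chain k r n = MKC.chain k r n := by
  induction k generalizing r with
  | zero => unfold chain MKC.chain; rfl
  | succ k ih => unfold chain MKC.chain; rw [ih, ih]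

theorem C2_eq (n : ℕ) : C2 n = MKC.C2 n := rfl

theorem mk : S_MK := by
  intro n r
  refine ⟨fun k hk => ?_, fun ε hε => ?_⟩
  · rw [chain_eq]; exact MKC.chain_parity k r n hk
  · obtain ⟨k₀, h⟩ := MKC.chain_conv n r ε hε
    refine ⟨k₀, fun k hk hp => ?_⟩
    rw [chain_eq, C2_eq]
    exact h k hk hp

theorem c2 : S_C2 := ⟨fun n => MKC.C2_pos n, MKC.C2_hasSum⟩

end Pool.Agent.Helper29L
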