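import Pool.Agent.Helper29L.Stm5
import Pool.Agent.Helper29L.Fan
import Pool.Agent.Helper29L.MK

/-!
# Project PR: the distribution over the fans (jobs TV and TV2)
-/

set_option autoImplicit false
set_option linter.all false

open Finset Filter
open scoped Classical

namespace Pool.Agent.Helper29L

/-- Total variation. -/
theorem tvl {ι : Type} (s : Finset ι) (w : ι → ℝ) (r : ι → ℕ) (hw : ∀ i ∈ s, 0 ≤ w i)
    (hsum : ∑ i ∈ s, w i = 1) {C : ℕ → ℝ} (hC : ∀ n, 0 ≤ C n) (hCs : HasSum C 1) (n₁ : ℕ)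
    {η τ : ℝ} (h1 : ∀ n < n₁, |∑ i ∈ s.filter (fun i => r i = n), w i - C n| ≤ η)
    (h2 : 1 - ∑ n ∈ range n₁, C n ≤ τ) (B : Set ℕ) :
    |∑ i ∈ s.filter (fun i => r i ∈ B), w i - ∑' n, B.indicator C n| ≤ 2 * n₁ * η + τ := by
  obtain ⟨a, ha⟩ : ∃ a : ℕ → ℝ, ∀ n, a n = ∑ i ∈ s.filter (fun i => r i = n), w i :=
    ⟨_, fun _ => rfl⟩
  have hsC : Summable C := hCs.summable
  have hsB : Summable (B.indicator C) := hsC.indicator B
  have hBn : ∀ n, 0 ≤ B.indicator C n := fun n => Set.indicator_nonneg (fun m _ => hC m) n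
  have hBle : ∀ n, B.indicator C n ≤ C n := fun n =>
    Set.indicator_le_self' (fun m _ => hC m) n
  -- the tail of `C`
  have t1 : ∑' n, B.indicator C n =
      ∑ n ∈ range n₁, B.indicator C n + ∑' n, B.indicator C (n + n₁) :=
    (hsB.sum_add_tsum_nat_add n₁).symm
  have t2 : (1 : ℝ) = ∑ n ∈ range n₁, C n + ∑' n, C (n + n₁) := by
    rw [hsC.sum_add_tsum_nat_add n₁, hCs.tsum_eq]
  have t3 : 0 ≤ ∑' n, B.indicator C (n + n₁) := tsum_nonneg fun n => hBn _
  have t4 : ∑' n, B.indicator C (n + n₁) ≤ ∑' n, C (n + n₁) :=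
    Summable.tsum_le_tsum (fun n => hBle _) ((summable_nat_add_iff n₁).2 hsB)
      ((summable_nat_add_iff n₁).2 hsC)
  -- the small values
  have key : ∀ P : ℕ → Prop, ∑ i ∈ s.filter (fun i => P (r i)), w i =
      ∑ n ∈ range n₁, (if P n then a n else 0) +
        ∑ i ∈ s.filter (fun i => P (r i) ∧ n₁ ≤ r i), w i := by
    intro P
    have e1 : ∑ n ∈ range n₁, (if P n then a n else 0) =
        ∑ i ∈ s.filter (fun i => P (r i) ∧ r i < n₁), w i := by
      have e2 : ∑ i ∈ s.filter (fun i => P (r i) ∧ r i < n₁), w i =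
          ∑ n ∈ range n₁, ∑ i ∈ (s.filter (fun i => P (r i) ∧ r i < n₁)).filter (fun i => r i = n),
            w i := by
        rw [Finset.sum_fiberwise_of_maps_to]
        intro i hi
        exact Finset.mem_range.2 (Finset.mem_filter.1 hi).2.2
      rw [e2]
      refine Finset.sum_congr rfl fun n hn => ?_
      have hn' := Finset.mem_range.1 hn
      split_ifs with hP
      · rw [ha]
        refine Finset.sum_congr ?_ fun _ _ => rfl
        ext i
        simp only [Finset.mem_filter]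
        constructor
        · rintro ⟨h3, rfl⟩
          exact ⟨⟨h3, hP, hn'⟩, rfl⟩
        · rintro ⟨⟨h3, -, -⟩, h4⟩
          exact ⟨h3, h4⟩
      · symm
        refine Finset.sum_eq_zero fun i hi => ?_
        simp only [Finset.mem_filter] at hi
        obtain ⟨⟨-, h3, -⟩, h4⟩ := hi
        exact absurd (h4 ▸ h3) hP
    rw [e1, ← Finset.sum_union]
    · refine Finset.sum_congr ?_ fun _ _ => rfl
      ext i
      simp only [Finset.mem_filter, Finset.mem_union]
      constructor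
      · rintro ⟨h3, h4⟩
        rcases lt_or_ge (r i) n₁ with h5 | h5
        · exact Or.inl ⟨h3, h4, h5⟩
        · exact Or.inr ⟨h3, h4, h5⟩
      · rintro (⟨h3, h4, -⟩ | ⟨h3, h4, -⟩) <;> exact ⟨h3, h4⟩
    · rw [Finset.disjoint_left]
      intro i hi hi'
      have h3 := (Finset.mem_filter.1 hi).2.2
      have h4 := (Finset.mem_filter.1 hi').2.2
      omega
  have k1 := key (fun n => n ∈ B)
  have k2 : (1 : ℝ) = ∑ n ∈ range n₁, a n + ∑ i ∈ s.filter (fun i => n₁ ≤ r i), w i := by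
    have k3 := key (fun _ => True)
    simpa [hsum] using k3
  have w1 : 0 ≤ ∑ i ∈ s.filter (fun i => r i ∈ B ∧ n₁ ≤ r i), w i :=
    Finset.sum_nonneg fun i hi => hw i (Finset.mem_filter.1 hi).1
  have w2 : ∑ i ∈ s.filter (fun i => r i ∈ B ∧ n₁ ≤ r i), w i ≤
      ∑ i ∈ s.filter (fun i => n₁ ≤ r i), w i := by
    refine Finset.sum_le_sum_of_subset_of_nonneg ?_ fun i hi _ => hw i (Finset.mem_filter.1 hi).1
    intro i hi
    simp only [Finset.mem_filter] at hi ⊢
    exact ⟨hi.1, hi.2.2⟩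
  -- the comparison
  have c1 : ∀ n ∈ range n₁, |a n - C n| ≤ η := fun n hn => by
    rw [ha]
    exact h1 n (Finset.mem_range.1 hn)
  have c2 : |∑ n ∈ range n₁, (a n - C n)| ≤ n₁ * η := by
    refine (Finset.abs_sum_le_sum_abs _ _).trans ((Finset.sum_le_sum c1).trans ?_)
    rw [Finset.sum_const, Finset.card_range, nsmul_eq_mul]
  have c3 : |∑ n ∈ range n₁, ((if n ∈ B then a n else 0) - B.indicator C n)| ≤ n₁ * η := by
    refine (Finset.abs_sum_le_sum_abs _ _).trans ((Finset.sum_le_sum (g := fun _ => η)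
      fun n hn => ?_).trans ?_)
    · by_cases hB : n ∈ B
      · rw [if_pos hB, Set.indicator_of_mem hB]
        exact c1 n hn
      · rw [if_neg hB, Set.indicator_of_notMem hB, sub_zero, abs_zero]
        exact (abs_nonneg _).trans (c1 n hn)
    · rw [Finset.sum_const, Finset.card_range, nsmul_eq_mul]
  rw [Finset.sum_sub_distrib] at c2 c3
  have hk1 : ∑ i ∈ s.filter (fun i => r i ∈ B), w i =
      ∑ n ∈ range n₁, (if n ∈ B then a n else 0) +
        ∑ i ∈ s.filter (fun i => r i ∈ B ∧ n₁ ≤ r i), w i := k1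
  rw [hk1, t1]
  obtain ⟨d1, d2⟩ := abs_le.1 c2
  obtain ⟨d3, d4⟩ := abs_le.1 c3
  rw [abs_le]
  constructor <;> linarith

/-- The hypothesis of Job FAN. -/
def FanOK (k : ℕ) (A : ℕ → Finset ℕ) (r : Finset ℕ → ℕ) (δ : ℝ) : Prop :=
  (∀ i < k, (A i).Nonempty) ∧ ∀ i < k, StepOK r δ ((range i).biUnion A) (A i)

theorem card_pi (k : ℕ) (A : ℕ → Finset ℕ) :
    (((Fintype.piFinset fun i : Fin k => A i).card : ℕ) : ℝ) = ∏ i ∈ range k, ((A i).card : ℝ) := by
  rw [Fintype.card_piFinset, Finset.prod_range]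
  push_cast
  rfl

theorem card_pi_pos {k : ℕ} {A : ℕ → Finset ℕ} (h : ∀ i < k, (A i).Nonempty) :
    (0 : ℝ) < (((Fintype.piFinset fun i : Fin k => A i).card : ℕ) : ℝ) := by
  rw [card_pi]
  exact Finset.prod_pos fun i hi => by exact_mod_cast (h i (Finset.mem_range.1 hi)).card_pos

theorem frac_val {k : ℕ} {A : ℕ → Finset ℕ} (P : Finset ℕ → Prop) (s : Finset (Fin k → ℕ))
    (hs : ∀ Q, Q ∈ s ↔ Q ∈ (Fintype.piFinset fun i : Fin k => A i) ∧ P (univ.image Q)) :
    frac k A P = (s.card : ℝ) / (((Fintype.piFinset fun i : Fin k => A i).card : ℕ) : ℝ) := by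
  unfold frac
  congr 3
  ext Q
  rw [Finset.mem_filter, hs]

/-- The frequencies of one fan. -/
theorem fan_freq {k : ℕ} {A : ℕ → Finset ℕ} {r : Finset ℕ → ℕ} {δ : ℝ} (hδ : 0 ≤ δ)
    (h : FanOK k A r δ) (n : ℕ) :
    |frac k A (fun Z => r Z = n) - chain k (r ∅) n| ≤ 2 * k * δ := by
  have h1 := FanT.fan k A r δ hδ h.1 h.2 n
  have hpos := card_pi_pos h.1
  rw [← card_pi] at h1
  rw [frac_val (fun Z => r Z = n) ((Fintype.piFinset fun i : Fin k => A i).filter fun Q =>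
    r (univ.image Q) = n) (fun Q => Finset.mem_filter)]
  obtain ⟨T, hT⟩ : ∃ T : ℝ, T = (((Fintype.piFinset fun i : Fin k => A i).card : ℕ) : ℝ) := ⟨_, rfl⟩
  rw [← hT] at h1 hpos ⊢
  have e : (((Fintype.piFinset fun i : Fin k => A i).filter fun Q =>
      r (univ.image Q) = n).card : ℝ) / T - chain k (r ∅) n =
      ((((Fintype.piFinset fun i : Fin k => A i).filter fun Q =>
      r (univ.image Q) = n).card : ℝ) - chain k (r ∅) n * T) / T := by
    field_simp
  rw [e, abs_div, abs_of_pos hpos, div_le_iff₀ hpos]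
  exact h1

/-- The number `k` of levels. -/
theorem exists_k {ε : ℝ} (hε : 0 < ε) (n₁ R : ℕ) : ∃ k₀ : ℕ, ∀ k ≥ k₀, ∀ n < n₁, ∀ r ≤ R,
    |chain k r n + chain (k + 1) r n - 2 * C2 n| ≤ ε := by
  have h : ∀ n r : ℕ, ∃ k₀ : ℕ, ∀ k ≥ k₀, (k + r) % 2 = n % 2 → |chain k r n - 2 * C2 n| ≤ ε :=
    fun n r => (mk n r).2 ε hε
  choose K hK using h
  refine ⟨(range n₁ ×ˢ range (R + 1)).sup fun x => K x.1 x.2, fun k hk n hn r hr => ?_⟩
  have hk' : K n r ≤ k := le_trans (Finset.le_sup (f := fun x : ℕ × ℕ => K x.1 x.2) (b := (n, r))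
    (Finset.mem_product.2 ⟨Finset.mem_range.2 hn, Finset.mem_range.2 (Nat.lt_succ_of_le hr)⟩)) hk
  rcases Nat.mod_two_eq_zero_or_one (k + r + n) with h1 | h1
  · have h2 : (k + r) % 2 = n % 2 := by omega
    have h3 : (k + 1 + r) % 2 ≠ n % 2 := by omega
    rw [(mk n r).1 (k + 1) h3, add_zero]
    exact hK n r k hk' h2
  · have h2 : (k + r) % 2 ≠ n % 2 := by omega
    have h3 : (k + 1 + r) % 2 = n % 2 := by omega
    rw [(mk n r).1 k h2, zero_add]
    exact hK n r (k + 1) (by omega) h3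

theorem frac_sum {k : ℕ} {A : ℕ → Finset ℕ} (P : Finset ℕ → Prop) :
    frac k A P = ∑ Q ∈ (Fintype.piFinset fun i : Fin k => A i).filter (fun Q => P (univ.image Q)),
      (1 / (((Fintype.piFinset fun i : Fin k => A i).card : ℕ) : ℝ)) := by
  unfold frac
  rw [Finset.sum_const, nsmul_eq_mul]
  ring

/-- **Both fans.** -/
theorem tvcore {ε : ℝ} (hε : 0 < ε) (R : ℕ) : ∃ k₀ : ℕ, ∀ k ≥ k₀, ∃ δ : ℝ, 0 < δ ∧ δ ≤ 1 / 4 ∧
    ∀ (A A' : ℕ → Finset ℕ) (r : Finset ℕ → ℕ), r ∅ ≤ R → FanOK k A r δ → FanOK (k + 1) A' r δ →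
    ∀ B : Set ℕ, |(frac k A (fun Z => r Z ∈ B) + frac (k + 1) A' (fun Z => r Z ∈ B)) / 2 -
      ∑' n, B.indicator C2 n| ≤ ε := by
  -- the tail
  obtain ⟨n₁, hn₁⟩ : ∃ n₁ : ℕ, 1 - ∑ n ∈ range n₁, C2 n ≤ ε / 4 := by
    have h1 := c2.2.tendsto_sum_nat
    have h2 := h1.eventually (lt_mem_nhds (show 1 - ε / 4 < (1 : ℝ) by linarith))
    obtain ⟨n, hn⟩ := h2.exists
    exact ⟨n, by linarith⟩
  obtain ⟨η, hη, hη'⟩ : ∃ η : ℝ, 0 < η ∧ 2 * n₁ * η ≤ ε / 2 := by
    refine ⟨ε / (4 * (n₁ + 1)), by positivity, ?_⟩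
    rw [← mul_div_assoc, div_le_div_iff₀ (by positivity) (by norm_num)]
    nlinarith
  obtain ⟨k₀, hk₀⟩ := exists_k hη n₁ R
  refine ⟨k₀, fun k hk => ?_⟩
  obtain ⟨δ, hδ, hδ1, hδ2⟩ : ∃ δ : ℝ, 0 < δ ∧ δ ≤ 1 / 4 ∧ 2 * (2 * k + 1) * δ ≤ η := by
    refine ⟨min (1 / 4) (η / (2 * (2 * k + 1))), by positivity, min_le_left _ _, ?_⟩
    have h1 := min_le_right (1 / 4) (η / (2 * (2 * (k : ℝ) + 1)))
    calc 2 * (2 * (k : ℝ) + 1) * min (1 / 4) (η / (2 * (2 * (k : ℝ) + 1)))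
        ≤ 2 * (2 * (k : ℝ) + 1) * (η / (2 * (2 * (k : ℝ) + 1))) :=
          mul_le_mul_of_nonneg_left h1 (by positivity)
      _ = η := by field_simp
  refine ⟨δ, hδ, hδ1, fun A A' r hr hA hA' B => ?_⟩
  obtain ⟨P, hP⟩ : ∃ P : Finset (Fin k → ℕ), P = Fintype.piFinset fun i : Fin k => A i := ⟨_, rfl⟩
  obtain ⟨P', hP'⟩ : ∃ P' : Finset (Fin (k + 1) → ℕ),
    P' = Fintype.piFinset fun i : Fin (k + 1) => A' i := ⟨_, rfl⟩
  have hPpos : (0 : ℝ) < (P.card : ℝ) := by rw [hP]; exact card_pi_pos hA.1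
  have hPpos' : (0 : ℝ) < (P'.card : ℝ) := by rw [hP']; exact card_pi_pos hA'.1
  obtain ⟨w, hw⟩ : ∃ w : (Fin k → ℕ) ⊕ (Fin (k + 1) → ℕ) → ℝ,
      w = Sum.elim (fun _ => 1 / (2 * (P.card : ℝ))) (fun _ => 1 / (2 * (P'.card : ℝ))) := ⟨_, rfl⟩
  obtain ⟨ρ, hρ⟩ : ∃ ρ : (Fin k → ℕ) ⊕ (Fin (k + 1) → ℕ) → ℕ,
      ρ = Sum.elim (fun Q => r (univ.image Q)) (fun Q => r (univ.image Q)) := ⟨_, rfl⟩
  have hfr : ∀ C : Set ℕ, ∑ i ∈ (P.disjSum P').filter (fun i => ρ i ∈ C), w i =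
      (frac k A (fun Z => r Z ∈ C) + frac (k + 1) A' (fun Z => r Z ∈ C)) / 2 := by
    intro C
    rw [Finset.sum_filter, Finset.sum_disjSum, frac_sum, frac_sum, ← hP, ← hP', Finset.sum_filter,
      Finset.sum_filter, add_div, Finset.sum_div, Finset.sum_div, hρ, hw]
    congr 1
    · refine Finset.sum_congr rfl fun Q _ => ?_
      simp only [Sum.elim_inl]
      split_ifs
      · field_simp
      · simp
    · refine Finset.sum_congr rfl fun Q _ => ?_
      simp only [Sum.elim_inr]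
      split_ifs
      · field_simp
      · simp
  have hw0 : ∀ i ∈ P.disjSum P', 0 ≤ w i := by
    intro i _
    rw [hw]
    rcases i with i | i
    · simp only [Sum.elim_inl]
      positivity
    · simp only [Sum.elim_inr]
      positivity
  have hw1 : ∑ i ∈ P.disjSum P', w i = 1 := by
    rw [Finset.sum_disjSum, hw]
    simp only [Sum.elim_inl, Sum.elim_inr, Finset.sum_const, nsmul_eq_mul]
    field_simp
    norm_num
  have hval : ∀ n < n₁, |∑ i ∈ (P.disjSum P').filter (fun i => ρ i = n), w i - C2 n| ≤ η := by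
    intro n hn
    have e := hfr {n}
    simp only [Set.mem_singleton_iff] at e
    rw [e]
    have h1 := fan_freq hδ.le hA n
    have h2 := fan_freq hδ.le hA' n
    have h3 := hk₀ k hk n hn (r ∅) hr
    push_cast at h2
    rw [abs_le] at h1 h2 h3 ⊢
    constructor <;> linarith [h1.1, h1.2, h2.1, h2.2, h3.1, h3.2]
  have key := tvl (P.disjSum P') w ρ hw0 hw1 (fun n => (c2.1 n).le) c2.2 n₁ hval hn₁ B
  rw [hfr] at key
  exact key.trans (by linarith)

/-- **Job TV2.** -/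
theorem tv2 : S_TV2 := by
  intro ε hε R
  obtain ⟨k, hk⟩ := tvcore hε R
  obtain ⟨δ, hδ, hδ1, h⟩ := hk k le_rfl
  refine ⟨k, δ, hδ, hδ1, fun A hA r hr hst B => ?_⟩
  exact h A A r hr ⟨fun i hi => hA i (by omega), fun i hi => hst i (by omega)⟩ ⟨hA, hst⟩ B

/-- The map from the tuples to the sets is injective if the levels are disjoint. -/
theorem img_inj {k : ℕ} {A : ℕ → Finset ℕ} (hdis : ∀ i < k, ∀ j < i, Disjoint (A j) (A i)) :
    Set.InjOn (fun Q : Fin k → ℕ => univ.image Q)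
      ((Fintype.piFinset fun i : Fin k => A i : Finset (Fin k → ℕ)) : Set (Fin k → ℕ)) := by
  intro Q hQ Q' hQ' h
  have hQ1 := Fintype.mem_piFinset.1 (Finset.mem_coe.1 hQ)
  have hQ2 := Fintype.mem_piFinset.1 (Finset.mem_coe.1 hQ')
  funext i
  have h1 : Q i ∈ univ.image Q' := by
    have h2 : univ.image Q = univ.image Q' := h
    rw [← h2]
    exact Finset.mem_image_of_mem _ (Finset.mem_univ _)
  obtain ⟨j, -, hj⟩ := Finset.mem_image.1 h1
  by_contra hne
  have hij : (i : ℕ) ≠ j := by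
    intro h3
    have h4 : i = j := Fin.ext h3
    subst h4
    exact hne hj.symm
  have m1 : Q i ∈ A i := hQ1 i
  have m2 : Q i ∈ A j := by rw [← hj]; exact hQ2 j
  rcases lt_or_gt_of_ne hij with h3 | h3
  · exact Finset.disjoint_left.1 (hdis j j.2 i h3) m1 m2
  · exact Finset.disjoint_left.1 (hdis i i.2 j h3) m2 m1

theorem fanSets_filter {k : ℕ} {A : ℕ → Finset ℕ} (hdis : ∀ i < k, ∀ j < i, Disjoint (A j) (A i))
    (P : Finset ℕ → Prop) : ((fanSets k A).filter P).card =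
      ((Fintype.piFinset fun i : Fin k => A i).filter fun Q => P (univ.image Q)).card := by
  unfold fanSets
  rw [Finset.filter_image, Finset.card_image_of_injOn]
  intro Q hQ Q' hQ' h
  exact img_inj hdis (Finset.mem_coe.2 (Finset.mem_filter.1 (Finset.mem_coe.1 hQ)).1)
    (Finset.mem_coe.2 (Finset.mem_filter.1 (Finset.mem_coe.1 hQ')).1) h

theorem fanSets_card {k : ℕ} {A : ℕ → Finset ℕ} (hdis : ∀ i < k, ∀ j < i, Disjoint (A j) (A i)) :
    (fanSets k A).card = (Fintype.piFinset fun i : Fin k => A i).card := by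
  unfold fanSets
  exact Finset.card_image_of_injOn (img_inj hdis)

/-- The sets have `k` elements. -/
theorem fanSets_size {k : ℕ} {A : ℕ → Finset ℕ} (hdis : ∀ i < k, ∀ j < i, Disjoint (A j) (A i))
    {Z : Finset ℕ} (hZ : Z ∈ fanSets k A) : Z.card = k := by
  obtain ⟨Q, hQ, rfl⟩ := Finset.mem_image.1 hZ
  have hQ1 := Fintype.mem_piFinset.1 hQ
  rw [Finset.card_image_of_injective, Finset.card_univ, Fintype.card_fin]
  intro i j h
  by_contra hne
  have hij : (i : ℕ) ≠ j := fun h3 => hne (Fin.ext h3)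
  have m1 : Q i ∈ A i := hQ1 i
  have m2 : Q i ∈ A j := by
    have h2 : Q i = Q j := h
    rw [h2]
    exact hQ1 j
  rcases lt_or_gt_of_ne hij with h3 | h3
  · exact Finset.disjoint_left.1 (hdis j j.2 i h3) m1 m2
  · exact Finset.disjoint_left.1 (hdis i i.2 j h3) m2 m1

section lev

variable {k : ℕ} {A : ℕ → Finset ℕ} {U V₁ V₂ : Finset ℕ}

theorem lvA_lt {i : ℕ} (hi : i < k) : lvA k A U i = A i := if_pos hi

theorem lvA_last : lvA k A U k = U := if_neg (lt_irrefl k)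

theorem lvB_lt {i : ℕ} (hi : i < k) : lvB k A V₁ V₂ i = A i := if_pos hi

theorem lvB_k : lvB k A V₁ V₂ k = V₁ := by
  unfold lvB
  rw [if_neg (lt_irrefl k), if_pos rfl]

theorem lvB_last : lvB k A V₁ V₂ (k + 1) = V₂ := by
  unfold lvB
  rw [if_neg (by omega), if_neg (by omega)]

theorem union_lvA {i : ℕ} (hi : i ≤ k) : (range i).biUnion (lvA k A U) = (range i).biUnion A :=
  Finset.biUnion_congr rfl fun j hj => lvA_lt ((Finset.mem_range.1 hj).trans_le hi)

theorem union_lvB {i : ℕ} (hi : i ≤ k) :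
    (range i).biUnion (lvB k A V₁ V₂) = (range i).biUnion A :=
  Finset.biUnion_congr rfl fun j hj => lvB_lt ((Finset.mem_range.1 hj).trans_le hi)

theorem union_lvB' : (range (k + 1)).biUnion (lvB k A V₁ V₂) = (range k).biUnion A ∪ V₁ := by
  rw [Finset.range_add_one, Finset.biUnion_insert, union_lvB le_rfl, lvB_k, Finset.union_comm]

theorem lvA_dis (h : Lev k A U V₁ V₂) : ∀ i < k + 1, ∀ j < i,
    Disjoint (lvA k A U j) (lvA k A U i) := by
  intro i hi j hj
  rcases Nat.lt_succ_iff_lt_or_eq.1 hi with h1 | rfl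
  · rw [lvA_lt h1, lvA_lt (hj.trans h1)]
    exact h.dis i h1 j hj
  · rw [lvA_last, lvA_lt hj]
    exact h.disU j hj

theorem lvB_dis (h : Lev k A U V₁ V₂) : ∀ i < k + 2, ∀ j < i,
    Disjoint (lvB k A V₁ V₂ j) (lvB k A V₁ V₂ i) := by
  intro i hi j hj
  have h3 : i < k ∨ i = k ∨ i = k + 1 := by omega
  rcases h3 with h1 | rfl | rfl
  · rw [lvB_lt h1, lvB_lt (hj.trans h1)]
    exact h.dis i h1 j hj
  · rw [lvB_k, lvB_lt hj]
    exact h.dis1 j hj
  · rw [lvB_last]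
    rcases Nat.lt_succ_iff_lt_or_eq.1 hj with h2 | rfl
    · rw [lvB_lt h2]
      exact h.dis2 j h2
    · rw [lvB_k]
      exact h.dis12

theorem lvA_ne (h : Lev k A U V₁ V₂) : ∀ i < k + 1, (lvA k A U i).Nonempty := by
  intro i hi
  rcases Nat.lt_succ_iff_lt_or_eq.1 hi with h1 | rfl
  · rw [lvA_lt h1]
    exact h.ne i h1
  · rw [lvA_last]
    exact h.neU

theorem lvB_ne (h : Lev k A U V₁ V₂) : ∀ i < k + 2, (lvB k A V₁ V₂ i).Nonempty := by
  intro i hi
  have h3 : i < k ∨ i = k ∨ i = k + 1 := by omega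
  rcases h3 with h1 | rfl | rfl
  · rw [lvB_lt h1]
    exact h.ne i h1
  · rw [lvB_k]
    exact h.ne1
  · rw [lvB_last]
    exact h.ne2

end lev

/-- **Job TV.** -/
theorem tv : S_TV := by
  intro ε hε R
  obtain ⟨k, hk⟩ := tvcore hε R
  obtain ⟨δ, hδ, hδ1, h⟩ := hk (k + 1) (Nat.le_succ k)
  refine ⟨k, δ, hδ, hδ1, fun A U V₁ V₂ hlev r hr hA hU h1 h2 B => ?_⟩
  have fA : FanOK (k + 1) (lvA k A U) r δ := by
    refine ⟨lvA_ne hlev, fun i hi => ?_⟩
    rcases Nat.lt_succ_iff_lt_or_eq.1 hi with h3 | rfl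
    · rw [lvA_lt h3, union_lvA h3.le]
      exact hA i h3
    · rw [lvA_last, union_lvA le_rfl]
      exact hU
  have fB : FanOK (k + 1 + 1) (lvB k A V₁ V₂) r δ := by
    refine ⟨lvB_ne hlev, fun i hi => ?_⟩
    have h3 : i < k ∨ i = k ∨ i = k + 1 := by omega
    rcases h3 with h3 | rfl | rfl
    · rw [lvB_lt h3, union_lvB h3.le]
      exact hA i h3
    · rw [lvB_k, union_lvB le_rfl]
      exact h1
    · rw [lvB_last, union_lvB']
      exact h2
  have key := h (lvA k A U) (lvB k A V₁ V₂) r hr fA fB B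
  -- the cardinalities
  obtain ⟨N, hN⟩ : ∃ N : ℝ, N = (((Fintype.piFinset fun i : Fin (k + 1) =>
    lvA k A U i).card : ℕ) : ℝ) := ⟨_, rfl⟩
  have hNpos : 0 < N := by rw [hN]; exact card_pi_pos (lvA_ne hlev)
  have hN' : N = (((Fintype.piFinset fun i : Fin (k + 1 + 1) => lvB k A V₁ V₂ i).card : ℕ) : ℝ) := by
    rw [hN, card_pi, card_pi, Finset.prod_range_succ, Finset.prod_range_succ,
      Finset.prod_range_succ, lvA_last, lvB_k, lvB_last, mul_assoc]
    have e1 : ∏ i ∈ range k, ((lvA k A U i).card : ℝ) = ∏ i ∈ range k, ((A i).card : ℝ) :=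
      Finset.prod_congr rfl fun i hi => by rw [lvA_lt (Finset.mem_range.1 hi)]
    have e2 : ∏ i ∈ range k, ((lvB k A V₁ V₂ i).card : ℝ) = ∏ i ∈ range k, ((A i).card : ℝ) :=
      Finset.prod_congr rfl fun i hi => by rw [lvB_lt (Finset.mem_range.1 hi)]
    rw [e1, e2, hlev.card]
    push_cast
    ring
  have hdisj : ∀ P : Finset ℕ → Prop, Disjoint ((fanSets (k + 1) (lvA k A U)).filter P)
      ((fanSets (k + 2) (lvB k A V₁ V₂)).filter P) := by
    intro P
    rw [Finset.disjoint_left]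
    intro Z hZ hZ'
    have h3 := fanSets_size (lvA_dis hlev) (Finset.mem_filter.1 hZ).1
    have h4 := fanSets_size (lvB_dis hlev) (Finset.mem_filter.1 hZ').1
    omega
  have hcard : ∀ P : Finset ℕ → Prop, (((ZZ k A U V₁ V₂).filter P).card : ℝ) =
      N * frac (k + 1) (lvA k A U) P + N * frac (k + 1 + 1) (lvB k A V₁ V₂) P := by
    intro P
    unfold ZZ
    rw [Finset.filter_union, Finset.card_union_of_disjoint (hdisj P),
      fanSets_filter (lvA_dis hlev), fanSets_filter (lvB_dis hlev)]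
    unfold frac
    rw [← hN, ← hN']
    push_cast
    field_simp
  have hall : ((ZZ k A U V₁ V₂).card : ℝ) = 2 * N := by
    have h3 := hcard fun _ => True
    have f1 : frac (k + 1) (lvA k A U) (fun _ => True) = 1 := by
      rw [frac_val (fun _ => True) (Fintype.piFinset fun i : Fin (k + 1) => lvA k A U i)
        (fun Q => (and_iff_left trivial).symm), ← hN, div_self hNpos.ne']
    have f2 : frac (k + 1 + 1) (lvB k A V₁ V₂) (fun _ => True) = 1 := by
      rw [frac_val (fun _ => True) (Fintype.piFinset fun i : Fin (k + 1 + 1) => lvB k A V₁ V₂ i)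
        (fun Q => (and_iff_left trivial).symm), ← hN', div_self hNpos.ne']
    rw [f1, f2] at h3
    have e2 : (((ZZ k A U V₁ V₂).card : ℕ) : ℝ) = N * 1 + N * 1 := by
      rw [← h3]
      congr 2
      ext Q
      simp
    rw [e2]
    ring
  rw [hcard, hall]
  have e : N * frac (k + 1) (lvA k A U) (fun Z => r Z ∈ B) +
      N * frac (k + 1 + 1) (lvB k A V₁ V₂) (fun Z => r Z ∈ B) -
      (∑' n, B.indicator C2 n) * (2 * N) =
      2 * N * ((frac (k + 1) (lvA k A U) (fun Z => r Z ∈ B) +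
        frac (k + 1 + 1) (lvB k A V₁ V₂) (fun Z => r Z ∈ B)) / 2 - ∑' n, B.indicator C2 n) := by
    ring
  rw [e, abs_mul, abs_of_pos (by positivity : 0 < 2 * N), mul_comm]
  exact mul_le_mul_of_nonneg_right key (by positivity)

end Pool.Agent.Helper29L
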