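import Pool.Agent.Helper29L.Grp

/-!
# Balanced classes: the proportion of the primes at which a whole Selmer group is trivial
-/

set_option autoImplicit false
set_option linter.all false

open IsDedekindDomain NumberField
open scoped Classical

namespace Pool.Agent.Helper29L

open Pool.Agent.N922.PQ
open Pool.Agent.Helper29K (InFamily)
open Pool.Agent.N874.PP (Tup chA chB gq tau Two Ev Sq1 U0 sW)

/-- The sign of an element of `ZMod 2`. -/
noncomputable def sgn2 (x : ZMod 2) : ℝ := if x = 0 then 1 else -1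

theorem zmod2_cases (x : ZMod 2) : x = 0 ∨ x = 1 := by
  fin_cases x
  · exact Or.inl rfl
  · exact Or.inr rfl

theorem sgn2_add (x y : ZMod 2) : sgn2 (x + y) = sgn2 x * sgn2 y := by
  have h1 : (1 : ZMod 2) + 1 = 0 := CharTwo.add_self_eq_zero _
  rcases zmod2_cases x with rfl | rfl <;> rcases zmod2_cases y with rfl | rfl <;>
    simp [sgn2, h1]

/-- The sum of the signs over a group. -/
theorem sum_sgn {W : Type} [AddCommGroup W] [Fintype W] (l : W → ZMod 2)
    (hl : ∀ v w, l (v + w) = l v + l w) :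
    ∑ w, sgn2 (l w) = if ∀ w, l w = 0 then (Fintype.card W : ℝ) else 0 := by
  by_cases h : ∀ w, l w = 0
  · rw [if_pos h]
    have h1 : ∀ w, sgn2 (l w) = 1 := fun w => by rw [h w]; simp [sgn2]
    simp [h1]
  · rw [if_neg h]
    push Not at h
    obtain ⟨v, hv⟩ := h
    have h1 : sgn2 (l v) = -1 := by simp [sgn2, hv]
    have h2 : ∑ w, sgn2 (l w) = ∑ w, sgn2 (l (v + w)) :=
      (Equiv.sum_comp (Equiv.addLeft v) fun w => sgn2 (l w)).symm
    have h3 : ∑ w, sgn2 (l (v + w)) = -∑ w, sgn2 (l w) := by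
      rw [← Finset.sum_neg_distrib]
      refine Finset.sum_congr rfl fun w _ => ?_
      rw [hl, sgn2_add, h1, neg_one_mul]
    rw [h3] at h2
    linarith

/-- **The proportion of the vanishing functionals.** -/
theorem char_count {W : Type} [AddCommGroup W] [Fintype W] {ι : Type} (A : Finset ι)
    (l : ι → W → ZMod 2) (hl : ∀ q v w, l q (v + w) = l q v + l q w) (h0 : ∀ q, l q 0 = 0) {δ : ℝ}
    (hδ : 0 ≤ δ)
    (hb : ∀ w, w ≠ 0 → |((A.filter fun q => l q w = 0).card : ℝ) - 1 / 2 * A.card| ≤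
      δ * A.card) :
    |((A.filter fun q => ∀ w, l q w = 0).card : ℝ) - A.card / Fintype.card W| ≤
      2 * δ * A.card := by
  obtain ⟨N, hN⟩ : ∃ N : ℝ, N = Fintype.card W := ⟨_, rfl⟩
  have hN1 : 1 ≤ N := by
    rw [hN]
    exact_mod_cast Fintype.card_pos
  have hA : (0 : ℝ) ≤ A.card := Nat.cast_nonneg _
  -- double sum
  have e1 : ∑ q ∈ A, ∑ w, sgn2 (l q w) = N * ((A.filter fun q => ∀ w, l q w = 0).card : ℝ) := by
    rw [Finset.sum_congr rfl fun q _ => sum_sgn (l q) (hl q), ← hN, Finset.sum_ite,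
      Finset.sum_const_zero, add_zero, Finset.sum_const, nsmul_eq_mul, mul_comm]
  have e2 : ∀ w, ∑ q ∈ A, sgn2 (l q w) =
      2 * (((A.filter fun q => l q w = 0).card : ℝ) - 1 / 2 * A.card) := by
    intro w
    have h1 : ∀ q ∈ A, sgn2 (l q w) = 2 * (if l q w = 0 then 1 else 0) - 1 := by
      intro q _
      unfold sgn2
      split_ifs <;> norm_num
    rw [Finset.sum_congr rfl h1, Finset.sum_sub_distrib, ← Finset.mul_sum, Finset.sum_const,
      nsmul_eq_mul, Finset.card_filter]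
    push_cast
    ring
  rw [Finset.sum_comm, ← Finset.add_sum_erase _ _ (Finset.mem_univ (0 : W))] at e1
  have e3 : ∑ q ∈ A, sgn2 (l q 0) = A.card := by
    have h1 : ∀ q ∈ A, sgn2 (l q 0) = 1 := fun q _ => by rw [h0 q]; simp [sgn2]
    rw [Finset.sum_congr rfl h1]
    simp
  rw [e3] at e1
  have e4 : |∑ w ∈ Finset.univ.erase (0 : W), ∑ q ∈ A, sgn2 (l q w)| ≤ (N - 1) * (2 * δ * A.card) := by
    refine (Finset.abs_sum_le_sum_abs _ _).trans ?_
    have h1 : ∀ w ∈ Finset.univ.erase (0 : W), |∑ q ∈ A, sgn2 (l q w)| ≤ 2 * δ * A.card := by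
      intro w hw
      rw [e2 w, abs_mul, abs_two]
      have := hb w (Finset.ne_of_mem_erase hw)
      linarith
    refine (Finset.sum_le_sum h1).trans ?_
    rw [Finset.sum_const, nsmul_eq_mul, Finset.card_erase_of_mem (Finset.mem_univ _),
      Finset.card_univ, Nat.cast_sub Fintype.card_pos, ← hN, Nat.cast_one]
  have e5 : N * (((A.filter fun q => ∀ w, l q w = 0).card : ℝ) - A.card / N) =
      ∑ w ∈ Finset.univ.erase (0 : W), ∑ q ∈ A, sgn2 (l q w) := by
    have : N ≠ 0 := by linarith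
    rw [mul_sub, ← e1]
    field_simp
    ring
  rw [← hN]
  have e6 : N * |((A.filter fun q => ∀ w, l q w = 0).card : ℝ) - A.card / N| ≤
      N * (2 * δ * A.card) := by
    have e7 : N * |((A.filter fun q => ∀ w, l q w = 0).card : ℝ) - A.card / N| =
        |N * (((A.filter fun q => ∀ w, l q w = 0).card : ℝ) - A.card / N)| := by
      rw [abs_mul, abs_of_pos (show 0 < N by linarith)]
    rw [e7, e5]
    refine e4.trans ?_
    refine mul_le_mul_of_nonneg_right (by linarith) (by positivity)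
  exact le_of_mul_le_mul_left e6 (by linarith)

section grp

variable {L : Type} [Field L] [NumberField L] {a b : ℤ} {θ : L} {S : Finset ℤ}
  {𝔮 : ℤ → HeightOneSpectrum (𝓞 L)}

/-- The nontrivial classes of `Sel(Z)` are balanced on `A`. -/
def Balanced (θ : L) (a b : ℤ) (𝔮 : ℤ → HeightOneSpectrum (𝓞 L)) (Z A : Finset ℤ) (δ : ℝ) : Prop :=
  ∀ α : L, InSel a b Z θ α → ¬ IsSquare α →
    |((A.filter fun Q => Sq1 (𝔮 Q) α).card : ℝ) - 1 / 2 * A.card| ≤ δ * A.card

theorem Ctx.sq_psi (C : Ctx a b θ S 𝔮) {α : L} (hα : α ≠ 0) (h : IsSquare α) :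
    psi θ S 𝔮 α = 0 := by
  obtain ⟨x, rfl⟩ := h
  exact C.psi_sq (left_ne_zero_of_mul hα)

/-- Injectivity from the balance of `Sel(∅)`. -/
theorem inj_of (C : Ctx a b θ S 𝔮) {A : Finset ℤ} (hA : A ⊆ S) (hne : A.Nonempty) {δ : ℝ}
    (hδ : δ < 1 / 2) (hb : Balanced θ a b 𝔮 ∅ A δ) : Inj C := by
  intro α hα h0
  by_contra hns
  have hsel : InSel a b ∅ θ α := by
    rw [← mem_WZ C (Finset.empty_subset _) hα, h0]
    exact Submodule.zero_mem _
  have h1 := hb α hsel hns
  have h2 : A.filter (fun Q => Sq1 (𝔮 Q) α) = A := by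
    rw [Finset.filter_eq_self]
    intro Q hQ
    have h3 := (psi_snd (θ := θ) (𝔮 := 𝔮) (α := α) (⟨Q, hA hQ⟩ : S)).1 (by rw [h0]; rfl)
    have h4 := (psi_fst (θ := θ) (𝔮 := 𝔮) (α := α) (⟨Q, hA hQ⟩ : S)).1 (by rw [h0]; rfl)
    exact h3.1 h4
  rw [h2] at h1
  have h3 : (0 : ℝ) < A.card := by exact_mod_cast hne.card_pos
  have h4 := le_abs_self ((A.card : ℝ) - 1 / 2 * A.card)
  nlinarith

/-- The two possibilities. -/
theorem rk_step (hLIN : S_LIN2) (hSIZE : S_SIZE) (C : Ctx a b θ S 𝔮) (hI : Inj C) {Z : Finset ℤ}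
    {q : ℤ} (hq : q ∈ S) (hqZ : q ∉ Z) :
    ((∀ v ∈ WZ (VV C) (sub S Z), (v ⟨q, hq⟩).2 = 0) → rk C (insert q Z) = rk C Z + 1) ∧
    ((∃ v ∈ WZ (VV C) (sub S Z), (v ⟨q, hq⟩).2 ≠ 0) → rk C (insert q Z) + 1 = rk C Z) := by
  have h := hLIN S (VV C) (VV_iso C) (VV_rank hSIZE C hI) (sub S Z) ⟨q, hq⟩ (by rwa [mem_sub])
  unfold rk
  have e : sub S (insert q Z) = @insert S (Finset S)
      (@Finset.instInsert S (fun x y => Classical.propDecidable (x = y))) ⟨q, hq⟩ (sub S Z) := by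
    ext x
    rw [@Finset.mem_insert _ (fun x y => Classical.propDecidable (x = y)), mem_sub, mem_sub,
      Finset.mem_insert]
    exact or_congr_left ⟨fun h => Subtype.ext h, fun h => congrArg Subtype.val h⟩
  rw [e]
  exact h

/-- **The proportion of the primes at which the rank grows.** -/
theorem up_count (hLIN : S_LIN2) (hSIZE : S_SIZE) (C : Ctx a b θ S 𝔮) (hI : Inj C)
    {Z A : Finset ℤ} (hZ : Z ⊆ S) (hA : A ⊆ S) (hdis : Disjoint Z A) {δ : ℝ} (hδ : 0 ≤ δ)
    (hb : Balanced θ a b 𝔮 Z A δ) :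
    (∀ q ∈ A, rk C (insert q Z) = rk C Z + 1 ∨ rk C (insert q Z) + 1 = rk C Z) ∧
    |((A.filter fun q => rk C (insert q Z) = rk C Z + 1).card : ℝ) -
      (1 / 2) ^ rk C Z * A.card| ≤ 2 * δ * A.card := by
  have hstep : ∀ q (hq : q ∈ A), ((∀ v ∈ WZ (VV C) (sub S Z), (v ⟨q, hA hq⟩).2 = 0) →
      rk C (insert q Z) = rk C Z + 1) ∧
      ((∃ v ∈ WZ (VV C) (sub S Z), (v ⟨q, hA hq⟩).2 ≠ 0) → rk C (insert q Z) + 1 = rk C Z) :=
    fun q hq => rk_step hLIN hSIZE C hI (hA hq) fun h => Finset.disjoint_left.1 hdis h hq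
  constructor
  · intro q hq
    by_cases h : ∀ v ∈ WZ (VV C) (sub S Z), (v ⟨q, hA hq⟩).2 = 0
    · exact Or.inl ((hstep q hq).1 h)
    · push Not at h
      exact Or.inr ((hstep q hq).2 h)
  · letI : Fintype (WZ (VV C) (sub S Z)) := Fintype.ofFinite _
    have hcard : (Fintype.card (WZ (VV C) (sub S Z)) : ℝ) = 2 ^ rk C Z := by
      rw [← Nat.card_eq_fintype_card, card_sub]
      push_cast
      rfl
    obtain ⟨l, hl⟩ : ∃ l : ℤ → WZ (VV C) (sub S Z) → ZMod 2, ∀ q, l q = fun v =>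
        if hq : q ∈ S then (v.1 ⟨q, hq⟩).2 else 0 := ⟨_, fun q => rfl⟩
    have hlS : ∀ q (hq : q ∈ S) v, l q v = ((v : S → ZMod 2 × ZMod 2) ⟨q, hq⟩).2 := by
      intro q hq v
      rw [hl]
      simp only [dif_pos hq]
    have h := char_count (W := WZ (VV C) (sub S Z)) A l (by
        intro q v w
        by_cases hq : q ∈ S
        · rw [hlS q hq, hlS q hq, hlS q hq]
          rfl
        · rw [hl]
          simp only [dif_neg hq, add_zero]) (by
        intro q
        by_cases hq : q ∈ S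
        · rw [hlS q hq]
          rfl
        · rw [hl]
          simp only [dif_neg hq]) hδ (by
        rintro ⟨w, hw⟩ hw0
        obtain ⟨α, hα, rfl⟩ := hw.1
        have hsel : InSel a b Z θ α := (mem_WZ C hZ hα).1 hw
        have hns : ¬ IsSquare α := by
          intro hsq
          exact hw0 (Subtype.ext (C.sq_psi hα.ne hsq))
        have h1 := hb α hsel hns
        have h2 : (A.filter fun q => l q ⟨psi θ S 𝔮 α, hw⟩ = 0) =
            A.filter fun Q => Sq1 (𝔮 Q) α := by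
          refine Finset.filter_congr fun q hq => ?_
          rw [hlS q (hA hq)]
          have hev : Ev (𝔮 q) α := by
            refine (psi_fst (θ := θ) (𝔮 := 𝔮) (⟨q, hA hq⟩ : S)).1 (hw.2.1 ⟨q, hA hq⟩ ?_)
            rw [mem_sub]
            exact fun h => Finset.disjoint_left.1 hdis h hq
          show (psi θ S 𝔮 α ⟨q, hA hq⟩).2 = 0 ↔ Sq1 (𝔮 q) α
          rw [psi_snd]
          exact ⟨fun h => h.1 hev, fun h => ⟨fun _ => h, fun h2 => absurd hev h2⟩⟩
        rw [h2]
        exact h1)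
    have h2 : (A.filter fun q => rk C (insert q Z) = rk C Z + 1) =
        A.filter fun q => ∀ w, l q w = 0 := by
      refine Finset.filter_congr fun q hq => ?_
      constructor
      · intro h3
        by_contra h4
        push Not at h4
        obtain ⟨v, hv⟩ := h4
        rw [hlS q (hA hq)] at hv
        have := (hstep q hq).2 ⟨v, v.2, hv⟩
        omega
      · intro h3
        refine (hstep q hq).1 fun v hv => ?_
        have := h3 ⟨v, hv⟩
        rwa [hlS q (hA hq)] at this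
    rw [h2]
    rw [hcard] at h
    have e : (1 / 2 : ℝ) ^ rk C Z * (A.card : ℝ) = (A.card : ℝ) / 2 ^ rk C Z := by
      rw [one_div, inv_pow]
      field_simp
    rw [e]
    exact h

/-- The rank of `Sel(∅)` is at most the number of the primes in `A`. -/
theorem rk_le (C : Ctx a b θ S 𝔮) {A : Finset ℤ} (hA : A ⊆ S) (hne : A.Nonempty) {δ : ℝ}
    (hδ : δ < 1 / 2) (hb : Balanced θ a b 𝔮 ∅ A δ) : rk C ∅ ≤ A.card := by
  let g : WZ (VV C) (sub S ∅) →ₗ[ZMod 2] (A → ZMod 2) :=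
    { toFun := fun v Q => ((v : S → ZMod 2 × ZMod 2) ⟨Q, hA Q.2⟩).2
      map_add' := fun v w => rfl
      map_smul' := fun c v => rfl }
  have hg : Function.Injective g := by
    rw [← LinearMap.ker_eq_bot, LinearMap.ker_eq_bot']
    rintro ⟨w, hw⟩ hw0
    obtain ⟨α, hα, rfl⟩ := hw.1
    have hsel : InSel a b ∅ θ α := (mem_WZ C (Finset.empty_subset _) hα).1 hw
    by_cases hsq : IsSquare α
    · exact Subtype.ext (C.sq_psi hα.ne hsq)
    · exfalso
      have h1 := hb α hsel hsq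
      have h2 : A.filter (fun Q => Sq1 (𝔮 Q) α) = A := by
        rw [Finset.filter_eq_self]
        intro Q hQ
        have h3 : (psi θ S 𝔮 α ⟨Q, hA hQ⟩).2 = 0 := congrFun hw0 ⟨Q, hQ⟩
        have h4 : (psi θ S 𝔮 α ⟨Q, hA hQ⟩).1 = 0 := hw.2.1 ⟨Q, hA hQ⟩ (by rw [mem_sub]; simp)
        exact ((psi_snd (⟨Q, hA hQ⟩ : S)).1 h3).1 ((psi_fst (θ := θ) (⟨Q, hA hQ⟩ : S)).1 h4)
      rw [h2] at h1
      have h3 : (0 : ℝ) < A.card := by exact_mod_cast hne.card_pos
      have h4 := le_abs_self ((A.card : ℝ) - 1 / 2 * A.card)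
      nlinarith
  have h1 := LinearMap.finrank_le_finrank_of_injective hg
  rw [Module.finrank_fintype_fun_eq_card, Fintype.card_coe] at h1
  exact h1

end grp

end Pool.Agent.Helper29L
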