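import Pool.Agent.Helper29L.LOW8

/-!
# Job LOW: the classes which are locally trivial
-/

set_option autoImplicit false
set_option linter.all false

open NumberField IsDedekindDomain WithZero WeierstrassCurve WeierstrassCurve.Affine
open scoped NNReal Classical

namespace Pool.Agent.Helper29L.LOW

open Pool.Agent
open Pool.Agent.TH115.GD
open Pool.Agent.Y710.CV (Cond cond1 cond2 sC_at neg_two)
open Pool.Agent.Y702.G (sh base pts)
open Pool.Agent.R425 (exists_cls sq_of_triv)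
open Pool.Agent.R425.G
open Pool.Agent.H30GR (sq_of_diff presK tower tE tE_surj tE_inj tE_map loc_tr lt_to)

/-- Classes over `ℚ`, locally trivial over `K`, different over `K`. -/
theorem exists_classes' (K : Type) [Field K] [NumberField K] [IsGalois ℚ K] {W : WeierstrassCurve ℤ}
    (hW : W.Δ < 0) (hnr : ∀ x : K, cub (sh W) x ≠ 0) {A : Type} [Field A] [NumberField A] {θ : A}
    (hcf : CF (sh W) A θ) {n : ℕ} (z : Fin n → A) (hz0 : ∀ i, z i ≠ 0)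
    (hzn : ∀ i, IsSquare (Algebra.norm ℚ (z i))) (hzd : ∀ i j, IsSquare (z i * z j) → i = j)
    (hcondF : ∀ (i : Fin n) (v : HeightOneSpectrum (𝓞 K)),
      Cond (v.adicCompletion K) (AlgebraicClosure (v.adicCompletion K)) (sh W) θ (z i))
    (Ω : Type) [Field Ω] [Algebra K Ω] [Algebra ℚ Ω] [IsScalarTower ℚ K Ω] [IsGalois ℚ Ω]
    [IsGalois K Ω] [IsAlgClosed Ω] :
    ∃ (g : Fin n → (Ω ≃ₐ[ℚ] Ω) → Pt (sh W) Ω),
      (∀ i, IsLocallyConstant (g i) ∧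
        (∀ σ τ, g i (σ * τ) = g i σ + act (sh W) (ak σ) (g i τ)) ∧ (∀ σ, g i σ + g i σ = 0) ∧
        (∀ (v : HeightOneSpectrum (𝓞 K)) (L Ω' : Type) [Field L] [Field Ω'] [Algebra L Ω']
          [Algebra ℚ L] [Algebra ℚ Ω'] [IsScalarTower ℚ L Ω'] [IsSepClosed Ω'] [IsGalois L Ω'],
          (v.adicCompletion K →+* L) → LocTriv (F := ℚ) (Ω := Ω) (sh W) L Ω' (g i)) ∧
        (∀ (L Ω' : Type) [Field L] [Field Ω'] [Algebra L Ω']
          [Algebra ℚ L] [Algebra ℚ Ω'] [IsScalarTower ℚ L Ω'] [IsSepClosed Ω'] [IsGalois L Ω'],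
          (ℝ →+* L) → LocTriv (F := ℚ) (Ω := Ω) (sh W) L Ω' (g i))) ∧
      ∀ i j, (∃ T : Pt (sh W) Ω, T + T = 0 ∧ ∀ σ : Ω ≃ₐ[K] Ω,
        g i (σ.restrictScalars ℚ) - g j (σ.restrictScalars ℚ) = act (sh W) (rs ℚ σ) T - T) →
        i = j := by
  haveI : CharZero Ω := algebraRat.charZero _
  have hV := iv_sh W hW.ne
  have hnrQ : ∀ x : ℚ, cub (sh W) x ≠ 0 := by
    intro x hx
    apply hnr (algebraMap ℚ K x)
    have h := cub_map (sh W) (incl ℚ ℚ K) x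
    rw [hx, map_zero] at h
    exact h
  choose r0 hr00 using hzn
  have hr : ∀ i, Algebra.norm ℚ (z i) = r0 i ^ 2 := fun i => by rw [hr00 i, sq]
  have hr0 : ∀ i, r0 i ≠ 0 := by
    intro i h
    have h1 := hr i
    rw [h, zero_pow two_ne_zero, Algebra.norm_eq_zero_iff] at h1
    exact hz0 i h1
  obtain ⟨a, b, c, hC⟩ := Y355.G.V_roots hV.a1 hV.a3 hV.Δ Ω
  have hcondI : ∀ i : Fin n, Cond ℝ (AlgebraicClosure ℝ) (sh W) θ (z i) :=
    fun i => cond_real hcf hW (hr0 i) (hr i) (RingEquiv.refl ℝ)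
  have hnorm : ∀ i, zf hcf (z i) a * zf hcf (z i) b * zf hcf (z i) c =
      algebraMap ℚ Ω (r0 i) ^ 2 := by
    intro i
    have h1 := norm_em hcf hC (z i)
    rw [← zf_root hcf (z i) ⟨a, hC.root_a⟩, ← zf_root hcf (z i) ⟨b, hC.root_b⟩,
      ← zf_root hcf (z i) ⟨c, hC.root_c⟩, hr i, map_pow] at h1
    exact h1.symm
  have hζ0 : ∀ i, ∀ e : Ω, cub (sh W) e = 0 → zf hcf (z i) e ≠ 0 := by
    intro i e he h0
    have h1 := zf_root hcf (z i) (⟨e, he⟩ : Rt (sh W) Ω)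
    rw [h0] at h1
    exact hz0 i ((em hcf _).injective ((map_zero _).trans h1).symm)
  have hcls := fun i => exists_cls hC (fun e => zf hcf (z i) e)
    (fun σ e he => zf_equi hcf (z i) σ he) (hζ0 i) (r := r0 i) (hnorm i)
  choose g tt hg1 hg2 hg3 hg4 hg5 hg6 using hcls
  set ia := em hcf (⟨a, hC.root_a⟩ : Rt (sh W) Ω) with hia
  have hθ : (ia : A →+* Ω) θ = a := em_root hcf _
  have hk : ∀ i, ∀ τ : Ω ≃ₐ[ℚ] Ω, τ a = a → τ (tt i a) = sC a (g i τ) * tt i a := by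
    intro i τ hτ
    have h := hg6 i τ a hC.root_a
    have h3 : τ⁻¹ a = a := by
      apply τ.injective
      rw [← AlgEquiv.mul_apply, mul_inv_cancel]
      exact hτ.symm
    rwa [h3] at h
  have hta : ∀ i, tt i a ^ 2 = (ia : A →+* Ω) (z i) := fun i =>
    (hg4 i a hC.root_a).2.trans (zf_root hcf (z i) ⟨a, hC.root_a⟩)
  have hcore : ∀ (i : Fin n) (L Ω' : Type) [Field L] [Field Ω'] [Algebra L Ω']
      [Algebra ℚ L] [Algebra ℚ Ω'] [IsScalarTower ℚ L Ω'] [IsSepClosed Ω'] [IsGalois L Ω'],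
      Cond L Ω' (sh W) θ (z i) → LocTriv (F := ℚ) (Ω := Ω) (sh W) L Ω' (g i) := by
    intro i L Ω' _ _ _ _ _ _ _ _ hcond
    exact Pool.Agent.Y710.CV.core' (sh W) (ia : A →+* Ω) (θ := θ)
      (b := b) (c := c) (by rw [hθ]; exact hC) hnrQ (hg2 i) (hg3 i)
      (t := tt i a) (hg4 i a hC.root_a).1 (hta i)
      (by rw [hθ]; exact hk i) hcond
  refine ⟨g, fun i => ⟨hg1 i, hg2 i, hg3 i, ?_, ?_⟩, ?_⟩
  · intro v L Ω' _ _ _ _ _ _ _ _ j
    haveI : CharZero (v.adicCompletion K) := algebraRat.charZero _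
    haveI : IsGalois (v.adicCompletion K) (AlgebraicClosure (v.adicCompletion K)) := inferInstance
    obtain ⟨a', b', c', hC'⟩ := Y355.G.V_roots hV.a1 hV.a3 hV.Δ
      (AlgebraicClosure (v.adicCompletion K))
    exact hcore i L Ω' (cond_base hcf hC' j (cond_conv _ _ _ _ _ _ (hcondF i v)))
  · intro L Ω' _ _ _ _ _ _ _ _ j
    haveI : IsGalois ℝ (AlgebraicClosure ℝ) := inferInstance
    obtain ⟨a', b', c', hC'⟩ := Y355.G.V_roots hV.a1 hV.a3 hV.Δ (AlgebraicClosure ℝ)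
    exact hcore i L Ω' (cond_base hcf hC' j (hcondI i))
  · rintro i j ⟨T, hT, hT2⟩
    -- the subgroup
    set H : Subgroup (Ω ≃ₐ[ℚ] Ω) :=
      (AlgEquiv.restrictScalarsHom ℚ : (Ω ≃ₐ[K] Ω) →* _).range with hH
    haveI : H.Normal := by
      refine ⟨fun σ hσ τ => ?_⟩
      obtain ⟨σ0, rfl⟩ := hσ
      obtain ⟨σ', hσ'⟩ := exists_conj (presK K Ω) τ⁻¹ σ0
      refine ⟨σ', AlgEquiv.ext fun x => ?_⟩
      show σ' x = τ (σ0 (τ⁻¹ x))
      have h := hσ' x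
      rw [← h, ← AlgEquiv.mul_apply, mul_inv_cancel]
      rfl
    have htrans : ∀ e, cub (sh W) e = 0 → ∃ σ ∈ H, σ a = e := by
      intro e he
      obtain ⟨σ, hσ⟩ := trans_roots hC hnr e (hC.root he)
      exact ⟨σ.restrictScalars ℚ, ⟨σ, rfl⟩, hσ⟩
    obtain ⟨t', ht1, ht2⟩ := sq_of_diff hC (hr0 i) (hr0 j) (hg3 i) (hg3 j) (hg4 i) (hg4 j)
      (hg5 i) (hg5 j) (hg6 i) (hg6 j) H htrans hT (by
        rintro σ ⟨σ0, rfl⟩
        exact hT2 σ0)
    obtain ⟨s, hs⟩ := mem_of_stab hcf (⟨a, hC.root_a⟩ : Rt (sh W) Ω)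
      (x := t' a) (fun σ hσ => by
        have hσ' : σ a = a := hσ
        rw [ht2 σ a hC.root_a, hσ'])
    apply hzd
    have key : em hcf (⟨a, hC.root_a⟩ : Rt (sh W) Ω) ((z i) * (z j)) =
        em hcf (⟨a, hC.root_a⟩ : Rt (sh W) Ω) (s ^ 2) := by
      rw [map_pow, hs, map_mul]
      have e1 := zf_root hcf (z i) (⟨a, hC.root_a⟩ : Rt (sh W) Ω)
      have e2 := zf_root hcf (z j) (⟨a, hC.root_a⟩ : Rt (sh W) Ω)
      rw [← e1, ← e2]
      exact (ht1 a hC.root_a).symm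
    exact ⟨s, ((em hcf (⟨a, hC.root_a⟩ : Rt (sh W) Ω)).toRingHom.injective key).trans (sq s)⟩


theorem low_abs' (K : Type) [Field K] [NumberField K] [IsGalois ℚ K] {W : WeierstrassCurve ℤ}
    (hW : W.Δ < 0) (hnr : ∀ x : K, cub (sh W) x ≠ 0) {A : Type} [Field A] [NumberField A] {θ : A}
    (hcf : CF (sh W) A θ) {n : ℕ} (z : Fin n → A) (hz0 : ∀ i, z i ≠ 0)
    (hzn : ∀ i, IsSquare (Algebra.norm ℚ (z i))) (hzd : ∀ i j, IsSquare (z i * z j) → i = j)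
    (hcondF : ∀ (i : Fin n) (v : HeightOneSpectrum (𝓞 K)),
      Cond (v.adicCompletion K) (AlgebraicClosure (v.adicCompletion K)) (sh W) θ (z i))
    (Ω : Type) [Field Ω] [Algebra K Ω] [IsGalois K Ω] [IsSepClosed Ω] :
    ∃ (z : Fin n → (Ω ≃ₐ[K] Ω) → Pt (base W K) Ω),
      (∀ i, IsCoc (F := K) (base W K) (z i) ∧ (∀ σ, z i σ + z i σ = 0) ∧
        (∀ (v : HeightOneSpectrum (𝓞 K)) (L Ω' : Type) [Field L] [Field Ω'] [Algebra K L]
          [Algebra L Ω'] [Algebra K Ω'] [IsScalarTower K L Ω'] [IsSepClosed Ω'] [IsGalois L Ω'],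
          (v.adicCompletion K →+* L) → LocTriv (F := K) (Ω := Ω) (base W K) L Ω' (z i)) ∧
        (∀ (L Ω' : Type) [Field L] [Field Ω'] [Algebra K L] [Algebra L Ω'] [Algebra K Ω']
          [IsScalarTower K L Ω'] [IsSepClosed Ω'] [IsGalois L Ω'],
          (ℝ →+* L) → LocTriv (F := K) (Ω := Ω) (base W K) L Ω' (z i))) ∧
      (∀ i j, (∃ Q : Pt (base W K) Ω, Q + Q = 0 ∧
        ∀ σ : Ω ≃ₐ[K] Ω, z i σ - z j σ = act (base W K) (rs K σ) Q - Q) → i = j) := by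
  haveI : CharZero Ω := charZero_of_injective_algebraMap (algebraMap K Ω).injective
  haveI : IsScalarTower ℚ K Ω := tower K Ω
  haveI : PerfectField Ω := inferInstance
  haveI : IsAlgClosed Ω := inferInstance
  haveI : Algebra.IsAlgebraic ℚ Ω := Algebra.IsAlgebraic.trans ℚ K _
  haveI : IsAlgClosure ℚ Ω := ⟨inferInstance, inferInstance⟩
  haveI : Normal ℚ Ω := IsAlgClosure.normal ℚ Ω
  haveI : IsGalois ℚ Ω := IsGalois.mk
  obtain ⟨g, hg, hd⟩ := exists_classes' K hW hnr hcf z hz0 hzn hzd hcondF Ω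
  have hsurj := tE_surj W K Ω
  choose inv hinv using hsurj
  set f : Fin n → (Ω ≃ₐ[K] Ω) → Pt (base W K) Ω :=
    fun i σ => inv (g i (σ.restrictScalars ℚ)) with hf
  have hfe : ∀ i σ, tE W K Ω (f i σ) = g i (σ.restrictScalars ℚ) := fun i σ => hinv _
  have hcoc : ∀ i, IsCoc (F := ℚ) (sh W) (g i) := fun i => ⟨(hg i).1, (hg i).2.1⟩
  have nat : ∀ (σ : Ω ≃ₐ[K] Ω) (P : Pt (base W K) Ω),
      tE W K Ω (act (base W K) (rs K σ) P) = act (sh W) (rs ℚ σ) (tE W K Ω P) := fun σ P =>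
    tE_map W K (rs K σ) (rs ℚ σ) (fun x => rfl) P
  refine ⟨f, fun i => ⟨⟨?_, ?_⟩, ?_, ?_, ?_⟩, ?_⟩
  · have h1 : IsLocallyConstant (fun σ : Ω ≃ₐ[K] Ω => g i (σ.restrictScalars ℚ)) :=
      (hg i).1.comp_continuous cont_rs
    exact h1.comp inv
  · intro σ τ
    apply tE_inj W K Ω
    rw [map_add, nat, hfe, hfe, hfe]
    exact (hg i).2.1 (σ.restrictScalars ℚ) (τ.restrictScalars ℚ)
  · intro σ
    apply tE_inj W K Ω
    rw [map_add, map_zero, hfe]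
    exact (hg i).2.2.1 _
  · intro v L Ω' _ _ _ _ _ _ _ _ j
    haveI : CharZero L := charZero_of_injective_algebraMap (algebraMap K L).injective
    haveI : CharZero Ω' := charZero_of_injective_algebraMap (algebraMap L Ω').injective
    haveI : IsScalarTower ℚ L Ω' := tower _ _
    haveI : IsScalarTower ℚ K Ω' := tower _ _
    exact loc_tr W (hcoc i) ((hg i).2.2.2.1 v L Ω' j) (hfe i)
  · intro L Ω' _ _ _ _ _ _ _ _ j
    haveI : CharZero L := charZero_of_injective_algebraMap (algebraMap K L).injective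
    haveI : CharZero Ω' := charZero_of_injective_algebraMap (algebraMap L Ω').injective
    haveI : IsScalarTower ℚ L Ω' := tower _ _
    haveI : IsScalarTower ℚ K Ω' := tower _ _
    exact loc_tr W (hcoc i) ((hg i).2.2.2.2 L Ω' j) (hfe i)
  · rintro i j ⟨Q, hQ, hQ2⟩
    apply hd
    refine ⟨tE W K Ω Q, ?_, fun σ => ?_⟩
    · rw [← map_add, hQ, map_zero]
    · rw [← hfe, ← hfe, ← map_sub, hQ2, map_sub, nat]

open Pool.Agent.H30EV in
theorem low_aux' (K : Type) [Field K] [NumberField K] [IsGalois ℚ K] {W : WeierstrassCurve ℤ}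
    (hW : W.Δ < 0) (hnr : ∀ x : K, cub (sh W) x ≠ 0) {A : Type} [Field A] [NumberField A] {θ : A}
    (hcf : CF (sh W) A θ) {n : ℕ} (z : Fin n → A) (hz0 : ∀ i, z i ≠ 0)
    (hzn : ∀ i, IsSquare (Algebra.norm ℚ (z i))) (hzd : ∀ i j, IsSquare (z i * z j) → i = j)
    (hcondF : ∀ (i : Fin n) (v : HeightOneSpectrum (𝓞 K)),
      Cond (v.adicCompletion K) (AlgebraicClosure (v.adicCompletion K)) (sh W) θ (z i)) :
    ∃ (c : Fin n → Coch (base W K)),
      (∀ i, ShaCocycle (base W K) (c i) ∧ ∀ σ, 2 • c i σ = 0) ∧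
      (∀ i j, (∃ Q, 2 • Q = 0 ∧ c i - c j = cob Q) → i = j) := by
  obtain ⟨f, hf, hd⟩ := low_abs' K hW hnr hcf z hz0 hzn hzd hcondF (Sep K)
  refine ⟨f, fun i => ⟨⟨(hf i).1.lc, fun σ τ => (hf i).1.mul σ τ, ?_, ?_⟩, ?_⟩, ?_⟩
  · intro v
    exact lt_to (hf i).1 ((hf i).2.2.1 v (v.adicCompletion K) (Sep (v.adicCompletion K))
      (RingHom.id _))
  · intro ρ
    letI : Algebra K ℝ := ρ.toAlgebra
    exact lt_to (hf i).1 ((hf i).2.2.2 ℝ (Sep ℝ) (RingHom.id _))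
  · intro σ
    refine (two_nsmul _).trans ?_
    exact (hf i).2.1 σ
  · rintro i j ⟨Q, hQ, hQ2⟩
    exact hd i j ⟨Q, (two_nsmul Q).symm.trans hQ, fun σ => congrFun hQ2 σ⟩

end Pool.Agent.Helper29L.LOW
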