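import Pool.Agent.Helper29L.LOW4
import Pool.Agent.Helper29L.Stm

/-!
# Job LOW: the twisted curve and its cubic field; the odd places
-/

set_option autoImplicit false
set_option linter.all false

open NumberField IsDedekindDomain WithZero WeierstrassCurve WeierstrassCurve.Affine
open scoped NNReal Classical

namespace Pool.Agent.Helper29L.LOW

open Pool.Agent
open Pool.Agent.TH115.GD
open Pool.Agent.Y710.CV (Cond cond1 cond2)
open Pool.Agent.Y702.G (sh base pts)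
open Pool.Agent.R425 (sqrt_fix mem_of_fixed exists_data)
open Pool.Agent.R425.G
open Pool.Agent.N922.PQ (IsCub Ov IsPr dsc Loc2 PL2)
open Pool.Agent.N874.PP (Ev Sq1 U0)
open Pool.Agent.Helper29K (InFamily)
open Pool.Agent.Helper29L

/-- the model of the twist -/
def Wt (a b d : ℤ) : WeierstrassCurve ℤ := ⟨0, 0, 0, a * d ^ 2, b * d ^ 3⟩

theorem Wt_b2 (a b d : ℤ) : (Wt a b d).b₂ = 0 := by
  simp [Wt, WeierstrassCurve.b₂]

theorem Wt_b4 (a b d : ℤ) : (Wt a b d).b₄ = 2 * (a * d ^ 2) := by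
  simp [Wt, WeierstrassCurve.b₄]

theorem Wt_b6 (a b d : ℤ) : (Wt a b d).b₆ = 4 * (b * d ^ 3) := by
  simp [Wt, WeierstrassCurve.b₆]

theorem Wt_disc (a b d : ℤ) : (Wt a b d).Δ = -16 * d ^ 6 * Pool.Agent.N922.PQ.dsc a b := by
  simp only [Wt, WeierstrassCurve.Δ, WeierstrassCurve.b₂, WeierstrassCurve.b₄, WeierstrassCurve.b₆,
    WeierstrassCurve.b₈, Pool.Agent.N922.PQ.dsc]
  ring

theorem cub_Wt {F : Type} [Field F] [Algebra ℚ F] (a b d : ℤ) (x : F) :
    cub (sh (Wt a b d)) x = x ^ 3 + 16 * a * d ^ 2 * x + 64 * b * d ^ 3 := by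
  rw [cub_sh, Wt_b2, Wt_b4, Wt_b6]
  push_cast
  ring

theorem cub_Wt_mul {F : Type} [Field F] [Algebra ℚ F] (a b d : ℤ) (x : F) :
    cub (sh (Wt a b d)) (4 * d * x) = 64 * d ^ 3 * (x ^ 3 + a * x + b) := by
  rw [cub_Wt]
  ring

section cf

variable {A : Type} [Field A] [NumberField A] {a b : ℤ} {θ : A}

/-- the cubic field of the twist -/
theorem cf_of (h : IsCub a b θ) {d : ℤ} (hd : d ≠ 0) :
    CF (sh (Wt a b d)) A (4 * d * θ) := by
  have hd' : (d : A) ≠ 0 := by exact_mod_cast hd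
  refine ⟨?_, h.rank, ?_⟩
  · rw [cub_Wt_mul, h.root, mul_zero]
  · rw [eq_top_iff]
    rintro x -
    obtain ⟨r, s, t, rfl⟩ := h.gen x
    have hθ' : (4 * d * θ : A) ∈ Algebra.adjoin ℚ {(4 * d * θ : A)} :=
      Algebra.subset_adjoin rfl
    have hq : ∀ q : ℚ, (q : A) ∈ Algebra.adjoin ℚ {(4 * d * θ : A)} := fun q => by
      have := Subalgebra.algebraMap_mem (Algebra.adjoin ℚ {(4 * d * θ : A)}) q
      rwa [eq_ratCast] at this
    have hθ : θ ∈ Algebra.adjoin ℚ {(4 * d * θ : A)} := by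
      have e : θ = ((1 / (4 * d) : ℚ) : A) * (4 * d * θ) := by
        push_cast
        field_simp
      have h5 := mul_mem (hq (1 / (4 * d))) hθ'
      rwa [← e] at h5
    exact add_mem (add_mem (hq r) (mul_mem (hq s) hθ)) (mul_mem (hq t) (pow_mem hθ 2))

end cf

section out

variable {V : WeierstrassCurve ℚ} {A : Type} [Field A] [NumberField A] {θ : A}

theorem cond_of_out (h : CF V A θ) (hV : IV V) {L Ω' : Type} [Field L] [Field Ω'] [Algebra L Ω']
    [Algebra ℚ L] [Algebra ℚ Ω'] [IsScalarTower ℚ L Ω'] {z : A}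
    (ho : Out L V (fun e : Ω' => zf h z e)) : Cond L Ω' V θ z := by
  rcases ho with hA | ⟨X, Y, hXY, hB⟩
  · refine cond1 fun φ => ?_
    obtain ⟨y, hy, hy2⟩ := hA (φ θ) (root_em h φ)
    exact ⟨y, hy, by rw [← hy2]; exact (zf_hom h z φ).symm⟩
  · refine cond2 hV.a1 hV.a3 hV.Δ hXY fun φ => ?_
    obtain ⟨y, D, hy, hy2, hD⟩ := hB (φ θ) (root_em h φ)
    exact ⟨y, D, hy, by rw [← hy2]; exact (zf_hom h z φ).symm, hD⟩

end out

section plcs

variable {A Ω' : Type} [Field A] [NumberField A] [Field Ω'] (w : Valuation Ω' ℝ≥0) (φ : A →+* Ω')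
  {q : ℕ}

/-- even valuations -/
theorem plc_ev (hq0 : q ≠ 0) (hq : w (q : Ω') < 1) {z : A} (hz : z ≠ 0)
    (h : Ev (plc w φ hq0 hq) z) : ∃ y : A, y ≠ 0 ∧ w (φ z) = w (φ y) ^ 2 := by
  obtain ⟨y, hy⟩ := h
  have hy0 : y ≠ 0 := by
    rintro rfl
    rw [map_zero, zero_pow two_ne_zero] at hy
    exact hz ((Valuation.zero_iff _).1 hy)
  refine ⟨y, hy0, ?_⟩
  have h1 : (plc w φ hq0 hq).valuation A (z / y ^ 2) = 1 := by
    rw [map_div₀, map_pow, hy]
    exact div_self (pow_ne_zero 2 ((Valuation.ne_zero_iff _).2 hy0))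
  have h2 := plc_one w φ hq0 hq h1
  rw [map_div₀, map_pow, map_div₀, map_pow] at h2
  have h3 : w (φ y) ^ 2 ≠ 0 := pow_ne_zero 2 ((Valuation.ne_zero_iff _).2
    ((_root_.map_ne_zero φ).2 hy0))
  exact (div_eq_one_iff_eq h3).1 h2

theorem plc_sq (hq0 : q ≠ 0) (hq : w (q : Ω') < 1) {z : A}
    (h : Sq1 (plc w φ hq0 hq) z) : ∃ s : A, w (φ z - φ s ^ 2) < w (φ z) := by
  obtain ⟨s, hs⟩ := h
  refine ⟨s, ?_⟩
  have hz0 : z ≠ 0 := by
    rintro rfl
    rw [map_zero] at hs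
    exact absurd hs (by simp)
  have h1 : (plc w φ hq0 hq).valuation A ((z - s ^ 2) / z) < 1 := by
    rw [map_div₀]
    exact (div_lt_one₀ (zero_lt_iff.2 ((Valuation.ne_zero_iff _).2 hz0))).2 hs
  have h2 := plc_lt w φ hq0 hq h1
  have hpos : 0 < w (φ z) := pos_of_ne_zero ((Valuation.ne_zero_iff _).2
    ((_root_.map_ne_zero φ).2 hz0))
  rw [map_div₀, map_div₀, map_sub, map_pow, div_lt_one hpos] at h2
  exact h2

end plcs

end Pool.Agent.Helper29L.LOW
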