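import Pool.Agent.Helper29L.Stm2

/-!
# Project PR (helper29), second theorem: a family of positive density, ordered by height

`S` is a finite set of primes which are `1` modulo `8`, `s Q` a residue with `- s Q` not a square modulo `Q`, for
`Q ∈ S`. The family `FamS S s`: the pairs `(a, b)` of `InFamily` with `a = s Q`, `b = 0` modulo `Q` for all `Q ∈ S`.
`hgt (a, b) = max (|a| ^ 3) (b ^ 2)` is the height of the problem file.
-/

set_option autoImplicit false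
set_option linter.all false

open Finset Filter
open scoped Classical

namespace Pool.Agent.Helper29L

open Pool.Agent.Helper29K (SE Pr8 zS Bx InFamily NR)

/-- The pair is in `InFamily` and has the residues `(s Q, 0)` modulo `Q`, for all `Q ∈ S`. -/
structure FamS (S : Finset ℕ) (s : ℕ → ℤ) (p : ℤ × ℤ) : Prop where
  fam : InFamily p
  ra : ∀ Q ∈ S, (Q : ℤ) ∣ p.1 - s Q
  rb : ∀ Q ∈ S, (Q : ℤ) ∣ p.2

/-- The primes are `1` modulo `8`, and `- s Q` is not a square modulo `Q`. -/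
def GoodRes (S : Finset ℕ) (s : ℕ → ℤ) : Prop := Pr8 S ∧ ∀ Q ∈ S, NR Q (s Q)

/-- The height of the pair `(a, b)`: `max (|a| ^ 3) (b ^ 2)`. -/
def hgt (p : ℤ × ℤ) : ℕ := max (p.1.natAbs ^ 3) (p.2.natAbs ^ 2)

/-- The number of the members of the family of height at most `T`. -/
noncomputable def NS (S : Finset ℕ) (s : ℕ → ℤ) (T : ℕ) : ℕ :=
  {p : ℤ × ℤ | FamS S s p ∧ hgt p ≤ T}.ncard

/-- **Job SHELL, part 1.** All pairs: finitely many, at most `9 T ^ (5/6)`. -/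
def S_TOT : Prop := ∀ T : ℕ, 1 ≤ T → {p : ℤ × ℤ | hgt p ≤ T}.Finite ∧
  ({p : ℤ × ℤ | hgt p ≤ T}.ncard : ℝ) ≤ 9 * (T : ℝ) ^ (5 / 6 : ℝ)

/-- **Job SHELL, part 2.** Lower bound with a constant which does not depend on `S` (use
`Pool.Agent.H30EV.fam3` with `T = {2, 3}`, as in `Helper29K.fam_low`; `Fam X` lies in the box `0 < a ≤ X ^ 2`,
`|b| ≤ X ^ 3`, so take `X = ⌊T ^ (1/6)⌋`). -/
def S_LOWB : Prop := ∃ c : ℝ, 0 < c ∧ ∀ (S : Finset ℕ) (s : ℕ → ℤ), GoodRes S s →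
  ∀ᶠ T : ℕ in atTop, c * (T : ℝ) ^ (5 / 6 : ℝ) ≤ ((∏ Q ∈ S, Q : ℕ) : ℝ) ^ 2 * (NS S s T : ℝ)

/-- **Job SHELL, part 3.** Few members of the family with height between `T'` and `T` (`T / T' ≤ (1 + η) ^ 6`):
the pairs `(a, b)` with `0 < a ≤ T ^ (1/3)`, `|b| ≤ T ^ (1/2)` and `a ^ 3 > T'` or `b ^ 2 > T'`, in one residue class
modulo `P = ∏ S` (for `a` and for `b`), are at most `C η T ^ (5/6) / P ^ 2 + O(T ^ (1/2))`; and part 2. The constant
does not depend on `S` and `η`. -/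
def S_SHELL : Prop := ∃ C : ℝ, 0 < C ∧ ∀ (S : Finset ℕ) (s : ℕ → ℤ), GoodRes S s → ∀ η : ℝ, 0 < η → η ≤ 1 →
  ∀ᶠ T : ℕ in atTop, ∀ T' : ℕ, T' ≤ T → (T : ℝ) ≤ (1 + η) ^ 6 * (T' : ℝ) + 1 →
    ((NS S s T : ℝ) - (NS S s T' : ℝ)) ≤ C * η * (NS S s T : ℝ)

/-- **Job WIN.** Many primes in every long window (prime number theorem in arithmetic progressions modulo
`8`; the library has it, see for instance `TH423/SH/PAIP.lean`, `Y851/PS/G7.lean` and the prime number theorem in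
arithmetic progressions of helper923 used in `MP_ff81b6_nt.EveryShape`). -/
def S_WIN : Prop := ∀ (N : ℕ) (η : ℝ), 0 < η → ∃ Y₀ : ℕ, ∀ Y ≥ Y₀,
  N ≤ ((Ioc Y ⌊(1 + η) * (Y : ℝ)⌋₊).filter fun Q => Q.Prime ∧ Q % 8 = 1).card

end Pool.Agent.Helper29L
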