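import Pool.Agent.Helper29L.Chi2
import Pool.Agent.Helper29K.NF

/-!
# Points over `φ(K)(√t)`, and the given field
-/

set_option autoImplicit false
set_option linter.all false

open scoped Classical
open NumberField

namespace Pool.Agent.Helper29L.Chi

open Pool.Agent.H30EV (curve twist nopt_curve quad_nopt disc_ne FieldFor TwistFor NoZero)
open Pool.Agent.Helper29K (InFamily Pr8 SP adm_tw adm_fam)

/-- The subfield `φ(K)(r)` of `F`. -/
noncomputable def fld {K F : Type} [Field K] [NumberField K] [Field F] [NumberField F]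
    (φ : K →ₐ[ℚ] F) (r : F) : IntermediateField ℚ F :=
  (IntermediateField.adjoin φ.fieldRange {r}).restrictScalars ℚ

theorem mem_fld {K F : Type} [Field K] [NumberField K] [Field F] [NumberField F]
    (φ : K →ₐ[ℚ] F) (r : F) (x : K) : φ x ∈ fld φ r := by
  unfold fld
  rw [IntermediateField.mem_restrictScalars]
  exact (IntermediateField.adjoin φ.fieldRange {r}).algebraMap_mem ⟨φ x, ⟨x, rfl⟩⟩

theorem mem_fld' {K F : Type} [Field K] [NumberField K] [Field F] [NumberField F]
    (φ : K →ₐ[ℚ] F) (r : F) : r ∈ fld φ r := by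
  unfold fld
  rw [IntermediateField.mem_restrictScalars]
  exact IntermediateField.mem_adjoin_simple_self _ _

/-- No points over `φ(K)(√t)`. -/
theorem points_fld {q : ℤ × ℤ} (hq : 4 * q.1 ^ 3 + 27 * q.2 ^ 2 ≠ 0) {K F : Type} [Field K]
    [NumberField K] [Field F] [NumberField F] (φ : K →ₐ[ℚ] F) {t : ℤ} (ht : t ≠ 0) {r : F}
    (hr : r ^ 2 = (t : F)) (h1 : Subsingleton (curve K (twist q 1)).toAffine.Point)
    (h2 : Subsingleton (curve K (twist q t)).toAffine.Point) :
    Subsingleton (curve (fld φ r) q).toAffine.Point := by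
  have hdM : 4 * (q.1 : fld φ r) ^ 3 + 27 * (q.2 : fld φ r) ^ 2 ≠ 0 := by exact_mod_cast hq
  have hdR : 4 * (q.1 : φ.fieldRange) ^ 3 + 27 * (q.2 : φ.fieldRange) ^ 2 ≠ 0 := by exact_mod_cast hq
  have h1' := (nopt_curve (K := K) (q := twist q 1) (by
    have := disc_ne (K := K) (d := 1) one_ne_zero hq
    exact this)).1 h1
  have h2' := (nopt_curve (K := K) (q := twist q t) (by
    have := disc_ne (K := K) (d := t) ht hq
    exact this)).1 h2
  rw [nopt_curve hdM]
  obtain ⟨rM, hrM⟩ : ∃ rM : (IntermediateField.adjoin φ.fieldRange {r} : IntermediateField _ F),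
      (rM : F) = r := ⟨⟨r, IntermediateField.mem_adjoin_simple_self _ _⟩, rfl⟩
  have key := quad_nopt (M := φ.fieldRange)
    (F := (IntermediateField.adjoin φ.fieldRange {r} : IntermediateField φ.fieldRange F)) rM
    ((t : ℤ) : φ.fieldRange) (by exact_mod_cast ht)
    (by
      apply Subtype.ext
      show ((rM : F)) ^ 2 = _
      rw [hrM, hr]
      simp)
    (by
      apply IntermediateField.lift_injective (IntermediateField.adjoin φ.fieldRange {r})
      rw [IntermediateField.lift_adjoin_simple, IntermediateField.lift_top, hrM])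
    (A := (q.1 : φ.fieldRange)) (B := (q.2 : φ.fieldRange)) hdR ?_ ?_
  · intro x y
    have := key x y
    rw [map_intCast, map_intCast] at this
    exact this
  · rintro ⟨x, x', rfl⟩ ⟨y, y', rfl⟩ h
    apply h1' x' y'
    apply φ.injective
    have h3 := congrArg (Subtype.val) h
    simp only [twist]
    push_cast at h3 ⊢
    simp only [map_pow, map_add, map_mul, map_intCast, one_pow, mul_one, map_one, map_ofNat]
    exact h3
  · rintro ⟨x, x', rfl⟩ ⟨y, y', rfl⟩ h
    apply h2' x' y'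
    apply φ.injective
    have h3 := congrArg (Subtype.val) h
    simp only [twist]
    push_cast at h3 ⊢
    simp only [map_pow, map_add, map_mul, map_intCast]
    exact h3

theorem noZero_tw {q : ℤ × ℤ} {d : ℤ} {p : ℕ} (hp : p.Prime) (hd : ¬ (p : ℤ) ∣ d)
    (h : NoZero q p) : NoZero (twist q d) p := by
  intro z hz
  have hpp := Nat.prime_iff_prime_int.1 hp
  obtain ⟨u, v, huv⟩ := (Irreducible.coprime_iff_not_dvd hpp.irreducible).2 hd
  -- `v d = 1` modulo `p`
  apply h (z * v)
  have e : (z * v) ^ 3 + q.1 * (z * v) + q.2 =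
      v ^ 3 * (z ^ 3 + (twist q d).1 * z + (twist q d).2) +
        (u * p) * (q.1 * z * v * (1 + v * d) + q.2 * (1 + v * d + (v * d) ^ 2)) := by
    have e1 : u * p = 1 - v * d := by linarith
    rw [e1]
    simp only [twist]
    ring
  rw [e]
  exact dvd_add (dvd_mul_of_dvd_right hz _)
    (dvd_mul_of_dvd_left (dvd_mul_of_dvd_right (dvd_refl _) _) _)

/-- **The given field is admissible for the twists.** -/
theorem fieldFor_tw {K₀ : Type} [Field K₀] [NumberField K₀] {γ : K₀} {g : Polynomial ℤ} {δ : ℤ}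
    (hG : Pool.Agent.N922.PQ.Gen ℚ γ g δ) {q : ℤ × ℤ} (hF : InFamily q) (hA : FieldFor K₀ q)
    {J : Finset ℕ} (hJ : ∀ Q ∈ J, Q ∈ SP g {p : ℕ | (p : ℤ) ∣ δ}) :
    (∀ p : ℕ, p.Prime → p ∣ ∏ Q ∈ J, Q → Pool.Agent.H30EV.SplitsCompletely K₀ p) ∧
    FieldFor K₀ (twist q ((∏ Q ∈ J, Q : ℕ) : ℤ)) := by
  haveI := hA.galois
  have hA' : Pool.Agent.H30GR.Admissible K₀ q := ⟨hA.galois, hA.degree, hA.two, fun p hp hr =>
    Pool.Agent.Helper29K.irr_good ((Pool.Agent.H30EV.mem_irr hp q).2 (hA.ram p hp hr)), hA.split⟩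
  obtain ⟨h1, h2⟩ := adm_tw hG hF hA' hJ
  refine ⟨h1, hA.galois, hA.degree, hA.two, fun p hp hr => ?_, h2.split⟩
  refine noZero_tw hp (fun hpd => ?_) (hA.ram p hp hr)
  have h3 := h1 p hp (by exact_mod_cast hpd)
  obtain ⟨𝔭, h𝔭, hm⟩ := hr
  exact (h3 𝔭 h𝔭 (Ideal.pow_le_self two_ne_zero hm)).1 hm

end Pool.Agent.Helper29L.Chi
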