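import Pool.Agent.Helper29L.Stm3

/-!
# Project PR: all pairs, and the lower bound for the family
-/

set_option autoImplicit false
set_option linter.all false

open Finset Filter
open scoped Classical

namespace Pool.Agent.Helper29L

open Pool.Agent.N922.PQ (IsPr GoodS GoodT Fam dsc)
open Pool.Agent.H30EV (fam3)
open Pool.Agent.Helper29K (SE Pr8 zS Bx InFamily NR mem_zS prod_zS)

theorem tot : S_TOT := by
  intro T hT
  obtain ⟨A, hA⟩ : ∃ A : ℕ, A = ⌊(T : ℝ) ^ (1 / 3 : ℝ)⌋₊ := ⟨_, rfl⟩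
  obtain ⟨B, hB⟩ : ∃ B : ℕ, B = ⌊(T : ℝ) ^ (1 / 2 : ℝ)⌋₊ := ⟨_, rfl⟩
  have hT1 : (1 : ℝ) ≤ T := by exact_mod_cast hT
  have hT0 : (0 : ℝ) ≤ T := by linarith
  have hsub : {p : ℤ × ℤ | hgt p ≤ T} ⊆
      ((Icc (-(A : ℤ)) A ×ˢ Icc (-(B : ℤ)) B : Finset (ℤ × ℤ)) : Set (ℤ × ℤ)) := by
    intro p hp
    have hp' : hgt p ≤ T := hp
    have h1 : p.1.natAbs ^ 3 ≤ T := (le_max_left _ _).trans hp'
    have h2 : p.2.natAbs ^ 2 ≤ T := (le_max_right _ _).trans hp'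
    have h3 : p.1.natAbs ≤ A := by
      rw [hA, Nat.le_floor_iff (by positivity)]
      have h4 : ((p.1.natAbs : ℝ) ^ 3) ^ (1 / 3 : ℝ) ≤ (T : ℝ) ^ (1 / 3 : ℝ) :=
        Real.rpow_le_rpow (by positivity) (by exact_mod_cast h1) (by norm_num)
      rw [← Real.rpow_natCast, ← Real.rpow_mul (Nat.cast_nonneg _)] at h4
      norm_num at h4
      rw [Nat.cast_natAbs, Int.cast_abs]
      exact h4
    have h5 : p.2.natAbs ≤ B := by
      rw [hB, Nat.le_floor_iff (by positivity)]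
      have h4 : ((p.2.natAbs : ℝ) ^ 2) ^ (1 / 2 : ℝ) ≤ (T : ℝ) ^ (1 / 2 : ℝ) :=
        Real.rpow_le_rpow (by positivity) (by exact_mod_cast h2) (by norm_num)
      rw [← Real.rpow_natCast, ← Real.rpow_mul (Nat.cast_nonneg _)] at h4
      norm_num at h4
      rw [Nat.cast_natAbs, Int.cast_abs]
      exact h4
    rw [Finset.mem_coe, Finset.mem_product, Finset.mem_Icc, Finset.mem_Icc]
    omega
  refine ⟨(Finset.finite_toSet _).subset hsub, ?_⟩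
  have h1 := Set.ncard_le_ncard hsub (Finset.finite_toSet _)
  rw [Set.ncard_coe_finset, Finset.card_product, Int.card_Icc, Int.card_Icc] at h1
  have h2 : {p : ℤ × ℤ | hgt p ≤ T}.ncard ≤ (2 * A + 1) * (2 * B + 1) := by
    refine h1.trans (le_of_eq ?_)
    congr 1 <;> omega
  have hA1 : (A : ℝ) ≤ (T : ℝ) ^ (1 / 3 : ℝ) := by rw [hA]; exact Nat.floor_le (by positivity)
  have hB1 : (B : ℝ) ≤ (T : ℝ) ^ (1 / 2 : ℝ) := by rw [hB]; exact Nat.floor_le (by positivity)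
  have o1 : (1 : ℝ) ≤ (T : ℝ) ^ (1 / 3 : ℝ) := Real.one_le_rpow hT1 (by norm_num)
  have o2 : (1 : ℝ) ≤ (T : ℝ) ^ (1 / 2 : ℝ) := Real.one_le_rpow hT1 (by norm_num)
  calc ({p : ℤ × ℤ | hgt p ≤ T}.ncard : ℝ) ≤ ((2 * A + 1) * (2 * B + 1) : ℕ) := by exact_mod_cast h2
    _ = (2 * (A : ℝ) + 1) * (2 * (B : ℝ) + 1) := by push_cast; rfl
    _ ≤ (3 * (T : ℝ) ^ (1 / 3 : ℝ)) * (3 * (T : ℝ) ^ (1 / 2 : ℝ)) := by
        refine mul_le_mul ?_ ?_ (by positivity) (by positivity) <;> linarith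
    _ = 9 * ((T : ℝ) ^ (1 / 3 : ℝ) * (T : ℝ) ^ (1 / 2 : ℝ)) := by ring
    _ = 9 * (T : ℝ) ^ (5 / 6 : ℝ) := by
        rw [← Real.rpow_add (by linarith)]
        norm_num

theorem lowb : S_LOWB := by
  obtain ⟨A, hA⟩ : ∃ A : ℤ → ℤ, A = fun P => if P = 2 then 1 else 2 := ⟨_, rfl⟩
  have hT : GoodT {2, 3} A (fun _ => 1) := by
    refine ⟨by simp, by simp, ?_⟩
    intro P hP
    rcases Finset.mem_insert.1 hP with rfl | hP
    · refine ⟨⟨by norm_num, Int.prime_two⟩, fun z hz => ?_⟩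
      rw [hA] at hz
      simp only [if_true] at hz
      have h1 : (z ^ 3 + 1 * z + 1) % 2 = 0 := Int.emod_eq_zero_of_dvd hz
      rcases Int.emod_two_eq_zero_or_one z with h | h <;>
        simp [pow_succ, Int.add_emod, Int.mul_emod, h] at h1
    · rw [Finset.mem_singleton] at hP
      subst hP
      refine ⟨⟨by norm_num, Int.prime_three⟩, fun z hz => ?_⟩
      rw [hA] at hz
      norm_num at hz
      have h1 : (z ^ 3 + 2 * z + 1) % 3 = 0 := Int.emod_eq_zero_of_dvd hz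
      have h3 : z % 3 = 0 ∨ z % 3 = 1 ∨ z % 3 = 2 := by omega
      rcases h3 with h | h | h <;>
        simp [pow_succ, Int.add_emod, Int.mul_emod, h] at h1
  obtain ⟨c, hc, h⟩ := fam3 {2, 3} A (fun _ => 1) hT
  refine ⟨c / 64, by positivity, fun S s hS => ?_⟩
  have hGS : GoodS (zS S) (fun Q => s Q.toNat) := by
    intro Q hQ
    obtain ⟨q, hq, rfl⟩ := mem_zS.1 hQ
    have h8 := hS.1 q hq
    refine ⟨⟨by exact_mod_cast h8.1.pos, Nat.prime_iff_prime_int.1 h8.1⟩, by omega, ?_⟩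
    have := hS.2 q hq
    show ∀ z : ℤ, ¬ (q : ℤ) ∣ z ^ 2 + s ((q : ℤ).toNat)
    rw [Int.toNat_natCast]
    exact this
  have hdis : Disjoint (zS S) ({2, 3} : Finset ℤ) := by
    rw [Finset.disjoint_left]
    intro Q hQ hQ'
    obtain ⟨q, hq, rfl⟩ := mem_zS.1 hQ
    have h8 := hS.1 q hq
    simp only [Finset.mem_insert, Finset.mem_singleton] at hQ'
    omega
  obtain ⟨X₀, hX₀⟩ := h (zS S) _ hGS hdis
  have htend : Tendsto (fun T : ℕ => ⌊(T : ℝ) ^ (1 / 6 : ℝ)⌋₊) atTop atTop :=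
    tendsto_nat_floor_atTop.comp ((tendsto_rpow_atTop (by norm_num)).comp tendsto_natCast_atTop_atTop)
  filter_upwards [htend.eventually (eventually_ge_atTop X₀), eventually_ge_atTop 1] with T h1 hT1
  obtain ⟨X, hX⟩ : ∃ X : ℕ, X = ⌊(T : ℝ) ^ (1 / 6 : ℝ)⌋₊ := ⟨_, rfl⟩
  rw [← hX] at h1
  have hT1' : (1 : ℝ) ≤ T := by exact_mod_cast hT1
  have hXle : (X : ℝ) ≤ (T : ℝ) ^ (1 / 6 : ℝ) := by rw [hX]; exact Nat.floor_le (by positivity)
  have hone : (1 : ℝ) ≤ (T : ℝ) ^ (1 / 6 : ℝ) := Real.one_le_rpow hT1' (by norm_num)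
  have hXge : (T : ℝ) ^ (1 / 6 : ℝ) ≤ 2 * X := by
    have h2 := Nat.lt_floor_add_one ((T : ℝ) ^ (1 / 6 : ℝ))
    rw [← hX] at h2
    have h3 : 1 ≤ X := by
      rw [hX]
      exact Nat.le_floor (by exact_mod_cast hone)
    have h4 : (1 : ℝ) ≤ X := by exact_mod_cast h3
    linarith
  have hX6 : X ^ 6 ≤ T := by
    have h2 : (X : ℝ) ^ 6 ≤ T := by
      have h3 : ((T : ℝ) ^ (1 / 6 : ℝ)) ^ 6 = T := by
        rw [← Real.rpow_natCast, ← Real.rpow_mul (Nat.cast_nonneg _)]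
        norm_num
      rw [← h3]
      exact pow_le_pow_left₀ (Nat.cast_nonneg _) hXle 6
    exact_mod_cast h2
  have hT5 : (T : ℝ) ^ (5 / 6 : ℝ) ≤ 32 * (X : ℝ) ^ 5 := by
    have h3 : ((T : ℝ) ^ (1 / 6 : ℝ)) ^ 5 = (T : ℝ) ^ (5 / 6 : ℝ) := by
      rw [← Real.rpow_natCast, ← Real.rpow_mul (Nat.cast_nonneg _)]
      norm_num
    rw [← h3]
    calc ((T : ℝ) ^ (1 / 6 : ℝ)) ^ 5 ≤ (2 * (X : ℝ)) ^ 5 := pow_le_pow_left₀ (by positivity) hXge 5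
      _ = _ := by ring
  have h2 := hX₀ X h1
  have hprod : ∏ Q ∈ zS S, (Q : ℝ) ^ 2 = ((∏ Q ∈ S, Q : ℕ) : ℝ) ^ 2 := by
    rw [Finset.prod_pow]
    congr 1
    have := prod_zS S
    have h3 : ((∏ Q ∈ zS S, Q : ℤ) : ℝ) = (((∏ Q ∈ S, Q : ℕ) : ℤ) : ℝ) := by rw [this]
    push_cast at h3
    push_cast
    exact h3
  rw [hprod] at h2
  have hsub : {p : ℤ × ℤ | Fam X (zS S) (fun Q => s Q.toNat) {2, 3} A (fun _ => 1) p.1 p.2 ∧
      p.1 % 4 = 3 ∧ p.2 % 4 = 3} ⊆ {p : ℤ × ℤ | FamS S s p ∧ hgt p ≤ T} := by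
    rintro p ⟨hF, h4, h4'⟩
    refine ⟨⟨⟨hF.pa, h4, h4', ?_, hF.sq⟩, fun Q hQ => ?_, fun Q hQ => ?_⟩, ?_⟩
    · exact Pool.Agent.N922.PQ.fam_nt hT hF (by simp)
    · have := hF.ra (Q : ℤ) (mem_zS.2 ⟨Q, hQ, rfl⟩)
      simpa using this
    · exact hF.rb (Q : ℤ) (mem_zS.2 ⟨Q, hQ, rfl⟩)
    · refine (max_le ?_ ?_).trans hX6
      · have h5 : p.1.natAbs ≤ X ^ 2 := by
          have := hF.pa
          have := hF.da
          have h6 : ((p.1.natAbs : ℕ) : ℤ) ≤ ((X ^ 2 : ℕ) : ℤ) := by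
            push_cast
            rw [abs_of_pos hF.pa]
            exact_mod_cast hF.da
          exact_mod_cast h6
        calc p.1.natAbs ^ 3 ≤ (X ^ 2) ^ 3 := Nat.pow_le_pow_left h5 3
          _ = X ^ 6 := by rw [← pow_mul]
      · have h5 : p.2.natAbs ≤ X ^ 3 := by
          have h6 : ((p.2.natAbs : ℕ) : ℤ) ≤ ((X ^ 3 : ℕ) : ℤ) := by
            push_cast
            exact_mod_cast hF.db
          exact_mod_cast h6
        calc p.2.natAbs ^ 2 ≤ (X ^ 3) ^ 2 := Nat.pow_le_pow_left h5 2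
          _ = X ^ 6 := by rw [← pow_mul]
  have hfin : {p : ℤ × ℤ | FamS S s p ∧ hgt p ≤ T}.Finite :=
    (tot T hT1).1.subset fun p hp => hp.2
  have h3 : ({p : ℤ × ℤ | Fam X (zS S) (fun Q => s Q.toNat) {2, 3} A (fun _ => 1) p.1 p.2 ∧
      p.1 % 4 = 3 ∧ p.2 % 4 = 3}.ncard : ℝ) ≤ (NS S s T : ℝ) := by
    exact_mod_cast Set.ncard_le_ncard hsub hfin
  calc c / 64 * (T : ℝ) ^ (5 / 6 : ℝ) ≤ c / 64 * (32 * (X : ℝ) ^ 5) := by gcongr
    _ ≤ c * (X : ℝ) ^ 5 := by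
        have : 0 ≤ c * (X : ℝ) ^ 5 := by positivity
        nlinarith
    _ ≤ _ := h2
    _ ≤ _ := mul_le_mul_of_nonneg_left h3 (by positivity)

end Pool.Agent.Helper29L
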