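import Pool.Agent.Helper29L.Stm
import Pool.Agent.Helper29L.Size3

/-!
# Job SIZE: the lower bound for the group of the relaxed classes
-/

set_option autoImplicit false
set_option linter.all false

open IsDedekindDomain NumberField
open scoped Classical

namespace Pool.Agent.Helper29L

theorem size : S_SIZE := by
  intro L _ _ a b θ S hc hF hS
  have h4 : a % 4 = 3 := hF.a_four
  have h4' : b % 4 = 3 := hF.b_four
  have ha : Odd a := by
    rw [Int.odd_iff]
    omega
  have hb : Odd b := by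
    rw [Int.odd_iff]
    omega
  have hsq : Squarefree (Pool.Agent.N922.PQ.dsc a b) := hF.sqfree
  obtain ⟨z, hz, hzd⟩ := SZ.size_aux Pool.Agent.N849.PQ.int S hc ha hb hsq
    (fun Q hQ => ⟨(hS Q hQ).pr, (hS Q hQ).m8, (hS Q hQ).db, (hS Q hQ).ns⟩)
  exact ⟨z, fun i => ⟨(hz i).1, (hz i).2.1, (hz i).2.2.1, (hz i).2.2.2⟩, hzd⟩

end Pool.Agent.Helper29L
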