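import Pool.Agent.Helper29L.Thm6
import Pool.Agent.Helper29L.Shell1
import Pool.Agent.Helper29K.NF
import Pool.Agent.Helper29L.Lin
import Pool.Agent.Helper29L.Size
import Pool.Agent.Helper29L.LOW10
import Pool.Agent.Helper29L.Up
import Pool.Agent.Helper29L.Mom
import Pool.Agent.Helper29L.NN
import Pool.Agent.Helper29L.TV

/-!
# Almost all curves of a subfamily, with levels which consist of primes which split in a given field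
-/

set_option autoImplicit false
set_option linter.all false

open IsDedekindDomain NumberField Finset Filter Polynomial
open scoped Classical

namespace Pool.Agent.Helper29L

open Pool.Agent.N922.PQ (IsPr)
open Pool.Agent.H30EV (Curves irr curve twist)
open Pool.Agent.Helper29K (InFamily Pr8 SP spl_div exists_large fam_low)

/-- The primes `Q = 1` modulo `8` outside `T` which split in the field. -/
theorem divP_sp {K₀ : Type} [Field K₀] [NumberField K₀] {γ : K₀} {g : ℤ[X]} {δ : ℤ}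
    (hG : Pool.Agent.N922.PQ.Gen ℚ γ g δ) (hδ : δ ≠ 0) (T : Finset ℕ) :
    DivP {Q | Q ∈ SP g {p : ℕ | (p : ℤ) ∣ δ} ∧ Q ∉ T} := by
  intro T' L
  have hfin : ({p : ℕ | (p : ℤ) ∣ δ} ∪ ((T : Set ℕ) ∪ (T' : Set ℕ))).Finite := by
    refine Set.Finite.union ?_ (T.finite_toSet.union T'.finite_toSet)
    refine (Set.finite_Iic δ.natAbs).subset fun p hp => ?_
    have h1 : (p : ℤ) ∣ δ := hp
    exact Nat.le_of_dvd (Int.natAbs_pos.2 hδ) (Int.natCast_dvd.1 h1)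
  obtain ⟨𝒬, h𝒬, hL⟩ := exists_large (spl_div K₀ γ g δ hG _ hfin) L
  refine ⟨𝒬, fun Q hQ => ⟨(h𝒬 Q hQ).1, (h𝒬 Q hQ).2.1⟩, fun Q hQ => ?_, ?_, hL⟩
  · obtain ⟨h1, h2, h3, h4⟩ := h𝒬 Q hQ
    refine ⟨⟨h1, h2, h3, fun h => h4 (Or.inl h)⟩, fun h => h4 (Or.inr (Or.inl ?_))⟩
    exact Finset.mem_coe.2 h
  · rw [Finset.disjoint_left]
    intro Q hQ hQ'
    exact (h𝒬 Q hQ').2.2.2 (Or.inr (Or.inr (Finset.mem_coe.2 hQ)))

/-- The number of the members of the family which satisfy the conditions at the primes in `T₀`. -/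
theorem low_hgt (T₀ : Finset ℤ) (hT₀ : ∀ P ∈ T₀, IsPr P) : ∃ c : ℝ, 0 < c ∧ ∀ᶠ T : ℕ in atTop,
    c * (T : ℝ) ^ (5 / 6 : ℝ) ≤
      ({q : ℤ × ℤ | (InFamily q ∧ ∀ P ∈ T₀, P ∈ irr q.1 q.2) ∧ hgt q ≤ T}.ncard : ℝ) := by
  obtain ⟨c, X₀, hc, h⟩ := fam_low T₀ hT₀
  have htend : Tendsto (fun T : ℕ => ⌊((T : ℝ) / 27) ^ (1 / 6 : ℝ)⌋₊) atTop atTop := by
    refine tendsto_nat_floor_atTop.comp ((tendsto_rpow_atTop (by norm_num)).comp ?_)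
    exact tendsto_natCast_atTop_atTop.atTop_div_const (by norm_num)
  refine ⟨c / (32 * 27), by positivity, ?_⟩
  filter_upwards [htend.eventually (eventually_ge_atTop X₀), eventually_ge_atTop 27] with T h1 hT1
  obtain ⟨X, hX⟩ : ∃ X : ℕ, X = ⌊((T : ℝ) / 27) ^ (1 / 6 : ℝ)⌋₊ := ⟨_, rfl⟩
  rw [← hX] at h1
  have hT27 : (27 : ℝ) ≤ T := by exact_mod_cast hT1
  have hb : (1 : ℝ) ≤ ((T : ℝ) / 27) ^ (1 / 6 : ℝ) :=
    Real.one_le_rpow (by rw [le_div_iff₀ (by norm_num)]; linarith) (by norm_num)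
  have hXle : (X : ℝ) ≤ ((T : ℝ) / 27) ^ (1 / 6 : ℝ) := by
    rw [hX]; exact Nat.floor_le (by positivity)
  have hXge : ((T : ℝ) / 27) ^ (1 / 6 : ℝ) ≤ 2 * X := by
    have h2 := Nat.lt_floor_add_one (((T : ℝ) / 27) ^ (1 / 6 : ℝ))
    rw [← hX] at h2
    have h3 : (1 : ℝ) ≤ X := by
      have : 1 ≤ X := by
        rw [hX, Nat.one_le_floor_iff]
        exact hb
      exact_mod_cast this
    linarith
  have h6 : (X : ℝ) ^ 6 ≤ (T : ℝ) / 27 := by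
    calc (X : ℝ) ^ 6 ≤ (((T : ℝ) / 27) ^ (1 / 6 : ℝ)) ^ 6 :=
          pow_le_pow_left₀ (Nat.cast_nonneg _) hXle 6
      _ = (T : ℝ) / 27 := by
        rw [← Real.rpow_natCast, ← Real.rpow_mul (by positivity)]
        norm_num
  have h27 : 27 * X ^ 6 ≤ T := by
    have : (27 : ℝ) * (X : ℝ) ^ 6 ≤ T := by linarith
    exact_mod_cast this
  have h5 := h X h1 T h27
  have hsub : {q ∈ Curves T | InFamily q ∧ ∀ P ∈ T₀, P ∈ irr q.1 q.2} ⊆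
      {q : ℤ × ℤ | (InFamily q ∧ ∀ P ∈ T₀, P ∈ irr q.1 q.2) ∧ hgt q ≤ T} := by
    rintro q ⟨hq, hF⟩
    refine ⟨hF, ?_⟩
    have h7 : max (4 * |q.1| ^ 3) (27 * q.2 ^ 2) ≤ (T : ℤ) := hq.2
    have hA : 4 * |q.1| ^ 3 ≤ (T : ℤ) := (le_max_left _ _).trans h7
    have hB : 27 * q.2 ^ 2 ≤ (T : ℤ) := (le_max_right _ _).trans h7
    refine max_le ?_ ?_
    · have h8 : ((q.1.natAbs ^ 3 : ℕ) : ℤ) ≤ (T : ℤ) := by
        push_cast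
        have : 0 ≤ |q.1| ^ 3 := by positivity
        linarith
      exact_mod_cast h8
    · have h8 : ((q.2.natAbs ^ 2 : ℕ) : ℤ) ≤ (T : ℤ) := by
        push_cast
        rw [sq_abs]
        have : 0 ≤ q.2 ^ 2 := by positivity
        linarith
      exact_mod_cast h8
  have h8 := Set.ncard_le_ncard hsub ((tot T (by omega)).1.subset fun q hq => hq.2)
  have h9 : (T : ℝ) ^ (5 / 6 : ℝ) ≤ 32 * 27 * (X : ℝ) ^ 5 := by
    have e1 : (((T : ℝ) / 27) ^ (1 / 6 : ℝ)) ^ 5 = ((T : ℝ) / 27) ^ (5 / 6 : ℝ) := by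
      rw [← Real.rpow_natCast, ← Real.rpow_mul (by positivity)]
      norm_num
    have e2 : (T : ℝ) ^ (5 / 6 : ℝ) = (27 : ℝ) ^ (5 / 6 : ℝ) * ((T : ℝ) / 27) ^ (5 / 6 : ℝ) := by
      rw [← Real.mul_rpow (by norm_num) (by positivity)]
      congr 1
      field_simp
    have e3 : (27 : ℝ) ^ (5 / 6 : ℝ) ≤ 27 := by
      calc (27 : ℝ) ^ (5 / 6 : ℝ) ≤ (27 : ℝ) ^ (1 : ℝ) :=
            Real.rpow_le_rpow_of_exponent_le (by norm_num) (by norm_num)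
        _ = 27 := Real.rpow_one _
    have e4 : (((T : ℝ) / 27) ^ (1 / 6 : ℝ)) ^ 5 ≤ (2 * (X : ℝ)) ^ 5 :=
      pow_le_pow_left₀ (by positivity) hXge 5
    rw [e1] at e4
    rw [e2]
    calc (27 : ℝ) ^ (5 / 6 : ℝ) * ((T : ℝ) / 27) ^ (5 / 6 : ℝ) ≤ 27 * (2 * (X : ℝ)) ^ 5 :=
          mul_le_mul e3 e4 (by positivity) (by norm_num)
      _ = 32 * 27 * (X : ℝ) ^ 5 := by ring
  calc c / (32 * 27) * (T : ℝ) ^ (5 / 6 : ℝ) ≤ c / (32 * 27) * (32 * 27 * (X : ℝ) ^ 5) :=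
        mul_le_mul_of_nonneg_left h9 (by positivity)
    _ = c * (X : ℝ) ^ 5 := by field_simp
    _ ≤ _ := h5
    _ ≤ _ := by exact_mod_cast h8

theorem NiceP.mono {k : ℕ} {𝒬 : ℕ → Finset ℕ} {ε ε' : ℝ} (hε : ε ≤ ε') {p : ℤ × ℤ}
    (h : NiceP k 𝒬 ε p) : NiceP k 𝒬 ε' p := by
  obtain ⟨h1, s, h2, h3⟩ := h
  exact ⟨h1, s, h2, fun j hj B => (h3 j hj B).trans hε⟩

/-- The members of the subfamily of height at most `T`. -/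
def FamG (Fm : ℤ × ℤ → Prop) (T : ℕ) : Set (ℤ × ℤ) := {q | (InFamily q ∧ Fm q) ∧ hgt q ≤ T}

/-- **The theorem for a subfamily.** -/
theorem given {Fm : ℤ × ℤ → Prop} (T₀ : Finset ℤ) (hT₀ : ∀ P ∈ T₀, IsPr P)
    (hFm : ∀ q, InFamily q → (∀ P ∈ T₀, P ∈ irr q.1 q.2) → Fm q) {𝒟 : Set ℕ} (hdiv : DivP 𝒟) :
    (∃ c : ℝ, 0 < c ∧ ∀ᶠ T : ℕ in atTop,
      c * ({p : ℤ × ℤ | hgt p ≤ T}.ncard : ℝ) ≤ ((FamG Fm T).ncard : ℝ)) ∧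
    ∀ ε : ℝ, 0 < ε → ∃ (k : ℕ) (𝒬 : ℕ → Finset ℕ), (∀ i < k + 1, Pr8 (𝒬 i) ∧ ∀ Q ∈ 𝒬 i, Q ∈ 𝒟) ∧
      (∀ i < k + 1, ∀ j < i, Disjoint (𝒬 j) (𝒬 i)) ∧ ∀ᶠ T : ℕ in atTop,
      (({p : ℤ × ℤ | p ∈ FamG Fm T ∧ ¬ NiceP k 𝒬 ε p}.ncard : ℕ) : ℝ) ≤
        ε * ((FamG Fm T).ncard : ℝ) := by
  obtain ⟨c, hc, hlow⟩ := low_hgt T₀ hT₀
  have hsub : ∀ T : ℕ, {q : ℤ × ℤ | (InFamily q ∧ ∀ P ∈ T₀, P ∈ irr q.1 q.2) ∧ hgt q ≤ T} ⊆
      FamG Fm T := fun T q hq => ⟨⟨hq.1.1, hFm q hq.1.1 hq.1.2⟩, hq.2⟩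
  have hfin : ∀ T : ℕ, (FamG Fm T).Finite := fun T => (fin_hgt T).subset fun q hq => hq.2
  have hlow' : ∀ᶠ T : ℕ in atTop, c * (T : ℝ) ^ (5 / 6 : ℝ) ≤ ((FamG Fm T).ncard : ℝ) := by
    filter_upwards [hlow] with T h
    exact h.trans (by exact_mod_cast Set.ncard_le_ncard (hsub T) (hfin T))
  have hall : ∀ᶠ T : ℕ in atTop,
      c / 9 * ({p : ℤ × ℤ | hgt p ≤ T}.ncard : ℝ) ≤ ((FamG Fm T).ncard : ℝ) := by
    filter_upwards [hlow', eventually_ge_atTop 1] with T h1 h2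
    have h3 := (tot T h2).2
    calc c / 9 * ({p : ℤ × ℤ | hgt p ≤ T}.ncard : ℝ) ≤ c / 9 * (9 * (T : ℝ) ^ (5 / 6 : ℝ)) :=
          mul_le_mul_of_nonneg_left h3 (by positivity)
      _ = c * (T : ℝ) ^ (5 / 6 : ℝ) := by ring
      _ ≤ _ := h1
  refine ⟨⟨c / 9, by positivity, hall⟩, fun ε hε => ?_⟩
  obtain ⟨ε', hε'⟩ : ∃ ε' : ℝ, ε' = min ε (ε * (c / 9)) := ⟨_, rfl⟩
  have hε'0 : 0 < ε' := by rw [hε']; exact lt_min hε (by positivity)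
  obtain ⟨k, 𝒬, h8, hdis, hev⟩ := main4P lin2 size slow sup tv2 (lev2P (mom NNL.pbad) hdiv) lowb hε'0
  refine ⟨k, 𝒬, h8, hdis, ?_⟩
  filter_upwards [hev, hall] with T h1 h2
  have hs1 : {p : ℤ × ℤ | p ∈ FamG Fm T ∧ ¬ NiceP k 𝒬 ε p} ⊆
      {p : ℤ × ℤ | p ∈ FamT T ∧ ¬ NiceP k 𝒬 ε' p} := by
    rintro p ⟨hp, hn⟩
    exact ⟨⟨hp.1.1, hp.2⟩, fun h => hn (h.mono (by rw [hε']; exact min_le_left _ _))⟩
  have hf : {p : ℤ × ℤ | p ∈ FamT T ∧ ¬ NiceP k 𝒬 ε' p}.Finite :=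
    (fin_hgt T).subset fun P hP => hP.1.2
  have h3 : ((FamT T).ncard : ℝ) ≤ ({p : ℤ × ℤ | hgt p ≤ T}.ncard : ℝ) := by
    exact_mod_cast Set.ncard_le_ncard
      (show FamT T ⊆ {p : ℤ × ℤ | hgt p ≤ T} from fun p hp => hp.2) (fin_hgt T)
  calc (({p : ℤ × ℤ | p ∈ FamG Fm T ∧ ¬ NiceP k 𝒬 ε p}.ncard : ℕ) : ℝ)
      ≤ ({p : ℤ × ℤ | p ∈ FamT T ∧ ¬ NiceP k 𝒬 ε' p}.ncard : ℝ) := by
        exact_mod_cast Set.ncard_le_ncard hs1 hf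
    _ ≤ ε' * ((FamT T).ncard : ℝ) := h1
    _ ≤ (ε * (c / 9)) * ({p : ℤ × ℤ | hgt p ≤ T}.ncard : ℝ) := by
        refine mul_le_mul ?_ h3 (Nat.cast_nonneg _) (by positivity)
        rw [hε']
        exact min_le_right _ _
    _ = ε * (c / 9 * ({p : ℤ × ℤ | hgt p ≤ T}.ncard : ℝ)) := by ring
    _ ≤ ε * ((FamG Fm T).ncard : ℝ) := mul_le_mul_of_nonneg_left h2 hε.le

end Pool.Agent.Helper29L
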