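import Pool.Agent.Helper29L.Stm4

/-!
# Project PR (helper29): the jobs for the second hand-in (almost all curves of the family)

For a pair `p` the levels are the sets `SE (𝒬 i) p.1 p.2` of the primes of `𝒬 i` which are of the type for
`p`, with fixed finite sets `𝒬 0`, `𝒬 1`, …. For almost all `p` of the family `InFamily` the dimensions of
`Sel_2` of the twists by the products with one prime in each of the first `k` levels, and in each of the
first `k + 1` levels, have on the average nearly the distribution `C2`.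
-/

set_option autoImplicit false
set_option linter.all false

open Finset Filter
open scoped Classical

namespace Pool.Agent.Helper29L

open Pool.Agent.Helper29K (SE Pr8 zS Bx InFamily NR)

/-- The proportion of the tuples (one prime in each of the levels `A 0`, …, `A (k - 1)`) whose set of primes
has the property `Pp`. -/
noncomputable def frac (k : ℕ) (A : ℕ → Finset ℕ) (Pp : Finset ℕ → Prop) : ℝ :=
  (((Fintype.piFinset fun i : Fin k => A i).filter fun Q => Pp (univ.image Q)).card : ℝ) /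
    ((Fintype.piFinset fun i : Fin k => A i).card : ℝ)

/-- **Job TV2** (as `S_TV`). -/
def S_TV2 : Prop := ∀ ε : ℝ, 0 < ε → ∀ R : ℕ, ∃ (k : ℕ) (δ : ℝ), 0 < δ ∧ δ ≤ 1 / 4 ∧
  ∀ A : ℕ → Finset ℕ, (∀ i < k + 1, (A i).Nonempty) → ∀ r : Finset ℕ → ℕ, r ∅ ≤ R →
    (∀ i < k + 1, StepOK r δ ((range i).biUnion A) (A i)) →
    ∀ B : Set ℕ, |(frac k A (fun Z => r Z ∈ B) + frac (k + 1) A (fun Z => r Z ∈ B)) / 2 -
      ∑' n, B.indicator C2 n| ≤ ε

/-- **Job LEV2.** The sets `𝒬 i`, by `S_MOM` (theorem `mom`, with `ε` divided by `2 ^ |W| (∏ W) ^ 5`,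
`W` the union of the preceding sets) and the divergence of the sum of `1 / Q` over the primes
`Q = 1` modulo `8` (used in `Helper29K/Main.lean`, or from `win`: `Ioc Y (2 Y)` contains more than any number
of primes... so better use the divergence) with the elements of the preceding sets removed. -/
def S_LEV2 : Prop := ∀ (κ k : ℕ) (δ ε : ℝ), 0 < δ → δ ≤ 1 / 4 → 0 < ε → ∀ 𝒬₀ : Finset ℕ,
  ∃ (𝒬 : ℕ → Finset ℕ) (m : ℕ → ℕ),
    (∀ i < k, Pr8 (𝒬 i) ∧ Disjoint 𝒬₀ (𝒬 i) ∧ 1 ≤ m i) ∧ (∀ i < k, ∀ j < i, Disjoint (𝒬 j) (𝒬 i)) ∧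
    ∀ᶠ X : ℕ in atTop, ∀ i < k, ((FewSet (𝒬 i) (m i) X).ncard : ℝ) ≤ ε * (X : ℝ) ^ 5 ∧
      (∀ Z ⊆ (range i).biUnion 𝒬, (UnbSet κ ((∏ Q ∈ Z, Q) * X) (𝒬 i) δ (m i)).Finite) ∧
      (∑ Z ∈ ((range i).biUnion 𝒬).powerset,
        ((UnbSet κ ((∏ Q ∈ Z, Q) * X) (𝒬 i) δ (m i)).ncard : ℝ)) ≤ ε * (X : ℝ) ^ 5

end Pool.Agent.Helper29L
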