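import Mathlib

/-!
# Eigenspaces of characters with values `1`, `-1` in `ℂ ⊗ M`
-/

set_option autoImplicit false
set_option linter.all false

open scoped TensorProduct

namespace Pool.Agent.Helper29L.Chi

section alg

variable {H M N : Type} [Group H] [Fintype H] [AddCommGroup M] [AddCommGroup N]

/-- The vectors in the eigenspace of `c` come from the eigenvectors in `M`. -/
theorem mem_range (act : H → (M →+ M)) (hmul : ∀ g h x, act (g * h) x = act g (act h x))
    (c : H → ℤ) (hc : ∀ g, c g * c g = 1) (hcm : ∀ g h, c (g * h) = c g * c h) (φ : N →+ M)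
    (hφ : ∀ P : M, (∀ g, act g P = c g • P) → P ∈ φ.range) (v : ℂ ⊗[ℤ] M)
    (hv : ∀ g, LinearMap.baseChange ℂ (act g).toIntLinearMap v = (c g : ℂ) • v) :
    v ∈ LinearMap.range (LinearMap.baseChange ℂ φ.toIntLinearMap) := by
  classical
  obtain ⟨π, hπ⟩ : ∃ π : ℂ ⊗[ℤ] M →ₗ[ℂ] ℂ ⊗[ℤ] M, π = ∑ g : H, (c g : ℂ) •
    LinearMap.baseChange ℂ (act g).toIntLinearMap := ⟨_, rfl⟩
  have h1 : π v = (Fintype.card H : ℂ) • v := by
    rw [hπ, LinearMap.sum_apply]
    have : ∀ g : H, ((c g : ℂ) • LinearMap.baseChange ℂ (act g).toIntLinearMap) v = v := by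
      intro g
      rw [LinearMap.smul_apply, hv g, smul_smul]
      have e : (c g : ℂ) * (c g : ℂ) = 1 := by exact_mod_cast hc g
      rw [e, one_smul]
    rw [Finset.sum_congr rfl fun g _ => this g, Finset.sum_const, Finset.card_univ,
      ← Nat.cast_smul_eq_nsmul ℂ]
  have h2 : ∀ w : ℂ ⊗[ℤ] M, π w ∈ LinearMap.range (LinearMap.baseChange ℂ φ.toIntLinearMap) := by
    intro w
    induction w using TensorProduct.induction_on with
    | zero => rw [map_zero]; exact Submodule.zero_mem _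
    | add x y hx hy => rw [map_add]; exact Submodule.add_mem _ hx hy
    | tmul z P =>
      have h3 : π (z ⊗ₜ[ℤ] P) = z ⊗ₜ[ℤ] (∑ g : H, c g • act g P) := by
        rw [hπ, LinearMap.sum_apply, TensorProduct.tmul_sum]
        refine Finset.sum_congr rfl fun g _ => ?_
        rw [LinearMap.smul_apply, LinearMap.baseChange_tmul, TensorProduct.tmul_smul]
        show (c g : ℂ) • (z ⊗ₜ[ℤ] act g P) = c g • (z ⊗ₜ[ℤ] act g P)
        rw [Int.cast_smul_eq_zsmul]
      have h4 : (∑ g : H, c g • act g P) ∈ φ.range := by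
        apply hφ
        intro h
        rw [map_sum, Finset.smul_sum]
        have e : ∀ g : H, act h (c g • act g P) = c h • (c (h * g) • act (h * g) P) := by
          intro g
          rw [map_zsmul, ← hmul, smul_smul, hcm, ← mul_assoc, hc, one_mul]
        rw [Finset.sum_congr rfl fun g _ => e g]
        exact Fintype.sum_equiv (Equiv.mulLeft h) _ _ fun g => rfl
      obtain ⟨n, hn⟩ := h4
      rw [h3, ← hn]
      exact ⟨z ⊗ₜ[ℤ] n, by rw [LinearMap.baseChange_tmul]; rfl⟩
  have h3 := h2 v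
  rw [h1] at h3
  have hne : (Fintype.card H : ℂ) ≠ 0 := by
    have : 0 < Fintype.card H := Fintype.card_pos
    exact_mod_cast this.ne'
  have h4 := Submodule.smul_mem _ (Fintype.card H : ℂ)⁻¹ h3
  rwa [smul_smul, inv_mul_cancel₀ hne, one_smul] at h4

/-- The dimension of the eigenspace is at most the rank. -/
theorem rank_le (act : H → (M →+ M)) (hmul : ∀ g h x, act (g * h) x = act g (act h x))
    (c : H → ℤ) (hc : ∀ g, c g * c g = 1) (hcm : ∀ g h, c (g * h) = c g * c h) (φ : N →+ M)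
    (hφ : ∀ P : M, (∀ g, act g P = c g • P) → P ∈ φ.range) (W : Submodule ℂ (ℂ ⊗[ℤ] M))
    (hW : ∀ v ∈ W, ∀ g, LinearMap.baseChange ℂ (act g).toIntLinearMap v = (c g : ℂ) • v) :
    Module.rank ℂ W ≤ Module.rank ℤ N := by
  have h1 : W ≤ LinearMap.range (LinearMap.baseChange ℂ φ.toIntLinearMap) := fun v hv =>
    mem_range act hmul c hc hcm φ hφ v (hW v hv)
  have h2 : Module.rank ℂ (ℂ ⊗[ℤ] N) = Module.rank ℤ N :=
    IsBaseChange.rank_eq (TensorProduct.isBaseChange ℤ N ℂ)
  rw [← h2]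
  exact (Submodule.rank_mono h1).trans (rank_range_le _)

end alg

end Pool.Agent.Helper29L.Chi
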