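import Pool.Agent.Helper29L.Chi
import Pool.Agent.H30EV.Pts
import Pool.Agent.Y700.VC

/-!
# The multiplicities `m_ρ(E)` of the representations which are a quadratic character on a subgroup
-/

set_option autoImplicit false
set_option linter.all false

open scoped TensorProduct Classical
open NumberField

namespace Pool.Agent.Helper29L.Chi

open Pool.Agent.H30EV (curve twist)

/-- The curve `y ^ 2 = x ^ 3 + a x + b` over `ℚ`. -/
def curveQ (p : ℤ × ℤ) : WeierstrassCurve ℚ := ⟨0, 0, 0, (p.1 : ℚ), (p.2 : ℚ)⟩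

section mult

variable (F : Type) [Field F] [CharZero F] (p : ℤ × ℤ)

/-- The group `E(F)`. -/
def Pts : Type := ((curveQ p).baseChange F).toAffine.Point

noncomputable instance instPts : AddCommGroup (Pts F p) :=
  (inferInstance : AddCommGroup ((curveQ p).baseChange F).toAffine.Point)

/-- The action of `g` in the Galois group on `E(F)`. -/
noncomputable def act (g : F ≃ₐ[ℚ] F) : Pts F p →+ Pts F p :=
  WeierstrassCurve.Affine.Point.map (W' := (curveQ p).toAffine) g.toAlgHom

/-- The complex vector space `V_E = E(F) ⊗ ℂ`. -/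
def VE : Type := ℂ ⊗[ℤ] Pts F p

noncomputable instance instVE : AddCommGroup (VE F p) :=
  (inferInstance : AddCommGroup (ℂ ⊗[ℤ] Pts F p))

noncomputable instance instVE' : Module ℂ (VE F p) :=
  (inferInstance : Module ℂ (ℂ ⊗[ℤ] Pts F p))

/-- The action of `g` on `V_E`. -/
noncomputable def gal (g : F ≃ₐ[ℚ] F) : VE F p →ₗ[ℂ] VE F p :=
  LinearMap.baseChange ℂ (act F p g).toIntLinearMap

/-- The space `Hom_G(ρ, V_E)`. -/
def HomG {V : Type} [AddCommGroup V] [Module ℂ V] (ρ : Representation ℂ (F ≃ₐ[ℚ] F) V) :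
    Submodule ℂ (V →ₗ[ℂ] VE F p) where
  carrier := {f | ∀ (g : F ≃ₐ[ℚ] F) (v : V), f (ρ g v) = gal F p g (f v)}
  add_mem' := by
    intro f f' h h' g v
    rw [LinearMap.add_apply, LinearMap.add_apply, h g v, h' g v, map_add]
  zero_mem' := by
    intro g v
    rw [LinearMap.zero_apply, LinearMap.zero_apply, map_zero]
  smul_mem' := by
    intro c f h g v
    rw [LinearMap.smul_apply, LinearMap.smul_apply, h g v, map_smul]

/-- The multiplicity `m_ρ(E) = dim Hom_G(ρ, V_E)`. -/
noncomputable def mult {V : Type} [AddCommGroup V] [Module ℂ V]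
    (ρ : Representation ℂ (F ≃ₐ[ℚ] F) V) : Cardinal := Module.rank ℂ (HomG F p ρ)

end mult

/-! ### The quadratic character -/

section char

variable {F : Type} [Field F] [CharZero F] {d : ℤ} {s : F}

/-- The value at `g` of the quadratic character of `ℚ(s)`. -/
noncomputable def cs (s : F) (g : F ≃ₐ[ℚ] F) : ℤ := if g s = s then 1 else -1

theorem cs_sq (s : F) (g : F ≃ₐ[ℚ] F) : cs s g * cs s g = 1 := by
  unfold cs
  split_ifs <;> norm_num

theorem g_s (hs : s ^ 2 = (d : F)) (g : F ≃ₐ[ℚ] F) : g s = (cs s g : F) * s := by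
  have h1 : g s ^ 2 = s ^ 2 := by
    rw [← map_pow, hs, map_intCast]
  unfold cs
  split_ifs with h
  · rw [h]
    simp
  · rcases sq_eq_sq_iff_eq_or_eq_neg.1 h1 with h2 | h2
    · exact absurd h2 h
    · rw [h2]
      simp

theorem cs_eq (hd : d ≠ 0) (hs : s ^ 2 = (d : F)) (g : F ≃ₐ[ℚ] F) {c : ℤ} (hc : c = 1 ∨ c = -1)
    (h : g s = (c : F) * s) : cs s g = c := by
  have hs0 : s ≠ 0 := by
    rintro rfl
    rw [zero_pow two_ne_zero] at hs
    exact hd (by exact_mod_cast hs.symm)
  have h1 := g_s hs g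
  rw [h] at h1
  have h2 := mul_right_cancel₀ hs0 h1
  exact_mod_cast h2.symm

theorem cs_mul (hd : d ≠ 0) (hs : s ^ 2 = (d : F)) (g h : F ≃ₐ[ℚ] F) :
    cs s (g * h) = cs s g * cs s h := by
  apply cs_eq hd hs
  · unfold cs
    split_ifs <;> norm_num
  · show g (h s) = _
    rw [g_s hs h, map_mul, map_intCast, g_s hs g]
    push_cast
    ring

end char

/-! ### Points -/

section points

variable {F : Type} [Field F] [NumberField F] {q : ℤ × ℤ} {d : ℤ} {s : F}

theorem act_mul (g h : F ≃ₐ[ℚ] F) (x : Pts F q) : act F q (g * h) x = act F q g (act F q h x) := by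
  show WeierstrassCurve.Affine.Point.map (W' := (curveQ q).toAffine) (g * h).toAlgHom x =
    WeierstrassCurve.Affine.Point.map (W' := (curveQ q).toAffine) g.toAlgHom
      (WeierstrassCurve.Affine.Point.map (W' := (curveQ q).toAffine) h.toAlgHom x)
  rw [WeierstrassCurve.Affine.Point.map_map]
  rfl

theorem eqn_iff {x y : F} : ((curveQ q).baseChange F).toAffine.Equation x y ↔
    y ^ 2 = x ^ 3 + (q.1 : F) * x + (q.2 : F) := by
  rw [WeierstrassCurve.Affine.equation_iff]
  simp only [curveQ, WeierstrassCurve.baseChange, WeierstrassCurve.map, WeierstrassCurve.toAffine,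
    map_zero, map_intCast]
  constructor <;> intro h <;> linear_combination h

/-- The coordinates of an eigenvector. -/
theorem coords (hd : d ≠ 0) (hs : s ^ 2 = (d : F)) {x y : F}
    {h : ((curveQ q).baseChange F).toAffine.Nonsingular x y} {g : F ≃ₐ[ℚ] F}
    (hg : act F q g (WeierstrassCurve.Affine.Point.some x y h : Pts F q) =
      cs s g • (WeierstrassCurve.Affine.Point.some x y h : Pts F q)) :
    g x = x ∧ g y = (cs s g : F) * y := by
  obtain ⟨h', e1⟩ : ∃ h', act F q g (WeierstrassCurve.Affine.Point.some x y h : Pts F q) =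
      WeierstrassCurve.Affine.Point.some (g x) (g y) h' := ⟨_, rfl⟩
  rw [e1] at hg
  by_cases hc : g s = s
  · have e2 : cs s g = 1 := if_pos hc
    rw [e2] at hg ⊢
    rw [one_smul] at hg
    have h3 := WeierstrassCurve.Affine.Point.some.inj hg
    exact ⟨h3.1, by rw [h3.2]; simp⟩
  · have e2 : cs s g = -1 := if_neg hc
    rw [e2] at hg ⊢
    rw [neg_one_zsmul] at hg
    have h3 : (WeierstrassCurve.Affine.Point.some (g x) (g y) h' :
        ((curveQ q).baseChange F).toAffine.Point) =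
        -(WeierstrassCurve.Affine.Point.some x y h) := hg
    rw [WeierstrassCurve.Affine.Point.neg_some] at h3
    have h4 := WeierstrassCurve.Affine.Point.some.inj h3
    refine ⟨h4.1, ?_⟩
    rw [h4.2]
    simp [WeierstrassCurve.Affine.negY, curveQ, WeierstrassCurve.baseChange]

/-- **Multiplicity zero.** `K` is a subfield of the Galois number field `F`, `s ∈ F`, `s ^ 2 = d`. If the twist of
`E` by `d` has no points over `K` but `O`, then `m_ρ(E) = 0` for all representations `ρ` of `Gal(F/ℚ)` for which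
all the elements `h` of `Gal(F/K)` act as the scalar `χ_d(h)`. -/
theorem mult_zero [IsGalois ℚ F] (hq : 4 * q.1 ^ 3 + 27 * q.2 ^ 2 ≠ 0) (hd : d ≠ 0)
    (hs : s ^ 2 = (d : F)) (K : IntermediateField ℚ F)
    (hK : Subsingleton (curve K (twist q d)).toAffine.Point) {V : Type} [AddCommGroup V]
    [Module ℂ V] (ρ : Representation ℂ (F ≃ₐ[ℚ] F) V)
    (hρ : ∀ h ∈ K.fixingSubgroup, ∀ v, ρ h v = (cs s h : ℂ) • v) : mult F q ρ = 0 := by
  have hs0 : s ≠ 0 := by
    rintro rfl
    rw [zero_pow two_ne_zero] at hs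
    exact hd (by exact_mod_cast hs.symm)
  have hdF : (d : F) ≠ 0 := by exact_mod_cast hd
  -- no eigenvectors
  have hM : ∀ P : Pts F q, (∀ g : K.fixingSubgroup, act F q g.1 P = cs s g.1 • P) → P = 0 := by
    intro P hP
    rcases P with _ | ⟨x, y, h⟩
    · rfl
    exfalso
    have h1 := fun g : K.fixingSubgroup => coords hd hs (hP g)
    have hfix : ∀ z : F, (∀ g : K.fixingSubgroup, g.1 z = z) → z ∈ K := by
      intro z hz
      have h2 : z ∈ IntermediateField.fixedField K.fixingSubgroup := by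
        rw [IntermediateField.mem_fixedField_iff]
        exact fun g hg => hz ⟨g, hg⟩
      rwa [IsGalois.fixedField_fixingSubgroup] at h2
    have hx : x ∈ K := hfix x fun g => (h1 g).1
    have hy : y / s ∈ K := by
      apply hfix
      intro g
      rw [map_div₀, (h1 g).2, g_s hs g.1]
      have hc : ((cs s g.1 : ℤ) : F) ≠ 0 := by
        have := cs_sq s g.1
        intro h0
        have h3 : cs s g.1 = 0 := by exact_mod_cast h0
        rw [h3] at this
        norm_num at this
      field_simp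
    have hE : y ^ 2 = x ^ 3 + (q.1 : F) * x + (q.2 : F) := eqn_iff.1 h.1
    have hdK : 4 * (((twist q d).1 : ℤ) : K) ^ 3 + 27 * (((twist q d).2 : ℤ) : K) ^ 2 ≠ 0 := by
      have e : 4 * (twist q d).1 ^ 3 + 27 * (twist q d).2 ^ 2 =
          d ^ 6 * (4 * q.1 ^ 3 + 27 * q.2 ^ 2) := by
        simp only [twist]
        ring
      have h5 : 4 * (twist q d).1 ^ 3 + 27 * (twist q d).2 ^ 2 ≠ 0 := by
        rw [e]
        exact mul_ne_zero (pow_ne_zero 6 hd) hq
      exact_mod_cast h5
    apply (Pool.Agent.H30EV.nopt_curve hdK).1 hK ((d : K) * ⟨x, hx⟩) ((d : K) ^ 2 * ⟨y / s, hy⟩)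
    apply Subtype.ext
    simp only [twist]
    push_cast
    have e1 : (y / s) ^ 2 = y ^ 2 / d := by
      rw [div_pow, hs]
    have e2 : ((d : F) ^ 2 * (y / s)) ^ 2 = (d : F) ^ 3 * y ^ 2 := by
      rw [mul_pow, e1]
      field_simp
    rw [e2, hE]
    ring
  have hz : ∀ w : VE F q, (∀ g : K.fixingSubgroup, gal F q g.1 w = (cs s g.1 : ℂ) • w) → w = 0 := by
    intro w hw
    have h1 := mem_range (H := K.fixingSubgroup) (M := Pts F q) (N := PUnit.{1})
      (fun g => act F q g.1) (fun g h x => act_mul g.1 h.1 x) (fun g => cs s g.1)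
      (fun g => cs_sq s g.1) (fun g h => cs_mul hd hs g.1 h.1) 0
      (fun P hP => ⟨PUnit.unit, (hM P hP).symm⟩) w hw
    obtain ⟨t, ht⟩ := h1
    rw [← ht]
    have h0 : ((0 : PUnit.{1} →+ Pts F q)).toIntLinearMap = 0 := rfl
    rw [h0, LinearMap.baseChange_zero]
    rfl
  have hsub : Subsingleton (HomG F q ρ) := by
    refine ⟨fun f f' => ?_⟩
    apply Subtype.ext
    have key : ∀ f : HomG F q ρ, (f : V →ₗ[ℂ] VE F q) = 0 := by
      intro f
      ext v
      rw [LinearMap.zero_apply]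
      apply hz
      intro g
      rw [← f.2 g.1 v, hρ g.1 g.2 v, map_smul]
    rw [key f, key f']
  exact rank_subsingleton' ℂ _

/-- The inclusion of the points. -/
noncomputable def incl {k F : Type} [Field k] [CharZero k] [Field F] [CharZero F] (f : k →ₐ[ℚ] F)
    (q : ℤ × ℤ) : Pts k q →+ Pts F q :=
  WeierstrassCurve.Affine.Point.map (W' := (curveQ q).toAffine) f

theorem incl_some {k F : Type} [Field k] [CharZero k] [Field F] [CharZero F] (f : k →ₐ[ℚ] F)
    (q : ℤ × ℤ) {x y : k} (h : ((curveQ q).baseChange k).toAffine.Nonsingular x y) :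
    ∃ h', incl f q (WeierstrassCurve.Affine.Point.some x y h : Pts k q) =
      (WeierstrassCurve.Affine.Point.some (f x) (f y) h' : Pts F q) := ⟨_, rfl⟩

theorem exists_pt {k F : Type} [Field k] [CharZero k] [Field F] [CharZero F] (f : k →ₐ[ℚ] F)
    {q : ℤ × ℤ} (hq : 4 * q.1 ^ 3 + 27 * q.2 ^ 2 ≠ 0) {X Y : k}
    (hE : Y ^ 2 = X ^ 3 + (q.1 : k) * X + (q.2 : k)) :
    ∃ (R : Pts k q) (h' : ((curveQ q).baseChange F).toAffine.Nonsingular (f X) (f Y)),
      incl f q R = (WeierstrassCurve.Affine.Point.some (f X) (f Y) h' : Pts F q) := by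
  have h1 : ((curveQ q).baseChange k).toAffine.Equation X Y := by
    rw [WeierstrassCurve.Affine.equation_iff]
    simp only [curveQ, WeierstrassCurve.baseChange, WeierstrassCurve.map, WeierstrassCurve.toAffine,
      map_zero, map_intCast]
    linear_combination hE
  have e : ((curveQ q).baseChange k).Δ = ((-16 * (4 * q.1 ^ 3 + 27 * q.2 ^ 2) : ℤ) : k) := by
    simp only [curveQ, WeierstrassCurve.baseChange, WeierstrassCurve.map, WeierstrassCurve.Δ,
      WeierstrassCurve.b₂, WeierstrassCurve.b₄, WeierstrassCurve.b₆, WeierstrassCurve.b₈, map_zero,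
      map_intCast]
    push_cast
    ring
  have h2 : ((curveQ q).baseChange k).Δ ≠ 0 := by
    rw [e]
    exact_mod_cast mul_ne_zero (by norm_num : (-16 : ℤ) ≠ 0) hq
  obtain ⟨h', h3⟩ := incl_some f q (Pool.Agent.Y700.nonsing h2 h1)
  exact ⟨_, h', h3⟩

theorem vr (hd : d ≠ 0) (hs : s ^ 2 = (d : F)) :
    Pool.Agent.Y700.VR ((curveQ q).baseChange F) ((curveQ (twist q d)).baseChange F)
      (1 / s) 0 0 0 := by
  have hs0 : s ≠ 0 := by
    rintro rfl
    rw [zero_pow two_ne_zero] at hs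
    exact hd (by exact_mod_cast hs.symm)
  refine ⟨one_div_ne_zero hs0, ?_, ?_, ?_, ?_, ?_⟩
  · simp [curveQ, twist, WeierstrassCurve.baseChange, WeierstrassCurve.map]
  · simp [curveQ, twist, WeierstrassCurve.baseChange, WeierstrassCurve.map]
  · simp [curveQ, twist, WeierstrassCurve.baseChange, WeierstrassCurve.map]
  · simp only [curveQ, twist, WeierstrassCurve.baseChange, WeierstrassCurve.map, map_zero,
      map_intCast]
    push_cast
    rw [← hs]
    field_simp
    ring
  · simp only [curveQ, twist, WeierstrassCurve.baseChange, WeierstrassCurve.map, map_zero,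
      map_intCast]
    push_cast
    rw [← hs]
    field_simp
    ring

theorem delta_ne (hq : 4 * q.1 ^ 3 + 27 * q.2 ^ 2 ≠ 0) (hd : d ≠ 0) :
    ((curveQ (twist q d)).baseChange F).Δ ≠ 0 := by
  have e : ((curveQ (twist q d)).baseChange F).Δ =
      ((-16 * (d ^ 6 * (4 * q.1 ^ 3 + 27 * q.2 ^ 2)) : ℤ) : F) := by
    simp only [curveQ, twist, WeierstrassCurve.baseChange, WeierstrassCurve.map, WeierstrassCurve.Δ,
      WeierstrassCurve.b₂, WeierstrassCurve.b₄, WeierstrassCurve.b₆, WeierstrassCurve.b₈, map_zero,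
      map_intCast]
    push_cast
    ring
  rw [e]
  exact_mod_cast mul_ne_zero (by norm_num : (-16 : ℤ) ≠ 0) (mul_ne_zero (pow_ne_zero 6 hd) hq)

/-- The isomorphism of the twist with the curve over `F`. -/
noncomputable def back (hq : 4 * q.1 ^ 3 + 27 * q.2 ^ 2 ≠ 0) (hd : d ≠ 0) (hs : s ^ 2 = (d : F)) :
    Pts F (twist q d) →+ Pts F q :=
  ((vr (q := q) hd hs).equiv (delta_ne hq hd)).toAddMonoidHom

/-- **The multiplicity of the quadratic character** is at most the rank of the twist (over the image of `k`). -/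
theorem mult_le' {k : Type} [Field k] [CharZero k] (f : k →ₐ[ℚ] F)
    (hk : ∀ z : F, (∀ g : F ≃ₐ[ℚ] F, g z = z) → ∃ z' : k, f z' = z)
    (hq : 4 * q.1 ^ 3 + 27 * q.2 ^ 2 ≠ 0) (hd : d ≠ 0)
    (hs : s ^ 2 = (d : F)) (χ : Representation ℂ (F ≃ₐ[ℚ] F) ℂ)
    (hχ : ∀ g v, χ g v = (cs s g : ℂ) • v) :
    mult F q χ ≤ Module.rank ℤ (Pts k (twist q d)) := by
  have hs0 : s ≠ 0 := by
    rintro rfl
    rw [zero_pow two_ne_zero] at hs
    exact hd (by exact_mod_cast hs.symm)
  have hdF : (d : F) ≠ 0 := by exact_mod_cast hd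
  obtain ⟨φ, hφ⟩ : ∃ φ : Pts k (twist q d) →+ Pts F q,
      φ = (back hq hd hs).comp (incl f (twist q d)) := ⟨_, rfl⟩
  have hdisc : 4 * (twist q d).1 ^ 3 + 27 * (twist q d).2 ^ 2 ≠ 0 := by
    have e : 4 * (twist q d).1 ^ 3 + 27 * (twist q d).2 ^ 2 =
        d ^ 6 * (4 * q.1 ^ 3 + 27 * q.2 ^ 2) := by
      simp only [twist]
      ring
    rw [e]
    exact mul_ne_zero (pow_ne_zero 6 hd) hq
  have hrange : ∀ P : Pts F q, (∀ g : F ≃ₐ[ℚ] F, act F q g P = cs s g • P) → P ∈ φ.range := by
    intro P hP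
    rcases P with _ | ⟨x, y, h⟩
    · exact ⟨0, map_zero φ⟩
    have h1 := fun g : F ≃ₐ[ℚ] F => coords hd hs (hP g)
    obtain ⟨x', hx'⟩ := hk x fun g => (h1 g).1
    obtain ⟨y', hy'⟩ := hk (y / s) (by
      intro g
      rw [map_div₀, (h1 g).2, g_s hs g]
      have hc : ((cs s g : ℤ) : F) ≠ 0 := by
        have := cs_sq s g
        intro h0
        have h3 : cs s g = 0 := by exact_mod_cast h0
        rw [h3] at this
        norm_num at this
      field_simp)
    have hE : y ^ 2 = x ^ 3 + (q.1 : F) * x + (q.2 : F) := eqn_iff.1 h.1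
    have hy2 : y = s * f y' := by
      rw [hy']
      field_simp
    obtain ⟨R, h', hR⟩ := exists_pt f (q := twist q d) hdisc
      (X := (d : k) * x') (Y := (d : k) ^ 2 * y') (by
        apply f.toRingHom.injective
        show f _ = f _
        simp only [twist]
        push_cast
        simp only [map_add, map_mul, map_pow, map_intCast]
        rw [hx']
        have e1 : ((d : F) ^ 2 * f y') ^ 2 = (d : F) ^ 3 * y ^ 2 := by
          rw [hy2, mul_pow s, hs]
          ring
        rw [e1, hE]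
        ring)
    refine ⟨R, ?_⟩
    rw [hφ, AddMonoidHom.comp_apply, hR]
    have e2 : back hq hd hs (WeierstrassCurve.Affine.Point.some (f ((d : k) * x'))
        (f ((d : k) ^ 2 * y')) h' : Pts F (twist q d)) =
        (vr (q := q) hd hs).fn (delta_ne hq hd) (WeierstrassCurve.Affine.Point.some
          (f ((d : k) * x')) (f ((d : k) ^ 2 * y')) h') := rfl
    rw [e2, Pool.Agent.Y700.VR.fn_some]
    have ex : (1 / s) ^ 2 * f ((d : k) * x') + 0 = x := by
      rw [map_mul, map_intCast, hx', ← hs]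
      field_simp
      ring
    have ey : (1 / s) ^ 3 * f ((d : k) ^ 2 * y') +
        (1 / s) ^ 2 * 0 * f ((d : k) * x') + 0 = y := by
      rw [map_mul f (_ ^ 2), map_pow, map_intCast, hy2, ← hs]
      field_simp
      ring
    have key : ∀ (x1 y1 : F) (h1 : ((curveQ q).baseChange F).toAffine.Nonsingular x1 y1),
        x1 = x → y1 = y → (WeierstrassCurve.Affine.Point.some x1 y1 h1 : Pts F q) =
          WeierstrassCurve.Affine.Point.some x y h := by
      rintro x1 y1 h1 rfl rfl
      rfl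
    exact key _ _ _ ex ey
  have h2 := rank_le (H := F ≃ₐ[ℚ] F) (M := Pts F q) (N := Pts k (twist q d)) (act F q)
    (fun g h x => act_mul g h x) (cs s) (cs_sq s) (fun g h => cs_mul hd hs g h) φ hrange
  -- the evaluation at one
  obtain ⟨W, hW⟩ : ∃ W : Submodule ℂ (ℂ ⊗[ℤ] Pts F q), ∀ v, v ∈ W ↔ ∀ g : F ≃ₐ[ℚ] F,
      LinearMap.baseChange ℂ (act F q g).toIntLinearMap v = (cs s g : ℂ) • v := by
    refine ⟨⨅ g : F ≃ₐ[ℚ] F, LinearMap.ker (LinearMap.baseChange ℂ (act F q g).toIntLinearMap -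
      (cs s g : ℂ) • LinearMap.id), fun v => ?_⟩
    rw [Submodule.mem_iInf]
    refine forall_congr' fun g => ?_
    rw [LinearMap.mem_ker, LinearMap.sub_apply, sub_eq_zero]
    rfl
  refine le_trans ?_ (h2 W fun v hv g => (hW v).1 hv g)
  obtain ⟨ev, hev⟩ : ∃ ev : HomG F q χ →ₗ[ℂ] W, ∀ f, ((ev f : W) : ℂ ⊗[ℤ] Pts F q) =
      (f : ℂ →ₗ[ℂ] VE F q) 1 := by
    refine ⟨{ toFun := fun f => ⟨(f : ℂ →ₗ[ℂ] VE F q) 1, ?_⟩, map_add' := fun _ _ => rfl,
              map_smul' := fun _ _ => rfl }, fun f => rfl⟩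
    rw [hW]
    intro g
    have h3 := f.2 g 1
    rw [hχ g 1, map_smul] at h3
    exact h3.symm
  refine LinearMap.rank_le_of_injective ev fun f f' hff => ?_
  apply Subtype.ext
  apply LinearMap.ext_ring
  rw [← hev f, ← hev f', hff]

/-- **The multiplicity of the quadratic character** is at most the rank of the twist. -/
theorem mult_le [IsGalois ℚ F] (hq : 4 * q.1 ^ 3 + 27 * q.2 ^ 2 ≠ 0) (hd : d ≠ 0)
    (hs : s ^ 2 = (d : F)) (χ : Representation ℂ (F ≃ₐ[ℚ] F) ℂ)
    (hχ : ∀ g v, χ g v = (cs s g : ℂ) • v) :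
    mult F q χ ≤ Module.rank ℤ (Pts ℚ (twist q d)) := by
  refine mult_le' (Algebra.ofId ℚ F) (fun z hz => ?_) hq hd hs χ hχ
  have h2 : z ∈ (⊥ : IntermediateField ℚ F) := by
    rw [← IsGalois.fixedField_fixingSubgroup (⊥ : IntermediateField ℚ F),
      IntermediateField.mem_fixedField_iff]
    exact fun g _ => hz g
  obtain ⟨z', hz'⟩ := IntermediateField.mem_bot.1 h2
  exact ⟨z', hz'⟩

end points

end Pool.Agent.Helper29L.Chi
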