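import Pool.Agent.Helper29L.Det
import Pool.Agent.Helper29L.Stm3
import Pool.Agent.Helper29L.NN

/-!
# Few members of the family with an unbalanced class
-/

set_option autoImplicit false
set_option linter.all false

open IsDedekindDomain NumberField Finset Filter
open scoped Classical

namespace Pool.Agent.Helper29L

open Pool.Agent.N922.PQ
open Pool.Agent.Helper29K (InFamily SE Pr8 zS Bx NR mem_zS card_zS prod_zS mem_Bx nr_congr goodS_of)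
open Pool.Agent.N874.PP (Tup chA chB gq tau Two Ev Sq1 U0 sW)

/-- Few large subsets. -/
theorem tail_sets {δ : ℝ} (hδ : 0 < δ) (hδ1 : δ ≤ 1 / 4) (𝒬 : Finset ℕ) :
    ((𝒬.powerset.filter fun A => (1 / 2 + δ) * (𝒬.card : ℝ) ≤ A.card).card : ℝ) ≤
      2 ^ 𝒬.card * Real.exp (-(δ ^ 2 / 2) * 𝒬.card) := by
  obtain ⟨n, hn⟩ : ∃ n : ℕ, n = 𝒬.card := ⟨_, rfl⟩
  rw [← hn]
  have h1 : ∑ A ∈ 𝒬.powerset, (1 + δ) ^ A.card = (2 + δ) ^ n := by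
    have h2 := Finset.prod_one_add (f := fun _ : ℕ => 1 + δ) (s := 𝒬)
    rw [Finset.prod_const, ← hn] at h2
    have e : (1 + (1 + δ)) = 2 + δ := by ring
    rw [e] at h2
    rw [h2]
    exact Finset.sum_congr rfl fun A _ => (Finset.prod_const _).symm
  have hlog : (1 / 2 + δ) * Real.log (1 + δ) ≥ δ / 2 + δ ^ 2 / 2 := by
    have h3 : δ - δ ^ 2 / 2 ≤ Real.log (1 + δ) := by
      have h4 := Real.le_log_one_add_of_nonneg hδ.le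
      refine le_trans ?_ h4
      rw [le_div_iff₀ (by linarith)]
      nlinarith [pow_pos hδ 3, pow_pos hδ 2]
    have h5 : (1 / 2 + δ) * (δ - δ ^ 2 / 2) ≤ (1 / 2 + δ) * Real.log (1 + δ) :=
      mul_le_mul_of_nonneg_left h3 (by linarith)
    have h6 : δ / 2 + δ ^ 2 / 2 ≤ (1 / 2 + δ) * (δ - δ ^ 2 / 2) := by
      nlinarith [pow_pos hδ 3, pow_pos hδ 2]
    linarith
  have h7 : (((𝒬.powerset.filter fun A => (1 / 2 + δ) * (n : ℝ) ≤ A.card).card : ℝ)) *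
      Real.exp ((δ / 2 + δ ^ 2 / 2) * n) ≤ (2 + δ) ^ n := by
    rw [← h1]
    have h8 : ∑ A ∈ 𝒬.powerset.filter (fun A => (1 / 2 + δ) * (n : ℝ) ≤ A.card),
        Real.exp ((δ / 2 + δ ^ 2 / 2) * n) ≤
        ∑ A ∈ 𝒬.powerset.filter (fun A => (1 / 2 + δ) * (n : ℝ) ≤ A.card), (1 + δ) ^ A.card := by
      refine Finset.sum_le_sum fun A hA => ?_
      have hA' := (Finset.mem_filter.1 hA).2
      have h9 : (1 + δ) ^ A.card = Real.exp (Real.log (1 + δ) * A.card) := by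
        rw [mul_comm, Real.exp_nat_mul, Real.exp_log (by linarith)]
      rw [h9, Real.exp_le_exp]
      have h10 : 0 ≤ Real.log (1 + δ) := Real.log_nonneg (by linarith)
      calc (δ / 2 + δ ^ 2 / 2) * n ≤ ((1 / 2 + δ) * Real.log (1 + δ)) * n :=
            mul_le_mul_of_nonneg_right hlog (Nat.cast_nonneg _)
        _ = Real.log (1 + δ) * ((1 / 2 + δ) * n) := by ring
        _ ≤ Real.log (1 + δ) * A.card := mul_le_mul_of_nonneg_left hA' h10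
    rw [Finset.sum_const, nsmul_eq_mul] at h8
    refine h8.trans (Finset.sum_le_sum_of_subset_of_nonneg (Finset.filter_subset _ _) fun A _ _ => ?_)
    positivity
  have h11 : (2 + δ) ^ n ≤ 2 ^ n * Real.exp (δ / 2 * n) := by
    have h12 : 2 + δ ≤ 2 * Real.exp (δ / 2) := by
      have := Real.add_one_le_exp (δ / 2)
      linarith
    calc (2 + δ) ^ n ≤ (2 * Real.exp (δ / 2)) ^ n := pow_le_pow_left₀ (by linarith) h12 n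
      _ = 2 ^ n * Real.exp (δ / 2 * n) := by
          rw [mul_pow, ← Real.exp_nat_mul]
          congr 2
          ring
  have h13 := h7.trans h11
  have h14 : (2 : ℝ) ^ n * Real.exp (δ / 2 * n) =
      (2 ^ n * Real.exp (-(δ ^ 2 / 2) * n)) * Real.exp ((δ / 2 + δ ^ 2 / 2) * n) := by
    rw [mul_assoc, ← Real.exp_add]
    congr 2
    ring
  rw [h14] at h13
  exact le_of_mul_le_mul_right h13 (Real.exp_pos _)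

theorem pbad_congr {κ X : ℕ} {S E : Finset ℤ} {s s' : ℤ → ℤ} {a b : ℤ}
    (h : ∀ Q ∈ S, Q ∣ s Q - s' Q) (hP : PBad κ X S E s a b) : PBad κ X S E s' a b := by
  obtain ⟨m, B, hB, h1, h2⟩ := hP
  refine ⟨m, B, ⟨hB.box, hB.nz, hB.tt, hB.nn, fun Q hQ => ?_, hB.rb⟩, h1, h2⟩
  have := dvd_add (hB.ra Q hQ) (h Q hQ)
  have e : chA B - s Q + (s Q - s' Q) = chA B - s' Q := by ring
  rwa [e] at this

/-- The patterns which are unbalanced on `𝒬`. -/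
noncomputable def Pat (S 𝒬 : Finset ℕ) (δ : ℝ) : Finset (Finset ℕ) :=
  S.powerset.filter fun E => (1 / 2 + δ) * (𝒬.card : ℝ) ≤ (E ∩ 𝒬).card ∨
    (1 / 2 + δ) * (𝒬.card : ℝ) ≤ (𝒬 \ E).card

/-- The number of the unbalanced patterns. -/
theorem card_Pat {δ : ℝ} (hδ : 0 < δ) (hδ1 : δ ≤ 1 / 4) {S 𝒬 : Finset ℕ} (h : 𝒬 ⊆ S) :
    ((Pat S 𝒬 δ).card : ℝ) ≤ 2 * (2 ^ S.card * Real.exp (-(δ ^ 2 / 2) * 𝒬.card)) := by
  have hsplit : Pat S 𝒬 δ ⊆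
      (((S \ 𝒬).powerset ×ˢ (𝒬.powerset.filter fun A => (1 / 2 + δ) * (𝒬.card : ℝ) ≤ A.card)).image
        fun x => x.1 ∪ x.2) ∪
      (((S \ 𝒬).powerset ×ˢ (𝒬.powerset.filter fun A => (1 / 2 + δ) * (𝒬.card : ℝ) ≤ A.card)).image
        fun x => x.1 ∪ (𝒬 \ x.2)) := by
    intro E hE
    obtain ⟨h1, h2⟩ := Finset.mem_filter.1 hE
    rw [Finset.mem_powerset] at h1
    rw [Finset.mem_union]
    rcases h2 with h2 | h2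
    · left
      refine Finset.mem_image.2 ⟨(E \ 𝒬, E ∩ 𝒬), ?_, ?_⟩
      · rw [Finset.mem_product, Finset.mem_powerset, Finset.mem_filter, Finset.mem_powerset]
        exact ⟨Finset.sdiff_subset_sdiff h1 subset_rfl, Finset.inter_subset_right, h2⟩
      · exact Finset.sdiff_union_inter E 𝒬
    · right
      refine Finset.mem_image.2 ⟨(E \ 𝒬, 𝒬 \ E), ?_, ?_⟩
      · rw [Finset.mem_product, Finset.mem_powerset, Finset.mem_filter, Finset.mem_powerset]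
        exact ⟨Finset.sdiff_subset_sdiff h1 subset_rfl, Finset.sdiff_subset, h2⟩
      · ext Q
        simp only [Finset.mem_union, Finset.mem_sdiff]
        tauto
  have hN : ((((S \ 𝒬).powerset ×ˢ (𝒬.powerset.filter fun A =>
      (1 / 2 + δ) * (𝒬.card : ℝ) ≤ A.card)).card : ℕ) : ℝ) ≤
      2 ^ S.card * Real.exp (-(δ ^ 2 / 2) * 𝒬.card) := by
    rw [Finset.card_product, Finset.card_powerset, Nat.cast_mul, Nat.cast_pow, Nat.cast_ofNat]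
    have h3 := tail_sets hδ hδ1 𝒬
    have h4 : (2 : ℝ) ^ (S \ 𝒬).card * 2 ^ 𝒬.card = 2 ^ S.card := by
      rw [← pow_add]
      congr 1
      exact Finset.card_sdiff_add_card_eq_card h
    calc (2 : ℝ) ^ (S \ 𝒬).card * _ ≤
        2 ^ (S \ 𝒬).card * (2 ^ 𝒬.card * Real.exp (-(δ ^ 2 / 2) * 𝒬.card)) :=
          mul_le_mul_of_nonneg_left h3 (by positivity)
      _ = _ := by rw [← mul_assoc, h4]
  have h5 := (Finset.card_le_card hsplit).trans (Finset.card_union_le _ _)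
  have h6 := h5.trans (Nat.add_le_add Finset.card_image_le Finset.card_image_le)
  have h7 : ((Pat S 𝒬 δ).card : ℝ) ≤ (((S \ 𝒬).powerset ×ˢ (𝒬.powerset.filter fun A =>
      (1 / 2 + δ) * (𝒬.card : ℝ) ≤ A.card)).card : ℝ) + (((S \ 𝒬).powerset ×ˢ
      (𝒬.powerset.filter fun A => (1 / 2 + δ) * (𝒬.card : ℝ) ≤ A.card)).card : ℝ) := by
    exact_mod_cast h6
  linarith

theorem FamS.typ {S : Finset ℕ} {s : ℕ → ℤ} {p : ℤ × ℤ} (h : FamS S s p) (hS : GoodRes S s) :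
    Typ p S := by
  refine ⟨hS.1, fun Q hQ => ⟨h.rb Q hQ, ?_⟩⟩
  rw [nr_congr (h.ra Q hQ)]
  exact hS.2 Q hQ

/-- An unbalanced class gives an unbalanced pattern. -/
theorem unb_pat {κ : ℕ} (hκ : PLBk κ) {S : Finset ℕ} {s : ℕ → ℤ} (hS : GoodRes S s) {p : ℤ × ℤ}
    (hp : FamS S s p) {X : ℕ} (hX : p ∈ Bx X) {Z₀ 𝒬 : Finset ℕ} (hZ₀ : Z₀ ⊆ S) (h𝒬 : 𝒬 ⊆ S)
    (hdis : Disjoint Z₀ 𝒬) {δ : ℝ} (hunb : ¬ BalN p S Z₀ 𝒬 δ) :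
    ∃ Z ∈ Z₀.powerset, ∃ E ∈ Pat (S \ Z) 𝒬 δ,
      PBad κ ((∏ Q ∈ Z, Q) * X) (zS (S \ Z)) (zS E)
        (fun Q => s Q.toNat * ((∏ Q ∈ Z, Q : ℕ) : ℤ) ^ 2)
        (p.1 * ((∏ Q ∈ Z, Q : ℕ) : ℤ) ^ 2) (p.2 * ((∏ Q ∈ Z, Q : ℕ) : ℤ) ^ 3) := by
  obtain ⟨a, b⟩ := p
  unfold BalN Balanced at hunb
  push Not at hunb
  obtain ⟨L, iF, iN, θ, 𝔮, C, α, hα, hns, hcon⟩ := hunb
  obtain ⟨hX1, hX2, hX3⟩ := mem_Bx.1 hX
  rw [zS_filter, card_zS] at hcon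
  set Z := Z₀.filter fun Q : ℕ => ¬ Ev (𝔮 (Q : ℤ)) α with hZ
  have hZZ : Z ⊆ Z₀ := Finset.filter_subset _ _
  have hZS : Z ⊆ S := hZZ.trans hZ₀
  obtain ⟨D, hD⟩ : ∃ D : ℕ, D = ∏ Q ∈ Z, Q := ⟨_, rfl⟩
  obtain ⟨E, hE⟩ : ∃ E : Finset ℕ, E = (S \ Z).filter fun Q : ℕ => ¬ Sq1 (𝔮 (Q : ℤ)) α := ⟨_, rfl⟩
  refine ⟨Z, Finset.mem_powerset.2 hZZ, E, ?_, ?_⟩
  · have h𝒬Z : 𝒬 ⊆ S \ Z := by
      intro Q hQ
      exact Finset.mem_sdiff.2 ⟨h𝒬 hQ, fun h => Finset.disjoint_left.1 hdis (hZZ h) hQ⟩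
    have e1 : E ∩ 𝒬 = 𝒬.filter fun Q : ℕ => ¬ Sq1 (𝔮 (Q : ℤ)) α := by
      ext Q
      rw [hE, Finset.mem_inter, Finset.mem_filter, Finset.mem_filter]
      exact ⟨fun h => ⟨h.2, h.1.2⟩, fun h => ⟨⟨h𝒬Z h.1, h.2⟩, h.1⟩⟩
    have e2 : 𝒬 \ E = 𝒬.filter fun Q : ℕ => Sq1 (𝔮 (Q : ℤ)) α := by
      ext Q
      rw [hE, Finset.mem_sdiff, Finset.mem_filter, Finset.mem_filter]
      constructor
      · rintro ⟨h1, h2⟩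
        exact ⟨h1, by_contra fun h3 => h2 ⟨h𝒬Z h1, h3⟩⟩
      · rintro ⟨h1, h2⟩
        exact ⟨h1, fun h3 => h3.2 h2⟩
    have hsplit : ((𝒬.filter fun q : ℕ => Sq1 (𝔮 (q : ℤ)) α).card : ℝ) +
        ((𝒬.filter fun q : ℕ => ¬ Sq1 (𝔮 (q : ℤ)) α).card : ℝ) = (𝒬.card : ℝ) := by
      exact_mod_cast Finset.card_filter_add_card_filter_not
        (s := 𝒬) (p := fun q : ℕ => Sq1 (𝔮 (q : ℤ)) α)
    refine Finset.mem_filter.2 ⟨Finset.mem_powerset.2 (by rw [hE]; exact Finset.filter_subset _ _), ?_⟩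
    rw [e1, e2]
    rcases lt_abs.1 hcon with h1 | h1
    · right
      linarith
    · left
      linarith
  · have hselZ : InSel a b (zS Z) θ α := by
      refine ⟨⟨hα.ne, hα.norm, hα.two, fun 𝔓 h => ?_⟩, fun Q hQ => hα.u0 Q (zS_mono hZZ hQ)⟩
      by_cases hex : ∃ Q ∈ zS Z₀, Ov Q 𝔓 ∧ 𝔓.valuation L θ = 1
      · obtain ⟨Q, hQ, h3, h4⟩ := hex
        obtain ⟨p, hp, rfl⟩ := mem_zS.1 hQ
        have e := C.uniq _ (zS_mono hZ₀ hQ) 𝔓 h3 h4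
        by_contra hn
        refine h _ (mem_zS.2 ⟨p, Finset.mem_filter.2 ⟨hp, ?_⟩, rfl⟩) ⟨h3, h4⟩
        rwa [← e]
      · exact hα.ev 𝔓 fun Q hQ h3 => hex ⟨Q, hQ, h3⟩
    have hodd : ∀ Q ∈ zS Z, ∀ 𝔓 : HeightOneSpectrum (𝓞 L), Ov Q 𝔓 → 𝔓.valuation L θ = 1 →
        ¬ Ev 𝔓 α := by
      intro Q hQ 𝔓 h3 h4
      obtain ⟨p, hp, rfl⟩ := mem_zS.1 hQ
      rw [C.uniq _ (zS_mono hZS hQ) 𝔓 h3 h4]
      exact (Finset.mem_filter.1 hp).2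
    have hDint : ((D : ℕ) : ℤ) = ∏ Q ∈ zS Z, Q := by rw [prod_zS, hD]
    have hP := hκ L a b θ X (zS Z) (zS (S \ Z)) (zS E) D C.cub hX1 hX2 hX3 C.fam.sqfree (by
      intro Q hQ
      rcases Finset.mem_union.1 hQ with h1 | h1
      · exact C.gp Q (zS_mono hZS h1)
      · exact C.gp Q (zS_mono Finset.sdiff_subset h1)) (zS_disj Finset.disjoint_sdiff) hDint α
      hselZ hns hodd (by
        intro Q hQ 𝔓 h3 h4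
        obtain ⟨p, hp, rfl⟩ := mem_zS.1 hQ
        rw [C.uniq _ (zS_mono Finset.sdiff_subset hQ) 𝔓 h3 h4]
        constructor
        · intro h5 h6
          obtain ⟨p', hp', hpp⟩ := mem_zS.1 h6
          have : p' = p := by exact_mod_cast hpp
          rw [hE, this] at hp'
          exact (Finset.mem_filter.1 hp').2 h5
        · intro h5
          by_contra h6
          exact h5 (mem_zS.2 ⟨p, by rw [hE]; exact Finset.mem_filter.2 ⟨hp, h6⟩, rfl⟩))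
    rw [← hD]
    refine pbad_congr ?_ hP
    intro Q hQ
    obtain ⟨q, hq, rfl⟩ := mem_zS.1 hQ
    have h1 := hp.ra q (Finset.sdiff_subset hq)
    have e : a * ((D : ℕ) : ℤ) ^ 2 - s ((q : ℤ).toNat) * ((D : ℕ) : ℤ) ^ 2 =
        (a - s q) * ((D : ℕ) : ℤ) ^ 2 := by
      rw [Int.toNat_natCast]
      ring
    show (q : ℤ) ∣ a * ((D : ℕ) : ℤ) ^ 2 - s ((q : ℤ).toNat) * ((D : ℕ) : ℤ) ^ 2
    rw [e]
    exact h1.mul_right _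

theorem goodS_tw {S Z : Finset ℕ} {s : ℕ → ℤ} (hS : GoodRes S s) (hZ : Z ⊆ S) :
    GoodS (zS (S \ Z)) (fun Q => s Q.toNat * ((∏ Q ∈ Z, Q : ℕ) : ℤ) ^ 2) := by
  intro Q hQ
  obtain ⟨q, hq, rfl⟩ := mem_zS.1 hQ
  obtain ⟨hqS, hqZ⟩ := Finset.mem_sdiff.1 hq
  have hq8 := hS.1 q hqS
  refine ⟨⟨by exact_mod_cast hq8.1.pos, Nat.prime_iff_prime_int.1 hq8.1⟩, by omega, ?_⟩
  have hd : ¬ (q : ℤ) ∣ ((∏ Q ∈ Z, Q : ℕ) : ℤ) := by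
    intro h1
    have h2 : q ∣ ∏ Q ∈ Z, Q := by exact_mod_cast h1
    obtain ⟨p, hp, hqp⟩ := (hq8.1.prime.dvd_finsetProd_iff _).1 h2
    exact hqZ ((Nat.prime_dvd_prime_iff_eq hq8.1 (hS.1 p (hZ hp)).1).1 hqp ▸ hp)
  have h3 := (nr_mul hq8.1 (a := s q) hd).2 (hS.2 q hqS)
  show ∀ z : ℤ, ¬ (q : ℤ) ∣ z ^ 2 + s ((q : ℤ).toNat) * ((∏ Q ∈ Z, Q : ℕ) : ℤ) ^ 2
  rw [Int.toNat_natCast]
  exact h3

/-- **Few members with an unbalanced class.** -/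
theorem few_unb {κ : ℕ} (hκ : PLBk κ) (hPB : S_PBAD) : ∃ K : ℝ, 0 < K ∧
    ∀ (S : Finset ℕ) (s : ℕ → ℤ), GoodRes S s → ∀ Z₀ 𝒬 : Finset ℕ, Z₀ ⊆ S → 𝒬 ⊆ S →
      Disjoint Z₀ 𝒬 → ∀ δ : ℝ, 0 < δ → δ ≤ 1 / 4 → ∀ᶠ X : ℕ in atTop,
      ((∏ Q ∈ S, Q : ℕ) : ℝ) ^ 2 *
        (((Bx X).filter fun p => FamS S s p ∧ ¬ BalN p S Z₀ 𝒬 δ).card : ℝ) ≤
        K * (2 ^ Z₀.card * ((∏ Q ∈ Z₀, Q : ℕ) : ℝ) ^ 7) * Real.exp (-(δ ^ 2 / 2) * 𝒬.card) *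
          (X : ℝ) ^ 5 := by
  obtain ⟨K, hK⟩ := hPB κ
  refine ⟨2 * (K + 1), by positivity, fun S s hS Z₀ 𝒬 hZ₀ h𝒬 hdis δ hδ hδ1 => ?_⟩
  obtain ⟨LLs, hLLs⟩ : ∃ LLs : Finset ℕ → Finset ℕ → ℕ → Set (ℤ × ℤ), ∀ Z E X, LLs Z E X =
      {p : ℤ × ℤ | PBad κ ((∏ Q ∈ Z, Q) * X) (zS (S \ Z)) (zS E)
        (fun Q => s Q.toNat * ((∏ Q ∈ Z, Q : ℕ) : ℤ) ^ 2) p.1 p.2} := ⟨_, fun _ _ _ => rfl⟩
  have hDpos : ∀ Z ⊆ S, 0 < ∏ Q ∈ Z, Q := fun Z hZ =>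
    Finset.prod_pos fun Q hQ => (hS.1 Q (hZ hQ)).1.pos
  have hev : ∀ᶠ X : ℕ in atTop, ∀ Z ∈ Z₀.powerset, ∀ E ∈ Pat (S \ Z) 𝒬 δ, (LLs Z E X).Finite ∧
      (2 : ℝ) ^ (S \ Z).card * ((∏ Q ∈ S \ Z, Q : ℕ) : ℝ) ^ 2 * ((LLs Z E X).ncard : ℝ) ≤
        K * (((∏ Q ∈ Z, Q : ℕ) : ℝ) * X) ^ 5 := by
    rw [Filter.eventually_all_finset]
    intro Z hZ
    rw [Filter.eventually_all_finset]
    intro E hE
    rw [Finset.mem_powerset] at hZ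
    obtain ⟨X₀, h⟩ := hK (zS (S \ Z)) (zS E) _ (goodS_tw hS (hZ.trans hZ₀))
    filter_upwards [eventually_ge_atTop X₀] with X hX
    have hD := hDpos Z (hZ.trans hZ₀)
    obtain ⟨h1, h2⟩ := h ((∏ Q ∈ Z, Q) * X) (hX.trans (Nat.le_mul_of_pos_left X hD))
    rw [hLLs]
    refine ⟨h1, ?_⟩
    rw [card_zS, prod_zS] at h2
    have h3 : (((2 ^ (S \ Z).card * ((∏ Q ∈ S \ Z, Q : ℕ) : ℤ) ^ 2 *
        (({p : ℤ × ℤ | PBad κ ((∏ Q ∈ Z, Q) * X) (zS (S \ Z)) (zS E)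
        (fun Q => s Q.toNat * ((∏ Q ∈ Z, Q : ℕ) : ℤ) ^ 2) p.1 p.2}).ncard : ℤ) : ℤ)) : ℝ) ≤
        ((K * (((∏ Q ∈ Z, Q) * X : ℕ) : ℤ) ^ 5 : ℤ) : ℝ) := by
      exact_mod_cast h2
    push_cast at h3
    push_cast
    exact h3
  filter_upwards [hev] with X hX
  -- the union
  have hsub : ((Bx X).filter fun p => FamS S s p ∧ ¬ BalN p S Z₀ 𝒬 δ).card ≤
      ∑ Z ∈ Z₀.powerset, ∑ E ∈ Pat (S \ Z) 𝒬 δ, (LLs Z E X).ncard := by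
    have h1 : ((Bx X).filter fun p => FamS S s p ∧ ¬ BalN p S Z₀ 𝒬 δ) ⊆
        Z₀.powerset.biUnion fun Z => (Pat (S \ Z) 𝒬 δ).biUnion fun E =>
          (Bx X).filter fun p => (p.1 * ((∏ Q ∈ Z, Q : ℕ) : ℤ) ^ 2,
            p.2 * ((∏ Q ∈ Z, Q : ℕ) : ℤ) ^ 3) ∈ LLs Z E X := by
      intro p hp
      obtain ⟨hpX, hpF, hpu⟩ := Finset.mem_filter.1 hp
      obtain ⟨Z, hZ, E, hE, hPB⟩ := unb_pat hκ hS hpF hpX hZ₀ h𝒬 hdis hpu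
      refine Finset.mem_biUnion.2 ⟨Z, hZ, Finset.mem_biUnion.2 ⟨E, hE, Finset.mem_filter.2 ⟨hpX, ?_⟩⟩⟩
      rw [hLLs]
      exact hPB
    refine (Finset.card_le_card h1).trans (Finset.card_biUnion_le.trans (Finset.sum_le_sum fun Z hZ =>
      Finset.card_biUnion_le.trans (Finset.sum_le_sum fun E hE => ?_)))
    have hZ' := Finset.mem_powerset.1 hZ
    have hD : ((∏ Q ∈ Z, Q : ℕ) : ℤ) ≠ 0 := by exact_mod_cast (hDpos Z (hZ'.trans hZ₀)).ne'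
    rw [Set.ncard_eq_toFinset_card _ (hX Z hZ E hE).1]
    refine Finset.card_le_card_of_injOn (fun p => (p.1 * ((∏ Q ∈ Z, Q : ℕ) : ℤ) ^ 2,
            p.2 * ((∏ Q ∈ Z, Q : ℕ) : ℤ) ^ 3)) ?_ ?_
    · intro p hp
      exact (hX Z hZ E hE).1.mem_toFinset.2 (Finset.mem_filter.1 hp).2
    · rintro ⟨x, y⟩ _ ⟨x', y'⟩ _ h
      obtain ⟨h1, h2⟩ := Prod.mk.inj h
      exact Prod.ext (mul_right_cancel₀ (pow_ne_zero 2 hD) h1)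
        (mul_right_cancel₀ (pow_ne_zero 3 hD) h2)
  have hsub' : ((((Bx X).filter fun p => FamS S s p ∧ ¬ BalN p S Z₀ 𝒬 δ).card : ℕ) : ℝ) ≤
      ∑ Z ∈ Z₀.powerset, ∑ E ∈ Pat (S \ Z) 𝒬 δ, ((LLs Z E X).ncard : ℝ) := by
    exact_mod_cast hsub
  have hP0 : (0 : ℝ) < ((∏ Q ∈ S, Q : ℕ) : ℝ) := by exact_mod_cast hDpos S subset_rfl
  -- each `Z`
  have hZbd : ∀ Z ∈ Z₀.powerset, ((∏ Q ∈ S, Q : ℕ) : ℝ) ^ 2 *
      ∑ E ∈ Pat (S \ Z) 𝒬 δ, ((LLs Z E X).ncard : ℝ) ≤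
      2 * K * ((∏ Q ∈ Z₀, Q : ℕ) : ℝ) ^ 7 * Real.exp (-(δ ^ 2 / 2) * 𝒬.card) * (X : ℝ) ^ 5 := by
    intro Z hZ
    have hZ' := Finset.mem_powerset.1 hZ
    have hZS := hZ'.trans hZ₀
    have hDZ : (0 : ℝ) < ((∏ Q ∈ Z, Q : ℕ) : ℝ) := by exact_mod_cast hDpos Z hZS
    have hDc : (0 : ℝ) < ((∏ Q ∈ S \ Z, Q : ℕ) : ℝ) := by
      exact_mod_cast hDpos (S \ Z) Finset.sdiff_subset
    have hprod : ((∏ Q ∈ S, Q : ℕ) : ℝ) = ((∏ Q ∈ S \ Z, Q : ℕ) : ℝ) * ((∏ Q ∈ Z, Q : ℕ) : ℝ) := by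
      rw [← Finset.prod_sdiff hZS]
      push_cast
      rfl
    have h1 : ∀ E ∈ Pat (S \ Z) 𝒬 δ, ((LLs Z E X).ncard : ℝ) ≤
        K * (((∏ Q ∈ Z, Q : ℕ) : ℝ) * X) ^ 5 / ((2 : ℝ) ^ (S \ Z).card *
          ((∏ Q ∈ S \ Z, Q : ℕ) : ℝ) ^ 2) := by
      intro E hE
      rw [le_div_iff₀ (by positivity)]
      have := (hX Z hZ E hE).2
      linarith
    have h2 := Finset.sum_le_sum h1
    rw [Finset.sum_const, nsmul_eq_mul] at h2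
    have h𝒬Z : 𝒬 ⊆ S \ Z := by
      intro Q hQ
      exact Finset.mem_sdiff.2 ⟨h𝒬 hQ, fun h => Finset.disjoint_left.1 hdis (hZ' h) hQ⟩
    have h3 := card_Pat hδ hδ1 h𝒬Z
    have hle : ((∏ Q ∈ Z, Q : ℕ) : ℝ) ≤ ((∏ Q ∈ Z₀, Q : ℕ) : ℝ) := by
      exact_mod_cast Finset.prod_le_prod_of_subset_of_one_le' hZ' fun Q hQ _ =>
        (hS.1 Q (hZ₀ hQ)).1.one_lt.le
    have hKK : (0 : ℝ) ≤ K := Nat.cast_nonneg _
    calc ((∏ Q ∈ S, Q : ℕ) : ℝ) ^ 2 * ∑ E ∈ Pat (S \ Z) 𝒬 δ, ((LLs Z E X).ncard : ℝ)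
        ≤ ((∏ Q ∈ S, Q : ℕ) : ℝ) ^ 2 * (((Pat (S \ Z) 𝒬 δ).card : ℝ) *
          (K * (((∏ Q ∈ Z, Q : ℕ) : ℝ) * X) ^ 5 / ((2 : ℝ) ^ (S \ Z).card *
          ((∏ Q ∈ S \ Z, Q : ℕ) : ℝ) ^ 2))) := mul_le_mul_of_nonneg_left h2 (by positivity)
      _ ≤ ((∏ Q ∈ S, Q : ℕ) : ℝ) ^ 2 * ((2 * (2 ^ (S \ Z).card *
          Real.exp (-(δ ^ 2 / 2) * 𝒬.card))) *
          (K * (((∏ Q ∈ Z, Q : ℕ) : ℝ) * X) ^ 5 / ((2 : ℝ) ^ (S \ Z).card *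
          ((∏ Q ∈ S \ Z, Q : ℕ) : ℝ) ^ 2))) :=
          mul_le_mul_of_nonneg_left (mul_le_mul_of_nonneg_right h3 (by positivity)) (by positivity)
      _ = 2 * K * ((∏ Q ∈ Z, Q : ℕ) : ℝ) ^ 7 * Real.exp (-(δ ^ 2 / 2) * 𝒬.card) * (X : ℝ) ^ 5 := by
          rw [hprod]
          field_simp
      _ ≤ _ := by gcongr
  calc ((∏ Q ∈ S, Q : ℕ) : ℝ) ^ 2 *
        (((Bx X).filter fun p => FamS S s p ∧ ¬ BalN p S Z₀ 𝒬 δ).card : ℝ)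
      ≤ ((∏ Q ∈ S, Q : ℕ) : ℝ) ^ 2 *
        ∑ Z ∈ Z₀.powerset, ∑ E ∈ Pat (S \ Z) 𝒬 δ, ((LLs Z E X).ncard : ℝ) :=
        mul_le_mul_of_nonneg_left hsub' (by positivity)
    _ = ∑ Z ∈ Z₀.powerset, ((∏ Q ∈ S, Q : ℕ) : ℝ) ^ 2 *
        ∑ E ∈ Pat (S \ Z) 𝒬 δ, ((LLs Z E X).ncard : ℝ) := by rw [Finset.mul_sum]
    _ ≤ ∑ _Z ∈ Z₀.powerset, 2 * K * ((∏ Q ∈ Z₀, Q : ℕ) : ℝ) ^ 7 *
        Real.exp (-(δ ^ 2 / 2) * 𝒬.card) * (X : ℝ) ^ 5 := Finset.sum_le_sum hZbd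
    _ = 2 ^ Z₀.card * (2 * K * ((∏ Q ∈ Z₀, Q : ℕ) : ℝ) ^ 7 *
        Real.exp (-(δ ^ 2 / 2) * 𝒬.card) * (X : ℝ) ^ 5) := by
        rw [Finset.sum_const, nsmul_eq_mul, Finset.card_powerset]
        push_cast
        rfl
    _ ≤ 2 ^ Z₀.card * (2 * (K + 1) * ((∏ Q ∈ Z₀, Q : ℕ) : ℝ) ^ 7 *
        Real.exp (-(δ ^ 2 / 2) * 𝒬.card) * (X : ℝ) ^ 5) := by
        gcongr
        linarith
    _ = _ := by ring

end Pool.Agent.Helper29L
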