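import Pool.Agent.Helper29L.Fin1
import Pool.Agent.Helper29L.LOW10
import Pool.Agent.H30GS.Main
import Pool.Agent.H30GR.Twq
import Pool.Agent.H30GR.Grow
import Pool.Agent.N922.PQ.Final2

/-!
# A member of the family of twists with trivial 2-Selmer group is controlled
-/

set_option autoImplicit false
set_option linter.all false

open IsDedekindDomain NumberField Finset
open scoped Classical

namespace Pool.Agent.Helper29L

open Pool.Agent.N922.PQ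
open Pool.Agent.N874.PP (Tup chA chB gq tau Two Ev Sq1 U0 sW)
open Pool.Agent.H30EV (curve twist Coch ShaCocycle cob)
open Pool.Agent.H30GR (Sel2 HSel GSelR gselR_of)
open Pool.Agent.H30GS (GSelS gselS)
open Pool.Agent.Helper29K (InFamily SE Pr8 zS Bx NR mem_zS card_zS prod_zS mem_Bx nr_congr goodS_of
  fam_of goodT_of)

theorem u0_one {L : Type} [Field L] [NumberField L] (𝔓 : HeightOneSpectrum (𝓞 L)) (w : L) :
    U0 𝔓 w (1 : L) := by
  refine ⟨fun _ => ⟨1, ?_⟩, fun h => absurd ⟨1, by rw [map_one, one_pow]⟩ h⟩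
  rw [one_pow, sub_self, map_zero, map_one]
  exact zero_lt_one

/-- The algebraic form of the triviality. -/
theorem hsel_of {L : Type} [Field L] [NumberField L] {a b : ℤ} {θ : L} (hc : IsCub a b θ)
    (hF : InFamily (a, b)) {Z : Finset ℤ} (hZ : ∀ Q ∈ Z, Gp a b Q) {d : ℤ} (hd : d = ∏ Q ∈ Z, Q)
    (hfin : Finite (Sel2 (curve ℚ (a * d ^ 2, b * d ^ 3))))
    (h1 : Nat.card (Sel2 (curve ℚ (a * d ^ 2, b * d ^ 3))) ≤ 1) : HSel a b Z θ := by
  intro α hα hn h2 hev hu0 hlt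
  by_contra hns
  have hθ : _root_.IsIntegral ℤ θ := Pool.Agent.Helper29L.LOW.int_th hc
  have hval : ∀ 𝔓 : HeightOneSpectrum (𝓞 L), 𝔓.valuation L θ ≤ 1 := by
    intro 𝔓
    obtain ⟨t, ht⟩ := (IsIntegralClosure.isIntegral_iff (A := 𝓞 L)).1 hθ
    rw [← ht]
    exact 𝔓.valuation_le_one t
  have hA : InSel a b Z θ α := by
    refine ⟨⟨hα, hn, h2, fun 𝔓 h => ?_⟩, hu0⟩
    by_cases hex : ∃ Q ∈ Z, Ov Q 𝔓
    · obtain ⟨Q, hQ, h3⟩ := hex
      exact hlt Q hQ 𝔓 h3 (lt_of_le_of_ne (hval 𝔓) fun h4 => h Q hQ ⟨h3, h4⟩)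
    · exact hev 𝔓 fun Q hQ h3 => hex ⟨Q, hQ, h3⟩
  have hO : InSel a b Z θ 1 := by
    refine ⟨⟨one_ne_zero, by rw [map_one]; exact IsSquare.one, loc2_one hc, fun 𝔓 h => ⟨1, by
      rw [map_one, one_pow]⟩⟩, fun Q hQ 𝔓 _ _ => u0_one 𝔓 _⟩
  have hz : ∀ i : Fin 2, InSel a b Z θ ((![1, α] : Fin 2 → L) i) := by
    intro i
    fin_cases i
    · exact hO
    · exact hA
  have hzz : ∀ i j : Fin 2, i ≠ j →
      ¬ IsSquare ((![1, α] : Fin 2 → L) i * (![1, α] : Fin 2 → L) j) := by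
    intro i j hij
    fin_cases i <;> fin_cases j
    · exact absurd rfl hij
    · show ¬ IsSquare (1 * α)
      rwa [one_mul]
    · show ¬ IsSquare (α * 1)
      rwa [mul_one]
    · exact absurd rfl hij
  obtain ⟨c, hc1, hc2⟩ := slow L a b θ Z d hc hF hZ hd 2 _ hz hzz
  haveI := hfin
  have := Pool.Agent.H30GR.sel_low c hc1 hc2
  omega

/-- **Members with trivial 2-Selmer group.** -/
theorem ctrl {q : ℤ × ℤ} (hF : InFamily q) {S Z : Finset ℕ} (hS : Typ q S) (hZ : Z ⊆ S)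
    (h0 : SelDim (twist q ((∏ Q ∈ Z, Q : ℕ) : ℤ)) 0) :
    GSelR (twist q ((∏ Q ∈ Z, Q : ℕ) : ℤ)).1 (twist q ((∏ Q ∈ Z, Q : ℕ) : ℤ)).2 ∧
    GSelS (twist q ((∏ Q ∈ Z, Q : ℕ) : ℤ)).1 (twist q ((∏ Q ∈ Z, Q : ℕ) : ℤ)).2 := by
  obtain ⟨a, b⟩ := q
  obtain ⟨X, hX⟩ : ∃ X : ℕ, ((a, b) : ℤ × ℤ) ∈ Bx X := by
    refine ⟨a.natAbs + b.natAbs, mem_Bx.2 ⟨hF.pos, ?_, ?_⟩⟩
    · have h1 : a ≤ ((a.natAbs + b.natAbs : ℕ) : ℤ) := by omega
      refine h1.trans ?_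
      exact_mod_cast Nat.le_self_pow two_ne_zero _
    · have h1 : |b| ≤ ((a.natAbs + b.natAbs : ℕ) : ℤ) := by
        rw [Int.abs_eq_natAbs]
        exact_mod_cast Nat.le_add_left _ _
      refine h1.trans ?_
      exact_mod_cast Nat.le_self_pow three_ne_zero _
  have hSf := goodS_of hS.1 (c := a) fun Q hQ => (hS.2 Q hQ).2
  have hFm := fam_of hF hX fun Q hQ => (hS.2 Q hQ).1
  have hT := goodT_of hF
  have hnt2 : ∀ z : ℤ, ¬ (2 : ℤ) ∣ z ^ 3 + a * z + b :=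
    Pool.Agent.Helper29K.nz_two hF.a_four hF.b_four
  have hirr : Irreducible (ff ℚ a b) := by
    have hone : (Polynomial.X ^ 3 + Polynomial.C ((((a * 1 ^ 2 : ℤ)) : ℚ)) * Polynomial.X +
      Polynomial.C ((((b * 1 ^ 3 : ℤ)) : ℚ)) : Polynomial ℚ) = ff ℚ a b := by
      rw [one_pow, one_pow, mul_one, mul_one]
      rfl
    rw [← hone]
    exact irr_tw (algebraMap ℚ ℚ_[2]) hnt2 one_ne_zero
  obtain ⟨L, iF, iN, θ, hc, hu⟩ := exists_cub hirr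
  have hZS : zS Z ⊆ zS S := by
    intro Q hQ
    obtain ⟨p, hp, rfl⟩ := mem_zS.1 hQ
    exact mem_zS.2 ⟨p, hZ hp, rfl⟩
  have hd : (((∏ Q ∈ Z, Q : ℕ)) : ℤ) = ∏ Q ∈ zS Z, Q := (prod_zS Z).symm
  have hsel : HSel a b (zS Z) θ := hsel_of hc hF (fun Q hQ => hS.gp Q (hZS hQ)) hd h0.1
    (by
      have := h0.2
      rw [pow_zero] at this
      exact this.le)
  have h1 := gselR_of parts2 Pool.Agent.N849.PQ.int hc hu hSf hFm hF.a_four hF.b_four hT hZS hsel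
  have h2 := gselS parts2 Pool.Agent.N849.PQ.int hc hSf hFm hT hZS hsel hF.a_four hF.b_four
  rw [← hd] at h1 h2
  exact ⟨h1, h2⟩

end Pool.Agent.Helper29L
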