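import Pool.Agent.Helper29L.Ctrl

/-!
# The members of the family; the final form with any property of the members
-/

set_option autoImplicit false
set_option linter.all false

open IsDedekindDomain NumberField Finset Filter
open scoped Classical

namespace Pool.Agent.Helper29L

open Pool.Agent.N922.PQ
open Pool.Agent.H30EV (curve twist)
open Pool.Agent.H30GR (Sel2)
open Pool.Agent.Helper29K (InFamily SE Pr8 zS Bx NR mem_zS card_zS prod_zS mem_Bx nr_congr goodS_of)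

theorem typ_of {S : Finset ℕ} {s : ℕ → ℤ} (hS : GoodRes S s) {q : ℤ × ℤ} (hq : FamS S s q) :
    Typ q S := by
  refine ⟨hS.1, fun Q hQ => ⟨hq.rb Q hQ, ?_⟩⟩
  exact (nr_congr (hq.ra Q hQ)).2 (hS.2 Q hQ)

theorem fin2 (Pp : ℤ × ℤ → Prop) (hPp : ∀ (q : ℤ × ℤ) (S Z : Finset ℕ), InFamily q → Typ q S →
    Z ⊆ S → Pp (twist q ((∏ Q ∈ Z, Q : ℕ) : ℤ))) (hTOT : S_TOT) (hLB : S_LOWB) (hTW1 : S_TW1) (hTW2 : S_TW2)
    (hM : ∀ ε : ℝ, 0 < ε → ∃ (S : Finset ℕ) (s : ℕ → ℤ) (𝒵 : Finset (Finset ℕ)), GoodRes S s ∧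
      (∀ Z ∈ 𝒵, Z ⊆ S) ∧ 𝒵.Nonempty ∧ ∀ᶠ T : ℕ in atTop, ∀ B : Set ℕ,
      |({P : ℤ × ℤ | P ∈ Gam S s 𝒵 ∧ hgt P ≤ T ∧ ∃ n ∈ B, SelDim P n}.ncard : ℝ) -
        (∑' n, B.indicator C2 n) * ({P : ℤ × ℤ | P ∈ Gam S s 𝒵 ∧ hgt P ≤ T ∧ True}.ncard : ℝ)| ≤
      ε * ({P : ℤ × ℤ | P ∈ Gam S s 𝒵 ∧ hgt P ≤ T ∧ True}.ncard : ℝ)) {ε : ℝ} (hε : 0 < ε) :
    ∃ (M : ℕ) (R : Set (ZMod M × ZMod M)) (c : ℝ), 0 < M ∧ 0 < c ∧ (∀ P ∈ Fam M R, Pp P) ∧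
      ∀ᶠ T : ℕ in atTop,
        c * ({P : ℤ × ℤ | hgt P ≤ T}.ncard : ℝ) ≤ ({P : ℤ × ℤ | P ∈ Fam M R ∧ hgt P ≤ T}.ncard : ℝ) ∧
        ∀ B : Set ℕ, |({P : ℤ × ℤ | P ∈ Fam M R ∧ hgt P ≤ T ∧ ∃ n ∈ B, SelDim P n}.ncard : ℝ) -
          (∑' n, B.indicator C2 n) * ({P : ℤ × ℤ | P ∈ Fam M R ∧ hgt P ≤ T}.ncard : ℝ)| ≤
        ε * ({P : ℤ × ℤ | P ∈ Fam M R ∧ hgt P ≤ T}.ncard : ℝ) := by
  obtain ⟨S, s, 𝒵, hS, hZS, hne, hev⟩ := hM ε hε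
  obtain ⟨M, R, hM0, hiff⟩ := hTW2 S s hS 𝒵 hZS
  obtain ⟨c, hc, hlow⟩ := hLB
  have hGam : Gam S s 𝒵 = Fam M R := by
    ext P
    exact hiff P
  have hTrue : ∀ T : ℕ, {P : ℤ × ℤ | P ∈ Fam M R ∧ hgt P ≤ T ∧ True} =
      {P : ℤ × ℤ | P ∈ Fam M R ∧ hgt P ≤ T} := by
    intro T
    ext P
    simp
  obtain ⟨Z, hZ⟩ := hne
  obtain ⟨d, hd⟩ : ∃ d : ℕ, d = ∏ Q ∈ Z, Q := ⟨_, rfl⟩
  have hdpos : 0 < d := by
    rw [hd]
    exact Finset.prod_pos fun Q hQ => (hS.1 Q (hZS Z hZ hQ)).1.pos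
  obtain ⟨P, hP⟩ : ∃ P : ℝ, P = ((∏ Q ∈ S, Q : ℕ) : ℝ) := ⟨_, rfl⟩
  have hPpos : 0 < P := by
    rw [hP]
    exact_mod_cast Finset.prod_pos fun Q hQ => (hS.1 Q hQ).1.pos
  obtain ⟨w, hw⟩ : ∃ w : ℝ, w = (2 * (d : ℝ) ^ 6) ^ (5 / 6 : ℝ) := ⟨_, rfl⟩
  have hdr : (0 : ℝ) < d := by exact_mod_cast hdpos
  have hwpos : 0 < w := by rw [hw]; positivity
  refine ⟨M, R, c / (9 * w * P ^ 2), hM0, by positivity, ?_, ?_⟩
  · intro P' hP'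
    rw [← hGam] at hP'
    obtain ⟨Z', hZ', q, hq, rfl⟩ := hP'
    exact hPp q S Z' hq.fam (typ_of hS hq) (hZS Z' hZ')
  · have htd : Tendsto (fun T : ℕ => T / d ^ 6) atTop atTop :=
      Nat.tendsto_div_const_atTop (pow_pos hdpos 6).ne'
    filter_upwards [hev, htd.eventually (hlow S s hS), eventually_ge_atTop (2 * d ^ 6),
      eventually_ge_atTop 1] with T hT1 hT2 hT3 hT4
    rw [hGam] at hT1
    simp only [hTrue] at hT1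
    refine ⟨?_, hT1⟩
    have h1 : (NS S s (T / d ^ 6) : ℝ) ≤ ({P : ℤ × ℤ | P ∈ Fam M R ∧ hgt P ≤ T}.ncard : ℝ) := by
      have h2 := hTW1 S s hS 𝒵 hZS T fun _ => True
      rw [hGam, hTrue] at h2
      rw [h2]
      have h3 : NS S s (T / d ^ 6) = {q : ℤ × ℤ | FamS S s q ∧ hgt q ≤ T / (∏ Q ∈ Z, Q) ^ 6 ∧
          True}.ncard := by
        unfold NS
        rw [hd]
        congr 1
        ext q
        simp
      rw [h3]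
      exact_mod_cast Finset.single_le_sum (f := fun Z => {q : ℤ × ℤ | FamS S s q ∧
        hgt q ≤ T / (∏ Q ∈ Z, Q) ^ 6 ∧ True}.ncard) (fun _ _ => Nat.zero_le _) hZ
    have h2 := (hTOT T hT4).2
    have hTr : (0 : ℝ) < T := by exact_mod_cast hT4
    -- `T / (2 d ^ 6) ≤ ⌊T / d ^ 6⌋`
    have h3 : (T : ℝ) / (2 * (d : ℝ) ^ 6) ≤ ((T / d ^ 6 : ℕ) : ℝ) := by
      have h4 : T < (T / d ^ 6 + 1) * d ^ 6 := by
        have := Nat.div_add_mod T (d ^ 6)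
        have h5 := Nat.mod_lt T (pow_pos hdpos 6)
        nlinarith
      have h5 : 1 ≤ T / d ^ 6 := by
        rw [Nat.one_le_div_iff (pow_pos hdpos 6)]
        omega
      rw [div_le_iff₀ (by positivity)]
      have h6 : T ≤ (T / d ^ 6) * (2 * d ^ 6) := by
        nlinarith [pow_pos hdpos 6]
      exact_mod_cast h6
    have h4 : (T : ℝ) ^ (5 / 6 : ℝ) ≤ w * ((T / d ^ 6 : ℕ) : ℝ) ^ (5 / 6 : ℝ) := by
      rw [hw, ← Real.mul_rpow (by positivity) (by positivity)]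
      refine Real.rpow_le_rpow hTr.le ?_ (by norm_num)
      rw [div_le_iff₀ (by positivity)] at h3
      linarith
    rw [← hP] at hT2
    calc c / (9 * w * P ^ 2) * ({P : ℤ × ℤ | hgt P ≤ T}.ncard : ℝ)
        ≤ c / (9 * w * P ^ 2) * (9 * (T : ℝ) ^ (5 / 6 : ℝ)) :=
          mul_le_mul_of_nonneg_left h2 (by positivity)
      _ ≤ c / (9 * w * P ^ 2) * (9 * (w * ((T / d ^ 6 : ℕ) : ℝ) ^ (5 / 6 : ℝ))) := by gcongr
      _ = (c * ((T / d ^ 6 : ℕ) : ℝ) ^ (5 / 6 : ℝ)) / P ^ 2 := by field_simp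
      _ ≤ (P ^ 2 * (NS S s (T / d ^ 6) : ℝ)) / P ^ 2 :=
          div_le_div_of_nonneg_right hT2 (by positivity)
      _ = (NS S s (T / d ^ 6) : ℝ) := by field_simp
      _ ≤ _ := h1

end Pool.Agent.Helper29L
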