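import Pool.Agent.Helper29L.Ctrl2
import Pool.Agent.Helper29L.MK

/-!
# Small facts on the 2-Selmer group, the rank and the Tate-Shafarevich group
-/

set_option autoImplicit false
set_option linter.all false

open IsDedekindDomain NumberField Finset Filter
open scoped Classical

namespace Pool.Agent.Helper29L

open Pool.Agent.H30EV (curve twist SelmerTrivial Coch ShaCocycle Pts NoZero)
open Pool.Agent.H30GR (Sel2 Sha GoodTwist twistProd selmerCocycles coboundariesTwo)

theorem sub_of_trivial {F : Type} [Field F] [NumberField F] {W : WeierstrassCurve F}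
    (h : SelmerTrivial W) : Subsingleton (Sel2 W) := by
  have key : ∀ x : Sel2 W, x = 0 := by
    intro x
    induction x using QuotientAddGroup.induction_on with
    | H z =>
      obtain ⟨f, hf⟩ := z
      have hf' : ShaCocycle W f ∧ 2 • f = 0 := hf
      obtain ⟨Q, hQ, hfQ⟩ := h f hf'.1 (fun σ => by
        have := congrFun hf'.2 σ
        exact this)
      refine (QuotientAddGroup.eq_zero_iff _).2 ?_
      rw [AddSubgroup.mem_addSubgroupOf]
      exact ⟨Q, hQ, hfQ.symm⟩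
  exact ⟨fun x y => (key x).trans (key y).symm⟩

theorem selDim_of_trivial {P : ℤ × ℤ} (h : SelmerTrivial (curve ℚ P)) : SelDim P 0 := by
  haveI := sub_of_trivial h
  refine ⟨inferInstance, ?_⟩
  rw [pow_zero, Nat.card_eq_one_iff_unique]
  exact ⟨this, ⟨0⟩⟩

theorem selDim_of_bound {P : ℤ × ℤ} (hfin : Finite (Sel2 (curve ℚ (twist P 1))))
    (h : Nat.card (Sel2 (curve ℚ (twist P 1))) ≤ twistProd P 1) : SelDim P 0 := by
  have e : twist P 1 = P := by
    simp [twist]
  rw [e] at h hfin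
  haveI := hfin
  have e2 : twistProd P 1 = 1 := by
    unfold twistProd
    have : ((1 : ℤ).natAbs.primeFactors.erase 2) = ∅ := by simp
    rw [this, Finset.prod_empty]
  rw [e2] at h
  refine ⟨hfin, ?_⟩
  have : 0 < Nat.card (Sel2 (curve ℚ P)) := Nat.card_pos
  rw [pow_zero]
  omega

theorem good_one (P : ℤ × ℤ) : GoodTwist P 1 := by
  refine ⟨squarefree_one, by norm_num, fun p hp _ hpd => ?_⟩
  exfalso
  have : p ∣ 1 := by exact_mod_cast hpd
  exact hp.one_lt.ne' (Nat.dvd_one.1 this)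

/-- `2 ^ rank * #Ш[2] = 2 ^ n` if and only if `dim Sel_2 = n`. -/
theorem rankSha {P : ℤ × ℤ} (hP : Mem P) (n : ℕ) :
    (Finite {x : Sha (curve ℚ P) // 2 • x = 0} ∧ 2 ^ Module.finrank ℤ (Pts (curve ℚ P) ℚ) *
      Nat.card {x : Sha (curve ℚ P) // 2 • x = 0} = 2 ^ n) ↔ SelDim P n := by
  have h := Pool.Agent.H30GR.card_sel_rank (F := ℚ) (q := P) hP.disc (fun x => by
    have := hP.root x
    exact_mod_cast this)
  constructor
  · rintro ⟨-, h2⟩
    have h3 : Nat.card (Sel2 (curve ℚ P)) = 2 ^ n := by rw [h, mul_comm, h2]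
    exact ⟨Nat.finite_of_card_ne_zero (by rw [h3]; positivity), h3⟩
  · rintro ⟨h1, h2⟩
    have h3 : 2 ^ Module.finrank ℤ (Pts (curve ℚ P) ℚ) *
        Nat.card {x : Sha (curve ℚ P) // 2 • x = 0} = 2 ^ n := by
      rw [← h2, h, mul_comm]
    refine ⟨Nat.finite_of_card_ne_zero fun h4 => ?_, h3⟩
    rw [h4, mul_zero] at h3
    exact absurd h3.symm (by positivity)

theorem prod_mod {J : Finset ℕ} (hJ : ∀ Q ∈ J, Q % 8 = 1) : (∏ Q ∈ J, Q) % 8 = 1 := by
  induction J using Finset.induction_on with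
  | empty => simp
  | insert a s ha ih =>
    rw [Finset.prod_insert ha, Nat.mul_mod, hJ a (Finset.mem_insert_self _ _),
      ih fun Q hQ => hJ Q (Finset.mem_insert_of_mem hQ)]

theorem four_tw {A B : ℤ} {d : ℕ} (hA : A % 4 = 3) (hB : B % 4 = 3) (h8 : d % 8 = 1) :
    (A * (d : ℤ) ^ 2) % 4 = 3 ∧ (B * (d : ℤ) ^ 3) % 4 = 3 := by
  obtain ⟨m, hm⟩ : ∃ m : ℤ, ((d : ℕ) : ℤ) = 4 * m + 1 := by
    refine ⟨(d : ℤ) / 4, ?_⟩
    omega
  constructor
  · rw [hm, show A * (4 * m + 1) ^ 2 = A + 4 * (A * (4 * m ^ 2 + 2 * m)) by ring]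
    omega
  · rw [hm, show B * (4 * m + 1) ^ 3 = B + 4 * (B * (16 * m ^ 3 + 12 * m ^ 2 + 3 * m)) by ring]
    omega

/-! ### The constant -/

theorem prod_le (n : ℕ) : ∏ j ∈ Finset.range n, (1 + (1 / 2 : ℝ) ^ j) ≤ 4.9 := by
  have key : ∀ n : ℕ, ∏ j ∈ Finset.range (n + 4), (1 + (1 / 2 : ℝ) ^ j) ≤
      4.9 * (1 - 2 * (1 / 2 : ℝ) ^ (n + 4)) := by
    intro n
    induction n with
    | zero =>
      simp only [Finset.prod_range_succ, Finset.prod_range_zero]
      norm_num
    | succ m ih =>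
      have e : m + 1 + 4 = (m + 4) + 1 := by ring
      rw [e, Finset.prod_range_succ]
      have hx : 0 < (1 / 2 : ℝ) ^ (m + 4) := by positivity
      have h1 := mul_le_mul_of_nonneg_right ih (by positivity : (0 : ℝ) ≤ 1 + (1 / 2 : ℝ) ^ (m + 4))
      refine h1.trans ?_
      rw [pow_succ (1 / 2 : ℝ) (m + 4)]
      nlinarith [sq_nonneg ((1 / 2 : ℝ) ^ (m + 4))]
  have hmono : ∏ j ∈ Finset.range n, (1 + (1 / 2 : ℝ) ^ j) ≤
      ∏ j ∈ Finset.range (n + 4), (1 + (1 / 2 : ℝ) ^ j) := by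
    refine Finset.prod_le_prod_of_subset_of_one_le ?_ (fun i _ => by positivity) fun i _ _ => ?_
    · intro i hi
      rw [Finset.mem_range] at hi ⊢
      omega
    · have : 0 < (1 / 2 : ℝ) ^ i := by positivity
      linarith
  have h := key n
  have hx : 0 < (1 / 2 : ℝ) ^ (n + 4) := by positivity
  linarith

theorem const_lt : 1 / 5 < C2 0 := by
  have hpos : 0 < C2 0 := c2.1 0
  unfold C2 at hpos ⊢
  rw [show Finset.Icc 1 0 = (∅ : Finset ℕ) from rfl, Finset.prod_empty, mul_one] at hpos ⊢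
  have h1 : 0 < ∏' j : ℕ, (1 + (1 / 2 : ℝ) ^ j) := inv_pos.1 hpos
  have hm : Multipliable fun j : ℕ => (1 + (1 / 2 : ℝ) ^ j) := by
    apply Real.multipliable_one_add_of_summable
    exact summable_geometric_of_lt_one (by norm_num) (by norm_num)
  have h2 : ∏' j : ℕ, (1 + (1 / 2 : ℝ) ^ j) ≤ 4.9 :=
    le_of_tendsto hm.hasProd.tendsto_prod_nat (Eventually.of_forall prod_le)
  rw [one_div, inv_lt_inv₀ (by norm_num) h1]
  linarith

theorem single (c : ℕ → ℝ) (n : ℕ) : ∑' m, ({n} : Set ℕ).indicator c m = c n := by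
  rw [tsum_eq_single n]
  · exact Set.indicator_of_mem (Set.mem_singleton n) _
  · intro m hm
    exact Set.indicator_of_notMem (fun h => hm (Set.mem_singleton_iff.1 h)) _

end Pool.Agent.Helper29L
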