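import Pool.Agent.Helper29L.Bal
import Pool.Agent.N922.PQ.Final2

/-!
# The deterministic part
-/

set_option autoImplicit false
set_option linter.all false

open IsDedekindDomain NumberField Finset
open scoped Classical

namespace Pool.Agent.Helper29L

open Pool.Agent.N922.PQ
open Pool.Agent.H30EV (curve twist)
open Pool.Agent.H30GR (Sel2)
open Pool.Agent.Helper29K (InFamily SE Pr8 zS Bx NR mem_zS card_zS prod_zS mem_Bx)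
open Pool.Agent.N874.PP (Tup chA chB gq tau Two Ev Sq1 U0 sW)

/-- Job LAT with the constant `κ`. -/
def PLBk (κ : ℕ) : Prop := ∀ (L : Type) [Field L] [NumberField L] (a b : ℤ) (θ : L) (X : ℕ)
  (Z S E : Finset ℤ) (D : ℕ), IsCub a b θ → 0 < a → a ≤ X ^ 2 → |b| ≤ X ^ 3 →
  Squarefree (dsc a b) → (∀ Q ∈ Z ∪ S, Gp a b Q) → Disjoint Z S → ((D : ℕ) : ℤ) = ∏ Q ∈ Z, Q →
  ∀ α : L, InSel a b Z θ α → ¬ IsSquare α →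
  (∀ Q ∈ Z, ∀ 𝔓 : HeightOneSpectrum (𝓞 L), Ov Q 𝔓 → 𝔓.valuation L θ = 1 → ¬ Ev 𝔓 α) →
  (∀ Q ∈ S, ∀ 𝔓 : HeightOneSpectrum (𝓞 L), Ov Q 𝔓 → 𝔓.valuation L θ = 1 →
    (Sq1 𝔓 α ↔ Q ∉ E)) →
  PBad κ (D * X) S E (fun _ => a * D ^ 2) (a * D ^ 2) (b * D ^ 3)

theorem exists_κ : ∃ κ, PLBk κ := plb

theorem gp_of {𝒬 : Finset ℕ} (h8 : Pr8 𝒬) {a b : ℤ} {Q : ℕ} (hQ : Q ∈ SE 𝒬 a b) :
    Gp a b (Q : ℤ) := by
  obtain ⟨h1, h2, h3⟩ := Finset.mem_filter.1 hQ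
  refine ⟨⟨by exact_mod_cast (h8 Q h1).1.pos, Nat.prime_iff_prime_int.1 (h8 Q h1).1⟩, ?_, h2, h3⟩
  have := (h8 Q h1).2
  omega

theorem nr_mul {Q : ℕ} (hQ : Q.Prime) {a D : ℤ} (hD : ¬ (Q : ℤ) ∣ D) :
    NR Q (a * D ^ 2) ↔ NR Q a := by
  have hQp : Prime (Q : ℤ) := Nat.prime_iff_prime_int.1 hQ
  obtain ⟨u, v, huv⟩ := hQp.irreducible.coprime_iff_not_dvd.2 hD
  constructor
  · intro h z hz
    apply h (z * D)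
    have e : (z * D) ^ 2 + a * D ^ 2 = D ^ 2 * (z ^ 2 + a) := by ring
    rw [e]
    exact hz.mul_left _
  · intro h z hz
    apply h (z * v)
    have e : (z * v) ^ 2 + a = v ^ 2 * (z ^ 2 + a * D ^ 2) + Q * (a * u * (1 + v * D)) := by
      linear_combination (a * (1 + v * D)) * (-huv)
    rw [e]
    exact dvd_add (hz.mul_left _) (dvd_mul_right _ _)

theorem se_twist {𝒬 : Finset ℕ} (h8 : Pr8 𝒬) {a b D : ℤ} (h : ∀ Q ∈ 𝒬, ¬ (Q : ℤ) ∣ D) :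
    SE 𝒬 (a * D ^ 2) (b * D ^ 3) = SE 𝒬 a b := by
  unfold SE
  refine Finset.filter_congr fun Q hQ => ?_
  rw [nr_mul (h8 Q hQ).1 (h Q hQ)]
  have hQp : Prime (Q : ℤ) := Nat.prime_iff_prime_int.1 (h8 Q hQ).1
  have e : (Q : ℤ) ∣ b * D ^ 3 ↔ (Q : ℤ) ∣ b :=
    ⟨fun h1 => (hQp.dvd_or_dvd h1).resolve_right fun h2 => h Q hQ (hQp.dvd_of_dvd_pow h2),
      fun h1 => h1.mul_right _⟩
  rw [e]

theorem zS_insert (q : ℕ) (Z : Finset ℕ) : zS (insert q Z) = insert (q : ℤ) (zS Z) := by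
  ext Q
  rw [mem_zS, Finset.mem_insert, mem_zS]
  constructor
  · rintro ⟨p, hp, rfl⟩
    rcases Finset.mem_insert.1 hp with rfl | hp
    · exact Or.inl rfl
    · exact Or.inr ⟨p, hp, rfl⟩
  · rintro (rfl | ⟨p, hp, rfl⟩)
    · exact ⟨q, Finset.mem_insert_self _ _, rfl⟩
    · exact ⟨p, Finset.mem_insert_of_mem hp, rfl⟩

theorem zS_mono {Z Z' : Finset ℕ} (h : Z ⊆ Z') : zS Z ⊆ zS Z' := by
  intro Q hQ
  obtain ⟨p, hp, rfl⟩ := mem_zS.1 hQ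
  exact mem_zS.2 ⟨p, h hp, rfl⟩

theorem zS_disj {Z Z' : Finset ℕ} (h : Disjoint Z Z') : Disjoint (zS Z) (zS Z') := by
  rw [Finset.disjoint_left]
  intro Q hQ hQ'
  obtain ⟨p, hp, rfl⟩ := mem_zS.1 hQ
  obtain ⟨p', hp', h1⟩ := mem_zS.1 hQ'
  have : p' = p := by exact_mod_cast h1
  exact Finset.disjoint_left.1 h hp (this ▸ hp')

theorem zS_filter (A : Finset ℕ) (P : ℤ → Prop) [DecidablePred P] :
    ((zS A).filter P).card = (A.filter fun q : ℕ => P (q : ℤ)).card := by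
  have e : (zS A).filter P = zS (A.filter fun q : ℕ => P (q : ℤ)) := by
    ext Q
    rw [Finset.mem_filter, mem_zS, mem_zS]
    constructor
    · rintro ⟨⟨p, hp, rfl⟩, h⟩
      exact ⟨p, Finset.mem_filter.2 ⟨hp, h⟩, rfl⟩
    · rintro ⟨p, hp, rfl⟩
      exact ⟨⟨p, (Finset.mem_filter.1 hp).1, rfl⟩, (Finset.mem_filter.1 hp).2⟩
  rw [e, card_zS]

section grp

variable {L : Type} [Field L] [NumberField L]

/-- **Balance** from the counting sets. -/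
theorem balanced_of {κ : ℕ} (hκ : PLBk κ) {a b : ℤ} {θ : L} {S : Finset ℤ}
    {𝔮 : ℤ → HeightOneSpectrum (𝓞 L)} (C : Ctx a b θ S 𝔮) {X : ℕ} (hX : ((a, b) : ℤ × ℤ) ∈ Bx X)
    {𝒬 Z₀ : Finset ℕ} (h8 : Pr8 𝒬) (hZpr : ∀ Q ∈ Z₀, Q.Prime) (hdis : Disjoint Z₀ 𝒬) (hZS : zS Z₀ ⊆ S)
    (hAS : zS (SE 𝒬 a b) ⊆ S) {δ : ℝ} {m : ℕ} (hm : m ≤ (SE 𝒬 a b).card)
    (hunb : ∀ Z ⊆ Z₀, (a * ((∏ Q ∈ Z, Q : ℕ) : ℤ) ^ 2, b * ((∏ Q ∈ Z, Q : ℕ) : ℤ) ^ 3) ∉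
      UnbSet κ ((∏ Q ∈ Z, Q) * X) 𝒬 δ m) :
    Balanced θ a b 𝔮 (zS Z₀) (zS (SE 𝒬 a b)) δ := by
  intro α hα hns
  obtain ⟨hX1, hX2, hX3⟩ := mem_Bx.1 hX
  by_contra hcon
  rw [not_le, zS_filter, card_zS] at hcon
  set Z := Z₀.filter fun Q : ℕ => ¬ Ev (𝔮 (Q : ℤ)) α with hZ
  have hZZ : Z ⊆ Z₀ := Finset.filter_subset _ _
  obtain ⟨D, hD⟩ : ∃ D : ℕ, D = ∏ Q ∈ Z, Q := ⟨_, rfl⟩
  have hu := hunb Z hZZ
  rw [← hD] at hu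
  have hselZ : InSel a b (zS Z) θ α := by
    refine ⟨⟨hα.ne, hα.norm, hα.two, fun 𝔓 h => ?_⟩, fun Q hQ => hα.u0 Q (zS_mono hZZ hQ)⟩
    by_cases hex : ∃ Q ∈ zS Z₀, Ov Q 𝔓 ∧ 𝔓.valuation L θ = 1
    · obtain ⟨Q, hQ, h3, h4⟩ := hex
      obtain ⟨p, hp, rfl⟩ := mem_zS.1 hQ
      have e := C.uniq _ (hZS hQ) 𝔓 h3 h4
      by_contra hn
      refine h _ (mem_zS.2 ⟨p, Finset.mem_filter.2 ⟨hp, ?_⟩, rfl⟩) ⟨h3, h4⟩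
      rwa [← e]
    · exact hα.ev 𝔓 fun Q hQ h3 => hex ⟨Q, hQ, h3⟩
  have hodd : ∀ Q ∈ zS Z, ∀ 𝔓 : HeightOneSpectrum (𝓞 L), Ov Q 𝔓 → 𝔓.valuation L θ = 1 →
      ¬ Ev 𝔓 α := by
    intro Q hQ 𝔓 h3 h4
    obtain ⟨p, hp, rfl⟩ := mem_zS.1 hQ
    rw [C.uniq _ (hZS (zS_mono hZZ hQ)) 𝔓 h3 h4]
    exact (Finset.mem_filter.1 hp).2
  have hDint : ((D : ℕ) : ℤ) = ∏ Q ∈ zS Z, Q := by rw [prod_zS, hD]
  have hdvd : ∀ Q ∈ 𝒬, ¬ (Q : ℤ) ∣ ((D : ℕ) : ℤ) := by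
    intro Q hQ h1
    have h2 : Q ∣ D := by exact_mod_cast h1
    rw [hD] at h2
    obtain ⟨p, hp, hQp⟩ := ((h8 Q hQ).1.prime.dvd_finsetProd_iff _).1 h2
    have h3 := (Nat.prime_dvd_prime_iff_eq (h8 Q hQ).1 (hZpr p (hZZ hp))).1 hQp
    exact Finset.disjoint_left.1 hdis (hZZ hp) (h3 ▸ hQ)
  have hSE := se_twist (a := a) (b := b) h8 hdvd
  -- the general step
  have key : ∀ (A' : Finset ℕ) (E : Finset ℤ), A' ⊆ SE 𝒬 a b → (E = ∅ ∨ E = zS A') →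
      (∀ Q ∈ A', (Sq1 (𝔮 (Q : ℤ)) α ↔ (Q : ℤ) ∉ E)) →
      (1 / 2 + δ) * ((SE 𝒬 a b).card : ℝ) ≤ A'.card → False := by
    intro A' E hA' hE hsym hcard
    have hA'S : zS A' ⊆ S := (zS_mono hA').trans hAS
    have hP := hκ L a b θ X (zS Z) (zS A') E D C.cub hX1 hX2 hX3 C.fam.sqfree (by
      intro Q hQ
      rcases Finset.mem_union.1 hQ with h1 | h1
      · exact C.gp Q (hZS (zS_mono hZZ h1))
      · exact C.gp Q (hA'S h1)) (zS_disj (by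
        refine Finset.disjoint_of_subset_left hZZ (Finset.disjoint_of_subset_right ?_ hdis)
        exact hA'.trans (Finset.filter_subset _ _))) hDint α hselZ hns hodd (by
        intro Q hQ 𝔓 h3 h4
        obtain ⟨p, hp, rfl⟩ := mem_zS.1 hQ
        rw [C.uniq _ (hA'S hQ) 𝔓 h3 h4]
        exact hsym p hp)
    apply hu
    refine ⟨by rw [hSE]; exact hm, A', by rw [hSE]; exact hA', by rw [hSE]; exact hcard, ?_⟩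
    rcases hE with rfl | rfl
    · exact Or.inl hP
    · exact Or.inr hP
  set n1 : ℝ := (((SE 𝒬 a b).filter fun q : ℕ => Sq1 (𝔮 (q : ℤ)) α).card : ℝ) with hn1
  have hsplit : n1 + (((SE 𝒬 a b).filter fun q : ℕ => ¬ Sq1 (𝔮 (q : ℤ)) α).card : ℝ) =
      ((SE 𝒬 a b).card : ℝ) := by
    rw [hn1]
    exact_mod_cast Finset.card_filter_add_card_filter_not
      (s := SE 𝒬 a b) (p := fun q : ℕ => Sq1 (𝔮 (q : ℤ)) α)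
  rcases lt_abs.1 hcon with h1 | h1
  · refine key ((SE 𝒬 a b).filter fun q : ℕ => Sq1 (𝔮 (q : ℤ)) α) ∅ (Finset.filter_subset _ _)
      (Or.inl rfl) (fun Q hQ => ?_) ?_
    · exact iff_of_true (Finset.mem_filter.1 hQ).2 (Finset.notMem_empty _)
    · rw [← hn1]
      linarith
  · refine key ((SE 𝒬 a b).filter fun q : ℕ => ¬ Sq1 (𝔮 (q : ℤ)) α)
      (zS ((SE 𝒬 a b).filter fun q : ℕ => ¬ Sq1 (𝔮 (q : ℤ)) α)) (Finset.filter_subset _ _)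
      (Or.inr rfl) (fun Q hQ => ?_) ?_
    · refine iff_of_false (Finset.mem_filter.1 hQ).2 ?_
      rw [not_not]
      exact mem_zS.2 ⟨Q, hQ, rfl⟩
    · linarith

end grp

/-- The primes in `S` are of the type for `p`. -/
def Typ (p : ℤ × ℤ) (S : Finset ℕ) : Prop := Pr8 S ∧ ∀ Q ∈ S, (Q : ℤ) ∣ p.2 ∧ NR Q p.1

theorem Typ.mono {p : ℤ × ℤ} {S S' : Finset ℕ} (h : Typ p S) (hS : S' ⊆ S) : Typ p S' :=
  ⟨h.1.mono hS, fun Q hQ => h.2 Q (hS hQ)⟩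

theorem Typ.gp {p : ℤ × ℤ} {S : Finset ℕ} (h : Typ p S) : ∀ Q ∈ zS S, Gp p.1 p.2 Q := by
  intro Q hQ
  obtain ⟨q, hq, rfl⟩ := mem_zS.1 hQ
  exact gp_of h.1 (Finset.mem_filter.2 ⟨hq, h.2 q hq⟩)

theorem typ_SE {p : ℤ × ℤ} {𝒬 : Finset ℕ} (h : Pr8 𝒬) : Typ p (SE 𝒬 p.1 p.2) :=
  ⟨h.mono (Finset.filter_subset _ _), fun Q hQ => (Finset.mem_filter.1 hQ).2⟩

/-- The nontrivial classes of `Sel(Z)` are balanced on `A` (the primes in `S ⊇ Z ∪ A` are of the type). -/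
def BalN (p : ℤ × ℤ) (S Z A : Finset ℕ) (δ : ℝ) : Prop :=
  ∀ (L : Type) [Field L] [NumberField L] (θ : L) (𝔮 : ℤ → HeightOneSpectrum (𝓞 L)),
    Ctx p.1 p.2 θ (zS S) 𝔮 → Balanced θ p.1 p.2 𝔮 (zS Z) (zS A) δ

/-- **The ranks** of the twists. -/
theorem ranks (hLIN : S_LIN2) (hSIZE : S_SIZE) (hLOW : S_SLOW) (hUP : S_SUP) {p : ℤ × ℤ}
    (hF : InFamily p) {S A₀ : Finset ℕ} (hS : Typ p S) (hA₀ : A₀ ⊆ S) (hne : A₀.Nonempty) {δ₀ : ℝ}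
    (hδ₀ : δ₀ < 1 / 2) (hb₀ : BalN p S ∅ A₀ δ₀) :
    ∃ r : Finset ℕ → ℕ,
      (∀ Z ⊆ S, Finite (Sel2 (curve ℚ (twist p ((∏ Q ∈ Z, Q : ℕ) : ℤ)))) ∧
        Nat.card (Sel2 (curve ℚ (twist p ((∏ Q ∈ Z, Q : ℕ) : ℤ)))) = 2 ^ r Z) ∧
      r ∅ ≤ A₀.card ∧
      ∀ Z A : Finset ℕ, Z ⊆ S → A ⊆ S → Disjoint Z A → ∀ δ : ℝ, 0 ≤ δ → BalN p S Z A δ →
        (∀ q ∈ A, r (insert q Z) = r Z + 1 ∨ r (insert q Z) + 1 = r Z) ∧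
        |((A.filter fun q => r (insert q Z) = r Z + 1).card : ℝ) -
          (1 / 2) ^ (r Z) * A.card| ≤ 2 * δ * A.card := by
  obtain ⟨a, b⟩ := p
  have hnt2 : ∀ z : ℤ, ¬ (2 : ℤ) ∣ z ^ 3 + a * z + b :=
    Pool.Agent.Helper29K.nz_two hF.a_four hF.b_four
  have hirr : Irreducible (ff ℚ a b) := by
    have hone : (Polynomial.X ^ 3 + Polynomial.C ((((a * 1 ^ 2 : ℤ)) : ℚ)) * Polynomial.X +
      Polynomial.C ((((b * 1 ^ 3 : ℤ)) : ℚ)) : Polynomial ℚ) = ff ℚ a b := by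
      rw [one_pow, one_pow, mul_one, mul_one]
      rfl
    rw [← hone]
    exact irr_tw (algebraMap ℚ ℚ_[2]) hnt2 one_ne_zero
  obtain ⟨L, iF, iN, θ, hc, -⟩ := exists_cub hirr
  obtain ⟨𝔮, C⟩ := exists_ctx hc hF hS.gp
  have hne0 : (zS A₀).Nonempty := by
    rw [← Finset.card_pos, card_zS]
    exact hne.card_pos
  have hb0 : Balanced θ a b 𝔮 ∅ (zS A₀) δ₀ := hb₀ L θ 𝔮 C
  have hI : Inj C := inj_of C (zS_mono hA₀) hne0 hδ₀ hb0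
  refine ⟨fun Z => rk C (zS Z), ?_, ?_, ?_⟩
  · intro Z hZ
    exact sel_card hLOW hUP C hI (zS_mono hZ) (by rw [prod_zS])
  · have := rk_le C (zS_mono hA₀) hne0 hδ₀ hb0
    rwa [card_zS] at this
  · intro Z A hZ hA hdis δ hδ hb
    obtain ⟨h1, h2⟩ := up_count hLIN hSIZE C hI (zS_mono hZ) (zS_mono hA) (zS_disj hdis) hδ
      (hb L θ 𝔮 C)
    constructor
    · intro q hq
      have := h1 (q : ℤ) (mem_zS.2 ⟨q, hq, rfl⟩)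
      show rk C (zS (insert q Z)) = rk C (zS Z) + 1 ∨ rk C (zS (insert q Z)) + 1 = rk C (zS Z)
      rw [zS_insert]
      exact this
    · rw [zS_filter, card_zS] at h2
      simp only [zS_insert]
      exact h2

/-- Balance from the sets of Job MOM. -/
theorem balN_of {κ : ℕ} (hκ : PLBk κ) {p : ℤ × ℤ} {X : ℕ} (hX : p ∈ Bx X) {S 𝒬 Z₀ : Finset ℕ}
    (h8 : Pr8 𝒬) (hZpr : ∀ Q ∈ Z₀, Q.Prime) (hdis : Disjoint Z₀ 𝒬) (hZS : Z₀ ⊆ S)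
    (hAS : SE 𝒬 p.1 p.2 ⊆ S) {δ : ℝ} {m : ℕ} (hm : m ≤ (SE 𝒬 p.1 p.2).card)
    (hunb : ∀ Z ⊆ Z₀, (p.1 * ((∏ Q ∈ Z, Q : ℕ) : ℤ) ^ 2, p.2 * ((∏ Q ∈ Z, Q : ℕ) : ℤ) ^ 3) ∉
      UnbSet κ ((∏ Q ∈ Z, Q) * X) 𝒬 δ m) : BalN p S Z₀ (SE 𝒬 p.1 p.2) δ :=
  fun L _ _ θ 𝔮 C => balanced_of hκ C hX h8 hZpr hdis (zS_mono hZS) (zS_mono hAS) hm hunb

end Pool.Agent.Helper29L
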