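import Pool.Agent.Helper29L.Thm3

/-!
# The members of the family; the final form of the first theorem
-/

set_option autoImplicit false
set_option linter.all false

open IsDedekindDomain NumberField Finset Filter
open scoped Classical

namespace Pool.Agent.Helper29L

open Pool.Agent.N922.PQ
open Pool.Agent.H30EV (curve twist)
open Pool.Agent.H30GR (Sel2)
open Pool.Agent.Helper29K (InFamily SE Pr8 zS Bx NR mem_zS card_zS prod_zS mem_Bx nr_congr goodS_of)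

/-- The properties of the members: an elliptic curve without rational points of order two, given by
a minimal pair. -/
structure Mem (P : ℤ × ℤ) : Prop where
  disc : 4 * P.1 ^ 3 + 27 * P.2 ^ 2 ≠ 0
  root : ∀ x : ℚ, x ^ 3 + (P.1 : ℚ) * x + (P.2 : ℚ) ≠ 0
  min : ∀ p : ℕ, p.Prime → ¬ ((p : ℤ) ^ 4 ∣ P.1 ∧ (p : ℤ) ^ 6 ∣ P.2)

theorem mem_twist {q : ℤ × ℤ} (hq : InFamily q) {d : ℤ} (hd : Squarefree d) : Mem (twist q d) := by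
  obtain ⟨a, b⟩ := q
  have hd0 : d ≠ 0 := hd.ne_zero
  have hΔ : 4 * a ^ 3 + 27 * b ^ 2 ≠ 0 := hq.sqfree.ne_zero
  refine ⟨?_, ?_, ?_⟩
  · show 4 * (a * d ^ 2) ^ 3 + 27 * (b * d ^ 3) ^ 2 ≠ 0
    have e : 4 * (a * d ^ 2) ^ 3 + 27 * (b * d ^ 3) ^ 2 = d ^ 6 * (4 * a ^ 3 + 27 * b ^ 2) := by ring
    rw [e]
    exact mul_ne_zero (pow_ne_zero 6 hd0) hΔ
  · intro x hx
    have h2 := Pool.Agent.Helper29K.nz_two hq.a_four hq.b_four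
    refine no_root_tw (algebraMap ℚ ℚ_[2]) h2 hd0 x ?_
    have hx' : x ^ 3 + (((a * d ^ 2 : ℤ)) : ℚ) * x + (((b * d ^ 3 : ℤ)) : ℚ) = 0 := hx
    exact hx'
  · rintro p hp ⟨h1, h2⟩
    have hpp : Prime (p : ℤ) := Nat.prime_iff_prime_int.1 hp
    have hpu : ¬ IsUnit (p : ℤ) := hpp.not_unit
    apply hpu
    apply hq.sqfree
    show (p : ℤ) * p ∣ 4 * a ^ 3 + 27 * b ^ 2
    have h1' : (p : ℤ) ^ 4 ∣ a * d ^ 2 := h1
    have h2' : (p : ℤ) ^ 6 ∣ b * d ^ 3 := h2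
    by_cases hpd : (p : ℤ) ∣ d
    · obtain ⟨e, rfl⟩ := hpd
      have hpe : ¬ (p : ℤ) ∣ e := by
        rintro ⟨f, rfl⟩
        exact hpu (hd p ⟨f, by ring⟩)
      have h3 : (p : ℤ) ^ 2 ∣ a * e ^ 2 := by
        obtain ⟨c, hc⟩ := h1'
        refine ⟨c, ?_⟩
        have hp0 : (p : ℤ) ^ 2 ≠ 0 := pow_ne_zero 2 hpp.ne_zero
        apply mul_left_cancel₀ hp0
        linear_combination hc
      have h4 : (p : ℤ) ^ 3 ∣ b * e ^ 3 := by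
        obtain ⟨c, hc⟩ := h2'
        refine ⟨c, ?_⟩
        have hp0 : (p : ℤ) ^ 3 ≠ 0 := pow_ne_zero 3 hpp.ne_zero
        apply mul_left_cancel₀ hp0
        linear_combination hc
      have hce : IsCoprime ((p : ℤ)) e := (hpp.irreducible.coprime_iff_not_dvd).2 hpe
      have h5 : (p : ℤ) ^ 2 ∣ a := (hce.pow (m := 2) (n := 2)).dvd_of_dvd_mul_right h3
      have h6 : (p : ℤ) ^ 3 ∣ b := (hce.pow (m := 3) (n := 3)).dvd_of_dvd_mul_right h4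
      obtain ⟨a', rfl⟩ := h5
      obtain ⟨b', rfl⟩ := h6
      exact ⟨4 * (p : ℤ) ^ 4 * a' ^ 3 + 27 * (p : ℤ) ^ 4 * b' ^ 2, by ring⟩
    · have hce : IsCoprime ((p : ℤ)) d := (hpp.irreducible.coprime_iff_not_dvd).2 hpd
      have h5 : (p : ℤ) ^ 4 ∣ a := (hce.pow (m := 4) (n := 2)).dvd_of_dvd_mul_right h1'
      have h6 : (p : ℤ) ^ 6 ∣ b := (hce.pow (m := 6) (n := 3)).dvd_of_dvd_mul_right h2'
      obtain ⟨a', rfl⟩ := h5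
      obtain ⟨b', rfl⟩ := h6
      exact ⟨4 * (p : ℤ) ^ 10 * a' ^ 3 + 27 * (p : ℤ) ^ 10 * b' ^ 2, by ring⟩

theorem sqf_prod {S Z : Finset ℕ} (hS : Pr8 S) (hZ : Z ⊆ S) :
    Squarefree (((∏ Q ∈ Z, Q : ℕ)) : ℤ) := by
  rw [Int.squarefree_natCast]
  refine Finset.squarefree_prod_of_pairwise_isCoprime ?_ fun Q hQ => (hS Q (hZ hQ)).1.prime.squarefree
  intro p hp q hq hpq
  exact Nat.coprime_iff_isRelPrime.1
    ((Nat.coprime_primes (hS p (hZ hp)).1 (hS q (hZ hq)).1).2 hpq)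

/-- The family given by `M` and `R`. -/
def Fam (M : ℕ) (R : Set (ZMod M × ZMod M)) : Set (ℤ × ℤ) :=
  {P | 0 < P.1 ∧ (((P.1 : ℤ) : ZMod M), ((P.2 : ℤ) : ZMod M)) ∈ R ∧
    ∀ p : ℕ, p.Prime → ¬ p ∣ M → ¬ (p : ℤ) ^ 2 ∣ 4 * P.1 ^ 3 + 27 * P.2 ^ 2}

theorem fin1 (hTOT : S_TOT) (hLB : S_LOWB) (hTW1 : S_TW1) (hTW2 : S_TW2)
    (hM : ∀ ε : ℝ, 0 < ε → ∃ (S : Finset ℕ) (s : ℕ → ℤ) (𝒵 : Finset (Finset ℕ)), GoodRes S s ∧
      (∀ Z ∈ 𝒵, Z ⊆ S) ∧ 𝒵.Nonempty ∧ ∀ᶠ T : ℕ in atTop, ∀ B : Set ℕ,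
      |({P : ℤ × ℤ | P ∈ Gam S s 𝒵 ∧ hgt P ≤ T ∧ ∃ n ∈ B, SelDim P n}.ncard : ℝ) -
        (∑' n, B.indicator C2 n) * ({P : ℤ × ℤ | P ∈ Gam S s 𝒵 ∧ hgt P ≤ T ∧ True}.ncard : ℝ)| ≤
      ε * ({P : ℤ × ℤ | P ∈ Gam S s 𝒵 ∧ hgt P ≤ T ∧ True}.ncard : ℝ)) {ε : ℝ} (hε : 0 < ε) :
    ∃ (M : ℕ) (R : Set (ZMod M × ZMod M)) (c : ℝ), 0 < M ∧ 0 < c ∧ (∀ P ∈ Fam M R, Mem P) ∧
      ∀ᶠ T : ℕ in atTop,
        c * ({P : ℤ × ℤ | hgt P ≤ T}.ncard : ℝ) ≤ ({P : ℤ × ℤ | P ∈ Fam M R ∧ hgt P ≤ T}.ncard : ℝ) ∧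
        ∀ B : Set ℕ, |({P : ℤ × ℤ | P ∈ Fam M R ∧ hgt P ≤ T ∧ ∃ n ∈ B, SelDim P n}.ncard : ℝ) -
          (∑' n, B.indicator C2 n) * ({P : ℤ × ℤ | P ∈ Fam M R ∧ hgt P ≤ T}.ncard : ℝ)| ≤
        ε * ({P : ℤ × ℤ | P ∈ Fam M R ∧ hgt P ≤ T}.ncard : ℝ) := by
  obtain ⟨S, s, 𝒵, hS, hZS, hne, hev⟩ := hM ε hε
  obtain ⟨M, R, hM0, hiff⟩ := hTW2 S s hS 𝒵 hZS
  obtain ⟨c, hc, hlow⟩ := hLB
  have hGam : Gam S s 𝒵 = Fam M R := by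
    ext P
    exact hiff P
  have hTrue : ∀ T : ℕ, {P : ℤ × ℤ | P ∈ Fam M R ∧ hgt P ≤ T ∧ True} =
      {P : ℤ × ℤ | P ∈ Fam M R ∧ hgt P ≤ T} := by
    intro T
    ext P
    simp
  obtain ⟨Z, hZ⟩ := hne
  obtain ⟨d, hd⟩ : ∃ d : ℕ, d = ∏ Q ∈ Z, Q := ⟨_, rfl⟩
  have hdpos : 0 < d := by
    rw [hd]
    exact Finset.prod_pos fun Q hQ => (hS.1 Q (hZS Z hZ hQ)).1.pos
  obtain ⟨P, hP⟩ : ∃ P : ℝ, P = ((∏ Q ∈ S, Q : ℕ) : ℝ) := ⟨_, rfl⟩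
  have hPpos : 0 < P := by
    rw [hP]
    exact_mod_cast Finset.prod_pos fun Q hQ => (hS.1 Q hQ).1.pos
  obtain ⟨w, hw⟩ : ∃ w : ℝ, w = (2 * (d : ℝ) ^ 6) ^ (5 / 6 : ℝ) := ⟨_, rfl⟩
  have hdr : (0 : ℝ) < d := by exact_mod_cast hdpos
  have hwpos : 0 < w := by rw [hw]; positivity
  refine ⟨M, R, c / (9 * w * P ^ 2), hM0, by positivity, ?_, ?_⟩
  · intro P' hP'
    rw [← hGam] at hP'
    obtain ⟨Z', hZ', q, hq, rfl⟩ := hP'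
    exact mem_twist hq.fam (sqf_prod hS.1 (hZS Z' hZ'))
  · have htd : Tendsto (fun T : ℕ => T / d ^ 6) atTop atTop :=
      Nat.tendsto_div_const_atTop (pow_pos hdpos 6).ne'
    filter_upwards [hev, htd.eventually (hlow S s hS), eventually_ge_atTop (2 * d ^ 6),
      eventually_ge_atTop 1] with T hT1 hT2 hT3 hT4
    rw [hGam] at hT1
    simp only [hTrue] at hT1
    refine ⟨?_, hT1⟩
    have h1 : (NS S s (T / d ^ 6) : ℝ) ≤ ({P : ℤ × ℤ | P ∈ Fam M R ∧ hgt P ≤ T}.ncard : ℝ) := by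
      have h2 := hTW1 S s hS 𝒵 hZS T fun _ => True
      rw [hGam, hTrue] at h2
      rw [h2]
      have h3 : NS S s (T / d ^ 6) = {q : ℤ × ℤ | FamS S s q ∧ hgt q ≤ T / (∏ Q ∈ Z, Q) ^ 6 ∧
          True}.ncard := by
        unfold NS
        rw [hd]
        congr 1
        ext q
        simp
      rw [h3]
      exact_mod_cast Finset.single_le_sum (f := fun Z => {q : ℤ × ℤ | FamS S s q ∧
        hgt q ≤ T / (∏ Q ∈ Z, Q) ^ 6 ∧ True}.ncard) (fun _ _ => Nat.zero_le _) hZ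
    have h2 := (hTOT T hT4).2
    have hTr : (0 : ℝ) < T := by exact_mod_cast hT4
    -- `T / (2 d ^ 6) ≤ ⌊T / d ^ 6⌋`
    have h3 : (T : ℝ) / (2 * (d : ℝ) ^ 6) ≤ ((T / d ^ 6 : ℕ) : ℝ) := by
      have h4 : T < (T / d ^ 6 + 1) * d ^ 6 := by
        have := Nat.div_add_mod T (d ^ 6)
        have h5 := Nat.mod_lt T (pow_pos hdpos 6)
        nlinarith
      have h5 : 1 ≤ T / d ^ 6 := by
        rw [Nat.one_le_div_iff (pow_pos hdpos 6)]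
        omega
      rw [div_le_iff₀ (by positivity)]
      have h6 : T ≤ (T / d ^ 6) * (2 * d ^ 6) := by
        nlinarith [pow_pos hdpos 6]
      exact_mod_cast h6
    have h4 : (T : ℝ) ^ (5 / 6 : ℝ) ≤ w * ((T / d ^ 6 : ℕ) : ℝ) ^ (5 / 6 : ℝ) := by
      rw [hw, ← Real.mul_rpow (by positivity) (by positivity)]
      refine Real.rpow_le_rpow hTr.le ?_ (by norm_num)
      rw [div_le_iff₀ (by positivity)] at h3
      linarith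
    rw [← hP] at hT2
    calc c / (9 * w * P ^ 2) * ({P : ℤ × ℤ | hgt P ≤ T}.ncard : ℝ)
        ≤ c / (9 * w * P ^ 2) * (9 * (T : ℝ) ^ (5 / 6 : ℝ)) :=
          mul_le_mul_of_nonneg_left h2 (by positivity)
      _ ≤ c / (9 * w * P ^ 2) * (9 * (w * ((T / d ^ 6 : ℕ) : ℝ) ^ (5 / 6 : ℝ))) := by gcongr
      _ = (c * ((T / d ^ 6 : ℕ) : ℝ) ^ (5 / 6 : ℝ)) / P ^ 2 := by field_simp
      _ ≤ (P ^ 2 * (NS S s (T / d ^ 6) : ℝ)) / P ^ 2 :=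
          div_le_div_of_nonneg_right hT2 (by positivity)
      _ = (NS S s (T / d ^ 6) : ℝ) := by field_simp
      _ ≤ _ := h1

end Pool.Agent.Helper29L
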