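import Pool.Agent.Helper29L.Stm
import Pool.Agent.Helper29K.Few

/-!
# Project PR (helper29): more jobs

`SE 𝒬 a b` (Helper29K/Bad) is the set of the primes `Q ∈ 𝒬` of the type for the pair `(a, b)`; `Bx X` (Helper29K/Few)
is the box `0 < a ≤ X ^ 2`, `|b| ≤ X ^ 3`; `Pr8 𝒬`: the elements are primes which are `1` modulo `8`; `zS` the
same set in `ℤ`.
-/

set_option autoImplicit false
set_option linter.all false

open Finset Filter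
open scoped Classical

namespace Pool.Agent.Helper29L

open Pool.Agent.Helper29K (SE Pr8 zS Bx InFamily)
open Pool.Agent.H30EV (Curves)

/-! ### Job LIN: linear algebra -/

section lin

variable {S : Type} [Fintype S]

/-- The subspace of the `v ∈ V` with `e_Q = 0` for `Q ∉ Z` and `u_Q = 0` for `Q ∈ Z`; the coordinates of `v` at
`Q` are `(e_Q, u_Q)`. -/
def WZ (V : Submodule (ZMod 2) (S → ZMod 2 × ZMod 2)) (Z : Finset S) :
    Submodule (ZMod 2) (S → ZMod 2 × ZMod 2) where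
  carrier := {v | v ∈ V ∧ (∀ Q, Q ∉ Z → (v Q).1 = 0) ∧ ∀ Q, Q ∈ Z → (v Q).2 = 0}
  zero_mem' := ⟨V.zero_mem, fun _ _ => rfl, fun _ _ => rfl⟩
  add_mem' {v w} hv hw := ⟨V.add_mem hv.1 hw.1,
    fun Q hQ => by rw [Pi.add_apply, Prod.fst_add, hv.2.1 Q hQ, hw.2.1 Q hQ, add_zero],
    fun Q hQ => by rw [Pi.add_apply, Prod.snd_add, hv.2.2 Q hQ, hw.2.2 Q hQ, add_zero]⟩
  smul_mem' c v hv := ⟨V.smul_mem c hv.1,
    fun Q hQ => by rw [Pi.smul_apply, Prod.smul_fst, hv.2.1 Q hQ, smul_zero],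
    fun Q hQ => by rw [Pi.smul_apply, Prod.smul_snd, hv.2.2 Q hQ, smul_zero]⟩

end lin

/-- **Job LIN.** `V` is totally singular for the quadratic form `∑ e_Q u_Q` and of dimension at least `|S|`
(so it is its own orthogonal space). If `u_q = 0` on `V ∩ W_Z` then `dim (V ∩ W_{Z ∪ q}) = dim (V ∩ W_Z) + 1`, if not
`dim (V ∩ W_{Z ∪ q}) = dim (V ∩ W_Z) - 1`. Proof: let `M = {e_Q = 0 (Q ∉ Z), u_Q = 0 (Q ∈ Z), e_q = u_q = 0}`
(dimension `|S| - 1`), `M^⊥ = {e_Q = 0 (Q ∉ Z, Q ≠ q), u_Q = 0 (Q ∈ Z)}`. Since `V = V^⊥`,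
`dim (V ∩ M^⊥) = 2 |S| - dim (V + M) = dim (V ∩ M) + 1`. The image of `V ∩ M^⊥` in `M^⊥/M` (coordinates
`(e_q, u_q)`) is a line, and `e_q u_q = 0` on it; so it is spanned by `(0, 1)` or by `(1, 0)`. -/
def S_LIN2 : Prop := ∀ (S : Type) [Fintype S] (V : Submodule (ZMod 2) (S → ZMod 2 × ZMod 2)),
  (∀ v ∈ V, ∑ Q, (v Q).1 * (v Q).2 = 0) → Fintype.card S ≤ Module.finrank (ZMod 2) V →
  ∀ (Z : Finset S) (q : S), q ∉ Z →
    ((∀ v ∈ WZ V Z, (v q).2 = 0) → Module.finrank (ZMod 2) (WZ V (insert q Z)) =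
      Module.finrank (ZMod 2) (WZ V Z) + 1) ∧
    ((∃ v ∈ WZ V Z, (v q).2 ≠ 0) → Module.finrank (ZMod 2) (WZ V (insert q Z)) + 1 =
      Module.finrank (ZMod 2) (WZ V Z))

/-- **Job FAN.** `r (insert q Z) = r Z ± 1`, and it is `r Z + 1` for nearly the proportion `2 ^ (- r Z)` of the
`q ∈ A i`, for all subsets `Z` of `A 0 ∪ ⋯ ∪ A (i - 1)`. Then the distribution of `r` on the product of `A 0`, …,
`A (k - 1)` is nearly that of the chain. Proof by induction on `k` (first step first; generalise to a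
starting set `Z₀` and levels `A i, A (i + 1), …`): the error in each step is at most
`2 δ |chain (r + 1) n - chain (r - 1) n| ≤ 2 δ`. -/
def S_FAN : Prop := ∀ (k : ℕ) (A : ℕ → Finset ℕ) (r : Finset ℕ → ℕ) (δ : ℝ), 0 ≤ δ →
  (∀ i < k, (A i).Nonempty) →
  (∀ i < k, ∀ Z ⊆ (range i).biUnion A,
    (∀ q ∈ A i, r (insert q Z) = r Z + 1 ∨ r (insert q Z) + 1 = r Z) ∧
    |(((A i).filter fun q => r (insert q Z) = r Z + 1).card : ℝ) - (1 / 2) ^ (r Z) * (A i).card| ≤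
      2 * δ * (A i).card) →
  ∀ n : ℕ, |(((Fintype.piFinset fun i : Fin k => A i).filter fun Q =>
      r (univ.image Q) = n).card : ℝ) - chain k (r ∅) n * ∏ i ∈ range k, ((A i).card : ℝ)| ≤
    2 * k * δ * ∏ i ∈ range k, ((A i).card : ℝ)

/-! ### Job MOM -/

/-- The pairs with few primes of the type. -/
def FewSet (𝒬 : Finset ℕ) (m X : ℕ) : Set (ℤ × ℤ) :=
  {p | p ∈ Bx X ∧ (SE 𝒬 p.1 p.2).card < m}

/-- The pairs with many primes of the type and an unbalanced class. -/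
def UnbSet (κ X : ℕ) (𝒬 : Finset ℕ) (δ : ℝ) (m : ℕ) : Set (ℤ × ℤ) :=
  {p | m ≤ (SE 𝒬 p.1 p.2).card ∧ ∃ A ⊆ SE 𝒬 p.1 p.2, (1 / 2 + δ) * ((SE 𝒬 p.1 p.2).card : ℝ) ≤ A.card ∧
    (PBad κ X (zS A) ∅ (fun _ => p.1) p.1 p.2 ∨ PBad κ X (zS A) (zS A) (fun _ => p.1) p.1 p.2)}

/-- **Job MOM.** Use Job NN (`S_PBAD`, helper90) as a hypothesis: `theorem mom (h : S_PBAD) : S_MOM`. Compare
`Helper29K/Bad` (`mem_LL`, `double`, `bad2`; there all subsets `S'` of `SE` are counted with the weight `1`) and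
`Helper29K/Few` (`few1`), `Helper29K/Main` (`est1`, `est2`). With `Λ = ∑ Q ∈ 𝒬, 1 / Q` and `m = ⌈(1 - η) Λ / 2⌉`:
(1) `few1` with `u = 1 - η / 2` gives `|FewSet| ≤ 8 X ^ 5 exp (1 - Λ η² / 8)` or so; (2) count the subsets `S'` of `A`
with the weight `λ ^ |S'|`, `λ` small: `(1 + λ) ^ |A| = ∑ λ ^ |S'|`, and `PBad` for `A` implies `PBad` for all `S' ⊆ A`
(with the second set `∅`, respectively `zS S'`) with the class of `a` modulo `∏ S'`; so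
`(1 + λ) ^ ((1/2 + δ) m) |UnbSet| ≤ 2 K X ^ 5 ∏ (1 + λ (Q - 1) / (4 Q²)) ≤ 2 K X ^ 5 exp (λ Λ / 4)`; with
`log (1 + λ) ≥ λ - λ² / 2`, `η = λ = δ / 2` the exponent is negative: `(1/2 + δ) (1 - δ/2) (1 - δ/4) ≥ 1/2 + δ/4`
for `δ ≤ 1/4`. -/
def S_MOM : Prop := ∀ (κ : ℕ) (δ ε : ℝ), 0 < δ → δ ≤ 1 / 4 → 0 < ε → ∀ m₀ : ℕ, ∃ Λ₀ : ℝ,
  ∀ 𝒬 : Finset ℕ, Pr8 𝒬 → Λ₀ ≤ ∑ Q ∈ 𝒬, (1 : ℝ) / Q → ∃ m ≥ m₀, ∀ᶠ X : ℕ in atTop,
    ((FewSet 𝒬 m X).ncard : ℝ) ≤ ε * (X : ℝ) ^ 5 ∧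
    (UnbSet κ X 𝒬 δ m).Finite ∧ ((UnbSet κ X 𝒬 δ m).ncard : ℝ) ≤ ε * (X : ℝ) ^ 5

/-! ### Job POS -/

/-- **Job POS.** If a positive proportion of the family has a twist by a squarefree `1 ≤ d ≤ D` with the
property `Pp`, then a positive proportion of all curves has the property. The map `(a, b) ↦ (a d², b d³)` is
injective for fixed `d`, the images are minimal (the discriminant of `(a, b)` is squarefree) of height
`≤ 27 D ^ 6 X ^ 6`; compare `N707/PQ` (`crv`), `N607/PQ/Cnt` (`cnt`, upper bound for the number of all curves, or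
use `|A| ≤ H ^ (1/3)`, `|B| ≤ H ^ (1/2)`), `Helper29K/Fam` (`fam_prop`). -/
def S_POS : Prop := ∀ (Pp : ℤ × ℤ → Prop) (D : ℕ) (c : ℝ), 0 < c →
  (∀ᶠ X : ℕ in atTop, c * (X : ℝ) ^ 5 ≤ (((Bx X).filter fun p => InFamily p ∧
    ∃ d : ℕ, 1 ≤ d ∧ d ≤ D ∧ Squarefree d ∧ Pp (p.1 * (d : ℤ) ^ 2, p.2 * (d : ℤ) ^ 3)).card : ℝ)) →
  ∃ c' : ℝ, 0 < c' ∧ ∀ᶠ H : ℕ in atTop,
    c' * ((Curves H).ncard : ℝ) ≤ ({p : ℤ × ℤ | p ∈ Curves H ∧ Pp p}.ncard : ℝ)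

end Pool.Agent.Helper29L
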