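import Pool.Agent.Helper29L.Lat6
import Pool.Agent.Helper29L.Stm2
import Pool.Agent.H30GR.Up

/-!
# The groups of classes as a totally singular space
-/

set_option autoImplicit false
set_option linter.all false

open IsDedekindDomain NumberField
open scoped Classical

namespace Pool.Agent.Helper29L

open Pool.Agent.N922.PQ
open Pool.Agent.Helper29K (InFamily)
open Pool.Agent.N874.PP (Tup chA chB gq tau Two Ev Sq1 U0 sW)

/-- The subset `Z` of `S` as a set of elements of the type `S`. -/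
noncomputable def sub (S Z : Finset ℤ) : Finset S := Finset.univ.filter fun Q => (Q : ℤ) ∈ Z

theorem mem_sub {S Z : Finset ℤ} {Q : S} : Q ∈ sub S Z ↔ (Q : ℤ) ∈ Z := by
  simp [sub]

theorem sub_insert {S Z : Finset ℤ} {q : S} : sub S (insert (q : ℤ) Z) = insert q (sub S Z) := by
  ext Q
  rw [mem_sub, Finset.mem_insert, Finset.mem_insert, mem_sub, Subtype.ext_iff]

section grp

variable {L : Type} [Field L] [NumberField L]

/-- The data: the curve, the primes `Q ∈ S` of the type, and the primes `𝔮 Q` of degree two over them. -/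
structure Ctx (a b : ℤ) (θ : L) (S : Finset ℤ) (𝔮 : ℤ → HeightOneSpectrum (𝓞 L)) : Prop where
  cub : IsCub a b θ
  fam : InFamily (a, b)
  gp : ∀ Q ∈ S, Gp a b Q
  ov : ∀ Q ∈ S, Ov Q (𝔮 Q)
  v1 : ∀ Q ∈ S, (𝔮 Q).valuation L θ = 1
  ne : ∀ Q ∈ S, ¬ Ev (𝔮 Q) ((Q : L) * θ)
  uniq : ∀ Q ∈ S, ∀ 𝔓 : HeightOneSpectrum (𝓞 L), Ov Q 𝔓 → 𝔓.valuation L θ = 1 → 𝔓 = 𝔮 Q

theorem exists_ctx {a b : ℤ} {θ : L} (hc : IsCub a b θ) (hF : InFamily (a, b)) {S : Finset ℤ}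
    (hS : ∀ Q ∈ S, Gp a b Q) : ∃ 𝔮 : ℤ → HeightOneSpectrum (𝓞 L), Ctx a b θ S 𝔮 := by
  have hEXQ : S_EXQ := parts.exq
  have hex : ∀ Q ∈ S, ∃ 𝔮 : HeightOneSpectrum (𝓞 L), Ov Q 𝔮 ∧ 𝔮.valuation L θ = 1 ∧
      ¬ Ev 𝔮 ((Q : L) * θ) ∧
      ∀ 𝔓 : HeightOneSpectrum (𝓞 L), Ov Q 𝔓 → 𝔓.valuation L θ = 1 → 𝔓 = 𝔮 := by
    intro Q hQ
    obtain ⟨𝔓₁, 𝔮, h1, h2, h3, h4, h5, h6⟩ := hEXQ L (𝓞 L) a b θ hc hF.sqfree Q (hS Q hQ).pr.2
      (hS Q hQ).db (hS Q hQ).ns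
    refine ⟨𝔮, h2, h4, h5, fun 𝔓 h𝔓 hv => ?_⟩
    rcases h6 𝔓 h𝔓 with rfl | rfl
    · exact absurd hv h3.ne
    · rfl
  by_cases hne : S.Nonempty
  · obtain ⟨Q₀, hQ₀⟩ := hne
    obtain ⟨𝔮₀, -⟩ := hex Q₀ hQ₀
    refine ⟨fun Q => if hQ : Q ∈ S then (hex Q hQ).choose else 𝔮₀, hc, hF, hS, ?_, ?_, ?_, ?_⟩
    all_goals
      intro Q hQ
      simp only [dif_pos hQ]
    · exact (hex Q hQ).choose_spec.1
    · exact (hex Q hQ).choose_spec.2.1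
    · exact (hex Q hQ).choose_spec.2.2.1
    · exact (hex Q hQ).choose_spec.2.2.2
  · rw [Finset.not_nonempty_iff_eq_empty] at hne
    subst hne
    haveI hne : Nonempty (HeightOneSpectrum (𝓞 L)) := by
      have hnf : ¬ IsField (𝓞 L) := RingOfIntegers.not_isField L
      obtain ⟨m, hm⟩ := Ideal.exists_maximal (𝓞 L)
      exact ⟨⟨m, hm.isPrime, Ring.ne_bot_of_isMaximal_of_not_isField hm hnf⟩⟩
    exact ⟨fun _ => Classical.arbitrary _, hc, hF, hS, by simp, by simp, by simp, by simp⟩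

variable {a b : ℤ} {θ : L} {S : Finset ℤ} {𝔮 : ℤ → HeightOneSpectrum (𝓞 L)}

/-- The local classes. -/
noncomputable def psi (θ : L) (S : Finset ℤ) (𝔮 : ℤ → HeightOneSpectrum (𝓞 L)) (α : L) :
    S → ZMod 2 × ZMod 2 := fun Q => cl (𝔮 Q) (((Q : ℤ) : L) * θ) α

theorem Ctx.wne (C : Ctx a b θ S 𝔮) {Q : ℤ} (hQ : Q ∈ S) : (Q : L) * θ ≠ 0 := by
  intro h0
  exact C.ne Q hQ (by rw [h0]; exact ⟨0, by simp⟩)

theorem Ctx.cls (C : Ctx a b θ S 𝔮) {Q : ℤ} (hQ : Q ∈ S) {x y : L} (hx : x ≠ 0) (hy : y ≠ 0) :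
    (Ev (𝔮 Q) (x * y) ↔ (Ev (𝔮 Q) x ↔ Ev (𝔮 Q) y)) ∧
    (U0 (𝔮 Q) ((Q : L) * θ) (x * y) ↔ (U0 (𝔮 Q) ((Q : L) * θ) x ↔ U0 (𝔮 Q) ((Q : L) * θ) y)) :=
  parts.cls L (𝓞 L) Q (𝔮 Q) ((Q : L) * θ) (C.gp Q hQ).pr.2
    (odd_not_dvd (C.gp Q hQ).pr (C.gp Q hQ).m8) (C.ov Q hQ) (C.wne hQ) (C.ne Q hQ) x y hx hy

theorem Ctx.psi_mul (C : Ctx a b θ S 𝔮) {x y : L} (hx : x ≠ 0) (hy : y ≠ 0) :
    psi θ S 𝔮 (x * y) = psi θ S 𝔮 x + psi θ S 𝔮 y := by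
  funext Q
  have h := C.cls Q.2 hx hy
  exact Prod.ext (cl_add_aux h.1) (cl_add_aux h.2)

theorem psi_fst {α : L} (Q : S) : (psi θ S 𝔮 α Q).1 = 0 ↔ Ev (𝔮 Q) α := by
  unfold psi cl
  by_cases h : Ev (𝔮 Q) α
  · simp [h]
  · simp [h]

theorem psi_snd {α : L} (Q : S) : (psi θ S 𝔮 α Q).2 = 0 ↔ U0 (𝔮 Q) (((Q : ℤ) : L) * θ) α := by
  unfold psi cl
  by_cases h : U0 (𝔮 Q) (((Q : ℤ) : L) * θ) α
  · simp [h]
  · simp [h]

theorem ev_mul {𝔓 : HeightOneSpectrum (𝓞 L)} {x y : L} (hx : Ev 𝔓 x) (hy : Ev 𝔓 y) :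
    Ev 𝔓 (x * y) := by
  obtain ⟨u, hu⟩ := hx
  obtain ⟨v, hv⟩ := hy
  exact ⟨u * v, by rw [map_mul, map_mul, hu, hv, mul_pow]⟩

theorem Ctx.nt2 (C : Ctx a b θ S 𝔮) (z : ℤ) : ¬ (2 : ℤ) ∣ z ^ 3 + a * z + b :=
  Pool.Agent.Helper29K.nz_two C.fam.a_four C.fam.b_four z

theorem Ctx.rel_mul (C : Ctx a b θ S 𝔮) {x y : L} (hx : InRel a b S θ x) (hy : InRel a b S θ y) :
    InRel a b S θ (x * y) where
  ne := mul_ne_zero hx.ne hy.ne
  norm := by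
    rw [map_mul]
    exact hx.norm.mul hy.norm
  two := loc2_mul parts.plm C.cub C.nt2 hx.two hy.two
  ev 𝔓 h := ev_mul (hx.ev 𝔓 h) (hy.ev 𝔓 h)

theorem Ctx.rel_one (C : Ctx a b θ S 𝔮) : InRel a b S θ 1 where
  ne := one_ne_zero
  norm := by
    rw [map_one]
    exact IsSquare.one
  two := loc2_one C.cub
  ev 𝔓 h := ⟨1, by rw [map_one, one_pow]⟩

theorem Ctx.psi_one (C : Ctx a b θ S 𝔮) : psi θ S 𝔮 (1 : L) = 0 := by
  have h := C.psi_mul (one_ne_zero (α := L)) (one_ne_zero (α := L))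
  rw [mul_one] at h
  exact left_eq_add.1 h

theorem Ctx.psi_sq (C : Ctx a b θ S 𝔮) {x : L} (hx : x ≠ 0) : psi θ S 𝔮 (x * x) = 0 := by
  rw [C.psi_mul hx hx]
  funext Q
  exact Prod.ext (CharTwo.add_self_eq_zero _) (CharTwo.add_self_eq_zero _)

/-- The space of the local classes of the relaxed group. -/
noncomputable def VV (C : Ctx a b θ S 𝔮) : Submodule (ZMod 2) (S → ZMod 2 × ZMod 2) where
  carrier := {v | ∃ α, InRel a b S θ α ∧ psi θ S 𝔮 α = v}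
  zero_mem' := ⟨1, C.rel_one, C.psi_one⟩
  add_mem' := by
    rintro _ _ ⟨α, hα, rfl⟩ ⟨β, hβ, rfl⟩
    exact ⟨α * β, C.rel_mul hα hβ, C.psi_mul hα.ne hβ.ne⟩
  smul_mem' := by
    rintro c _ ⟨α, hα, rfl⟩
    have hc : c = 0 ∨ c = 1 := by
      fin_cases c
      · exact Or.inl rfl
      · exact Or.inr rfl
    rcases hc with rfl | rfl
    · exact ⟨1, C.rel_one, by rw [C.psi_one, zero_smul]⟩
    · exact ⟨α, hα, by rw [one_smul]⟩

theorem mem_VV {C : Ctx a b θ S 𝔮} {v : S → ZMod 2 × ZMod 2} :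
    v ∈ VV C ↔ ∃ α, InRel a b S θ α ∧ psi θ S 𝔮 α = v := Iff.rfl

/-- The space is totally singular. -/
theorem VV_iso (C : Ctx a b θ S 𝔮) : ∀ v ∈ VV C, ∑ Q, (v Q).1 * (v Q).2 = 0 := by
  rintro _ ⟨α, hα, rfl⟩
  obtain ⟨X, hXa, hXb⟩ : ∃ X : ℕ, a ≤ (X : ℤ) ^ 2 ∧ |b| ≤ (X : ℤ) ^ 3 := by
    refine ⟨a.natAbs + b.natAbs, ?_, ?_⟩
    · have h1 : a ≤ ((a.natAbs + b.natAbs : ℕ) : ℤ) := by omega
      refine h1.trans ?_
      exact_mod_cast Nat.le_self_pow two_ne_zero _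
    · have h1 : |b| ≤ ((a.natAbs + b.natAbs : ℕ) : ℤ) := by
        rw [Int.abs_eq_natAbs]
        exact_mod_cast Nat.le_add_left _ _
      refine h1.trans ?_
      exact_mod_cast Nat.le_self_pow three_ne_zero _
  have hT : GoodT {2, 3} (fun _ => a) (fun _ => b) := Pool.Agent.Helper29K.goodT_of C.fam
  have hS : GoodS S (fun _ => a) := fun Q hQ => ⟨(C.gp Q hQ).pr, (C.gp Q hQ).m8, (C.gp Q hQ).ns⟩
  have hF : Fam X S (fun _ => a) {2, 3} (fun _ => a) (fun _ => b) a b :=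
    ⟨C.fam.pos, hXa, hXb, fun Q _ => by simp, fun Q hQ => (C.gp Q hQ).db, fun P _ => by simp,
      fun P _ => by simp, C.fam.sqfree⟩
  have h := parts.recp L (𝓞 L) a b θ X S {2, 3} (fun _ => a) (fun _ => a) (fun _ => b) C.cub hS hT hF
    𝔮 (fun Q hQ => ⟨C.ov Q hQ, C.v1 Q hQ⟩) α hα.ne hα.norm hα.two (by
      intro 𝔓 h𝔓
      apply hα.ev
      rintro Q hQ ⟨h1, h2⟩
      exact h𝔓 Q hQ (C.uniq Q hQ 𝔓 h1 h2))
  have e1 : ∑ Q : S, (psi θ S 𝔮 α Q).1 * (psi θ S 𝔮 α Q).2 = ∑ Q ∈ S,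
      (if ¬ Ev (𝔮 Q) α ∧ ¬ Sq1 (𝔮 Q) (α * ((Q : L) * θ)) then (1 : ZMod 2) else 0) := by
    rw [← Finset.sum_coe_sort S]
    refine Finset.sum_congr rfl fun Q _ => ?_
    simp only [psi, cl]
    by_cases he : Ev (𝔮 Q) α
    · rw [if_pos he, zero_mul, if_neg (fun h => h.1 he)]
    · by_cases hs : Sq1 (𝔮 Q) (α * (((Q : ℤ) : L) * θ))
      · have hu : U0 (𝔮 Q) (((Q : ℤ) : L) * θ) α := ⟨fun h => absurd h he, fun _ => hs⟩
        rw [if_neg he, if_pos hu, mul_zero, if_neg (fun h => h.2 hs)]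
      · have hu : ¬ U0 (𝔮 Q) (((Q : ℤ) : L) * θ) α := fun h => hs (h.2 he)
        rw [if_neg he, if_neg hu, mul_one, if_pos ⟨he, hs⟩]
  rw [e1, Finset.sum_ite, Finset.sum_const_zero, add_zero, Finset.sum_const, nsmul_eq_mul,
    mul_one]
  exact (ZMod.natCast_eq_zero_iff_even).2 h

/-- The local classes determine the class. -/
def Inj (C : Ctx a b θ S 𝔮) : Prop := ∀ α, InRel a b S θ α → psi θ S 𝔮 α = 0 → IsSquare α

theorem Inj.sq {C : Ctx a b θ S 𝔮} (hI : Inj C) {α β : L} (hα : InRel a b S θ α)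
    (hβ : InRel a b S θ β) (h : psi θ S 𝔮 α = psi θ S 𝔮 β) : IsSquare (α * β) := by
  apply hI _ (C.rel_mul hα hβ)
  rw [C.psi_mul hα.ne hβ.ne, h]
  funext Q
  exact Prod.ext (CharTwo.add_self_eq_zero _) (CharTwo.add_self_eq_zero _)

theorem card_sub (W : Submodule (ZMod 2) (S → ZMod 2 × ZMod 2)) :
    Nat.card W = 2 ^ Module.finrank (ZMod 2) W := by
  have := Module.natCard_eq_pow_finrank (K := ZMod 2) (V := W)
  rwa [Nat.card_zmod] at this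

/-- The dimension of the space. -/
theorem VV_rank (hSIZE : S_SIZE) (C : Ctx a b θ S 𝔮) (hI : Inj C) :
    Fintype.card S ≤ Module.finrank (ZMod 2) (VV C) := by
  obtain ⟨z, hz, hzz⟩ := hSIZE L a b θ S C.cub C.fam C.gp
  have h1 : 2 ^ S.card ≤ Nat.card (VV C) := by
    let g : Fin (2 ^ S.card) → VV C := fun i => ⟨psi θ S 𝔮 (z i), ⟨z i, hz i, rfl⟩⟩
    have hg : Function.Injective g := by
      intro i j hij
      by_contra hne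
      exact hzz i j hne (hI.sq (hz i) (hz j) (congrArg Subtype.val hij))
    have := Nat.card_le_card_of_injective g hg
    rwa [Nat.card_eq_fintype_card, Fintype.card_fin] at this
  rw [card_sub] at h1
  rw [Fintype.card_coe]
  exact (Nat.pow_le_pow_iff_right (by norm_num)).1 h1

theorem InSel.rel {Z : Finset ℤ} {α : L} (h : InSel a b Z θ α) (hZ : Z ⊆ S) : InRel a b S θ α where
  ne := h.ne
  norm := h.norm
  two := h.two
  ev 𝔓 h1 := h.ev 𝔓 fun Q hQ => h1 Q (hZ hQ)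

/-- The Selmer classes in the space. -/
theorem mem_WZ (C : Ctx a b θ S 𝔮) {Z : Finset ℤ} (hZ : Z ⊆ S) {α : L} (hα : InRel a b S θ α) :
    psi θ S 𝔮 α ∈ WZ (VV C) (sub S Z) ↔ InSel a b Z θ α := by
  constructor
  · rintro ⟨-, h1, h2⟩
    refine ⟨⟨hα.ne, hα.norm, hα.two, fun 𝔓 h => ?_⟩, ?_⟩
    · by_cases hex : ∃ Q ∈ S, Ov Q 𝔓 ∧ 𝔓.valuation L θ = 1
      · obtain ⟨Q, hQ, h3, h4⟩ := hex
        have h5 : Q ∉ Z := fun h6 => h Q h6 ⟨h3, h4⟩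
        rw [C.uniq Q hQ 𝔓 h3 h4]
        exact (psi_fst (θ := θ) (𝔮 := 𝔮) (⟨Q, hQ⟩ : S)).1 (h1 ⟨Q, hQ⟩ (by rwa [mem_sub]))
      · exact hα.ev 𝔓 fun Q hQ h3 => hex ⟨Q, hQ, h3⟩
    · intro Q hQ 𝔓 h3 h4
      rw [C.uniq Q (hZ hQ) 𝔓 h3 h4]
      exact (psi_snd (⟨Q, hZ hQ⟩ : S)).1 (h2 ⟨Q, hZ hQ⟩ (by rwa [mem_sub]))
  · intro h
    refine ⟨⟨α, hα, rfl⟩, ?_, ?_⟩
    · intro Q hQ
      rw [mem_sub] at hQ
      rw [psi_fst]
      apply h.ev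
      rintro P hP ⟨h1, h2⟩
      have : P = Q := below_unique (C.gp P (hZ hP)).pr (C.gp Q Q.2).pr h1 (C.ov Q Q.2)
      exact hQ (this ▸ hP)
    · intro Q hQ
      rw [mem_sub] at hQ
      rw [psi_snd]
      exact h.u0 Q hQ _ (C.ov Q Q.2) (C.v1 Q Q.2)

/-- The rank. -/
noncomputable def rk (C : Ctx a b θ S 𝔮) (Z : Finset ℤ) : ℕ :=
  Module.finrank (ZMod 2) (WZ (VV C) (sub S Z))

/-- The number of the classes. -/
theorem sel_num (C : Ctx a b θ S 𝔮) (hI : Inj C) {Z : Finset ℤ} (hZ : Z ⊆ S) :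
    (∃ z : Fin (2 ^ rk C Z) → L, (∀ i, InSel a b Z θ (z i)) ∧
      ∀ i j, i ≠ j → ¬ IsSquare (z i * z j)) ∧
    ∀ (n : ℕ) (z : Fin n → L), (∀ i, InSel a b Z θ (z i)) →
      (∀ i j, i ≠ j → ¬ IsSquare (z i * z j)) → n ≤ 2 ^ rk C Z := by
  have hcard : Nat.card (WZ (VV C) (sub S Z)) = 2 ^ rk C Z := card_sub _
  constructor
  · have e : Fin (2 ^ rk C Z) ≃ WZ (VV C) (sub S Z) := by
      have := Finite.equivFin (WZ (VV C) (sub S Z))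
      rw [hcard] at this
      exact this.symm
    have hex : ∀ i, ∃ α, InRel a b S θ α ∧ psi θ S 𝔮 α = (e i : S → ZMod 2 × ZMod 2) :=
      fun i => (e i).2.1
    choose z hz1 hz2 using hex
    refine ⟨z, fun i => (mem_WZ C hZ (hz1 i)).1 (by rw [hz2 i]; exact (e i).2), ?_⟩
    intro i j hij hsq
    apply hij
    apply e.injective
    apply Subtype.ext
    rw [← hz2 i, ← hz2 j]
    obtain ⟨x, hx⟩ := hsq
    have hx0 : x ≠ 0 := by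
      rintro rfl
      rw [mul_zero] at hx
      exact mul_ne_zero (hz1 i).ne (hz1 j).ne hx
    have h1 := C.psi_sq hx0
    rw [← hx, C.psi_mul (hz1 i).ne (hz1 j).ne] at h1
    rw [← sub_eq_zero, sub_eq_add_neg]
    have h2 : -psi θ S 𝔮 (z j) = psi θ S 𝔮 (z j) := by
      rw [neg_eq_iff_add_eq_zero]
      funext Q
      exact Prod.ext (CharTwo.add_self_eq_zero _) (CharTwo.add_self_eq_zero _)
    rw [h2, h1]
  · intro n z hz hzz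
    let g : Fin n → WZ (VV C) (sub S Z) := fun i =>
      ⟨psi θ S 𝔮 (z i), (mem_WZ C hZ ((hz i).rel hZ)).2 (hz i)⟩
    have hg : Function.Injective g := by
      intro i j hij
      by_contra hne
      exact hzz i j hne (hI.sq ((hz i).rel hZ) ((hz j).rel hZ) (congrArg Subtype.val hij))
    have := Nat.card_le_card_of_injective g hg
    rwa [Nat.card_eq_fintype_card, Fintype.card_fin, hcard] at this

/-- **The 2-Selmer group of the twist.** -/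
theorem sel_card (hLOW : S_SLOW) (hUP : S_SUP) (C : Ctx a b θ S 𝔮) (hI : Inj C) {Z : Finset ℤ}
    (hZ : Z ⊆ S) {d : ℤ} (hd : d = ∏ Q ∈ Z, Q) :
    Finite (Pool.Agent.H30GR.Sel2 (Pool.Agent.H30EV.curve ℚ (a * d ^ 2, b * d ^ 3))) ∧
    Nat.card (Pool.Agent.H30GR.Sel2 (Pool.Agent.H30EV.curve ℚ (a * d ^ 2, b * d ^ 3))) =
      2 ^ rk C Z := by
  obtain ⟨⟨z, hz, hzz⟩, hle⟩ := sel_num C hI hZ
  have hup := Pool.Agent.H30GR.sel_fin (K := ℚ) (q := (a * d ^ 2, b * d ^ 3))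
    (hUP L a b θ Z d C.cub C.fam (fun Q hQ => C.gp Q (hZ hQ)) hd (2 ^ rk C Z) hle)
  refine ⟨hup.1, le_antisymm hup.2 ?_⟩
  haveI := hup.1
  obtain ⟨c, hc, hcc⟩ := hLOW L a b θ Z d C.cub C.fam (fun Q hQ => C.gp Q (hZ hQ)) hd _ z hz hzz
  exact Pool.Agent.H30GR.sel_low c hc hcc

end grp

end Pool.Agent.Helper29L
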