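import Pool.Agent.Helper29L.Stm3

/-!
# Project PR (helper29): the last jobs for the first hand-in

The levels are disjoint finite sets of primes `A 0`, …, `A (k - 1)`, `U`, `V₁`, `V₂` with `|U| = |V₁| |V₂|`. The first
fan consists of the sets with one prime in each of `A 0, …, A (k - 1), U` (`k + 1` primes), the second of
those with one prime in each of `A 0, …, A (k - 1), V₁, V₂` (`k + 2` primes). They have the same number of
members, so both parities have the same weight. All the products of the primes lie in one short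
window.
-/

set_option autoImplicit false
set_option linter.all false

open Finset Filter
open scoped Classical

namespace Pool.Agent.Helper29L

open Pool.Agent.Helper29K (SE Pr8 zS Bx InFamily NR)
open Pool.Agent.H30EV (twist)

/-- The sets with one element in each of the levels `A 0`, …, `A (k - 1)`. -/
noncomputable def fanSets (k : ℕ) (A : ℕ → Finset ℕ) : Finset (Finset ℕ) :=
  (Fintype.piFinset fun i : Fin k => A i).image fun Q => univ.image Q

/-- The levels of the first fan. -/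
def lvA (k : ℕ) (A : ℕ → Finset ℕ) (U : Finset ℕ) : ℕ → Finset ℕ := fun i => if i < k then A i else U

/-- The levels of the second fan. -/
def lvB (k : ℕ) (A : ℕ → Finset ℕ) (V₁ V₂ : Finset ℕ) : ℕ → Finset ℕ :=
  fun i => if i < k then A i else if i = k then V₁ else V₂

/-- Both fans. -/
noncomputable def ZZ (k : ℕ) (A : ℕ → Finset ℕ) (U V₁ V₂ : Finset ℕ) : Finset (Finset ℕ) :=
  fanSets (k + 1) (lvA k A U) ∪ fanSets (k + 2) (lvB k A V₁ V₂)

/-- The conditions for the levels. -/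
structure Lev (k : ℕ) (A : ℕ → Finset ℕ) (U V₁ V₂ : Finset ℕ) : Prop where
  ne : ∀ i < k, (A i).Nonempty
  neU : U.Nonempty
  ne1 : V₁.Nonempty
  ne2 : V₂.Nonempty
  dis : ∀ i < k, ∀ j < i, Disjoint (A j) (A i)
  disU : ∀ i < k, Disjoint (A i) U
  dis1 : ∀ i < k, Disjoint (A i) V₁
  dis2 : ∀ i < k, Disjoint (A i) V₂
  disU1 : Disjoint U V₁
  disU2 : Disjoint U V₂
  dis12 : Disjoint V₁ V₂
  card : U.card = V₁.card * V₂.card

/-- The rank goes up by one for about the proportion `2 ^ (- r Z)` of the `q ∈ A`, for all `Z ⊆ W`. -/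
def StepOK (r : Finset ℕ → ℕ) (δ : ℝ) (W A : Finset ℕ) : Prop := ∀ Z ⊆ W,
  (∀ q ∈ A, r (insert q Z) = r Z + 1 ∨ r (insert q Z) + 1 = r Z) ∧
  |((A.filter fun q => r (insert q Z) = r Z + 1).card : ℝ) - (1 / 2) ^ (r Z) * A.card| ≤
    2 * δ * A.card

/-- **Job TV.** The distribution of the rank over both fans is near `C2` (total variation). Use `FanT.fan`
(helper90) for `k + 1` and the levels `lvA`, and for `k + 2` and the levels `lvB`; `mk`, `c2` (helper52):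
for `n` of one parity `chain (k + 1) (r ∅) n` is near `2 * C2 n` and `chain (k + 2) (r ∅) n = 0`, for the other
parity it is the other way round; so the sum is near `2 * C2 n`. The maps `Q ↦ univ.image Q` are injective
on the products since the levels are disjoint; the two fans are disjoint (sets with `k + 1` and with
`k + 2` elements) and have the same number of members. First choose `n₁` with `∑_{n > n₁} C2 n` small
(`HasSum`), then `k` (for all `n ≤ n₁` and all `r ≤ R`), then `δ` (`ε / (100 (n₁ + 1) (k + 2))` or so). -/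
def S_TV : Prop := ∀ ε : ℝ, 0 < ε → ∀ R : ℕ, ∃ (k : ℕ) (δ : ℝ), 0 < δ ∧ δ ≤ 1 / 4 ∧
  ∀ (A : ℕ → Finset ℕ) (U V₁ V₂ : Finset ℕ), Lev k A U V₁ V₂ → ∀ r : Finset ℕ → ℕ, r ∅ ≤ R →
    (∀ i < k, StepOK r δ ((range i).biUnion A) (A i)) →
    StepOK r δ ((range k).biUnion A) U → StepOK r δ ((range k).biUnion A) V₁ →
    StepOK r δ ((range k).biUnion A ∪ V₁) V₂ →
    ∀ B : Set ℕ, |(((ZZ k A U V₁ V₂).filter fun Z => r Z ∈ B).card : ℝ) -
      (∑' n, B.indicator C2 n) * ((ZZ k A U V₁ V₂).card : ℝ)| ≤ ε * ((ZZ k A U V₁ V₂).card : ℝ)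

/-- The smallness condition for a level `L` after the levels in `W`. -/
def Sml (C ε δ : ℝ) (W L : Finset ℕ) : Prop :=
  C * (4 ^ W.card * ((∏ Q ∈ W, Q : ℕ) : ℝ) ^ 7) * Real.exp (-(δ ^ 2 / 2) * L.card) ≤ ε

/-- **Job LEV.** The levels. Use `win` (helper90): `A i` consists of `N i` primes in the window
`(Y i, (1 + η') Y i]`, `N i` large and `Y i` large, in terms of the preceding levels; `U` of primes in the
window `(Y 1 * Y 2, (1 + η') * Y 1 * Y 2]`, where `Y 1`, `Y 2` belong to `V₁`, `V₂`, with `|U| = |V₁| |V₂|` (choose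
`V₁` first, then `|V₂|`, then `Y 2` so large that also the window of `U` has enough primes);
`(1 + η') ^ (k + 2) ≤ 1 + η`. All windows above `max 𝒬₀`, and disjoint. `D₀` is the product of the lower ends. -/
def S_LEV : Prop := ∀ (C ε δ η : ℝ) (k : ℕ) (𝒬₀ : Finset ℕ), 0 < C → 0 < ε → 0 < δ → 0 < η →
  ∃ (A : ℕ → Finset ℕ) (U V₁ V₂ : Finset ℕ), Lev k A U V₁ V₂ ∧
    (∀ i < k, Pr8 (A i)) ∧ Pr8 U ∧ Pr8 V₁ ∧ Pr8 V₂ ∧
    (∀ i < k, Disjoint 𝒬₀ (A i)) ∧ Disjoint 𝒬₀ U ∧ Disjoint 𝒬₀ V₁ ∧ Disjoint 𝒬₀ V₂ ∧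
    (∀ i < k, Sml C ε δ ((range i).biUnion A) (A i)) ∧
    Sml C ε δ ((range k).biUnion A) U ∧ Sml C ε δ ((range k).biUnion A) V₁ ∧
    Sml C ε δ ((range k).biUnion A ∪ V₁) V₂ ∧
    ∃ D₀ : ℕ, 1 ≤ D₀ ∧ ∀ Z ∈ ZZ k A U V₁ V₂, D₀ ≤ ∏ Q ∈ Z, Q ∧
      ((∏ Q ∈ Z, Q : ℕ) : ℝ) ≤ (1 + η) * D₀

/-- The twists of the members of the family by the products of the sets in `𝒵`. -/
def Gam (S : Finset ℕ) (s : ℕ → ℤ) (𝒵 : Finset (Finset ℕ)) : Set (ℤ × ℤ) :=
  {P | ∃ Z ∈ 𝒵, ∃ q, FamS S s q ∧ P = twist q ((∏ Q ∈ Z, Q : ℕ) : ℤ)}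

/-- **Job TW, part 1.** The number of members of height at most `T`. The pair `(Z, q)` is determined by the
twist `(a d ^ 2, b d ^ 3)`: `Q ∈ Z` if and only if `Q ∣ a d ^ 2`, for `Q ∈ S` (`Q` does not divide `a`, because `- s Q`
is not a square modulo `Q`). And `hgt (twist q d) = d ^ 6 * hgt q`. -/
def S_TW1 : Prop := ∀ (S : Finset ℕ) (s : ℕ → ℤ), GoodRes S s → ∀ 𝒵 : Finset (Finset ℕ),
  (∀ Z ∈ 𝒵, Z ⊆ S) → ∀ (T : ℕ) (Pp : ℤ × ℤ → Prop),
  {P : ℤ × ℤ | P ∈ Gam S s 𝒵 ∧ hgt P ≤ T ∧ Pp P}.ncard =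
    ∑ Z ∈ 𝒵, {q : ℤ × ℤ | FamS S s q ∧ hgt q ≤ T / (∏ Q ∈ Z, Q) ^ 6 ∧
      Pp (twist q ((∏ Q ∈ Z, Q : ℕ) : ℤ))}.ncard

/-- **Job TW, part 2.** The twists form a family given by congruences modulo one number `M` and the
condition that the discriminant is squarefree at the other primes (`M = 12 (∏ S) ^ 4`, say, and `R` is the
set of the classes of the members; the discriminant of the members of `InFamily` is prime to `6`). -/
def S_TW2 : Prop := ∀ (S : Finset ℕ) (s : ℕ → ℤ), GoodRes S s → ∀ 𝒵 : Finset (Finset ℕ),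
  (∀ Z ∈ 𝒵, Z ⊆ S) → ∃ (M : ℕ) (R : Set (ZMod M × ZMod M)), 0 < M ∧
    ∀ P : ℤ × ℤ, P ∈ Gam S s 𝒵 ↔ 0 < P.1 ∧ (((P.1 : ℤ) : ZMod M), ((P.2 : ℤ) : ZMod M)) ∈ R ∧
      ∀ p : ℕ, p.Prime → ¬ p ∣ M → ¬ (p : ℤ) ^ 2 ∣ 4 * P.1 ^ 3 + 27 * P.2 ^ 2

end Pool.Agent.Helper29L
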