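import Pool.Agent.Helper29L.Cnt2
import Pool.Agent.Helper29L.Stm4

/-!
# Few members of the family with an unbalanced class, ordered by height
-/

set_option autoImplicit false
set_option linter.all false

open IsDedekindDomain NumberField Finset Filter
open scoped Classical

namespace Pool.Agent.Helper29L

open Pool.Agent.Helper29K (InFamily SE Pr8 zS Bx NR mem_zS card_zS prod_zS mem_Bx nr_congr goodS_of)

/-- The members of height at most `T` lie in the box for `X = ⌈T ^ (1 / 6)⌉`. -/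
theorem bx_of_hgt {S : Finset ℕ} {s : ℕ → ℤ} {q : ℤ × ℤ} (hq : FamS S s q) {T X : ℕ} (hT : hgt q ≤ T)
    (hX : (T : ℝ) ^ (1 / 6 : ℝ) ≤ X) : q ∈ Bx X := by
  have hX6 : (T : ℝ) ≤ (X : ℝ) ^ 6 := by
    have h1 : ((T : ℝ) ^ (1 / 6 : ℝ)) ^ 6 = T := by
      rw [← Real.rpow_natCast, ← Real.rpow_mul (Nat.cast_nonneg _)]
      norm_num
    rw [← h1]
    exact pow_le_pow_left₀ (by positivity) hX 6
  have hT6 : T ≤ X ^ 6 := by exact_mod_cast hX6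
  have h1 : q.1.natAbs ^ 3 ≤ X ^ 6 := (le_max_left _ _).trans (hT.trans hT6)
  have h2 : q.2.natAbs ^ 2 ≤ X ^ 6 := (le_max_right _ _).trans (hT.trans hT6)
  have h3 : q.1.natAbs ≤ X ^ 2 := by
    have : q.1.natAbs ^ 3 ≤ (X ^ 2) ^ 3 := by rw [← pow_mul]; exact h1
    exact (Nat.pow_le_pow_iff_left (by norm_num)).1 this
  have h4 : q.2.natAbs ≤ X ^ 3 := by
    have : q.2.natAbs ^ 2 ≤ (X ^ 3) ^ 2 := by rw [← pow_mul]; exact h2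
    exact (Nat.pow_le_pow_iff_left (by norm_num)).1 this
  refine mem_Bx.2 ⟨hq.fam.pos, ?_, ?_⟩
  · have := hq.fam.pos
    have h5 : ((q.1.natAbs : ℕ) : ℤ) ≤ ((X ^ 2 : ℕ) : ℤ) := by exact_mod_cast h3
    push_cast at h5
    have h6 : |q.1| = q.1 := abs_of_pos this
    omega
  · have h5 : ((q.2.natAbs : ℕ) : ℤ) ≤ ((X ^ 3 : ℕ) : ℤ) := by exact_mod_cast h4
    push_cast at h5
    exact h5

/-- The members of the family with an unbalanced class. -/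
def UnbS (S : Finset ℕ) (s : ℕ → ℤ) (W L : Finset ℕ) (δ : ℝ) : Set (ℤ × ℤ) :=
  {q | FamS S s q ∧ ∃ Z ⊆ W, ¬ BalN q S Z L δ}

theorem unb_height {κ : ℕ} (hκ : PLBk κ) (hPB : S_PBAD) (hLB : S_LOWB) : ∃ K : ℝ, 0 < K ∧
    ∀ (S : Finset ℕ) (s : ℕ → ℤ), GoodRes S s → ∀ W L : Finset ℕ, W ⊆ S → L ⊆ S →
      Disjoint W L → ∀ δ : ℝ, 0 < δ → δ ≤ 1 / 4 → ∀ᶠ T : ℕ in atTop,
      ({q : ℤ × ℤ | q ∈ UnbS S s W L δ ∧ hgt q ≤ T}.ncard : ℝ) ≤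
        K * (4 ^ W.card * ((∏ Q ∈ W, Q : ℕ) : ℝ) ^ 7) * Real.exp (-(δ ^ 2 / 2) * L.card) *
          (NS S s T : ℝ) := by
  obtain ⟨K, hK, hfew⟩ := few_unb hκ hPB
  obtain ⟨c, hc, hlow⟩ := hLB
  refine ⟨32 * K / c, by positivity, fun S s hS W L hW hL hdis δ hδ hδ1 => ?_⟩
  have hev : ∀ᶠ X : ℕ in atTop, ∀ Z ∈ W.powerset,
      ((∏ Q ∈ S, Q : ℕ) : ℝ) ^ 2 *
        (((Bx X).filter fun p => FamS S s p ∧ ¬ BalN p S Z L δ).card : ℝ) ≤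
        K * (2 ^ Z.card * ((∏ Q ∈ Z, Q : ℕ) : ℝ) ^ 7) * Real.exp (-(δ ^ 2 / 2) * L.card) *
          (X : ℝ) ^ 5 := by
    rw [Filter.eventually_all_finset]
    intro Z hZ
    have hZ' := Finset.mem_powerset.1 hZ
    exact hfew S s hS Z L (hZ'.trans hW) hL (Finset.disjoint_of_subset_left hZ' hdis) δ hδ hδ1
  have htend : Tendsto (fun T : ℕ => ⌈(T : ℝ) ^ (1 / 6 : ℝ)⌉₊) atTop atTop :=
    tendsto_nat_ceil_atTop.comp ((tendsto_rpow_atTop (by norm_num)).comp tendsto_natCast_atTop_atTop)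
  have hPpos : 0 < ∏ Q ∈ S, Q := Finset.prod_pos fun Q hQ => (hS.1 Q hQ).1.pos
  have hP : (0 : ℝ) < ((∏ Q ∈ S, Q : ℕ) : ℝ) := by exact_mod_cast hPpos
  filter_upwards [htend.eventually hev, hlow S s hS, eventually_ge_atTop 1] with T hT1 hT2 hT3
  obtain ⟨X, hX⟩ : ∃ X : ℕ, X = ⌈(T : ℝ) ^ (1 / 6 : ℝ)⌉₊ := ⟨_, rfl⟩
  rw [← hX] at hT1
  have hXle : (T : ℝ) ^ (1 / 6 : ℝ) ≤ X := by rw [hX]; exact Nat.le_ceil _
  have hT3' : (1 : ℝ) ≤ T := by exact_mod_cast hT3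
  have hone : (1 : ℝ) ≤ (T : ℝ) ^ (1 / 6 : ℝ) := Real.one_le_rpow hT3' (by norm_num)
  have hXup : (X : ℝ) ≤ 2 * (T : ℝ) ^ (1 / 6 : ℝ) := by
    have := Nat.ceil_lt_add_one (show (0 : ℝ) ≤ (T : ℝ) ^ (1 / 6 : ℝ) by positivity)
    rw [← hX] at this
    linarith
  have hX5 : (X : ℝ) ^ 5 ≤ 32 * (T : ℝ) ^ (5 / 6 : ℝ) := by
    have h1 : ((T : ℝ) ^ (1 / 6 : ℝ)) ^ 5 = (T : ℝ) ^ (5 / 6 : ℝ) := by
      rw [← Real.rpow_natCast, ← Real.rpow_mul (Nat.cast_nonneg _)]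
      norm_num
    calc (X : ℝ) ^ 5 ≤ (2 * (T : ℝ) ^ (1 / 6 : ℝ)) ^ 5 := pow_le_pow_left₀ (Nat.cast_nonneg _) hXup 5
      _ = 32 * (T : ℝ) ^ (5 / 6 : ℝ) := by rw [mul_pow, h1]; norm_num
  -- the union
  have hsub : {q : ℤ × ℤ | q ∈ UnbS S s W L δ ∧ hgt q ≤ T} ⊆
      ((W.powerset.biUnion fun Z => (Bx X).filter fun p => FamS S s p ∧ ¬ BalN p S Z L δ :
        Finset (ℤ × ℤ)) : Set (ℤ × ℤ)) := by
    rintro q ⟨⟨hq, Z, hZ, hb⟩, hh⟩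
    exact Finset.mem_coe.2 (Finset.mem_biUnion.2 ⟨Z, Finset.mem_powerset.2 hZ,
      Finset.mem_filter.2 ⟨bx_of_hgt hq hh hXle, hq, hb⟩⟩)
  have h1 : ({q : ℤ × ℤ | q ∈ UnbS S s W L δ ∧ hgt q ≤ T}.ncard : ℝ) ≤
      ∑ Z ∈ W.powerset, (((Bx X).filter fun p => FamS S s p ∧ ¬ BalN p S Z L δ).card : ℝ) := by
    have h2 := Set.ncard_le_ncard hsub (Finset.finite_toSet _)
    rw [Set.ncard_coe_finset] at h2
    exact_mod_cast h2.trans Finset.card_biUnion_le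
  have hWle : ∀ Z ∈ W.powerset, (2 : ℝ) ^ Z.card * ((∏ Q ∈ Z, Q : ℕ) : ℝ) ^ 7 ≤
      2 ^ W.card * ((∏ Q ∈ W, Q : ℕ) : ℝ) ^ 7 := by
    intro Z hZ
    have hZ' := Finset.mem_powerset.1 hZ
    have h3 : ((∏ Q ∈ Z, Q : ℕ) : ℝ) ≤ ((∏ Q ∈ W, Q : ℕ) : ℝ) := by
      exact_mod_cast Finset.prod_le_prod_of_subset_of_one_le' hZ' fun Q hQ _ =>
        (hS.1 Q (hW hQ)).1.one_lt.le
    exact mul_le_mul (pow_le_pow_right₀ one_le_two (Finset.card_le_card hZ'))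
      (pow_le_pow_left₀ (Nat.cast_nonneg _) h3 7) (by positivity) (by positivity)
  have h4 : ((∏ Q ∈ S, Q : ℕ) : ℝ) ^ 2 *
      ({q : ℤ × ℤ | q ∈ UnbS S s W L δ ∧ hgt q ≤ T}.ncard : ℝ) ≤
      2 ^ W.card * (K * (2 ^ W.card * ((∏ Q ∈ W, Q : ℕ) : ℝ) ^ 7) *
        Real.exp (-(δ ^ 2 / 2) * L.card) * (X : ℝ) ^ 5) := by
    calc ((∏ Q ∈ S, Q : ℕ) : ℝ) ^ 2 *
      ({q : ℤ × ℤ | q ∈ UnbS S s W L δ ∧ hgt q ≤ T}.ncard : ℝ)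
        ≤ ((∏ Q ∈ S, Q : ℕ) : ℝ) ^ 2 * ∑ Z ∈ W.powerset,
          (((Bx X).filter fun p => FamS S s p ∧ ¬ BalN p S Z L δ).card : ℝ) :=
          mul_le_mul_of_nonneg_left h1 (by positivity)
      _ = ∑ Z ∈ W.powerset, ((∏ Q ∈ S, Q : ℕ) : ℝ) ^ 2 *
          (((Bx X).filter fun p => FamS S s p ∧ ¬ BalN p S Z L δ).card : ℝ) := by
          rw [Finset.mul_sum]
      _ ≤ ∑ Z ∈ W.powerset, K * (2 ^ Z.card * ((∏ Q ∈ Z, Q : ℕ) : ℝ) ^ 7) *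
          Real.exp (-(δ ^ 2 / 2) * L.card) * (X : ℝ) ^ 5 := Finset.sum_le_sum hT1
      _ ≤ ∑ _Z ∈ W.powerset, K * (2 ^ W.card * ((∏ Q ∈ W, Q : ℕ) : ℝ) ^ 7) *
          Real.exp (-(δ ^ 2 / 2) * L.card) * (X : ℝ) ^ 5 := by
          refine Finset.sum_le_sum fun Z hZ => ?_
          have := hWle Z hZ
          gcongr
      _ = _ := by
          rw [Finset.sum_const, nsmul_eq_mul, Finset.card_powerset]
          push_cast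
          rfl
  have h5 : (X : ℝ) ^ 5 ≤ 32 / c * (((∏ Q ∈ S, Q : ℕ) : ℝ) ^ 2 * (NS S s T : ℝ)) := by
    calc (X : ℝ) ^ 5 ≤ 32 * (T : ℝ) ^ (5 / 6 : ℝ) := hX5
      _ = 32 / c * (c * (T : ℝ) ^ (5 / 6 : ℝ)) := by field_simp
      _ ≤ _ := mul_le_mul_of_nonneg_left hT2 (by positivity)
  have h6 : ((∏ Q ∈ S, Q : ℕ) : ℝ) ^ 2 *
      ({q : ℤ × ℤ | q ∈ UnbS S s W L δ ∧ hgt q ≤ T}.ncard : ℝ) ≤ ((∏ Q ∈ S, Q : ℕ) : ℝ) ^ 2 *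
      (32 * K / c * (4 ^ W.card * ((∏ Q ∈ W, Q : ℕ) : ℝ) ^ 7) *
        Real.exp (-(δ ^ 2 / 2) * L.card) * (NS S s T : ℝ)) := by
    refine h4.trans ?_
    calc 2 ^ W.card * (K * (2 ^ W.card * ((∏ Q ∈ W, Q : ℕ) : ℝ) ^ 7) *
        Real.exp (-(δ ^ 2 / 2) * L.card) * (X : ℝ) ^ 5)
        ≤ 2 ^ W.card * (K * (2 ^ W.card * ((∏ Q ∈ W, Q : ℕ) : ℝ) ^ 7) *
        Real.exp (-(δ ^ 2 / 2) * L.card) * (32 / c * (((∏ Q ∈ S, Q : ℕ) : ℝ) ^ 2 *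
          (NS S s T : ℝ)))) := by gcongr
      _ = _ := by
        have e : (4 : ℝ) ^ W.card = 2 ^ W.card * 2 ^ W.card := by
          rw [← mul_pow]; norm_num
        rw [e]
        ring
  exact le_of_mul_le_mul_left h6 (by positivity)

end Pool.Agent.Helper29L
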