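import Mathlib

/-!
# Job LOW: squares modulo a prime
-/

set_option autoImplicit false
set_option linter.all false

namespace Pool.Agent.Helper29L.LOW

variable {p : ℕ} [hp : Fact p.Prime]

theorem mul_ns (h2 : p ≠ 2) {a b : ZMod p} (ha : ¬ IsSquare a) (hb : ¬ IsSquare b) :
    IsSquare (a * b) := by
  have ha0 : a ≠ 0 := by rintro rfl; exact ha ⟨0, by simp⟩
  have hb0 : b ≠ 0 := by rintro rfl; exact hb ⟨0, by simp⟩
  have hc : ringChar (ZMod p) ≠ 2 := by rwa [ZMod.ringChar_zmod_n]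
  rw [FiniteField.isSquare_iff hc ha0] at ha
  rw [FiniteField.isSquare_iff hc hb0] at hb
  rw [FiniteField.isSquare_iff hc (mul_ne_zero ha0 hb0), mul_pow]
  rcases FiniteField.pow_dichotomy hc ha0 with h | h
  · exact absurd h ha
  rcases FiniteField.pow_dichotomy hc hb0 with h' | h'
  · exact absurd h' hb
  rw [h, h']
  ring

theorem mul_ns_sq {a b : ZMod p} (ha : ¬ IsSquare a) (hb0 : b ≠ 0) (hb : IsSquare b) :
    ¬ IsSquare (a * b) := by
  rintro ⟨c, hc⟩
  obtain ⟨d, rfl⟩ := hb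
  have hd : d ≠ 0 := by rintro rfl; exact hb0 (by simp)
  exact ha ⟨c / d, by field_simp; rw [sq, sq, ← hc]⟩

/-- a nonsquare after a nonzero square -/
theorem exA (h5 : 5 ≤ p) : ∃ t : ZMod p, ¬ IsSquare t ∧ t - 1 ≠ 0 ∧ IsSquare (t - 1) := by
  have h2 : p ≠ 2 := by omega
  have hex : ∃ n : ℕ, ¬ IsSquare (n : ZMod p) := by
    obtain ⟨a, ha⟩ := FiniteField.exists_nonsquare (F := ZMod p) (by rwa [ZMod.ringChar_zmod_n])
    exact ⟨a.val, by rwa [ZMod.natCast_zmod_val]⟩
  classical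
  set n := Nat.find hex with hn
  have h1 : ¬ IsSquare (n : ZMod p) := Nat.find_spec hex
  have hn0 : n ≠ 0 := by
    intro h
    rw [h] at h1
    exact h1 ⟨0, by simp⟩
  have hn1 : n ≠ 1 := by
    intro h
    rw [h] at h1
    exact h1 ⟨1, by simp⟩
  obtain ⟨m, hm⟩ : ∃ m, n = m + 1 := ⟨n - 1, by omega⟩
  have hlt : n < p := by
    by_contra hcon
    have h3 : ¬ IsSquare (((n % p : ℕ) : ℕ) : ZMod p) := by
      rw [ZMod.natCast_mod]
      exact h1
    have h4 := Nat.find_min' hex h3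
    have h5' : n % p < p := Nat.mod_lt _ hp.out.pos
    omega
  have hsq : IsSquare (m : ZMod p) := by
    by_contra hcon
    have := Nat.find_min' hex hcon
    omega
  have e : ((n : ℕ) : ZMod p) - 1 = (m : ZMod p) := by rw [hm]; push_cast; ring
  refine ⟨(n : ZMod p), h1, ?_, ?_⟩
  · rw [e]
    intro h
    rw [ZMod.natCast_eq_zero_iff] at h
    have := Nat.le_of_dvd (by omega) h
    omega
  · rw [e]
    exact hsq

/-- a nonzero square after a nonsquare -/
theorem exB (h5 : 5 ≤ p) : ∃ t : ZMod p, t ≠ 0 ∧ IsSquare t ∧ ¬ IsSquare (t - 1) := by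
  have h2 : p ≠ 2 := by omega
  by_contra hcon
  push Not at hcon
  -- a nonzero square comes after a square
  have hstep : ∀ k : ℕ, ¬ IsSquare (k : ZMod p) → k + 1 < p → ¬ IsSquare ((k + 1 : ℕ) : ZMod p) := by
    intro k hk hkp hsq
    apply hk
    have h0 : ((k + 1 : ℕ) : ZMod p) ≠ 0 := by
      intro h
      rw [ZMod.natCast_eq_zero_iff] at h
      have := Nat.le_of_dvd (by omega) h
      omega
    have h3 := hcon _ h0 hsq
    have e : ((k + 1 : ℕ) : ZMod p) - 1 = k := by push_cast; ring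
    rwa [e] at h3
  have hup : ∀ k l : ℕ, ¬ IsSquare (k : ZMod p) → k ≤ l → l < p → ¬ IsSquare (l : ZMod p) := by
    intro k l hk hkl
    induction l, hkl using Nat.le_induction with
    | base => exact fun _ => hk
    | succ l hl ih =>
      intro hlp
      exact hstep l (ih (by omega)) hlp
  -- `2` is a square, since `4` is
  have h22 : IsSquare ((2 : ℕ) : ZMod p) := by
    by_contra h
    exact hup 2 4 h (by omega) (by omega) ⟨2, by push_cast; norm_num⟩
  obtain ⟨m, hm⟩ : ∃ m, p = 2 * m + 1 := by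
    rcases hp.out.eq_two_or_odd' with h | h
    · exact absurd h h2
    · exact h
  have h20 : (2 : ZMod p) ≠ 0 := by
    intro h
    have : ((2 : ℕ) : ZMod p) = 0 := by exact_mod_cast h
    rw [ZMod.natCast_eq_zero_iff] at this
    have := Nat.le_of_dvd (by norm_num) this
    omega
  have hm1 : ((m + 1 : ℕ) : ZMod p) * 2 = 1 := by
    have h3 : ((m + 1 : ℕ) : ZMod p) * 2 = ((2 * m + 1 : ℕ) : ZMod p) + 1 := by push_cast; ring
    rw [h3, ← hm]
    simp
  have hm2 : ((m : ℕ) : ZMod p) * 2 = -1 := by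
    have h3 : ((m : ℕ) : ZMod p) * 2 = ((2 * m + 1 : ℕ) : ZMod p) - 1 := by push_cast; ring
    rw [h3, ← hm]
    simp
  -- `m + 1` is a square
  have hsm1 : IsSquare ((m + 1 : ℕ) : ZMod p) := by
    obtain ⟨c, hc⟩ := h22
    have hc' : (2 : ZMod p) = c * c := by exact_mod_cast hc
    refine ⟨1 / c, ?_⟩
    have hc0 : c ≠ 0 := by
      rintro rfl
      apply h20
      rw [hc']
      ring
    field_simp
    rw [sq, ← hc', hm1]
  have hsm : IsSquare ((m : ℕ) : ZMod p) := by
    by_contra h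
    exact hup m (m + 1) h (by omega) (by omega) hsm1
  -- so `-1` is a square and all are squares
  have hneg : IsSquare (-1 : ZMod p) := by
    rw [← hm2]
    exact hsm.mul (by exact_mod_cast h22)
  obtain ⟨a, ha⟩ := FiniteField.exists_nonsquare (F := ZMod p) (by rwa [ZMod.ringChar_zmod_n])
  have ha' : ¬ IsSquare ((a.val : ℕ) : ZMod p) := by rwa [ZMod.natCast_zmod_val]
  have halt := a.val_lt
  by_cases hle : a.val ≤ m + 1
  · exact hup a.val (m + 1) ha' hle (by omega) hsm1
  · have h6 : ¬ IsSquare ((p - a.val : ℕ) : ZMod p) := by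
      rw [Nat.cast_sub halt.le, ZMod.natCast_zmod_val, ZMod.natCast_self, zero_sub]
      intro h7
      apply ha
      have := h7.mul hneg
      simpa using this
    exact hup (p - a.val) (m + 1) h6 (by omega) (by omega) hsm1

theorem exists_s (h5 : 5 ≤ p) {c : ZMod p} (hc : c ≠ 0) :
    ∃ s : ZMod p, s ≠ 0 ∧ IsSquare s ∧ ¬ IsSquare (s - c) := by
  have h2 : p ≠ 2 := by omega
  by_cases h : IsSquare c
  · obtain ⟨t, ht0, ht, ht1⟩ := exB h5
    refine ⟨t * c, mul_ne_zero ht0 hc, ht.mul h, ?_⟩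
    have e : t * c - c = (t - 1) * c := by ring
    rw [e]
    exact mul_ns_sq ht1 hc h
  · obtain ⟨t, ht, ht0, ht1⟩ := exA h5
    refine ⟨t * c, mul_ne_zero (by rintro rfl; exact ht ⟨0, by simp⟩) hc, mul_ns h2 ht h, ?_⟩
    have e : t * c - c = c * (t - 1) := by ring
    rw [e]
    exact mul_ns_sq h ht0 ht1

end Pool.Agent.Helper29L.LOW
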