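import Pool.Agent.Helper29L.LOW1
import Pool.Agent.R425.G.Cl4

/-!
# Job LOW: the local conditions at the odd primes dividing the discriminant, and at the primes `Q`
-/

set_option autoImplicit false
set_option linter.all false

open NumberField IsDedekindDomain WithZero WeierstrassCurve WeierstrassCurve.Affine
open scoped NNReal Classical

namespace Pool.Agent.Helper29L.LOW

open Pool.Agent
open Pool.Agent.TH115.GD (cub cub')
open Pool.Agent.R425 (sqrt_fix mem_of_fixed)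
open Pool.Agent.R425.G (LD w_alg u_int)

section fx

/-- `x` is fixed by the automorphisms that fix `e` -/
def Fx (L : Type) {Ω' : Type} [Field L] [Field Ω'] [Algebra L Ω'] (e x : Ω') : Prop :=
  ∀ σ : Ω' ≃ₐ[L] Ω', σ e = e → σ x = x

variable {L Ω' : Type} [Field L] [Field Ω'] [Algebra L Ω'] {e x y : Ω'}

theorem Fx.mul (hx : Fx L e x) (hy : Fx L e y) : Fx L e (x * y) := fun σ h => by
  rw [map_mul, hx σ h, hy σ h]

theorem Fx.div (hx : Fx L e x) (hy : Fx L e y) : Fx L e (x / y) := fun σ h => by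
  rw [map_div₀, hx σ h, hy σ h]

theorem Fx.add (hx : Fx L e x) (hy : Fx L e y) : Fx L e (x + y) := fun σ h => by
  rw [map_add, hx σ h, hy σ h]

theorem Fx.sub (hx : Fx L e x) (hy : Fx L e y) : Fx L e (x - y) := fun σ h => by
  rw [map_sub, hx σ h, hy σ h]

theorem Fx.pow (hx : Fx L e x) (n : ℕ) : Fx L e (x ^ n) := fun σ h => by
  rw [map_pow, hx σ h]

theorem Fx.self : Fx L e e := fun σ h => h

theorem Fx.int (n : ℤ) : Fx L e (n : Ω') := fun σ h => map_intCast σ n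

theorem Fx.nat (n : ℕ) : Fx L e (n : Ω') := fun σ h => map_natCast σ n

theorem Fx.alg (n : L) : Fx L e (algebraMap L Ω' n) := fun σ h => σ.commutes n

/-- two conjugate roots and a rational one -/
structure Cj (L : Type) {Ω' : Type} [Field L] [Field Ω'] [Algebra L Ω'] (e1 e2 e3 : Ω') : Prop where
  fix : ∀ σ : Ω' ≃ₐ[L] Ω', σ e1 = e1
  perm : ∀ σ : Ω' ≃ₐ[L] Ω', (σ e2 = e2 ∧ σ e3 = e3) ∨ (σ e2 = e3 ∧ σ e3 = e2)
  ex : ∃ σ : Ω' ≃ₐ[L] Ω', σ e2 = e3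

variable {e1 e2 e3 : Ω'}

theorem Cj.conj (h : Cj L e1 e2 e3) {σ0 : Ω' ≃ₐ[L] Ω'} (h0 : σ0 e2 = e3) {u : Ω'}
    (hu : Fx L e2 u) (σ : Ω' ≃ₐ[L] Ω') :
    (σ e2 = e2 ∧ σ e3 = e3 ∧ σ u = u ∧ σ (σ0 u) = σ0 u) ∨
    (σ e2 = e3 ∧ σ e3 = e2 ∧ σ u = σ0 u ∧ σ (σ0 u) = u) := by
  rcases h.perm σ with ⟨h1, h2⟩ | ⟨h1, h2⟩
  · left
    refine ⟨h1, h2, hu σ h1, ?_⟩
    have h3 : (σ0⁻¹ * σ * σ0) e2 = e2 := by
      show σ0⁻¹ (σ (σ0 e2)) = e2
      rw [h0, h2, ← h0]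
      show (σ0⁻¹ * σ0) e2 = e2
      rw [inv_mul_cancel]; rfl
    have h4 := hu _ h3
    have h5 : σ0 ((σ0⁻¹ * σ * σ0) u) = σ (σ0 u) := by
      show (σ0 * (σ0⁻¹ * σ * σ0)) u = _
      rw [← mul_assoc, ← mul_assoc, mul_inv_cancel, one_mul]
      rfl
    rw [← h5, h4]
  · right
    refine ⟨h1, h2, ?_, ?_⟩
    · have h3 : (σ0⁻¹ * σ) e2 = e2 := by
        show σ0⁻¹ (σ e2) = e2
        rw [h1, ← h0]
        show (σ0⁻¹ * σ0) e2 = e2
        rw [inv_mul_cancel]; rfl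
      have h4 := hu _ h3
      have h5 : σ0 ((σ0⁻¹ * σ) u) = σ u := by
        show (σ0 * (σ0⁻¹ * σ)) u = _
        rw [← mul_assoc, mul_inv_cancel, one_mul]
      rw [← h5, h4]
    · have h3 : (σ * σ0) e2 = e2 := by
        show σ (σ0 e2) = e2
        rw [h0, h2]
      exact hu _ h3

/-- the condition at the rational root follows from the norm -/
theorem norm_trick (h : Cj L e1 e2 e3) (ζ D : Ω' → Ω')
    (hζσ : ∀ (σ : Ω' ≃ₐ[L] Ω') (e : Ω'), (e = e1 ∨ e = e2 ∨ e = e3) → σ (ζ e) = ζ (σ e))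
    (hDσ : ∀ (σ : Ω' ≃ₐ[L] Ω') (e : Ω'), (e = e1 ∨ e = e2 ∨ e = e3) → σ (D e) = D (σ e))
    (r Y : L) (hr : ζ e1 * ζ e2 * ζ e3 = algebraMap L Ω' r ^ 2)
    (hY : D e1 * D e2 * D e3 = algebraMap L Ω' Y ^ 2) (hY0 : Y ≠ 0) (hζ0 : ζ e2 ≠ 0)
    {y2 : Ω'} (hy2 : Fx L e2 y2) (h2 : ζ e2 = y2 ^ 2 * D e2) :
    ∀ e, (e = e1 ∨ e = e2 ∨ e = e3) → ∃ y, Fx L e y ∧ ζ e = y ^ 2 * D e := by
  obtain ⟨σ0, h0⟩ := h.ex
  have h3 : ζ e3 = (σ0 y2) ^ 2 * D e3 := by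
    have h4 := congrArg σ0 h2
    rw [hζσ σ0 e2 (Or.inr (Or.inl rfl)), map_mul, map_pow, hDσ σ0 e2 (Or.inr (Or.inl rfl)), h0] at h4
    exact h4
  have hζ3 : ζ e3 ≠ 0 := by
    have h4 := hζσ σ0 e2 (Or.inr (Or.inl rfl))
    rw [h0] at h4
    rw [← h4]
    exact (map_ne_zero σ0).2 hζ0
  have hcj := fun σ => h.conj h0 hy2 σ
  intro e he
  rcases he with rfl | rfl | rfl
  · have hYa : algebraMap L Ω' Y ≠ 0 := (map_ne_zero _).2 hY0
    have hy20 : y2 ≠ 0 := by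
      rintro rfl
      apply hζ0
      rw [h2]; ring
    have hy30 : σ0 y2 ≠ 0 := (map_ne_zero σ0).2 hy20
    have hD2 : D e2 ≠ 0 := by
      intro hh
      apply hζ0
      rw [h2, hh, mul_zero]
    have hD3 : D e3 ≠ 0 := by
      intro hh
      apply hζ3
      rw [h3, hh, mul_zero]
    refine ⟨algebraMap L Ω' r / (y2 * σ0 y2 * algebraMap L Ω' Y), ?_, ?_⟩
    · intro σ _
      rw [map_div₀, map_mul, map_mul, σ.commutes, σ.commutes]
      rcases hcj σ with ⟨-, -, h5, h6⟩ | ⟨-, -, h5, h6⟩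
      · rw [h5, h6]
      · rw [h5, h6, mul_comm (σ0 y2) y2]
    · have h7 : ζ e * (y2 ^ 2 * D e2) * ((σ0 y2) ^ 2 * D e3) = algebraMap L Ω' r ^ 2 := by
        rw [← h2, ← h3]
        exact hr
      have h8 : (y2 * σ0 y2 * algebraMap L Ω' Y) ≠ 0 := mul_ne_zero (mul_ne_zero hy20 hy30) hYa
      rw [div_pow, ← h7, div_mul_eq_mul_div, eq_div_iff (pow_ne_zero 2 h8)]
      rw [mul_pow, mul_pow, ← hY]
      ring
  · exact ⟨y2, hy2, h2⟩
  · refine ⟨σ0 y2, ?_, h3⟩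
    intro σ hσ3
    rcases hcj σ with ⟨-, -, h5, h6⟩ | ⟨h5, h6, h7, h8⟩
    · exact h6
    · -- then `e2 = e3`
      rw [hσ3] at h6
      have h9 : σ e2 = e2 := by rw [h5, h6]
      have h10 := hy2 σ h9
      rw [h8, ← h7, h10]

end fx

end Pool.Agent.Helper29L.LOW
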