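import Pool.Agent.Helper29L.LOW2

/-!
# Job LOW: the local conditions at the odd primes dividing the discriminant, and at the primes `Q`
-/

set_option autoImplicit false
set_option linter.all false

open NumberField IsDedekindDomain WithZero WeierstrassCurve WeierstrassCurve.Affine
open scoped NNReal Classical

namespace Pool.Agent.Helper29L.LOW

open Pool.Agent
open Pool.Agent.TH115.GD (cub cub')
open Pool.Agent.R425 (sqrt_fix mem_of_fixed)
open Pool.Agent.R425.G (LD w_alg u_int)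

section loc

variable {L Ω' : Type} [Field L] [Field Ω'] [Algebra L Ω'] [IsAlgClosed Ω'] [IsGalois L Ω']
  [CharZero Ω'] [Algebra ℚ L] [Algebra ℚ Ω'] [IsScalarTower ℚ L Ω'] (w : Valuation Ω' ℝ≥0)
  (hσ : ∀ (σ : Ω' ≃ₐ[L] Ω') (x : Ω'), w (σ x) = w x) {p : ℕ}
  (hL : LD (w.comap (algebraMap L Ω')) p)

include hL in
theorem near_L {x : L} (hx : w (algebraMap L Ω' x) ≤ 1) :
    ∃ a : ℤ, w (algebraMap L Ω' x - (a : Ω')) < 1 := by
  obtain ⟨a, -, ha⟩ := hL.res x hx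
  refine ⟨a, ?_⟩
  rw [Valuation.comap_apply, map_sub, map_natCast] at ha
  exact_mod_cast ha

include hL in
theorem w_unit {n : ℤ} (hn : ¬ (p : ℤ) ∣ n) : w (n : Ω') = 1 := by
  have h1 := hL.unit_of hn
  rw [Valuation.comap_apply, map_intCast] at h1
  exact h1

include hL in
theorem w_dvd {n : ℤ} (hn : (p : ℤ) ∣ n) : w (n : Ω') < 1 := by
  obtain ⟨k, rfl⟩ := hn
  push_cast
  rw [map_mul]
  exact mul_lt_one_of_lt_of_le (w_alg w hL).1 (u_int w k)

include hL in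
theorem w_lt_iff {n : ℤ} : w (n : Ω') < 1 ↔ (p : ℤ) ∣ n := by
  refine ⟨fun h => ?_, w_dvd w hL⟩
  by_contra hcon
  rw [w_unit w hL hcon] at h
  exact lt_irrefl _ h

include hL in
theorem w_eq_one_iff {n : ℤ} : w (n : Ω') = 1 ↔ ¬ (p : ℤ) ∣ n := by
  refine ⟨fun h hd => ?_, w_unit w hL⟩
  have := w_dvd w hL hd
  rw [h] at this
  exact lt_irrefl _ this

/-- an element near a unit is a unit -/
theorem w_near {x y : Ω'} (hx : w x = 1) (h : w (y - x) < 1) : w y = 1 := by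
  have e : y = x + (y - x) := by ring
  rw [e, Valuation.map_add_eq_of_lt_left _ (by rw [hx]; exact h), hx]

include hσ hL in
/-- in the ramified case units are near integers -/
theorem near_int {e1 e2 e3 : Ω'} (h : Cj L e1 e2 e3) (hne : e2 ≠ e3) (h2 : w 2 = 1)
    (hodd : ∃ m : ℤ, w (e2 - e3) ^ 2 = w (p : Ω') ^ (2 * m + 1)) {u : Ω'} (hu : w u ≤ 1)
    (hf : Fx L e2 u) : ∃ a : ℤ, w (u - (a : Ω')) < 1 := by
  obtain ⟨σ0, h0⟩ := h.ex
  have hcj := fun σ => h.conj h0 hf σ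
  have h20 : (2 : Ω') ≠ 0 := two_ne_zero
  obtain ⟨a0, ha0⟩ := mem_of_fixed (L := L) (x := (u + σ0 u) / 2) (fun σ => by
    rw [map_div₀, map_add, map_ofNat]
    rcases hcj σ with ⟨-, -, h5, h6⟩ | ⟨-, -, h5, h6⟩
    · rw [h5, h6]
    · rw [h5, h6, add_comm])
  obtain ⟨b0, hb0⟩ := mem_of_fixed (L := L) (x := (u - σ0 u) / (e2 - e3)) (fun σ => by
    rw [map_div₀, map_sub, map_sub]
    rcases hcj σ with ⟨h3, h4, h5, h6⟩ | ⟨h3, h4, h5, h6⟩
    · rw [h3, h4, h5, h6]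
    · rw [h3, h4, h5, h6, ← neg_sub u, ← neg_sub e2, neg_div_neg_eq])
  have hsub : e2 - e3 ≠ 0 := sub_ne_zero.2 hne
  have hw0 : w (σ0 u) ≤ 1 := by rw [hσ]; exact hu
  have ha1 : w (algebraMap L Ω' a0) ≤ 1 := by
    rw [ha0, map_div₀, h2, div_one]
    exact (Valuation.map_add _ _ _).trans (max_le hu hw0)
  obtain ⟨a, ha⟩ := near_L w hL ha1
  refine ⟨a, ?_⟩
  have e1 : u - (a : Ω') = (u - σ0 u) / 2 + (algebraMap L Ω' a0 - (a : Ω')) := by
    rw [ha0]; field_simp; ring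
  rw [e1]
  refine Valuation.map_add_lt _ ?_ ha
  rw [map_div₀, h2, div_one]
  have hle : w (u - σ0 u) ≤ 1 := (Valuation.map_sub _ _ _).trans (max_le hu hw0)
  refine lt_of_le_of_ne hle fun hcon => ?_
  have hb : algebraMap L Ω' b0 * (e2 - e3) = u - σ0 u := by
    rw [hb0, div_mul_cancel₀ _ hsub]
  have hb00 : b0 ≠ 0 := by
    rintro rfl
    rw [map_zero, zero_mul] at hb
    rw [← hb, map_zero] at hcon
    exact zero_ne_one hcon
  obtain ⟨k, hk⟩ := hL.disc b0 hb00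
  rw [Valuation.comap_apply, Valuation.comap_apply, map_natCast] at hk
  obtain ⟨m, hm⟩ := hodd
  have h5 : w (algebraMap L Ω' b0) ^ 2 * w (e2 - e3) ^ 2 = 1 := by
    rw [← mul_pow, ← map_mul, hb, hcon, one_pow]
  rw [hk, hm, ← zpow_natCast, ← zpow_mul, ← zpow_add₀ (w_alg w hL).2] at h5
  have h6 : (k * ((2 : ℕ) : ℤ) + (2 * m + 1)) = 0 := by
    by_contra h7
    rcases lt_or_gt_of_ne h7 with h8 | h8
    · have := one_lt_zpow_of_neg₀ (pos_of_ne_zero (w_alg w hL).2) (w_alg w hL).1 h8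
      rw [h5] at this
      exact lt_irrefl _ this
    · have := zpow_lt_one₀ (pos_of_ne_zero (w_alg w hL).2) (w_alg w hL).1 h8
      rw [h5] at this
      exact lt_irrefl _ this
  push_cast at h6
  omega

/-- the conclusion on the local condition -/
def Out (L : Type) {Ω' : Type} [Field L] [Field Ω'] [Algebra L Ω'] [Algebra ℚ L] [Algebra ℚ Ω']
    (V : WeierstrassCurve ℚ) (ζ : Ω' → Ω') : Prop :=
  (∀ e : Ω', cub V e = 0 → ∃ y : Ω', Fx L e y ∧ ζ e = y ^ 2) ∨
    ∃ X Y : L, Y ^ 2 = cub V X ∧ ∀ e : Ω', cub V e = 0 → ∃ y D : Ω',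
      Fx L e y ∧ ζ e = y ^ 2 * D ∧
      ((algebraMap L Ω' X = e ∧ D = cub' V e) ∨
        (algebraMap L Ω' X ≠ e ∧ D = algebraMap L Ω' X - e))

include hσ hL in
/-- the ramified case -/
theorem ram {V : WeierstrassCurve ℚ} (hp5 : 5 ≤ p) (h2 : w 2 = 1) {e1 e2 e3 : Ω'}
    (hC : ∀ x : Ω', cub V x = (x - e1) * (x - e2) * (x - e3))
    (hCL : ∀ x : L, algebraMap L Ω' (cub V x) = cub V (algebraMap L Ω' x))
    (he1 : w e1 ≤ 1) (he2 : w e2 ≤ 1) (h12 : w (e1 - e2) = 1)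
    (hcj : Cj L e1 e2 e3) (hlt : w (e2 - e3) < 1)
    (hodd : ∃ m : ℤ, w (e2 - e3) ^ 2 = w (p : Ω') ^ (2 * m + 1)) (ζ : Ω' → Ω')
    (hζσ : ∀ (σ : Ω' ≃ₐ[L] Ω') (e : Ω'), cub V e = 0 → σ (ζ e) = ζ (σ e))
    (hζ0 : ζ e2 ≠ 0) {s : Ω'} (hs : Fx L e2 s) (hζv : w (ζ e2) = w s ^ 2)
    (r : L) (hr : ζ e1 * ζ e2 * ζ e3 = algebraMap L Ω' r ^ 2) : Out L V ζ := by
  haveI : Fact p.Prime := ⟨hL.pr⟩
  have hroot : ∀ e : Ω', cub V e = 0 ↔ e = e1 ∨ e = e2 ∨ e = e3 := by
    intro e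
    rw [hC, mul_eq_zero, mul_eq_zero, sub_eq_zero, sub_eq_zero, sub_eq_zero, or_assoc]
  have hw0 := (w_alg w hL).2
  have hne : e2 ≠ e3 := by
    rintro rfl
    obtain ⟨m, hm⟩ := hodd
    rw [sub_self, map_zero, zero_pow two_ne_zero] at hm
    exact zpow_ne_zero _ hw0 hm.symm
  have hs0 : s ≠ 0 := by
    rintro rfl
    rw [map_zero, zero_pow two_ne_zero, Valuation.zero_iff] at hζv
    exact hζ0 hζv
  -- the unit
  set u := ζ e2 / s ^ 2 with hu
  have hwu : w u = 1 := by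
    rw [hu, map_div₀, map_pow, hζv]
    exact div_self (pow_ne_zero 2 ((Valuation.ne_zero_iff _).2 hs0))
  have hfζ : Fx L e2 (ζ e2) := fun σ h => by
    rw [hζσ σ e2 ((hroot e2).2 (Or.inr (Or.inl rfl))), h]
  have hfu : Fx L e2 u := hfζ.div (hs.pow 2)
  have hζu : ζ e2 = s ^ 2 * u := by
    rw [hu, mul_div_cancel₀ _ (pow_ne_zero 2 hs0)]
  obtain ⟨a, ha⟩ := near_int w hσ hL hcj hne h2 hodd hwu.le hfu
  have hwa : w (a : Ω') = 1 := w_near w hwu (by rw [Valuation.map_sub_swap]; exact ha)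
  obtain ⟨n, hn⟩ := near_int w hσ hL hcj hne h2 hodd he2 Fx.self
  obtain ⟨l1, hl1⟩ := mem_of_fixed (L := L) (x := e1) hcj.fix
  obtain ⟨m1, hm1⟩ := near_L w hL (x := l1) (by rw [hl1]; exact he1)
  rw [hl1] at hm1
  -- the difference is a unit
  have hnm : w (((n - m1 : ℤ)) : Ω') = 1 := by
    have e : (((n - m1 : ℤ)) : Ω') = -(e1 - e2) + ((e1 - (m1 : Ω')) - (e2 - (n : Ω'))) := by
      push_cast; ring
    rw [e, Valuation.map_add_eq_of_lt_left, Valuation.map_neg, h12]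
    rw [Valuation.map_neg, h12]
    exact (Valuation.map_sub _ _ _).trans_lt (max_lt hm1 hn)
  have hc0 : (((n - m1 : ℤ)) : ZMod p) ≠ 0 := by
    rw [Ne, ZMod.intCast_zmod_eq_zero_iff_dvd]
    exact (w_eq_one_iff w hL).1 hnm
  by_cases hsq : IsSquare (a : ZMod p)
  · -- a square
    left
    obtain ⟨t, ht⟩ := hsq
    obtain ⟨t, rfl⟩ := ZMod.intCast_surjective t
    have hdv : (p : ℤ) ∣ a - t ^ 2 := by
      rw [← ZMod.intCast_zmod_eq_zero_iff_dvd]
      push_cast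
      rw [ht]; ring
    have hta : w ((a : Ω') - (t : Ω') ^ 2) < 1 := by
      have := w_dvd w hL hdv
      push_cast at this
      exact this
    have hwt : w (t : Ω') = 1 := by
      have h5 : w ((t : Ω') ^ 2) = 1 := w_near w hwa (by rw [Valuation.map_sub_swap]; exact hta)
      rw [map_pow] at h5
      exact (pow_eq_one_iff_of_nonneg zero_le two_ne_zero).1 h5
    obtain ⟨y, hy, -, hyσ⟩ := sqrt_fix (L := L) w hσ h2 (u := u) (S := (t : Ω')) hwt (by
      have e : u - (t : Ω') ^ 2 = (u - (a : Ω')) + ((a : Ω') - (t : Ω') ^ 2) := by ring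
      rw [e]
      exact Valuation.map_add_lt _ ha hta)
    have hfy : Fx L e2 y := fun σ h => hyσ σ (hfu σ h) (map_intCast σ t)
    have key := norm_trick hcj ζ (fun _ => 1) (fun σ e he => hζσ σ e ((hroot e).2 he))
      (fun σ e he => map_one _) r 1 hr (by simp) one_ne_zero hζ0 (hs.mul hfy)
      (by rw [hζu, ← hy]; ring)
    intro e he
    obtain ⟨y', hy', hy2⟩ := key e ((hroot e).1 he)
    exact ⟨y', hy', by rw [hy2, mul_one]⟩
  · -- not a square
    right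
    obtain ⟨s1, hs10, hs1, hs1c⟩ := exists_s hp5 hc0
    obtain ⟨s1, rfl⟩ := ZMod.intCast_surjective s1
    obtain ⟨t1, ht1⟩ := hs1
    obtain ⟨t1, rfl⟩ := ZMod.intCast_surjective t1
    -- the abscissa
    set x : ℤ := s1 + m1 with hx
    have hxn : ¬ IsSquare ((x - n : ℤ) : ZMod p) := by
      have e : ((x - n : ℤ) : ZMod p) = (s1 : ZMod p) - (((n - m1 : ℤ)) : ZMod p) := by
        rw [hx]; push_cast; ring
      rw [e]
      exact hs1c
    have hxn0 : ¬ (p : ℤ) ∣ x - n := by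
      intro hd
      rw [← ZMod.intCast_zmod_eq_zero_iff_dvd] at hd
      rw [hd] at hxn
      exact hxn ⟨0, by simp⟩
    have hwxn : w (((x - n : ℤ)) : Ω') = 1 := w_unit w hL hxn0
    have hxe2 : w (((x : ℤ) : Ω') - e2 - ((x - n : ℤ) : Ω')) < 1 := by
      have e : ((x : ℤ) : Ω') - e2 - ((x - n : ℤ) : Ω') = -(e2 - (n : Ω')) := by push_cast; ring
      rw [e, Valuation.map_neg]
      exact hn
    have hwx2 : w (((x : ℤ) : Ω') - e2) = 1 := w_near w hwxn hxe2
    have hxe3 : w (((x : ℤ) : Ω') - e3 - ((x - n : ℤ) : Ω')) < 1 := by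
      have e : ((x : ℤ) : Ω') - e3 - ((x - n : ℤ) : Ω') = (e2 - e3) - (e2 - (n : Ω')) := by
        push_cast; ring
      rw [e]
      exact (Valuation.map_sub _ _ _).trans_lt (max_lt hlt hn)
    have hwx3 : w (((x : ℤ) : Ω') - e3) = 1 := w_near w hwxn hxe3
    have hs1u : ¬ (p : ℤ) ∣ s1 := by
      rw [← ZMod.intCast_zmod_eq_zero_iff_dvd]
      exact hs10
    have hxe1 : w (((x : ℤ) : Ω') - e1 - (s1 : Ω')) < 1 := by
      have e : ((x : ℤ) : Ω') - e1 - (s1 : Ω') = -(e1 - (m1 : Ω')) := by rw [hx]; push_cast; ring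
      rw [e, Valuation.map_neg]
      exact hm1
    have hwx1 : w (((x : ℤ) : Ω') - e1) = 1 := w_near w (w_unit w hL hs1u) hxe1
    have hdt : (p : ℤ) ∣ s1 - t1 ^ 2 := by
      rw [← ZMod.intCast_zmod_eq_zero_iff_dvd]
      push_cast
      rw [ht1]; ring
    have hwt1' : w ((s1 : Ω') - (t1 : Ω') ^ 2) < 1 := by
      have := w_dvd w hL hdt
      push_cast at this
      exact this
    have hwt1 : w (t1 : Ω') = 1 := by
      have h5 : w ((t1 : Ω') ^ 2) = 1 := w_near w (w_unit w hL hs1u)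
        (by rw [Valuation.map_sub_swap]; exact hwt1')
      rw [map_pow] at h5
      exact (pow_eq_one_iff_of_nonneg zero_le two_ne_zero).1 h5
    -- the ordinate
    have hS : w ((t1 : Ω') * ((x - n : ℤ) : Ω')) = 1 := by rw [map_mul, hwt1, hwxn, one_mul]
    have hm : ∀ {a b a' b' : Ω'}, w a ≤ 1 → w b' ≤ 1 → w (a - a') < 1 → w (b - b') < 1 →
        w (a * b - a' * b') < 1 := by
      intro a b a' b' h1 h3 h4 h5
      have e : a * b - a' * b' = a * (b - b') + (a - a') * b' := by ring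
      rw [e]
      refine Valuation.map_add_lt _ ?_ ?_
      · rw [map_mul, mul_comm]; exact mul_lt_one_of_lt_of_le h5 h1
      · rw [map_mul]; exact mul_lt_one_of_lt_of_le h4 h3
    have hxe1' : w (((x : ℤ) : Ω') - e1 - (t1 : Ω') ^ 2) < 1 := by
      have e : ((x : ℤ) : Ω') - e1 - (t1 : Ω') ^ 2 = (((x : ℤ) : Ω') - e1 - (s1 : Ω')) +
        ((s1 : Ω') - (t1 : Ω') ^ 2) := by ring
      rw [e]
      exact Valuation.map_add_lt _ hxe1 hwt1'
    have hcubS : w (cub V ((x : ℤ) : Ω') - ((t1 : Ω') * ((x - n : ℤ) : Ω')) ^ 2) < 1 := by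
      rw [hC]
      have e : ((t1 : Ω') * ((x - n : ℤ) : Ω')) ^ 2 =
        (t1 : Ω') ^ 2 * ((x - n : ℤ) : Ω') * ((x - n : ℤ) : Ω') := by ring
      rw [e]
      refine hm ?_ hwxn.le (hm hwx1.le hwxn.le hxe1' hxe2) hxe3
      rw [map_mul, hwx1, hwx2, one_mul]
    obtain ⟨Yb, hYb, hYS, hYσ⟩ := sqrt_fix (L := L) w hσ h2 hS hcubS
    have hxL : ((x : ℤ) : Ω') = algebraMap L Ω' ((x : ℤ) : L) := by rw [map_intCast]
    obtain ⟨Yl, hYl⟩ := mem_of_fixed (L := L) (x := Yb) fun σ => hYσ σ (by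
      rw [hxL, ← hCL, σ.commutes]) (by rw [map_mul, map_intCast, map_intCast])
    have hwYb : w Yb = 1 := w_near w hS hYS
    have hYl0 : Yl ≠ 0 := by
      rintro rfl
      rw [map_zero] at hYl
      rw [← hYl, map_zero] at hwYb
      exact zero_ne_one hwYb
    -- the square root
    have hax : IsSquare ((a * (x - n) : ℤ) : ZMod p) := by
      push_cast
      have := mul_ns (p := p) (by omega) hsq hxn
      push_cast at this
      exact this
    obtain ⟨t, ht⟩ := hax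
    obtain ⟨t, rfl⟩ := ZMod.intCast_surjective t
    have hdv : (p : ℤ) ∣ a * (x - n) - t ^ 2 := by
      rw [← ZMod.intCast_zmod_eq_zero_iff_dvd]
      push_cast at ht ⊢
      rw [ht]; ring
    have hta : w ((a : Ω') * ((x - n : ℤ) : Ω') - (t : Ω') ^ 2) < 1 := by
      have := w_dvd w hL hdv
      push_cast at this ⊢
      exact this
    have hwt : w (t : Ω') = 1 := by
      have h5 : w ((t : Ω') ^ 2) = 1 := w_near w (x := (a : Ω') * ((x - n : ℤ) : Ω'))
        (by rw [map_mul, hwa, hwxn, one_mul]) (by rw [Valuation.map_sub_swap]; exact hta)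
      rw [map_pow] at h5
      exact (pow_eq_one_iff_of_nonneg zero_le two_ne_zero).1 h5
    set D2 := ((x : ℤ) : Ω') - e2 with hD2
    obtain ⟨y, hy, -, hyσ⟩ := sqrt_fix (L := L) w hσ h2 (u := u * D2) (S := (t : Ω')) hwt (by
      have e : u * D2 - (t : Ω') ^ 2 = (u * D2 - (a : Ω') * ((x - n : ℤ) : Ω')) +
        ((a : Ω') * ((x - n : ℤ) : Ω') - (t : Ω') ^ 2) := by ring
      rw [e]
      exact Valuation.map_add_lt _ (hm hwu.le hwxn.le ha hxe2) hta)
    have hfD : Fx L e2 D2 := (Fx.int x).sub Fx.self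
    have hfy : Fx L e2 y := fun σ h => hyσ σ ((hfu.mul hfD) σ h) (map_intCast σ t)
    have hD20 : D2 ≠ 0 := by
      intro h
      rw [h, map_zero] at hwx2
      exact zero_ne_one hwx2
    have key := norm_trick hcj ζ (fun e => ((x : ℤ) : Ω') - e)
      (fun σ e he => hζσ σ e ((hroot e).2 he))
      (fun σ e he => by rw [map_sub, map_intCast]) r Yl hr (by
        show (((x : ℤ) : Ω') - e1) * (((x : ℤ) : Ω') - e2) * (((x : ℤ) : Ω') - e3) = _
        rw [← hC, hYl, hYb]) hYl0 hζ0 (y2 := s * y / D2) ((hs.mul hfy).div hfD)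
      (by
        show ζ e2 = (s * y / D2) ^ 2 * D2
        rw [hζu, div_pow, mul_pow, hy]
        field_simp)
    refine ⟨(x : L), Yl, ?_, fun e he => ?_⟩
    · apply (algebraMap L Ω').injective
      rw [map_pow, hYl, hYb, hCL, ← hxL]
    · obtain ⟨y', hy', hy2⟩ := key e ((hroot e).1 he)
      refine ⟨y', ((x : ℤ) : Ω') - e, hy', hy2, Or.inr ⟨?_, by rw [map_intCast]⟩⟩
      rw [map_intCast]
      rintro rfl
      have hh : ∀ e', (e' = e1 ∨ e' = e2 ∨ e' = e3) → w (((x : ℤ) : Ω') - e') = 1 := by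
        rintro e' (rfl | rfl | rfl)
        · exact hwx1
        · exact hwx2
        · exact hwx3
      have := hh _ ((hroot _).1 he)
      rw [sub_self, map_zero] at this
      exact zero_ne_one this

end loc

end Pool.Agent.Helper29L.LOW
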