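import Pool.Agent.Helper29L.LOW3

/-!
# Job LOW: the local conditions at the primes `Q`
-/

set_option autoImplicit false
set_option linter.all false

open NumberField IsDedekindDomain WithZero WeierstrassCurve WeierstrassCurve.Affine
open scoped NNReal Classical

namespace Pool.Agent.Helper29L.LOW

open Pool.Agent
open Pool.Agent.TH115.GD (cub cub')
open Pool.Agent.R425 (sqrt_fix mem_of_fixed)
open Pool.Agent.R425.G (LD w_alg u_int)

section loc

variable {L Ω' : Type} [Field L] [Field Ω'] [Algebra L Ω'] [IsAlgClosed Ω'] [IsGalois L Ω']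
  [CharZero Ω'] [Algebra ℚ L] [Algebra ℚ Ω'] [IsScalarTower ℚ L Ω'] (w : Valuation Ω' ℝ≥0)
  (hσ : ∀ (σ : Ω' ≃ₐ[L] Ω') (x : Ω'), w (σ x) = w x) {p : ℕ}
  (hL : LD (w.comap (algebraMap L Ω')) p)

/-- from the strict inequality to an element near `1` -/
theorem near_one {x S : Ω'} (h : w (x - S ^ 2) < w x) : S ≠ 0 ∧ w (x / S ^ 2 - 1) < 1 := by
  have hx : x ≠ 0 := by
    rintro rfl
    rw [map_zero] at h
    exact absurd h (by simp)
  have hw : w (S ^ 2) = w x := by
    have e : S ^ 2 = x - (x - S ^ 2) := by ring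
    rw [e, Valuation.map_sub_eq_of_lt_left _ h]
  have hS : S ≠ 0 := by
    rintro rfl
    rw [zero_pow two_ne_zero, map_zero] at hw
    exact hx ((Valuation.zero_iff _).1 hw.symm)
  refine ⟨hS, ?_⟩
  have e : x / S ^ 2 - 1 = (x - S ^ 2) / S ^ 2 := by field_simp
  have hpos : 0 < w (S ^ 2) := pos_of_ne_zero ((Valuation.ne_zero_iff _).2 (pow_ne_zero 2 hS))
  rw [e, map_div₀, div_lt_one hpos, hw]
  exact h

include hσ hL in
/-- the condition at `Q` -/
theorem unr {V : WeierstrassCurve ℚ} (hp2 : p ≠ 2) (h2 : w 2 = 1) {E1 E2 E3 ε1 ε2 ε3 : Ω'}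
    (hC : ∀ x : Ω', cub V x = (x - E1) * (x - E2) * (x - E3))
    (hC' : cub' V E1 = (E1 - E2) * (E1 - E3))
    (hCL : ∀ x : L, algebraMap L Ω' (cub V x) = cub V (algebraMap L Ω' x))
    (hCσ : ∀ (σ : Ω' ≃ₐ[L] Ω') (x : Ω'), σ (cub' V x) = cub' V (σ x))
    {m a : ℤ} (hm : ¬ (p : ℤ) ∣ m) (ha : ¬ IsSquare ((-a : ℤ) : ZMod p))
    (hE1 : E1 = p * m * ε1) (hE2 : E2 = p * m * ε2) (hE3 : E3 = p * m * ε3)
    (hε1 : w ε1 < 1) (hε2 : w ε2 = 1)
    (hsum : ε1 + ε2 + ε3 = 0) (hsym : ε1 * ε2 + ε1 * ε3 + ε2 * ε3 = (a : Ω'))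
    (hcj : Cj L E1 E2 E3) (ζ : Ω' → Ω')
    (hζσ : ∀ (σ : Ω' ≃ₐ[L] Ω') (e : Ω'), cub V e = 0 → σ (ζ e) = ζ (σ e))
    (hζ0 : ζ E2 ≠ 0) {S : Ω'} (hS : Fx L E2 S)
    (hSq : w (ζ E2 - S ^ 2) < w (ζ E2) ∨ w (ζ E2 * (p * ε2) - S ^ 2) < w (ζ E2 * (p * ε2)))
    (r : L) (hr : ζ E1 * ζ E2 * ζ E3 = algebraMap L Ω' r ^ 2) : Out L V ζ := by
  haveI : Fact p.Prime := ⟨hL.pr⟩
  have hroot : ∀ e : Ω', cub V e = 0 ↔ e = E1 ∨ e = E2 ∨ e = E3 := by
    intro e
    rw [hC, mul_eq_zero, mul_eq_zero, sub_eq_zero, sub_eq_zero, sub_eq_zero, or_assoc]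
  have hz1 : cub V E1 = 0 := (hroot E1).2 (Or.inl rfl)
  have hz2 : cub V E2 = 0 := (hroot E2).2 (Or.inr (Or.inl rfl))
  have hw0 := (w_alg w hL).2
  have hp0 : (p : Ω') ≠ 0 := (Valuation.ne_zero_iff _).1 hw0
  have hm0 : (m : Ω') ≠ 0 := by
    intro h
    have := w_unit w hL hm
    rw [h, map_zero] at this
    exact zero_ne_one this
  have hpm : (p : Ω') * m ≠ 0 := mul_ne_zero hp0 hm0
  have hε20 : ε2 ≠ 0 := by
    rintro rfl
    rw [map_zero] at hε2
    exact zero_ne_one hε2
  have hfζ : Fx L E2 (ζ E2) := fun σ h => by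
    rw [hζσ σ E2 hz2, h]
  rcases hSq with hA | hB
  · -- a square
    left
    obtain ⟨hS0, hn1⟩ := near_one w hA
    obtain ⟨y, hy, -, hyσ⟩ := sqrt_fix (L := L) w hσ h2 (u := ζ E2 / S ^ 2) (S := 1) (map_one w)
      (by rw [one_pow]; exact hn1)
    have hfy : Fx L E2 y := fun σ h => hyσ σ ((hfζ.div (hS.pow 2)) σ h) (map_one σ)
    have key := norm_trick hcj ζ (fun _ => 1) (fun σ e he => hζσ σ e ((hroot e).2 he))
      (fun σ e he => map_one _) r 1 hr (by simp) one_ne_zero hζ0 (hS.mul hfy)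
      (by rw [mul_pow, hy]; field_simp)
    intro e he
    obtain ⟨y', hy', hy2⟩ := key e ((hroot e).1 he)
    exact ⟨y', hy', by rw [hy2, mul_one]⟩
  · -- the class of the point of order two
    right
    obtain ⟨hS0, hn1⟩ := near_one w hB
    set κ := ζ E2 * (p * ε2) / S ^ 2 with hκ
    have hwκ : w κ = 1 := w_near w (map_one w) hn1
    have hσE : ∀ σ : Ω' ≃ₐ[L] Ω', ∀ ε ε' : Ω', σ (p * m * ε) = p * m * ε' → σ ε = ε' := by
      intro σ ε ε' h
      rw [map_mul, map_mul, map_natCast, map_intCast] at h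
      exact mul_left_cancel₀ hpm h
    have hσ1 : ∀ σ : Ω' ≃ₐ[L] Ω', σ ε1 = ε1 := fun σ => hσE σ _ _ (by
      rw [← hE1]; exact hcj.fix σ)
    have hf2 : Fx L E2 ε2 := fun σ h => hσE σ _ _ (by rw [← hE2]; exact h)
    have hf3 : Fx L E2 ε3 := fun σ h => by
      have e : ε3 = -(ε1 + ε2) := by linear_combination hsum
      rw [e, map_neg, map_add, hσ1, hf2 σ h]
    have hε3 : w ε3 = 1 := by
      have e : ε3 = -(ε2 + ε1) := by linear_combination hsum
      rw [e, Valuation.map_neg, Valuation.map_add_eq_of_lt_left _ (by rw [hε2]; exact hε1), hε2]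
    have hεd : (ε2 - ε3) ^ 2 = -4 * (a : Ω') - 3 * ε1 ^ 2 := by
      have e : ε3 = -(ε1 + ε2) := by linear_combination hsum
      rw [← hsym, e]
      ring
    have hpa : ¬ (p : ℤ) ∣ a := by
      intro hd
      apply ha
      rw [(ZMod.intCast_zmod_eq_zero_iff_dvd _ _).2 (dvd_neg.2 hd)]
      exact ⟨0, by simp⟩
    have hp4 : ¬ (p : ℤ) ∣ 4 := by
      intro h
      have h4 : (4 : ℤ) = 2 * 2 := by norm_num
      rw [h4] at h
      have hpz : Prime (p : ℤ) := Nat.prime_iff_prime_int.1 hL.pr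
      have h5 : (p : ℤ) ∣ 2 := by
        rcases hpz.dvd_or_dvd h with h | h <;> exact h
      have h6 : p ∣ 2 := by exact_mod_cast h5
      exact hp2 ((Nat.prime_dvd_prime_iff_eq hL.pr Nat.prime_two).1 h6)
    have hw4 : w (4 : Ω') = 1 := by
      have := w_unit w hL hp4
      exact_mod_cast this
    have hwεd : w (ε2 - ε3) = 1 := by
      have h1 : w ((ε2 - ε3) ^ 2) = 1 := by
        rw [hεd]
        refine w_near w (x := -4 * (a : Ω')) ?_ ?_
        · rw [neg_mul, Valuation.map_neg, map_mul, hw4, w_unit w hL hpa, one_mul]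
        · have e : -4 * (a : Ω') - 3 * ε1 ^ 2 - -4 * (a : Ω') = -(((3 : ℤ) : Ω') * ε1 ^ 2) := by
            push_cast; ring
          rw [e, Valuation.map_neg, map_mul, map_pow, mul_comm]
          exact mul_lt_one_of_lt_of_le (pow_lt_one₀ zero_le hε1 two_ne_zero) (u_int w 3)
      rw [map_pow] at h1
      exact (pow_eq_one_iff_of_nonneg zero_le two_ne_zero).1 h1
    have hεd0 : ε2 - ε3 ≠ 0 := by
      intro h
      rw [h, map_zero] at hwεd
      exact zero_ne_one hwεd
    have hwm : w (-(m : Ω')) = 1 := by rw [Valuation.map_neg]; exact w_unit w hL hm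
    -- the square root of `-m`
    obtain ⟨T, hT, hfT, hTm⟩ : ∃ T : Ω', w T = 1 ∧ Fx L E2 T ∧ w (-(m : Ω') - T ^ 2) < 1 := by
      have hint : ∀ {k t : ℤ}, w (k : Ω') = 1 → (k : ZMod p) = t * t →
          w (t : Ω') = 1 ∧ w ((k : Ω') - (t : Ω') ^ 2) < 1 := by
        intro k t hk ht
        have hdv : (p : ℤ) ∣ k - t ^ 2 := by
          rw [← ZMod.intCast_zmod_eq_zero_iff_dvd]
          push_cast
          rw [ht]; ring
        have hta : w ((k : Ω') - (t : Ω') ^ 2) < 1 := by
          have := w_dvd w hL hdv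
          push_cast at this
          exact this
        refine ⟨?_, hta⟩
        have h5 : w ((t : Ω') ^ 2) = 1 := w_near w hk (by rw [Valuation.map_sub_swap]; exact hta)
        rw [map_pow] at h5
        exact (pow_eq_one_iff_of_nonneg zero_le two_ne_zero).1 h5
      by_cases hsq : IsSquare ((-m : ℤ) : ZMod p)
      · obtain ⟨t, ht⟩ := hsq
        obtain ⟨t, rfl⟩ := ZMod.intCast_surjective t
        obtain ⟨h1, h3⟩ := hint (k := -m) (by push_cast; exact hwm) ht
        refine ⟨t, h1, Fx.int t, ?_⟩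
        push_cast at h3
        exact h3
      · obtain ⟨t, ht⟩ := mul_ns (p := p) hp2 hsq ha
        obtain ⟨t, rfl⟩ := ZMod.intCast_surjective t
        have hma : w ((m * a : ℤ) : Ω') = 1 := by
          push_cast
          rw [map_mul, w_unit w hL hm, w_unit w hL hpa, one_mul]
        obtain ⟨h1, h3⟩ := hint (k := m * a) hma (by
          rw [← ht]
          push_cast
          ring)
        have hT1 : w (2 * (t : Ω') / (ε2 - ε3)) = 1 := by
          rw [map_div₀, map_mul, h2, h1, hwεd, one_mul, div_one]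
        refine ⟨2 * (t : Ω') / (ε2 - ε3), hT1, ?_, ?_⟩
        · have h20 : Fx L E2 (2 : Ω') := fun σ h => map_ofNat σ 2
          exact (h20.mul (Fx.int t)).div (hf2.sub hf3)
        · have e : -(m : Ω') - (2 * (t : Ω') / (ε2 - ε3)) ^ 2 =
              (4 * (((m * a : ℤ) : Ω') - (t : Ω') ^ 2) + ((3 * m : ℤ) : Ω') * ε1 ^ 2) /
                (ε2 - ε3) ^ 2 := by
            rw [div_pow, eq_div_iff (pow_ne_zero 2 hεd0), sub_mul, div_mul_cancel₀ _
              (pow_ne_zero 2 hεd0), hεd]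
            push_cast
            ring
          rw [e, map_div₀, map_pow, hwεd, one_pow, div_one]
          refine Valuation.map_add_lt _ ?_ ?_
          · rw [map_mul, hw4, one_mul]
            exact h3
          · rw [map_mul, map_pow, mul_comm]
            exact mul_lt_one_of_lt_of_le (pow_lt_one₀ zero_le hε1 two_ne_zero) (u_int w _)
    set D2 := E1 - E2 with hD2
    have hD2e : D2 = p * m * (ε1 - ε2) := by rw [hD2, hE1, hE2]; ring
    have hw12 : w (ε1 - ε2) = 1 := by
      have e : ε1 - ε2 = -(ε2 - ε1) := by ring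
      rw [e, Valuation.map_neg, Valuation.map_sub_eq_of_lt_left _ (by rw [hε2]; exact hε1), hε2]
    have h120 : ε1 - ε2 ≠ 0 := by
      intro h
      rw [h, map_zero] at hw12
      exact zero_ne_one hw12
    have hD20 : D2 ≠ 0 := by
      rw [hD2e]
      exact mul_ne_zero hpm h120
    set u := κ * (m * (ε1 - ε2) / ε2) with hu
    have hufx : Fx L E2 u := by
      have h1 : Fx L E2 ε1 := fun σ _ => hσ1 σ
      exact ((hfζ.mul ((Fx.nat p).mul hf2)).div (hS.pow 2)).mul
        (((Fx.int m).mul (h1.sub hf2)).div hf2)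
    have hum : w (u - -(m : Ω')) < 1 := by
      have e : u - -(m : Ω') = (κ - 1) * (m * (ε1 - ε2) / ε2) + m * (ε1 / ε2) := by
        rw [hu]
        field_simp
        ring
      rw [e]
      refine Valuation.map_add_lt _ ?_ ?_
      · rw [map_mul, map_div₀, map_mul, w_unit w hL hm, hw12, hε2, one_mul, div_one, mul_one]
        exact hn1
      · rw [map_mul, map_div₀, w_unit w hL hm, hε2, one_mul, div_one]
        exact hε1
    obtain ⟨y, hy, -, hyσ⟩ := sqrt_fix (L := L) w hσ h2 (u := u) (S := T) hT (by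
      have e : u - T ^ 2 = (u - -(m : Ω')) + (-(m : Ω') - T ^ 2) := by ring
      rw [e]
      exact Valuation.map_add_lt _ hum hTm)
    have hfy : Fx L E2 y := fun σ h => hyσ σ (hufx σ h) (hfT σ h)
    have h3ne : E1 ≠ E3 := by
      intro h
      rw [hE1, hE3] at h
      have h5 := mul_left_cancel₀ hpm h
      rw [h5, hε3] at hε1
      exact lt_irrefl _ hε1
    have h2ne : E1 ≠ E2 := sub_ne_zero.1 hD20
    obtain ⟨X, hX⟩ := mem_of_fixed (L := L) (x := E1) hcj.fix
    obtain ⟨Y, hY⟩ := mem_of_fixed (L := L) (x := cub' V E1) (fun σ => by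
      rw [hCσ, hcj.fix])
    have hY0 : Y ≠ 0 := by
      rintro rfl
      rw [map_zero, hC'] at hY
      rcases mul_eq_zero.1 hY.symm with h | h
      · exact h2ne (sub_eq_zero.1 h)
      · exact h3ne (sub_eq_zero.1 h)
    have hf2D : Fx L E2 D2 := by
      have h1 : Fx L E2 E1 := fun σ _ => hcj.fix σ
      exact h1.sub Fx.self
    have key := norm_trick hcj ζ (fun e => if e = E1 then cub' V E1 else E1 - e)
      (fun σ e he => hζσ σ e ((hroot e).2 he))
      (fun σ e he => by
        by_cases h : e = E1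
        · subst h
          show σ (if e = e then cub' V e else e - e) = if σ e = e then cub' V e else e - σ e
          rw [if_pos rfl, hcj.fix σ, if_pos rfl, hCσ, hcj.fix σ]
        · have h5 : σ e ≠ E1 := by
            intro h6
            apply h
            have h7 := congrArg σ.symm h6
            rw [σ.symm_apply_apply] at h7
            rw [h7]
            exact (AlgEquiv.symm_apply_eq σ).2 (hcj.fix σ).symm
          show σ (if e = E1 then cub' V E1 else E1 - e) = if σ e = E1 then cub' V E1 else E1 - σ e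
          rw [if_neg h, if_neg h5, map_sub, hcj.fix]) r Y hr (by
        show (if E1 = E1 then cub' V E1 else E1 - E1) * (if E2 = E1 then cub' V E1 else E1 - E2) *
          (if E3 = E1 then cub' V E1 else E1 - E3) = _
        rw [if_pos rfl, if_neg h2ne.symm, if_neg h3ne.symm, hY, hC']
        ring) hY0 hζ0 (y2 := S * y / D2) ((hS.mul hfy).div hf2D)
      (by
        show ζ E2 = (S * y / D2) ^ 2 * (if E2 = E1 then cub' V E1 else E1 - E2)
        rw [if_neg h2ne.symm, ← hD2, div_pow, mul_pow, hy, hu, hκ, hD2e]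
        field_simp)
    refine ⟨X, 0, ?_, fun e he => ?_⟩
    · apply (algebraMap L Ω').injective
      rw [hCL, hX, hz1, map_pow, map_zero]
      ring
    · obtain ⟨y', hy', hy2⟩ := key e ((hroot e).1 he)
      by_cases h : e = E1
      · subst h
        refine ⟨y', cub' V e, hy', ?_, Or.inl ⟨hX, rfl⟩⟩
        rw [hy2]
        show y' ^ 2 * (if e = e then cub' V e else e - e) = _
        rw [if_pos rfl]
      · refine ⟨y', algebraMap L Ω' X - e, hy', ?_, Or.inr ⟨?_, rfl⟩⟩
        · rw [hy2]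
          show y' ^ 2 * (if e = E1 then cub' V E1 else E1 - e) = _
          rw [if_neg h, hX]
        · rw [hX]
          exact fun h' => h h'.symm

end loc

end Pool.Agent.Helper29L.LOW
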