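import Pool.Agent.Helper29L.LOW5

/-!
# Job LOW: the places over the discriminant
-/

set_option autoImplicit false
set_option linter.all false

open NumberField IsDedekindDomain WithZero WeierstrassCurve WeierstrassCurve.Affine
open scoped NNReal Classical

namespace Pool.Agent.Helper29L.LOW

open Pool.Agent
open Pool.Agent.TH115.GD
open Pool.Agent.Y710.CV (Cond cond1 cond2)
open Pool.Agent.Y702.G (sh base pts)
open Pool.Agent.R425 (sqrt_fix mem_of_fixed exists_data)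
open Pool.Agent.R425.G
open Pool.Agent.N922.PQ (IsCub Ov IsPr Loc2 PL2)
open Pool.Agent.N874.PP (Ev Sq1 U0)
open Pool.Agent.Helper29K (InFamily)
open Pool.Agent.Helper29L

section cjs

variable {L Ω' : Type} [Field L] [Field Ω'] [Algebra L Ω'] [Algebra ℚ L] [Algebra ℚ Ω']
  [IsScalarTower ℚ L Ω'] {V : WeierstrassCurve ℚ} {e1 e2 e3 : Ω'}

theorem root_map {x : Ω'} (σ : Ω' ≃ₐ[L] Ω') (hx : cub V x = 0) : cub V (σ x) = 0 := by
  have := cub_map V (rs ℚ σ) x
  rw [hx, map_zero] at this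
  exact this

/-- a fixed root and two conjugate roots -/
theorem cj_of (hC : IsC (V.baseChange Ω').toAffine e1 e2 e3) (hfix : ∀ σ : Ω' ≃ₐ[L] Ω', σ e1 = e1)
    (hex : ¬ ∀ σ : Ω' ≃ₐ[L] Ω', σ e2 = e2 ∧ σ e3 = e3) : Cj L e1 e2 e3 := by
  have hperm : ∀ σ : Ω' ≃ₐ[L] Ω', (σ e2 = e2 ∧ σ e3 = e3) ∨ (σ e2 = e3 ∧ σ e3 = e2) := by
    intro σ
    have h2 := hC.root (root_map σ hC.root_b)
    have h3 := hC.root (root_map σ hC.root_c)
    have n12 : σ e2 ≠ e1 := fun h => hC.ab (σ.injective (by rw [hfix, h]))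
    have n13 : σ e3 ≠ e1 := fun h => hC.ac (σ.injective (by rw [hfix, h]))
    have n23 : σ e2 ≠ σ e3 := fun h => hC.bc (σ.injective h)
    rcases h2 with h2 | h2 | h2
    · exact absurd h2 n12
    · rcases h3 with h3 | h3 | h3
      · exact absurd h3 n13
      · exact absurd (h2.trans h3.symm) n23
      · exact Or.inl ⟨h2, h3⟩
    · rcases h3 with h3 | h3 | h3
      · exact absurd h3 n13
      · exact Or.inr ⟨h2, h3⟩
      · exact absurd (h2.trans h3.symm) n23
  refine ⟨hfix, hperm, ?_⟩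
  push Not at hex
  obtain ⟨σ, hσ⟩ := hex
  refine ⟨σ, ?_⟩
  rcases hperm σ with ⟨h2, h3⟩ | ⟨h2, -⟩
  · exact absurd h3 (hσ h2)
  · exact h2

variable {A : Type} [Field A] [NumberField A] {θ : A}

theorem em_fx (h : CF V A θ) (e : Rt V Ω') (z : A) : Fx L e.1 (em h e z) := fun σ hσ => by
  rw [em_equi]
  congr 1
  congr 1
  exact Subtype.ext hσ

end cjs

section odd

variable {L Ω' : Type} [Field L] [Field Ω'] [Algebra L Ω'] [IsAlgClosed Ω'] [IsGalois L Ω']
  [CharZero Ω'] [Algebra ℚ L] [Algebra ℚ Ω'] [IsScalarTower ℚ L Ω'] (w : Valuation Ω' ℝ≥0)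
  (hσ : ∀ (σ : Ω' ≃ₐ[L] Ω') (x : Ω'), w (σ x) = w x) {p : ℕ}
  (hL : LD (w.comap (algebraMap L Ω')) p)
  {A : Type} [Field A] [NumberField A] {a b d : ℤ} {θ : A}

include hσ hL in
/-- a prime that divides the discriminant once, two roots being close -/
theorem cond_ram_aux (h : IsCub a b θ) (hsf : Squarefree (Pool.Agent.N922.PQ.dsc a b)) (hd : d ≠ 0)
    (hp5 : 5 ≤ p) (hpd : ¬ (p : ℤ) ∣ d) (hdsc : (p : ℤ) ∣ Pool.Agent.N922.PQ.dsc a b)
    {z : A} (hz : z ≠ 0) {r : ℚ} (hr : Algebra.norm ℚ z = r ^ 2)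
    (hev : ∀ 𝔓 : HeightOneSpectrum (𝓞 A), Ov (p : ℤ) 𝔓 → Ev 𝔓 z) {e1 e2 e3 : Ω'}
    (hC : IsC ((sh (Wt a b d)).baseChange Ω').toAffine e1 e2 e3) (hlt : w (e2 - e3) < 1) :
    Cond L Ω' (sh (Wt a b d)) (4 * d * θ) z := by
  have hpr := hL.pr
  have hpZ : Prime (p : ℤ) := Nat.prime_iff_prime_int.1 hpr
  have h2p : ¬ (p : ℤ) ∣ 2 := by
    intro hh
    have h6 : p ∣ 2 := by exact_mod_cast hh
    have := Nat.le_of_dvd (by norm_num) h6
    omega
  have h3p : ¬ (p : ℤ) ∣ 3 := by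
    intro hh
    have h6 : p ∣ 3 := by exact_mod_cast hh
    have := Nat.le_of_dvd (by norm_num) h6
    omega
  have h2 : w (2 : Ω') = 1 := by
    have := w_unit w hL h2p
    exact_mod_cast this
  have h3 : w (3 : Ω') = 1 := by
    have := w_unit w hL h3p
    exact_mod_cast this
  have hdw := w_unit w hL hpd
  have hds0 : Pool.Agent.N922.PQ.dsc a b ≠ 0 := hsf.ne_zero
  have hW : (Wt a b d).Δ ≠ 0 := by
    rw [Wt_disc]
    exact mul_ne_zero (mul_ne_zero (by norm_num) (pow_ne_zero 6 hd)) hds0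
  have hV := iv_sh (Wt a b d) hW
  have hcf := cf_of h hd
  -- the bounds
  have w1 := w_rt w hC.root_a
  have w2 := w_rt w hC.root_b
  have w3 := w_rt w hC.root_c
  -- the symmetric functions
  have hs1 : e1 + e2 + e3 = 0 := by
    have h5 := hC.e2
    have c2 : algebraMap ℚ Ω' (sh (Wt a b d)).a₂ = 0 := by
      show algebraMap ℚ Ω' (((Wt a b d).b₂ : ℤ) : ℚ) = _
      rw [Wt_b2]
      simp
    rw [c2] at h5
    linear_combination h5
  have hs2 : e1 * e2 + e1 * e3 + e2 * e3 = ((16 * a * d ^ 2 : ℤ) : Ω') := by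
    have h5 := hC.e4
    have c4 : algebraMap ℚ Ω' (sh (Wt a b d)).a₄ = ((16 * a * d ^ 2 : ℤ) : Ω') := by
      show algebraMap ℚ Ω' (8 * (((Wt a b d).b₄ : ℤ) : ℚ)) = _
      rw [Wt_b4]
      push_cast
      simp only [map_mul, map_pow, map_intCast, map_ofNat]
      ring
    rw [c4] at h5
    exact h5.symm
  have hs3 : e1 * e2 * e3 = -((64 * b * d ^ 3 : ℤ) : Ω') := by
    have h5 := hC.e6
    have c6 : algebraMap ℚ Ω' (sh (Wt a b d)).a₆ = ((64 * b * d ^ 3 : ℤ) : Ω') := by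
      show algebraMap ℚ Ω' (16 * (((Wt a b d).b₆ : ℤ) : ℚ)) = _
      rw [Wt_b6]
      push_cast
      simp only [map_mul, map_pow, map_intCast, map_ofNat]
      ring
    rw [c6] at h5
    linear_combination h5
  -- the three roots are not all close
  have hnot : ¬ w (e1 - e2) < 1 := by
    intro h12
    have h13 : w (e1 - e3) < 1 := by
      have e : e1 - e3 = (e1 - e2) + (e2 - e3) := by ring
      rw [e]
      exact Valuation.map_add_lt _ h12 hlt
    have h1 : w e1 < 1 := by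
      have e : 3 * e1 = (e1 - e2) + (e1 - e3) := by linear_combination hs1
      have h5 : w (3 * e1) < 1 := by
        rw [e]
        exact Valuation.map_add_lt _ h12 h13
      rwa [map_mul, h3, one_mul] at h5
    have h2' : w e2 < 1 := by
      have e : e2 = e1 - (e1 - e2) := by ring
      rw [e]
      exact (Valuation.map_sub _ _ _).trans_lt (max_lt h1 h12)
    have h3' : w e3 < 1 := by
      have e : e3 = e1 - (e1 - e3) := by ring
      rw [e]
      exact (Valuation.map_sub _ _ _).trans_lt (max_lt h1 h13)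
    have ha : (p : ℤ) ∣ 16 * a * d ^ 2 := by
      rw [← w_lt_iff w hL, ← hs2]
      refine Valuation.map_add_lt _ (Valuation.map_add_lt _ ?_ ?_) ?_
      · rw [map_mul]; exact mul_lt_one_of_lt_of_le h1 h2'.le
      · rw [map_mul]; exact mul_lt_one_of_lt_of_le h1 h3'.le
      · rw [map_mul]; exact mul_lt_one_of_lt_of_le h2' h3'.le
    have hb : (p : ℤ) ∣ 64 * b * d ^ 3 := by
      rw [← w_lt_iff w hL, ← Valuation.map_neg, ← hs3, map_mul, map_mul]
      exact mul_lt_one_of_lt_of_le (mul_lt_one_of_lt_of_le h1 h2'.le) h3'.le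
    have ha' : (p : ℤ) ∣ a := by
      have e : (16 * a * d ^ 2 : ℤ) = 2 ^ 4 * a * d ^ 2 := by ring
      rw [e] at ha
      rcases hpZ.dvd_or_dvd ha with h5 | h5
      · rcases hpZ.dvd_or_dvd h5 with h6 | h6
        · exact absurd (hpZ.dvd_of_dvd_pow h6) h2p
        · exact h6
      · exact absurd (hpZ.dvd_of_dvd_pow h5) hpd
    have hb' : (p : ℤ) ∣ b := by
      have e : (64 * b * d ^ 3 : ℤ) = 2 ^ 6 * b * d ^ 3 := by ring
      rw [e] at hb
      rcases hpZ.dvd_or_dvd hb with h5 | h5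
      · rcases hpZ.dvd_or_dvd h5 with h6 | h6
        · exact absurd (hpZ.dvd_of_dvd_pow h6) h2p
        · exact h6
      · exact absurd (hpZ.dvd_of_dvd_pow h5) hpd
    obtain ⟨a', rfl⟩ := ha'
    obtain ⟨b', rfl⟩ := hb'
    have hdd : (p : ℤ) * p ∣ Pool.Agent.N922.PQ.dsc (p * a') (p * b') := by
      refine ⟨4 * p * a' ^ 3 + 27 * b' ^ 2, ?_⟩
      unfold Pool.Agent.N922.PQ.dsc
      ring
    exact hpZ.not_unit (hsf _ hdd)
  have d12 : w (e1 - e2) = 1 :=
    le_antisymm ((Valuation.map_sub _ _ _).trans (max_le w1 w2)) (not_lt.1 hnot)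
  have d13 : w (e1 - e3) = 1 := by
    have e : e1 - e3 = (e1 - e2) + (e2 - e3) := by ring
    rw [e, Valuation.map_add_eq_of_lt_left _ (by rw [d12]; exact hlt), d12]
  -- the discriminant
  obtain ⟨k, hk⟩ := hdsc
  have hpk : ¬ (p : ℤ) ∣ k := by
    rintro ⟨k', rfl⟩
    have hdd : (p : ℤ) * p ∣ Pool.Agent.N922.PQ.dsc a b := ⟨k', by rw [hk]; ring⟩
    exact hpZ.not_unit (hsf _ hdd)
  have hodd : ∃ m : ℤ, w (e2 - e3) ^ 2 = w (p : Ω') ^ (2 * m + 1) := by
    refine ⟨0, ?_⟩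
    have hdi := congrArg w (disc_sh hC)
    rw [Wt_disc, hk, map_mul, map_mul, map_pow, map_pow, map_pow, d12, d13, one_pow, one_mul,
      one_mul] at hdi
    rw [hdi]
    have e : (256 * ((-16 * d ^ 6 * (p * k) : ℤ) : Ω')) = -(2 ^ 12 * ((d : ℤ) : Ω') ^ 6 * (k : Ω') * p) := by
      push_cast; ring
    rw [e, Valuation.map_neg, map_mul, map_mul, map_mul, map_pow, map_pow, h2, hdw,
      w_unit w hL hpk]
    simp
  -- the conjugates
  have hroot : ∀ σ : Ω' ≃ₐ[L] Ω', σ e1 = e1 := by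
    intro σ
    have r1 := hC.root (root_map σ hC.root_a)
    have r2 := hC.root (root_map σ hC.root_b)
    have r3 := hC.root (root_map σ hC.root_c)
    have n12 : σ e1 ≠ σ e2 := fun h => hC.ab (σ.injective h)
    have n13 : σ e1 ≠ σ e3 := fun h => hC.ac (σ.injective h)
    have n23 : σ e2 ≠ σ e3 := fun h => hC.bc (σ.injective h)
    have hs : w (σ e2 - σ e3) < 1 := by rw [← map_sub, hσ]; exact hlt
    have d12' : w (e2 - e1) = 1 := by rw [Valuation.map_sub_swap]; exact d12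
    have d13' : w (e3 - e1) = 1 := by rw [Valuation.map_sub_swap]; exact d13
    rcases r1 with r1 | r1 | r1
    · exact r1
    · exfalso
      rcases r2 with r2 | r2 | r2
      · rcases r3 with r3 | r3 | r3
        · exact n23 (r2.trans r3.symm)
        · exact n13 (r1.trans r3.symm)
        · rw [r2, r3] at hs; exact hs.ne d13
      · exact n12 (r1.trans r2.symm)
      · rcases r3 with r3 | r3 | r3
        · rw [r2, r3] at hs; exact hs.ne d13'
        · exact n13 (r1.trans r3.symm)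
        · exact n23 (r2.trans r3.symm)
    · exfalso
      rcases r2 with r2 | r2 | r2
      · rcases r3 with r3 | r3 | r3
        · exact n23 (r2.trans r3.symm)
        · rw [r2, r3] at hs; exact hs.ne d12
        · exact n13 (r1.trans r3.symm)
      · rcases r3 with r3 | r3 | r3
        · rw [r2, r3] at hs; exact hs.ne d12'
        · exact n23 (r2.trans r3.symm)
        · exact n13 (r1.trans r3.symm)
      · exact n12 (r1.trans r2.symm)
  have hwp0 := (w_alg w hL).2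
  have hwp1 := (w_alg w hL).1
  have hcj : Cj L e1 e2 e3 := by
    refine cj_of hC hroot fun hall => ?_
    obtain ⟨l, hl⟩ := mem_of_fixed (L := L) (x := e2 - e3) (fun σ => by
      rw [map_sub, (hall σ).1, (hall σ).2])
    have hl0 : l ≠ 0 := by
      rintro rfl
      rw [map_zero] at hl
      exact hC.bc (sub_eq_zero.1 hl.symm)
    obtain ⟨n, hn⟩ := hL.disc l hl0
    rw [Valuation.comap_apply, Valuation.comap_apply, map_natCast, hl] at hn
    obtain ⟨m, hm⟩ := hodd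
    rw [hn, ← zpow_natCast, ← zpow_mul] at hm
    have h5 : w (p : Ω') ^ (n * ((2 : ℕ) : ℤ) - (2 * m + 1)) = 1 := by
      rw [zpow_sub₀ hwp0, hm, div_self (zpow_ne_zero _ hwp0)]
    have h6 : (n * ((2 : ℕ) : ℤ) - (2 * m + 1)) = 0 := by
      by_contra h7
      rcases lt_or_gt_of_ne h7 with h8 | h8
      · have := one_lt_zpow_of_neg₀ (pos_of_ne_zero hwp0) hwp1 h8
        rw [h5] at this
        exact lt_irrefl _ this
      · have := zpow_lt_one₀ (pos_of_ne_zero hwp0) hwp1 h8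
        rw [h5] at this
        exact lt_irrefl _ this
    push_cast at h6
    omega
  -- the element
  set φ : A →+* Ω' := (em hcf (⟨e2, hC.root_b⟩ : Rt (sh (Wt a b d)) Ω') : A →+* Ω') with hφ
  have hζe : zf hcf z e2 = φ z := zf_root hcf z ⟨e2, hC.root_b⟩
  obtain ⟨y, hy0, hy⟩ := plc_ev w φ hpr.ne_zero hwp1 hz (hev _ (by
    show ((p : ℤ) : 𝓞 A) ∈ _
    have := q_mem_plc w φ hpr.ne_zero hwp1
    exact_mod_cast this))
  have hnorm := norm_em hcf hC z
  rw [← zf_root hcf z ⟨e1, hC.root_a⟩, ← zf_root hcf z ⟨e2, hC.root_b⟩,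
    ← zf_root hcf z ⟨e3, hC.root_c⟩, hr, map_pow, IsScalarTower.algebraMap_apply ℚ L Ω'] at hnorm
  refine cond_of_out hcf hV ?_
  refine ram w hσ hL hp5 h2 hC.cub_eq (fun x => ?_) w1 w2 d12 hcj hlt hodd
    (fun e => zf hcf z e) (fun σ e he => zf_equi hcf z σ he) ?_ (s := φ y) ?_ ?_
    (algebraMap ℚ L r) hnorm.symm
  · exact (cub_map (sh (Wt a b d)) (incl ℚ L Ω') x).symm
  · show zf hcf z e2 ≠ 0
    rw [hζe]
    exact (_root_.map_ne_zero φ).2 hz
  · exact em_fx hcf (⟨e2, hC.root_b⟩ : Rt (sh (Wt a b d)) Ω') y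
  · show w (zf hcf z e2) = _
    rw [hζe]
    exact hy

include hσ hL in
/-- a prime that divides the discriminant once -/
theorem cond_ram (h : IsCub a b θ) (hsf : Squarefree (Pool.Agent.N922.PQ.dsc a b)) (hd : d ≠ 0)
    (hp5 : 5 ≤ p) (hpd : ¬ (p : ℤ) ∣ d) (hdsc : (p : ℤ) ∣ Pool.Agent.N922.PQ.dsc a b)
    {z : A} (hz : z ≠ 0) {r : ℚ} (hr : Algebra.norm ℚ z = r ^ 2)
    (hev : ∀ 𝔓 : HeightOneSpectrum (𝓞 A), Ov (p : ℤ) 𝔓 → Ev 𝔓 z) :
    Cond L Ω' (sh (Wt a b d)) (4 * d * θ) z := by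
  have hW : (Wt a b d).Δ ≠ 0 := by
    rw [Wt_disc]
    exact mul_ne_zero (mul_ne_zero (by norm_num) (pow_ne_zero 6 hd)) hsf.ne_zero
  have hV := iv_sh (Wt a b d) hW
  obtain ⟨e1, e2, e3, hC⟩ := Y355.G.V_roots hV.a1 hV.a3 hV.Δ Ω'
  have aux := fun {x1 x2 x3 : Ω'} (hC : IsC ((sh (Wt a b d)).baseChange Ω').toAffine x1 x2 x3) hlt =>
    cond_ram_aux w hσ hL h hsf hd hp5 hpd hdsc hz hr hev hC hlt
  by_cases h23 : w (e2 - e3) < 1
  · exact aux hC h23
  by_cases h31 : w (e3 - e1) < 1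
  · exact aux hC.rot h31
  by_cases h12 : w (e1 - e2) < 1
  · exact aux hC.rot.rot h12
  exfalso
  rw [not_lt] at h23 h31 h12
  rw [Valuation.map_sub_swap] at h31
  have hdi := congrArg w (disc_sh hC)
  rw [map_mul, map_mul, map_pow, map_pow, map_pow] at hdi
  have h5 : 1 ≤ w (256 * ((Wt a b d).Δ : Ω')) := by
    rw [← hdi]
    exact one_le_mul (one_le_mul (one_le_pow₀ h12) (one_le_pow₀ h31)) (one_le_pow₀ h23)
  have h6 : w (256 * ((Wt a b d).Δ : Ω')) < 1 := by
    obtain ⟨k, hk⟩ := hdsc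
    have e : (256 * ((Wt a b d).Δ : Ω')) = ((p * (256 * (-16 * d ^ 6 * k)) : ℤ) : Ω') := by
      rw [Wt_disc, hk]; push_cast; ring
    rw [e]
    exact w_dvd w hL ⟨_, rfl⟩
  exact absurd h5 (not_le.2 h6)

end odd

end Pool.Agent.Helper29L.LOW
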