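import Pool.Agent.Helper29L.LOW6

/-!
# Job LOW: the places over `Q`
-/

set_option autoImplicit false
set_option linter.all false

open NumberField IsDedekindDomain WithZero WeierstrassCurve WeierstrassCurve.Affine
open scoped NNReal Classical

namespace Pool.Agent.Helper29L.LOW

open Pool.Agent
open Pool.Agent.TH115.GD
open Pool.Agent.Y710.CV (Cond cond1 cond2)
open Pool.Agent.Y702.G (sh base pts)
open Pool.Agent.R425 (sqrt_fix mem_of_fixed exists_data)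
open Pool.Agent.R425.G
open Pool.Agent.N922.PQ (IsCub Ov IsPr Loc2 PL2)
open Pool.Agent.N874.PP (Ev Sq1 U0)
open Pool.Agent.Helper29K (InFamily)
open Pool.Agent.Helper29L

section odd

variable {L Ω' : Type} [Field L] [Field Ω'] [Algebra L Ω'] [IsAlgClosed Ω'] [IsGalois L Ω']
  [CharZero Ω'] [Algebra ℚ L] [Algebra ℚ Ω'] [IsScalarTower ℚ L Ω'] (w : Valuation Ω' ℝ≥0)
  (hσ : ∀ (σ : Ω' ≃ₐ[L] Ω') (x : Ω'), w (σ x) = w x) {p : ℕ}
  (hL : LD (w.comap (algebraMap L Ω')) p)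
  {A : Type} [Field A] [NumberField A] {a b d : ℤ} {θ : A}

omit [NumberField A] in
theorem int_th [CharZero A] (h : IsCub a b θ) : _root_.IsIntegral ℤ θ := by
  refine ⟨Polynomial.X ^ 3 + Polynomial.C a * Polynomial.X + Polynomial.C b, by monicity!, ?_⟩
  rw [Polynomial.eval₂_add, Polynomial.eval₂_add, Polynomial.eval₂_mul, Polynomial.eval₂_pow,
    Polynomial.eval₂_X, Polynomial.eval₂_C, Polynomial.eval₂_C]
  simpa using h.root

include hσ hL in
/-- a prime of the type, the first root being small -/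
theorem cond_unr_aux (h : IsCub a b θ) (hds0 : Pool.Agent.N922.PQ.dsc a b ≠ 0) (hp2 : p ≠ 2)
    {d' : ℤ} (hdd : d = p * d') (hd' : ¬ (p : ℤ) ∣ d')
    (hna : ∀ x : ℤ, ¬ (p : ℤ) ∣ x ^ 2 + a)
    {z : A} (hz : z ≠ 0) {r : ℚ} (hr : Algebra.norm ℚ z = r ^ 2)
    (hu0 : ∀ 𝔓 : HeightOneSpectrum (𝓞 A), Ov (p : ℤ) 𝔓 → 𝔓.valuation A θ = 1 →
      U0 𝔓 (((p : ℤ) : A) * θ) z) {E1 E2 E3 : Ω'}
    (hC : IsC ((sh (Wt a b d)).baseChange Ω').toAffine E1 E2 E3)
    (hlt : w (E1 / (4 * d)) < 1) :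
    Cond L Ω' (sh (Wt a b d)) (4 * d * θ) z := by
  have hpr := hL.pr
  haveI : Fact p.Prime := ⟨hpr⟩
  have hpZ : Prime (p : ℤ) := Nat.prime_iff_prime_int.1 hpr
  have h2p : ¬ (p : ℤ) ∣ 2 := by
    intro hh
    have h6 : p ∣ 2 := by exact_mod_cast hh
    exact hp2 ((Nat.prime_dvd_prime_iff_eq hpr Nat.prime_two).1 h6)
  have h2 : w (2 : Ω') = 1 := by
    have := w_unit w hL h2p
    exact_mod_cast this
  have hd0 : d' ≠ 0 := by
    rintro rfl
    exact hd' (dvd_zero _)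
  have hd : d ≠ 0 := by
    rw [hdd]
    exact mul_ne_zero (by exact_mod_cast hpr.ne_zero) hd0
  have hdΩ : (d : Ω') ≠ 0 := by exact_mod_cast hd
  have h4d : (4 * d : Ω') ≠ 0 := mul_ne_zero (by norm_num) hdΩ
  have hW : (Wt a b d).Δ ≠ 0 := by
    rw [Wt_disc]
    exact mul_ne_zero (mul_ne_zero (by norm_num) (pow_ne_zero 6 hd)) hds0
  have hV := iv_sh (Wt a b d) hW
  have hcf := cf_of h hd
  have hwp0 := (w_alg w hL).2
  have hwp1 := (w_alg w hL).1
  -- the normalised roots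
  set ε1 := E1 / (4 * d : Ω') with hε1
  set ε2 := E2 / (4 * d : Ω') with hε2
  set ε3 := E3 / (4 * d : Ω') with hε3
  have g1 : E1 = 4 * d * ε1 := by rw [hε1]; field_simp
  have g2 : E2 = 4 * d * ε2 := by rw [hε2]; field_simp
  have g3 : E3 = 4 * d * ε3 := by rw [hε3]; field_simp
  have hs1 : ε1 + ε2 + ε3 = 0 := by
    have h5 := hC.e2
    have c2 : algebraMap ℚ Ω' (sh (Wt a b d)).a₂ = 0 := by
      show algebraMap ℚ Ω' (((Wt a b d).b₂ : ℤ) : ℚ) = _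
      rw [Wt_b2]
      simp
    rw [c2, g1, g2, g3] at h5
    have h6 : (4 * d : Ω') * (ε1 + ε2 + ε3) = 0 := by linear_combination h5
    exact (mul_eq_zero.1 h6).resolve_left h4d
  have hs2 : ε1 * ε2 + ε1 * ε3 + ε2 * ε3 = (a : Ω') := by
    have h5 := hC.e4
    have c4 : algebraMap ℚ Ω' (sh (Wt a b d)).a₄ = 16 * a * d ^ 2 := by
      show algebraMap ℚ Ω' (8 * (((Wt a b d).b₄ : ℤ) : ℚ)) = _
      rw [Wt_b4]
      push_cast
      simp only [map_mul, map_pow, map_intCast, map_ofNat]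
      ring
    rw [c4, g1, g2, g3] at h5
    have h6 : (4 * d : Ω') ^ 2 * (ε1 * ε2 + ε1 * ε3 + ε2 * ε3) = (4 * d : Ω') ^ 2 * a := by
      linear_combination -h5
    exact mul_left_cancel₀ (pow_ne_zero 2 h4d) h6
  have wε : ∀ {E : Ω'} (hE : cub (sh (Wt a b d)) E = 0), w (E / (4 * d)) ≤ 1 := by
    intro E hE
    have h5 : (em hcf (⟨E, hE⟩ : Rt (sh (Wt a b d)) Ω')) θ = E / (4 * d) := by
      have h6 := em_root hcf (⟨E, hE⟩ : Rt (sh (Wt a b d)) Ω')
      rw [map_mul, map_mul, map_ofNat, map_intCast] at h6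
      rw [eq_div_iff h4d, mul_comm]
      exact h6
    have hint : _root_.IsIntegral ℤ θ := int_th h
    have h7 := int_w w ((em hcf (⟨E, hE⟩ : Rt (sh (Wt a b d)) Ω')) : A →+* Ω') (⟨θ, hint⟩ : 𝓞 A)
    rw [← h5]
    exact h7
  have hpa : ¬ (p : ℤ) ∣ a := by
    have := hna 0
    simpa using this
  have hwa := w_unit w hL hpa
  have wε2 : w ε2 ≤ 1 := wε hC.root_b
  have wε3 : w ε3 ≤ 1 := wε hC.root_c
  have hprod : w (ε2 * ε3) = 1 := by
    refine w_near w (x := (a : Ω')) hwa ?_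
    have e : ε2 * ε3 - (a : Ω') = -(ε1 * (ε2 + ε3)) := by linear_combination hs2
    rw [e, Valuation.map_neg, map_mul]
    exact mul_lt_one_of_lt_of_le hlt ((Valuation.map_add _ _ _).trans (max_le wε2 wε3))
  rw [map_mul] at hprod
  have w2 : w ε2 = 1 := one_of_mul wε2 wε3 hprod
  have w3 : w ε3 = 1 := one_of_mul wε3 wε2 (by rw [mul_comm]; exact hprod)
  -- the conjugates
  have hσd : ∀ (σ : Ω' ≃ₐ[L] Ω') (E : Ω'), w (σ E / (4 * d)) = w (E / (4 * d)) := by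
    intro σ E
    rw [map_div₀, map_div₀, hσ]
  have hroot : ∀ σ : Ω' ≃ₐ[L] Ω', σ E1 = E1 := by
    intro σ
    rcases hC.root (root_map σ hC.root_a) with r1 | r1 | r1
    · exact r1
    · exfalso
      have h5 := hσd σ E1
      rw [r1] at h5
      have h6 : w ε2 = w ε1 := h5
      rw [w2] at h6
      exact absurd hlt (by rw [← h6]; exact lt_irrefl _)
    · exfalso
      have h5 := hσd σ E1
      rw [r1] at h5
      have h6 : w ε3 = w ε1 := h5
      rw [w3] at h6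
      exact absurd hlt (by rw [← h6]; exact lt_irrefl _)
  have hεd : (ε2 - ε3) ^ 2 = -4 * (a : Ω') - 3 * ε1 ^ 2 := by
    have e : ε3 = -(ε1 + ε2) := by linear_combination hs1
    rw [← hs2, e]
    ring
  have hcj : Cj L E1 E2 E3 := by
    refine cj_of hC hroot fun hall => ?_
    have hε : ∀ σ : Ω' ≃ₐ[L] Ω', σ ε2 = ε2 ∧ σ ε3 = ε3 := by
      intro σ
      rw [hε2, hε3, map_div₀, map_div₀, (hall σ).1, (hall σ).2, map_mul, map_ofNat, map_intCast]
      exact ⟨rfl, rfl⟩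
    obtain ⟨l, hl⟩ := mem_of_fixed (L := L) (x := (ε2 - ε3) / 2) (fun σ => by
      rw [map_div₀, map_sub, (hε σ).1, (hε σ).2, map_ofNat])
    obtain ⟨t, ht⟩ := near_L w hL (x := l) (by
      rw [hl, map_div₀, h2, div_one]
      exact (Valuation.map_sub _ _ _).trans (max_le wε2 wε3))
    rw [hl] at ht
    apply hna t
    rw [← w_lt_iff w hL]
    have e : ((t ^ 2 + a : ℤ) : Ω') = -((ε2 - ε3) / 2 - t) * ((ε2 - ε3) / 2 + t) -
        ((3 : ℤ) : Ω') * ε1 ^ 2 / 4 := by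
      push_cast
      linear_combination (1 / 4 : Ω') * hεd
    rw [e]
    have h4 : w (4 : Ω') = 1 := by
      have : (4 : Ω') = 2 * 2 := by norm_num
      rw [this, map_mul, h2, one_mul]
    refine (Valuation.map_sub _ _ _).trans_lt (max_lt ?_ ?_)
    · rw [map_mul, Valuation.map_neg]
      refine mul_lt_one_of_lt_of_le ht ((Valuation.map_add _ _ _).trans (max_le ?_ (u_int w t)))
      rw [map_div₀, h2, div_one]
      exact (Valuation.map_sub _ _ _).trans (max_le wε2 wε3)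
    · rw [map_div₀, h4, div_one, map_mul, map_pow, mul_comm]
      exact mul_lt_one_of_lt_of_le (pow_lt_one₀ zero_le hlt two_ne_zero) (u_int w 3)
  -- the element
  set φ : A →+* Ω' := (em hcf (⟨E2, hC.root_b⟩ : Rt (sh (Wt a b d)) Ω') : A →+* Ω') with hφ
  have hφθ : φ θ = ε2 := by
    have h6 := em_root hcf (⟨E2, hC.root_b⟩ : Rt (sh (Wt a b d)) Ω')
    rw [map_mul, map_mul, map_ofNat, map_intCast] at h6
    rw [hε2, eq_div_iff h4d, mul_comm]
    exact h6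
  have hζe : zf hcf z E2 = φ z := zf_root hcf z ⟨E2, hC.root_b⟩
  have hOv : Ov (p : ℤ) (plc w φ hpr.ne_zero hwp1) := by
    show ((p : ℤ) : 𝓞 A) ∈ _
    have := q_mem_plc w φ hpr.ne_zero hwp1
    exact_mod_cast this
  have hθ1 : (plc w φ hpr.ne_zero hwp1).valuation A θ = 1 := by
    have hint : _root_.IsIntegral ℤ θ := int_th h
    refine le_antisymm ((plc w φ hpr.ne_zero hwp1).valuation_le_one (⟨θ, hint⟩ : 𝓞 A)) ?_
    by_contra hcon
    rw [not_le] at hcon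
    have h5 := plc_lt w φ hpr.ne_zero hwp1 hcon
    rw [hφθ, w2] at h5
    exact lt_irrefl _ h5
  obtain ⟨hu1, hu2⟩ := hu0 _ hOv hθ1
  have hSq : ∃ s : A, w (φ z - φ s ^ 2) < w (φ z) ∨
      w (φ z * (p * ε2) - φ s ^ 2) < w (φ z * (p * ε2)) := by
    by_cases hE : Ev (plc w φ hpr.ne_zero hwp1) z
    · obtain ⟨s, hs⟩ := plc_sq w φ hpr.ne_zero hwp1 (hu1 hE)
      exact ⟨s, Or.inl hs⟩
    · obtain ⟨s, hs⟩ := plc_sq w φ hpr.ne_zero hwp1 (hu2 hE)
      refine ⟨s, Or.inr ?_⟩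
      rw [map_mul, map_mul, map_intCast, hφθ] at hs
      exact_mod_cast hs
  obtain ⟨s, hs⟩ := hSq
  have hnorm := norm_em hcf hC z
  rw [← zf_root hcf z ⟨E1, hC.root_a⟩, ← zf_root hcf z ⟨E2, hC.root_b⟩,
    ← zf_root hcf z ⟨E3, hC.root_c⟩, hr, map_pow, IsScalarTower.algebraMap_apply ℚ L Ω'] at hnorm
  have hdΩ' : (d : Ω') = p * d' := by rw [hdd]; push_cast; ring
  refine cond_of_out hcf hV ?_
  refine unr w hσ hL hp2 h2 (E1 := E1) (E2 := E2) (E3 := E3) (ε1 := ε1) (ε2 := ε2) (ε3 := ε3)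
    hC.cub_eq ?_ (fun x => ?_) (fun σ x => ?_) (m := 4 * d') (a := a) ?_ ?_ ?_ ?_ ?_ hlt w2 hs1 hs2
    hcj (fun e => zf hcf z e) (fun σ e he => zf_equi hcf z σ he) ?_ (S := φ s) ?_ ?_
    (algebraMap ℚ L r) hnorm.symm
  · rw [hC.cub'_eq]; ring
  · exact (cub_map (sh (Wt a b d)) (incl ℚ L Ω') x).symm
  · exact (cub'_map (sh (Wt a b d)) (rs ℚ σ) x).symm
  · intro hh
    have e : (4 * d' : ℤ) = 2 * (2 * d') := by ring
    rw [e] at hh
    rcases hpZ.dvd_or_dvd hh with h5 | h5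
    · exact h2p h5
    · rcases hpZ.dvd_or_dvd h5 with h6 | h6
      · exact h2p h6
      · exact hd' h6
  · rintro ⟨t, ht⟩
    obtain ⟨t, rfl⟩ := ZMod.intCast_surjective t
    apply hna t
    rw [← ZMod.intCast_zmod_eq_zero_iff_dvd]
    push_cast at ht ⊢
    linear_combination -ht
  · rw [g1, hdΩ']; push_cast; ring
  · rw [g2, hdΩ']; push_cast; ring
  · rw [g3, hdΩ']; push_cast; ring
  · show zf hcf z E2 ≠ 0
    rw [hζe]
    exact (_root_.map_ne_zero φ).2 hz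
  · exact em_fx hcf (⟨E2, hC.root_b⟩ : Rt (sh (Wt a b d)) Ω') s
  · show w (zf hcf z E2 - φ s ^ 2) < w (zf hcf z E2) ∨
      w (zf hcf z E2 * (p * ε2) - φ s ^ 2) < w (zf hcf z E2 * (p * ε2))
    rw [hζe]
    exact hs

include hσ hL in
/-- a prime of the type -/
theorem cond_unr (h : IsCub a b θ) (hds0 : Pool.Agent.N922.PQ.dsc a b ≠ 0) (hp2 : p ≠ 2)
    {d' : ℤ} (hdd : d = p * d') (hd' : ¬ (p : ℤ) ∣ d') (hb : (p : ℤ) ∣ b)
    (hna : ∀ x : ℤ, ¬ (p : ℤ) ∣ x ^ 2 + a)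
    {z : A} (hz : z ≠ 0) {r : ℚ} (hr : Algebra.norm ℚ z = r ^ 2)
    (hu0 : ∀ 𝔓 : HeightOneSpectrum (𝓞 A), Ov (p : ℤ) 𝔓 → 𝔓.valuation A θ = 1 →
      U0 𝔓 (((p : ℤ) : A) * θ) z) :
    Cond L Ω' (sh (Wt a b d)) (4 * d * θ) z := by
  have hd0 : d' ≠ 0 := by
    rintro rfl
    exact hd' (dvd_zero _)
  have hd : d ≠ 0 := by
    rw [hdd]
    exact mul_ne_zero (by exact_mod_cast hL.pr.ne_zero) hd0
  have hdΩ : (d : Ω') ≠ 0 := by exact_mod_cast hd
  have h4d : (4 * d : Ω') ≠ 0 := mul_ne_zero (by norm_num) hdΩ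
  have hW : (Wt a b d).Δ ≠ 0 := by
    rw [Wt_disc]
    exact mul_ne_zero (mul_ne_zero (by norm_num) (pow_ne_zero 6 hd)) hds0
  have hV := iv_sh (Wt a b d) hW
  obtain ⟨e1, e2, e3, hC⟩ := Y355.G.V_roots hV.a1 hV.a3 hV.Δ Ω'
  have aux := fun {x1 x2 x3 : Ω'} (hC : IsC ((sh (Wt a b d)).baseChange Ω').toAffine x1 x2 x3) hlt =>
    cond_unr_aux w hσ hL h hds0 hp2 hdd hd' hna hz hr hu0 hC hlt
  by_cases h1 : w (e1 / (4 * d)) < 1
  · exact aux hC h1
  by_cases h2 : w (e2 / (4 * d)) < 1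
  · exact aux hC.rot h2
  by_cases h3 : w (e3 / (4 * d)) < 1
  · exact aux hC.rot.rot h3
  exfalso
  rw [not_lt] at h1 h2 h3
  have hprod : e1 / (4 * d) * (e2 / (4 * d)) * (e3 / (4 * d)) = -(b : Ω') := by
    have h5 := hC.e6
    have c6 : algebraMap ℚ Ω' (sh (Wt a b d)).a₆ = 64 * b * d ^ 3 := by
      show algebraMap ℚ Ω' (16 * (((Wt a b d).b₆ : ℤ) : ℚ)) = _
      rw [Wt_b6]
      push_cast
      simp only [map_mul, map_pow, map_intCast, map_ofNat]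
      ring
    rw [c6] at h5
    field_simp
    linear_combination h5
  have h5 := congrArg w hprod
  rw [map_mul, map_mul, Valuation.map_neg] at h5
  have h6 := w_dvd w hL hb
  rw [← h5] at h6
  exact absurd h6 (not_lt.2 (one_le_mul (one_le_mul h1 h2) h3))

end odd

end Pool.Agent.Helper29L.LOW
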