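import Pool.Agent.Helper29L.LOW7
import Pool.Agent.N3.PQ.TW2

/-!
# Job LOW: the good places, the place `2`
-/

set_option autoImplicit false
set_option linter.all false

open NumberField IsDedekindDomain WithZero WeierstrassCurve WeierstrassCurve.Affine
open scoped NNReal Classical

namespace Pool.Agent.Helper29L.LOW

open Pool.Agent
open Pool.Agent.TH115.GD
open Pool.Agent.Y710.CV (Cond cond1 cond2)
open Pool.Agent.Y702.G (sh base pts)
open Pool.Agent.R425 (sqrt_fix mem_of_fixed exists_data)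
open Pool.Agent.R425.G
open Pool.Agent.N922.PQ (IsCub Ov IsPr Loc2 PL2)
open Pool.Agent.N874.PP (Ev Sq1 U0)
open Pool.Agent.Helper29K (InFamily)
open Pool.Agent.Helper29L

section good

variable {A : Type} [Field A] [NumberField A] {W : WeierstrassCurve ℤ} {θ : A}

/-- a place of good reduction -/
theorem cond_gdK (h : CF (sh W) A θ) (hW : W.Δ ≠ 0) {K : Type} [Field K] [NumberField K]
    (v : HeightOneSpectrum (𝓞 K)) {q : ℕ} (hq : q.Prime) (hqv : (q : 𝓞 K) ∈ v.asIdeal)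
    (hv : ¬ (q : ℤ) ∣ 2 * W.Δ) {z : A} (hz : z ≠ 0) {r : ℚ} (hr : Algebra.norm ℚ z = r ^ 2)
    (hev : ∀ 𝔓 : HeightOneSpectrum (𝓞 A), Ov (q : ℤ) 𝔓 → Ev 𝔓 z) :
    Cond (v.adicCompletion K) (AlgebraicClosure (v.adicCompletion K)) (sh W) θ z := by
  haveI : CharZero (v.adicCompletion K) := algebraRat.charZero _
  haveI : IsGalois (v.adicCompletion K) (AlgebraicClosure (v.adicCompletion K)) := inferInstance
  haveI : CharZero (AlgebraicClosure (v.adicCompletion K)) := algebraRat.charZero _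
  obtain ⟨w, hw1, hw2, hw3, hw4, hw5⟩ := exists_data v
  have hV := iv_sh W hW
  have hqZ : Prime (q : ℤ) := Nat.prime_iff_prime_int.1 hq
  have hint : ∀ m : ℤ, w ((m : ℤ) : AlgebraicClosure (v.adicCompletion K)) < 1 ↔
      ((m : ℤ) : 𝓞 K) ∈ v.asIdeal := by
    intro m
    rw [← hw4]
    simp only [map_intCast]
  have hone : ∀ m : ℤ, ¬ (q : ℤ) ∣ m →
      w ((m : ℤ) : AlgebraicClosure (v.adicCompletion K)) = 1 := by
    intro m hm
    apply le_antisymm (u_int w m)
    by_contra hcon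
    rw [not_le] at hcon
    exact hm (not_both hq hqv ((hint m).1 hcon))
  have hqw : w ((q : ℕ) : AlgebraicClosure (v.adicCompletion K)) < 1 := by
    have := (hint (q : ℤ)).2 (by exact_mod_cast hqv)
    exact_mod_cast this
  have h2 : w (2 : AlgebraicClosure (v.adicCompletion K)) = 1 := by
    have := hone 2 (fun hm => hv (hm.mul_right _))
    exact_mod_cast this
  have hΔw : w (256 * ((W.Δ : ℤ) : AlgebraicClosure (v.adicCompletion K))) = 1 := by
    have h3 := hone W.Δ (fun hm => hv (hm.mul_left _))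
    have e : (256 : AlgebraicClosure (v.adicCompletion K)) = 2 ^ 8 := by norm_num
    rw [map_mul, e, map_pow, h2, h3, one_pow, one_mul]
  have hev' : ∀ φ : A →+* AlgebraicClosure (v.adicCompletion K),
      ∃ s : v.adicCompletion K, s ≠ 0 ∧ w (φ z) = w (algebraMap (v.adicCompletion K)
        (AlgebraicClosure (v.adicCompletion K)) s) ^ 2 := by
    intro φ
    have hmem := q_mem_plc w φ hq.ne_zero hqw
    have hu := unr_A h hW hq hv (u := plc w φ hq.ne_zero hqw) hmem
    obtain ⟨y, hy0, hy⟩ := plc_ev w φ hq.ne_zero hqw hz (hev _ (by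
      show ((q : ℤ) : 𝓞 A) ∈ _
      exact_mod_cast hmem))
    obtain ⟨k, hk⟩ := plc_unr w φ hq.ne_zero hqw hu hy0
    refine ⟨((q : ℕ) : v.adicCompletion K) ^ k, zpow_ne_zero _ (by
      exact_mod_cast hq.ne_zero), ?_⟩
    have e : w (algebraMap (v.adicCompletion K) (AlgebraicClosure (v.adicCompletion K))
        (((q : ℕ) : v.adicCompletion K) ^ k)) = w ((q : ℕ) : AlgebraicClosure
          (v.adicCompletion K)) ^ k := by
      rw [map_zpow₀ (algebraMap (v.adicCompletion K) (AlgebraicClosure (v.adicCompletion K))),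
        map_natCast (algebraMap (v.adicCompletion K) (AlgebraicClosure (v.adicCompletion K))),
        map_zpow₀ w]
    rw [hy, hk, e]
  haveI : v.asIdeal.IsMaximal := v.isMaximal
  haveI : Finite (𝓞 K ⧸ v.asIdeal) := Ring.HasFiniteQuotients.finiteQuotient v.ne_bot
  let j : 𝓞 K →+* (v.adicCompletion K) :=
    (algebraMap K (v.adicCompletion K)).comp (algebraMap (𝓞 K) K)
  exact cond_conv _ _ _ _ _ _ (cond_lz h hW v.asIdeal j w hw1 hw3 hw4 hw5 h2 hΔw hr hev')

/-- a place of good reduction -/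
theorem cond_gd (h : CF (sh W) A θ) (hW : W.Δ ≠ 0) (v : HeightOneSpectrum (𝓞 ℚ))
    (hv : ¬ (ng v : ℤ) ∣ 2 * W.Δ) {z : A} (hz : z ≠ 0) {r : ℚ} (hr : Algebra.norm ℚ z = r ^ 2)
    (hev : ∀ 𝔓 : HeightOneSpectrum (𝓞 A), Ov (ng v : ℤ) 𝔓 → Ev 𝔓 z) :
    Cond (v.adicCompletion ℚ) (AlgebraicClosure (v.adicCompletion ℚ)) (sh W) θ z :=
  cond_conv _ _ _ _ _ _ (cond_gdK h hW v (ng_prime v)
    (by exact_mod_cast (mem_iff v (ng v : ℤ)).2 dvd_rfl) hv hz hr hev)

end good

section two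

variable {A : Type} [Field A] [NumberField A] {a b d : ℤ} {θ : A}

/-- the value of the polynomial -/
theorem exists_pol (h : IsCub a b θ) (z : A) : ∃ f : Polynomial ℚ, Polynomial.aeval θ f = z := by
  obtain ⟨r, s, t, rfl⟩ := h.gen z
  refine ⟨Polynomial.C r + Polynomial.C s * Polynomial.X + Polynomial.C t * Polynomial.X ^ 2, ?_⟩
  simp only [map_add, map_mul, map_pow, Polynomial.aeval_C, Polynomial.aeval_X, eq_ratCast]

/-- the place `2` over `ℚ_2` -/
theorem cond_two (h : IsCub a b θ) (hds0 : Pool.Agent.N922.PQ.dsc a b ≠ 0) (hd8 : d % 8 = 1)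
    {z : A} (hloc : Loc2 a b θ z) :
    Cond ℚ_[2] (AlgebraicClosure ℚ_[2]) (sh (Wt a b d)) (4 * d * θ) z := by
  have hd : d ≠ 0 := by omega
  have hW : (Wt a b d).Δ ≠ 0 := by
    rw [Wt_disc]
    exact mul_ne_zero (mul_ne_zero (by norm_num) (pow_ne_zero 6 hd)) hds0
  have hV := iv_sh (Wt a b d) hW
  obtain ⟨f, hf⟩ := exists_pol h z
  obtain ⟨δ, hδ⟩ := Pool.Agent.N3.PQ.TW2.sq_two d hd8
  have hd2 : (d : ℚ_[2]) ≠ 0 := by exact_mod_cast hd
  have hδ0 : δ ≠ 0 := by
    rintro rfl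
    apply hd2
    rw [← hδ]; ring
  set Ω := AlgebraicClosure ℚ_[2] with hΩ
  haveI : CharZero Ω := algebraRat.charZero _
  -- the value at the root
  have hval : ∀ φ : A →+* Ω, φ z = Polynomial.aeval (φ θ) (f.map (algebraMap ℚ ℚ_[2])) := by
    intro φ
    rw [Polynomial.aeval_map_algebraMap, ← hf]
    exact (Polynomial.aeval_algHom_apply φ.toRatAlgHom θ f).symm
  have hrt : ∀ φ : A →+* Ω, (φ θ) ^ 3 + (a : Ω) * φ θ + (b : Ω) = 0 := by
    intro φ
    have := congrArg φ h.root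
    simpa using this
  have hfx : ∀ (g : Polynomial ℚ_[2]) (x : Ω) (σ : Ω ≃ₐ[ℚ_[2]] Ω), σ x = x →
      σ (Polynomial.aeval x g) = Polynomial.aeval x g := by
    intro g x σ hx
    have h5 := Polynomial.aeval_algHom_apply (σ : Ω →ₐ[ℚ_[2]] Ω) x g
    have h6 : (σ : Ω →ₐ[ℚ_[2]] Ω) x = x := hx
    rw [h6] at h5
    exact h5.symm
  have hfxθ : ∀ (φ : A →+* Ω) (σ : Ω ≃ₐ[ℚ_[2]] Ω), σ (φ (4 * d * θ)) = φ (4 * d * θ) →
      σ (φ θ) = φ θ := by
    intro φ σ hσ
    simp only [map_mul, map_ofNat, map_intCast] at hσ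
    have h4 : (4 * d : Ω) ≠ 0 := mul_ne_zero (by norm_num) (by exact_mod_cast hd)
    exact mul_left_cancel₀ h4 hσ
  rcases hloc f hf with ⟨g, hg⟩ | ⟨x, y, hy0, hxy, g, hg⟩
  · refine cond1 fun φ => ⟨Polynomial.aeval (φ θ) g, fun σ hσ => hfx g _ σ (hfxθ φ σ hσ), ?_⟩
    obtain ⟨q, hq⟩ := hg
    have h5 := congrArg (Polynomial.aeval (φ θ)) hq
    simp only [map_sub, map_mul, map_add, map_pow, Polynomial.aeval_X, Polynomial.aeval_C,
      map_intCast] at h5
    rw [hrt φ, zero_mul, ← hval φ] at h5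
    linear_combination h5
  · refine cond2 (x := 4 * d * x) (y := 8 * δ ^ 3 * y) hV.a1 hV.a3 hV.Δ ?_ fun φ => ?_
    · rw [cub_Wt_mul]
      have : (8 * δ ^ 3 * y) ^ 2 = 64 * (δ ^ 2) ^ 3 * y ^ 2 := by ring
      rw [this, hδ, hxy]
    · obtain ⟨q, hq⟩ := hg
      have h5 := congrArg (Polynomial.aeval (φ θ)) hq
      simp only [map_sub, map_mul, map_add, map_pow, Polynomial.aeval_X, Polynomial.aeval_C,
        map_intCast] at h5
      rw [hrt φ, zero_mul, ← hval φ] at h5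
      have hyΩ : (algebraMap ℚ_[2] Ω y) ≠ 0 := (_root_.map_ne_zero _).2 hy0
      have hne : algebraMap ℚ_[2] Ω x - φ θ ≠ 0 := by
        intro h6
        have h7 := congrArg (algebraMap ℚ_[2] Ω) hxy
        simp only [map_add, map_mul, map_pow, map_intCast] at h7
        rw [sub_eq_zero.1 h6, hrt φ] at h7
        exact hyΩ (pow_eq_zero_iff two_ne_zero |>.1 h7)
      have hδΩ : (algebraMap ℚ_[2] Ω δ) ≠ 0 := (_root_.map_ne_zero _).2 hδ0
      have hδ2 : (algebraMap ℚ_[2] Ω δ) ^ 2 = (d : Ω) := by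
        rw [← map_pow, hδ, map_intCast]
      refine ⟨Polynomial.aeval (φ θ) g / ((algebraMap ℚ_[2] Ω x - φ θ) * (2 * algebraMap ℚ_[2] Ω δ)),
        algebraMap ℚ_[2] Ω (4 * d * x) - φ (4 * d * θ), fun σ hσ => ?_, ?_, Or.inr ⟨?_, rfl⟩⟩
      · have hσ' := hfxθ φ σ hσ
        rw [map_div₀, hfx g _ σ hσ', map_mul, map_sub, map_mul, σ.commutes, σ.commutes, hσ',
          map_ofNat]
      · have e1 : algebraMap ℚ_[2] Ω (4 * d * x) - φ (4 * d * θ) =
            4 * (algebraMap ℚ_[2] Ω δ) ^ 2 * (algebraMap ℚ_[2] Ω x - φ θ) := by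
          rw [hδ2]
          simp only [map_mul, map_ofNat, map_intCast]
          ring
        rw [e1, div_pow]
        field_simp
        linear_combination 4 * h5
      · intro h6
        apply hne
        have h7 : (4 * d : Ω) * (algebraMap ℚ_[2] Ω x - φ θ) = 0 := by
          rw [mul_sub]
          simp only [map_mul, map_ofNat, map_intCast] at h6
          linear_combination h6
        exact (mul_eq_zero.1 h7).resolve_left (mul_ne_zero (by norm_num) (by exact_mod_cast hd))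

end two

end Pool.Agent.Helper29L.LOW
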