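import Pool.Agent.Helper29L.Lat1
import Pool.Agent.N922.PQ.Core
import Pool.Agent.N227.PQ.Det

/-!
# Job LAT, part 2: the element `f` and the duality modulo `Q`
-/

set_option autoImplicit false
set_option linter.all false

open IsDedekindDomain NumberField
open scoped Classical

namespace Pool.Agent.Helper29L

open Pool.Agent.N922.PQ
open Pool.Agent.N301.PQ (mem_P1 val_lt_mem exO theta_ex mapO poly_mem)
open Pool.Agent.N874.PP (Tup chA chB gq tau Two Ev Sq1 U0 sW)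

section lat

variable {L : Type} [Field L] [NumberField L]

/-- The properties of `f` at `Q`. -/
structure FQ (α θ f : L) (Q c : ℤ) : Prop where
  mem : InB α f
  nd : ¬ Q ∣ c
  val : ∃ w : 𝓞 L, f * f / α = (Q : L) * (c : L) * θ + (Q : L) ^ 2 * algebraMap (𝓞 L) L w
  pair : ∀ x, InB α x → ∃ w : 𝓞 L, f * x / α = (Q : L) * algebraMap (𝓞 L) L w

theorem Q_ne {Q : ℤ} (hQ : Q ≠ 0) : (Q : L) ≠ 0 := by exact_mod_cast hQ

/-- The element at one prime. -/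
theorem exists_f1 {Q : ℤ} (hQ0 : Prime Q) {t : 𝓞 L} {θ α : L} (ht : algebraMap (𝓞 L) L t = θ)
    {𝔓 𝔮 : HeightOneSpectrum (𝓞 L)} (hd : PD Q t 𝔓 𝔮) (hα : α ≠ 0) (hev : Ev 𝔓 α)
    (hs : Sq1 𝔮 (α * ((Q : L) * θ))) : ∃ f, FQ α θ f Q 1 := by
  obtain ⟨s, hs⟩ := hs
  have hθ1 : 𝔮.valuation L θ = 1 := by
    rw [← ht]
    exact (HeightOneSpectrum.valuation_eq_one_iff_notMem (K := L) 𝔮).2 hd.tq
  have hvQ : 𝔮.valuation L (Q : L) ≠ 0 := by rw [hd.unif']; exact WithZero.exp_ne_zero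
  have hvα : 𝔮.valuation L α ≠ 0 := (Valuation.ne_zero_iff _).2 hα
  have hv1 : 𝔮.valuation L (α * ((Q : L) * θ)) = 𝔮.valuation L α * 𝔮.valuation L (Q : L) := by
    rw [map_mul, map_mul, hθ1, mul_one]
  have hvs : 𝔮.valuation L (s ^ 2) = 𝔮.valuation L (α * ((Q : L) * θ)) := by
    have h1 : s ^ 2 = α * ((Q : L) * θ) - (α * ((Q : L) * θ) - s ^ 2) := by ring
    rw [h1]
    exact Valuation.map_sub_eq_of_lt_left _ hs
  have hvsα : 𝔮.valuation L (s * s / α) = 𝔮.valuation L (Q : L) := by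
    rw [map_div₀, ← pow_two, hvs, hv1]
    field_simp
  have hQ1 : 𝔮.valuation L (Q : L) < 1 := by
    rw [← mapO (O := 𝓞 L)]
    exact (val_lt_mem 𝔮 _).2 hd.ovq
  have hQL : (Q : L) ≠ 0 := Q_ne hQ0.ne_zero
  obtain ⟨d, hdn, hds⟩ := exists_mul (α := α) (s := s) (v := 𝔮) (by rw [hvsα]; exact hQ1.le)
  have hmax : 𝔮.asIdeal.IsMaximal := 𝔮.isMaximal
  have htd : t * d ∉ 𝔮.asIdeal := fun h => (𝔮.isPrime.mem_or_mem h).elim hd.tq hdn
  obtain ⟨g, i, hi, hgi⟩ := hmax.exists_inv htd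
  obtain ⟨h0, hh0⟩ := hds
  set f : L := algebraMap (𝓞 L) L (g * t) * (algebraMap (𝓞 L) L d * s) with hf
  have hfm : InB α f := InB.smul _ ⟨h0, hh0⟩
  obtain ⟨h, hh⟩ := hfm
  have hh2 : h = (g * t) ^ 2 * h0 := by
    apply IsFractionRing.injective (𝓞 L) L
    rw [hh, map_mul, map_pow, hh0, hf]
    ring
  have hP : h ∈ 𝔓.asIdeal := by
    rw [hh2, mul_pow, pow_two t]
    have : g ^ 2 * (t * t) * h0 = t * (g ^ 2 * t * h0) := by ring
    rw [this]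
    exact 𝔓.asIdeal.mul_mem_right _ hd.tP
  have hsmall : 𝔮.valuation L (algebraMap (𝓞 L) L h - (Q : L) * θ) < 𝔮.valuation L (Q : L) := by
    have e1 : algebraMap (𝓞 L) L h - (Q : L) * θ =
        algebraMap (𝓞 L) L (g * (t * d)) ^ 2 * ((s ^ 2 - α * ((Q : L) * θ)) / α) +
        (algebraMap (𝓞 L) L ((g * (t * d)) ^ 2 - 1)) * ((Q : L) * θ) := by
      rw [hh, hf]
      simp only [map_mul, map_sub, map_pow, map_one]
      field_simp
      ring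
    rw [e1]
    refine lt_of_le_of_lt (Valuation.map_add _ _ _) (max_lt ?_ ?_)
    · rw [map_mul, map_pow, map_div₀]
      have h2 : 𝔮.valuation L (s ^ 2 - α * ((Q : L) * θ)) / 𝔮.valuation L α <
          𝔮.valuation L (Q : L) := by
        rw [div_lt_iff₀ (zero_lt_iff.2 hvα), Valuation.map_sub_swap,
          mul_comm (𝔮.valuation L (Q : L)), ← hv1]
        exact hs
      calc _ ≤ 1 * (𝔮.valuation L (s ^ 2 - α * ((Q : L) * θ)) / 𝔮.valuation L α) :=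
            mul_le_mul_left (pow_le_one₀ zero_le (𝔮.valuation_le_one _)) _
        _ < _ := by rw [one_mul]; exact h2
    · rw [map_mul, map_mul, hθ1, mul_one]
      have h3 : 𝔮.valuation L (algebraMap (𝓞 L) L ((g * (t * d)) ^ 2 - 1)) < 1 := by
        rw [val_lt_mem]
        have e2 : (g * (t * d)) ^ 2 - 1 = -(i * (g * (t * d) + 1)) := by
          have : g * (t * d) = 1 - i := by rw [← hgi]; ring
          rw [this]; ring
        rw [e2]
        exact 𝔮.asIdeal.neg_mem (𝔮.asIdeal.mul_mem_right _ hi)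
      calc _ < 1 * 𝔮.valuation L (Q : L) :=
            mul_lt_mul_of_pos_right h3 (zero_lt_iff.2 hvQ)
        _ = _ := one_mul _
  have hq : h ∈ 𝔮.asIdeal := by
    rw [← val_lt_mem (L := L)]
    have e1 : algebraMap (𝓞 L) L h = (algebraMap (𝓞 L) L h - (Q : L) * θ) + (Q : L) * θ := by ring
    rw [e1]
    refine lt_of_le_of_lt (Valuation.map_add _ _ _) (max_lt (hsmall.trans hQ1) ?_)
    rw [map_mul, hθ1, mul_one]
    exact hQ1
  obtain ⟨h1, hh1⟩ := hd.both h hP hq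
  have hh1L : algebraMap (𝓞 L) L h = (Q : L) * algebraMap (𝓞 L) L h1 := by
    rw [hh1, map_mul, mapO]
  have h1P : h1 ∈ 𝔓.asIdeal := par hd.unif (ev_div (y := f) hα hev) (by rw [← hh, hh1L])
  have h1q : h1 - t ∈ 𝔮.asIdeal := by
    rw [← val_lt_mem (L := L)]
    have e1 : algebraMap (𝓞 L) L (h1 - t) = (algebraMap (𝓞 L) L h - (Q : L) * θ) / (Q : L) := by
      rw [map_sub, ht, hh1L]
      field_simp
    rw [e1, map_div₀]
    exact (div_lt_one₀ (zero_lt_iff.2 hvQ)).2 hsmall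
  obtain ⟨w, hw⟩ := hd.both (h1 - t) (𝔓.asIdeal.sub_mem h1P hd.tP) h1q
  refine ⟨f, ⟨h, hh⟩, ?_, ⟨w, ?_⟩, ?_⟩
  · intro hQ
    exact hQ0.not_unit (isUnit_of_dvd_one hQ)
  · rw [← hh, hh1L]
    have e2 : h1 = t + (Q : 𝓞 L) * w := by rw [← hw]; ring
    rw [e2, map_add, map_mul, mapO, ht]
    push_cast
    ring
  · intro x hx
    obtain ⟨z, hz⟩ := InB.prod hα ⟨h, hh⟩ hx
    obtain ⟨x2, hx2⟩ := hx
    obtain ⟨y, hy⟩ := sq_dvd hd (x := z) (w := h1 * x2) (by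
      apply IsFractionRing.injective (𝓞 L) L
      rw [map_mul, hz, map_mul, map_mul, mapO, hx2, ← mul_assoc, ← hh1L, hh]
      field_simp)
    refine ⟨y, ?_⟩
    rw [← hz, hy, map_mul, mapO]

/-- The element for a finite set of primes. -/
theorem exists_f {α θ : L} (Z : Finset ℤ) (hZ : ∀ Q ∈ Z, IsPr Q) (h1 : ∀ Q ∈ Z, ∃ f, FQ α θ f Q 1)
    (hα : α ≠ 0) : ∃ f, InB α f ∧ ∀ Q ∈ Z, ∃ c, FQ α θ f Q c := by
  induction Z using Finset.induction_on with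
  | empty => exact ⟨0, InB.zero α, by simp⟩
  | insert Q₀ Z' hQ₀ ih =>
    obtain ⟨f, hf, hfQ⟩ := ih (fun Q hQ => hZ Q (Finset.mem_insert_of_mem hQ))
      fun Q hQ => h1 Q (Finset.mem_insert_of_mem hQ)
    obtain ⟨f₀, hf₀⟩ := h1 Q₀ (Finset.mem_insert_self _ _)
    have hpr₀ := hZ Q₀ (Finset.mem_insert_self _ _)
    obtain ⟨P, hP⟩ : ∃ P : ℤ, P = ∏ Q ∈ Z', Q := ⟨_, rfl⟩
    have hcop : ∀ Q ∈ Z', IsCoprime Q Q₀ := fun Q hQ =>
      isCoprime_of (hZ Q (Finset.mem_insert_of_mem hQ)) hpr₀ (fun h => hQ₀ (h ▸ hQ))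
    have hP₀ : IsCoprime P Q₀ := by
      rw [hP]
      exact IsCoprime.prod_left fun Q hQ => hcop Q hQ
    obtain ⟨z, hz⟩ := hf.prod hα hf₀.mem
    obtain ⟨zf, hzf⟩ := hf
    obtain ⟨zf₀, hzf₀⟩ := hf₀.mem
    have hmem : InB α ((Q₀ : L) * f + (P : L) * f₀) :=
      (InB.zsmul Q₀ ⟨zf, hzf⟩).add hα (hf₀.mem.zsmul P)
    refine ⟨(Q₀ : L) * f + (P : L) * f₀, hmem, ?_⟩
    intro Q hQ
    rcases Finset.mem_insert.1 hQ with rfl | hQ'
    · -- at the new prime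
      obtain ⟨w, hw⟩ := hf₀.val
      obtain ⟨w', hw'⟩ := hf₀.pair f ⟨zf, hzf⟩
      refine ⟨P ^ 2, hmem, ?_, ⟨zf + 2 * (P : 𝓞 L) * w' + (P : 𝓞 L) ^ 2 * w, ?_⟩, ?_⟩
      · intro h2
        have h3 : IsCoprime (P ^ 2) Q := hP₀.pow_left
        have h4 := h3.isUnit_of_dvd' h2 dvd_rfl
        exact hpr₀.2.not_unit h4
      · have e1 : ((Q : L) * f + (P : L) * f₀) * ((Q : L) * f + (P : L) * f₀) / α =
            (Q : L) ^ 2 * (f * f / α) + 2 * (Q : L) * (P : L) * (f₀ * f / α) +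
              (P : L) ^ 2 * (f₀ * f₀ / α) := by ring
        rw [e1, ← hzf, hw, hw']
        simp only [map_add, map_mul, map_pow, map_ofNat, mapO]
        push_cast
        ring
      · intro x hx
        obtain ⟨u, hu⟩ := InB.prod hα ⟨zf, hzf⟩ hx
        obtain ⟨u', hu'⟩ := hf₀.pair x hx
        refine ⟨u + (P : 𝓞 L) * u', ?_⟩
        have e1 : ((Q : L) * f + (P : L) * f₀) * x / α =
            (Q : L) * (f * x / α) + (P : L) * (f₀ * x / α) := by ring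
        rw [e1, ← hu, hu', map_add, map_mul, mapO]
        ring
    · -- at an old prime
      obtain ⟨c, hc⟩ := hfQ Q hQ'
      obtain ⟨w, hw⟩ := hc.val
      obtain ⟨w', hw'⟩ := hc.pair f₀ hf₀.mem
      obtain ⟨P', hP'⟩ : Q ∣ P := hP ▸ Finset.dvd_prod_of_mem _ hQ'
      refine ⟨Q₀ ^ 2 * c, hmem, ?_, ⟨(Q₀ : 𝓞 L) ^ 2 * w + 2 * (Q₀ : 𝓞 L) * (P' : 𝓞 L) * w' +
        (P' : 𝓞 L) ^ 2 * zf₀, ?_⟩, ?_⟩
      · intro h2
        have hpr := hZ Q hQ
        rcases hpr.2.dvd_or_dvd h2 with h3 | h3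
        · have h4 := ((hcop Q hQ').pow_right (n := 2)).isUnit_of_dvd' dvd_rfl h3
          exact hpr.2.not_unit h4
        · exact hc.nd h3
      · have e1 : ((Q₀ : L) * f + (P : L) * f₀) * ((Q₀ : L) * f + (P : L) * f₀) / α =
            (Q₀ : L) ^ 2 * (f * f / α) + 2 * (Q₀ : L) * (P : L) * (f * f₀ / α) +
              (P : L) ^ 2 * (f₀ * f₀ / α) := by ring
        rw [e1, ← hzf₀, hw, hw', hP']
        simp only [map_add, map_mul, map_pow, map_ofNat, mapO]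
        push_cast
        ring
      · intro x hx
        obtain ⟨u, hu⟩ := hc.pair x hx
        obtain ⟨u', hu'⟩ := InB.prod hα hf₀.mem hx
        refine ⟨(Q₀ : 𝓞 L) * u + (P' : 𝓞 L) * u', ?_⟩
        have e1 : ((Q₀ : L) * f + (P : L) * f₀) * x / α =
            (Q₀ : L) * (f * x / α) + (P : L) * (f₀ * x / α) := by ring
        rw [e1, ← hu', hu, map_add, map_mul, map_mul, mapO, mapO, hP']
        push_cast
        ring

/-- an even valuation which is smaller than one is at most `v(Q) ^ 2` -/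
theorem par2 {Q : ℤ} {v : HeightOneSpectrum (𝓞 L)}
    (hQ : v.valuation L (Q : L) = WithZero.exp (-1 : ℤ)) {x : L} (hx : Ev v x)
    (h1 : v.valuation L x < 1) : v.valuation L x ≤ v.valuation L (Q : L) ^ 2 := by
  obtain ⟨y, hy⟩ := hx
  rw [hy] at h1 ⊢
  have h2 : v.valuation L y < 1 := by
    by_contra hn
    exact absurd h1 (not_lt.2 (one_le_pow₀ (not_lt.1 hn)))
  rw [hQ]
  exact pow_le_pow_left' (lt_one_le h2) 2

/-- divisibility by `Q ^ 2` -/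
theorem div2 {Q : ℤ} (hQ0 : Q ≠ 0) {t : 𝓞 L} {𝔓 𝔮 : HeightOneSpectrum (𝓞 L)} (hd : PD Q t 𝔓 𝔮)
    {z : 𝓞 L} (h1 : 𝔓.valuation L (algebraMap (𝓞 L) L z) ≤ 𝔓.valuation L (Q : L) ^ 2)
    (h2 : 𝔮.valuation L (algebraMap (𝓞 L) L z) ≤ 𝔮.valuation L (Q : L) ^ 2) :
    ∃ w, z = (Q : 𝓞 L) ^ 2 * w := by
  have hQP : 𝔓.valuation L (Q : L) < 1 := by
    rw [← mapO (O := 𝓞 L)]
    exact (val_lt_mem 𝔓 _).2 hd.ovP
  have hQq : 𝔮.valuation L (Q : L) < 1 := by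
    rw [← mapO (O := 𝓞 L)]
    exact (val_lt_mem 𝔮 _).2 hd.ovq
  obtain ⟨w, hw⟩ := hd.both z
    ((val_lt_mem (L := L) 𝔓 _).1 (lt_of_le_of_lt h1 (pow_lt_one₀ zero_le hQP two_ne_zero)))
    ((val_lt_mem (L := L) 𝔮 _).1 (lt_of_le_of_lt h2 (pow_lt_one₀ zero_le hQq two_ne_zero)))
  have hwL : algebraMap (𝓞 L) L z = (Q : L) * algebraMap (𝓞 L) L w := by
    rw [hw, map_mul, mapO]
  have hne : ∀ v : HeightOneSpectrum (𝓞 L), v.valuation L (Q : L) ≠ 0 := fun v =>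
    (Valuation.ne_zero_iff _).2 (Q_ne hQ0)
  rw [hwL, map_mul, pow_two] at h1 h2
  have h1' := (mul_le_mul_iff_right₀ (zero_lt_iff.2 (hne 𝔓))).1 h1
  have h2' := (mul_le_mul_iff_right₀ (zero_lt_iff.2 (hne 𝔮))).1 h2
  obtain ⟨w', hw'⟩ := hd.both w ((val_lt_mem (L := L) 𝔓 _).1 (lt_of_le_of_lt h1' hQP))
    ((val_lt_mem (L := L) 𝔮 _).1 (lt_of_le_of_lt h2' hQq))
  refine ⟨w', ?_⟩
  rw [hw, hw']
  ring

/-- **The duality at `Q`.** -/
theorem dualQ {a b : ℤ} {θ α : L} (h : IsCub a b θ) (hsq : Squarefree (dsc a b)) {Q : ℤ}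
    (hQ : Gp a b Q) {t : 𝓞 L} (ht : algebraMap (𝓞 L) L t = θ) {𝔓 𝔮 : HeightOneSpectrum (𝓞 L)}
    (hd : PD Q t 𝔓 𝔮) (hα : α ≠ 0) (hev : Ev 𝔓 α) {f : L} {c : ℤ} (hf : FQ α θ f Q c) {y : L}
    {z : 𝓞 L} (hz : algebraMap (𝓞 L) L z = y * y / α) (hzP : z ∈ 𝔓.asIdeal)
    (hc2 : ∃ m : ℤ, h.co 2 (f * y / α) = (Q : ℚ) ^ 2 * m) :
    ∃ n : ℤ, InB α ((y - (n : L) * f) / (Q : L)) := by
  have hI : S_INT := Pool.Agent.N849.PQ.int
  have hQL : (Q : L) ≠ 0 := Q_ne hQ.pr.2.ne_zero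
  have hymem : InB α y := ⟨z, hz⟩
  obtain ⟨w, hw⟩ := hf.pair y hymem
  obtain ⟨w1, hw1⟩ := hf.val
  obtain ⟨zf, hzf⟩ := hf.mem
  have hQP : 𝔓.valuation L (Q : L) < 1 := by
    rw [← mapO (O := 𝓞 L)]
    exact (val_lt_mem 𝔓 _).2 hd.ovP
  have hneP : 𝔓.valuation L (Q : L) ≠ 0 := (Valuation.ne_zero_iff _).2 hQL
  have hneq : 𝔮.valuation L (Q : L) ≠ 0 := (Valuation.ne_zero_iff _).2 hQL
  have hvz : 𝔓.valuation L (y * y / α) ≤ 𝔓.valuation L (Q : L) ^ 2 :=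
    par2 hd.unif (ev_div hα hev) (by rw [← hz]; exact (val_lt_mem 𝔓 _).2 hzP)
  have hvf1 : 𝔓.valuation L (f * f / α) < 1 := by
    have e1 : f * f / α = (Q : L) * (algebraMap (𝓞 L) L ((c : 𝓞 L) * t + (Q : 𝓞 L) * w1)) := by
      rw [hw1, map_add, map_mul, map_mul, mapO, mapO, ht]
      ring
    rw [e1, map_mul]
    exact lt_of_le_of_lt (mul_le_of_le_one_right' (𝔓.valuation_le_one _)) hQP
  have hvf : 𝔓.valuation L (f * f / α) ≤ 𝔓.valuation L (Q : L) ^ 2 :=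
    par2 hd.unif (ev_div hα hev) hvf1
  -- `w` is in `𝔓`
  have hwP : w ∈ 𝔓.asIdeal := by
    rw [← val_lt_mem (L := L)]
    by_contra hcon
    have h1 : (1 : WithZero (Multiplicative ℤ)) ≤ 𝔓.valuation L (algebraMap (𝓞 L) L w) :=
      not_lt.1 hcon
    have h2 : (f * y / α) * (f * y / α) = (f * f / α) * (y * y / α) := by
      field_simp
    have h3 : 𝔓.valuation L ((f * y / α) * (f * y / α)) ≤
        𝔓.valuation L (Q : L) ^ 2 * 𝔓.valuation L (Q : L) ^ 2 := by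
      rw [h2, map_mul]
      exact mul_le_mul' hvf hvz
    rw [hw, map_mul, map_mul] at h3
    have h4 : 𝔓.valuation L (Q : L) * 𝔓.valuation L (Q : L) ≤
        𝔓.valuation L (Q : L) ^ 2 * 𝔓.valuation L (Q : L) ^ 2 := by
      refine le_trans ?_ h3
      exact mul_le_mul' (le_mul_of_one_le_right' h1) (le_mul_of_one_le_right' h1)
    rw [← pow_two] at h4
    have h5 : 𝔓.valuation L (Q : L) ^ 2 * 𝔓.valuation L (Q : L) ^ 2 <
        𝔓.valuation L (Q : L) ^ 2 * 1 :=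
      (mul_lt_mul_iff_right₀ (zero_lt_iff.2 (pow_ne_zero 2 hneP))).2
        (pow_lt_one₀ zero_le hQP two_ne_zero)
    rw [mul_one] at h5
    exact absurd (lt_of_le_of_lt h4 h5) (lt_irrefl _)
  obtain ⟨v, hv⟩ := exO hI h hsq w
  have hr : Q ∣ v 0 := (mem_P1 hQ.pr.2 ht hd.ovP hd.tP hv).1 hwP
  have ht2 : Q ∣ v 2 := by
    obtain ⟨m, hm⟩ := hc2
    rw [hw, Pool.Agent.N227.PQ.co_int_smul, Pool.Agent.N301.PQ.co_crd h hv] at hm
    have hQq : (Q : ℚ) ≠ 0 := by exact_mod_cast hQ.pr.2.ne_zero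
    have h1 : ((v 2 : ℤ) : ℚ) = (Q : ℚ) * m := by
      have h2 : (Q : ℚ) * ((v 2 : ℤ) : ℚ) = (Q : ℚ) * ((Q : ℚ) * m) := by rw [hm]; ring
      exact mul_left_cancel₀ hQq h2
    exact ⟨m, by exact_mod_cast h1⟩
  obtain ⟨r', hr'⟩ := hr
  obtain ⟨t', ht'⟩ := ht2
  -- the number `n`
  obtain ⟨u, u', huu⟩ := hQ.pr.2.irreducible.coprime_iff_not_dvd.2 hf.nd
  obtain ⟨n, hn⟩ : ∃ n, n = u' * v 1 := ⟨_, rfl⟩
  have hnc : v 1 - n * c = Q * (u * v 1) := by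
    rw [hn]
    linear_combination (-(v 1)) * huu
  refine ⟨n, ?_⟩
  obtain ⟨y', hy'⟩ : ∃ y' : L, y' = y - (n : L) * f := ⟨_, rfl⟩
  rw [← hy']
  have hy'm : InB α y' := by
    rw [hy']
    exact hymem.sub hα (hf.mem.zsmul n)
  obtain ⟨z', hz'⟩ := hy'm
  -- `f y' / α` is divisible by `Q ^ 2`
  obtain ⟨w2, hw2⟩ : ∃ w2 : 𝓞 L, f * y' / α = (Q : L) ^ 2 * algebraMap (𝓞 L) L w2 := by
    refine ⟨(r' : 𝓞 L) + ((u * v 1 : ℤ) : 𝓞 L) * t + (t' : 𝓞 L) * t ^ 2 - (n : 𝓞 L) * w1, ?_⟩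
    have e1 : f * y' / α = f * y / α - (n : L) * (f * f / α) := by rw [hy']; ring
    rw [e1, hw, hw1, hv]
    simp only [map_add, map_sub, map_mul, map_pow, mapO, ht]
    have e2 : ((v 1 : ℤ) : L) = (n : L) * (c : L) + (Q : L) * ((u * v 1 : ℤ) : L) := by
      have := congrArg (Int.cast (R := L)) hnc
      rw [Int.cast_sub, Int.cast_mul, Int.cast_mul] at this
      linear_combination this
    rw [hr', ht', e2]
    push_cast
    ring
  -- the valuation of `y' ^ 2 / α` at `𝔮`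
  have hrel : (algebraMap (𝓞 L) L ((c : 𝓞 L) * t + (Q : 𝓞 L) * w1)) * algebraMap (𝓞 L) L z' =
      (Q : L) ^ 3 * algebraMap (𝓞 L) L (w2 * w2) := by
    have h2 : (f * y' / α) * (f * y' / α) = (f * f / α) * (y' * y' / α) := by
      field_simp
    rw [hw2, hw1, ← hz'] at h2
    rw [map_add, map_mul, map_mul, mapO, mapO, ht, map_mul]
    apply mul_left_cancel₀ hQL
    linear_combination -h2
  have hunit : (c : 𝓞 L) * t + (Q : 𝓞 L) * w1 ∉ 𝔮.asIdeal := by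
    intro h1
    have h2 : (c : 𝓞 L) * t ∈ 𝔮.asIdeal := by
      have := 𝔮.asIdeal.sub_mem h1 (𝔮.asIdeal.mul_mem_right w1 hd.ovq)
      rwa [add_sub_cancel_right] at this
    rcases 𝔮.isPrime.mem_or_mem h2 with h3 | h3
    · exact hf.nd ((poly_mem hQ.pr.2 hd.ovq c).1 h3)
    · exact hd.tq h3
  have hvq : 𝔮.valuation L (algebraMap (𝓞 L) L z') ≤ 𝔮.valuation L (Q : L) ^ 2 := by
    have h1 := congrArg (𝔮.valuation L) hrel
    rw [map_mul, map_mul, map_pow,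
      (HeightOneSpectrum.valuation_eq_one_iff_notMem (K := L) 𝔮).2 hunit, one_mul] at h1
    rw [h1]
    calc 𝔮.valuation L (Q : L) ^ 3 * 𝔮.valuation L (algebraMap (𝓞 L) L (w2 * w2))
        ≤ 𝔮.valuation L (Q : L) ^ 3 := mul_le_of_le_one_right' (𝔮.valuation_le_one _)
      _ = 𝔮.valuation L (Q : L) ^ 2 * 𝔮.valuation L (Q : L) := pow_succ _ _
      _ ≤ _ := by
          refine mul_le_of_le_one_right' ?_
          rw [← mapO (O := 𝓞 L)]
          exact 𝔮.valuation_le_one _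
  -- the valuation at `𝔓`
  have hvα : 𝔓.valuation L α ≠ 0 := (Valuation.ne_zero_iff _).2 hα
  have hlt : ∀ x : L, 𝔓.valuation L (x * x / α) < 1 ↔ 𝔓.valuation L x ^ 2 < 𝔓.valuation L α := by
    intro x
    rw [map_div₀, map_mul, ← pow_two, div_lt_one₀ (zero_lt_iff.2 hvα)]
  have hvP : 𝔓.valuation L (y' * y' / α) < 1 := by
    rw [hlt]
    have h1 : 𝔓.valuation L y ^ 2 < 𝔓.valuation L α := by
      rw [← hlt, ← hz]
      exact (val_lt_mem 𝔓 _).2 hzP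
    have h2 : 𝔓.valuation L f ^ 2 < 𝔓.valuation L α := (hlt f).1 hvf1
    have h3 : 𝔓.valuation L y' ≤ max (𝔓.valuation L y) (𝔓.valuation L f) := by
      rw [hy']
      refine (Valuation.map_sub _ _ _).trans (max_le_max le_rfl ?_)
      rw [map_mul, ← mapO (O := 𝓞 L)]
      exact mul_le_of_le_one_left' (𝔓.valuation_le_one _)
    rcases le_max_iff.1 h3 with h4 | h4
    · exact lt_of_le_of_lt (pow_le_pow_left' h4 2) h1
    · exact lt_of_le_of_lt (pow_le_pow_left' h4 2) h2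
  have hvP2 : 𝔓.valuation L (algebraMap (𝓞 L) L z') ≤ 𝔓.valuation L (Q : L) ^ 2 := by
    rw [hz']
    exact par2 hd.unif (ev_div hα hev) hvP
  obtain ⟨z'', hz''⟩ := div2 hQ.pr.2.ne_zero hd hvP2 hvq
  refine ⟨z'', ?_⟩
  have e1 : y' / (Q : L) * (y' / (Q : L)) / α = (y' * y' / α) / (Q : L) ^ 2 := by
    field_simp
  rw [e1, ← hz', hz'', map_mul, map_pow, mapO]
  field_simp

end lat

end Pool.Agent.Helper29L
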