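import Pool.Agent.Helper29L.Lat2

/-!
# Job LAT, part 3: the lattice `ℤ f + D 𝔟`, its basis, duality and determinant
-/

set_option autoImplicit false
set_option linter.all false

open IsDedekindDomain NumberField Matrix
open scoped Classical

namespace Pool.Agent.Helper29L

open Pool.Agent.N922.PQ
open Pool.Agent.N301.PQ (mem_P1 val_lt_mem exO theta_ex mapO poly_mem)
open Pool.Agent.N227.PQ (co_crd eq_co co_smul co_int_smul co_th det_T)
open Pool.Agent.N874.PP (Tup chA chB gq tau Two Ev Sq1 U0 sW)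

section lat

variable {L : Type} [Field L] [NumberField L]

/-- An element with integral coordinates. -/
theorem exists_of_co {a b : ℤ} {θ : L} (h : IsCub a b θ) {t : 𝓞 L}
    (ht : algebraMap (𝓞 L) L t = θ) {z : L} (h1 : ∀ i, ∃ c : ℤ, h.co i z = (c : ℚ)) :
    ∃ w : 𝓞 L, algebraMap (𝓞 L) L w = z := by
  choose c hc using h1
  refine ⟨(c 0 : 𝓞 L) + (c 1 : 𝓞 L) * t + (c 2 : 𝓞 L) * t ^ 2, ?_⟩
  rw [eq_co h z, hc 0, hc 1, hc 2]
  simp only [map_add, map_mul, map_pow, mapO, ht]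
  push_cast
  ring

/-- If all the values of `co 2` on `θ ^ k z` are integers then `z` is integral. -/
theorem int_of_co2 {a b : ℤ} {θ : L} (h : IsCub a b θ) {t : 𝓞 L}
    (ht : algebraMap (𝓞 L) L t = θ) {z : L} (h0 : ∃ c : ℤ, h.co 2 z = (c : ℚ))
    (h1 : ∃ c : ℤ, h.co 2 (θ * z) = (c : ℚ)) (h2 : ∃ c : ℤ, h.co 2 (θ ^ 2 * z) = (c : ℚ)) :
    ∃ w : 𝓞 L, algebraMap (𝓞 L) L w = z := by
  obtain ⟨c0, hc0⟩ := h0
  obtain ⟨c1, hc1⟩ := h1
  obtain ⟨c2, hc2⟩ := h2
  rw [(co_th h z).1] at hc1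
  rw [(co_th h z).2, hc0] at hc2
  apply exists_of_co h ht
  intro i
  fin_cases i
  · exact ⟨c2 + a * c0, by push_cast; linear_combination hc2⟩
  · exact ⟨c1, hc1⟩
  · exact ⟨c0, hc0⟩

/-- The Chinese remainder theorem. -/
theorem crt_B {α f y : L} (hα : α ≠ 0) (hf : InB α f) (Z : Finset ℤ) (hZ : ∀ Q ∈ Z, IsPr Q)
    (hy : InB α y) (h : ∀ Q ∈ Z, ∃ n : ℤ, InB α ((y - (n : L) * f) / (Q : L))) :
    ∃ n : ℤ, InB α ((y - (n : L) * f) / ((∏ Q ∈ Z, Q : ℤ) : L)) := by
  induction Z using Finset.induction_on with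
  | empty => exact ⟨0, by simpa using hy⟩
  | insert Q Z' hQ ih =>
    obtain ⟨n, hn⟩ := ih (fun Q hQ => hZ Q (Finset.mem_insert_of_mem hQ))
      fun Q hQ => h Q (Finset.mem_insert_of_mem hQ)
    obtain ⟨n₀, hn₀⟩ := h Q (Finset.mem_insert_self _ _)
    have hprQ := hZ Q (Finset.mem_insert_self _ _)
    obtain ⟨P, hP⟩ : ∃ P : ℤ, P = ∏ Q ∈ Z', Q := ⟨_, rfl⟩
    have hcop : IsCoprime P Q := by
      rw [hP]
      exact IsCoprime.prod_left fun R hR =>
        isCoprime_of (hZ R (Finset.mem_insert_of_mem hR)) hprQ (fun h => hQ (h ▸ hR))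
    have hP0 : P ≠ 0 := by
      rw [hP]
      exact Finset.prod_ne_zero_iff.2 fun R hR => (hZ R (Finset.mem_insert_of_mem hR)).2.ne_zero
    rw [← hP] at hn
    rw [Finset.prod_insert hQ, ← hP]
    obtain ⟨x, z, hxz⟩ := hcop
    have hxzL : (x : L) * (P : L) + (z : L) * (Q : L) = 1 := by
      exact_mod_cast congrArg (Int.cast (R := L)) hxz
    have hPL : (P : L) ≠ 0 := Q_ne hP0
    have hQL : (Q : L) ≠ 0 := Q_ne hprQ.2.ne_zero
    refine ⟨n * z * Q + n₀ * x * P, ?_⟩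
    -- `(y - n' f) / Q` and `(y - n' f) / P`
    have e1 : (y - ((n * z * Q + n₀ * x * P : ℤ) : L) * f) / (Q : L) =
        (y - (n₀ : L) * f) / (Q : L) + ((z * (n₀ - n) : ℤ) : L) * f := by
      field_simp
      push_cast
      linear_combination ((n₀ : L) * f) * (-hxzL)
    have e2 : (y - ((n * z * Q + n₀ * x * P : ℤ) : L) * f) / (P : L) =
        (y - (n : L) * f) / (P : L) + ((x * (n - n₀) : ℤ) : L) * f := by
      field_simp
      push_cast
      linear_combination ((n : L) * f) * (-hxzL)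
    have h1 : InB α ((y - ((n * z * Q + n₀ * x * P : ℤ) : L) * f) / (Q : L)) := by
      rw [e1]
      exact hn₀.add hα (hf.zsmul _)
    have h2 : InB α ((y - ((n * z * Q + n₀ * x * P : ℤ) : L) * f) / (P : L)) := by
      rw [e2]
      exact hn.add hα (hf.zsmul _)
    have h3 := (h1.zsmul x).add hα (h2.zsmul z)
    convert h3 using 1
    rw [Int.cast_mul Q P]
    field_simp
    linear_combination (-(y - ((n * z * Q + n₀ * x * P : ℤ) : L) * f)) * hxzL

/-- The lattice. -/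
def Lam (α f : L) (D : ℤ) (hα : α ≠ 0) : Submodule ℤ L where
  carrier := {y | ∃ (n : ℤ) (x : L), InB α x ∧ y = (n : L) * f + (D : L) * x}
  zero_mem' := ⟨0, 0, InB.zero α, by simp⟩
  add_mem' := by
    rintro _ _ ⟨n, x, hx, rfl⟩ ⟨m, y, hy, rfl⟩
    exact ⟨n + m, x + y, hx.add hα hy, by push_cast; ring⟩
  smul_mem' := by
    rintro c _ ⟨n, x, hx, rfl⟩
    exact ⟨c * n, (c : L) * x, hx.zsmul c, by rw [zsmul_eq_mul]; push_cast; ring⟩

theorem mem_Lam {α f y : L} {D : ℤ} {hα : α ≠ 0} : y ∈ Lam α f D hα ↔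
    ∃ (n : ℤ) (x : L), InB α x ∧ y = (n : L) * f + (D : L) * x := Iff.rfl

theorem Lam_le {α f y : L} {D : ℤ} {hα : α ≠ 0} (hf : InB α f) (hy : y ∈ Lam α f D hα) :
    InB α y := by
  obtain ⟨n, x, hx, rfl⟩ := hy
  exact (hf.zsmul n).add hα (hx.zsmul D)

/-- A basis of a lattice. -/
theorem basis_M (hr : Module.finrank ℚ L = 3) (M : Submodule ℤ L) (γ : L)
    (hγ : ∀ y ∈ M, ∃ z : 𝓞 L, y = γ * algebraMap (𝓞 L) L z)
    (hsp : ∀ x : L, ∃ n : ℤ, n ≠ 0 ∧ (n : L) * x ∈ M) :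
    ∃ e : Fin 3 → L, LinearIndependent ℚ e ∧ (∀ i, e i ∈ M) ∧
      ∀ y ∈ M, ∃ c : Fin 3 → ℤ, y = ∑ i, (c i : L) * e i := by
  haveI h3 : Module.Finite ℤ M := by
    set φ : 𝓞 L →ₗ[ℤ] L := ((LinearMap.mul ℤ L γ) ∘ₗ
      ((algebraMap (𝓞 L) L).toIntAlgHom.toLinearMap)) with hφ
    have hle : M ≤ LinearMap.range φ := by
      intro y hy
      obtain ⟨z, hz⟩ := hγ y hy
      exact ⟨z, hz.symm⟩
    haveI : IsNoetherian ℤ (LinearMap.range φ) := isNoetherian_of_surjective φ.rangeRestrict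
      (LinearMap.range_eq_top.2 φ.surjective_rangeRestrict)
    have h4 : IsNoetherian ℤ M := isNoetherian_of_injective (Submodule.inclusion hle)
      (Submodule.inclusion_injective hle)
    infer_instance
  haveI : Module.IsTorsionFree ℤ L := inferInstance
  haveI : Module.IsTorsionFree ℤ M := inferInstance
  haveI : Module.Free ℤ M := inferInstance
  let B := Module.Free.chooseBasis ℤ M
  have hli : LinearIndependent ℤ (fun i => (B i : L)) :=
    B.linearIndependent.map' M.subtype (Submodule.ker_subtype M)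
  have hliK : LinearIndependent ℚ (fun i => (B i : L)) :=
    (LinearIndependent.iff_fractionRing ℤ ℚ).1 hli
  have hsum : ∀ y ∈ M, ∃ c : Module.Free.ChooseBasisIndex ℤ M → ℤ,
      y = ∑ i, (c i : L) * (B i : L) := by
    intro y hy'
    refine ⟨fun i => B.repr ⟨y, hy'⟩ i, ?_⟩
    have h4 := congrArg (Subtype.val) (B.sum_repr ⟨y, hy'⟩)
    have h5 : ((∑ i, (B.repr ⟨y, hy'⟩) i • B i : M) : L) =
        ∑ i, ((B.repr ⟨y, hy'⟩ i : ℤ) : L) * (B i : L) := by
      rw [Submodule.coe_sum]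
      refine Finset.sum_congr rfl fun i _ => ?_
      rw [Submodule.coe_smul, zsmul_eq_mul]
    exact h4.symm.trans h5
  have hspanI : ∀ y ∈ M, y ∈ Submodule.span ℚ (Set.range fun i => (B i : L)) := by
    intro y hy
    obtain ⟨c, hc'⟩ := hsum y hy
    rw [hc']
    refine Submodule.sum_mem _ fun i _ => ?_
    have : ((c i : ℤ) : L) * (B i : L) = ((c i : ℤ) : ℚ) • (B i : L) := by
      rw [Algebra.smul_def, map_intCast]
    rw [this]
    exact Submodule.smul_mem _ _ (Submodule.subset_span ⟨i, rfl⟩)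
  have hspan : ⊤ ≤ Submodule.span ℚ (Set.range fun i => (B i : L)) := by
    intro x _
    obtain ⟨n, hn, hx⟩ := hsp x
    have hnL : ((n : ℤ) : L) ≠ 0 := by exact_mod_cast hn
    have hx' : x = ((n : ℚ)⁻¹) • ((n : L) * x) := by
      rw [Algebra.smul_def, map_inv₀, map_intCast]
      field_simp
    rw [hx']
    exact Submodule.smul_mem _ _ (hspanI _ hx)
  have hcard : Fintype.card (Module.Free.ChooseBasisIndex ℤ M) = 3 := by
    rw [← Module.finrank_eq_card_basis (Module.Basis.mk hliK hspan), hr]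
  let E : Fin 3 ≃ Module.Free.ChooseBasisIndex ℤ M := (Fintype.equivFinOfCardEq hcard).symm
  refine ⟨fun i => (B (E i) : L), hliK.comp E E.injective, fun i => (B (E i)).2, ?_⟩
  intro y hy
  obtain ⟨c, hc'⟩ := hsum y hy
  refine ⟨fun i => c (E i), ?_⟩
  rw [hc', ← E.sum_comp]

/-- The determinant of an integral self-dual Gram matrix of `co 2`. -/
theorem det_dual {a b : ℤ} {θ : L} (h : IsCub a b θ) {α : L} (e : Fin 3 → L) (hα : α ≠ 0)
    (hN : IsSquare (Algebra.norm ℚ α)) (hli : LinearIndependent ℚ e)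
    (G : Matrix (Fin 3) (Fin 3) ℤ) (hG : ∀ i j, (G i j : ℚ) = h.co 2 (e i * e j / α))
    (hdual : ∀ y : L, (∀ i, ∃ c : ℤ, (c : ℚ) = h.co 2 (e i * y / α)) →
      ∃ c : Fin 3 → ℤ, y = ∑ i, (c i : L) * e i) : G.det = -1 := by
  set Gq : Matrix (Fin 3) (Fin 3) ℚ := Matrix.of fun i j => h.co 2 (e i * e j / α) with hGq
  have hGqe : Gq = G.map (Int.cast : ℤ → ℚ) := by
    ext i j
    rw [hGq, Matrix.of_apply, Matrix.map_apply, hG]
  have hdet : Gq.det = ((G.det : ℤ) : ℚ) := by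
    rw [hGqe]
    exact (Int.cast_det G).symm
  obtain ⟨s, hs⟩ := hN
  have hNα : Algebra.norm ℚ α ≠ 0 := Algebra.norm_ne_zero_iff.2 hα
  have hs0 : s ≠ 0 := by rintro rfl; exact hNα (by rw [hs]; ring)
  set P : Matrix (Fin 3) (Fin 3) ℚ := Matrix.of fun i k => h.basis.repr (e i) k with hP
  have hPe : ∀ i, e i = ∑ k, P i k • h.basis k := by
    intro i
    rw [← h.basis.sum_repr (e i)]
    rfl
  have hfac : Gq = P * (Matrix.of fun i j : Fin 3 => h.co 2 (h.basis i * h.basis j * α⁻¹)) * Pᵀ := by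
    ext i j
    rw [Matrix.mul_apply, hGq, Matrix.of_apply, div_eq_mul_inv]
    conv_lhs => rw [hPe j, Finset.mul_sum, Finset.sum_mul, map_sum]
    refine Finset.sum_congr rfl fun l _ => ?_
    rw [Matrix.mul_apply, Finset.sum_mul]
    conv_lhs => rw [hPe i, Finset.sum_mul, Finset.sum_mul, map_sum]
    refine Finset.sum_congr rfl fun k _ => ?_
    rw [Matrix.of_apply, Matrix.transpose_apply, smul_mul_smul_comm, smul_mul_assoc, map_smul,
      smul_eq_mul]
    ring
  have hdetq : Gq.det = - (P.det / s) ^ 2 := by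
    have hinvn : Algebra.norm ℚ α⁻¹ = (s * s)⁻¹ := by
      apply eq_inv_of_mul_eq_one_left
      rw [← hs, ← map_mul, inv_mul_cancel₀ hα, map_one]
    rw [hfac, Matrix.det_mul, Matrix.det_mul, det_T, Matrix.det_transpose, hinvn]
    field_simp
  have hPdet : P.det ≠ 0 := by
    intro h0
    obtain ⟨v, hv0, hv⟩ := Matrix.exists_vecMul_eq_zero_iff.2 h0
    have : ∑ i, v i • e i = 0 := by
      have e1 : ∑ i, v i • e i = ∑ k, (v ᵥ* P) k • h.basis k := by
        calc ∑ i, v i • e i = ∑ i, ∑ k, (v i * P i k) • h.basis k := by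
              refine Finset.sum_congr rfl fun i _ => ?_
              rw [hPe i, Finset.smul_sum]
              simp_rw [smul_smul]
          _ = ∑ k, ∑ i, (v i * P i k) • h.basis k := Finset.sum_comm
          _ = ∑ k, (v ᵥ* P) k • h.basis k := by
              refine Finset.sum_congr rfl fun k _ => ?_
              rw [← Finset.sum_smul]
              rfl
      rw [e1, hv]
      simp
    apply hv0
    ext i
    exact Fintype.linearIndependent_iff.1 hli v this i
  have hneg : Gq.det < 0 := by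
    rw [hdetq]
    have : P.det / s ≠ 0 := div_ne_zero hPdet hs0
    have := sq_pos_of_ne_zero this
    linarith
  have hunit : IsUnit Gq.det := hneg.ne.isUnit
  have hinv : ∀ i, ∃ c : Fin 3 → ℤ, ∀ k, (c k : ℚ) = Gq⁻¹ i k := by
    intro i
    obtain ⟨c, hc⟩ := hdual (∑ k, Gq⁻¹ i k • e k) (by
      intro j
      refine ⟨if i = j then 1 else 0, ?_⟩
      have e1 : e j * (∑ k, Gq⁻¹ i k • e k) / α = ∑ k, Gq⁻¹ i k • (e k * e j / α) := by
        rw [Finset.mul_sum, Finset.sum_div]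
        refine Finset.sum_congr rfl fun k _ => ?_
        rw [mul_smul_comm, smul_div_assoc, mul_comm (e j)]
      rw [e1, map_sum]
      have e2 : ∑ k, h.co 2 (Gq⁻¹ i k • (e k * e j / α)) = (Gq⁻¹ * Gq) i j := by
        rw [Matrix.mul_apply]
        refine Finset.sum_congr rfl fun k _ => ?_
        rw [map_smul, smul_eq_mul, hGq, Matrix.of_apply]
      rw [e2, Matrix.nonsing_inv_mul _ hunit, Matrix.one_apply]
      split_ifs <;> simp)
    refine ⟨c, fun k => ?_⟩
    have e3 : ∑ k, ((c k : ℚ) - Gq⁻¹ i k) • e k = 0 := by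
      simp_rw [sub_smul]
      rw [Finset.sum_sub_distrib, hc, sub_eq_zero]
      refine Finset.sum_congr rfl fun k _ => ?_
      rw [Rat.smul_def]
      push_cast
      rfl
    have := Fintype.linearIndependent_iff.1 hli _ e3 k
    linarith
  choose K hK using hinv
  have hdetK : Gq⁻¹.det = (((Matrix.of K).det : ℤ) : ℚ) := by
    have : Gq⁻¹ = (Matrix.of K).map (Int.cast : ℤ → ℚ) := by
      ext i k
      rw [Matrix.map_apply, Matrix.of_apply, hK]
    rw [this]
    exact (Int.cast_det (Matrix.of K)).symm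
  have hprod : G.det * (Matrix.of K).det = 1 := by
    have : Gq.det * Gq⁻¹.det = 1 := by
      rw [← Matrix.det_mul, Matrix.mul_nonsing_inv _ hunit, Matrix.det_one]
    rw [hdet, hdetK] at this
    exact_mod_cast this
  have hlt : G.det < 0 := by
    rw [hdet] at hneg
    exact_mod_cast hneg
  rcases Int.isUnit_iff.1 (IsUnit.of_mul_eq_one _ hprod) with h1 | h1
  · omega
  · exact h1

/-- The cubic `D θ`. -/
theorem cubD {a b : ℤ} {θ : L} (h : IsCub a b θ) {D : ℤ} (hD : D ≠ 0) :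
    IsCub (a * D ^ 2) (b * D ^ 3) ((D : L) * θ) := by
  have hDL : (D : L) ≠ 0 := Q_ne hD
  refine ⟨?_, h.rank, ?_⟩
  · push_cast
    linear_combination (D : L) ^ 3 * h.root
  · intro x
    obtain ⟨r, s, t, rfl⟩ := h.gen x
    refine ⟨r, s / D, t / D ^ 2, ?_⟩
    push_cast
    field_simp

theorem coD {a b : ℤ} {θ : L} (h : IsCub a b θ) {D : ℤ} (hD : D ≠ 0) (x : L) :
    (cubD h hD).co 1 x = h.co 1 x / D ∧ (cubD h hD).co 2 x = h.co 2 x / (D : ℚ) ^ 2 := by
  have hDL : (D : L) ≠ 0 := Q_ne hD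
  have e := eq_co h x
  have e1 : x = ((h.co 0 x : ℚ) : L) + ((h.co 1 x / D : ℚ) : L) * ((D : L) * θ) +
      ((h.co 2 x / (D : ℚ) ^ 2 : ℚ) : L) * ((D : L) * θ) ^ 2 := by
    conv_lhs => rw [e]
    push_cast
    field_simp
  have h2 := co_crd (cubD h hD) (h.co 0 x) (h.co 1 x / D) (h.co 2 x / (D : ℚ) ^ 2)
  rw [← e1] at h2
  exact ⟨h2.2.1, h2.2.2⟩

end lat

end Pool.Agent.Helper29L
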