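import Pool.Agent.Helper29L.Lat3

/-!
# Job LAT, part 4: the unimodular lattice for the pair `(a D ^ 2, b D ^ 3)`
-/

set_option autoImplicit false
set_option linter.all false

open IsDedekindDomain NumberField Matrix
open scoped Classical

namespace Pool.Agent.Helper29L

open Pool.Agent.N922.PQ
open Pool.Agent.N301.PQ (mem_P1 val_lt_mem exO theta_ex mapO poly_mem)
open Pool.Agent.N227.PQ (co_crd eq_co co_smul co_int_smul co_th det_T)
open Pool.Agent.N874.PP (Tup chA chB gq tau Two Ev Sq1 U0 sW)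

section lat

variable {L : Type} [Field L] [NumberField L]

/-- Divisibility by a product of coprime numbers. -/
theorem dvd_prod_O {x : L} (Z : Finset ℤ) (hZ : ∀ Q ∈ Z, IsPr Q)
    (h0 : ∃ w : 𝓞 L, x = algebraMap (𝓞 L) L w)
    (h : ∀ Q ∈ Z, ∃ w : 𝓞 L, x = (Q : L) * algebraMap (𝓞 L) L w) :
    ∃ w : 𝓞 L, x = ((∏ Q ∈ Z, Q : ℤ) : L) * algebraMap (𝓞 L) L w := by
  induction Z using Finset.induction_on with
  | empty => simpa using h0
  | insert Q Z' hQ ih =>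
    obtain ⟨w, hw⟩ := ih (fun Q hQ => hZ Q (Finset.mem_insert_of_mem hQ))
      fun Q hQ => h Q (Finset.mem_insert_of_mem hQ)
    obtain ⟨w', hw'⟩ := h Q (Finset.mem_insert_self _ _)
    have hprQ := hZ Q (Finset.mem_insert_self _ _)
    obtain ⟨P, hP⟩ : ∃ P : ℤ, P = ∏ Q ∈ Z', Q := ⟨_, rfl⟩
    have hcop : IsCoprime P Q := by
      rw [hP]
      exact IsCoprime.prod_left fun R hR =>
        isCoprime_of (hZ R (Finset.mem_insert_of_mem hR)) hprQ (fun h => hQ (h ▸ hR))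
    rw [← hP] at hw
    rw [Finset.prod_insert hQ, ← hP]
    obtain ⟨u, v, huv⟩ := hcop
    have huvL : (u : L) * (P : L) + (v : L) * (Q : L) = 1 := by
      exact_mod_cast congrArg (Int.cast (R := L)) huv
    refine ⟨(u : 𝓞 L) * w' + (v : 𝓞 L) * w, ?_⟩
    rw [map_add, map_mul, map_mul, mapO, mapO]
    have e1 : ((Q * P : ℤ) : L) * ((u : L) * algebraMap (𝓞 L) L w' + (v : L) * algebraMap (𝓞 L) L w)
        = (u : L) * (P : L) * ((Q : L) * algebraMap (𝓞 L) L w') +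
          (v : L) * (Q : L) * ((P : L) * algebraMap (𝓞 L) L w) := by
      push_cast
      ring
    rw [e1, ← hw, ← hw', ← add_mul, huvL, one_mul]

/-- Integer coordinates of integral elements. -/
theorem co_int {a b : ℤ} {θ : L} (h : IsCub a b θ) (hsq : Squarefree (dsc a b)) (w : 𝓞 L)
    (i : Fin 3) : ∃ c : ℤ, h.co i (algebraMap (𝓞 L) L w) = (c : ℚ) := by
  obtain ⟨v, hv⟩ := exO Pool.Agent.N849.PQ.int h hsq w
  exact ⟨v i, Pool.Agent.N301.PQ.co_crd h hv i⟩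

/-- a multiple in the lattice -/
theorem exists_mult {α : L} (x : L) : ∃ m : ℤ, m ≠ 0 ∧ InB α ((m : L) * x) := by
  have halg : Algebra.IsAlgebraic ℤ L := (IsFractionRing.comap_isAlgebraic_iff (A := ℤ)
    (K := ℚ) (C := L)).2 inferInstance
  obtain ⟨n, hn, hint⟩ := (halg.isAlgebraic (x * x / α)).exists_integral_multiple
  obtain ⟨z, hz⟩ := (IsIntegralClosure.isIntegral_iff (A := 𝓞 L)).1 hint
  refine ⟨n, hn, ⟨(n : 𝓞 L) * z, ?_⟩⟩
  rw [map_mul, mapO, hz, zsmul_eq_mul]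
  ring

/-- **The lattice.** -/
theorem lattice {a b : ℤ} {θ : L} (h : IsCub a b θ) (hsq : Squarefree (dsc a b)) (Z : Finset ℤ)
    (hZ : ∀ Q ∈ Z, Gp a b Q) {D : ℤ} (hD0 : D ≠ 0) (hD : D = ∏ Q ∈ Z, Q) {α : L}
    (hs : InSel a b Z θ α)
    (hodd : ∀ Q ∈ Z, ∀ 𝔓 : HeightOneSpectrum (𝓞 L), Ov Q 𝔓 → 𝔓.valuation L θ = 1 → ¬ Ev 𝔓 α) :
    ∃ (e : Fin 3 → L) (G B : Matrix (Fin 3) (Fin 3) ℤ), LinearIndependent ℚ e ∧
      (∀ i, InB α (e i)) ∧ (∀ y, InB α y → ∃ c : Fin 3 → ℤ, (D : L) * y = ∑ i, (c i : L) * e i) ∧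
      G.det = -1 ∧ (∀ i j, (G i j : ℚ) = (cubD h hD0).co 2 (e i * e j / α)) ∧
      ∀ i j, (B i j : ℚ) = (cubD h hD0).co 1 (e i * e j / α) := by
  have hα := hs.ne
  obtain ⟨t, ht⟩ := theta_ex (𝓞 L) h
  have hDL : (D : L) ≠ 0 := Q_ne hD0
  have hDq : (D : ℚ) ≠ 0 := by exact_mod_cast hD0
  have hZpr : ∀ Q ∈ Z, IsPr Q := fun Q hQ => (hZ Q hQ).pr
  -- the primes
  have hPD : ∀ Q ∈ Z, ∃ 𝔓 𝔮 : HeightOneSpectrum (𝓞 L), PD Q t 𝔓 𝔮 := fun Q hQ =>
    exists_PD h hsq (hZ Q hQ) ht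
  have hevP : ∀ Q ∈ Z, ∀ 𝔓 𝔮 : HeightOneSpectrum (𝓞 L), PD Q t 𝔓 𝔮 → Ev 𝔓 α := by
    intro Q hQ 𝔓 𝔮 hd
    apply hs.ev
    rintro Q' _ ⟨_, h2⟩
    have h3 := (val_lt_mem (L := L) 𝔓 t).2 hd.tP
    rw [ht, h2] at h3
    exact lt_irrefl _ h3
  have hθq : ∀ Q ∈ Z, ∀ 𝔓 𝔮 : HeightOneSpectrum (𝓞 L), PD Q t 𝔓 𝔮 → 𝔮.valuation L θ = 1 := by
    intro Q hQ 𝔓 𝔮 hd
    rw [← ht]
    exact (HeightOneSpectrum.valuation_eq_one_iff_notMem (K := L) 𝔮).2 hd.tq
  -- the element `f`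
  obtain ⟨f, hf, hfQ⟩ := exists_f (α := α) (θ := θ) Z hZpr (by
    intro Q hQ
    obtain ⟨𝔓, 𝔮, hd⟩ := hPD Q hQ
    refine exists_f1 (hZ Q hQ).pr.2 ht hd hα (hevP Q hQ 𝔓 𝔮 hd) ?_
    exact (hs.u0 Q hQ 𝔮 hd.ovq (hθq Q hQ 𝔓 𝔮 hd)).2
      (hodd Q hQ 𝔮 hd.ovq (hθq Q hQ 𝔓 𝔮 hd))) hα
  -- local generators
  have hloc : ∀ v : HeightOneSpectrum (𝓞 L), ∃ x, InB α x ∧
      v.valuation L α * v.valuation L (D : L) ≤ v.valuation L x ^ 2 := by
    intro v
    have hvα : v.valuation L α ≠ 0 := (Valuation.ne_zero_iff _).2 hα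
    have key : ∀ (s : L) (q : WithZero (Multiplicative ℤ)), q ≤ 1 → v.valuation L (D : L) ≤ q →
        v.valuation L s ^ 2 = v.valuation L α * q → ∃ x, InB α x ∧
        v.valuation L α * v.valuation L (D : L) ≤ v.valuation L x ^ 2 := by
      intro s q hq hDq hsq'
      obtain ⟨d, hd, hds⟩ := exists_mul (α := α) (s := s) (v := v) (by
        rw [map_div₀, map_mul, ← pow_two, hsq']
        rw [mul_div_assoc, mul_comm, div_mul_cancel₀ _ hvα]
        exact hq)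
      refine ⟨_, hds, ?_⟩
      rw [map_mul, (HeightOneSpectrum.valuation_eq_one_iff_notMem (K := L) v).2 hd, one_mul, hsq']
      exact mul_le_mul_right hDq _
    by_cases hcase : ∃ Q ∈ Z, Ov Q v ∧ v.valuation L θ = 1
    · obtain ⟨Q, hQ, hov, hvθ⟩ := hcase
      obtain ⟨s, hs'⟩ := (hs.u0 Q hQ v hov hvθ).2 (hodd Q hQ v hov hvθ)
      have hvs : v.valuation L (s ^ 2) = v.valuation L (α * ((Q : L) * θ)) := by
        have h1 : s ^ 2 = α * ((Q : L) * θ) - (α * ((Q : L) * θ) - s ^ 2) := by ring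
        rw [h1]
        exact Valuation.map_sub_eq_of_lt_left _ hs'
      refine key s (v.valuation L (Q : L)) ?_ ?_ ?_
      · rw [← mapO (O := 𝓞 L)]
        exact v.valuation_le_one _
      · obtain ⟨P', hP'⟩ : Q ∣ D := hD ▸ Finset.dvd_prod_of_mem _ hQ
        rw [hP', Int.cast_mul, map_mul]
        refine mul_le_of_le_one_right' ?_
        rw [← mapO (O := 𝓞 L)]
        exact v.valuation_le_one _
      · rw [← map_pow, hvs, map_mul, map_mul, hvθ, mul_one]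
    · obtain ⟨s, hs'⟩ := hs.ev v (fun Q hQ h1 => hcase ⟨Q, hQ, h1⟩)
      refine key s 1 le_rfl ?_ ?_
      · rw [← mapO (O := 𝓞 L)]
        exact v.valuation_le_one _
      · rw [hs', mul_one]
  -- `f` pairs with the lattice into `D O`
  have hfpair : ∀ x, InB α x → ∃ w : 𝓞 L, f * x / α = (D : L) * algebraMap (𝓞 L) L w := by
    intro x hx
    obtain ⟨z, hz⟩ := hf.prod hα hx
    rw [hD]
    refine dvd_prod_O Z hZpr ⟨z, hz.symm⟩ ?_
    intro Q hQ
    obtain ⟨c, hc⟩ := hfQ Q hQ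
    exact hc.pair x hx
  have hff2 : ∃ m : ℤ, h.co 2 (f * f / α) = (D : ℚ) ^ 2 * m := by
    obtain ⟨z, hz⟩ := hf
    obtain ⟨N, hN⟩ := co_int h hsq z 2
    rw [hz] at hN
    have h1 : D ^ 2 ∣ N := by
      have h2 : (∏ Q ∈ Z, Q ^ 2) ∣ N := by
        apply Finset.prod_dvd_of_coprime
        · intro P hP Q hQ hne
          exact (isCoprime_of (hZpr P hP) (hZpr Q hQ) hne).pow
        · intro Q hQ
          obtain ⟨c, hc⟩ := hfQ Q hQ
          obtain ⟨w, hw⟩ := hc.val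
          obtain ⟨m, hm⟩ := co_int h hsq w 2
          refine ⟨m, ?_⟩
          have h3 : h.co 2 (f * f / α) = (Q : ℚ) ^ 2 * m := by
            have e1 : f * f / α = ((Q * c : ℤ) : L) * θ + ((Q ^ 2 : ℤ) : L) * algebraMap (𝓞 L) L w := by
              rw [hw]; push_cast; ring
            have e2 : h.co 2 θ = 0 := by
              have := (co_crd h 0 1 0).2.2
              simpa using this
            rw [e1, map_add, co_int_smul, co_int_smul, e2, hm]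
            push_cast
            ring
          rw [hN] at h3
          exact_mod_cast h3
      rw [hD, ← Finset.prod_pow]
      exact h2
    obtain ⟨m, hm⟩ := h1
    refine ⟨m, ?_⟩
    rw [hN, hm]
    push_cast
    ring
  -- products of elements of the lattice
  set M := Lam α f D hα with hM
  have hfM : f ∈ M := ⟨1, 0, InB.zero α, by simp⟩
  have hDM : ∀ x, InB α x → (D : L) * x ∈ M := fun x hx => ⟨0, x, hx, by simp⟩
  have hprod : ∀ x ∈ M, ∀ y ∈ M, (∃ m : ℤ, h.co 2 (x * y / α) = (D : ℚ) ^ 2 * m) ∧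
      ∃ m : ℤ, h.co 1 (x * y / α) = (D : ℚ) * m := by
    rintro _ ⟨n, u, hu, rfl⟩ _ ⟨m, v, hv, rfl⟩
    obtain ⟨w0, hw0⟩ := hfpair f hf
    obtain ⟨w1, hw1⟩ := hfpair v hv
    obtain ⟨w2, hw2⟩ := hfpair u hu
    obtain ⟨w3, hw3⟩ := hu.prod hα hv
    have e1 : ((n : L) * f + (D : L) * u) * ((m : L) * f + (D : L) * v) / α =
        ((n * m : ℤ) : L) * (f * f / α) + ((D ^ 2 : ℤ) : L) * algebraMap (𝓞 L) L
          ((n : 𝓞 L) * w1 + (m : 𝓞 L) * w2 + w3) := by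
      simp only [map_add, map_mul, mapO]
      have e2 : ((n : L) * f + (D : L) * u) * ((m : L) * f + (D : L) * v) / α =
        (n : L) * (m : L) * (f * f / α) + (D : L) * (n : L) * (f * v / α) +
          (D : L) * (m : L) * (f * u / α) + (D : L) ^ 2 * (u * v / α) := by ring
      rw [e2, hw1, hw2, ← hw3]
      push_cast
      ring
    constructor
    · obtain ⟨m1, hm1⟩ := hff2
      obtain ⟨m2, hm2⟩ := co_int h hsq ((n : 𝓞 L) * w1 + (m : 𝓞 L) * w2 + w3) 2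
      refine ⟨n * m * m1 + m2, ?_⟩
      rw [e1, map_add, co_int_smul, co_int_smul, hm1, hm2]
      push_cast
      ring
    · obtain ⟨m1, hm1⟩ := co_int h hsq w0 1
      obtain ⟨m2, hm2⟩ := co_int h hsq ((n : 𝓞 L) * w1 + (m : 𝓞 L) * w2 + w3) 1
      refine ⟨n * m * m1 + D * m2, ?_⟩
      rw [e1, map_add, co_int_smul, co_int_smul, hw0, co_int_smul, hm1, hm2]
      push_cast
      ring
  -- the basis
  obtain ⟨m0, hm0, hy0⟩ := exists_mult (α := α) α
  have hy00 : (m0 : L) * α ≠ 0 := mul_ne_zero (Q_ne hm0) hα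
  obtain ⟨e, hli, hmem, hbas⟩ := basis_M h.rank M (α / ((m0 : L) * α)) (by
    intro y hy
    obtain ⟨z, hz⟩ := (Lam_le hf hy).prod hα hy0
    refine ⟨z, ?_⟩
    rw [hz]
    field_simp) (by
    intro x
    obtain ⟨m, hm, hx⟩ := exists_mult (α := α) x
    refine ⟨D * m, mul_ne_zero hD0 hm, ?_⟩
    have := hDM _ hx
    convert this using 1
    push_cast
    ring)
  -- the matrices
  have hG : ∀ i j, ∃ m : ℤ, (m : ℚ) = (cubD h hD0).co 2 (e i * e j / α) := by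
    intro i j
    obtain ⟨m, hm⟩ := (hprod _ (hmem i) _ (hmem j)).1
    refine ⟨m, ?_⟩
    rw [(coD h hD0 _).2, hm]
    field_simp
  have hB : ∀ i j, ∃ m : ℤ, (m : ℚ) = (cubD h hD0).co 1 (e i * e j / α) := by
    intro i j
    obtain ⟨m, hm⟩ := (hprod _ (hmem i) _ (hmem j)).2
    refine ⟨m, ?_⟩
    rw [(coD h hD0 _).1, hm]
    field_simp
  choose G hG using hG
  choose B hB using hB
  refine ⟨e, Matrix.of G, Matrix.of B, hli, fun i => Lam_le hf (hmem i), fun y hy => hbas _ (hDM y hy),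
    ?_, fun i j => hG i j, fun i j => hB i j⟩
  -- duality
  refine det_dual (cubD h hD0) e hα hs.norm hli (Matrix.of G) (fun i j => hG i j) ?_
  intro y hy
  -- values on the lattice
  have hval : ∀ x ∈ M, ∃ m : ℤ, h.co 2 (x * y / α) = (D : ℚ) ^ 2 * m := by
    intro x hx
    obtain ⟨c, hc⟩ := hbas x hx
    choose k hk using hy
    refine ⟨∑ i, c i * k i, ?_⟩
    have e1 : x * y / α = ∑ i, (c i : L) * (e i * y / α) := by
      rw [hc, Finset.sum_mul, Finset.sum_div]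
      refine Finset.sum_congr rfl fun i _ => by ring
    rw [e1, map_sum]
    push_cast
    rw [Finset.mul_sum]
    refine Finset.sum_congr rfl fun i _ => ?_
    have h2 := hk i
    rw [(coD h hD0 _).2] at h2
    rw [co_int_smul, h2]
    field_simp
  have hyB : ∀ x, InB α x → ∃ w : 𝓞 L, x * y / α = (D : L) * algebraMap (𝓞 L) L w := by
    intro x hx
    have h1 : ∀ x', InB α x' → ∃ m : ℤ, h.co 2 (x' * y / α / (D : L)) = (m : ℚ) := by
      intro x' hx'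
      obtain ⟨m, hm⟩ := hval _ (hDM x' hx')
      refine ⟨m, ?_⟩
      have e1 : (D : L) * x' * y / α = ((D ^ 2 : ℤ) : L) * (x' * y / α / (D : L)) := by
        push_cast
        field_simp
      rw [e1, co_int_smul] at hm
      have hD2 : (D : ℚ) ^ 2 ≠ 0 := pow_ne_zero 2 hDq
      push_cast at hm
      exact mul_left_cancel₀ hD2 hm
    obtain ⟨w, hw⟩ := int_of_co2 h ht (z := x * y / α / (D : L)) (h1 x hx) (by
      obtain ⟨m, hm⟩ := h1 (θ * x) (by have := hx.smul t; rwa [ht] at this)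
      refine ⟨m, ?_⟩
      rw [← hm]
      congr 1
      ring) (by
      obtain ⟨m, hm⟩ := h1 (θ ^ 2 * x) (by have := hx.smul (t ^ 2); rwa [map_pow, ht] at this)
      refine ⟨m, ?_⟩
      rw [← hm]
      congr 1
      ring)
    refine ⟨w, ?_⟩
    rw [hw]
    field_simp
  obtain ⟨w, hw⟩ := dual_mem hα hDL hloc hyB
  have hymem : InB α y := ⟨(D : 𝓞 L) * w, by rw [map_mul, mapO, hw]⟩
  obtain ⟨n, hn⟩ := crt_B hα hf Z hZpr hymem (by
    intro Q hQ
    obtain ⟨𝔓, 𝔮, hd⟩ := hPD Q hQ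
    obtain ⟨c, hc⟩ := hfQ Q hQ
    obtain ⟨P', hP'⟩ : Q ∣ D := hD ▸ Finset.dvd_prod_of_mem _ hQ
    refine dualQ h hsq (hZ Q hQ) ht hd hα (hevP Q hQ 𝔓 𝔮 hd) hc (z := (D : 𝓞 L) * w)
      (by rw [map_mul, mapO, hw]) ?_ ?_
    · rw [hP', Int.cast_mul]
      exact 𝔓.asIdeal.mul_mem_right _ (𝔓.asIdeal.mul_mem_right _ hd.ovP)
    · obtain ⟨m, hm⟩ := hval f hfM
      refine ⟨P' ^ 2 * m, ?_⟩
      rw [hm, hP']
      push_cast
      ring)
  rw [← hD] at hn
  apply hbas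
  refine ⟨n, _, hn, ?_⟩
  field_simp
  ring

end lat

end Pool.Agent.Helper29L
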