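import Pool.Agent.Helper29L.Stm3
import Pool.Agent.Lib.helper27.WPNT

/-!
# Project PR (helper29), Job WIN (helper90): many primes which are `1` modulo `8` in every long window
-/

set_option autoImplicit false
set_option linter.all false

open Finset Filter
open scoped Classical

namespace Pool.Agent.Helper29L

/-- **Job WIN.** -/
theorem win : S_WIN := by
  intro N η hη
  have h8 : NeZero (8 : ℕ) := ⟨by norm_num⟩
  have hε : 0 < η / (2 * (1 + η)) := by positivity
  obtain ⟨c, hc, M, hM⟩ := Pool.Agent.Lib.helper27.WPNT.weak_pnt_ap (q := 8) (r := 1) isUnit_one hε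
  -- `N log Z ≤ c Z` eventually
  have h1 : ∀ᶠ x : ℝ in atTop, ‖Real.log x‖ ≤ (c / (N + 1)) * ‖x‖ :=
    (Real.isLittleO_log_id_atTop).bound (by positivity)
  obtain ⟨x0, hx0⟩ := eventually_atTop.mp h1
  refine ⟨M + ⌈x0⌉₊ + ⌈2 / η⌉₊ + 2, fun Y hY => ?_⟩
  set Z : ℕ := ⌊(1 + η) * (Y : ℝ)⌋₊ with hZ
  have hY0 : (0 : ℝ) ≤ Y := Nat.cast_nonneg _
  have hYZ : Y ≤ Z := by
    rw [hZ]
    apply Nat.le_floor
    nlinarith
  have hZ1 : (1 + η) * (Y : ℝ) < Z + 1 := Nat.lt_floor_add_one _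
  have hY2 : 2 / η ≤ (Y : ℝ) := (Nat.le_ceil _).trans (by exact_mod_cast (by omega : ⌈2 / η⌉₊ ≤ Y))
  have hY3 : x0 ≤ (Z : ℝ) := (Nat.le_ceil _).trans (by exact_mod_cast (by omega : ⌈x0⌉₊ ≤ Z))
  have hY4 : (2 : ℝ) ≤ Z := by exact_mod_cast (by omega : 2 ≤ Z)
  rw [div_le_iff₀ hη] at hY2
  have hlow : (Y : ℝ) ≤ (1 - η / (2 * (1 + η))) * Z := by
    have e : (1 - η / (2 * (1 + η))) = (2 + η) / (2 * (1 + η)) := by field_simp; ring
    rw [e, div_mul_eq_mul_div, le_div_iff₀ (by positivity)]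
    nlinarith
  have h2 := hM Z (by omega)
  have h3 := hx0 Z hY3
  rw [Real.norm_of_nonneg (Real.log_nonneg (by linarith)), Real.norm_of_nonneg (by linarith)] at h3
  set S := (range (Z + 1)).filter
      (fun p : ℕ => p.Prime ∧ (p : ZMod 8) = 1 ∧ (1 - η / (2 * (1 + η))) * Z < p) with hS
  have hsub : S ⊆ (Ioc Y Z).filter fun Q => Q.Prime ∧ Q % 8 = 1 := by
    intro p hp
    rw [hS, mem_filter, mem_range] at hp
    obtain ⟨a1, a2, a3, a4⟩ := hp
    rw [mem_filter, mem_Ioc]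
    refine ⟨⟨?_, by omega⟩, a2, ?_⟩
    · have : (Y : ℝ) < p := lt_of_le_of_lt hlow a4
      exact_mod_cast this
    · have := (ZMod.natCast_eq_natCast_iff' p 1 8).1 (by simpa using a3)
      simpa using this
  have h4 : ∑ p ∈ S, Real.log p ≤ (S.card : ℝ) * Real.log Z := by
    rw [← nsmul_eq_mul, ← Finset.sum_const]
    refine Finset.sum_le_sum fun q hq => ?_
    rw [hS, mem_filter, mem_range] at hq
    apply Real.log_le_log
    · exact_mod_cast hq.2.1.pos
    · exact_mod_cast (by omega : q ≤ Z)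
  have hlog : 0 < Real.log Z := Real.log_pos (by linarith)
  have h5 : (N : ℝ) ≤ (S.card : ℝ) := by
    have h6 : ((N : ℝ) + 1) * Real.log Z ≤ c * Z := by
      have := mul_le_mul_of_nonneg_left h3 (by positivity : (0 : ℝ) ≤ (N : ℝ) + 1)
      calc ((N : ℝ) + 1) * Real.log Z ≤ ((N : ℝ) + 1) * (c / (N + 1) * Z) := this
        _ = c * Z := by field_simp
    have h7 : ((N : ℝ) + 1) * Real.log Z ≤ (S.card : ℝ) * Real.log Z := h6.trans (h2.trans h4)
    have := le_of_mul_le_mul_right h7 hlog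
    linarith
  have h8 : N ≤ S.card := by exact_mod_cast h5
  exact h8.trans (Finset.card_le_card hsub)

end Pool.Agent.Helper29L
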