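import Pool.Agent.Helper29L.Stm4
import Pool.Agent.Helper29L.Win

/-!
# Project PR (helper29), Job LEV (helper90): the levels
-/

set_option autoImplicit false
set_option linter.all false

open Finset Filter Topology
open scoped Classical

namespace Pool.Agent.Helper29L

open Pool.Agent.Helper29K (SE Pr8 zS Bx InFamily NR)

namespace LevT

/-- large levels are small in the sense of `Sml` -/
lemma exSml (C : ℝ) {ε δ : ℝ} (hε : 0 < ε) (hδ : 0 < δ) (W : Finset ℕ) :
    ∃ N : ℕ, ∀ L : Finset ℕ, N ≤ L.card → Sml C ε δ W L := by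
  set B : ℝ := C * (4 ^ W.card * ((∏ Q ∈ W, Q : ℕ) : ℝ) ^ 7) with hB
  have hr0 : 0 ≤ Real.exp (-(δ ^ 2 / 2)) := (Real.exp_pos _).le
  have hr1 : Real.exp (-(δ ^ 2 / 2)) < 1 := by
    rw [Real.exp_lt_one_iff]
    have : 0 < δ ^ 2 / 2 := by positivity
    linarith
  have h1 : Tendsto (fun n : ℕ => B * Real.exp (-(δ ^ 2 / 2)) ^ n) atTop (𝓝 (B * 0)) :=
    (tendsto_pow_atTop_nhds_zero_of_lt_one hr0 hr1).const_mul B
  rw [mul_zero] at h1
  obtain ⟨N, hN⟩ := eventually_atTop.1 (h1.eventually_lt_const hε)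
  refine ⟨N, fun L hL => ?_⟩
  have h2 := hN L.card hL
  unfold Sml
  rw [← hB]
  have e : Real.exp (-(δ ^ 2 / 2) * L.card) = Real.exp (-(δ ^ 2 / 2)) ^ L.card := by
    rw [← Real.exp_nat_mul]
    congr 1
    ring
  rw [e]
  exact h2.le

/-- a level in a window -/
structure InW (η : ℝ) (Y : ℕ) (L : Finset ℕ) : Prop where
  pr : Pr8 L
  lo : ∀ Q ∈ L, Y < Q
  hi : ∀ Q ∈ L, (Q : ℝ) ≤ (1 + η) * Y

lemma pick {η : ℝ} (hη : 0 < η) (N : ℕ) : ∃ Y₀ : ℕ, ∀ Y ≥ Y₀, ∃ L : Finset ℕ, L.card = N ∧ InW η Y L := by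
  obtain ⟨Y₀, h⟩ := win N η hη
  refine ⟨Y₀, fun Y hY => ?_⟩
  obtain ⟨L, hL, hc⟩ := Finset.exists_subset_card_eq (h Y hY)
  refine ⟨L, hc, ?_, ?_, ?_⟩
  · intro Q hQ
    have := hL hQ
    rw [mem_filter] at this
    exact this.2
  · intro Q hQ
    have := hL hQ
    rw [mem_filter, mem_Ioc] at this
    exact this.1.1
  · intro Q hQ
    have := hL hQ
    rw [mem_filter, mem_Ioc] at this
    have h2 : Q ≤ ⌊(1 + η) * (Y : ℝ)⌋₊ := this.1.2
    exact (Nat.le_floor_iff (by positivity)).1 h2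

lemma InW.disj {η : ℝ} {Y : ℕ} {L W : Finset ℕ} (h : InW η Y L) (hW : ∀ Q ∈ W, Q ≤ Y) : Disjoint W L := by
  rw [Finset.disjoint_left]
  intro Q h1 h2
  have := h.lo Q h2
  have := hW Q h1
  omega

/-- the product over a member of a fan -/
lemma prod_bounds {η : ℝ} (hη : 0 ≤ η) (m : ℕ) (lv : ℕ → Finset ℕ) (y : ℕ → ℕ)
    (hdis : ∀ i < m, ∀ j < i, Disjoint (lv j) (lv i))
    (hlo : ∀ i < m, ∀ Q ∈ lv i, y i ≤ Q) (hhi : ∀ i < m, ∀ Q ∈ lv i, (Q : ℝ) ≤ (1 + η) * y i) :
    ∀ Z ∈ fanSets m lv, ∏ i ∈ range m, y i ≤ ∏ Q ∈ Z, Q ∧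
      ((∏ Q ∈ Z, Q : ℕ) : ℝ) ≤ (1 + η) ^ m * ((∏ i ∈ range m, y i : ℕ) : ℝ) := by
  intro Z hZ
  unfold fanSets at hZ
  rw [mem_image] at hZ
  obtain ⟨Q, hQ, rfl⟩ := hZ
  rw [Fintype.mem_piFinset] at hQ
  have hinj : ∀ i ∈ (univ : Finset (Fin m)), ∀ j ∈ (univ : Finset (Fin m)), Q i = Q j → i = j := by
    intro i _ j _ hij
    by_contra hne
    rcases lt_or_gt_of_ne hne with h | h
    · have := hdis j j.2 i h
      rw [Finset.disjoint_left] at this
      exact this (hQ i) (hij ▸ hQ j)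
    · have := hdis i i.2 j h
      rw [Finset.disjoint_left] at this
      exact this (hQ j) (hij ▸ hQ i)
  have e1 : ∏ Q' ∈ univ.image Q, Q' = ∏ i : Fin m, Q i := Finset.prod_image hinj
  have e2 : ∏ i ∈ range m, y i = ∏ i : Fin m, y i := Finset.prod_range y
  rw [e1, e2]
  constructor
  · exact Finset.prod_le_prod' fun i _ => hlo i i.2 _ (hQ i)
  · push_cast
    have e3 : (1 + η) ^ m * ∏ i : Fin m, (y i : ℝ) = ∏ i : Fin m, ((1 + η) * (y i : ℝ)) := by
      rw [Finset.prod_mul_distrib, Finset.prod_const, Finset.card_univ, Fintype.card_fin]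
    rw [e3]
    exact Finset.prod_le_prod (fun i _ => Nat.cast_nonneg _) fun i _ => hhi i i.2 _ (hQ i)

/-- the levels `A 0`, …, `A (k - 1)` -/
lemma levels (C : ℝ) {ε δ η : ℝ} (hε : 0 < ε) (hδ : 0 < δ) (hη : 0 < η) (𝒬₀ : Finset ℕ) (k : ℕ) :
    ∃ (A : ℕ → Finset ℕ) (Y : ℕ → ℕ), ∀ i < k, (A i).Nonempty ∧ InW η (Y i) (A i) ∧ 1 ≤ Y i ∧
      Disjoint 𝒬₀ (A i) ∧ (∀ j < i, Disjoint (A j) (A i)) ∧
      Sml C ε δ ((range i).biUnion A) (A i) := by
  induction k with
  | zero => exact ⟨fun _ => ∅, fun _ => 0, fun i hi => absurd hi (Nat.not_lt_zero _)⟩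
  | succ k ih =>
    obtain ⟨A, Y, h⟩ := ih
    set W : Finset ℕ := 𝒬₀ ∪ (range k).biUnion A with hW
    obtain ⟨N, hN⟩ := exSml C hε hδ ((range k).biUnion A)
    obtain ⟨Y₀, hY₀⟩ := pick hη (N + 1)
    set M : ℕ := Y₀ + W.sup id + 1 with hM
    obtain ⟨L, hc, hL⟩ := hY₀ M (by omega)
    have hWM : ∀ Q ∈ W, Q ≤ M := by
      intro Q hQ
      have : id Q ≤ W.sup id := Finset.le_sup hQ
      simp only [id] at this
      omega
    have hdW := hL.disj hWM
    have eU : ∀ i ≤ k, (range i).biUnion (Function.update A k L) = (range i).biUnion A := by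
      intro i hi
      refine Finset.biUnion_congr rfl fun j hj => ?_
      rw [mem_range] at hj
      rw [Function.update_of_ne (by omega)]
    refine ⟨Function.update A k L, Function.update Y k M, fun i hi => ?_⟩
    rcases Nat.lt_succ_iff_lt_or_eq.1 hi with h1 | h1
    · obtain ⟨a1, a2, a3, a4, a5, a6⟩ := h i h1
      rw [Function.update_of_ne (by omega), Function.update_of_ne (by omega), eU i (by omega)]
      refine ⟨a1, a2, a3, a4, fun j hj => ?_, a6⟩
      rw [Function.update_of_ne (by omega)]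
      exact a5 j hj
    · subst h1
      rw [Function.update_self, Function.update_self, eU i le_rfl]
      refine ⟨?_, hL, by omega, ?_, fun j hj => ?_, hN L (by omega)⟩
      · rw [← Finset.card_pos]
        omega
      · exact Disjoint.mono_left Finset.subset_union_left hdW
      · rw [Function.update_of_ne (by omega)]
        refine Disjoint.mono_left ?_ hdW
        refine subset_trans ?_ Finset.subset_union_right
        exact Finset.subset_biUnion_of_mem A (mem_range.2 hj)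

end LevT

open LevT

/-- **Job LEV.** -/
theorem lev : S_LEV := by
  intro C ε δ η k 𝒬₀ hC hε hδ hη
  -- the smaller window
  obtain ⟨η', hη', hη1, hηk⟩ : ∃ η' : ℝ, 0 < η' ∧ η' ≤ 1 ∧ (1 + η') ^ (k + 2) ≤ 1 + η := by
    have h1 : 1 < (1 + η) ^ (((k + 2 : ℕ) : ℝ)⁻¹) := by
      apply Real.one_lt_rpow (by linarith)
      positivity
    refine ⟨min 1 ((1 + η) ^ (((k + 2 : ℕ) : ℝ)⁻¹) - 1), lt_min one_pos (by linarith), min_le_left _ _, ?_⟩
    have h2 : 1 + min 1 ((1 + η) ^ (((k + 2 : ℕ) : ℝ)⁻¹) - 1) ≤ (1 + η) ^ (((k + 2 : ℕ) : ℝ)⁻¹) := by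
      have := min_le_right 1 ((1 + η) ^ (((k + 2 : ℕ) : ℝ)⁻¹) - 1)
      linarith
    have h3 : 0 ≤ 1 + min 1 ((1 + η) ^ (((k + 2 : ℕ) : ℝ)⁻¹) - 1) := by
      have : 0 < min 1 ((1 + η) ^ (((k + 2 : ℕ) : ℝ)⁻¹) - 1) := lt_min one_pos (by linarith)
      linarith
    refine (pow_le_pow_left₀ h3 h2 (k + 2)).trans (le_of_eq ?_)
    exact Real.rpow_inv_natCast_pow (by linarith) (by omega)
  obtain ⟨A, Y, hA⟩ := levels C hε hδ hη' 𝒬₀ k
  set W : Finset ℕ := (range k).biUnion A with hW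
  -- `V₁`
  obtain ⟨N1, hN1⟩ := exSml C hε hδ W
  obtain ⟨Z1, hZ1⟩ := pick hη' (N1 + 1)
  set S1 : Finset ℕ := 𝒬₀ ∪ W with hS1
  set Y1 : ℕ := Z1 + S1.sup id + 2 with hY1
  obtain ⟨V₁, hc1, hV1⟩ := hZ1 Y1 (by omega)
  have hS1M : ∀ Q ∈ S1, Q ≤ Y1 := by
    intro Q hQ
    have : id Q ≤ S1.sup id := Finset.le_sup hQ
    simp only [id] at this
    omega
  have hd1 := hV1.disj hS1M
  -- `V₂` and `U`
  obtain ⟨N2, hN2⟩ := exSml C hε hδ (W ∪ V₁)
  obtain ⟨Z2, hZ2⟩ := pick hη' (N2 + 1)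
  obtain ⟨Z3, hZ3⟩ := pick hη' ((N1 + 1) * (N2 + 1))
  set S2 : Finset ℕ := S1 ∪ V₁ with hS2
  set Y2 : ℕ := Z2 + Z3 + S2.sup id + 1 with hY2
  obtain ⟨V₂, hc2, hV2⟩ := hZ2 Y2 (by omega)
  have hS2M : ∀ Q ∈ S2, Q ≤ Y2 := by
    intro Q hQ
    have : id Q ≤ S2.sup id := Finset.le_sup hQ
    simp only [id] at this
    omega
  have hd2 := hV2.disj hS2M
  have hY12 : Y2 * 2 ≤ Y1 * Y2 := by
    rw [mul_comm Y2 2]
    exact Nat.mul_le_mul_right _ (by omega)
  obtain ⟨U, hcU, hU⟩ := hZ3 (Y1 * Y2) (by omega)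
  have hS3M : ∀ Q ∈ S2 ∪ V₂, Q ≤ Y1 * Y2 := by
    intro Q hQ
    rcases mem_union.1 hQ with h | h
    · have := hS2M Q h
      omega
    · have h1 := hV2.hi Q h
      have h2 : (Q : ℝ) ≤ 2 * Y2 := by
        have : (0 : ℝ) ≤ Y2 := Nat.cast_nonneg _
        nlinarith
      have h3 : Q ≤ 2 * Y2 := by exact_mod_cast h2
      omega
  have hdU := hU.disj hS3M
  have sub1 : ∀ i < k, A i ⊆ W := fun i hi => Finset.subset_biUnion_of_mem A (mem_range.2 hi)
  have s1 : W ⊆ S1 := Finset.subset_union_right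
  have s0 : 𝒬₀ ⊆ S1 := Finset.subset_union_left
  have s2 : S1 ⊆ S2 := Finset.subset_union_left
  have s2' : V₁ ⊆ S2 := Finset.subset_union_right
  have s3 : S2 ⊆ S2 ∪ V₂ := Finset.subset_union_left
  have s3' : V₂ ⊆ S2 ∪ V₂ := Finset.subset_union_right
  have hLev : Lev k A U V₁ V₂ := by
    refine ⟨fun i hi => (hA i hi).1, ?_, ?_, ?_, fun i hi j hj => (hA i hi).2.2.2.2.1 j hj, ?_, ?_, ?_, ?_, ?_,
      ?_, ?_⟩
    · rw [← Finset.card_pos, hcU]; positivity
    · rw [← Finset.card_pos, hc1]; omega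
    · rw [← Finset.card_pos, hc2]; omega
    · intro i hi
      exact Disjoint.mono_left ((sub1 i hi).trans (s1.trans (s2.trans s3))) hdU
    · intro i hi
      exact Disjoint.mono_left ((sub1 i hi).trans s1) hd1
    · intro i hi
      exact Disjoint.mono_left ((sub1 i hi).trans (s1.trans s2)) hd2
    · exact (Disjoint.mono_left (s2'.trans s3) hdU).symm
    · exact (Disjoint.mono_left s3' hdU).symm
    · exact Disjoint.mono_left s2' hd2
    · rw [hcU, hc1, hc2]
  refine ⟨A, U, V₁, V₂, hLev, fun i hi => (hA i hi).2.1.pr, hU.pr, hV1.pr, hV2.pr,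
    fun i hi => (hA i hi).2.2.2.1, Disjoint.mono_left (s0.trans (s2.trans s3)) hdU,
    Disjoint.mono_left s0 hd1, Disjoint.mono_left (s0.trans s2) hd2,
    fun i hi => (hA i hi).2.2.2.2.2, hN1 U ?_, hN1 V₁ (by omega), hN2 V₂ (by omega), ?_⟩
  · rw [hcU]
    have : (N1 + 1) * 1 ≤ (N1 + 1) * (N2 + 1) := Nat.mul_le_mul_left _ (by omega)
    omega
  -- the products
  refine ⟨(∏ i ∈ range k, Y i) * (Y1 * Y2), ?_, ?_⟩
  · have h1 : 0 < ∏ i ∈ range k, Y i := Finset.prod_pos fun i hi => by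
      have := (hA i (mem_range.1 hi)).2.2.1
      omega
    have h2 : 0 < Y1 * Y2 := Nat.mul_pos (by omega) (by omega)
    exact Nat.mul_pos h1 h2
  · intro Z hZ
    unfold ZZ at hZ
    rcases mem_union.1 hZ with h | h
    · -- first fan
      have key := prod_bounds hη'.le (k + 1) (lvA k A U) (fun i => if i < k then Y i else Y1 * Y2)
        (by
          intro i hi j hj
          unfold lvA
          rw [if_pos (by omega : j < k)]
          by_cases h1 : i < k
          · rw [if_pos h1]; exact hLev.dis i h1 j hj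
          · rw [if_neg h1]; exact hLev.disU j (by omega))
        (by
          intro i hi Q hQ
          unfold lvA at hQ
          by_cases h1 : i < k
          · rw [if_pos h1] at hQ ⊢; exact ((hA i h1).2.1.lo Q hQ).le
          · rw [if_neg h1] at hQ ⊢; exact (hU.lo Q hQ).le)
        (by
          intro i hi Q hQ
          unfold lvA at hQ
          by_cases h1 : i < k
          · rw [if_pos h1] at hQ ⊢; exact (hA i h1).2.1.hi Q hQ
          · rw [if_neg h1] at hQ ⊢; exact hU.hi Q hQ) Z h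
      have e : ∏ i ∈ range (k + 1), (if i < k then Y i else Y1 * Y2) = (∏ i ∈ range k, Y i) * (Y1 * Y2) := by
        rw [Finset.prod_range_succ, if_neg (lt_irrefl k)]
        congr 1
        exact Finset.prod_congr rfl fun i hi => if_pos (mem_range.1 hi)
      rw [e] at key
      refine ⟨key.1, key.2.trans (mul_le_mul_of_nonneg_right ?_ (Nat.cast_nonneg _))⟩
      refine le_trans ?_ hηk
      exact pow_le_pow_right₀ (by linarith) (by omega)
    · -- second fan
      have key := prod_bounds hη'.le (k + 2) (lvB k A V₁ V₂)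
        (fun i => if i < k then Y i else if i = k then Y1 else Y2)
        (by
          intro i hi j hj
          unfold lvB
          by_cases h1 : i < k
          · rw [if_pos (by omega : j < k), if_pos h1]; exact hLev.dis i h1 j hj
          · by_cases h2 : i = k
            · rw [if_pos (by omega : j < k), if_neg h1, if_pos h2]; exact hLev.dis1 j (by omega)
            · rw [if_neg h1, if_neg h2]
              by_cases h3 : j < k
              · rw [if_pos h3]; exact hLev.dis2 j h3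
              · rw [if_neg h3, if_pos (by omega : j = k)]; exact hLev.dis12)
        (by
          intro i hi Q hQ
          unfold lvB at hQ
          by_cases h1 : i < k
          · rw [if_pos h1] at hQ ⊢; exact ((hA i h1).2.1.lo Q hQ).le
          · by_cases h2 : i = k
            · rw [if_neg h1, if_pos h2] at hQ ⊢; exact (hV1.lo Q hQ).le
            · rw [if_neg h1, if_neg h2] at hQ ⊢; exact (hV2.lo Q hQ).le)
        (by
          intro i hi Q hQ
          unfold lvB at hQ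
          by_cases h1 : i < k
          · rw [if_pos h1] at hQ ⊢; exact (hA i h1).2.1.hi Q hQ
          · by_cases h2 : i = k
            · rw [if_neg h1, if_pos h2] at hQ ⊢; exact hV1.hi Q hQ
            · rw [if_neg h1, if_neg h2] at hQ ⊢; exact hV2.hi Q hQ) Z h
      have e : ∏ i ∈ range (k + 2), (if i < k then Y i else if i = k then Y1 else Y2) =
          (∏ i ∈ range k, Y i) * (Y1 * Y2) := by
        have e1 : (if k < k then Y k else if k = k then Y1 else Y2) = Y1 := by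
          rw [if_neg (lt_irrefl k), if_pos rfl]
        have e2 : (if k + 1 < k then Y (k + 1) else if k + 1 = k then Y1 else Y2) = Y2 := by
          rw [if_neg (by omega), if_neg (by omega)]
        rw [Finset.prod_range_succ, Finset.prod_range_succ, e1, e2, mul_assoc]
        congr 1
        exact Finset.prod_congr rfl fun i hi => if_pos (mem_range.1 hi)
      rw [e] at key
      exact ⟨key.1, key.2.trans (mul_le_mul_of_nonneg_right hηk (Nat.cast_nonneg _))⟩

end Pool.Agent.Helper29L
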