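import Pool.Agent.Helper29L.Stm5
import Pool.Agent.Helper29K.Spl

/-!
# Project PR (helper29), Job LEV2 (helper23): the levels of the second hand-in
-/

set_option autoImplicit false
set_option linter.all false

open Finset Filter
open scoped Classical

namespace Pool.Agent.Helper29L

open Pool.Agent.Helper29K (SE Pr8 zS Bx InFamily NR spl_div exists_large SP)
open Pool.Agent.N922.PQ Pool.Agent.N40.PQ Pool.Agent.TH888.B1

/-- finite sets of primes `1` modulo `8`, outside a finite set, with a large sum of the reciprocals -/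
lemma prD (T : Finset ℕ) (L : ℝ) :
    ∃ 𝒬 : Finset ℕ, Pr8 𝒬 ∧ Disjoint T 𝒬 ∧ L ≤ ∑ Q ∈ 𝒬, (1 : ℝ) / Q := by
  obtain ⟨η, G, δ', hGG, hdG⟩ := gen ℚ
  have h1 := spl_div ℚ η G δ' hGG (T : Set ℕ) T.finite_toSet
  obtain ⟨𝒬, h𝒬, hL⟩ := exists_large h1 L
  refine ⟨𝒬, fun Q hQ => ⟨(h𝒬 Q hQ).1, (h𝒬 Q hQ).2.1⟩, ?_, hL⟩
  rw [Finset.disjoint_left]
  intro Q hQ1 hQ2
  exact (h𝒬 Q hQ2).2.2.2 (by exact_mod_cast hQ1)

/-- the estimates for one more level -/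
lemma lev2_step (hM : S_MOM) (κ : ℕ) {δ ε : ℝ} (hδ : 0 < δ) (hδ1 : δ ≤ 1 / 4) (hε : 0 < ε)
    (W : Finset ℕ) (hW : ∀ Q ∈ W, 0 < Q) :
    ∃ Λ₀ : ℝ, ∀ 𝒬 : Finset ℕ, Pr8 𝒬 → Λ₀ ≤ ∑ Q ∈ 𝒬, (1 : ℝ) / Q → ∃ m ≥ 1, ∀ᶠ X : ℕ in atTop,
      ((FewSet 𝒬 m X).ncard : ℝ) ≤ ε * (X : ℝ) ^ 5 ∧
      (∀ Z ⊆ W, (UnbSet κ ((∏ Q ∈ Z, Q) * X) 𝒬 δ m).Finite) ∧
      (∑ Z ∈ W.powerset, ((UnbSet κ ((∏ Q ∈ Z, Q) * X) 𝒬 δ m).ncard : ℝ)) ≤ ε * (X : ℝ) ^ 5 := by
  obtain ⟨P, hP⟩ : ∃ P : ℕ, P = ∏ Q ∈ W, Q := ⟨_, rfl⟩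
  have hP0 : 0 < P := by rw [hP]; exact Finset.prod_pos hW
  have hP1 : (1 : ℝ) ≤ P := by exact_mod_cast hP0
  have hc : (1 : ℝ) ≤ 2 ^ W.card * (P : ℝ) ^ 5 := by
    have h1 : (1 : ℝ) ≤ 2 ^ W.card := one_le_pow₀ (by norm_num)
    have h2 : (1 : ℝ) ≤ (P : ℝ) ^ 5 := one_le_pow₀ hP1
    nlinarith
  obtain ⟨ε', hε'⟩ : ∃ ε' : ℝ, ε' = ε / (2 ^ W.card * (P : ℝ) ^ 5) := ⟨_, rfl⟩
  have hε'0 : 0 < ε' := by rw [hε']; positivity
  have hε'1 : ε' ≤ ε := by rw [hε']; exact div_le_self hε.le hc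
  obtain ⟨Λ₀, hΛ⟩ := hM κ δ ε' hδ hδ1 hε'0 1
  refine ⟨Λ₀, fun 𝒬 h𝒬 hL => ?_⟩
  obtain ⟨m, hm, hev⟩ := hΛ 𝒬 h𝒬 hL
  refine ⟨m, hm, ?_⟩
  have hZ : ∀ Z ∈ W.powerset, ∀ᶠ X : ℕ in atTop,
      (UnbSet κ ((∏ Q ∈ Z, Q) * X) 𝒬 δ m).Finite ∧
      ((UnbSet κ ((∏ Q ∈ Z, Q) * X) 𝒬 δ m).ncard : ℝ) ≤ ε' * ((((∏ Q ∈ Z, Q) * X : ℕ)) : ℝ) ^ 5 := by
    intro Z hZ
    rw [mem_powerset] at hZ
    have hz0 : 0 < ∏ Q ∈ Z, Q := Finset.prod_pos fun Q hQ => hW Q (hZ hQ)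
    have ht : Tendsto (fun X : ℕ => (∏ Q ∈ Z, Q) * X) atTop atTop := by
      refine tendsto_atTop_mono (fun X => ?_) tendsto_id
      exact Nat.le_mul_of_pos_left X hz0
    exact (ht.eventually hev).mono fun X h => h.2
  rw [← Filter.eventually_all_finset] at hZ
  filter_upwards [hev, hZ] with X h1 h2
  refine ⟨h1.1.trans ?_, fun Z hZW => (h2 Z (mem_powerset.2 hZW)).1, ?_⟩
  · exact mul_le_mul_of_nonneg_right hε'1 (by positivity)
  · have h3 : ∀ Z ∈ W.powerset, ((UnbSet κ ((∏ Q ∈ Z, Q) * X) 𝒬 δ m).ncard : ℝ) ≤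
        ε / 2 ^ W.card * (X : ℝ) ^ 5 := by
      intro Z hZ
      refine (h2 Z hZ).2.trans ?_
      rw [mem_powerset] at hZ
      have h4 : ((∏ Q ∈ Z, Q : ℕ) : ℝ) ≤ P := by
        have : ∏ Q ∈ Z, Q ≤ P := by
          rw [hP]
          exact Nat.le_of_dvd (Finset.prod_pos hW) (Finset.prod_dvd_prod_of_subset _ _ _ hZ)
        exact_mod_cast this
      have h5 : ((((∏ Q ∈ Z, Q) * X : ℕ)) : ℝ) ^ 5 ≤ (P : ℝ) ^ 5 * (X : ℝ) ^ 5 := by
        push_cast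
        rw [← mul_pow]
        have h6 : ((∏ Q ∈ Z, (Q : ℝ))) ≤ P := by
          rw [← Nat.cast_prod]
          exact h4
        have h7 : 0 ≤ (∏ Q ∈ Z, (Q : ℝ)) := Finset.prod_nonneg fun Q _ => Nat.cast_nonneg _
        exact pow_le_pow_left₀ (by positivity) (mul_le_mul_of_nonneg_right h6 (Nat.cast_nonneg _)) 5
      calc ε' * ((((∏ Q ∈ Z, Q) * X : ℕ)) : ℝ) ^ 5 ≤ ε' * ((P : ℝ) ^ 5 * (X : ℝ) ^ 5) :=
            mul_le_mul_of_nonneg_left h5 hε'0.le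
        _ = ε / 2 ^ W.card * (X : ℝ) ^ 5 := by
            rw [hε']
            have : (P : ℝ) ≠ 0 := by positivity
            field_simp
    refine (Finset.sum_le_sum h3).trans (le_of_eq ?_)
    rw [Finset.sum_const, Finset.card_powerset, nsmul_eq_mul]
    push_cast
    field_simp

/-- **Job LEV2.** -/
theorem lev2 (hM : S_MOM) : S_LEV2 := by
  intro κ k δ ε hδ hδ1 hε 𝒬₀
  induction k with
  | zero =>
    refine ⟨fun _ => ∅, fun _ => 0, fun i hi => absurd hi (Nat.not_lt_zero _),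
      fun i hi => absurd hi (Nat.not_lt_zero _), Eventually.of_forall fun X i hi => absurd hi (Nat.not_lt_zero _)⟩
  | succ k ih =>
    obtain ⟨𝒬, m, h1, h2, h3⟩ := ih
    set W : Finset ℕ := (range k).biUnion 𝒬 with hWdef
    have hW : ∀ Q ∈ W, 0 < Q := by
      intro Q hQ
      obtain ⟨j, hj, hQj⟩ := Finset.mem_biUnion.1 hQ
      exact ((h1 j (mem_range.1 hj)).1 Q hQj).1.pos
    obtain ⟨Λ₀, hΛ⟩ := lev2_step hM κ hδ hδ1 hε W hW
    obtain ⟨𝒬', hp, hd, hL⟩ := prD (𝒬₀ ∪ W) Λ₀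
    obtain ⟨m', hm', hev⟩ := hΛ 𝒬' hp hL
    have eU : ∀ i ≤ k, (range i).biUnion (Function.update 𝒬 k 𝒬') = (range i).biUnion 𝒬 := by
      intro i hi
      refine Finset.biUnion_congr rfl fun j hj => ?_
      rw [mem_range] at hj
      rw [Function.update_of_ne (by omega)]
    refine ⟨Function.update 𝒬 k 𝒬', Function.update m k m', fun i hi => ?_, fun i hi j hj => ?_, ?_⟩
    · rcases Nat.lt_succ_iff_lt_or_eq.1 hi with h | h
      · rw [Function.update_of_ne (by omega), Function.update_of_ne (by omega)]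
        exact h1 i h
      · subst h
        rw [Function.update_self, Function.update_self]
        exact ⟨hp, Disjoint.mono_left Finset.subset_union_left hd, hm'⟩
    · rcases Nat.lt_succ_iff_lt_or_eq.1 hi with h | h
      · rw [Function.update_of_ne (by omega), Function.update_of_ne (by omega)]
        exact h2 i h j hj
      · subst h
        rw [Function.update_self, Function.update_of_ne (by omega)]
        refine Disjoint.mono_left ?_ hd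
        refine subset_trans ?_ Finset.subset_union_right
        exact Finset.subset_biUnion_of_mem 𝒬 (mem_range.2 hj)
    · filter_upwards [h3, hev] with X h4 h5 i hi
      rw [eU i (by omega)]
      rcases Nat.lt_succ_iff_lt_or_eq.1 hi with h | h
      · rw [Function.update_of_ne (by omega), Function.update_of_ne (by omega)]
        exact h4 i h
      · subst h
        rw [Function.update_self, Function.update_self]
        exact h5

end Pool.Agent.Helper29L
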