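import Pool.Agent.N50.PQ.Box
import Pool.Agent.N50.PQ.Orb
import Pool.Agent.N415.PQ.Bad

/-!
# Project PR (helper29), Job NN (helper90): the local count of the tuples without zero

For a finite field `F` with `q` elements, `2 ≠ 0`, `-1` a square and `- s` not a square: the number of
the tuples with `chA = s`, `chB = 0` and no zero on the projective line is at most `q ^ 3 / 2`.
-/

set_option autoImplicit false
set_option linter.all false

open scoped Classical

namespace Pool.Agent.Helper29L.NNL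

open Pool.Agent.N874.PP (Tup chA chB gq tau Two)

/-- no zero on the projective line -/
def NZ {R : Type} [CommRing R] (B : Tup R) : Prop := B.x ≠ 0 ∧ ∀ u : R, gq B u ≠ 0

variable {F : Type} [Field F]

theorem nz_tau {B : Tup F} (h : NZ B) (u : F) : NZ (tau u B) := by
  refine ⟨h.1, fun v => ?_⟩
  have h1 : gq (tau u B) v = gq B (u + v) := by
    unfold tau gq
    ring
  rw [h1]
  exact h.2 _

/-- one of two factors of a nonsquare is a square -/
theorem sq_or [Finite F] {a b : F} (h : ¬ IsSquare (a * b)) : IsSquare a ∨ IsSquare b := by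
  classical
  have : Fintype F := Fintype.ofFinite F
  by_contra hcon
  push Not at hcon
  obtain ⟨h1, h2⟩ := hcon
  have ha : a ≠ 0 := by
    rintro rfl
    exact h1 (IsSquare.zero)
  have hb : b ≠ 0 := by
    rintro rfl
    exact h2 (IsSquare.zero)
  by_cases hF : ringChar F = 2
  · exact h1 (FiniteField.isSquare_of_char_two hF a)
  · apply h
    rw [← quadraticChar_one_iff_isSquare (mul_ne_zero ha hb), map_mul,
      (quadraticChar_neg_one_iff_not_isSquare).2 h1, (quadraticChar_neg_one_iff_not_isSquare).2 h2]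
    norm_num

/-- the quartic of a tuple with `y = 0`, `c ≠ 0`: no zero only if `4 c ^ 2 + s` is not a square -/
theorem ns_of_nz [Finite F] (h2 : (2 : F) ≠ 0) {s : F} (hs : ¬ IsSquare (-s)) {B : Tup F}
    (hA : chA B = s) (hB : chB B = 0) (hn : NZ B) (hy : B.y = 0) (hc : B.c ≠ 0) :
    ¬ IsSquare (4 * B.c ^ 2 + s) ∧ B.z ≠ 0 ∧ B.x * B.z ^ 2 = 2 * B.c * (4 * B.c ^ 2 + s) := by
  obtain ⟨x, y, c, z, w⟩ := B
  obtain ⟨hx, hg⟩ := hn
  simp only at hy hc hx
  subst hy
  simp only [chA, chB] at hA hB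
  simp only [gq] at hg
  have e1 : x * z ^ 2 = 2 * c * (4 * c ^ 2 + s) := by
    linear_combination -hB + 2 * c * hA
  have h40 : 4 * c ^ 2 + s ≠ 0 := by
    intro h
    apply hs
    exact ⟨2 * c, by linear_combination -h⟩
  have hz : z ≠ 0 := by
    rintro rfl
    have : 2 * c * (4 * c ^ 2 + s) = 0 := by rw [← e1]; ring
    rcases mul_eq_zero.1 this with h | h
    · exact (mul_ne_zero h2 hc) h
    · exact h40 h
  refine ⟨?_, hz, e1⟩
  intro hsq
  -- `2 c x` is a square
  obtain ⟨t, ht⟩ := hsq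
  have ht0 : t ≠ 0 := by
    rintro rfl
    exact h40 (by rw [ht]; ring)
  obtain ⟨m, hm⟩ : ∃ m, m = x * z / t := ⟨_, rfl⟩
  have hm0 : m ≠ 0 := by
    rw [hm]
    exact div_ne_zero (mul_ne_zero hx hz) ht0
  have hm2 : m ^ 2 = 2 * c * x := by
    rw [hm]
    field_simp
    rw [pow_two t, ← ht]
    linear_combination e1
  have h4 : (4 : F) ≠ 0 := by
    have : (4 : F) = 2 * 2 := by norm_num
    rw [this]
    exact mul_ne_zero h2 h2
  -- the factors
  obtain ⟨p, hp⟩ : ∃ p, p = m / x := ⟨_, rfl⟩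
  obtain ⟨r, hr⟩ : ∃ r, r = (-c / x - z / m) / 2 := ⟨_, rfl⟩
  obtain ⟨r', hr'⟩ : ∃ r', r' = (-c / x + z / m) / 2 := ⟨_, rfl⟩
  have hpm : p * x = m := by rw [hp]; field_simp
  have hp2 : p ^ 2 * x = 2 * c := by
    have : (p ^ 2 * x) * x = 2 * c * x := by
      rw [← hm2, ← hpm]
      ring
    exact mul_right_cancel₀ hx this
  have hsum : (r + r') * x = -c := by
    rw [hr, hr']
    field_simp
    ring
  have hdif : (r' - r) * m = z := by
    rw [hr, hr']
    field_simp
    ring
  have hdif2 : (r' - r) * p * x = z := by rw [← hdif, ← hpm]; ring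
  have hz2 : (r' - r) ^ 2 * x ^ 2 = 4 * c ^ 2 + s := by
    have h5 : ((r' - r) ^ 2 * x ^ 2) * (2 * c) = (4 * c ^ 2 + s) * (2 * c) := by
      have h6 : x * z ^ 2 = (r' - r) ^ 2 * x ^ 2 * (p ^ 2 * x) := by rw [← hdif2]; ring
      rw [hp2] at h6
      rw [← h6, e1]
      ring
    exact mul_right_cancel₀ (mul_ne_zero h2 hc) h5
  have hprod : 4 * (r * r') * x = w := by
    have h5 : (4 * (r * r') * x) * x = w * x := by
      have h6 : (r + r') ^ 2 * x ^ 2 = c ^ 2 := by
        have : (r + r') ^ 2 * x ^ 2 = ((r + r') * x) ^ 2 := by ring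
        rw [this, hsum]; ring
      have h7 : w * x = -(3 * c ^ 2) - s := by linear_combination -hA
      rw [h7]
      linear_combination h6 - hz2
    exact mul_right_cancel₀ hx h5
  have hfac : ∀ u : F, 4 * x * u ^ 4 - 8 * 0 * u ^ 3 - 12 * c * u ^ 2 + 4 * z * u + w =
      4 * x * ((u ^ 2 + p * u + r) * (u ^ 2 - p * u + r')) := by
    intro u
    linear_combination (-4 * u ^ 2) * hsum + 4 * u ^ 2 * hp2 - 4 * u * hdif2 - hprod
  have hD : (p ^ 2 - 4 * r) * (p ^ 2 - 4 * r') * x ^ 2 = -s * 4 := by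
    have h6 : (p ^ 2 * x) ^ 2 = 4 * c ^ 2 := by rw [hp2]; ring
    have h7 : (p ^ 2 * x) * ((r + r') * x) = -(2 * c ^ 2) := by rw [hp2, hsum]; ring
    have h8 : 4 * (r * r') * x ^ 2 = -(3 * c ^ 2) - s := by
      have h9 : 4 * (r * r') * x ^ 2 = w * x := by rw [← hprod]; ring
      rw [h9]
      linear_combination -hA
    linear_combination h6 - 4 * h7 + 4 * h8
  have hDn : ¬ IsSquare ((p ^ 2 - 4 * r) * (p ^ 2 - 4 * r')) := by
    rintro ⟨k, hk⟩
    apply hs
    refine ⟨k * x / 2, ?_⟩
    rw [hk] at hD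
    field_simp
    linear_combination -hD
  rcases sq_or hDn with ⟨k, hk⟩ | ⟨k, hk⟩
  · apply hg ((-p + k) / 2)
    rw [hfac]
    have : ((-p + k) / 2) ^ 2 + p * ((-p + k) / 2) + r = 0 := by
      field_simp
      linear_combination -hk
    rw [this]
    ring
  · apply hg ((p + k) / 2)
    rw [hfac]
    have : ((p + k) / 2) ^ 2 - p * ((p + k) / 2) + r' = 0 := by
      field_simp
      linear_combination -hk
    rw [this]
    ring

/-- the number of `c` for which `4 c ^ 2 + s` is not a square -/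
theorem card_ns [Finite F] (h2 : (2 : F) ≠ 0) {s : F} (hs' : ¬ IsSquare s) :
    2 * Nat.card {c : F // ¬ IsSquare (4 * c ^ 2 + s)} ≤ Nat.card F + 1 := by
  classical
  have : Fintype F := Fintype.ofFinite F
  have h4 : (4 : F) ≠ 0 := by
    have : (4 : F) = 2 * 2 := by norm_num
    rw [this]
    exact mul_ne_zero h2 h2
  have h5' : Nat.card {y : F // y ≠ 0} = Nat.card F - 1 := by
    rw [Nat.card_eq_fintype_card, Nat.card_eq_fintype_card, Fintype.card_subtype_compl,
      Fintype.card_subtype_eq]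
  -- the squares
  have h1 : Nat.card {z : F // z ≠ 0} ≤
      Nat.card ({c : F // IsSquare (4 * c ^ 2 + s)} × Bool) := by
    choose! r hr using fun (a : F) (h : IsSquare a) => h
    have hsq : ∀ v : F, v ≠ 0 → 4 * ((s / v - v) / 4) ^ 2 + s = ((v + s / v) / 2) * ((v + s / v) / 2) := by
      intro v hv
      field_simp
      ring
    let f : {z : F // z ≠ 0} → {c : F // IsSquare (4 * c ^ 2 + s)} × Bool := fun v =>
      (⟨(s / v.1 - v.1) / 4, ⟨_, hsq v.1 v.2⟩⟩,
        decide ((v.1 + s / v.1) / 2 = r (4 * ((s / v.1 - v.1) / 4) ^ 2 + s)))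
    refine Nat.card_le_card_of_injective f ?_
    rintro ⟨v, hv⟩ ⟨v', hv'⟩ h
    have e1 : (s / v - v) / 4 = (s / v' - v') / 4 := congrArg Subtype.val (congrArg Prod.fst h)
    have e2 : decide ((v + s / v) / 2 = r (4 * ((s / v - v) / 4) ^ 2 + s)) =
      decide ((v' + s / v') / 2 = r (4 * ((s / v' - v') / 4) ^ 2 + s)) := congrArg Prod.snd h
    have h5 := hsq v hv
    have h6 := hsq v' hv'
    have h7 := hr _ ⟨_, h5⟩
    rw [← e1] at e2 h6
    obtain ⟨R, hR⟩ : ∃ R, R = r (4 * ((s / v - v) / 4) ^ 2 + s) := ⟨_, rfl⟩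
    rw [← hR] at e2 h7
    rw [decide_eq_decide] at e2
    have e3 : v + s / v = v' + s / v' := by
      have h8 : ((v + s / v) / 2 - R) * ((v + s / v) / 2 + R) = 0 := by
        linear_combination h7 - h5
      have h9 : ((v' + s / v') / 2 - R) * ((v' + s / v') / 2 + R) = 0 := by
        linear_combination h7 - h6
      have key : (v + s / v) / 2 = (v' + s / v') / 2 := by
        by_cases hc : (v + s / v) / 2 = R
        · rw [hc, ← (e2.1 hc)]
        · have hc' : ¬ (v' + s / v') / 2 = R := fun h => hc (e2.2 h)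
          have h10 : (v + s / v) / 2 + R = 0 :=
            (mul_eq_zero.1 h8).resolve_left (fun h => hc (sub_eq_zero.1 h))
          have h11 : (v' + s / v') / 2 + R = 0 :=
            (mul_eq_zero.1 h9).resolve_left (fun h => hc' (sub_eq_zero.1 h))
          linear_combination h10 - h11
      have := congrArg (fun t => t * 2) key
      simpa [div_mul_cancel₀ _ h2] using this
    have e4 : s / v - v = s / v' - v' := by
      have := congrArg (fun t => t * 4) e1
      simpa [div_mul_cancel₀ _ h4] using this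
    apply Subtype.ext
    show v = v'
    have : 2 * (v - v') = 0 := by linear_combination e3 - e4
    rcases mul_eq_zero.1 this with h | h
    · exact absurd h h2
    · exact sub_eq_zero.1 h
  -- the partition
  have h3 : Nat.card {c : F // ¬ IsSquare (4 * c ^ 2 + s)} +
      Nat.card {c : F // IsSquare (4 * c ^ 2 + s)} ≤ Nat.card F := by
    rw [← Nat.card_sum]
    let g : {c : F // ¬ IsSquare (4 * c ^ 2 + s)} ⊕
        {c : F // IsSquare (4 * c ^ 2 + s)} → F :=
      Sum.elim (fun c => c.1) (fun c => c.1)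
    refine Nat.card_le_card_of_injective g ?_
    rintro (⟨c, hc⟩ | ⟨c, hc⟩) (⟨c', hc'⟩ | ⟨c', hc'⟩) h
    · have h' : c = c' := h
      subst h'
      rfl
    · have h' : c = c' := h
      subst h'
      exact absurd hc' hc
    · have h' : c = c' := h
      subst h'
      exact absurd hc hc'
    · have h' : c = c' := h
      subst h'
      rfl
  rw [Nat.card_prod] at h1
  have h5 : Nat.card Bool = 2 := by simp
  rw [h5] at h1
  omega

/-- **The local count.** -/
theorem card_nz [Finite F] (h2 : (2 : F) ≠ 0) (h1 : IsSquare (-1 : F)) {s : F}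
    (hs : ¬ IsSquare (-s)) :
    2 * Nat.card {B : Tup F // chA B = s ∧ chB B = 0 ∧ NZ B} ≤ Nat.card F ^ 3 := by
  classical
  have : Fintype F := Fintype.ofFinite F
  have hs' : ¬ IsSquare s := by
    intro h
    apply hs
    have : -s = (-1) * s := by ring
    rw [this]
    exact h1.mul h
  obtain ⟨n, hn⟩ : ∃ n, n = Nat.card F := ⟨_, rfl⟩
  have hn1 : 1 ≤ n := by
    rw [hn]
    exact Nat.card_pos
  have hy0 : ∀ B : Tup F, NZ B → (tau (B.y / (2 * B.x)) B).y = 0 := by
    intro B hB
    have hx := hB.1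
    show B.y - 2 * (B.y / (2 * B.x)) * B.x = 0
    field_simp
    ring
  have hcn : ∀ D : Tup F, chA D = s → chB D = 0 → NZ D → D.y = 0 →
      ¬ IsSquare (4 * D.c ^ 2 + s) := by
    intro D hA hB hN hy
    by_cases hc : D.c = 0
    · rw [hc]
      have : 4 * (0 : F) ^ 2 + s = s := by ring
      rw [this]
      exact hs'
    · exact (ns_of_nz h2 hs hA hB hN hy hc).1
  have htn : ∀ D : Tup F, chA D = s → chB D = 0 → NZ D → D.y = 0 →
      (if D.c = 0 then D.x else D.z) ≠ 0 := by
    intro D hA hB hN hy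
    by_cases hc : D.c = 0
    · rw [if_pos hc]
      exact hN.1
    · rw [if_neg hc]
      exact (ns_of_nz h2 hs hA hB hN hy hc).2.1
  -- the injection
  let f : {B : Tup F // chA B = s ∧ chB B = 0 ∧ NZ B} →
      F × ({c : F // ¬ IsSquare (4 * c ^ 2 + s)} × {z : F // z ≠ 0}) :=
    fun B => (B.1.y / (2 * B.1.x),
      ⟨(tau (B.1.y / (2 * B.1.x)) B.1).c, hcn _ ((Pool.Agent.N711.PP.chA_tau _ _).trans B.2.1)
          ((Pool.Agent.N711.PP.chB_tau _ _).trans B.2.2.1) (nz_tau B.2.2.2 _) (hy0 _ B.2.2.2)⟩,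
      ⟨if (tau (B.1.y / (2 * B.1.x)) B.1).c = 0 then (tau (B.1.y / (2 * B.1.x)) B.1).x else
          (tau (B.1.y / (2 * B.1.x)) B.1).z, htn _ ((Pool.Agent.N711.PP.chA_tau _ _).trans B.2.1)
          ((Pool.Agent.N711.PP.chB_tau _ _).trans B.2.2.1) (nz_tau B.2.2.2 _) (hy0 _ B.2.2.2)⟩)
  have hf : Function.Injective f := by
    rintro ⟨B, hA, hB, hN⟩ ⟨B', hA', hB', hN'⟩ h
    have e1 : B.y / (2 * B.x) = B'.y / (2 * B'.x) := congrArg Prod.fst h
    have e2 : (tau (B.y / (2 * B.x)) B).c = (tau (B'.y / (2 * B'.x)) B').c :=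
      congrArg (fun t => t.2.1.1) h
    have e3 : (if (tau (B.y / (2 * B.x)) B).c = 0 then (tau (B.y / (2 * B.x)) B).x else
        (tau (B.y / (2 * B.x)) B).z) =
        (if (tau (B'.y / (2 * B'.x)) B').c = 0 then (tau (B'.y / (2 * B'.x)) B').x else
        (tau (B'.y / (2 * B'.x)) B').z) :=
      congrArg (fun t => t.2.2.1) h
    have hx := hN.1
    have hx' := hN'.1
    obtain ⟨u, hu⟩ : ∃ u, u = B.y / (2 * B.x) := ⟨_, rfl⟩
    have hy : (tau u B).y = 0 := by rw [hu]; exact hy0 B hN
    have hy' : (tau u B').y = 0 := by rw [hu, e1]; exact hy0 B' hN'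
    rw [← e1, ← hu] at e2 e3
    have key : tau u B = tau u B' := by
      have hAt : chA (tau u B) = s := (Pool.Agent.N711.PP.chA_tau _ _).trans hA
      have hBt : chB (tau u B) = 0 := (Pool.Agent.N711.PP.chB_tau _ _).trans hB
      have hAt' : chA (tau u B') = s := (Pool.Agent.N711.PP.chA_tau _ _).trans hA'
      have hBt' : chB (tau u B') = 0 := (Pool.Agent.N711.PP.chB_tau _ _).trans hB'
      have hNt := nz_tau hN u
      have hNt' := nz_tau hN' u
      clear h f
      generalize tau u B = D at *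
      generalize tau u B' = D' at *
      have hw : D.x = D'.x → D.z = D'.z → D = D' := by
        intro h1 h4
        refine Tup.ext h1 (hy.trans hy'.symm) e2 h4 ?_
        have h5 : D.x * D.w = D'.x * D'.w := by
          have h6 := hAt
          have h7 := hAt'
          simp only [chA] at h6 h7
          rw [hy] at h6
          rw [hy'] at h7
          rw [← e2] at h7
          linear_combination h7 - h6
        rw [← h1] at h5
        exact mul_left_cancel₀ hNt.1 h5
      by_cases hc : D.c = 0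
      · have hc' : D'.c = 0 := e2.symm.trans hc
        rw [if_pos hc, if_pos hc'] at e3
        have hz : ∀ E : Tup F, chB E = 0 → E.y = 0 → E.c = 0 → E.x ≠ 0 → E.z = 0 := by
          intro E h1 h3 h4 h5
          simp only [chB] at h1
          rw [h3, h4] at h1
          have : E.x * E.z ^ 2 = 0 := by linear_combination -h1
          rcases mul_eq_zero.1 this with h | h
          · exact absurd h h5
          · exact pow_eq_zero_iff two_ne_zero |>.1 h
        exact hw e3 ((hz D hBt hy hc hNt.1).trans (hz D' hBt' hy' hc' hNt'.1).symm)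
      · have hc' : ¬ D'.c = 0 := fun h => hc (e2.trans h)
        rw [if_neg hc, if_neg hc'] at e3
        have k1 := (ns_of_nz h2 hs hAt hBt hNt hy hc)
        have k2 := (ns_of_nz h2 hs hAt' hBt' hNt' hy' hc')
        refine hw ?_ e3
        have h11 : D.x * D.z ^ 2 = D'.x * D.z ^ 2 := by
          rw [k1.2.2, e3, k2.2.2, e2]
        exact mul_right_cancel₀ (pow_ne_zero 2 k1.2.1) h11
    exact Subtype.ext (Pool.Agent.N711.PP.tau_inj key)
  have hc := Nat.card_le_card_of_injective f hf
  rw [Nat.card_prod, Nat.card_prod] at hc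
  have h5 : Nat.card {y : F // y ≠ 0} = n - 1 := by
    rw [hn, Nat.card_eq_fintype_card, Nat.card_eq_fintype_card, Fintype.card_subtype_compl,
      Fintype.card_subtype_eq]
  have h6 := card_ns h2 hs'
  rw [h5] at hc
  rw [← hn] at hc h6
  rw [← hn]
  obtain ⟨N, hN⟩ : ∃ N, N = Nat.card {c : F // ¬ IsSquare (4 * c ^ 2 + s)} := ⟨_, rfl⟩
  rw [← hN] at hc h6
  obtain ⟨m, rfl⟩ : ∃ m, n = m + 1 := ⟨n - 1, by omega⟩
  rw [Nat.add_sub_cancel] at hc
  calc 2 * Nat.card {B : Tup F // chA B = s ∧ chB B = 0 ∧ NZ B} ≤ 2 * ((m + 1) * (N * m)) :=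
        Nat.mul_le_mul_left _ hc
    _ = (m + 1) * (2 * N * m) := by ring
    _ ≤ (m + 1) * ((m + 1 + 1) * m) := Nat.mul_le_mul_left _ (Nat.mul_le_mul_right _ h6)
    _ ≤ (m + 1) ^ 3 := by nlinarith

end Pool.Agent.Helper29L.NNL
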