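import Pool.Agent.Helper29L.Stm3

/-!
# Job SHELL, part 3: few members of the family of height between `T'` and `T`
-/

set_option autoImplicit false
set_option linter.all false

open Finset Filter
open scoped Classical

namespace Pool.Agent.Helper29L

open Pool.Agent.Helper29K (SE Pr8 zS Bx InFamily NR)

namespace ShellT

/-- The integers in an interval and in a residue class. -/
def cls (P : ℕ) (r : ℤ) (u v : ℝ) : Set ℤ := {x | u < x ∧ (x : ℝ) ≤ v ∧ (P : ℤ) ∣ x - r}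

theorem cls_sub {P : ℕ} (hP : 0 < P) (r : ℤ) (u v : ℝ) :
    cls P r u v ⊆ (((Finset.Ioc ⌊(u - r) / P⌋ ⌊(v - r) / P⌋).image fun t : ℤ => r + P * t :
      Finset ℤ) : Set ℤ) := by
  rintro x ⟨h1, h2, t, ht⟩
  have hP' : (0 : ℝ) < P := by exact_mod_cast hP
  have hx : (x : ℝ) = r + P * t := by
    have : x = r + P * t := by linarith
    rw [this]
    push_cast
    ring
  rw [Finset.mem_coe, Finset.mem_image]
  refine ⟨t, ?_, by linarith⟩
  rw [Finset.mem_Ioc]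
  constructor
  · rw [Int.floor_lt, div_lt_iff₀ hP']
    rw [hx] at h1
    linarith
  · rw [Int.le_floor, le_div_iff₀ hP']
    rw [hx] at h2
    linarith

theorem cls_fin {P : ℕ} (hP : 0 < P) (r : ℤ) (u v : ℝ) : (cls P r u v).Finite :=
  (Finset.finite_toSet _).subset (cls_sub hP r u v)

theorem cls_card {P : ℕ} (hP : 0 < P) (r : ℤ) {u v : ℝ} (huv : u ≤ v) :
    ((cls P r u v).ncard : ℝ) ≤ (v - u) / P + 1 := by
  have hP' : (0 : ℝ) < P := by exact_mod_cast hP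
  have h1 : (cls P r u v).ncard ≤ (Finset.Ioc ⌊(u - r) / P⌋ ⌊(v - r) / P⌋).card := by
    refine (Set.ncard_le_ncard (cls_sub hP r u v) (Finset.finite_toSet _)).trans ?_
    rw [Set.ncard_coe_finset]
    exact Finset.card_image_le
  rw [Int.card_Ioc] at h1
  have h2 : ⌊(u - r) / (P : ℝ)⌋ ≤ ⌊(v - r) / (P : ℝ)⌋ :=
    Int.floor_le_floor (div_le_div_of_nonneg_right (by linarith) hP'.le)
  have h3 : (((⌊(v - r) / (P : ℝ)⌋ - ⌊(u - r) / (P : ℝ)⌋).toNat : ℕ) : ℝ) =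
      (⌊(v - r) / (P : ℝ)⌋ : ℝ) - (⌊(u - r) / (P : ℝ)⌋ : ℝ) := by
    have : (((⌊(v - r) / (P : ℝ)⌋ - ⌊(u - r) / (P : ℝ)⌋).toNat : ℕ) : ℤ) =
      ⌊(v - r) / (P : ℝ)⌋ - ⌊(u - r) / (P : ℝ)⌋ := Int.toNat_of_nonneg (by omega)
    exact_mod_cast this
  have h4 : ((cls P r u v).ncard : ℝ) ≤
      (((⌊(v - r) / (P : ℝ)⌋ - ⌊(u - r) / (P : ℝ)⌋).toNat : ℕ) : ℝ) := by exact_mod_cast h1
  rw [h3] at h4
  have h5 := Int.floor_le ((v - r) / (P : ℝ))
  have h6 := Int.lt_floor_add_one ((u - r) / (P : ℝ))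
  have h7 : (v - r) / (P : ℝ) - (u - r) / P = (v - u) / P := by ring
  linarith

/-- the members of height at most `T` -/
theorem fin_hgt (T : ℕ) : {p : ℤ × ℤ | hgt p ≤ T}.Finite := by
  refine ((Set.finite_Icc (-(T : ℤ)) T).prod (Set.finite_Icc (-(T : ℤ)) T)).subset ?_
  rintro ⟨a, b⟩ h
  have h1 : a.natAbs ^ 3 ≤ T := (le_max_left _ _).trans h
  have h2 : b.natAbs ^ 2 ≤ T := (le_max_right _ _).trans h
  have h3 : a.natAbs ≤ T := by
    rcases Nat.eq_zero_or_pos a.natAbs with h0 | h0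
    · omega
    · exact (Nat.le_self_pow (by norm_num) _).trans h1
  have h4 : b.natAbs ≤ T := (Nat.le_self_pow (by norm_num) _).trans h2
  refine ⟨?_, ?_⟩
  · show a ∈ Set.Icc _ _
    rw [Set.mem_Icc]
    omega
  · show b ∈ Set.Icc _ _
    rw [Set.mem_Icc]
    omega

theorem fin_NS (S : Finset ℕ) (s : ℕ → ℤ) (T : ℕ) : {p : ℤ × ℤ | FamS S s p ∧ hgt p ≤ T}.Finite :=
  (fin_hgt T).subset fun _ h => h.2

theorem prod_dvd {S : Finset ℕ} (hS : Pr8 S) {n : ℤ} (h : ∀ Q ∈ S, (Q : ℤ) ∣ n) :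
    (((∏ Q ∈ S, Q : ℕ)) : ℤ) ∣ n := by
  rw [Nat.cast_prod]
  refine Finset.prod_dvd_of_coprime ?_ h
  intro p hp q hq hpq
  show IsCoprime (p : ℤ) (q : ℤ)
  rw [Nat.isCoprime_iff_coprime]
  exact (Nat.coprime_primes (hS p hp).1 (hS q hq).1).2 hpq

theorem pw2 {η : ℝ} (h0 : 0 ≤ η) (h1 : η ≤ 1) : (1 + η) ^ 2 - 1 ≤ 3 * η := by nlinarith

theorem pw3 {η : ℝ} (h0 : 0 ≤ η) (h1 : η ≤ 1) : (1 + η) ^ 3 - 1 ≤ 7 * η := by
  have h2 : η ^ 2 ≤ η := by nlinarith
  have h3 : η ^ 3 ≤ η := by nlinarith [mul_nonneg h0 h0]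
  have e : (1 + η) ^ 3 - 1 = 3 * η + 3 * η ^ 2 + η ^ 3 := by ring
  linarith

theorem cube_add {x : ℝ} (h0 : 0 ≤ x) : x ^ 3 + 1 ≤ (x + 1) ^ 3 := by
  have e : (x + 1) ^ 3 = x ^ 3 + 3 * x ^ 2 + 3 * x + 1 := by ring
  rw [e]
  have : 0 ≤ x ^ 2 := sq_nonneg x
  linarith

theorem sq_add {x : ℝ} (h0 : 0 ≤ x) : x ^ 2 + 1 ≤ (x + 1) ^ 2 := by
  have e : (x + 1) ^ 2 = x ^ 2 + 2 * x + 1 := by ring
  rw [e]
  linarith

end ShellT

open ShellT

theorem shell (h : S_LOWB) : S_SHELL := by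
  obtain ⟨c, hc, hlow⟩ := h
  refine ⟨21 / c, by positivity, ?_⟩
  intro S s hG η hη hη1
  set P : ℕ := ∏ Q ∈ S, Q with hP
  have hP0 : 0 < P := Finset.prod_pos fun Q hQ => (hG.1 Q hQ).1.pos
  have hPR : (1 : ℝ) ≤ P := by exact_mod_cast hP0
  have hlim : ∀ᶠ T : ℕ in atTop, 36 * (P : ℝ) ^ 2 / η ≤ (T : ℝ) ^ (1 / 3 : ℝ) := by
    have h1 : Tendsto (fun T : ℕ => (T : ℝ) ^ (1 / 3 : ℝ)) atTop atTop :=
      (tendsto_rpow_atTop (by norm_num)).comp tendsto_natCast_atTop_atTop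
    exact h1.eventually_ge_atTop _
  filter_upwards [hlow S s hG, hlim, eventually_ge_atTop 1] with T hT1 hT2 hT3 T' hT' hTT
  have hT0 : (0 : ℝ) ≤ T := Nat.cast_nonneg _
  have hT'0 : (0 : ℝ) ≤ T' := Nat.cast_nonneg _
  set α : ℝ := (T : ℝ) ^ (1 / 3 : ℝ) with hα
  set β : ℝ := (T : ℝ) ^ (1 / 2 : ℝ) with hβ
  set α' : ℝ := (T' : ℝ) ^ (1 / 3 : ℝ) with hα'
  set β' : ℝ := (T' : ℝ) ^ (1 / 2 : ℝ) with hβ'
  have hα0 : 0 ≤ α := by positivity
  have hβ0 : 0 ≤ β := by positivity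
  have hα'0 : 0 ≤ α' := by positivity
  have hβ'0 : 0 ≤ β' := by positivity
  have eα : α ^ 3 = T := by
    rw [hα, ← Real.rpow_natCast, ← Real.rpow_mul hT0]
    norm_num
  have eβ : β ^ 2 = T := by
    rw [hβ, ← Real.rpow_natCast, ← Real.rpow_mul hT0]
    norm_num
  have eα' : α' ^ 3 = T' := by
    rw [hα', ← Real.rpow_natCast, ← Real.rpow_mul hT'0]
    norm_num
  have eβ' : β' ^ 2 = T' := by
    rw [hβ', ← Real.rpow_natCast, ← Real.rpow_mul hT'0]
    norm_num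
  have eαβ : α * β = (T : ℝ) ^ (5 / 6 : ℝ) := by
    rw [hα, hβ, ← Real.rpow_add' hT0 (by norm_num)]
    norm_num
  have hT'' : (T' : ℝ) ≤ T := by exact_mod_cast hT'
  have hαα' : α' ≤ α := Real.rpow_le_rpow hT'0 hT'' (by norm_num)
  have hββ' : β' ≤ β := Real.rpow_le_rpow hT'0 hT'' (by norm_num)
  have hβ1 : 1 ≤ β := Real.one_le_rpow (by exact_mod_cast hT3) (by norm_num)
  have hαβ : α ≤ β := Real.rpow_le_rpow_of_exponent_le (by exact_mod_cast hT3) (by norm_num)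
  -- the widths
  have w1 : α - α' ≤ 3 * η * α + 1 := by
    have h1 : α ≤ (1 + η) ^ 2 * α' + 1 := by
      have hx : 0 ≤ (1 + η) ^ 2 * α' := by positivity
      have h2 : α ^ 3 ≤ ((1 + η) ^ 2 * α' + 1) ^ 3 := by
        have e : ((1 + η) ^ 2 * α') ^ 3 = (1 + η) ^ 6 * (T' : ℝ) := by
          rw [mul_pow, eα', ← pow_mul]
        have h3 : α ^ 3 ≤ ((1 + η) ^ 2 * α') ^ 3 + 1 := by rw [eα, e]; exact hTT
        exact h3.trans (cube_add hx)
      exact le_of_pow_le_pow_left₀ (by norm_num) (by positivity) h2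
    have h4 : ((1 + η) ^ 2 - 1) * α' ≤ 3 * η * α := by
      have h5 : (1 + η) ^ 2 - 1 ≤ 3 * η := pw2 hη.le hη1
      have h6 : 0 ≤ (1 + η) ^ 2 - 1 := by
        have : (1 + η) ^ 2 - 1 = 2 * η + η ^ 2 := by ring
        rw [this]; positivity
      calc ((1 + η) ^ 2 - 1) * α' ≤ ((1 + η) ^ 2 - 1) * α := mul_le_mul_of_nonneg_left hαα' h6
        _ ≤ 3 * η * α := mul_le_mul_of_nonneg_right h5 hα0
    linarith
  have w2 : β - β' ≤ 7 * η * β + 1 := by
    have h1 : β ≤ (1 + η) ^ 3 * β' + 1 := by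
      have hx : 0 ≤ (1 + η) ^ 3 * β' := by positivity
      have h2 : β ^ 2 ≤ ((1 + η) ^ 3 * β' + 1) ^ 2 := by
        have e : ((1 + η) ^ 3 * β') ^ 2 = (1 + η) ^ 6 * (T' : ℝ) := by
          rw [mul_pow, eβ', ← pow_mul]
        have h3 : β ^ 2 ≤ ((1 + η) ^ 3 * β') ^ 2 + 1 := by rw [eβ, e]; exact hTT
        exact h3.trans (sq_add hx)
      exact le_of_pow_le_pow_left₀ (by norm_num) (by positivity) h2
    have h4 : ((1 + η) ^ 3 - 1) * β' ≤ 7 * η * β := by
      have h5 : (1 + η) ^ 3 - 1 ≤ 7 * η := pw3 hη.le hη1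
      have h6 : 0 ≤ (1 + η) ^ 3 - 1 := by
        have : (1 + η) ^ 3 - 1 = 3 * η + 3 * η ^ 2 + η ^ 3 := by ring
        rw [this]; positivity
      calc ((1 + η) ^ 3 - 1) * β' ≤ ((1 + η) ^ 3 - 1) * β := mul_le_mul_of_nonneg_left hββ' h6
        _ ≤ 7 * η * β := mul_le_mul_of_nonneg_right h5 hβ0
    linarith
  -- the shell
  set D : Set (ℤ × ℤ) := {p | FamS S s p ∧ hgt p ≤ T ∧ T' < hgt p} with hD
  have hsub : {p : ℤ × ℤ | FamS S s p ∧ hgt p ≤ T} ⊆
      {p : ℤ × ℤ | FamS S s p ∧ hgt p ≤ T'} ∪ D := by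
    rintro p ⟨h1, h2⟩
    by_cases h3 : hgt p ≤ T'
    · exact Or.inl ⟨h1, h3⟩
    · exact Or.inr ⟨h1, h2, not_le.1 h3⟩
  have hDfin : D.Finite := (fin_NS S s T).subset fun p h => ⟨h.1, h.2.1⟩
  have hNS : (NS S s T : ℝ) - NS S s T' ≤ D.ncard := by
    have h1 : NS S s T ≤ NS S s T' + D.ncard :=
      (Set.ncard_le_ncard hsub ((fin_NS S s T').union hDfin)).trans (Set.ncard_union_le _ _)
    have h2 : (NS S s T : ℝ) ≤ NS S s T' + D.ncard := by exact_mod_cast h1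
    linarith
  -- the count
  have hcount : (D.ncard : ℝ) ≤ 21 * η * (α * β / P ^ 2) := by
    rcases D.eq_empty_or_nonempty with hemp | ⟨p0, hp0⟩
    · rw [hemp, Set.ncard_empty]
      have : 0 ≤ 21 * η * (α * β / P ^ 2) := by positivity
      simpa using this
    set r : ℤ := p0.1 with hr
    set U : Set (ℤ × ℤ) := (cls P r α' α ×ˢ cls P 0 (-β - 1) β) ∪
      ((cls P r 0 α ×ˢ cls P 0 β' β) ∪ (cls P r 0 α ×ˢ ((fun x : ℤ => -x) '' cls P 0 β' β))) with hU
    have hDU : D ⊆ U := by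
      rintro ⟨a, b⟩ ⟨h1, h2, h3⟩
      have ha0 : 0 < a := h1.fam.pos
      have haR : (0 : ℝ) < a := by exact_mod_cast ha0
      have ha : (P : ℤ) ∣ a - r := by
        apply prod_dvd hG.1
        intro Q hQ
        have e : a - r = (a - s Q) - (r - s Q) := by ring
        rw [e]
        exact dvd_sub (h1.ra Q hQ) (hp0.1.ra Q hQ)
      have hb : (P : ℤ) ∣ b := prod_dvd hG.1 h1.rb
      have h4 : a.natAbs ^ 3 ≤ T := (le_max_left _ _).trans h2
      have h5 : b.natAbs ^ 2 ≤ T := (le_max_right _ _).trans h2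
      have hnA : ((a.natAbs : ℕ) : ℝ) = a := by
        rw [Nat.cast_natAbs, abs_of_pos ha0]
      have hnB : ((b.natAbs : ℕ) : ℝ) = |(b : ℝ)| := by
        rw [Nat.cast_natAbs]; push_cast; rfl
      have h6 : (a : ℝ) ≤ α := by
        have : (a : ℝ) ^ 3 ≤ α ^ 3 := by
          rw [eα, ← hnA]; exact_mod_cast h4
        exact le_of_pow_le_pow_left₀ (by norm_num) hα0 this
      have h7 : |(b : ℝ)| ≤ β := by
        have : |(b : ℝ)| ^ 2 ≤ β ^ 2 := by
          rw [eβ, ← hnB]; exact_mod_cast h5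
        exact le_of_pow_le_pow_left₀ (by norm_num) hβ0 this
      have h7' := abs_le.1 h7
      rcases lt_max_iff.1 h3 with h8 | h8
      · left
        refine ⟨⟨?_, h6, ha⟩, ⟨?_, h7'.2, by rwa [sub_zero]⟩⟩
        · have h9 : α' ^ 3 < (a : ℝ) ^ 3 := by
            rw [eα', ← hnA]; exact_mod_cast h8
          exact lt_of_pow_lt_pow_left₀ 3 haR.le h9
        · show -β - 1 < (b : ℝ)
          linarith
      · right
        have h9 : β' < |(b : ℝ)| := by
          have : β' ^ 2 < |(b : ℝ)| ^ 2 := by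
            rw [eβ', ← hnB]; exact_mod_cast h8
          exact lt_of_pow_lt_pow_left₀ 2 (abs_nonneg _) this
        rcases le_or_gt 0 b with hb0 | hb0
        · left
          have hbR : (0 : ℝ) ≤ b := by exact_mod_cast hb0
          rw [abs_of_nonneg hbR] at h9
          exact ⟨⟨haR, h6, ha⟩, ⟨h9, h7'.2, by rwa [sub_zero]⟩⟩
        · right
          have hbR : (b : ℝ) < 0 := by exact_mod_cast hb0
          rw [abs_of_neg hbR] at h9
          refine ⟨⟨haR, h6, ha⟩, ⟨-b, ⟨?_, ?_, ?_⟩, by simp⟩⟩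
          · push_cast; exact h9
          · push_cast; linarith
          · rw [sub_zero]; exact (dvd_neg).2 hb
    have f1 := cls_fin hP0 r α' α
    have f2 := cls_fin hP0 0 (-β - 1) β
    have f3 := cls_fin hP0 r 0 α
    have f4 := cls_fin hP0 0 β' β
    have hUfin : U.Finite := (f1.prod f2).union ((f3.prod f4).union (f3.prod (f4.image _)))
    have hUc : U.ncard ≤ (cls P r α' α).ncard * (cls P 0 (-β - 1) β).ncard +
        2 * ((cls P r 0 α).ncard * (cls P 0 β' β).ncard) := by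
      refine (Set.ncard_union_le _ _).trans ?_
      rw [Set.ncard_prod]
      refine Nat.add_le_add_left ?_ _
      refine (Set.ncard_union_le _ _).trans ?_
      rw [Set.ncard_prod, Set.ncard_prod, two_mul]
      refine Nat.add_le_add_left ?_ _
      exact Nat.mul_le_mul_left _ (Set.ncard_image_le f4)
    have hDc : (D.ncard : ℝ) ≤ (cls P r α' α).ncard * (cls P 0 (-β - 1) β).ncard +
        2 * ((cls P r 0 α).ncard * (cls P 0 β' β).ncard) := by
      exact_mod_cast (Set.ncard_le_ncard hDU hUfin).trans hUc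
    have c1 := cls_card hP0 r hαα'
    have c2 := cls_card hP0 0 (show -β - 1 ≤ β by linarith)
    have c3 := cls_card hP0 r hα0
    have c4 := cls_card hP0 0 hββ'
    have hPp : (0 : ℝ) < P := by linarith
    set i : ℝ := 1 / (P : ℝ) with hi
    have hi0 : 0 < i := by positivity
    have hi1 : i ≤ 1 := by
      rw [hi, div_le_one hPp]; exact hPR
    have d1 : ((cls P r α' α).ncard : ℝ) ≤ 3 * η * (α * i) + 2 := by
      have : (α - α') / (P : ℝ) = (α - α') * i := by rw [hi]; ring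
      rw [this] at c1
      have m1 := mul_le_mul_of_nonneg_right w1 hi0.le
      have m2 : (3 * η * α + 1) * i = 3 * η * (α * i) + i := by ring
      linarith
    have d2 : ((cls P 0 (-β - 1) β).ncard : ℝ) ≤ 2 * (β * i) + 2 := by
      have : (β - (-β - 1)) / (P : ℝ) = (2 * β + 1) * i := by rw [hi]; ring
      rw [this] at c2
      have m2 : (2 * β + 1) * i = 2 * (β * i) + i := by ring
      linarith
    have d3 : ((cls P r 0 α).ncard : ℝ) ≤ α * i + 1 := by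
      have : (α - 0) / (P : ℝ) = α * i := by rw [hi]; ring
      rw [this] at c3
      exact c3
    have d4 : ((cls P 0 β' β).ncard : ℝ) ≤ 7 * η * (β * i) + 2 := by
      have : (β - β') / (P : ℝ) = (β - β') * i := by rw [hi]; ring
      rw [this] at c4
      have m1 := mul_le_mul_of_nonneg_right w2 hi0.le
      have m2 : (7 * η * β + 1) * i = 7 * η * (β * i) + i := by ring
      linarith
    have e1 := mul_le_mul d1 d2 (Nat.cast_nonneg _) (by positivity)
    have e2 := mul_le_mul d3 d4 (Nat.cast_nonneg _) (by positivity)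
    have e3 : (D.ncard : ℝ) ≤ (3 * η * (α * i) + 2) * (2 * (β * i) + 2) +
        2 * ((α * i + 1) * (7 * η * (β * i) + 2)) := by linarith
    have e4 : (3 * η * (α * i) + 2) * (2 * (β * i) + 2) +
        2 * ((α * i + 1) * (7 * η * (β * i) + 2)) =
        20 * η * (α * β * i ^ 2) + (6 * (η * (α * i)) + 4 * (β * i) + 4 * (α * i) +
          14 * (η * (β * i)) + 8) := by ring
    have hαi : α * i ≤ β := (mul_le_of_le_one_right hα0 hi1).trans hαβ
    have hβi : β * i ≤ β := mul_le_of_le_one_right hβ0 hi1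
    have hηα : η * (α * i) ≤ β :=
      (mul_le_of_le_one_left (by positivity) hη1).trans hαi
    have hηβ : η * (β * i) ≤ β :=
      (mul_le_of_le_one_left (by positivity) hη1).trans hβi
    have e5 : (D.ncard : ℝ) ≤ 20 * η * (α * β * i ^ 2) + 36 * β := by linarith
    have e6 : 36 * β ≤ η * (α * β * i ^ 2) := by
      rw [div_le_iff₀ hη] at hT2
      have hPi : (P : ℝ) ^ 2 * i ^ 2 = 1 := by rw [hi]; field_simp
      have h1 : 36 * ((P : ℝ) ^ 2 * i ^ 2) ≤ α * η * i ^ 2 := by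
        have h2 := mul_le_mul_of_nonneg_right hT2 (sq_nonneg i)
        linarith
      rw [hPi] at h1
      have h3 := mul_le_mul_of_nonneg_right h1 hβ0
      linarith
    have e7 : α * β * i ^ 2 = α * β / (P : ℝ) ^ 2 := by rw [hi]; field_simp
    rw [e7] at e5 e6
    linarith
  -- the end
  rw [← eαβ] at hT1
  have hPp : (0 : ℝ) < (P : ℝ) ^ 2 := by positivity
  have h1 : α * β / (P : ℝ) ^ 2 ≤ (1 / c) * NS S s T := by
    rw [div_le_iff₀ hPp]
    have h2 : α * β = (1 / c) * (c * (α * β)) := by field_simp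
    rw [h2]
    have h3 : (1 / c) * (c * (α * β)) ≤ (1 / c) * ((P : ℝ) ^ 2 * (NS S s T : ℝ)) :=
      mul_le_mul_of_nonneg_left hT1 (by positivity)
    refine h3.trans (le_of_eq ?_)
    ring
  calc (NS S s T : ℝ) - NS S s T' ≤ 21 * η * (α * β / P ^ 2) := hNS.trans hcount
    _ ≤ 21 * η * ((1 / c) * NS S s T) := mul_le_mul_of_nonneg_left h1 (by positivity)
    _ = 21 / c * η * NS S s T := by ring

end Pool.Agent.Helper29L
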