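import Mathlib

/-!
# Job SIZE, part 0: the completion at `2`
-/

set_option autoImplicit false
set_option linter.all false

open Polynomial IsDedekindDomain NumberField
open scoped Classical

namespace Pool.Agent.Helper29L.SZ

/-- the place `2` -/
noncomputable def p2 : HeightOneSpectrum (𝓞 ℚ) :=
  (Rat.HeightOneSpectrum.primesEquiv (R := 𝓞 ℚ)).symm ⟨2, Nat.prime_two⟩

/-- the map to `ℚ_2` -/
noncomputable def jj : p2.adicCompletion ℚ →+* ℚ_[2] :=
  RingEquiv.toRingHom
    ((Padic.adicCompletionEquiv (𝓞 ℚ) ⟨2, Nat.prime_two⟩).symm.toAlgEquiv.toRingEquiv)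

theorem ng_p2 : Rat.HeightOneSpectrum.natGenerator p2 = 2 := by
  have := Rat.HeightOneSpectrum.primesEquiv.apply_symm_apply
    (⟨2, Nat.prime_two⟩ : Nat.Primes) (α := HeightOneSpectrum (𝓞 ℚ))
  exact congrArg Subtype.val this

/-- no zeros in `ℚ_2` -/
theorem no_root {a b : ℤ} (ha : Odd a) (hb : Odd b) (x : ℚ_[2]) :
    x ^ 3 + (a : ℚ_[2]) * x + (b : ℚ_[2]) ≠ 0 := by
  intro h
  by_cases hx : ‖x‖ ≤ 1
  · obtain ⟨y, hy⟩ : ∃ y : ℤ_[2], (y : ℚ_[2]) = x := ⟨⟨x, hx⟩, rfl⟩
    have h1 : y ^ 3 + (a : ℤ_[2]) * y + (b : ℤ_[2]) = 0 := by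
      apply Subtype.ext
      push_cast
      rw [hy]
      exact h
    have h2 := congrArg (PadicInt.toZMod (p := 2)) h1
    simp only [map_add, map_mul, map_pow, map_intCast, map_zero] at h2
    obtain ⟨k, hk⟩ := ha
    obtain ⟨m, hm⟩ := hb
    have e2 : (2 : ZMod 2) = 0 := by decide
    have ea : (a : ZMod 2) = 1 := by
      rw [hk]
      push_cast
      rw [e2]
      ring
    have eb : (b : ZMod 2) = 1 := by
      rw [hm]
      push_cast
      rw [e2]
      ring
    rw [ea, eb] at h2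
    generalize PadicInt.toZMod y = t at h2
    revert h2
    revert t
    decide
  · rw [not_le] at hx
    have h1 : x ^ 3 = -((a : ℚ_[2]) * x + (b : ℚ_[2])) := by linear_combination h
    have h2 : ‖x‖ ^ 3 ≤ ‖x‖ := by
      rw [← norm_pow, h1, norm_neg]
      refine (Padic.nonarchimedean _ _).trans ?_
      refine max_le ?_ ((Padic.norm_int_le_one b).trans hx.le)
      rw [norm_mul]
      exact mul_le_of_le_one_left (norm_nonneg _) (Padic.norm_int_le_one a)
    nlinarith [sq_nonneg (‖x‖ - 1), mul_pos (sub_pos.2 hx) (lt_trans one_pos hx)]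

end Pool.Agent.Helper29L.SZ
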