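import Pool.Agent.Helper29L.Hei

/-!
# The distribution over the twists of one member, and over the family
-/

set_option autoImplicit false
set_option linter.all false

open IsDedekindDomain NumberField Finset Filter
open scoped Classical

namespace Pool.Agent.Helper29L

open Pool.Agent.H30EV (curve twist)
open Pool.Agent.H30GR (Sel2)
open Pool.Agent.Helper29K (InFamily SE Pr8 zS Bx NR mem_zS card_zS prod_zS mem_Bx nr_congr goodS_of)

/-- The 2-Selmer group of `y ^ 2 = x ^ 3 + a x + b`, `P = (a, b)`, over `ℚ` has dimension `n`. -/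
def SelDim (P : ℤ × ℤ) (n : ℕ) : Prop :=
  Finite (Sel2 (curve ℚ P)) ∧ Nat.card (Sel2 (curve ℚ P)) = 2 ^ n

theorem SelDim.unique {P : ℤ × ℤ} {n m : ℕ} (h : SelDim P n) (h' : SelDim P m) : n = m :=
  Nat.pow_right_injective le_rfl (h.2.symm.trans h'.2)

theorem selDim_iff {P : ℤ × ℤ} {n : ℕ} (h : SelDim P n) (B : Set ℕ) :
    (∃ m ∈ B, SelDim P m) ↔ n ∈ B := by
  constructor
  · rintro ⟨m, hm, h'⟩
    rwa [h.unique h']
  · exact fun hn => ⟨n, hn, h⟩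

theorem fin_hgt (T : ℕ) : {p : ℤ × ℤ | hgt p ≤ T}.Finite := by
  refine (Finset.finite_toSet (Icc (-(T : ℤ)) T ×ˢ Icc (-(T : ℤ)) T)).subset fun p hp => ?_
  have hp' : hgt p ≤ T := hp
  have h1 : p.1.natAbs ≤ T := (Nat.le_self_pow (by norm_num) _).trans ((le_max_left _ _).trans hp')
  have h2 : p.2.natAbs ≤ T := (Nat.le_self_pow (by norm_num) _).trans ((le_max_right _ _).trans hp')
  rw [Finset.mem_coe, Finset.mem_product, Finset.mem_Icc, Finset.mem_Icc]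
  omega

theorem mem_fanSets {k : ℕ} {A : ℕ → Finset ℕ} {Z : Finset ℕ} (hZ : Z ∈ fanSets k A) {S : Finset ℕ}
    (hA : ∀ i < k, A i ⊆ S) : Z ⊆ S := by
  obtain ⟨Q, hQ, rfl⟩ := Finset.mem_image.1 hZ
  intro q hq
  obtain ⟨i, -, rfl⟩ := Finset.mem_image.1 hq
  exact hA i i.2 (Fintype.mem_piFinset.1 hQ i)

theorem sub_ZZ {k : ℕ} {A : ℕ → Finset ℕ} {U V₁ V₂ S : Finset ℕ} (hA : ∀ i < k, A i ⊆ S) (hU : U ⊆ S)
    (h1 : V₁ ⊆ S) (h2 : V₂ ⊆ S) {Z : Finset ℕ} (hZ : Z ∈ ZZ k A U V₁ V₂) : Z ⊆ S := by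
  rcases Finset.mem_union.1 hZ with h | h
  · refine mem_fanSets h fun i hi => ?_
    unfold lvA
    split_ifs with h3
    · exact hA i h3
    · exact hU
  · refine mem_fanSets h fun i hi => ?_
    unfold lvB
    split_ifs with h3 h4
    · exact hA i h3
    · exact h1
    · exact h2

theorem fanSets_ne {k : ℕ} {A : ℕ → Finset ℕ} (h : ∀ i < k, (A i).Nonempty) :
    (fanSets k A).Nonempty := by
  unfold fanSets
  refine Finset.Nonempty.image ?_ _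
  exact Fintype.piFinset_nonempty.2 fun i => h i i.2

theorem ZZ_ne {k : ℕ} {A : ℕ → Finset ℕ} {U V₁ V₂ : Finset ℕ} (h : Lev k A U V₁ V₂) :
    (ZZ k A U V₁ V₂).Nonempty := by
  refine (fanSets_ne (k := k + 1) (A := lvA k A U) fun i hi => ?_).mono Finset.subset_union_left
  unfold lvA
  split_ifs with h3
  · exact h.ne i h3
  · exact h.neU

/-- The conclusion of Job TV. -/
def TVk (ε : ℝ) (R k : ℕ) (δ : ℝ) : Prop :=
  ∀ (A : ℕ → Finset ℕ) (U V₁ V₂ : Finset ℕ), Lev k A U V₁ V₂ → ∀ r : Finset ℕ → ℕ, r ∅ ≤ R →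
    (∀ i < k, StepOK r δ ((range i).biUnion A) (A i)) →
    StepOK r δ ((range k).biUnion A) U → StepOK r δ ((range k).biUnion A) V₁ →
    StepOK r δ ((range k).biUnion A ∪ V₁) V₂ →
    ∀ B : Set ℕ, |(((ZZ k A U V₁ V₂).filter fun Z => r Z ∈ B).card : ℝ) -
      (∑' n, B.indicator C2 n) * ((ZZ k A U V₁ V₂).card : ℝ)| ≤ ε * ((ZZ k A U V₁ V₂).card : ℝ)

/-- **The twists of one member.** -/
theorem good_dist (hLIN : S_LIN2) (hSIZE : S_SIZE) (hLOW : S_SLOW) (hUP : S_SUP) {ε δ : ℝ} {R k : ℕ}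
    (hδ : 0 < δ) (hTV : TVk ε R k δ) {p : ℤ × ℤ} (hF : InFamily p) {S A₀ : Finset ℕ} (hS : Typ p S)
    (hA₀ : A₀ ⊆ S) (hne : A₀.Nonempty) (hR : A₀.card ≤ R) (hb₀ : BalN p S ∅ A₀ (1 / 8))
    {A : ℕ → Finset ℕ} {U V₁ V₂ : Finset ℕ} (hlev : Lev k A U V₁ V₂) (hA : ∀ i < k, A i ⊆ S)
    (hU : U ⊆ S) (h1 : V₁ ⊆ S) (h2 : V₂ ⊆ S)
    (bA : ∀ i < k, ∀ Z ⊆ (range i).biUnion A, BalN p S Z (A i) δ)
    (bU : ∀ Z ⊆ (range k).biUnion A, BalN p S Z U δ)
    (b1 : ∀ Z ⊆ (range k).biUnion A, BalN p S Z V₁ δ)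
    (b2 : ∀ Z ⊆ (range k).biUnion A ∪ V₁, BalN p S Z V₂ δ) (B : Set ℕ) :
    |(((ZZ k A U V₁ V₂).filter fun Z =>
        ∃ n ∈ B, SelDim (twist p ((∏ Q ∈ Z, Q : ℕ) : ℤ)) n).card : ℝ) -
      (∑' n, B.indicator C2 n) * ((ZZ k A U V₁ V₂).card : ℝ)| ≤
        ε * ((ZZ k A U V₁ V₂).card : ℝ) := by
  obtain ⟨r, hr1, hr2, hr3⟩ := ranks hLIN hSIZE hLOW hUP hF hS hA₀ hne (by norm_num) hb₀
  have hWS : ∀ i ≤ k, (range i).biUnion A ⊆ S := by
    intro i hi q hq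
    obtain ⟨j, hj, hq⟩ := Finset.mem_biUnion.1 hq
    exact hA j ((Finset.mem_range.1 hj).trans_le hi) hq
  have hdisk : ∀ i ≤ k, ∀ L : Finset ℕ, (∀ j < i, Disjoint (A j) L) →
      ∀ Z ⊆ (range i).biUnion A, Disjoint Z L := by
    intro i hi L hL Z hZ
    refine Finset.disjoint_of_subset_left hZ ?_
    rw [Finset.disjoint_biUnion_left]
    exact fun j hj => hL j (Finset.mem_range.1 hj)
  have key := hTV A U V₁ V₂ hlev r (hr2.trans hR)
    (fun i hi Z hZ => hr3 Z (A i) (hZ.trans (hWS i hi.le)) (hA i hi)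
      (hdisk i hi.le (A i) (fun j hj => hlev.dis i hi j hj) Z hZ) δ hδ.le (bA i hi Z hZ))
    (fun Z hZ => hr3 Z U (hZ.trans (hWS k le_rfl)) hU
      (hdisk k le_rfl U (fun j hj => hlev.disU j hj) Z hZ) δ hδ.le (bU Z hZ))
    (fun Z hZ => hr3 Z V₁ (hZ.trans (hWS k le_rfl)) h1
      (hdisk k le_rfl V₁ (fun j hj => hlev.dis1 j hj) Z hZ) δ hδ.le (b1 Z hZ))
    (fun Z hZ => hr3 Z V₂ (hZ.trans (Finset.union_subset (hWS k le_rfl) h1)) h2
      (Finset.disjoint_of_subset_left hZ (Finset.disjoint_union_left.2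
        ⟨hdisk k le_rfl V₂ (fun j hj => hlev.dis2 j hj) _ subset_rfl, hlev.dis12⟩)) δ hδ.le (b2 Z hZ)) B
  have e : ((ZZ k A U V₁ V₂).filter fun Z =>
        ∃ n ∈ B, SelDim (twist p ((∏ Q ∈ Z, Q : ℕ) : ℤ)) n) =
      (ZZ k A U V₁ V₂).filter fun Z => r Z ∈ B := by
    refine Finset.filter_congr fun Z hZ => ?_
    exact selDim_iff (hr1 Z (sub_ZZ hA hU h1 h2 hZ)) B
  rw [e]
  exact key

/-- The mass of a set is between `0` and `1`. -/
theorem mass_mem (hC2 : S_C2) (B : Set ℕ) :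
    0 ≤ ∑' n, B.indicator C2 n ∧ ∑' n, B.indicator C2 n ≤ 1 := by
  have hs : Summable C2 := hC2.2.summable
  constructor
  · exact tsum_nonneg fun n => Set.indicator_nonneg (fun m _ => (hC2.1 m).le) n
  · rw [← hC2.2.tsum_eq]
    exact Summable.tsum_le_tsum (fun n => Set.indicator_le_self' (fun m _ => (hC2.1 m).le) n)
      (hs.indicator B) hs

/-- Double counting. -/
theorem dcount {α β : Type*} (F : Finset α) (𝒵 : Finset β) (Rl : β → α → Prop) :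
    ∑ Z ∈ 𝒵, ((F.filter fun q => Rl Z q).card : ℝ) = ∑ q ∈ F, ((𝒵.filter fun Z => Rl Z q).card : ℝ) := by
  simp only [Finset.card_filter, Nat.cast_sum]
  exact Finset.sum_comm

/-- **Averaging.** `F` is a finite set, `F₀` a small part of it, and outside of `F₀` the relation `Rl` holds
for about the proportion `c` of `𝒵`. -/
theorem average {α β : Type*} (F F₀ : Finset α) (𝒵 : Finset β) (Rl : β → α → Prop)
    {c ε ε' : ℝ} (hc : 0 ≤ c) (hc1 : c ≤ 1) (hε : 0 ≤ ε) (hF₀ : F₀ ⊆ F)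
    (hsm : (F₀.card : ℝ) ≤ ε' * F.card)
    (h : ∀ q ∈ F, q ∉ F₀ → |((𝒵.filter fun Z => Rl Z q).card : ℝ) - c * 𝒵.card| ≤ ε * 𝒵.card) :
    |∑ Z ∈ 𝒵, ((F.filter fun q => Rl Z q).card : ℝ) - c * (𝒵.card * F.card)| ≤
      (ε + ε') * (𝒵.card * F.card) := by
  rw [dcount]
  have e : c * ((𝒵.card : ℝ) * F.card) = ∑ _q ∈ F, c * (𝒵.card : ℝ) := by
    rw [Finset.sum_const, nsmul_eq_mul]
    ring
  rw [e, ← Finset.sum_sub_distrib]
  refine (Finset.abs_sum_le_sum_abs _ _).trans ?_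
  rw [← Finset.sum_sdiff hF₀]
  have h1 : ∑ q ∈ F \ F₀, |((𝒵.filter fun Z => Rl Z q).card : ℝ) - c * 𝒵.card| ≤
      ε * (𝒵.card * F.card) := by
    calc ∑ q ∈ F \ F₀, |((𝒵.filter fun Z => Rl Z q).card : ℝ) - c * 𝒵.card|
        ≤ ∑ _q ∈ F \ F₀, ε * 𝒵.card := Finset.sum_le_sum fun q hq =>
          h q (Finset.mem_sdiff.1 hq).1 (Finset.mem_sdiff.1 hq).2
      _ = (F \ F₀).card * (ε * 𝒵.card) := by rw [Finset.sum_const, nsmul_eq_mul]
      _ ≤ F.card * (ε * 𝒵.card) := by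
          refine mul_le_mul_of_nonneg_right ?_ (by positivity)
          exact_mod_cast Finset.card_le_card Finset.sdiff_subset
      _ = _ := by ring
  have h2 : ∑ q ∈ F₀, |((𝒵.filter fun Z => Rl Z q).card : ℝ) - c * 𝒵.card| ≤
      ε' * (𝒵.card * F.card) := by
    calc ∑ q ∈ F₀, |((𝒵.filter fun Z => Rl Z q).card : ℝ) - c * 𝒵.card|
        ≤ ∑ _q ∈ F₀, (𝒵.card : ℝ) := by
          refine Finset.sum_le_sum fun q _ => ?_
          have h3 : ((𝒵.filter fun Z => Rl Z q).card : ℝ) ≤ 𝒵.card := by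
            exact_mod_cast Finset.card_filter_le _ _
          have h4 : (0 : ℝ) ≤ ((𝒵.filter fun Z => Rl Z q).card : ℝ) := Nat.cast_nonneg _
          have h5 : c * (𝒵.card : ℝ) ≤ 𝒵.card := mul_le_of_le_one_left (Nat.cast_nonneg _) hc1
          have h6 : 0 ≤ c * (𝒵.card : ℝ) := by positivity
          rw [abs_le]
          constructor <;> linarith
      _ = F₀.card * 𝒵.card := by rw [Finset.sum_const, nsmul_eq_mul]
      _ ≤ (ε' * F.card) * 𝒵.card := mul_le_mul_of_nonneg_right hsm (Nat.cast_nonneg _)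
      _ = _ := by ring
  calc _ ≤ ε * (𝒵.card * F.card) + ε' * (𝒵.card * F.card) := add_le_add h1 h2
    _ = _ := by ring

end Pool.Agent.Helper29L
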