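import Pool.Agent.Helper29L.Thm1

/-!
# The family
-/

set_option autoImplicit false
set_option linter.all false

open IsDedekindDomain NumberField Finset Filter
open scoped Classical

namespace Pool.Agent.Helper29L

open Pool.Agent.H30EV (curve twist)
open Pool.Agent.H30GR (Sel2)
open Pool.Agent.Helper29K (InFamily SE Pr8 zS Bx NR mem_zS card_zS prod_zS mem_Bx nr_congr goodS_of)

/-- The finite set of the members of height at most `T`. -/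
noncomputable def FF (S : Finset ℕ) (s : ℕ → ℤ) (T : ℕ) : Finset (ℤ × ℤ) :=
  ((fin_hgt T).subset (fun _ h => h.2 : {p : ℤ × ℤ | FamS S s p ∧ hgt p ≤ T} ⊆ {p | hgt p ≤ T})).toFinset

theorem mem_FF {S : Finset ℕ} {s : ℕ → ℤ} {T : ℕ} {p : ℤ × ℤ} :
    p ∈ FF S s T ↔ FamS S s p ∧ hgt p ≤ T := by
  unfold FF
  rw [Set.Finite.mem_toFinset]
  exact Iff.rfl

theorem card_FF (S : Finset ℕ) (s : ℕ → ℤ) (T : ℕ) : (FF S s T).card = NS S s T := by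
  unfold NS
  rw [← Set.ncard_coe_finset]
  congr 1
  ext p
  exact mem_FF

theorem card_FF_filter (S : Finset ℕ) (s : ℕ → ℤ) (T : ℕ) (Pp : ℤ × ℤ → Prop) :
    {q : ℤ × ℤ | FamS S s q ∧ hgt q ≤ T ∧ Pp q}.ncard = ((FF S s T).filter Pp).card := by
  rw [← Set.ncard_coe_finset]
  congr 1
  ext p
  rw [Finset.mem_coe, Finset.mem_filter, mem_FF, and_assoc]
  exact Iff.rfl

theorem FF_mono (S : Finset ℕ) (s : ℕ → ℤ) {T T' : ℕ} (h : T' ≤ T) : FF S s T' ⊆ FF S s T := by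
  intro p hp
  rw [mem_FF] at hp ⊢
  exact ⟨hp.1, hp.2.trans h⟩

/-- Comparison of two heights. -/
theorem cmp_FF (S : Finset ℕ) (s : ℕ → ℤ) {T T' : ℕ} (h : T' ≤ T) (Pp : ℤ × ℤ → Prop) :
    ((((FF S s T').filter Pp).card : ℕ) : ℝ) ≤ (((FF S s T).filter Pp).card : ℝ) ∧
    (((FF S s T).filter Pp).card : ℝ) ≤ (((FF S s T').filter Pp).card : ℝ) +
      ((NS S s T : ℝ) - (NS S s T' : ℝ)) := by
  have hsub := FF_mono S s h
  constructor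
  · exact_mod_cast Finset.card_le_card (Finset.filter_subset_filter _ hsub)
  · rw [← card_FF, ← card_FF]
    have h1 : ((FF S s T).filter Pp) ⊆ ((FF S s T').filter Pp) ∪ (FF S s T \ FF S s T') := by
      intro q hq
      obtain ⟨h2, h3⟩ := Finset.mem_filter.1 hq
      by_cases h4 : q ∈ FF S s T'
      · exact Finset.mem_union_left _ (Finset.mem_filter.2 ⟨h4, h3⟩)
      · exact Finset.mem_union_right _ (Finset.mem_sdiff.2 ⟨h2, h4⟩)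
    have h2 := (Finset.card_le_card h1).trans (Finset.card_union_le _ _)
    have h3 : (FF S s T \ FF S s T').card + (FF S s T').card = (FF S s T).card :=
      Finset.card_sdiff_add_card_eq_card hsub
    have h4 : ((FF S s T \ FF S s T').card : ℝ) + ((FF S s T').card : ℝ) = ((FF S s T).card : ℝ) := by
      exact_mod_cast h3
    have h5 : (((FF S s T).filter Pp).card : ℝ) ≤ (((FF S s T').filter Pp).card : ℝ) +
        ((FF S s T \ FF S s T').card : ℝ) := by exact_mod_cast h2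
    linarith

/-- Residues. -/
theorem exists_res {Q : ℕ} (hQ : Q.Prime) (h8 : Q % 8 = 1) : ∃ x : ℤ, NR Q x := by
  haveI : Fact Q.Prime := ⟨hQ⟩
  have hc : ringChar (ZMod Q) ≠ 2 := by
    rw [ZMod.ringChar_zmod_n]
    omega
  obtain ⟨u, hu⟩ := FiniteField.exists_nonsquare hc
  refine ⟨-(u.val : ℤ), fun z hz => hu ?_⟩
  have h1 : (((z ^ 2 + -(u.val : ℤ) : ℤ)) : ZMod Q) = 0 := (ZMod.intCast_zmod_eq_zero_iff_dvd _ _).2 hz
  push_cast at h1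
  rw [ZMod.natCast_zmod_val] at h1
  exact ⟨z, by linear_combination -h1⟩

theorem exists_goodRes {S : Finset ℕ} (h8 : Pr8 S) : ∃ s : ℕ → ℤ, GoodRes S s := by
  refine ⟨fun Q => if h : Q.Prime ∧ Q % 8 = 1 then (exists_res h.1 h.2).choose else 0, h8,
    fun Q hQ => ?_⟩
  have h := h8 Q hQ
  show NR Q (if h : Q.Prime ∧ Q % 8 = 1 then (exists_res h.1 h.2).choose else 0)
  rw [dif_pos h]
  exact (exists_res h.1 h.2).choose_spec

/-- The comparison of the heights `T / D ^ 6` and `T / d ^ 6`. -/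
theorem shell_d {C : ℝ} {S : Finset ℕ} {s : ℕ → ℤ} {η : ℝ} (hη : 0 < η)
    (hSH : ∀ᶠ T : ℕ in atTop, ∀ T' : ℕ, T' ≤ T → (T : ℝ) ≤ (1 + 2 * η) ^ 6 * (T' : ℝ) + 1 →
    ((NS S s T : ℝ) - (NS S s T' : ℝ)) ≤ C * (2 * η) * (NS S s T : ℝ)) {D d : ℕ} (hD : 1 ≤ D)
    (hd : D ≤ d) (hd' : (d : ℝ) ≤ (1 + η) * D) : ∀ᶠ T : ℕ in atTop,
    T / d ^ 6 ≤ T / D ^ 6 ∧
    (NS S s (T / D ^ 6) : ℝ) - (NS S s (T / d ^ 6) : ℝ) ≤ C * (2 * η) * (NS S s (T / D ^ 6) : ℝ) := by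
  have hD6 : 0 < D ^ 6 := pow_pos hD 6
  have hd6 : 0 < d ^ 6 := pow_pos (hD.trans hd) 6
  have ht1 : Tendsto (fun T : ℕ => T / D ^ 6) atTop atTop := Nat.tendsto_div_const_atTop hD6.ne'
  have ht2 : Tendsto (fun T : ℕ => T / d ^ 6) atTop atTop := Nat.tendsto_div_const_atTop hd6.ne'
  obtain ⟨N, hN⟩ := exists_nat_ge ((1 + η) ^ 6 / η)
  filter_upwards [ht1.eventually hSH, ht2.eventually (eventually_ge_atTop N)] with T h1 h2
  have hle : T / d ^ 6 ≤ T / D ^ 6 := Nat.div_le_div_left (Nat.pow_le_pow_left hd 6) hD6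
  refine ⟨hle, h1 _ hle ?_⟩
  have hDr : (0 : ℝ) < (D : ℝ) ^ 6 := by exact_mod_cast hD6
  have hdr : (0 : ℝ) < (d : ℝ) ^ 6 := by exact_mod_cast hd6
  have e1 : ((T / D ^ 6 : ℕ) : ℝ) ≤ (T : ℝ) / (D : ℝ) ^ 6 := by
    have := Nat.cast_div_le (m := T) (n := D ^ 6) (α := ℝ)
    push_cast at this
    exact this
  have e2 : (T : ℝ) / (d : ℝ) ^ 6 ≤ ((T / d ^ 6 : ℕ) : ℝ) + 1 := by
    have h3 : T < (T / d ^ 6 + 1) * d ^ 6 := by
      have := Nat.div_add_mod T (d ^ 6)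
      have h4 := Nat.mod_lt T hd6
      nlinarith
    rw [div_le_iff₀ hdr]
    exact_mod_cast h3.le
  have e3 : (T : ℝ) / (D : ℝ) ^ 6 ≤ (1 + η) ^ 6 * ((T : ℝ) / (d : ℝ) ^ 6) := by
    have h3 : (d : ℝ) ^ 6 ≤ (1 + η) ^ 6 * (D : ℝ) ^ 6 := by
      rw [← mul_pow]
      exact pow_le_pow_left₀ (Nat.cast_nonneg _) hd' 6
    rw [← mul_div_assoc, div_le_div_iff₀ hDr hdr]
    calc (T : ℝ) * (d : ℝ) ^ 6 ≤ (T : ℝ) * ((1 + η) ^ 6 * (D : ℝ) ^ 6) :=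
          mul_le_mul_of_nonneg_left h3 (Nat.cast_nonneg _)
      _ = _ := by ring
  have e4 : (1 + η) ^ 6 / η ≤ ((T / d ^ 6 : ℕ) : ℝ) := hN.trans (by exact_mod_cast h2)
  rw [div_le_iff₀ hη] at e4
  obtain ⟨t, ht⟩ : ∃ t : ℝ, t = ((T / d ^ 6 : ℕ) : ℝ) := ⟨_, rfl⟩
  rw [← ht] at e2 e4 ⊢
  have ht0 : 0 ≤ t := by rw [ht]; exact Nat.cast_nonneg _
  have e5 : (1 + η) ^ 6 + η ≤ (1 + 2 * η) ^ 6 := by
    have e : (1 + 2 * η) ^ 6 - ((1 + η) ^ 6 + η) = 5 * η + 45 * η ^ 2 + 140 * η ^ 3 + 225 * η ^ 4 +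
      186 * η ^ 5 + 63 * η ^ 6 := by ring
    have : 0 ≤ (1 + 2 * η) ^ 6 - ((1 + η) ^ 6 + η) := by
      rw [e]
      positivity
    linarith
  calc ((T / D ^ 6 : ℕ) : ℝ) ≤ (1 + η) ^ 6 * ((T : ℝ) / (d : ℝ) ^ 6) := e1.trans e3
    _ ≤ (1 + η) ^ 6 * (t + 1) := mul_le_mul_of_nonneg_left e2 (by positivity)
    _ = (1 + η) ^ 6 * t + (1 + η) ^ 6 := by ring
    _ ≤ (1 + η) ^ 6 * t + t * η := by linarith
    _ = ((1 + η) ^ 6 + η) * t := by ring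
    _ ≤ (1 + 2 * η) ^ 6 * t := mul_le_mul_of_nonneg_right e5 ht0
    _ ≤ (1 + 2 * η) ^ 6 * t + 1 := by linarith

end Pool.Agent.Helper29L
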