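import Pool.Agent.Helper29L.Thm2

/-!
# The distribution over the family
-/

set_option autoImplicit false
set_option linter.all false

open IsDedekindDomain NumberField Finset Filter
open scoped Classical

namespace Pool.Agent.Helper29L

open Pool.Agent.H30EV (curve twist)
open Pool.Agent.H30GR (Sel2)
open Pool.Agent.Helper29K (InFamily SE Pr8 zS Bx NR mem_zS card_zS prod_zS mem_Bx nr_congr goodS_of)

theorem exists_N₀ {K ε : ℝ} (hK : 0 < K) (hε : 0 < ε) :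
    ∃ N : ℕ, 1 ≤ N ∧ ∀ n : ℕ, N ≤ n → K * Real.exp (-((1 / 8 : ℝ) ^ 2 / 2) * n) ≤ ε := by
  have h1 : Tendsto (fun n : ℕ => K * Real.exp (-((1 / 8 : ℝ) ^ 2 / 2) * n)) atTop (nhds (K * 0)) := by
    refine Tendsto.const_mul K (Real.tendsto_exp_atBot.comp ?_)
    have : Tendsto (fun n : ℕ => ((1 / 8 : ℝ) ^ 2 / 2) * (n : ℝ)) atTop atTop :=
      tendsto_natCast_atTop_atTop.const_mul_atTop (by norm_num)
    have h2 := tendsto_neg_atTop_atBot.comp this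
    refine h2.congr fun n => ?_
    show -(((1 / 8 : ℝ) ^ 2 / 2) * (n : ℝ)) = _
    ring
  rw [mul_zero] at h1
  obtain ⟨N, hN⟩ := eventually_atTop.1 (h1.eventually (ge_mem_nhds hε))
  exact ⟨max N 1, le_max_right _ _, fun n hn => hN n ((le_max_left _ _).trans hn)⟩

/-- The members of the family for which one of the levels is unbalanced. -/
def BadQ (S : Finset ℕ) (s : ℕ → ℤ) (𝒬₀ : Finset ℕ) (k : ℕ) (A : ℕ → Finset ℕ) (U V₁ V₂ : Finset ℕ)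
    (δ : ℝ) (q : ℤ × ℤ) : Prop :=
  q ∈ UnbS S s ∅ 𝒬₀ (1 / 8) ∨ (∃ i ∈ range k, q ∈ UnbS S s ((range i).biUnion A) (A i) δ) ∨
  q ∈ UnbS S s ((range k).biUnion A) U δ ∨ q ∈ UnbS S s ((range k).biUnion A) V₁ δ ∨
  q ∈ UnbS S s ((range k).biUnion A ∪ V₁) V₂ δ

theorem unb_FF {S : Finset ℕ} {s : ℕ → ℤ} {W L : Finset ℕ} {δ : ℝ} (T : ℕ) :
    {q : ℤ × ℤ | q ∈ UnbS S s W L δ ∧ hgt q ≤ T}.ncard =
      ((FF S s T).filter fun q => q ∈ UnbS S s W L δ).card := by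
  rw [← Set.ncard_coe_finset]
  congr 1
  ext p
  rw [Finset.mem_coe, Finset.mem_filter, mem_FF]
  constructor
  · rintro ⟨h1, h2⟩
    exact ⟨⟨h1.1, h2⟩, h1⟩
  · rintro ⟨⟨h1, h2⟩, h3⟩
    exact ⟨h3, h2⟩

theorem few_bad {S : Finset ℕ} {s : ℕ → ℤ} {𝒬₀ : Finset ℕ} {k : ℕ} {A : ℕ → Finset ℕ}
    {U V₁ V₂ : Finset ℕ} {δ ε₁ ε₂ : ℝ} {T : ℕ} (hε₂ : ε₂ * (k + 3) ≤ ε₁)
    (h0 : ({q : ℤ × ℤ | q ∈ UnbS S s ∅ 𝒬₀ (1 / 8) ∧ hgt q ≤ T}.ncard : ℝ) ≤ ε₁ * NS S s T)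
    (hA : ∀ i ∈ range k, ({q : ℤ × ℤ | q ∈ UnbS S s ((range i).biUnion A) (A i) δ ∧
      hgt q ≤ T}.ncard : ℝ) ≤ ε₂ * NS S s T)
    (hU : ({q : ℤ × ℤ | q ∈ UnbS S s ((range k).biUnion A) U δ ∧ hgt q ≤ T}.ncard : ℝ) ≤
      ε₂ * NS S s T)
    (h1 : ({q : ℤ × ℤ | q ∈ UnbS S s ((range k).biUnion A) V₁ δ ∧ hgt q ≤ T}.ncard : ℝ) ≤
      ε₂ * NS S s T)
    (h2 : ({q : ℤ × ℤ | q ∈ UnbS S s ((range k).biUnion A ∪ V₁) V₂ δ ∧ hgt q ≤ T}.ncard : ℝ) ≤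
      ε₂ * NS S s T) :
    (((FF S s T).filter (BadQ S s 𝒬₀ k A U V₁ V₂ δ)).card : ℝ) ≤
      (2 * ε₁) * ((FF S s T).card : ℝ) := by
  rw [unb_FF] at h0 hU h1 h2
  have hsub : (FF S s T).filter (BadQ S s 𝒬₀ k A U V₁ V₂ δ) ⊆
      ((FF S s T).filter fun q => q ∈ UnbS S s ∅ 𝒬₀ (1 / 8)) ∪
      (((range k).biUnion fun i => (FF S s T).filter fun q =>
        q ∈ UnbS S s ((range i).biUnion A) (A i) δ) ∪
      (((FF S s T).filter fun q => q ∈ UnbS S s ((range k).biUnion A) U δ) ∪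
      (((FF S s T).filter fun q => q ∈ UnbS S s ((range k).biUnion A) V₁ δ) ∪
      ((FF S s T).filter fun q => q ∈ UnbS S s ((range k).biUnion A ∪ V₁) V₂ δ)))) := by
    intro q hq
    obtain ⟨hqF, hb⟩ := Finset.mem_filter.1 hq
    simp only [Finset.mem_union, Finset.mem_biUnion, Finset.mem_filter]
    rcases hb with h | ⟨i, hi, h⟩ | h | h | h
    · exact Or.inl ⟨hqF, h⟩
    · exact Or.inr (Or.inl ⟨i, hi, hqF, h⟩)
    · exact Or.inr (Or.inr (Or.inl ⟨hqF, h⟩))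
    · exact Or.inr (Or.inr (Or.inr (Or.inl ⟨hqF, h⟩)))
    · exact Or.inr (Or.inr (Or.inr (Or.inr ⟨hqF, h⟩)))
  have hc := (Finset.card_le_card hsub).trans ((Finset.card_union_le _ _).trans
    (Nat.add_le_add_left ((Finset.card_union_le _ _).trans
    (Nat.add_le_add Finset.card_biUnion_le ((Finset.card_union_le _ _).trans
    (Nat.add_le_add_left (Finset.card_union_le _ _) _)))) _))
  have hc' : (((FF S s T).filter (BadQ S s 𝒬₀ k A U V₁ V₂ δ)).card : ℝ) ≤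
      (((FF S s T).filter fun q => q ∈ UnbS S s ∅ 𝒬₀ (1 / 8)).card : ℝ) +
      (∑ i ∈ range k, (((FF S s T).filter fun q =>
        q ∈ UnbS S s ((range i).biUnion A) (A i) δ).card : ℝ) +
      ((((FF S s T).filter fun q => q ∈ UnbS S s ((range k).biUnion A) U δ).card : ℝ) +
      ((((FF S s T).filter fun q => q ∈ UnbS S s ((range k).biUnion A) V₁ δ).card : ℝ) +
      (((FF S s T).filter fun q => q ∈ UnbS S s ((range k).biUnion A ∪ V₁) V₂ δ).card : ℝ)))) := by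
    exact_mod_cast hc
  have hs : ∑ i ∈ range k, (((FF S s T).filter fun q =>
        q ∈ UnbS S s ((range i).biUnion A) (A i) δ).card : ℝ) ≤ k * (ε₂ * NS S s T) := by
    calc _ ≤ ∑ _i ∈ range k, ε₂ * (NS S s T : ℝ) := Finset.sum_le_sum fun i hi => by
            have := hA i hi
            rwa [unb_FF] at this
      _ = _ := by rw [Finset.sum_const, nsmul_eq_mul, Finset.card_range]
  rw [card_FF]
  have hN : (0 : ℝ) ≤ (NS S s T : ℝ) := Nat.cast_nonneg _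
  nlinarith [mul_le_mul_of_nonneg_right hε₂ hN]

/-- **The distribution over the family of twists.** -/
theorem main1 (hPB : S_PBAD) (hLIN : S_LIN2) (hSIZE : S_SIZE) (hLOW : S_SLOW) (hUP : S_SUP)
    (hC2 : S_C2) (hTV : S_TV) (hLEV : S_LEV) (hWIN : S_WIN) (hLB : S_LOWB) (hSH : S_SHELL)
    (hTW : S_TW1) {ε : ℝ} (hε : 0 < ε) :
    ∃ (S : Finset ℕ) (s : ℕ → ℤ) (𝒵 : Finset (Finset ℕ)), GoodRes S s ∧ (∀ Z ∈ 𝒵, Z ⊆ S) ∧
      𝒵.Nonempty ∧ ∀ᶠ T : ℕ in atTop, ∀ B : Set ℕ,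
      |({P : ℤ × ℤ | P ∈ Gam S s 𝒵 ∧ hgt P ≤ T ∧ ∃ n ∈ B, SelDim P n}.ncard : ℝ) -
        (∑' n, B.indicator C2 n) * ({P : ℤ × ℤ | P ∈ Gam S s 𝒵 ∧ hgt P ≤ T ∧ True}.ncard : ℝ)| ≤
      ε * ({P : ℤ × ℤ | P ∈ Gam S s 𝒵 ∧ hgt P ≤ T ∧ True}.ncard : ℝ) := by
  obtain ⟨κ, hκ⟩ := exists_κ
  obtain ⟨K, hK, hunb⟩ := unb_height hκ hPB hLB
  obtain ⟨C, hC, hSH⟩ := hSH
  obtain ⟨ε₁, hε₁, hε₁1, hε₁2⟩ : ∃ ε₁ : ℝ, 0 < ε₁ ∧ ε₁ ≤ 1 / 2 ∧ 10 * ε₁ ≤ ε :=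
    ⟨min (1 / 2) (ε / 10), by positivity, min_le_left _ _, by
      have := min_le_right (1 / 2) (ε / 10)
      linarith⟩
  -- the first level
  obtain ⟨N₀, hN₀, hN₀'⟩ := exists_N₀ hK hε₁
  obtain ⟨Y₀, hY₀⟩ := hWIN N₀ 1 one_pos
  obtain ⟨𝒬₀, h𝒬₀⟩ : ∃ 𝒬₀ : Finset ℕ, 𝒬₀ = ((Ioc Y₀ ⌊(1 + 1) * (Y₀ : ℝ)⌋₊).filter fun Q =>
    Q.Prime ∧ Q % 8 = 1) := ⟨_, rfl⟩
  have hcard₀ : N₀ ≤ 𝒬₀.card := by rw [h𝒬₀]; exact hY₀ Y₀ le_rfl
  have hpr₀ : Pr8 𝒬₀ := by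
    intro Q hQ
    rw [h𝒬₀] at hQ
    exact (Finset.mem_filter.1 hQ).2
  have hne₀ : 𝒬₀.Nonempty := Finset.card_pos.1 (hN₀.trans hcard₀)
  -- the number of levels
  obtain ⟨k, δ, hδ, hδ1, hTVk⟩ := hTV ε₁ hε₁ 𝒬₀.card
  -- the windows
  obtain ⟨η, hη, hη1, hη2⟩ : ∃ η : ℝ, 0 < η ∧ 2 * η ≤ 1 ∧ C * (2 * η) ≤ ε₁ :=
    ⟨min (1 / 2) (ε₁ / (2 * C)), by positivity, by
      have := min_le_left (1 / 2) (ε₁ / (2 * C))
      linarith, by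
      have h1 := min_le_right (1 / 2) (ε₁ / (2 * C))
      have h2 : C * (2 * min (1 / 2) (ε₁ / (2 * C))) ≤ C * (2 * (ε₁ / (2 * C))) := by gcongr
      refine h2.trans (le_of_eq ?_)
      field_simp⟩
  obtain ⟨ε₂, hε₂, hε₂'⟩ : ∃ ε₂ : ℝ, 0 < ε₂ ∧ ε₂ * (k + 3) ≤ ε₁ :=
    ⟨ε₁ / (k + 3), by positivity, by
      rw [div_mul_cancel₀]
      positivity⟩
  -- the levels
  obtain ⟨A, U, V₁, V₂, hlev, pA, pU, p1, p2, dA, dU, d1, d2, sA, sU, s1, s2, D₀, hD₀, hwin⟩ :=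
    hLEV K ε₂ δ η k 𝒬₀ hK hε₂ hδ hη
  obtain ⟨S, hSdef⟩ : ∃ S : Finset ℕ, S = 𝒬₀ ∪ ((range k).biUnion A ∪ (U ∪ (V₁ ∪ V₂))) := ⟨_, rfl⟩
  have h𝒬S : 𝒬₀ ⊆ S := by rw [hSdef]; exact Finset.subset_union_left
  have hWS : (range k).biUnion A ⊆ S := by
    rw [hSdef]
    exact Finset.subset_union_left.trans Finset.subset_union_right
  have hAS : ∀ i < k, A i ⊆ S := fun i hi =>
    (Finset.subset_biUnion_of_mem A (Finset.mem_range.2 hi)).trans hWS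
  have hUS : U ⊆ S := by
    rw [hSdef]
    exact (Finset.subset_union_left.trans Finset.subset_union_right).trans Finset.subset_union_right
  have h1S : V₁ ⊆ S := by
    rw [hSdef]
    exact ((Finset.subset_union_left.trans Finset.subset_union_right).trans
      Finset.subset_union_right).trans Finset.subset_union_right
  have h2S : V₂ ⊆ S := by
    rw [hSdef]
    exact ((Finset.subset_union_right.trans Finset.subset_union_right).trans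
      Finset.subset_union_right).trans Finset.subset_union_right
  have hS8 : Pr8 S := by
    intro Q hQ
    rw [hSdef] at hQ
    simp only [Finset.mem_union, Finset.mem_biUnion, Finset.mem_range] at hQ
    rcases hQ with h | ⟨i, hi, h⟩ | h | h | h
    · exact hpr₀ Q h
    · exact pA i hi Q h
    · exact pU Q h
    · exact p1 Q h
    · exact p2 Q h
  obtain ⟨s, hs⟩ := exists_goodRes hS8
  have hZS : ∀ Z ∈ ZZ k A U V₁ V₂, Z ⊆ S := fun Z hZ => sub_ZZ hAS hUS h1S h2S hZ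
  refine ⟨S, s, ZZ k A U V₁ V₂, hs, hZS, ZZ_ne hlev, ?_⟩
  have hWi : ∀ i ≤ k, (range i).biUnion A ⊆ S := fun i hi =>
    (Finset.biUnion_subset_biUnion_of_subset_left A (Finset.range_mono hi)).trans hWS
  have hWd : ∀ i ≤ k, ∀ L : Finset ℕ, (∀ j < i, Disjoint (A j) L) →
      Disjoint ((range i).biUnion A) L := by
    intro i hi L hL
    rw [Finset.disjoint_biUnion_left]
    exact fun j hj => hL j (Finset.mem_range.1 hj)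
  -- few bad members
  have hbad0 : ∀ᶠ T : ℕ in atTop,
      ({q : ℤ × ℤ | q ∈ UnbS S s ∅ 𝒬₀ (1 / 8) ∧ hgt q ≤ T}.ncard : ℝ) ≤ ε₁ * NS S s T := by
    filter_upwards [hunb S s hs ∅ 𝒬₀ (Finset.empty_subset _) h𝒬S (Finset.disjoint_empty_left _)
      (1 / 8) (by norm_num) (by norm_num)] with T hT
    refine hT.trans (mul_le_mul_of_nonneg_right ?_ (Nat.cast_nonneg _))
    have h3 := hN₀' 𝒬₀.card hcard₀
    simpa using h3
  have hsml : ∀ W L : Finset ℕ, W ⊆ S → L ⊆ S → Disjoint W L → Sml K ε₂ δ W L →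
      ∀ᶠ T : ℕ in atTop,
      ({q : ℤ × ℤ | q ∈ UnbS S s W L δ ∧ hgt q ≤ T}.ncard : ℝ) ≤ ε₂ * NS S s T := by
    intro W L hW hL hd hs'
    filter_upwards [hunb S s hs W L hW hL hd δ hδ hδ1] with T hT
    exact hT.trans (mul_le_mul_of_nonneg_right hs' (Nat.cast_nonneg _))
  have hbadA : ∀ᶠ T : ℕ in atTop, ∀ i ∈ range k,
      ({q : ℤ × ℤ | q ∈ UnbS S s ((range i).biUnion A) (A i) δ ∧ hgt q ≤ T}.ncard : ℝ) ≤
        ε₂ * NS S s T := by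
    rw [Filter.eventually_all_finset]
    intro i hi
    have hi' := Finset.mem_range.1 hi
    exact hsml _ _ (hWi i hi'.le) (hAS i hi') (hWd i hi'.le _ fun j hj => hlev.dis i hi' j hj)
      (sA i hi')
  have hbadU := hsml _ _ hWS hUS (hWd k le_rfl _ hlev.disU) sU
  have hbad1 := hsml _ _ hWS h1S (hWd k le_rfl _ hlev.dis1) s1
  have hbad2 := hsml _ _ (Finset.union_subset hWS h1S) h2S (Finset.disjoint_union_left.2
    ⟨hWd k le_rfl _ hlev.dis2, hlev.dis12⟩) s2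
  have htd : Tendsto (fun T : ℕ => T / D₀ ^ 6) atTop atTop :=
    Nat.tendsto_div_const_atTop (pow_pos hD₀ 6).ne'
  have hshell : ∀ᶠ T : ℕ in atTop, ∀ Z ∈ ZZ k A U V₁ V₂,
      T / (∏ Q ∈ Z, Q) ^ 6 ≤ T / D₀ ^ 6 ∧
      (NS S s (T / D₀ ^ 6) : ℝ) - (NS S s (T / (∏ Q ∈ Z, Q) ^ 6) : ℝ) ≤
        C * (2 * η) * (NS S s (T / D₀ ^ 6) : ℝ) := by
    rw [Filter.eventually_all_finset]
    intro Z hZ
    exact shell_d hη (hSH S s hs (2 * η) (by positivity) hη1) hD₀ (hwin Z hZ).1 (hwin Z hZ).2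
  filter_upwards [hshell, htd.eventually hbad0, htd.eventually hbadA, htd.eventually hbadU,
    htd.eventually hbad1, htd.eventually hbad2] with T hT0 hT1 hT2 hT3 hT4 hT5
  intro B
  obtain ⟨T', hT'⟩ : ∃ T' : ℕ, T' = T / D₀ ^ 6 := ⟨_, rfl⟩
  rw [← hT'] at hT0 hT1 hT2 hT3 hT4 hT5
  obtain ⟨𝒵, h𝒵⟩ : ∃ 𝒵 : Finset (Finset ℕ), 𝒵 = ZZ k A U V₁ V₂ := ⟨_, rfl⟩
  rw [← h𝒵] at hT0 hZS ⊢
  obtain ⟨c, hc⟩ : ∃ c : ℝ, c = ∑' n, B.indicator C2 n := ⟨_, rfl⟩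
  obtain ⟨hc0, hc1⟩ := mass_mem hC2 B
  rw [← hc] at hc0 hc1 ⊢
  -- good members
  have hgood : ∀ q ∈ FF S s T', q ∉ (FF S s T').filter (BadQ S s 𝒬₀ k A U V₁ V₂ δ) →
      |((𝒵.filter fun Z => ∃ n ∈ B, SelDim (twist q ((∏ Q ∈ Z, Q : ℕ) : ℤ)) n).card : ℝ) -
        c * 𝒵.card| ≤ ε₁ * 𝒵.card := by
    intro q hq hnb
    have hqF := (mem_FF.1 hq).1
    have hb : ¬ BadQ S s 𝒬₀ k A U V₁ V₂ δ q := fun h => hnb (Finset.mem_filter.2 ⟨hq, h⟩)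
    unfold BadQ at hb
    push Not at hb
    obtain ⟨b0, bA, bU, b1, b2⟩ := hb
    have tr : ∀ W L : Finset ℕ, ∀ δ' : ℝ, q ∉ UnbS S s W L δ' → ∀ Z ⊆ W, BalN q S Z L δ' := by
      intro W L δ' h Z hZ
      by_contra hcon
      exact h ⟨hqF, Z, hZ, hcon⟩
    rw [h𝒵, hc]
    exact good_dist hLIN hSIZE hLOW hUP hδ hTVk hqF.fam (hqF.typ hs) h𝒬S hne₀ le_rfl
      (tr _ _ _ b0 ∅ subset_rfl) hlev hAS hUS h1S h2S
      (fun i hi => tr _ _ _ (bA i (Finset.mem_range.2 hi))) (tr _ _ _ bU) (tr _ _ _ b1)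
      (tr _ _ _ b2) B
  have hfb := few_bad hε₂' hT1 hT2 hT3 hT4 hT5
  have hav := average (FF S s T') ((FF S s T').filter (BadQ S s 𝒬₀ k A U V₁ V₂ δ)) 𝒵
    (fun Z q => ∃ n ∈ B, SelDim (twist q ((∏ Q ∈ Z, Q : ℕ) : ℤ)) n) hc0 hc1 hε₁.le
    (Finset.filter_subset _ _) hfb hgood
  -- the numbers of the twists
  have e1 : ({P : ℤ × ℤ | P ∈ Gam S s 𝒵 ∧ hgt P ≤ T ∧ ∃ n ∈ B, SelDim P n}.ncard : ℝ) =
      ∑ Z ∈ 𝒵, (((FF S s (T / (∏ Q ∈ Z, Q) ^ 6)).filter fun q =>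
        ∃ n ∈ B, SelDim (twist q ((∏ Q ∈ Z, Q : ℕ) : ℤ)) n).card : ℝ) := by
    rw [hTW S s hs 𝒵 hZS T, Nat.cast_sum]
    exact Finset.sum_congr rfl fun Z _ => by rw [card_FF_filter S s _ fun q =>
        ∃ n ∈ B, SelDim (twist q ((∏ Q ∈ Z, Q : ℕ) : ℤ)) n]
  have e2 : ({P : ℤ × ℤ | P ∈ Gam S s 𝒵 ∧ hgt P ≤ T ∧ True}.ncard : ℝ) =
      ∑ Z ∈ 𝒵, (NS S s (T / (∏ Q ∈ Z, Q) ^ 6) : ℝ) := by
    rw [hTW S s hs 𝒵 hZS T fun _ => True, Nat.cast_sum]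
    refine Finset.sum_congr rfl fun Z _ => ?_
    rw [card_FF_filter S s _ fun _ => True, ← card_FF]
    congr 2
    ext x
    simp
  rw [e1, e2]
  obtain ⟨N, hN⟩ : ∃ N : ℝ, N = (NS S s T' : ℝ) := ⟨_, rfl⟩
  obtain ⟨z, hz⟩ : ∃ z : ℝ, z = (𝒵.card : ℝ) := ⟨_, rfl⟩
  have hN0 : 0 ≤ N := by rw [hN]; exact Nat.cast_nonneg _
  have hz0 : 0 ≤ z := by rw [hz]; exact Nat.cast_nonneg _
  rw [card_FF, ← hN, ← hz] at hav
  obtain ⟨G, hG⟩ : ∃ G : ℝ, G = ∑ Z ∈ 𝒵, (NS S s (T / (∏ Q ∈ Z, Q) ^ 6) : ℝ) := ⟨_, rfl⟩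
  obtain ⟨GB, hGB⟩ : ∃ GB : ℝ, GB = ∑ Z ∈ 𝒵, (((FF S s (T / (∏ Q ∈ Z, Q) ^ 6)).filter fun q =>
        ∃ n ∈ B, SelDim (twist q ((∏ Q ∈ Z, Q : ℕ) : ℤ)) n).card : ℝ) := ⟨_, rfl⟩
  obtain ⟨GS, hGS⟩ : ∃ GS : ℝ, GS = ∑ Z ∈ 𝒵, (((FF S s T').filter fun q =>
        ∃ n ∈ B, SelDim (twist q ((∏ Q ∈ Z, Q : ℕ) : ℤ)) n).card : ℝ) := ⟨_, rfl⟩
  rw [← hG, ← hGB]
  rw [← hGS] at hav
  have f1 : GB ≤ GS := by
    rw [hGB, hGS]
    exact Finset.sum_le_sum fun Z hZ => (cmp_FF S s (hT0 Z hZ).1 _).1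
  have f2 : GS ≤ GB + z * (ε₁ * N) := by
    rw [hGB, hGS, hz, ← nsmul_eq_mul, ← Finset.sum_const, ← Finset.sum_add_distrib]
    refine Finset.sum_le_sum fun Z hZ => ?_
    refine (cmp_FF S s (hT0 Z hZ).1 _).2.trans (add_le_add_right ?_ _)
    refine (hT0 Z hZ).2.trans ?_
    rw [hN]
    exact mul_le_mul_of_nonneg_right hη2 (Nat.cast_nonneg _)
  have f3 : G ≤ z * N := by
    rw [hG, hz, ← nsmul_eq_mul, ← Finset.sum_const]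
    refine Finset.sum_le_sum fun Z hZ => ?_
    rw [hN, ← card_FF, ← card_FF]
    exact_mod_cast Finset.card_le_card (FF_mono S s (hT0 Z hZ).1)
  have f4 : z * N ≤ G + z * (ε₁ * N) := by
    rw [hG, hz, ← nsmul_eq_mul, ← nsmul_eq_mul, ← Finset.sum_const, ← Finset.sum_const,
      ← Finset.sum_add_distrib]
    refine Finset.sum_le_sum fun Z hZ => ?_
    have h5 := (hT0 Z hZ).2
    have h6 : C * (2 * η) * (NS S s T' : ℝ) ≤ ε₁ * (NS S s T' : ℝ) :=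
      mul_le_mul_of_nonneg_right hη2 (Nat.cast_nonneg _)
    rw [hN]
    linarith
  have hzN : 0 ≤ z * N := mul_nonneg hz0 hN0
  have f5 : z * N ≤ 2 * G := by
    have : z * (ε₁ * N) ≤ 1 / 2 * (z * N) := by
      calc z * (ε₁ * N) = ε₁ * (z * N) := by ring
        _ ≤ _ := mul_le_mul_of_nonneg_right hε₁1 hzN
    linarith
  have hG0 : 0 ≤ G := by linarith
  obtain ⟨f6, f7⟩ := abs_le.1 hav
  have f8 : c * G ≤ c * (z * N) := mul_le_mul_of_nonneg_left f3 hc0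
  have f9 : c * (z * N) ≤ c * G + ε₁ * (z * N) := by
    calc c * (z * N) ≤ c * (G + z * (ε₁ * N)) := mul_le_mul_of_nonneg_left f4 hc0
      _ = c * G + c * (ε₁ * (z * N)) := by ring
      _ ≤ c * G + 1 * (ε₁ * (z * N)) := by
          have : 0 ≤ ε₁ * (z * N) := mul_nonneg hε₁.le hzN
          nlinarith
      _ = _ := by ring
  have f10 : 5 * ε₁ * (z * N) ≤ ε * G := by
    calc 5 * ε₁ * (z * N) ≤ 5 * ε₁ * (2 * G) := mul_le_mul_of_nonneg_left f5 (by positivity)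
      _ = (10 * ε₁) * G := by ring
      _ ≤ ε * G := mul_le_mul_of_nonneg_right hε₁2 hG0
  have f11 : z * (ε₁ * N) = ε₁ * (z * N) := by ring
  rw [f11] at f2
  have f12 : (ε₁ + 2 * ε₁) * (z * N) = 3 * (ε₁ * (z * N)) := by ring
  rw [f12] at f6 f7
  rw [abs_le]
  constructor <;> nlinarith [mul_nonneg hε₁.le hzN]

end Pool.Agent.Helper29L
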