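import Pool.Agent.Helper29L.Thm2
import Pool.Agent.Helper29L.Stm5

/-!
# Almost all curves of the family: the distribution over bounded twists
-/

set_option autoImplicit false
set_option linter.all false

open IsDedekindDomain NumberField Finset Filter
open scoped Classical

namespace Pool.Agent.Helper29L

open Pool.Agent.H30EV (curve twist)
open Pool.Agent.H30GR (Sel2)
open Pool.Agent.Helper29K (InFamily SE Pr8 zS Bx NR mem_zS card_zS prod_zS mem_Bx nr_congr goodS_of)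

/-- The levels of the pair `p`. -/
noncomputable def lv (𝒬 : ℕ → Finset ℕ) (p : ℤ × ℤ) (i : ℕ) : Finset ℕ := SE (𝒬 i) p.1 p.2

theorem lv_sub (𝒬 : ℕ → Finset ℕ) (p : ℤ × ℤ) (i : ℕ) : lv 𝒬 p i ⊆ 𝒬 i := Finset.filter_subset _ _

/-- The pair `p` is nice: the levels are not empty, and the distribution of the dimensions of `Sel_2`
over the twists by products of one prime in each of the first `k` levels, averaged with that for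
`k + 1` levels, is `C2` up to `ε`. -/
def Nice (k : ℕ) (𝒬 : ℕ → Finset ℕ) (ε : ℝ) (p : ℤ × ℤ) : Prop :=
  (∀ i < k + 1, (lv 𝒬 p i).Nonempty) ∧
  ∀ B : Set ℕ, |(frac k (lv 𝒬 p) (fun Z => ∃ n ∈ B, SelDim (twist p ((∏ Q ∈ Z, Q : ℕ) : ℤ)) n) +
    frac (k + 1) (lv 𝒬 p) (fun Z => ∃ n ∈ B, SelDim (twist p ((∏ Q ∈ Z, Q : ℕ) : ℤ)) n)) / 2 -
      ∑' n, B.indicator C2 n| ≤ ε

/-- The conclusion of Job TV2. -/
def TV2k (ε : ℝ) (R k : ℕ) (δ : ℝ) : Prop :=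
  ∀ A : ℕ → Finset ℕ, (∀ i < k + 1, (A i).Nonempty) → ∀ r : Finset ℕ → ℕ, r ∅ ≤ R →
    (∀ i < k + 1, StepOK r δ ((range i).biUnion A) (A i)) →
    ∀ B : Set ℕ, |(frac k A (fun Z => r Z ∈ B) + frac (k + 1) A (fun Z => r Z ∈ B)) / 2 -
      ∑' n, B.indicator C2 n| ≤ ε

theorem frac_congr {k : ℕ} {A : ℕ → Finset ℕ} {P P' : Finset ℕ → Prop}
    (h : ∀ Z ⊆ (range k).biUnion A, (P Z ↔ P' Z)) : frac k A P = frac k A P' := by
  unfold frac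
  congr 3
  refine Finset.filter_congr fun Q hQ => h _ fun q hq => ?_
  obtain ⟨i, -, rfl⟩ := Finset.mem_image.1 hq
  exact Finset.mem_biUnion.2 ⟨i, Finset.mem_range.2 i.2, Fintype.mem_piFinset.1 hQ i⟩

/-- **One curve.** -/
theorem nice_of (hLIN : S_LIN2) (hSIZE : S_SIZE) (hLOW : S_SLOW) (hUP : S_SUP) {κ : ℕ} (hκ : PLBk κ)
    {ε δ : ℝ} {k : ℕ} (hδ : 0 < δ) {p : ℤ × ℤ} (hF : InFamily p) {X : ℕ} (hX : p ∈ Bx X)
    {𝒬₀ : Finset ℕ} (h8₀ : Pr8 𝒬₀) (hTV : TV2k ε 𝒬₀.card k δ) {m₀ : ℕ} (hm₀ : 1 ≤ m₀)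
    (hf₀ : p ∉ FewSet 𝒬₀ m₀ X) (hu₀ : p ∉ UnbSet κ X 𝒬₀ (1 / 8) m₀) {𝒬 : ℕ → Finset ℕ} {m : ℕ → ℕ}
    (h𝒬 : ∀ i < k + 1, Pr8 (𝒬 i) ∧ Disjoint 𝒬₀ (𝒬 i) ∧ 1 ≤ m i)
    (hdis : ∀ i < k + 1, ∀ j < i, Disjoint (𝒬 j) (𝒬 i))
    (hf : ∀ i < k + 1, p ∉ FewSet (𝒬 i) (m i) X)
    (hu : ∀ i < k + 1, ∀ Z ⊆ (range i).biUnion 𝒬, (p.1 * ((∏ Q ∈ Z, Q : ℕ) : ℤ) ^ 2,
      p.2 * ((∏ Q ∈ Z, Q : ℕ) : ℤ) ^ 3) ∉ UnbSet κ ((∏ Q ∈ Z, Q) * X) (𝒬 i) δ (m i)) :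
    Nice k 𝒬 ε p := by
  have hm : ∀ i < k + 1, m i ≤ (lv 𝒬 p i).card := by
    intro i hi
    by_contra hcon
    exact hf i hi ⟨hX, not_le.1 hcon⟩
  have hne : ∀ i < k + 1, (lv 𝒬 p i).Nonempty := fun i hi =>
    Finset.card_pos.1 ((h𝒬 i hi).2.2.trans (hm i hi))
  have hm0 : m₀ ≤ (SE 𝒬₀ p.1 p.2).card := by
    by_contra hcon
    exact hf₀ ⟨hX, not_le.1 hcon⟩
  obtain ⟨S, hS⟩ : ∃ S : Finset ℕ, S = SE 𝒬₀ p.1 p.2 ∪ (range (k + 1)).biUnion (lv 𝒬 p) := ⟨_, rfl⟩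
  have h0S : SE 𝒬₀ p.1 p.2 ⊆ S := by rw [hS]; exact Finset.subset_union_left
  have hWS : (range (k + 1)).biUnion (lv 𝒬 p) ⊆ S := by rw [hS]; exact Finset.subset_union_right
  have hiS : ∀ i < k + 1, lv 𝒬 p i ⊆ S := fun i hi =>
    (Finset.subset_biUnion_of_mem (lv 𝒬 p) (Finset.mem_range.2 hi)).trans hWS
  have hiW : ∀ i ≤ k + 1, (range i).biUnion (lv 𝒬 p) ⊆ S := fun i hi =>
    (Finset.biUnion_subset_biUnion_of_subset_left _ (Finset.range_mono hi)).trans hWS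
  have hTyp : Typ p S := by
    refine ⟨?_, ?_⟩
    · intro Q hQ
      rw [hS] at hQ
      rcases Finset.mem_union.1 hQ with h | h
      · exact h8₀ Q (Finset.mem_filter.1 h).1
      · obtain ⟨i, hi, h⟩ := Finset.mem_biUnion.1 h
        exact (h𝒬 i (Finset.mem_range.1 hi)).1 Q (Finset.mem_filter.1 h).1
    · intro Q hQ
      rw [hS] at hQ
      rcases Finset.mem_union.1 hQ with h | h
      · exact (Finset.mem_filter.1 h).2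
      · obtain ⟨i, hi, h⟩ := Finset.mem_biUnion.1 h
        exact (Finset.mem_filter.1 h).2
  have hb₀ : BalN p S ∅ (SE 𝒬₀ p.1 p.2) (1 / 8) := by
    refine balN_of hκ hX h8₀ (fun Q hQ => absurd hQ (Finset.notMem_empty _))
      (Finset.disjoint_empty_left _) (Finset.empty_subset _) h0S hm0 ?_
    intro Z hZ
    rw [Finset.subset_empty.1 hZ, Finset.prod_empty, one_mul]
    push_cast
    rw [mul_one, mul_one]
    exact hu₀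
  obtain ⟨r, hr1, hr2, hr3⟩ := ranks hLIN hSIZE hLOW hUP hF hTyp h0S
    (Finset.card_pos.1 (hm₀.trans hm0)) (by norm_num) hb₀
  have hWsub : ∀ i, (range i).biUnion (lv 𝒬 p) ⊆ (range i).biUnion 𝒬 := fun i =>
    Finset.biUnion_mono fun j _ => lv_sub 𝒬 p j
  have hdisW : ∀ i < k + 1, Disjoint ((range i).biUnion 𝒬) (𝒬 i) := by
    intro i hi
    rw [Finset.disjoint_biUnion_left]
    exact fun j hj => hdis i hi j (Finset.mem_range.1 hj)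
  have hstep : ∀ i < k + 1, StepOK r δ ((range i).biUnion (lv 𝒬 p)) (lv 𝒬 p i) := by
    intro i hi Z hZ
    have hZ𝒬 : Z ⊆ (range i).biUnion 𝒬 := hZ.trans (hWsub i)
    have hd : Disjoint Z (𝒬 i) := Finset.disjoint_of_subset_left hZ𝒬 (hdisW i hi)
    refine hr3 Z (lv 𝒬 p i) (hZ.trans (hiW i hi.le)) (hiS i hi)
      (Finset.disjoint_of_subset_right (lv_sub 𝒬 p i) hd) δ hδ.le ?_
    refine balN_of hκ hX (h𝒬 i hi).1 (fun Q hQ => ?_) hd (hZ.trans (hiW i hi.le)) (hiS i hi)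
      (hm i hi) fun Z' hZ' => hu i hi Z' (hZ'.trans hZ𝒬)
    obtain ⟨j, hj, h⟩ := Finset.mem_biUnion.1 (hZ𝒬 hQ)
    exact ((h𝒬 j ((Finset.mem_range.1 hj).trans hi)).1 Q h).1
  have key := hTV (lv 𝒬 p) hne r (hr2.trans (Finset.card_le_card (Finset.filter_subset _ _))) hstep
  refine ⟨hne, fun B => ?_⟩
  rw [frac_congr (k := k) (P' := fun Z => r Z ∈ B) (fun Z hZ => selDim_iff (hr1 Z (hZ.trans
      (hiW k (Nat.le_succ k)))) B),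
    frac_congr (k := k + 1) (P' := fun Z => r Z ∈ B) (fun Z hZ => selDim_iff (hr1 Z (hZ.trans
      (hiW (k + 1) le_rfl))) B)]
  exact key B

/-- The members of the family `InFamily` of height at most `T`. -/
def FamT (T : ℕ) : Set (ℤ × ℤ) := {p | InFamily p ∧ hgt p ≤ T}

theorem famS_empty {s : ℕ → ℤ} {p : ℤ × ℤ} : FamS ∅ s p ↔ InFamily p :=
  ⟨fun h => h.fam, fun h => ⟨h, fun Q hQ => absurd hQ (Finset.notMem_empty _),
    fun Q hQ => absurd hQ (Finset.notMem_empty _)⟩⟩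

/-- **Almost all curves of the family.** -/
theorem main2 (hLIN : S_LIN2) (hSIZE : S_SIZE) (hLOW : S_SLOW) (hUP : S_SUP) (hTV : S_TV2)
    (hLEV : S_LEV2) (hLB : S_LOWB) {ε : ℝ} (hε : 0 < ε) :
    ∃ (k : ℕ) (𝒬 : ℕ → Finset ℕ), (∀ i < k + 1, Pr8 (𝒬 i)) ∧
      (∀ i < k + 1, ∀ j < i, Disjoint (𝒬 j) (𝒬 i)) ∧ ∀ᶠ T : ℕ in atTop,
      (({p : ℤ × ℤ | p ∈ FamT T ∧ ¬ Nice k 𝒬 ε p}.ncard : ℕ) : ℝ) ≤ ε * ((FamT T).ncard : ℝ) := by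
  obtain ⟨κ, hκ⟩ := exists_κ
  obtain ⟨c, hc, hlow⟩ := hLB
  obtain ⟨ε₀, hε₀, hε₀'⟩ : ∃ ε₀ : ℝ, 0 < ε₀ ∧ 4 * ε₀ * 32 / c ≤ ε := ⟨ε * c / 128, by positivity, by
    refine le_of_eq ?_
    field_simp
    norm_num⟩
  obtain ⟨𝒬a, ma, hQa, -, heva⟩ := hLEV κ 1 (1 / 8) ε₀ (by norm_num) (by norm_num) hε₀ ∅
  obtain ⟨h8₀, -, hm₀⟩ := hQa 0 one_pos
  obtain ⟨k, δ, hδ, hδ1, hTVk⟩ := hTV ε hε (𝒬a 0).card
  obtain ⟨𝒬, m, h𝒬, hdis, hev⟩ := hLEV κ (k + 1) δ (ε₀ / (k + 1)) hδ hδ1 (by positivity) (𝒬a 0)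
  refine ⟨k, 𝒬, fun i hi => (h𝒬 i hi).1, hdis, ?_⟩
  have htend : Tendsto (fun T : ℕ => ⌈(T : ℝ) ^ (1 / 6 : ℝ)⌉₊) atTop atTop :=
    tendsto_nat_ceil_atTop.comp ((tendsto_rpow_atTop (by norm_num)).comp tendsto_natCast_atTop_atTop)
  have hgr : GoodRes ∅ (fun _ => 0) := ⟨fun Q hQ => absurd hQ (Finset.notMem_empty _),
    fun Q hQ => absurd hQ (Finset.notMem_empty _)⟩
  filter_upwards [htend.eventually heva, htend.eventually hev, hlow ∅ (fun _ => 0) hgr,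
    eventually_ge_atTop 1] with T hT0 hT1 hT2 hT3
  obtain ⟨X, hX⟩ : ∃ X : ℕ, X = ⌈(T : ℝ) ^ (1 / 6 : ℝ)⌉₊ := ⟨_, rfl⟩
  rw [← hX] at hT0 hT1
  obtain ⟨hfa, hua, hub⟩ := hT0 0 one_pos
  rw [Finset.range_zero, Finset.biUnion_empty] at hua hub
  have hua' := hua ∅ subset_rfl
  rw [Finset.prod_empty, one_mul] at hua'
  rw [Finset.powerset_empty, Finset.sum_singleton, Finset.prod_empty, one_mul] at hub
  have hXle : (T : ℝ) ^ (1 / 6 : ℝ) ≤ X := by rw [hX]; exact Nat.le_ceil _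
  have hT3' : (1 : ℝ) ≤ T := by exact_mod_cast hT3
  have hone : (1 : ℝ) ≤ (T : ℝ) ^ (1 / 6 : ℝ) := Real.one_le_rpow hT3' (by norm_num)
  have hXup : (X : ℝ) ≤ 2 * (T : ℝ) ^ (1 / 6 : ℝ) := by
    have := Nat.ceil_lt_add_one (show (0 : ℝ) ≤ (T : ℝ) ^ (1 / 6 : ℝ) by positivity)
    rw [← hX] at this
    linarith
  have hX5 : (X : ℝ) ^ 5 ≤ 32 * (T : ℝ) ^ (5 / 6 : ℝ) := by
    have h1 : ((T : ℝ) ^ (1 / 6 : ℝ)) ^ 5 = (T : ℝ) ^ (5 / 6 : ℝ) := by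
      rw [← Real.rpow_natCast, ← Real.rpow_mul (Nat.cast_nonneg _)]
      norm_num
    calc (X : ℝ) ^ 5 ≤ (2 * (T : ℝ) ^ (1 / 6 : ℝ)) ^ 5 := pow_le_pow_left₀ (Nat.cast_nonneg _) hXup 5
      _ = 32 * (T : ℝ) ^ (5 / 6 : ℝ) := by rw [mul_pow, h1]; norm_num
  have hbx : ∀ p ∈ FamT T, p ∈ Bx X := fun p hp =>
    bx_of_hgt (S := ∅) (s := fun _ => 0) (famS_empty.2 hp.1) hp.2 hXle
  have hNS : (NS ∅ (fun _ => 0) T : ℝ) = ((FamT T).ncard : ℝ) := by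
    unfold NS FamT
    congr 2
    ext p
    exact and_congr_left' famS_empty
  rw [hNS, Finset.prod_empty] at hT2
  -- the bad pairs
  obtain ⟨G, hG⟩ : ∃ G : ℕ → Finset ℕ → Finset (ℤ × ℤ), ∀ i Z, G i Z = (Bx X).filter fun p =>
      (p.1 * ((∏ Q ∈ Z, Q : ℕ) : ℤ) ^ 2, p.2 * ((∏ Q ∈ Z, Q : ℕ) : ℤ) ^ 3) ∈
        UnbSet κ ((∏ Q ∈ Z, Q) * X) (𝒬 i) δ (m i) := ⟨_, fun _ _ => rfl⟩
  have hsub : {p : ℤ × ℤ | p ∈ FamT T ∧ ¬ Nice k 𝒬 ε p} ⊆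
      (((Bx X).filter (fun p => p ∈ FewSet (𝒬a 0) (ma 0) X) ∪
        ((Bx X).filter (fun p => p ∈ UnbSet κ X (𝒬a 0) (1 / 8) (ma 0)) ∪
        ((range (k + 1)).biUnion (fun i => (Bx X).filter fun p => p ∈ FewSet (𝒬 i) (m i) X) ∪
        (range (k + 1)).biUnion fun i => ((range i).biUnion 𝒬).powerset.biUnion fun Z => G i Z)) :
        Finset (ℤ × ℤ)) : Set (ℤ × ℤ)) := by
    rintro p ⟨hp, hn⟩
    by_contra hcon
    rw [Finset.mem_coe] at hcon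
    simp only [Finset.mem_union, Finset.mem_biUnion, not_or, not_exists, not_and,
      Finset.mem_filter, Finset.mem_powerset, Finset.mem_range] at hcon
    obtain ⟨h1, h2, h3, h4⟩ := hcon
    have hpX := hbx p hp
    refine hn (nice_of hLIN hSIZE hLOW hUP hκ hδ hp.1 hpX h8₀ hTVk hm₀ (h1 hpX) (h2 hpX) h𝒬 hdis
      (fun i hi => h3 i hi hpX) fun i hi Z hZ hcon => h4 i hi Z hZ ?_)
    rw [hG]
    exact Finset.mem_filter.2 ⟨hpX, hcon⟩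
  have hc0 := Set.ncard_le_ncard hsub (Finset.finite_toSet _)
  rw [Set.ncard_coe_finset] at hc0
  have hc1 := hc0.trans ((Finset.card_union_le _ _).trans (Nat.add_le_add_left
    ((Finset.card_union_le _ _).trans
      (Nat.add_le_add_left ((Finset.card_union_le _ _).trans (Nat.add_le_add Finset.card_biUnion_le
      (Finset.card_biUnion_le.trans (Finset.sum_le_sum fun i _ => Finset.card_biUnion_le)))) _)) _))
  have hFfin : ∀ (𝒬' : Finset ℕ) (m' : ℕ), (FewSet 𝒬' m' X).Finite := fun 𝒬' m' =>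
    (Finset.finite_toSet (Bx X)).subset fun p hp => Finset.mem_coe.2 hp.1
  have hA1 : ∀ (𝒬' : Finset ℕ) (m' : ℕ), ((Bx X).filter fun p => p ∈ FewSet 𝒬' m' X).card ≤
      (FewSet 𝒬' m' X).ncard := by
    intro 𝒬' m'
    rw [← Set.ncard_coe_finset]
    refine Set.ncard_le_ncard (fun p hp => ?_) (hFfin 𝒬' m')
    exact (Finset.mem_filter.1 (Finset.mem_coe.1 hp)).2
  have hA2 : ((Bx X).filter fun p => p ∈ UnbSet κ X (𝒬a 0) (1 / 8) (ma 0)).card ≤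
      (UnbSet κ X (𝒬a 0) (1 / 8) (ma 0)).ncard := by
    rw [← Set.ncard_coe_finset]
    refine Set.ncard_le_ncard (fun p hp => ?_) hua'
    exact (Finset.mem_filter.1 (Finset.mem_coe.1 hp)).2
  have hA3 : ∀ i < k + 1, ∀ Z ∈ ((range i).biUnion 𝒬).powerset, (G i Z).card ≤
      (UnbSet κ ((∏ Q ∈ Z, Q) * X) (𝒬 i) δ (m i)).ncard := by
    intro i hi Z hZ
    have hZ' := Finset.mem_powerset.1 hZ
    have hfin := (hT1 i hi).2.1 Z hZ'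
    have hD : ((∏ Q ∈ Z, Q : ℕ) : ℤ) ≠ 0 := by
      have : 0 < ∏ Q ∈ Z, Q := Finset.prod_pos fun Q hQ => by
        obtain ⟨j, hj, h⟩ := Finset.mem_biUnion.1 (hZ' hQ)
        exact ((h𝒬 j ((Finset.mem_range.1 hj).trans hi)).1 Q h).1.pos
      exact_mod_cast this.ne'
    rw [Set.ncard_eq_toFinset_card _ hfin, hG]
    refine Finset.card_le_card_of_injOn (fun p => (p.1 * ((∏ Q ∈ Z, Q : ℕ) : ℤ) ^ 2,
            p.2 * ((∏ Q ∈ Z, Q : ℕ) : ℤ) ^ 3)) ?_ ?_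
    · intro p hp
      exact hfin.mem_toFinset.2 (Finset.mem_filter.1 hp).2
    · rintro ⟨x, y⟩ _ ⟨x', y'⟩ _ h
      obtain ⟨h1, h2⟩ := Prod.mk.inj h
      exact Prod.ext (mul_right_cancel₀ (pow_ne_zero 2 hD) h1)
        (mul_right_cancel₀ (pow_ne_zero 3 hD) h2)
  have hc2 : (({p : ℤ × ℤ | p ∈ FamT T ∧ ¬ Nice k 𝒬 ε p}.ncard : ℕ) : ℝ) ≤
      ε₀ * (X : ℝ) ^ 5 + (ε₀ * (X : ℝ) ^ 5 + (∑ _i ∈ range (k + 1), ε₀ / (k + 1) * (X : ℝ) ^ 5 +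
        ∑ _i ∈ range (k + 1), ε₀ / (k + 1) * (X : ℝ) ^ 5)) := by
    have hc3 : (({p : ℤ × ℤ | p ∈ FamT T ∧ ¬ Nice k 𝒬 ε p}.ncard : ℕ) : ℝ) ≤
        (((Bx X).filter (fun p => p ∈ FewSet (𝒬a 0) (ma 0) X)).card : ℝ) +
        ((((Bx X).filter (fun p => p ∈ UnbSet κ X (𝒬a 0) (1 / 8) (ma 0))).card : ℝ) +
        (∑ i ∈ range (k + 1), (((Bx X).filter fun p => p ∈ FewSet (𝒬 i) (m i) X).card : ℝ) +
        ∑ i ∈ range (k + 1), ∑ Z ∈ ((range i).biUnion 𝒬).powerset, ((G i Z).card : ℝ))) := by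
      exact_mod_cast hc1
    refine hc3.trans (add_le_add ?_ (add_le_add ?_ (add_le_add ?_ ?_)))
    · exact le_trans (by exact_mod_cast hA1 _ _) hfa
    · exact le_trans (by exact_mod_cast hA2) hub
    · refine Finset.sum_le_sum fun i hi => ?_
      exact le_trans (by exact_mod_cast hA1 _ _) (hT1 i (Finset.mem_range.1 hi)).1
    · refine Finset.sum_le_sum fun i hi => ?_
      refine le_trans (Finset.sum_le_sum fun Z hZ => ?_) (hT1 i (Finset.mem_range.1 hi)).2.2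
      exact_mod_cast hA3 i (Finset.mem_range.1 hi) Z hZ
  have e1 : ∑ _i ∈ range (k + 1), ε₀ / (k + 1) * (X : ℝ) ^ 5 = ε₀ * (X : ℝ) ^ 5 := by
    rw [Finset.sum_const, Finset.card_range, nsmul_eq_mul]
    push_cast
    field_simp
  rw [e1] at hc2
  calc (({p : ℤ × ℤ | p ∈ FamT T ∧ ¬ Nice k 𝒬 ε p}.ncard : ℕ) : ℝ)
      ≤ 4 * ε₀ * (X : ℝ) ^ 5 := by linarith
    _ ≤ 4 * ε₀ * (32 * (T : ℝ) ^ (5 / 6 : ℝ)) := mul_le_mul_of_nonneg_left hX5 (by positivity)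
    _ = 4 * ε₀ * 32 / c * (c * (T : ℝ) ^ (5 / 6 : ℝ)) := by field_simp
    _ ≤ 4 * ε₀ * 32 / c * ((FamT T).ncard : ℝ) := by
        refine mul_le_mul_of_nonneg_left ?_ (by positivity)
        simpa using hT2
    _ ≤ ε * ((FamT T).ncard : ℝ) := mul_le_mul_of_nonneg_right hε₀' (Nat.cast_nonneg _)

end Pool.Agent.Helper29L
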