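import Pool.Agent.Helper29L.Thm5
import Pool.Agent.Helper29L.Lev2

/-!
# Almost all curves of the family: the levels in a given set of primes
-/

set_option autoImplicit false
set_option linter.all false

open IsDedekindDomain NumberField Finset Filter
open scoped Classical

namespace Pool.Agent.Helper29L

open Pool.Agent.H30EV (curve twist)
open Pool.Agent.H30GR (Sel2)
open Pool.Agent.Helper29K (InFamily SE Pr8 zS Bx NR mem_zS card_zS prod_zS mem_Bx nr_congr goodS_of)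

/-- `S_LEV2` with levels in `𝒟`. -/
def S_LEV2P (𝒟 : Set ℕ) : Prop := ∀ (κ k : ℕ) (δ ε : ℝ), 0 < δ → δ ≤ 1 / 4 → 0 < ε → ∀ 𝒬₀ : Finset ℕ,
  ∃ (𝒬 : ℕ → Finset ℕ) (m : ℕ → ℕ),
    (∀ i < k, (Pr8 (𝒬 i) ∧ ∀ Q ∈ 𝒬 i, Q ∈ 𝒟) ∧ Disjoint 𝒬₀ (𝒬 i) ∧ 1 ≤ m i) ∧
    (∀ i < k, ∀ j < i, Disjoint (𝒬 j) (𝒬 i)) ∧
    ∀ᶠ X : ℕ in atTop, ∀ i < k, ((FewSet (𝒬 i) (m i) X).ncard : ℝ) ≤ ε * (X : ℝ) ^ 5 ∧
      (∀ Z ⊆ (range i).biUnion 𝒬, (UnbSet κ ((∏ Q ∈ Z, Q) * X) (𝒬 i) δ (m i)).Finite) ∧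
      (∑ Z ∈ ((range i).biUnion 𝒬).powerset,
        ((UnbSet κ ((∏ Q ∈ Z, Q) * X) (𝒬 i) δ (m i)).ncard : ℝ)) ≤ ε * (X : ℝ) ^ 5

/-- The sum of `1 / Q` over the `Q ∈ 𝒟` outside a finite set is large. -/
def DivP (𝒟 : Set ℕ) : Prop := ∀ (T : Finset ℕ) (L : ℝ), ∃ 𝒬 : Finset ℕ, Pr8 𝒬 ∧ (∀ Q ∈ 𝒬, Q ∈ 𝒟) ∧
  Disjoint T 𝒬 ∧ L ≤ ∑ Q ∈ 𝒬, (1 : ℝ) / Q

/-- The levels consist of primes in `𝒟`. -/
theorem lev2P (hM : S_MOM) {𝒟 : Set ℕ} (hdiv : DivP 𝒟) : S_LEV2P 𝒟 := by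
  intro κ k δ ε hδ hδ1 hε 𝒬₀
  induction k with
  | zero =>
    refine ⟨fun _ => ∅, fun _ => 0, fun i hi => absurd hi (Nat.not_lt_zero _),
      fun i hi => absurd hi (Nat.not_lt_zero _), Eventually.of_forall fun X i hi => absurd hi (Nat.not_lt_zero _)⟩
  | succ k ih =>
    obtain ⟨𝒬, m, h1, h2, h3⟩ := ih
    set W : Finset ℕ := (range k).biUnion 𝒬 with hWdef
    have hW : ∀ Q ∈ W, 0 < Q := by
      intro Q hQ
      obtain ⟨j, hj, hQj⟩ := Finset.mem_biUnion.1 hQ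
      exact ((h1 j (mem_range.1 hj)).1.1 Q hQj).1.pos
    obtain ⟨Λ₀, hΛ⟩ := lev2_step hM κ hδ hδ1 hε W hW
    obtain ⟨𝒬', hp, hpP, hd, hL⟩ := hdiv (𝒬₀ ∪ W) Λ₀
    obtain ⟨m', hm', hev⟩ := hΛ 𝒬' hp hL
    have eU : ∀ i ≤ k, (range i).biUnion (Function.update 𝒬 k 𝒬') = (range i).biUnion 𝒬 := by
      intro i hi
      refine Finset.biUnion_congr rfl fun j hj => ?_
      rw [mem_range] at hj
      rw [Function.update_of_ne (by omega)]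
    refine ⟨Function.update 𝒬 k 𝒬', Function.update m k m', fun i hi => ?_, fun i hi j hj => ?_, ?_⟩
    · rcases Nat.lt_succ_iff_lt_or_eq.1 hi with h | h
      · rw [Function.update_of_ne (by omega), Function.update_of_ne (by omega)]
        exact h1 i h
      · subst h
        rw [Function.update_self, Function.update_self]
        exact ⟨⟨hp, hpP⟩, Disjoint.mono_left Finset.subset_union_left hd, hm'⟩
    · rcases Nat.lt_succ_iff_lt_or_eq.1 hi with h | h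
      · rw [Function.update_of_ne (by omega), Function.update_of_ne (by omega)]
        exact h2 i h j hj
      · subst h
        rw [Function.update_self, Function.update_of_ne (by omega)]
        refine Disjoint.mono_left ?_ hd
        refine subset_trans ?_ Finset.subset_union_right
        exact Finset.subset_biUnion_of_mem 𝒬 (mem_range.2 hj)
    · filter_upwards [h3, hev] with X h4 h5 i hi
      rw [eU i (by omega)]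
      rcases Nat.lt_succ_iff_lt_or_eq.1 hi with h | h
      · rw [Function.update_of_ne (by omega), Function.update_of_ne (by omega)]
        exact h4 i h
      · subst h
        rw [Function.update_self, Function.update_self]
        exact h5

/-- **Almost all curves of the family.** -/
theorem main3P (hLIN : S_LIN2) (hSIZE : S_SIZE) (hLOW : S_SLOW) (hUP : S_SUP)
    {𝒟 : Set ℕ} (hLEV : S_LEV2P 𝒟) (hLB : S_LOWB) {ε : ℝ} (hε : 0 < ε) :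
    ∃ R : ℕ, ∀ (k : ℕ) (δ : ℝ), 0 < δ → δ ≤ 1 / 4 → ∃ 𝒬 : ℕ → Finset ℕ,
      (∀ i < k + 1, Pr8 (𝒬 i) ∧ ∀ Q ∈ 𝒬 i, Q ∈ 𝒟) ∧
      (∀ i < k + 1, ∀ j < i, Disjoint (𝒬 j) (𝒬 i)) ∧ ∀ᶠ T : ℕ in atTop,
      (({p : ℤ × ℤ | p ∈ FamT T ∧ ¬ Rk R k δ 𝒬 p}.ncard : ℕ) : ℝ) ≤ ε * ((FamT T).ncard : ℝ) := by
  obtain ⟨κ, hκ⟩ := exists_κ
  obtain ⟨c, hc, hlow⟩ := hLB
  obtain ⟨ε₀, hε₀, hε₀'⟩ : ∃ ε₀ : ℝ, 0 < ε₀ ∧ 4 * ε₀ * 32 / c ≤ ε := ⟨ε * c / 128, by positivity, by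
    refine le_of_eq ?_
    field_simp
    norm_num⟩
  obtain ⟨𝒬a, ma, hQa, -, heva⟩ := hLEV κ 1 (1 / 8) ε₀ (by norm_num) (by norm_num) hε₀ ∅
  obtain ⟨⟨h8₀, -⟩, -, hm₀⟩ := hQa 0 one_pos
  refine ⟨(𝒬a 0).card, fun k δ hδ hδ1 => ?_⟩
  obtain ⟨𝒬, m, h𝒬, hdis, hev⟩ := hLEV κ (k + 1) δ (ε₀ / (k + 1)) hδ hδ1 (by positivity) (𝒬a 0)
  refine ⟨𝒬, fun i hi => (h𝒬 i hi).1, hdis, ?_⟩
  have h𝒬' : ∀ i < k + 1, Pr8 (𝒬 i) ∧ Disjoint (𝒬a 0) (𝒬 i) ∧ 1 ≤ m i := fun i hi =>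
    ⟨(h𝒬 i hi).1.1, (h𝒬 i hi).2.1, (h𝒬 i hi).2.2⟩
  have htend : Tendsto (fun T : ℕ => ⌈(T : ℝ) ^ (1 / 6 : ℝ)⌉₊) atTop atTop :=
    tendsto_nat_ceil_atTop.comp ((tendsto_rpow_atTop (by norm_num)).comp tendsto_natCast_atTop_atTop)
  have hgr : GoodRes ∅ (fun _ => 0) := ⟨fun Q hQ => absurd hQ (Finset.notMem_empty _),
    fun Q hQ => absurd hQ (Finset.notMem_empty _)⟩
  filter_upwards [htend.eventually heva, htend.eventually hev, hlow ∅ (fun _ => 0) hgr,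
    eventually_ge_atTop 1] with T hT0 hT1 hT2 hT3
  obtain ⟨X, hX⟩ : ∃ X : ℕ, X = ⌈(T : ℝ) ^ (1 / 6 : ℝ)⌉₊ := ⟨_, rfl⟩
  rw [← hX] at hT0 hT1
  obtain ⟨hfa, hua, hub⟩ := hT0 0 one_pos
  rw [Finset.range_zero, Finset.biUnion_empty] at hua hub
  have hua' := hua ∅ subset_rfl
  rw [Finset.prod_empty, one_mul] at hua'
  rw [Finset.powerset_empty, Finset.sum_singleton, Finset.prod_empty, one_mul] at hub
  have hXle : (T : ℝ) ^ (1 / 6 : ℝ) ≤ X := by rw [hX]; exact Nat.le_ceil _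
  have hT3' : (1 : ℝ) ≤ T := by exact_mod_cast hT3
  have hone : (1 : ℝ) ≤ (T : ℝ) ^ (1 / 6 : ℝ) := Real.one_le_rpow hT3' (by norm_num)
  have hXup : (X : ℝ) ≤ 2 * (T : ℝ) ^ (1 / 6 : ℝ) := by
    have := Nat.ceil_lt_add_one (show (0 : ℝ) ≤ (T : ℝ) ^ (1 / 6 : ℝ) by positivity)
    rw [← hX] at this
    linarith
  have hX5 : (X : ℝ) ^ 5 ≤ 32 * (T : ℝ) ^ (5 / 6 : ℝ) := by
    have h1 : ((T : ℝ) ^ (1 / 6 : ℝ)) ^ 5 = (T : ℝ) ^ (5 / 6 : ℝ) := by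
      rw [← Real.rpow_natCast, ← Real.rpow_mul (Nat.cast_nonneg _)]
      norm_num
    calc (X : ℝ) ^ 5 ≤ (2 * (T : ℝ) ^ (1 / 6 : ℝ)) ^ 5 := pow_le_pow_left₀ (Nat.cast_nonneg _) hXup 5
      _ = 32 * (T : ℝ) ^ (5 / 6 : ℝ) := by rw [mul_pow, h1]; norm_num
  have hbx : ∀ p ∈ FamT T, p ∈ Bx X := fun p hp =>
    bx_of_hgt (S := ∅) (s := fun _ => 0) (famS_empty.2 hp.1) hp.2 hXle
  have hNS : (NS ∅ (fun _ => 0) T : ℝ) = ((FamT T).ncard : ℝ) := by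
    unfold NS FamT
    congr 2
    ext p
    exact and_congr_left' famS_empty
  rw [hNS, Finset.prod_empty] at hT2
  -- the bad pairs
  obtain ⟨G, hG⟩ : ∃ G : ℕ → Finset ℕ → Finset (ℤ × ℤ), ∀ i Z, G i Z = (Bx X).filter fun p =>
      (p.1 * ((∏ Q ∈ Z, Q : ℕ) : ℤ) ^ 2, p.2 * ((∏ Q ∈ Z, Q : ℕ) : ℤ) ^ 3) ∈
        UnbSet κ ((∏ Q ∈ Z, Q) * X) (𝒬 i) δ (m i) := ⟨_, fun _ _ => rfl⟩
  have hsub : {p : ℤ × ℤ | p ∈ FamT T ∧ ¬ Rk (𝒬a 0).card k δ 𝒬 p} ⊆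
      (((Bx X).filter (fun p => p ∈ FewSet (𝒬a 0) (ma 0) X) ∪
        ((Bx X).filter (fun p => p ∈ UnbSet κ X (𝒬a 0) (1 / 8) (ma 0)) ∪
        ((range (k + 1)).biUnion (fun i => (Bx X).filter fun p => p ∈ FewSet (𝒬 i) (m i) X) ∪
        (range (k + 1)).biUnion fun i => ((range i).biUnion 𝒬).powerset.biUnion fun Z => G i Z)) :
        Finset (ℤ × ℤ)) : Set (ℤ × ℤ)) := by
    rintro p ⟨hp, hn⟩
    by_contra hcon
    rw [Finset.mem_coe] at hcon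
    simp only [Finset.mem_union, Finset.mem_biUnion, not_or, not_exists, not_and,
      Finset.mem_filter, Finset.mem_powerset, Finset.mem_range] at hcon
    obtain ⟨h1, h2, h3, h4⟩ := hcon
    have hpX := hbx p hp
    refine hn (rk_of hLIN hSIZE hLOW hUP hκ hδ hp.1 hpX h8₀ hm₀ (h1 hpX) (h2 hpX) h𝒬' hdis
      (fun i hi => h3 i hi hpX) fun i hi Z hZ hcon => h4 i hi Z hZ ?_)
    rw [hG]
    exact Finset.mem_filter.2 ⟨hpX, hcon⟩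
  have hc0 := Set.ncard_le_ncard hsub (Finset.finite_toSet _)
  rw [Set.ncard_coe_finset] at hc0
  have hc1 := hc0.trans ((Finset.card_union_le _ _).trans (Nat.add_le_add_left
    ((Finset.card_union_le _ _).trans
      (Nat.add_le_add_left ((Finset.card_union_le _ _).trans (Nat.add_le_add Finset.card_biUnion_le
      (Finset.card_biUnion_le.trans (Finset.sum_le_sum fun i _ => Finset.card_biUnion_le)))) _)) _))
  have hFfin : ∀ (𝒬' : Finset ℕ) (m' : ℕ), (FewSet 𝒬' m' X).Finite := fun 𝒬' m' =>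
    (Finset.finite_toSet (Bx X)).subset fun p hp => Finset.mem_coe.2 hp.1
  have hA1 : ∀ (𝒬' : Finset ℕ) (m' : ℕ), ((Bx X).filter fun p => p ∈ FewSet 𝒬' m' X).card ≤
      (FewSet 𝒬' m' X).ncard := by
    intro 𝒬' m'
    rw [← Set.ncard_coe_finset]
    refine Set.ncard_le_ncard (fun p hp => ?_) (hFfin 𝒬' m')
    exact (Finset.mem_filter.1 (Finset.mem_coe.1 hp)).2
  have hA2 : ((Bx X).filter fun p => p ∈ UnbSet κ X (𝒬a 0) (1 / 8) (ma 0)).card ≤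
      (UnbSet κ X (𝒬a 0) (1 / 8) (ma 0)).ncard := by
    rw [← Set.ncard_coe_finset]
    refine Set.ncard_le_ncard (fun p hp => ?_) hua'
    exact (Finset.mem_filter.1 (Finset.mem_coe.1 hp)).2
  have hA3 : ∀ i < k + 1, ∀ Z ∈ ((range i).biUnion 𝒬).powerset, (G i Z).card ≤
      (UnbSet κ ((∏ Q ∈ Z, Q) * X) (𝒬 i) δ (m i)).ncard := by
    intro i hi Z hZ
    have hZ' := Finset.mem_powerset.1 hZ
    have hfin := (hT1 i hi).2.1 Z hZ'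
    have hD : ((∏ Q ∈ Z, Q : ℕ) : ℤ) ≠ 0 := by
      have : 0 < ∏ Q ∈ Z, Q := Finset.prod_pos fun Q hQ => by
        obtain ⟨j, hj, h⟩ := Finset.mem_biUnion.1 (hZ' hQ)
        exact ((h𝒬' j ((Finset.mem_range.1 hj).trans hi)).1 Q h).1.pos
      exact_mod_cast this.ne'
    rw [Set.ncard_eq_toFinset_card _ hfin, hG]
    refine Finset.card_le_card_of_injOn (fun p => (p.1 * ((∏ Q ∈ Z, Q : ℕ) : ℤ) ^ 2,
            p.2 * ((∏ Q ∈ Z, Q : ℕ) : ℤ) ^ 3)) ?_ ?_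
    · intro p hp
      exact hfin.mem_toFinset.2 (Finset.mem_filter.1 hp).2
    · rintro ⟨x, y⟩ _ ⟨x', y'⟩ _ h
      obtain ⟨h1, h2⟩ := Prod.mk.inj h
      exact Prod.ext (mul_right_cancel₀ (pow_ne_zero 2 hD) h1)
        (mul_right_cancel₀ (pow_ne_zero 3 hD) h2)
  have hc2 : (({p : ℤ × ℤ | p ∈ FamT T ∧ ¬ Rk (𝒬a 0).card k δ 𝒬 p}.ncard : ℕ) : ℝ) ≤
      ε₀ * (X : ℝ) ^ 5 + (ε₀ * (X : ℝ) ^ 5 + (∑ _i ∈ range (k + 1), ε₀ / (k + 1) * (X : ℝ) ^ 5 +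
        ∑ _i ∈ range (k + 1), ε₀ / (k + 1) * (X : ℝ) ^ 5)) := by
    have hc3 : (({p : ℤ × ℤ | p ∈ FamT T ∧ ¬ Rk (𝒬a 0).card k δ 𝒬 p}.ncard : ℕ) : ℝ) ≤
        (((Bx X).filter (fun p => p ∈ FewSet (𝒬a 0) (ma 0) X)).card : ℝ) +
        ((((Bx X).filter (fun p => p ∈ UnbSet κ X (𝒬a 0) (1 / 8) (ma 0))).card : ℝ) +
        (∑ i ∈ range (k + 1), (((Bx X).filter fun p => p ∈ FewSet (𝒬 i) (m i) X).card : ℝ) +
        ∑ i ∈ range (k + 1), ∑ Z ∈ ((range i).biUnion 𝒬).powerset, ((G i Z).card : ℝ))) := by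
      exact_mod_cast hc1
    refine hc3.trans (add_le_add ?_ (add_le_add ?_ (add_le_add ?_ ?_)))
    · exact le_trans (by exact_mod_cast hA1 _ _) hfa
    · exact le_trans (by exact_mod_cast hA2) hub
    · refine Finset.sum_le_sum fun i hi => ?_
      exact le_trans (by exact_mod_cast hA1 _ _) (hT1 i (Finset.mem_range.1 hi)).1
    · refine Finset.sum_le_sum fun i hi => ?_
      refine le_trans (Finset.sum_le_sum fun Z hZ => ?_) (hT1 i (Finset.mem_range.1 hi)).2.2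
      exact_mod_cast hA3 i (Finset.mem_range.1 hi) Z hZ
  have e1 : ∑ _i ∈ range (k + 1), ε₀ / (k + 1) * (X : ℝ) ^ 5 = ε₀ * (X : ℝ) ^ 5 := by
    rw [Finset.sum_const, Finset.card_range, nsmul_eq_mul]
    push_cast
    field_simp
  rw [e1] at hc2
  calc (({p : ℤ × ℤ | p ∈ FamT T ∧ ¬ Rk (𝒬a 0).card k δ 𝒬 p}.ncard : ℕ) : ℝ)
      ≤ 4 * ε₀ * (X : ℝ) ^ 5 := by linarith
    _ ≤ 4 * ε₀ * (32 * (T : ℝ) ^ (5 / 6 : ℝ)) := mul_le_mul_of_nonneg_left hX5 (by positivity)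
    _ = 4 * ε₀ * 32 / c * (c * (T : ℝ) ^ (5 / 6 : ℝ)) := by field_simp
    _ ≤ 4 * ε₀ * 32 / c * ((FamT T).ncard : ℝ) := by
        refine mul_le_mul_of_nonneg_left ?_ (by positivity)
        simpa using hT2
    _ ≤ ε * ((FamT T).ncard : ℝ) := mul_le_mul_of_nonneg_right hε₀' (Nat.cast_nonneg _)


/-- **Almost all curves of the family, with the parity.** -/
theorem main4P (hLIN : S_LIN2) (hSIZE : S_SIZE) (hLOW : S_SLOW) (hUP : S_SUP) (hTV : S_TV2)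
    {𝒟 : Set ℕ} (hLEV : S_LEV2P 𝒟) (hLB : S_LOWB) {ε : ℝ} (hε : 0 < ε) :
    ∃ (k : ℕ) (𝒬 : ℕ → Finset ℕ), (∀ i < k + 1, Pr8 (𝒬 i) ∧ ∀ Q ∈ 𝒬 i, Q ∈ 𝒟) ∧
      (∀ i < k + 1, ∀ j < i, Disjoint (𝒬 j) (𝒬 i)) ∧ ∀ᶠ T : ℕ in atTop,
      (({p : ℤ × ℤ | p ∈ FamT T ∧ ¬ NiceP k 𝒬 ε p}.ncard : ℕ) : ℝ) ≤ ε * ((FamT T).ncard : ℝ) := by
  obtain ⟨R, h⟩ := main3P hLIN hSIZE hLOW hUP hLEV hLB hε
  obtain ⟨k, δ, hδ, hδ1, hTVk⟩ := hTV (ε / 2) (half_pos hε) R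
  obtain ⟨𝒬, h8, hdis, hev⟩ := h k δ hδ hδ1
  refine ⟨k, 𝒬, h8, hdis, ?_⟩
  filter_upwards [hev] with T hT
  refine le_trans ?_ hT
  have hfin : {p : ℤ × ℤ | p ∈ FamT T ∧ ¬ Rk R k δ 𝒬 p}.Finite :=
    (fin_hgt T).subset fun P hP => hP.1.2
  exact Nat.cast_le.2 (Set.ncard_le_ncard (fun p hp => ⟨hp.1, fun hn => hp.2 (niceP_of hTVk hn)⟩)
    hfin)

end Pool.Agent.Helper29L
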