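import Pool.Agent.Helper29L.Stm4

/-!
# Jobs TW1 and TW2 (helper24): the twists of the members of the family
-/

set_option autoImplicit false
set_option linter.all false

open Finset Filter
open scoped Classical

namespace Pool.Agent.Helper29L

open Pool.Agent.Helper29K (SE Pr8 zS Bx InFamily NR)
open Pool.Agent.H30EV (twist NoZero)

theorem prod_pos_of {S Z : Finset ℕ} (hS : Pr8 S) (hZ : Z ⊆ S) : 0 < ∏ Q ∈ Z, Q :=
  Finset.prod_pos fun Q hQ => (hS Q (hZ hQ)).1.pos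

theorem not_dvd_a {S : Finset ℕ} {s : ℕ → ℤ} (hS : GoodRes S s) {q : ℤ × ℤ} (hq : FamS S s q) {Q : ℕ}
    (hQ : Q ∈ S) : ¬ (Q : ℤ) ∣ q.1 := by
  intro h
  have h1 := hq.ra Q hQ
  have h2 : (Q : ℤ) ∣ s Q := by
    have := dvd_sub h h1
    simpa using this
  have h3 := hS.2 Q hQ 0
  apply h3
  simpa using h2

theorem mem_iff_dvd {S Z : Finset ℕ} {s : ℕ → ℤ} (hS : GoodRes S s) (hZ : Z ⊆ S) {q : ℤ × ℤ}
    (hq : FamS S s q) {Q : ℕ} (hQ : Q ∈ S) :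
    Q ∈ Z ↔ (Q : ℤ) ∣ (twist q ((∏ Q ∈ Z, Q : ℕ) : ℤ)).1 := by
  constructor
  · intro h
    have h1 : (Q : ℤ) ∣ ((∏ Q ∈ Z, Q : ℕ) : ℤ) :=
      Int.natCast_dvd_natCast.2 (Finset.dvd_prod_of_mem (fun Q : ℕ => Q) h)
    exact (dvd_pow h1 two_ne_zero).mul_left _
  · intro h
    have hp : Prime (Q : ℤ) := Nat.prime_iff_prime_int.1 (hS.1 Q hQ).1
    rcases hp.dvd_or_dvd h with h1 | h1
    · exact absurd h1 (not_dvd_a hS hq hQ)
    · have h2 := Int.natCast_dvd_natCast.1 (hp.dvd_of_dvd_pow h1)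
      obtain ⟨Q', hQ', h3⟩ := ((hS.1 Q hQ).1.prime.dvd_finset_prod_iff _).1 h2
      have h4 := (Nat.prime_dvd_prime_iff_eq (hS.1 Q hQ).1 (hS.1 Q' (hZ hQ')).1).1 h3
      rw [h4]
      exact hQ'

theorem twist_inj {S Z Z' : Finset ℕ} {s : ℕ → ℤ} (hS : GoodRes S s) (hZ : Z ⊆ S) (hZ' : Z' ⊆ S)
    {q q' : ℤ × ℤ} (hq : FamS S s q) (hq' : FamS S s q')
    (h : twist q ((∏ Q ∈ Z, Q : ℕ) : ℤ) = twist q' ((∏ Q ∈ Z', Q : ℕ) : ℤ)) : Z = Z' := by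
  ext Q
  constructor
  · intro hQ
    rw [mem_iff_dvd hS hZ' hq' (hZ hQ), ← h]
    exact (mem_iff_dvd hS hZ hq (hZ hQ)).1 hQ
  · intro hQ
    rw [mem_iff_dvd hS hZ hq (hZ' hQ), h]
    exact (mem_iff_dvd hS hZ' hq' (hZ' hQ)).1 hQ

theorem twist_inj' {d : ℤ} (hd : d ≠ 0) : Function.Injective fun q : ℤ × ℤ => twist q d := by
  rintro ⟨a, b⟩ ⟨a', b'⟩ h
  have h1 : a * d ^ 2 = a' * d ^ 2 := congrArg Prod.fst h
  have h2 : b * d ^ 3 = b' * d ^ 3 := congrArg Prod.snd h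
  rw [Prod.mk.injEq]
  exact ⟨mul_right_cancel₀ (pow_ne_zero _ hd) h1, mul_right_cancel₀ (pow_ne_zero _ hd) h2⟩

theorem hgt_twist (q : ℤ × ℤ) (d : ℕ) : hgt (twist q (d : ℤ)) = hgt q * d ^ 6 := by
  unfold hgt twist
  rw [Int.natAbs_mul, Int.natAbs_mul, Int.natAbs_pow, Int.natAbs_pow, Int.natAbs_natCast,
    ← Nat.mul_max_mul_right]
  ring_nf

theorem hgt_fin (T : ℕ) : {p : ℤ × ℤ | hgt p ≤ T}.Finite := by
  have h1 : (Set.Icc (-(T : ℤ)) T ×ˢ Set.Icc (-(T : ℤ)) T).Finite :=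
    (Set.finite_Icc _ _).prod (Set.finite_Icc _ _)
  refine h1.subset ?_
  rintro ⟨a, b⟩ h
  have h2 : hgt (a, b) ≤ T := h
  unfold hgt at h2
  rw [max_le_iff] at h2
  have h3 : a.natAbs ≤ T := (Nat.le_self_pow three_ne_zero _).trans h2.1
  have h4 : b.natAbs ≤ T := (Nat.le_self_pow two_ne_zero _).trans h2.2
  rw [Set.mem_prod, Set.mem_Icc, Set.mem_Icc]
  simp only
  omega

theorem tw1 : S_TW1 := by
  intro S s hS 𝒵 h𝒵 T Pp
  have hfin : ∀ Z, {q : ℤ × ℤ | FamS S s q ∧ hgt q ≤ T / (∏ Q ∈ Z, Q) ^ 6 ∧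
      Pp (twist q ((∏ Q ∈ Z, Q : ℕ) : ℤ))}.Finite := fun Z =>
    (hgt_fin (T / (∏ Q ∈ Z, Q) ^ 6)).subset fun q hq => hq.2.1
  have hset : {P : ℤ × ℤ | P ∈ Gam S s 𝒵 ∧ hgt P ≤ T ∧ Pp P} =
      ((𝒵.biUnion fun Z => (hfin Z).toFinset.image fun q => twist q ((∏ Q ∈ Z, Q : ℕ) : ℤ) :
        Finset (ℤ × ℤ)) : Set (ℤ × ℤ)) := by
    ext P
    rw [Finset.mem_coe, Finset.mem_biUnion]
    constructor
    · rintro ⟨⟨Z, hZ, q, hq, rfl⟩, h1, h2⟩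
      refine ⟨Z, hZ, Finset.mem_image.2 ⟨q, (hfin Z).mem_toFinset.2 ⟨hq, ?_, h2⟩, rfl⟩⟩
      rw [hgt_twist] at h1
      exact (Nat.le_div_iff_mul_le (pow_pos (prod_pos_of hS.1 (h𝒵 Z hZ)) _)).2 h1
    · rintro ⟨Z, hZ, h1⟩
      obtain ⟨q, hq, rfl⟩ := Finset.mem_image.1 h1
      obtain ⟨h2, h3, h4⟩ := (hfin Z).mem_toFinset.1 hq
      refine ⟨⟨Z, hZ, q, h2, rfl⟩, ?_, h4⟩
      rw [hgt_twist]
      exact (Nat.le_div_iff_mul_le (pow_pos (prod_pos_of hS.1 (h𝒵 Z hZ)) _)).1 h3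
  rw [hset, Set.ncard_coe_finset, Finset.card_biUnion]
  · refine Finset.sum_congr rfl fun Z hZ => ?_
    rw [Finset.card_image_of_injective _ (twist_inj' (by
      exact_mod_cast (prod_pos_of hS.1 (h𝒵 Z hZ)).ne')), ← Set.ncard_eq_toFinset_card _ (hfin Z)]
  · intro Z hZ Z' hZ' hne
    rw [Function.onFun, Finset.disjoint_left]
    intro P h1 h2
    obtain ⟨q, hq, rfl⟩ := Finset.mem_image.1 h1
    obtain ⟨q', hq', h3⟩ := Finset.mem_image.1 h2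
    exact hne (twist_inj hS (h𝒵 Z hZ) (h𝒵 Z' hZ') ((hfin Z).mem_toFinset.1 hq).1
      ((hfin Z').mem_toFinset.1 hq').1 h3.symm)

/-! ### Part 2 -/

theorem disc_twist (q : ℤ × ℤ) (d : ℤ) :
    4 * (twist q d).1 ^ 3 + 27 * (twist q d).2 ^ 2 = d ^ 6 * (4 * q.1 ^ 3 + 27 * q.2 ^ 2) := by
  unfold twist
  ring

theorem sqf_of {r : ℤ} (h : ∀ p : ℕ, p.Prime → ¬ (p : ℤ) ^ 2 ∣ r) : Squarefree r := by
  rw [← Int.squarefree_natAbs, Nat.squarefree_iff_prime_squarefree]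
  intro p hp hd
  apply h p hp
  rw [← Int.natCast_dvd_natCast, Int.dvd_natAbs] at hd
  rw [sq]
  exact_mod_cast hd

theorem nozero_congr {q q' : ℤ × ℤ} (h1 : (3 : ℤ) ∣ q'.1 - q.1) (h2 : (3 : ℤ) ∣ q'.2 - q.2)
    (h : NoZero q 3) : NoZero q' 3 := by
  intro z hz
  apply h z
  have e : z ^ 3 + q.1 * z + q.2 = (z ^ 3 + q'.1 * z + q'.2) - (q'.1 - q.1) * z - (q'.2 - q.2) := by
    ring
  rw [e]
  exact dvd_sub (dvd_sub hz (h1.mul_right z)) h2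

theorem three_not_dvd {q : ℤ × ℤ} (h : NoZero q 3) : ¬ (3 : ℤ) ∣ q.1 := by
  intro h1
  apply h (-q.2)
  have h3 : (3 : ℤ) ∣ (-q.2) ^ 3 - (-q.2) := by
    have h4 : ∀ x : ℤ, (3 : ℤ) ∣ x ^ 3 - x := by
      intro x
      have h5 : x % 3 = 0 ∨ x % 3 = 1 ∨ x % 3 = 2 := by omega
      obtain ⟨k, hk⟩ : ∃ k, k = x / 3 := ⟨_, rfl⟩
      rcases h5 with h6 | h6 | h6
      · have e : x = 3 * k := by omega
        rw [e]
        exact ⟨9 * k ^ 3 - k, by ring⟩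
      · have e : x = 3 * k + 1 := by omega
        rw [e]
        exact ⟨9 * k ^ 3 + 9 * k ^ 2 + 2 * k, by ring⟩
      · have e : x = 3 * k + 2 := by omega
        rw [e]
        exact ⟨9 * k ^ 3 + 18 * k ^ 2 + 11 * k + 2, by ring⟩
    exact h4 _
  have e : (-q.2) ^ 3 + q.1 * (-q.2) + q.2 = ((-q.2) ^ 3 - (-q.2)) + q.1 * (-q.2) := by ring
  show ((3 : ℕ) : ℤ) ∣ (-q.2) ^ 3 + q.1 * (-q.2) + q.2
  rw [e]
  push_cast
  exact dvd_add h3 (h1.mul_right _)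

/-- The members of the family are given by congruences and the condition at the other primes. -/
theorem famS_congr {S : Finset ℕ} {s : ℕ → ℤ} (hS : GoodRes S s) {q q' : ℤ × ℤ} (hq : FamS S s q)
    (h1 : ((12 * ∏ Q ∈ S, Q : ℕ) : ℤ) ∣ q'.1 - q.1) (h2 : ((12 * ∏ Q ∈ S, Q : ℕ) : ℤ) ∣ q'.2 - q.2)
    (hpos : 0 < q'.1)
    (h3 : ∀ p : ℕ, p.Prime → ¬ p ∣ 12 * ∏ Q ∈ S, Q → ¬ (p : ℤ) ^ 2 ∣ 4 * q'.1 ^ 3 + 27 * q'.2 ^ 2) :
    FamS S s q' := by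
  have d12 : ((12 : ℕ) : ℤ) ∣ ((12 * ∏ Q ∈ S, Q : ℕ) : ℤ) :=
    Int.natCast_dvd_natCast.2 (dvd_mul_right _ _)
  have dQ : ∀ Q ∈ S, (Q : ℤ) ∣ ((12 * ∏ Q ∈ S, Q : ℕ) : ℤ) := fun Q hQ =>
    Int.natCast_dvd_natCast.2 ((Finset.dvd_prod_of_mem (fun Q : ℕ => Q) hQ).mul_left _)
  have a12 : (12 : ℤ) ∣ q'.1 - q.1 := by
    have := d12.trans h1
    exact_mod_cast this
  have b12 : (12 : ℤ) ∣ q'.2 - q.2 := by
    have := d12.trans h2
    exact_mod_cast this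
  have ha4 := hq.fam.a_four
  have hb4 := hq.fam.b_four
  have ha4' : q'.1 % 4 = 3 := by omega
  have hb4' : q'.2 % 4 = 3 := by omega
  have h3' : NoZero q' 3 := nozero_congr (by omega) (by omega) hq.fam.three
  have hra : ∀ Q ∈ S, (Q : ℤ) ∣ q'.1 - s Q := fun Q hQ => by
    have := dvd_add ((dQ Q hQ).trans h1) (hq.ra Q hQ)
    simpa using this
  have hrb : ∀ Q ∈ S, (Q : ℤ) ∣ q'.2 := fun Q hQ => by
    have := dvd_add ((dQ Q hQ).trans h2) (hq.rb Q hQ)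
    simpa using this
  refine ⟨⟨hpos, ha4', hb4', h3', sqf_of fun p hp hd => ?_⟩, hra, hrb⟩
  by_cases hpM : p ∣ 12 * ∏ Q ∈ S, Q
  · have hpd : (p : ℤ) ∣ 4 * q'.1 ^ 3 + 27 * q'.2 ^ 2 := (dvd_pow_self _ two_ne_zero).trans hd
    have hpp : Prime (p : ℤ) := Nat.prime_iff_prime_int.1 hp
    rcases (Nat.Prime.dvd_mul hp).1 hpM with h4 | h4
    · have h5 : p = 2 ∨ p = 3 := by
        have h6 : p ∣ 2 ^ 2 * 3 := h4
        rcases (Nat.Prime.dvd_mul hp).1 h6 with h7 | h7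
        · exact Or.inl ((Nat.prime_dvd_prime_iff_eq hp Nat.prime_two).1 (hp.dvd_of_dvd_pow h7))
        · exact Or.inr ((Nat.prime_dvd_prime_iff_eq hp Nat.prime_three).1 h7)
      rcases h5 with rfl | rfl
      · obtain ⟨k, hk⟩ : ∃ k, q'.2 = 4 * k + 3 := ⟨q'.2 / 4, by omega⟩
        obtain ⟨j, hj⟩ := hpd
        rw [hk] at hj
        push_cast at hj
        have e : 4 * q'.1 ^ 3 + 27 * (4 * k + 3) ^ 2 =
            2 * (2 * q'.1 ^ 3 + 216 * k ^ 2 + 324 * k + 121) + 1 := by ring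
        rw [e] at hj
        omega
      · have h6 : (3 : ℤ) ∣ q'.1 := by
          have h7 : (3 : ℤ) ∣ 4 * q'.1 ^ 3 := by
            have h8 : (3 : ℤ) ∣ 27 * q'.2 ^ 2 := ⟨9 * q'.2 ^ 2, by ring⟩
            have := dvd_sub (by exact_mod_cast hpd : (3 : ℤ) ∣ 4 * q'.1 ^ 3 + 27 * q'.2 ^ 2) h8
            simpa using this
          rcases Int.prime_three.dvd_or_dvd h7 with h8 | h8
          · norm_num at h8
          · exact Int.prime_three.dvd_of_dvd_pow h8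
        exact three_not_dvd h3' h6
    · obtain ⟨Q', hQ', h5⟩ := (hp.prime.dvd_finset_prod_iff _).1 h4
      have h6 := (Nat.prime_dvd_prime_iff_eq hp (hS.1 Q' hQ').1).1 h5
      subst h6
      have h7 : (p : ℤ) ∣ 4 * q'.1 ^ 3 := by
        have h8 : (p : ℤ) ∣ 27 * q'.2 ^ 2 := (dvd_pow (hrb p hQ') two_ne_zero).mul_left _
        have := dvd_sub hpd h8
        simpa using this
      rcases hpp.dvd_or_dvd h7 with h8 | h8
      · have h9 : p ∣ 4 := by exact_mod_cast h8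
        have h10 := Nat.le_of_dvd (by norm_num) h9
        have h11 := (hS.1 p hQ').2
        have h12 := hp.two_le
        omega
      · have h9 := hpp.dvd_of_dvd_pow h8
        have h10 : (p : ℤ) ∣ s p := by
          have := dvd_sub h9 (hra p hQ')
          simpa using this
        apply hS.2 p hQ' 0
        simpa using h10
  · exact h3 p hp hpM hd

theorem tw2 : S_TW2 := by
  intro S s hS 𝒵 h𝒵
  obtain ⟨N, hN⟩ : ∃ N : ℕ, N = ∏ Q ∈ S, Q := ⟨_, rfl⟩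
  have hN0 : 0 < N := by
    rw [hN]
    exact prod_pos_of hS.1 (subset_refl _)
  refine ⟨12 * N ^ 4, {x | ∃ P ∈ Gam S s 𝒵, (((P.1 : ℤ) : ZMod (12 * N ^ 4)),
    ((P.2 : ℤ) : ZMod (12 * N ^ 4))) = x}, by positivity, fun P => ⟨?_, ?_⟩⟩
  · intro hP
    obtain ⟨Z, hZ, q, hq, rfl⟩ := hP
    have hd := prod_pos_of hS.1 (h𝒵 Z hZ)
    refine ⟨?_, ⟨_, ⟨Z, hZ, q, hq, rfl⟩, rfl⟩, fun p hp hpM hdvd => ?_⟩
    · exact mul_pos hq.fam.pos (pow_pos (by exact_mod_cast hd) 2)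
    · rw [disc_twist] at hdvd
      have hpd : ¬ p ∣ ∏ Q ∈ Z, Q := by
        intro h1
        apply hpM
        have h2 : (∏ Q ∈ Z, Q) ∣ N := by
          rw [hN]
          exact Finset.prod_dvd_prod_of_subset _ _ _ (h𝒵 Z hZ)
        exact ((h1.trans h2).trans (dvd_pow_self N four_ne_zero)).mul_left _
      have hcop : IsCoprime ((p : ℤ) ^ 2) (((∏ Q ∈ Z, Q : ℕ) : ℤ) ^ 6) := by
        apply IsCoprime.pow
        exact Nat.isCoprime_iff_coprime.2 ((Nat.Prime.coprime_iff_not_dvd hp).2 hpd)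
      have h3 := hcop.dvd_of_dvd_mul_left hdvd
      have h4 := hq.fam.sqfree (p : ℤ) (by rw [← sq]; exact h3)
      rw [Int.isUnit_iff] at h4
      have h5 := hp.two_le
      omega
  · rintro ⟨hpos, ⟨P₀, ⟨Z, hZ, q, hq, rfl⟩, hP₀⟩, hsq⟩
    have hd := prod_pos_of hS.1 (h𝒵 Z hZ)
    obtain ⟨e, he⟩ : (∏ Q ∈ Z, Q) ∣ N := by
      rw [hN]
      exact Finset.prod_dvd_prod_of_subset _ _ _ (h𝒵 Z hZ)
    obtain ⟨d, hdd⟩ : ∃ d : ℕ, d = ∏ Q ∈ Z, Q := ⟨_, rfl⟩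
    rw [← hdd] at hd he hP₀
    rw [Prod.mk.injEq] at hP₀
    obtain ⟨e1, e2⟩ := hP₀
    rw [ZMod.intCast_eq_intCast_iff_dvd_sub] at e1 e2
    obtain ⟨t, ht⟩ := e1
    obtain ⟨u, hu⟩ := e2
    have hNe : (N : ℤ) = d * e := by exact_mod_cast he
    have hd0 : (0 : ℤ) < d := by exact_mod_cast hd
    have hT1 : (twist q (d : ℤ)).1 = q.1 * (d : ℤ) ^ 2 := rfl
    have hT2 : (twist q (d : ℤ)).2 = q.2 * (d : ℤ) ^ 3 := rfl
    rw [hT1] at ht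
    rw [hT2] at hu
    push_cast at ht hu
    have h1 : P.1 = (q.1 + 12 * N ^ 2 * e ^ 2 * t) * (d : ℤ) ^ 2 := by
      have : P.1 = q.1 * (d : ℤ) ^ 2 + 12 * (N : ℤ) ^ 4 * t := by linarith
      rw [this]
      have e4 : (N : ℤ) ^ 4 = N ^ 2 * (d * e) ^ 2 := by rw [← hNe]; ring
      rw [e4]
      ring
    have h2 : P.2 = (q.2 + 12 * N * e ^ 3 * u) * (d : ℤ) ^ 3 := by
      have : P.2 = q.2 * (d : ℤ) ^ 3 + 12 * (N : ℤ) ^ 4 * u := by linarith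
      rw [this]
      have e4 : (N : ℤ) ^ 4 = N * (d * e) ^ 3 := by rw [← hNe]; ring
      rw [e4]
      ring
    obtain ⟨q', hq'⟩ : ∃ q' : ℤ × ℤ, q' = (q.1 + 12 * N ^ 2 * e ^ 2 * t, q.2 + 12 * N * e ^ 3 * u) :=
      ⟨_, rfl⟩
    have hP : P = twist q' (d : ℤ) := by
      rw [hq']
      exact Prod.ext h1 h2
    refine ⟨Z, hZ, q', ?_, by rw [← hdd]; exact hP⟩
    refine famS_congr hS hq ?_ ?_ ?_ ?_
    · rw [hq', ← hN]
      push_cast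
      exact ⟨N * e ^ 2 * t, by ring⟩
    · rw [hq', ← hN]
      push_cast
      exact ⟨e ^ 3 * u, by ring⟩
    · rw [hP] at hpos
      have : 0 < q'.1 * (d : ℤ) ^ 2 := hpos
      exact (mul_pos_iff_of_pos_right (by positivity)).1 this
    · intro p hp hpM hdvd
      rw [← hN] at hpM
      apply hsq p hp
      · intro h3
        apply hpM
        rcases (Nat.Prime.dvd_mul hp).1 h3 with h4 | h4
        · exact h4.mul_right _
        · exact (hp.dvd_of_dvd_pow h4).mul_left _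
      · rw [hP, disc_twist]
        exact hdvd.mul_left _

end Pool.Agent.Helper29L
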